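import Pool.Agent.Lib.MP_31392c_an.Full.SpecZ

/-!
# MP_31392c_an full proof: one approximation step
-/

set_option autoImplicit false

open MeasureTheory Set Filter Topology Metric

namespace Pool.MP_31392c_an

namespace ApproxStep

lemma mem_cth {E : Set ℂ} (hne : E.Nonempty) {δ : ℝ} (h0 : 0 ≤ δ) {z : ℂ}
    (h : infDist z E ≤ δ) : z ∈ cthickening δ E :=
  mem_cthickening_iff.2 ((ENNReal.le_ofReal_iff_toReal_le (infEDist_ne_top hne) h0).2 h)

lemma norm_dir (t : ℝ) : ‖Complex.exp ((t : ℂ) * Complex.I)‖ = 1 := by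
  rw [Complex.norm_exp_ofReal_mul_I]

/-- enlarging a finite family of intervals at the right end -/
lemma enlarge (P : Finset (ℝ × ℝ)) (m m' : ℝ) (hm : 0 < m) (hmm : m ≤ m')
    (hpos : ∀ p ∈ P, 0 ≤ p.1 ∧ p.1 < p.2)
    (hdisj : ∀ p ∈ P, ∀ q ∈ P, p ≠ q → Disjoint (Ioo p.1 p.2) (Ioo q.1 q.2))
    (hsum : ∑ p ∈ P, (p.2 - p.1) = m) :
    ∃ P' : Finset (ℝ × ℝ), (∀ p ∈ P', 0 ≤ p.1 ∧ p.1 < p.2) ∧
      (∀ p ∈ P', ∀ q ∈ P', p ≠ q → Disjoint (Ioo p.1 p.2) (Ioo q.1 q.2)) ∧
      ∑ p ∈ P', (p.2 - p.1) = m' ∧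
      ∀ p ∈ P', ∀ t ∈ Icc p.1 p.2, ∃ q ∈ P, ∃ s ∈ Icc q.1 q.2, |t - s| ≤ m' - m := by
  rcases hmm.eq_or_lt with h | h
  · subst h
    refine ⟨P, hpos, hdisj, hsum, fun p hp t ht => ⟨p, hp, t, ht, by simp⟩⟩
  · have hne : P.Nonempty := by
      by_contra hcon
      rw [Finset.not_nonempty_iff_eq_empty] at hcon
      rw [hcon, Finset.sum_empty] at hsum
      linarith
    obtain ⟨q, hq, hmax⟩ := Finset.exists_max_image P (fun p => p.2) hne
    have hnew : (q.2, q.2 + (m' - m)) ∉ P := by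
      intro hmem
      have := hmax _ hmem
      simp only at this
      linarith
    have hq0 : 0 ≤ q.2 := by
      have := hpos q hq
      linarith
    have hdn : ∀ p ∈ P, Disjoint (Ioo q.2 (q.2 + (m' - m))) (Ioo p.1 p.2) := by
      intro p hp
      rw [Set.disjoint_left]
      intro x hx hx'
      have := hmax p hp
      simp only [mem_Ioo] at hx hx'
      linarith
    refine ⟨insert (q.2, q.2 + (m' - m)) P, ?_, ?_, ?_, ?_⟩
    · intro p hp
      rcases Finset.mem_insert.1 hp with rfl | hp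
      · exact ⟨hq0, by simp only; linarith⟩
      · exact hpos p hp
    · intro p hp p' hp' hne'
      rcases Finset.mem_insert.1 hp with h1 | h1
      · rcases Finset.mem_insert.1 hp' with h2 | h2
        · exact absurd (h1.trans h2.symm) hne'
        · rw [h1]
          exact hdn p' h2
      · rcases Finset.mem_insert.1 hp' with h2 | h2
        · rw [h2]
          exact (hdn p h1).symm
        · exact hdisj p h1 p' h2 hne'
    · rw [Finset.sum_insert hnew, hsum]
      simp only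
      ring
    · intro p hp t ht
      rcases Finset.mem_insert.1 hp with h1 | h1
      · rw [h1] at ht
        simp only [mem_Icc] at ht
        refine ⟨q, hq, q.2, ⟨(hpos q hq).2.le, le_rfl⟩, ?_⟩
        rw [abs_of_nonneg (by linarith)]
        linarith
      · exact ⟨p, h1, t, ht, by simp; linarith⟩

lemma seg_sub {T : Set ℂ} {a b : ℝ} (hab : a ≤ b) {e : ℂ} (h : ∀ t ∈ Icc a b, (t : ℂ) * e ∈ T) :
    segment ℝ ((a : ℂ) * e) ((b : ℂ) * e) ⊆ T := by
  intro z hz
  rw [segment_eq_image] at hz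
  obtain ⟨s, ⟨hs0, hs1⟩, rfl⟩ := hz
  have : (fun θ : ℝ => (1 - θ) • ((a : ℂ) * e) + θ • ((b : ℂ) * e)) s =
      (((1 - s) * a + s * b : ℝ) : ℂ) * e := by
    simp only [Complex.real_smul]
    push_cast
    ring
  rw [this]
  refine h _ ⟨?_, ?_⟩
  · nlinarith
  · nlinarith

end ApproxStep

open ApproxStep in
theorem s_ApproxStep : GridRed → CapDiff → ChainThm → FekLink → StarMapEx → GreenEx → GreenSub →
    SegBound → KapStar → StarCheb → ApproxStep := by
  intro hGR hCD hCT hFL hSM hGE hGS hSB hKS hSC E R θs ε hE hR hray hε hε1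
  obtain ⟨N, θ, m, P, hN, hD, hm, ⟨j₀, hj₀⟩, hPpos, hPdisj, hPsum, hPE, hLR⟩ :=
    hGR E R θs ε hE hR hray hε
  obtain ⟨m', hm', hdiff⟩ := hCD N θ m ε hD hm hε
  have hm'pos : ∀ j, 0 < m' j := fun j => lt_of_lt_of_le (hm j) (hm' j).1
  have hEne : E.Nonempty := by
    by_contra hcon
    rw [Set.not_nonempty_iff_eq_empty] at hcon
    unfold rayMeasure at hray
    rw [hcon] at hray
    simp at hray
  have hen := fun k => enlarge (P k) (m k) (m' k) (hm k) (hm' k).1 (hPpos k) (hPdisj k) (hPsum k)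
  choose P' hP'pos hP'disj hP'sum hP'near using hen
  set E' : Set ℂ := cthickening (4 * ε) E with hE'
  have hE'c : IsCompact E' := hE.cthickening
  have hP'E : ∀ k, ∀ p ∈ P' k, ∀ t ∈ Icc p.1 p.2,
      (t : ℂ) * Complex.exp ((θ k : ℂ) * Complex.I) ∈ E' := by
    intro k p hp t ht
    obtain ⟨q, hq, s, hs, hts⟩ := hP'near k p hp t ht
    have h1 := hPE k q hq s hs
    refine mem_cth hEne (by linarith) ?_
    have h2 : dist ((t : ℂ) * Complex.exp ((θ k : ℂ) * Complex.I))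
        ((s : ℂ) * Complex.exp ((θ k : ℂ) * Complex.I)) = |t - s| := by
      rw [dist_eq_norm, ← sub_mul, norm_mul, norm_dir, mul_one, ← Complex.ofReal_sub,
        Complex.norm_real, Real.norm_eq_abs]
    have h3 := infDist_le_infDist_add_dist (s := E)
      (x := (t : ℂ) * Complex.exp ((θ k : ℂ) * Complex.I))
      (y := (s : ℂ) * Complex.exp ((θ k : ℂ) * Complex.I))
    have h4 := (hm' k).2
    linarith
  set S : Set ℂ := starSet 0 θ m' with hS
  have hchain : cp S ≤ cp E' :=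
    hCT N θ m' P' E' (by omega) hD hm'pos hP'pos hP'disj hP'sum hdiff hE'c.isBounded hP'E
  -- E' is fat
  have hfatE : Fat E' := by
    refine ⟨hE'c.isBounded, ?_⟩
    have hne : (P' j₀).Nonempty := by
      by_contra hcon
      rw [Finset.not_nonempty_iff_eq_empty] at hcon
      have := hP'sum j₀
      rw [hcon, Finset.sum_empty] at this
      have := hm'pos j₀
      linarith
    obtain ⟨p, hp⟩ := hne
    refine ⟨(p.1 : ℂ) * Complex.exp ((θ j₀ : ℂ) * Complex.I),
      (p.2 : ℂ) * Complex.exp ((θ j₀ : ℂ) * Complex.I), ?_,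
      seg_sub (hP'pos j₀ p hp).2.le (hP'E j₀ p hp)⟩
    intro heq
    have h1 := mul_right_cancel₀ (Complex.exp_ne_zero _) heq
    have h2 : p.1 = p.2 := by exact_mod_cast h1
    exact absurd h2 (hP'pos j₀ p hp).2.ne
  have hfek : cp E' ≤ tcap E' := hFL E' hE'c hfatE
  -- the star map
  have hkl : (⟨0, by omega⟩ : Fin N) ≠ ⟨1, by omega⟩ := by
    intro h
    simp at h
  obtain ⟨φ, C, hφ, _⟩ := hSM N θ m' ⟨0, by omega⟩ ⟨1, by omega⟩ hD hkl (fun j => (hm'pos j).le)
    (hm'pos _) (hm'pos _)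
  have harm : ∀ j, segment ℝ (0 : ℂ) ((m' j : ℂ) * Complex.exp ((θ j : ℂ) * Complex.I)) ⊆ S := by
    intro j
    have := seg_sub (T := S) (e := Complex.exp ((θ j : ℂ) * Complex.I)) (hm'pos j).le
      (fun t ht => ⟨j, t, ht.1, ht.2, by simp⟩)
    simpa using this
  have htip : ∀ j, (0 : ℂ) ≠ (m' j : ℂ) * Complex.exp ((θ j : ℂ) * Complex.I) := by
    intro j h
    have h1 : (m' j : ℂ) * Complex.exp ((θ j : ℂ) * Complex.I) ≠ 0 :=
      mul_ne_zero (by exact_mod_cast (hm'pos j).ne') (Complex.exp_ne_zero _)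
    exact h1 h.symm
  have hfatS : Fat S := by
    refine ⟨?_, 0, _, htip j₀, harm j₀⟩
    refine (isBounded_closedBall (x := (0 : ℂ)) (r := ∑ j, m' j)).subset ?_
    rintro z ⟨j, r, hr0, hrj, hz⟩
    rw [mem_closedBall_zero_iff, hz, zero_add, norm_mul, norm_dir, mul_one, Complex.norm_real,
      Real.norm_of_nonneg hr0]
    exact hrj.trans (Finset.single_le_sum (fun i _ => (hm'pos i).le) (Finset.mem_univ j))
  have hcpS : cp S = C := by
    unfold cp
    rw [hKS S φ C hfatS hφ, Real.exp_log hφ.Cpos]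
  obtain ⟨u, hu, huφ⟩ := hGE.2 S φ C hφ
  have hsub : IsSub S u (-(Real.log C)) := hGS (fun _ => 0) S u (Real.log C) (fun _ => le_rfl) hu
  set ℓ : ℝ := rayMeasure E θs with hℓ
  set ω : ℝ := 2 * Real.sqrt (Real.sqrt ε) * (1 + Real.sqrt (2 / ℓ)) with hω
  have hsε : 0 < Real.sqrt ε := Real.sqrt_pos.2 hε
  have hssε : 0 < Real.sqrt (Real.sqrt ε) := Real.sqrt_pos.2 hsε
  have hωpos : 0 < ω := by
    rw [hω]
    positivity
  have hε_eq : ε / Real.sqrt ε = Real.sqrt ε := by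
    rw [div_eq_iff hsε.ne']
    exact (Real.mul_self_sqrt hε.le).symm
  have hsε_ge : ε ≤ Real.sqrt ε := by
    rw [Real.le_sqrt' hε]
    nlinarith
  -- bound for u on LR E
  have hub : ∀ z ∈ LR E, u z ≤ ω := by
    intro z hz
    obtain ⟨j, r, hr0, hrj, hzr⟩ := hLR z hz
    by_cases hcase : Real.sqrt ε ≤ m' j
    · have hw : (r : ℂ) * Complex.exp ((θ j : ℂ) * Complex.I) ∈
          segment ℝ (0 : ℂ) ((m' j : ℂ) * Complex.exp ((θ j : ℂ) * Complex.I)) := by
        have h1 : r ≤ m' j := hrj.trans (hm' j).1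
        rw [segment_eq_image]
        refine ⟨r / m' j, ⟨div_nonneg hr0 (hm'pos j).le, (div_le_one (hm'pos j)).2 h1⟩, ?_⟩
        simp only [smul_zero, zero_add, Complex.real_smul]
        rw [← mul_assoc]
        congr 1
        push_cast
        exact div_mul_cancel₀ _ (by exact_mod_cast (hm'pos j).ne')
      have h2 := hSB S u _ 0 _ (htip j) (harm j) hsub z _ hw
      have h3 : ‖(m' j : ℂ) * Complex.exp ((θ j : ℂ) * Complex.I) - 0‖ = m' j := by
        rw [sub_zero, norm_mul, norm_dir, mul_one, Complex.norm_real,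
          Real.norm_of_nonneg (hm'pos j).le]
      rw [h3] at h2
      have h4 : ‖z - (r : ℂ) * Complex.exp ((θ j : ℂ) * Complex.I)‖ / m' j ≤ Real.sqrt ε := by
        rw [← hε_eq]
        exact div_le_div₀ hε.le hzr hsε hcase
      have h5 := Real.sqrt_le_sqrt h4
      have h6 : 0 ≤ Real.sqrt (2 / ℓ) := Real.sqrt_nonneg _
      rw [hω]
      nlinarith
    · have hlt : m' j < Real.sqrt ε := not_le.1 hcase
      have hmj0 : ℓ ≤ m' j₀ := hj₀.trans (hm' j₀).1
      have h2 := hSB S u _ 0 _ (htip j₀) (harm j₀) hsub z 0 (left_mem_segment ℝ _ _)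
      have h3 : ‖(m' j₀ : ℂ) * Complex.exp ((θ j₀ : ℂ) * Complex.I) - 0‖ = m' j₀ := by
        rw [sub_zero, norm_mul, norm_dir, mul_one, Complex.norm_real,
          Real.norm_of_nonneg (hm'pos j₀).le]
      rw [h3, sub_zero] at h2
      have h4 : ‖z‖ ≤ 2 * Real.sqrt ε := by
        have h5 : ‖z‖ ≤ ‖z - (r : ℂ) * Complex.exp ((θ j : ℂ) * Complex.I)‖ +
            ‖(r : ℂ) * Complex.exp ((θ j : ℂ) * Complex.I)‖ := by
          simpa using norm_add_le (z - (r : ℂ) * Complex.exp ((θ j : ℂ) * Complex.I))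
            ((r : ℂ) * Complex.exp ((θ j : ℂ) * Complex.I))
        have h6 : ‖(r : ℂ) * Complex.exp ((θ j : ℂ) * Complex.I)‖ = r := by
          rw [norm_mul, norm_dir, mul_one, Complex.norm_real, Real.norm_of_nonneg hr0]
        have h7 : r ≤ m' j := hrj.trans (hm' j).1
        linarith
      have h8 : ‖z‖ / m' j₀ ≤ Real.sqrt ε * (2 / ℓ) := by
        have : Real.sqrt ε * (2 / ℓ) = (2 * Real.sqrt ε) / ℓ := by ring
        rw [this]
        exact div_le_div₀ (by positivity) h4 hray hmj0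
      have h9 := Real.sqrt_le_sqrt h8
      rw [Real.sqrt_mul hsε.le] at h9
      rw [hω]
      nlinarith
  set ρ : ℝ := Real.exp (-(2 * ω)) with hρ
  have hρ0 : 0 < ρ := Real.exp_pos _
  have hρ1 : ρ < 1 := by
    rw [hρ, Real.exp_lt_one_iff]
    linarith
  have hcheb : tcap (LR E) ≤ C / ρ := by
    refine hSC S (LR E) φ C ρ hφ hρ0 hρ1 ?_
    intro ζ hζ hζρ hmem
    have h1 := hub _ hmem
    have h2 := huφ ζ hζ (lt_of_le_of_lt hζρ hρ1)
    have h3 : Real.log ‖ζ‖ ≤ -(2 * ω) := by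
      have := Real.log_le_log (norm_pos_iff.2 hζ) hζρ
      rwa [hρ, Real.log_exp] at this
    linarith
  have hCρ : C / ρ = Real.exp (2 * ω) * cp S := by
    rw [hcpS, hρ, Real.exp_neg, div_inv_eq_mul, mul_comm]
  have h2ω : 2 * ω = 4 * Real.sqrt (Real.sqrt ε) * (1 + Real.sqrt (2 / ℓ)) := by
    rw [hω]
    ring
  rw [hCρ, h2ω] at hcheb
  refine hcheb.trans ?_
  exact mul_le_mul_of_nonneg_left (hchain.trans hfek) (Real.exp_pos _).le

end Pool.MP_31392c_an
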