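import Mathlib
import Pool.Agent.Lib.MP_31392c_an.Defs

/-!
# MP_31392c_an, full proof of `cap E ≥ cap LR E` (frozen S04257): common definitions

Paper proof: note 1034 of helper61.  All functions `u, v, a, b, V, …` are real functions on the
plane `ℂ`; `dX`, `dY` are the derivatives in x and y, `lap` the Laplacian, `gp f g` the scalar product
of the gradients.
-/

set_option autoImplicit false

open MeasureTheory Set Filter Topology

namespace Pool.MP_31392c_an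

/-- `∂f/∂x` -/
noncomputable def dX (f : ℂ → ℝ) (z : ℂ) : ℝ := fderiv ℝ f z 1

/-- `∂f/∂y` -/
noncomputable def dY (f : ℂ → ℝ) (z : ℂ) : ℝ := fderiv ℝ f z Complex.I

/-- the Laplacian -/
noncomputable def lap (f : ℂ → ℝ) (z : ℂ) : ℝ := dX (dX f) z + dY (dY f) z

/-- the scalar product `∇f · ∇g` -/
noncomputable def gp (f g : ℂ → ℝ) (z : ℂ) : ℝ := dX f z * dX g z + dY f z * dY g z

/-- `f` is `C²` near every point of (the open set) `U` and `Δ f = V f` on `U` -/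
def VHarm (V f : ℂ → ℝ) (U : Set ℂ) : Prop :=
  ∀ z ∈ U, ContDiffAt ℝ 2 f z ∧ lap f z = V z * f z

/-- killing potentials: `C²`, nonnegative, compactly supported -/
structure Pot (V : ℂ → ℝ) : Prop where
  smooth : ContDiff ℝ 2 V
  nonneg : ∀ z, 0 ≤ V z
  supp : HasCompactSupport V

/-- the star with centre `c`, directions `θ j` and arm lengths `x j` -/
def starSet {N : ℕ} (c : ℂ) (θ x : Fin N → ℝ) : Set ℂ :=
  {z | ∃ j, ∃ r : ℝ, 0 ≤ r ∧ r ≤ x j ∧ z = c + (r : ℂ) * Complex.exp ((θ j : ℂ) * Complex.I)}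

/-- the directions are distinct and listed in counterclockwise order -/
def Dirs {N : ℕ} (θ : Fin N → ℝ) : Prop :=
  StrictMono θ ∧ ∀ i j, θ j < θ i + 2 * Real.pi

/-- `φ` maps the punctured open unit disc conformally onto the complement of `F`, with `φ(0) = ∞`,
`φ(ζ) ~ C/ζ`, and is continuous up to the unit circle, which is mapped into `F`. -/
structure StarMap (F : Set ℂ) (φ : ℂ → ℂ) (C : ℝ) : Prop where
  Cpos : 0 < C
  anal : ∀ ζ, ζ ≠ 0 → ‖ζ‖ < 1 → DifferentiableAt ℂ φ ζ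
  pole : Tendsto (fun ζ => ζ * φ ζ) (𝓝[≠] 0) (𝓝 (C : ℂ))
  cont : ContinuousOn φ {ζ | ζ ≠ 0 ∧ ‖ζ‖ ≤ 1}
  inj : InjOn φ {ζ | ζ ≠ 0 ∧ ‖ζ‖ < 1}
  image : φ '' {ζ | ζ ≠ 0 ∧ ‖ζ‖ < 1} = Fᶜ
  bdry : ∀ ζ, ‖ζ‖ = 1 → φ ζ ∈ F

/-- `u` is the Green function with pole at infinity of `Δ - V` in the complement of `F`, with
Robin constant `κ`: `u(z) = log|z| - κ + o(1)`. The behaviour at infinity is stated in the variable
`1/z`. -/
structure IsGreen (V : ℂ → ℝ) (F : Set ℂ) (u : ℂ → ℝ) (κ : ℝ) : Prop where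
  cont : Continuous u
  zero : ∀ z ∈ F, u z = 0
  pos : ∀ z, z ∉ F → 0 < u z
  harm : VHarm V u Fᶜ
  infty : ∃ (h : ℂ → ℝ) (r : ℝ), 0 < r ∧ (∀ w, ‖w‖ < r → ContDiffAt ℝ 2 h w ∧ lap h w = 0) ∧
    h 0 = 0 ∧ ∀ z, 1 / r < ‖z‖ → u z = Real.log ‖z‖ - κ + h z⁻¹

/-- the Perron class of a compact set `F`: nonnegative continuous functions, zero on `F`,
subharmonic (`C²`, `Δ ≥ 0`) where positive, `v(z) - log|z| → c` at infinity -/
structure IsSub (F : Set ℂ) (v : ℂ → ℝ) (c : ℝ) : Prop where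
  cont : Continuous v
  nonneg : ∀ z, 0 ≤ v z
  zero : ∀ z ∈ F, v z = 0
  sub : ∀ z, 0 < v z → ContDiffAt ℝ 2 v z ∧ 0 ≤ lap v z
  infty : Tendsto (fun z => v z - Real.log ‖z‖) (cocompact ℂ) (𝓝 c)

/-- logarithm of the (Perron) capacity -/
noncomputable def kap (F : Set ℂ) : ℝ := - sSup {c : ℝ | ∃ v : ℂ → ℝ, IsSub F v c}

/-- the (Perron) capacity -/
noncomputable def cp (F : Set ℂ) : ℝ := Real.exp (kap F)

/-- finite unions of nondegenerate closed segments (the empty union is allowed) -/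
def SegUnion (K : Set ℂ) : Prop :=
  ∃ s : Finset (ℂ × ℂ), (∀ p ∈ s, p.1 ≠ p.2) ∧ K = ⋃ p ∈ s, segment ℝ p.1 p.2

/-- logarithmic potential of a density -/
noncomputable def Nw (ρ : ℂ → ℝ) (z : ℂ) : ℝ := ∫ w, Real.log ‖z - w‖ * ρ w

/-- reflected logarithmic potential -/
noncomputable def Hw (ρ : ℂ → ℝ) (z : ℂ) : ℝ :=
  ∫ w, Real.log ‖1 - (starRingEnd ℂ) w * z‖ * ρ w

/-- Green potential of the unit disc: `-Δ (gD ρ) = ρ`, `gD ρ = 0` on the unit circle -/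
noncomputable def gD (ρ : ℂ → ℝ) (z : ℂ) : ℝ := (1 / (2 * Real.pi)) * (Hw ρ z - Nw ρ z)

end Pool.MP_31392c_an
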