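import Mathlib
import Pool.Agent.Lib.MP_31392c_an.Full.Defs

/-!
# MP_31392c_an full proof, group B: elementary facts

Every `def … : Prop` below is a task: prove `theorem s_Name : Name` (or
`theorem s_Name : Dep₁ → … → Name` where the docstring says Uses: Dep₁ …) in the file
`Pool/Agent/Lib/MP_31392c_an/Full/Name.lean`, which imports this file (and Mathlib).
-/

set_option autoImplicit false

open MeasureTheory Set Filter Topology Metric

namespace Pool.MP_31392c_an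

/-- **LocMax.** At a local maximum of a `C²` function the gradient vanishes and the Laplacian is
`≤ 0`.

Proof. `fderiv ℝ f z = 0` by `IsLocalMax.fderiv_eq_zero`. For `e = 1` or `e = I` let
`g t = f (z + t e)`, `t` real: `C²` near `0`, local maximum at `0`, `g' t = fderiv ℝ f (z+te) e` for
small `t`, so `g''(0)` is the second term `dX (dX f) z` resp. `dY (dY f) z` (derivative of
`w ↦ fderiv ℝ f w e` in direction `e`; this map is `C¹` at `z`). If `g''(0) > 0` then `0` is a strict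
local minimum (`isLocalMin_of_deriv_deriv_pos` gives a local min; more precisely `g' > 0` on a right
neighbourhood of `0`, since `g'(0) = 0` and `g''(0) > 0`, so `g t > g 0` for small `t > 0`),
contradiction. -/
def LocMax : Prop := ∀ (f : ℂ → ℝ) (z : ℂ), ContDiffAt ℝ 2 f z → IsLocalMax f z →
  dX f z = 0 ∧ dY f z = 0 ∧ lap f z ≤ 0

/-- **MaxPr.** Weak maximum principle. Uses: LocMax.

Proof. Suppose `g z₀ > 0`, `z₀ ∈ Ω`. Let `R` with `Ω ⊆ ball 0 R`, `δ > 0` with `2 δ R² < g z₀`, and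
`G z = g z + δ ‖z‖²` on the compact set `closure Ω`; it is continuous, so it has a maximum at some
`z₁`. `G z₁ ≥ G z₀ ≥ g z₀ > 2δR²`. On the frontier `G ≤ δ R²` (closure of the ball), so `z₁ ∈ Ω`
(`closure Ω = Ω ∪ frontier Ω`), and `g z₁ ≥ G z₁ - δR² > 0`. So `g` is `C²` at `z₁` and
`lap g z₁ ≥ 0`; `lap G z₁ = lap g z₁ + 4 δ > 0`. But `z₁` is a local maximum of `G` (`Ω` open),
contradicting LocMax. (`lap` is additive for functions which are `C²` at the point; the Laplacian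
of `‖z‖² = (re z)² + (im z)²` is `4`.) -/
def MaxPr : Prop := ∀ (Ω : Set ℂ) (g : ℂ → ℝ), IsOpen Ω → Bornology.IsBounded Ω →
  ContinuousOn g (closure Ω) → (∀ z ∈ frontier Ω, g z ≤ 0) →
  (∀ z ∈ Ω, 0 < g z → ContDiffAt ℝ 2 g z ∧ 0 ≤ lap g z) → ∀ z ∈ Ω, g z ≤ 0

/-- **MaxDrift.** Weak maximum principle with a bounded drift on a disc. Uses: LocMax.

Proof. Let `λ = L + 1`, `δ > 0`, `G z = g z + δ exp (λ re z)`, continuous on the closed disc. Claim:
its maximum over the closed disc is attained on the sphere. Otherwise it is attained at an interior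
point `z₁`; by LocMax `∇G(z₁) = 0` and `lap G z₁ ≤ 0`, that is, with `e = exp (λ re z₁) > 0`:
`dX g z₁ = - δ λ e`, `dY g z₁ = 0`, `lap g z₁ ≤ - δ λ² e`. The hypothesis gives
`0 ≤ lap g z₁ + β₁ dX g z₁ + β₂ dY g z₁ ≤ - δ λ² e + L δ λ e = -δ λ e (λ - L) < 0`, contradiction.
So `g z ≤ G z ≤ c + δ exp (λ ρ)` for all `z` in the closed disc; let `δ → 0`. -/
def MaxDrift : Prop := ∀ (ρ L c : ℝ) (g β₁ β₂ : ℂ → ℝ), 0 < ρ →
  ContinuousOn g (closedBall 0 ρ) → (∀ z ∈ ball (0 : ℂ) ρ, ContDiffAt ℝ 2 g z) →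
  (∀ z ∈ ball (0 : ℂ) ρ, |β₁ z| ≤ L ∧ |β₂ z| ≤ L) →
  (∀ z ∈ ball (0 : ℂ) ρ, 0 ≤ lap g z + β₁ z * dX g z + β₂ z * dY g z) →
  (∀ z ∈ sphere (0 : ℂ) ρ, g z ≤ c) → ∀ z ∈ closedBall (0 : ℂ) ρ, g z ≤ c

/-- **StrongMP.** Strong maximum principle (minimum at `0`) on a connected open set.
Uses: LocMax (or MaxPr).

Proof. Suppose `a` is not identically `0` on `U`; the set `P = {z ∈ U | 0 < a z}` is open (continuity)
and nonempty. Claim: `P` is relatively closed in `U`; then `P = U` by preconnectedness. Let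
`z₀ ∈ U` be a limit of points of `P`; let `closedBall z₀ (4 d) ⊆ U`, `d > 0`, and let `z₁ ∈ P`,
`‖z₁ - z₀‖ < d`. Suppose `a z₀ = 0`, so `z₀ ≠ z₁`. Let `0 < ρ < ‖z₁ - z₀‖` be such that `a ≥ ε > 0`
on the closed ball `closedBall z₁ ρ`, let `R = 2 d` (so `closedBall z₁ R ⊆ U` and
`‖z₀ - z₁‖ < R`), and on the annulus `A : ρ < ‖z - z₁‖ < R` let
`w z = η (exp (-α ‖z - z₁‖²) - exp (-α R²))` with `α` so large that `lap w ≥ Λ w` on `A`:
`lap w = η e^{-α s²} (4 α² s² - 4 α) ≥ η e^{-αs²} Λ ≥ Λ w` as soon as `4α²ρ² - 4α ≥ Λ`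
(`s = ‖z - z₁‖ ≥ ρ`), and `η > 0` so small that `w ≤ ε` on the inner circle. Let
`g = w - a` on the closed annulus: `g ≤ 0` on both boundary circles (`w = 0 ≤ a` outside, `w ≤ ε ≤ a`
inside). Where `g > 0` in `A`: `lap g = lap w - V a ≥ Λ w - Λ a = Λ g > 0` (here `0 ≤ V ≤ Λ` and
`a ≥ 0`; if `Λ ≤ 0` replace it by `1`). By MaxPr `g ≤ 0` in `A`, so `a z₀ ≥ w z₀ > 0`, contradiction. -/
def StrongMP : Prop := ∀ (U : Set ℂ) (V a : ℂ → ℝ) (Λ : ℝ), IsOpen U → IsPreconnected U →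
  (∀ z ∈ U, 0 ≤ V z ∧ V z ≤ Λ) → VHarm V a U → (∀ z ∈ U, 0 ≤ a z) →
  (∀ z ∈ U, a z = 0) ∨ (∀ z ∈ U, 0 < a z)

/-- **Bridge** between `lap f = 0` and Mathlib's harmonic functions.

Proof. Mathlib: `InnerProductSpace.HarmonicAt f x ↔ ContDiffAt ℝ 2 f x ∧ Δ f =ᶠ[𝓝 x] 0`, and
`Δ f = iteratedFDeriv ℝ 2 f · ![1,1] + iteratedFDeriv ℝ 2 f · ![I,I]`
(`laplacian_eq_iteratedFDeriv_complexPlane`). For `f` of class `C²` at `z`,
`iteratedFDeriv ℝ 2 f z ![e,e] = fderiv ℝ (fderiv ℝ f) z e e`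
(`iteratedFDeriv_two_apply`) `= fderiv ℝ (fun w => fderiv ℝ f w e) z e`. -/
def Bridge : Prop := ∀ (f : ℂ → ℝ) (U : Set ℂ), IsOpen U →
  ((∀ z ∈ U, ContDiffAt ℝ 2 f z ∧ lap f z = 0) ↔ InnerProductSpace.HarmonicOnNhd f U)

/-- **GradEst.** Gradient estimate for harmonic functions. Uses: Bridge.

Proof. By Bridge and `InnerProductSpace.HarmonicOnNhd.exists_analyticOnNhd_ball_re_eq` there is `F`
analytic on the ball with `f = re F` there (if that theorem needs a neighbourhood of the closed ball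
work on slightly smaller balls and let the radius tend to `ρ`). `fderiv ℝ f z v = re (F'(z) v)`,
so `‖fderiv ℝ f z‖ ≤ |F'(z)|`. For `0 < s < ρ`: `F'(z) s = (1/π) ∫_0^{2π} (re F(z+se^{it}) - re F(z))
e^{-it} dt` (Cauchy: `(1/2π)∫ F(z+se^{it}) e^{-it} dt = s F'(z)`, `(1/2π)∫ conj F(z+se^{it}) e^{-it} dt
= 0`, `∫ e^{-it} dt = 0`), so `|F'(z)| ≤ 2 ω / s`. (Alternatively Borel–Carathéodory + Cauchy
estimate, giving `4 ω/ρ`.) -/
def GradEst : Prop := ∀ (f : ℂ → ℝ) (z : ℂ) (ρ ω : ℝ), 0 < ρ →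
  (∀ w ∈ ball z ρ, ContDiffAt ℝ 2 f w ∧ lap f w = 0) → (∀ w ∈ ball z ρ, |f w - f z| ≤ ω) →
  ‖fderiv ℝ f z‖ ≤ 4 * ω / ρ

/-- **Conf.** Composition with an analytic map.

Proof. Near `z` (analyticity is an open condition) the real derivative of `φ` is multiplication by
`φ'(w)`, so `dX (f∘φ) w = fderiv ℝ f (φ w) (φ' w)`, `dY (f∘φ) w = fderiv ℝ f (φ w) (i φ' w)`. Writing
`φ' = p + i q`: `dX (f∘φ) = p·(dX f∘φ) + q·(dY f∘φ)`, `dY (f∘φ) = -q·(dX f∘φ) + p·(dY f∘φ)`. The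
formula for `gp` follows at once: `(p²+q²) gp f g`. For the Laplacian differentiate once more:
`lap (f∘φ) = (p²+q²) (fXX + fYY)∘φ + (∂x p - ∂y q)… ` where the first order terms are
`(p_x - q_y) fX + (q_x + p_y) fY = 0` by Cauchy–Riemann for `φ' = p + iq` (`p_x = q_y`,
`p_y = -q_x`) and the mixed terms `fXY` cancel. -/
def Conf : Prop := ∀ (f g : ℂ → ℝ) (φ : ℂ → ℂ) (z : ℂ), AnalyticAt ℂ φ z →
  ContDiffAt ℝ 2 f (φ z) → ContDiffAt ℝ 2 g (φ z) →
  ContDiffAt ℝ 2 (fun w => f (φ w)) z ∧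
  lap (fun w => f (φ w)) z = ‖deriv φ z‖ ^ 2 * lap f (φ z) ∧
  gp (fun w => f (φ w)) (fun w => g (φ w)) z = ‖deriv φ z‖ ^ 2 * gp f g (φ z)

/-- **DivZero.** The integral of the divergence of a compactly supported `C¹` field is zero.

Proof. E.g. `integral_mul_fderiv_eq_neg_fderiv_mul_of_integrable` (Mathlib) with one function `1`, or
`integral_bilinear_hasLineDerivAt_right_eq_neg_left_of_integrable`; both derivatives are
continuous with compact support, hence integrable. -/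
def DivZero : Prop := ∀ p q : ℂ → ℝ, ContDiff ℝ 1 p → ContDiff ℝ 1 q → HasCompactSupport p →
  HasCompactSupport q → ∫ z, (dX p z + dY q z) = 0

/-- **Barrier.** A nonnegative function with `Δu ≥ n u`, `u ≤ M` on a disc of radius `r` is
`≤ 4M/(n r²)` at the centre. Uses: LocMax (or MaxPr).

Proof. `w z = M ‖z - z₀‖²/r² + 4M/(n r²)`; `lap w = 4M/r² = n · (4M/(n r²)) ≤ n w`. `g = u - w ≤ 0` on
the sphere (`w ≥ M` there). Where `g > 0` in the ball: `lap g ≥ n u - n w = n g > 0`. By MaxPr on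
`Ω = ball z₀ r`: `g z₀ ≤ 0`, i.e. `u z₀ ≤ w z₀ = 4M/(n r²)`. -/
def Barrier : Prop := ∀ (u : ℂ → ℝ) (z₀ : ℂ) (r M n : ℝ), 0 < r → 0 ≤ M → 0 < n →
  ContinuousOn u (closedBall z₀ r) →
  (∀ z ∈ ball z₀ r, ContDiffAt ℝ 2 u z ∧ n * u z ≤ lap u z) →
  (∀ z ∈ closedBall z₀ r, 0 ≤ u z ∧ u z ≤ M) → u z₀ ≤ 4 * M / (n * r ^ 2)

/-- **ChVar.** Change of variables under an injective holomorphic map.

Proof. `MeasureTheory.integral_image_eq_integral_abs_det_fderiv_smul` and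
`integrableOn_image_iff_integrableOn_abs_det_fderiv_smul`; the real derivative of `φ` at `z ∈ U` is
`(deriv φ z) • ·` restricted to scalars, with determinant `‖deriv φ z‖²`
(Mathlib: `Complex.det_…`/`LinearMap.det_restrictScalars`, or compute the `2×2` matrix). -/
def ChVar : Prop := ∀ (φ : ℂ → ℂ) (U : Set ℂ) (f : ℂ → ℝ), IsOpen U →
  (∀ z ∈ U, DifferentiableAt ℂ φ z) → InjOn φ U →
  (IntegrableOn f (φ '' U) ↔ IntegrableOn (fun z => ‖deriv φ z‖ ^ 2 * f (φ z)) U) ∧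
  ∫ z in φ '' U, f z = ∫ z in U, ‖deriv φ z‖ ^ 2 * f (φ z)

end Pool.MP_31392c_an
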