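import Mathlib
import Pool.Agent.Lib.MP_31392c_an.Full.SpecB

/-!
# MP_31392c_an full proof: Barrier
-/

set_option autoImplicit false

open MeasureTheory Set Filter Topology Metric

namespace Pool.MP_31392c_an

namespace Barrier

private theorem dir_sub {f g : ℂ → ℝ} {z : ℂ} (hf : ContDiffAt ℝ 2 f z) (hg : ContDiffAt ℝ 2 g z)
    (e : ℂ) : fderiv ℝ (fun w => fderiv ℝ (fun v => f v - g v) w e) z e
      = fderiv ℝ (fun w => fderiv ℝ f w e) z e - fderiv ℝ (fun w => fderiv ℝ g w e) z e := by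
  have hdf : DifferentiableAt ℝ (fun w => fderiv ℝ f w e) z := by
    have h1 : ContDiffAt ℝ 1 (fderiv ℝ f) z := hf.fderiv_right (by norm_num)
    exact (h1.differentiableAt (by norm_num)).clm_apply (differentiableAt_const e)
  have hdg : DifferentiableAt ℝ (fun w => fderiv ℝ g w e) z := by
    have h1 : ContDiffAt ℝ 1 (fderiv ℝ g) z := hg.fderiv_right (by norm_num)
    exact (h1.differentiableAt (by norm_num)).clm_apply (differentiableAt_const e)
  have hev : (fun w => fderiv ℝ (fun v => f v - g v) w e)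
      =ᶠ[𝓝 z] (fun w => fderiv ℝ f w e - fderiv ℝ g w e) := by
    have h1 : ∀ᶠ w in 𝓝 z, ContDiffAt ℝ 2 f w := hf.eventually (by simp)
    have h2 : ∀ᶠ w in 𝓝 z, ContDiffAt ℝ 2 g w := hg.eventually (by simp)
    filter_upwards [h1, h2] with w h1 h2
    rw [fderiv_fun_sub (h1.differentiableAt (by norm_num)) (h2.differentiableAt (by norm_num))]
    rfl
  rw [hev.fderiv_eq, fderiv_fun_sub hdf hdg]
  rfl

private theorem lap_sub {f g : ℂ → ℝ} {z : ℂ} (hf : ContDiffAt ℝ 2 f z)
    (hg : ContDiffAt ℝ 2 g z) : lap (fun w => f w - g w) z = lap f z - lap g z := by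
  have h1 := dir_sub hf hg 1
  have h2 := dir_sub hf hg Complex.I
  unfold lap dX dY
  rw [h1, h2]
  ring

private noncomputable def w (z₀ : ℂ) (a b : ℝ) (z : ℂ) : ℝ :=
  a * ((z.re - z₀.re) ^ 2 + (z.im - z₀.im) ^ 2) + b

private theorem w_hasFDerivAt (z₀ : ℂ) (a b : ℝ) (z : ℂ) :
    HasFDerivAt (w z₀ a b) (a • ((2 * (z.re - z₀.re)) • Complex.reCLM
      + (2 * (z.im - z₀.im)) • Complex.imCLM)) z := by
  have hre : HasFDerivAt (fun v : ℂ => v.re - z₀.re) Complex.reCLM z :=
    (Complex.reCLM.hasFDerivAt (x := z)).sub_const z₀.re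
  have him : HasFDerivAt (fun v : ℂ => v.im - z₀.im) Complex.imCLM z :=
    (Complex.imCLM.hasFDerivAt (x := z)).sub_const z₀.im
  have h := (((hre.pow 2).add (him.pow 2)).const_mul a).add_const b
  refine HasFDerivAt.congr_fderiv (f := w z₀ a b) h ?_
  norm_num

private theorem w_contDiff (z₀ : ℂ) (a b : ℝ) (z : ℂ) : ContDiffAt ℝ 2 (w z₀ a b) z := by
  unfold w
  have hre : ContDiffAt ℝ 2 (fun v : ℂ => v.re) z := Complex.reCLM.contDiff.contDiffAt
  have him : ContDiffAt ℝ 2 (fun v : ℂ => v.im) z := Complex.imCLM.contDiff.contDiffAt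
  exact ((contDiffAt_const).mul (((hre.sub contDiffAt_const).pow 2).add
    ((him.sub contDiffAt_const).pow 2))).add contDiffAt_const

private theorem w_lap (z₀ : ℂ) (a b : ℝ) (z : ℂ) : lap (w z₀ a b) z = 4 * a := by
  have hX : dX (w z₀ a b) = fun v => a * (2 * (v.re - z₀.re)) := by
    funext v
    unfold dX
    rw [(w_hasFDerivAt z₀ a b v).fderiv]
    simp
  have hY : dY (w z₀ a b) = fun v => a * (2 * (v.im - z₀.im)) := by
    funext v
    unfold dY
    rw [(w_hasFDerivAt z₀ a b v).fderiv]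
    simp
  have hre : HasFDerivAt (fun v : ℂ => v.re - z₀.re) Complex.reCLM z :=
    (Complex.reCLM.hasFDerivAt (x := z)).sub_const z₀.re
  have him : HasFDerivAt (fun v : ℂ => v.im - z₀.im) Complex.imCLM z :=
    (Complex.imCLM.hasFDerivAt (x := z)).sub_const z₀.im
  have hXX : dX (fun v => a * (2 * (v.re - z₀.re))) z = 2 * a := by
    unfold dX
    rw [((hre.const_mul 2).const_mul a).fderiv]
    simp
    ring
  have hYY : dY (fun v => a * (2 * (v.im - z₀.im))) z = 2 * a := by
    unfold dY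
    rw [((him.const_mul 2).const_mul a).fderiv]
    simp
    ring
  unfold lap
  rw [hX, hY, hXX, hYY]
  ring

private theorem w_norm (z₀ : ℂ) (a b : ℝ) (z : ℂ) : w z₀ a b z = a * ‖z - z₀‖ ^ 2 + b := by
  unfold w
  rw [Complex.sq_norm, Complex.normSq_apply]
  simp only [Complex.sub_re, Complex.sub_im]
  ring

end Barrier

open Barrier in
theorem s_Barrier : MaxPr → Barrier := by
  intro hMP u z₀ r M n hr hM hn hcont hsub hbd
  have hr2 : 0 < r ^ 2 := by positivity
  have key : u z₀ - w z₀ (M / r ^ 2) (4 * M / (n * r ^ 2)) z₀ ≤ 0 := by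
    refine hMP (ball z₀ r) (fun z => u z - w z₀ (M / r ^ 2) (4 * M / (n * r ^ 2)) z) isOpen_ball
      isBounded_ball ?_ ?_ ?_ z₀ (mem_ball_self hr)
    · have hsubset : closure (ball z₀ r) ⊆ closedBall z₀ r := closure_ball_subset_closedBall
      refine (hcont.mono hsubset).sub ?_
      have : Continuous (w z₀ (M / r ^ 2) (4 * M / (n * r ^ 2))) := by
        unfold w
        fun_prop
      exact this.continuousOn
    · intro z hz
      have hz' : ‖z - z₀‖ = r := by
        rw [frontier_ball z₀ hr.ne'] at hz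
        rwa [mem_sphere_iff_norm] at hz
      have h1 : u z ≤ M := (hbd z (by rw [mem_closedBall_iff_norm, hz'])).2
      show u z - w z₀ _ _ z ≤ 0
      rw [w_norm, hz']
      have h2 : M / r ^ 2 * r ^ 2 = M := by field_simp
      have h3 : 0 ≤ 4 * M / (n * r ^ 2) := by positivity
      linarith
    · intro z hz hpos
      obtain ⟨hC, hL⟩ := hsub z hz
      refine ⟨hC.sub (w_contDiff _ _ _ _), ?_⟩
      rw [lap_sub hC (w_contDiff _ _ _ _), w_lap]
      have hpos' : w z₀ (M / r ^ 2) (4 * M / (n * r ^ 2)) z < u z := by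
        have : 0 < u z - w z₀ (M / r ^ 2) (4 * M / (n * r ^ 2)) z := hpos
        linarith
      rw [w_norm] at hpos'
      have h1 : 0 ≤ M / r ^ 2 * ‖z - z₀‖ ^ 2 := by positivity
      have h2 : 4 * M / (n * r ^ 2) < u z := by linarith
      have h3 : n * (4 * M / (n * r ^ 2)) ≤ n * u z := mul_le_mul_of_nonneg_left h2.le hn.le
      have h4 : n * (4 * M / (n * r ^ 2)) = 4 * (M / r ^ 2) := by field_simp
      linarith
  rw [w_norm] at key
  simp at key
  exact key

end Pool.MP_31392c_an
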