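import Mathlib
import Pool.Agent.Lib.MP_31392c_an.Full.SpecB

/-!
# MP_31392c_an full proof, group D: potentials and the equation `Δ a = V a` in the unit disc
-/

set_option autoImplicit false

open MeasureTheory Set Filter Topology Metric

namespace Pool.MP_31392c_an

/-- **NewtC1.** The logarithmic potential of a continuous compactly supported density is `C¹`, with
the expected gradient.

Proof. Let `ρ` be supported in `closedBall 0 R`, `|ρ| ≤ B`. The library file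
`Pool.Agent.Lib.MP_31392c_an.SlogA/SlogB` has the regularised logarithm `slog ε s`
(`= log s` for `s > ε`, `contDiff_slog`: `w ↦ slog ε ‖w - a‖` is `C¹` with gradient
`vf ε a z = (z-a)/(max ‖z-a‖ ε)²`). `N_ε(z) = ∫ slog ε ‖z-w‖ ρ(w) dw` is `C¹` with gradient
`∫ vf ε w z ρ(w) dw` (differentiation under the integral, all integrands continuous and bounded on
bounded sets). `|log s - slog ε s| ≤ |log s| + |log ε| + 1/2` for `s ≤ ε` and `0` else, so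
`|N_ε - N| ≤ B ∫_{|ζ|<ε} (|log|ζ|| + |log ε| + 1/2) dζ → 0` uniformly; the gradients differ from
`∫ (z-w)/|z-w|² ρ(w) dw` by at most `B ∫_{|ζ|<ε} 1/|ζ| dζ = 2πεB → 0` uniformly. So
`hasFDerivAt_of_tendstoUniformlyOn…` gives differentiability, and the gradient is a uniform limit of
continuous maps, hence continuous. (Local integrability of `1/‖ζ‖` and `log‖ζ‖` in the plane: polar
coordinates.) -/
def NewtC1 : Prop := ∀ ρ : ℂ → ℝ, Continuous ρ → HasCompactSupport ρ →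
  ContDiff ℝ 1 (Nw ρ) ∧
  (∀ z, dX (Nw ρ) z = ∫ w, ((z - w).re / ‖z - w‖ ^ 2) * ρ w) ∧
  (∀ z, dY (Nw ρ) z = ∫ w, ((z - w).im / ‖z - w‖ ^ 2) * ρ w)

/-- **NewtC2.** For a `C¹` density the potential is `C²` and `Δ N = 2πρ`. Uses: NewtC1.

Proof. With `k₁(ζ) = re ζ/‖ζ‖²`, `k₂(ζ) = im ζ/‖ζ‖²` (locally integrable, `|kᵢ| ≤ 1/|ζ|`) NewtC1 gives
`dX (Nw ρ) = k₁ ⋆ ρ`, `dY (Nw ρ) = k₂ ⋆ ρ`. A convolution of a locally integrable function with a `C¹`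
compactly supported function is `C¹` and the derivative falls on `ρ`
(`HasCompactSupport.contDiff_convolution_right`, `hasFDerivAt_convolution_right`), so `Nw ρ` is `C²` and
`lap (Nw ρ) z = ∫ (k₁(z-w) dX ρ w + k₂(z-w) dY ρ w) dw = - ∫ fderiv ℝ ρ w ((w-z)/‖w-z‖²) dw`.
The library theorem `ib` (file `IB.lean`): `∫ fderiv ℝ f w (vf ε z w) dw = -(2/ε²) ∫_{ball z ε} f`,
`vf ε z w = (w-z)/(max ‖w-z‖ ε)²`; as `ε → 0` the left side tends to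
`∫ fderiv ℝ ρ w ((w-z)/‖w-z‖²) dw` (dominated by `C/‖w-z‖` on the support) and the right side to
`-2π ρ(z)` (continuity; the disc has area `πε²`). Hence `lap (Nw ρ) z = 2πρ(z)`. -/
def NewtC2 : Prop := ∀ ρ : ℂ → ℝ, ContDiff ℝ 1 ρ → HasCompactSupport ρ →
  ContDiff ℝ 2 (Nw ρ) ∧ ∀ z, lap (Nw ρ) z = 2 * Real.pi * ρ z

/-- **HwReg.** The reflected potential is harmonic for `‖z‖ < 1/r₀`. Uses: Bridge.

Proof. For `‖w‖ ≤ r₀`, `‖z‖ < 1/r₀`: `re (1 - conj w z) > 0`, so `log ‖1 - conj w z‖ =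
re Log(1 - conj w z)`, and `F(z) = ∫ Log(1 - conj w z) ρ(w) dw` is holomorphic in `‖z‖ < 1/r₀`
(differentiation under the integral sign: `hasDerivAt_integral_of_dominated_loc_of_deriv_le`, the
derivative `-conj w/(1 - conj w z)` is bounded for `‖z‖ ≤ s < 1/r₀`). `Hw ρ = re F`; the real part of a
holomorphic function is harmonic (`AnalyticAt.harmonicAt_re` or similar), then Bridge. -/
def HwReg : Prop := ∀ (ρ : ℂ → ℝ) (r₀ : ℝ), Continuous ρ → 0 < r₀ → r₀ < 1 →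
  (∀ w, r₀ ≤ ‖w‖ → ρ w = 0) → ∀ z, ‖z‖ * r₀ < 1 →
  ContDiffAt ℝ 2 (Hw ρ) z ∧ lap (Hw ρ) z = 0

/-- **GDprop.** Properties of the Green potential. Uses: NewtC1, NewtC2, HwReg.

Proof. (i), (ii) are immediate from NewtC1, NewtC2, HwReg (`lap` is linear on `C²` functions).
(iii) for `‖z‖ = 1`: `‖1 - conj w z‖ = ‖conj z - conj w‖ = ‖z - w‖` (multiply by `conj z`).
(iv) linearity of the integral (integrability: `ρ` continuous with compact support, `log` locally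
integrable). (v) modulus of continuity, uniform in `ρ`: for `‖z‖,‖z'‖ ≤ 1` and `|ρ| ≤ B` (supported in
`‖w‖ ≤ r₀`): `|Hw ρ z - Hw ρ z'| ≤ B ∫_{‖w‖≤r₀} |log‖1-conj w z‖ - log‖1-conj w z'||dw ≤ C B ‖z-z'‖`
(`‖1 - conj w z‖ ≥ 1 - r₀`), and `|Nw ρ z - Nw ρ z'| ≤ C B ‖z - z'‖` because the gradient of `Nw ρ` is
bounded by `B ∫_{‖w‖≤r₀} dw/‖z-w‖ ≤ B ∫_{‖ζ‖≤2} dζ/‖ζ‖ = 4πB` (mean value inequality). (vi) with
`z'` on the unit circle (`gD ρ z' = 0`) the bound (v) gives `|gD ρ z| ≤ 2 C B`. -/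
def GDprop : Prop := ∀ r₀ : ℝ, 0 < r₀ → r₀ < 1 →
  (∀ ρ : ℂ → ℝ, Continuous ρ → (∀ w, r₀ ≤ ‖w‖ → ρ w = 0) → ∀ z, ‖z‖ * r₀ < 1 →
    ContDiffAt ℝ 1 (gD ρ) z) ∧
  (∀ ρ : ℂ → ℝ, ContDiff ℝ 1 ρ → (∀ w, r₀ ≤ ‖w‖ → ρ w = 0) → ∀ z, ‖z‖ * r₀ < 1 →
    ContDiffAt ℝ 2 (gD ρ) z ∧ lap (gD ρ) z = - ρ z) ∧
  (∀ (ρ : ℂ → ℝ) (z : ℂ), ‖z‖ = 1 → gD ρ z = 0) ∧
  (∀ (ρ₁ ρ₂ : ℂ → ℝ) (c : ℝ), Continuous ρ₁ → Continuous ρ₂ → HasCompactSupport ρ₁ →
    HasCompactSupport ρ₂ → ∀ z, gD (fun w => ρ₁ w + c * ρ₂ w) z = gD ρ₁ z + c * gD ρ₂ z) ∧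
  (∃ C : ℝ, 0 < C ∧ ∀ (ρ : ℂ → ℝ) (B : ℝ), Continuous ρ → (∀ w, r₀ ≤ ‖w‖ → ρ w = 0) →
    (∀ w, |ρ w| ≤ B) → ∀ z z', ‖z‖ ≤ 1 → ‖z'‖ ≤ 1 →
    |gD ρ z - gD ρ z'| ≤ C * B * ‖z - z'‖ ∧ |gD ρ z| ≤ C * B)

/-- **Fred.** Solvability of `a + G(V a) = g` in the closed disc. Uses: GDprop, MaxPr.

Proof. Let `X = C(closedBall (0:ℂ) 1, ℝ)` and for `f ∈ X` let `f̄ : ℂ → ℝ` be `f` on the closed disc and
`0` outside; `V f̄` is continuous on `ℂ` (V vanishes for `‖w‖ ≥ r₀`), supported in `‖w‖ ≤ r₀`,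
`|V f̄| ≤ ‖V‖ ‖f‖`. `T f = gD (V f̄)` restricted to the closed disc: linear (GDprop iv), maps the unit
ball of `X` into a bounded equicontinuous set (GDprop v), so `T` is a compact operator (Arzelà–Ascoli,
e.g. `BoundedContinuousFunction.arzela_ascoli`/`ContinuousMap`…). By the Fredholm alternative
(`IsCompactOperator.hasEigenvalue_or_mem_resolventSet`, applied to `-T` or `T` with `μ = -1`) it is
enough to show that `f + T f = 0` implies `f = 0`. Then `1 + T` is surjective, and `a` is the extension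
of the solution (any extension, e.g. `f̄`).
Injectivity: `f = -gD(V f̄)` on the closed disc. By GDprop (i) `f` is `C¹` in the open disc, so `V f̄` is
`C¹` on `ℂ`, so by (ii) `f` is `C²` in the open disc with `lap f = V f`; `f = 0` on the circle, `f`
continuous on the closed disc. MaxPr for `f` and `-f` (where `f > 0`: `lap f = V f ≥ 0`) gives `f = 0`. -/
def Fred : Prop := ∀ (V : ℂ → ℝ) (r₀ : ℝ), ContDiff ℝ 1 V → (∀ z, 0 ≤ V z) → 0 < r₀ → r₀ < 1 →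
  (∀ w, r₀ ≤ ‖w‖ → V w = 0) → ∀ g : ℂ → ℝ, ContinuousOn g (closedBall 0 1) →
  ∃ a : ℂ → ℝ, ContinuousOn a (closedBall 0 1) ∧
    ∀ z ∈ closedBall (0 : ℂ) 1, a z + gD (fun w => V w * a w) z = g z

/-- **DiscGreen.** The Green function of `Δ - V` in the disc with pole `0` is `-log‖z‖ + v`.
Uses: Fred, GDprop, MaxPr, StrongMP.

Proof. `ρ₁ w = V w log‖w‖` is `C¹` on `ℂ` (V vanishes near `0`), zero for `‖w‖ ≥ r₀`, and `≤ 0`.
`g = gD ρ₁` is continuous on the closed disc. Fred: `v + gD(V v) = gD ρ₁` on the closed disc. Then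
`v = gD (V log - V v)`, `v` is zero on the circle; `V log - V v` is continuous (V vanishes for `‖w‖ ≥ r₀`,
so `V v` is continuous on ℂ whatever the extension of `v`), so `v` is `C¹` in the open disc, so the density
is `C¹` on `ℂ`, so `v` is `C²` in the open disc and `lap v = -(V log - V v) = V (v - log‖·‖)`.
Positivity of `u = -log‖z‖ + v` in `0 < ‖z‖ < 1`: `V`-harmonic there (`log‖z‖` is harmonic off `0`),
`u = 0` on the circle, `u → +∞` at `0` (v is bounded). MaxPr for `-u` on `{δ < ‖z‖ < 1}`, `δ` small: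
`u ≥ 0`; by StrongMP on the connected set `{0 < ‖z‖ < 1}` (`V` is bounded) either `u = 0` (impossible, `u → ∞`) or
`u > 0`. (Connectedness: image of `(0,1) × ℝ` under `(r,t) ↦ r e^{it}`.) -/
def DiscGreen : Prop := ∀ (V : ℂ → ℝ) (r₀ r₁ : ℝ), ContDiff ℝ 1 V → (∀ z, 0 ≤ V z) →
  0 < r₁ → 0 < r₀ → r₀ < 1 → (∀ w, r₀ ≤ ‖w‖ → V w = 0) → (∀ w, ‖w‖ ≤ r₁ → V w = 0) →
  ∃ v : ℂ → ℝ, ContinuousOn v (closedBall 0 1) ∧ (∀ z, ‖z‖ = 1 → v z = 0) ∧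
    (∀ z ∈ ball (0 : ℂ) 1, ContDiffAt ℝ 2 v z ∧ lap v z = V z * (v z - Real.log ‖z‖)) ∧
    (∀ z, z ≠ 0 → ‖z‖ < 1 → 0 < v z - Real.log ‖z‖)

/-- **BdryReg.** A `V`-harmonic function which vanishes on an open arc is `C¹` up to and across the arc.
Uses: GDprop, Bridge.

Proof. `ρ = V a` is `C¹` on `ℂ` (zero for `‖w‖ ≥ r₀`, `C²` in the disc), `h = a + gD ρ` is continuous on
the closed disc, harmonic in the open disc (`lap h = V a - ρ = 0`), `h = a` on the circle. Mathlib's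
Poisson formula (`HarmonicContOnCl.circleAverage_poissonKernel_smul` with Bridge) gives, for `‖z‖ < 1`,
`h z = (1/2π) ∫_0^{2π} a(e^{is}) (1 - ‖z‖²)/‖e^{is} - z‖² ds`; by periodicity the integral may be taken
over `[β, α + 2π]` (a full period is `[α, α+2π] = (α,β) ∪ [β, α+2π]`, and `a(e^{is}) = 0` on `(α,β)`).
`H z = (1/2π) ∫_β^{α+2π} a(e^{is}) (1 - ‖z‖²)/‖e^{is} - z‖² ds` is `C¹` (even `C^∞`) on the open set
`ℂ ∖ {e^{is} : s ∈ [β, α+2π]}` (parametric integral of a kernel which is smooth in `z`, jointly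
continuous with its derivative), equal to `h` for `‖z‖ < 1` and equal to `0 = a = h` at the points
`e^{it}`, `t ∈ (α,β)`. Put `ã = H - gD ρ`, `C¹` at `r e^{it}`, `r₀ < r < 1/r₀`, `t ∈ (α,β)` (such a point
is not of the form `e^{is}`, `s ∈ [β,α+2π]`: if `r = 1` then `s ≡ t mod 2π`, impossible). -/
def BdryReg : Prop := ∀ (V a : ℂ → ℝ) (r₀ α β : ℝ), ContDiff ℝ 1 V → 0 < r₀ → r₀ < 1 →
  (∀ w, r₀ ≤ ‖w‖ → V w = 0) → ContinuousOn a (closedBall 0 1) → VHarm V a (ball 0 1) →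
  α < β → β ≤ α + 2 * Real.pi →
  (∀ t ∈ Ioo α β, a (Complex.exp ((t : ℂ) * Complex.I)) = 0) →
  ∃ A : ℂ → ℝ,
    (∀ r t : ℝ, r₀ < r → r * r₀ < 1 → t ∈ Ioo α β →
      ContDiffAt ℝ 1 A ((r : ℂ) * Complex.exp ((t : ℂ) * Complex.I))) ∧
    (∀ r t : ℝ, r₀ < r → r ≤ 1 → t ∈ Ioo α β →
      A ((r : ℂ) * Complex.exp ((t : ℂ) * Complex.I)) =
        a ((r : ℂ) * Complex.exp ((t : ℂ) * Complex.I)))

/-- **GradSmall.** `(1-‖z‖) ‖∇a(z)‖ → 0` uniformly as `‖z‖ → 1`. Uses: GradEst.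

Proof. `a` is uniformly continuous on the closed disc: for `ε > 0` there is `d > 0` with
`|a z - a w| ≤ ε/4` if `‖z-w‖ < d`. Let `δ = min(d, (1-r₀)/2)`. For `1-δ < ‖z‖ < 1` let
`ρ = 1-‖z‖ < δ`; `ball z ρ` lies in the open disc and in `{r₀ < ‖w‖}` (as `‖w‖ > ‖z‖ - ρ > 1 - 2δ ≥ r₀`),
where `a` is harmonic; `|a w - a z| ≤ ε/4` on it. GradEst: `‖fderiv ℝ a z‖ ≤ 4(ε/4)/ρ`. -/
def GradSmall : Prop := ∀ (V a : ℂ → ℝ) (r₀ : ℝ), r₀ < 1 →
  (∀ w, r₀ ≤ ‖w‖ → V w = 0) → ContinuousOn a (closedBall 0 1) → VHarm V a (ball 0 1) →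
  ∀ ε > 0, ∃ δ > 0, ∀ z : ℂ, 1 - δ < ‖z‖ → ‖z‖ < 1 → ‖fderiv ℝ a z‖ * (1 - ‖z‖) ≤ ε

end Pool.MP_31392c_an
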