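import Mathlib
import Pool.Agent.Lib.MP_31392c_an.Full.SpecD

/-!
# MP_31392c_an full proof: regularity across an arc where the function vanishes
-/

set_option autoImplicit false

open MeasureTheory Set Filter Topology Metric

namespace Pool.MP_31392c_an

namespace BdryReg

/-- The point of the unit circle with angle `s`. -/
noncomputable def ee (s : ℝ) : ℂ := Complex.exp ((s : ℂ) * Complex.I)

lemma ee_cont : Continuous ee := by unfold ee; fun_prop

lemma norm_ee (s : ℝ) : ‖ee s‖ = 1 := Complex.norm_exp_ofReal_mul_I s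

lemma ee_mem (s : ℝ) : ee s ∈ closedBall (0 : ℂ) 1 := by
  rw [mem_closedBall_zero_iff, norm_ee]

lemma circleMap_ee (s : ℝ) : circleMap 0 1 s = ee s := by
  unfold ee circleMap
  simp

/-- Points off the arc. -/
def off (p q : ℝ) : Set ℂ := {z | ∀ s ∈ Icc p q, ee s ≠ z}

lemma exists_dist {p q : ℝ} {z : ℂ} (hz : z ∈ off p q) :
    ∃ d > (0 : ℝ), ∀ s ∈ Icc p q, d ≤ ‖ee s - z‖ := by
  rcases (Icc p q).eq_empty_or_nonempty with he | hne
  · refine ⟨1, one_pos, ?_⟩
    intro s hs
    rw [he] at hs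
    exact absurd hs (notMem_empty s)
  · have hc : ContinuousOn (fun s => ‖ee s - z‖) (Icc p q) :=
      (ee_cont.sub continuous_const).norm.continuousOn
    obtain ⟨s₀, hs₀, hmin⟩ := isCompact_Icc.exists_isMinOn hne hc
    refine ⟨‖ee s₀ - z‖, norm_pos_iff.2 (sub_ne_zero.2 (hz s₀ hs₀)), ?_⟩
    intro s hs
    exact hmin hs

lemma off_ball {p q : ℝ} {z : ℂ} (hz : z ∈ off p q) :
    ∃ d > (0 : ℝ), ∀ w ∈ ball z d, ∀ s ∈ Icc p q, d ≤ ‖ee s - w‖ := by
  obtain ⟨d, hd, h⟩ := exists_dist hz
  refine ⟨d / 2, by positivity, ?_⟩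
  intro w hw s hs
  have h1 := h s hs
  have h2 : ‖w - z‖ < d / 2 := by rwa [mem_ball, dist_eq_norm] at hw
  have h3 : ‖ee s - z‖ ≤ ‖ee s - w‖ + ‖w - z‖ := by
    calc ‖ee s - z‖ = ‖(ee s - w) + (w - z)‖ := by ring_nf
      _ ≤ _ := norm_add_le _ _
  linarith

lemma off_open (p q : ℝ) : IsOpen (off p q) := by
  rw [Metric.isOpen_iff]
  intro z hz
  obtain ⟨d, hd, h⟩ := off_ball hz
  refine ⟨d, hd, ?_⟩
  intro w hw s hs hc
  have := h w hw s hs
  rw [hc, sub_self, norm_zero] at this
  linarith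

/-- The Schwarz integral over an arc. -/
noncomputable def FF (g : ℝ → ℝ) (p q : ℝ) (z : ℂ) : ℂ :=
  ∫ s in p..q, (g s : ℂ) * ((ee s + z) / (ee s - z))

lemma kernel_cont {g : ℝ → ℝ} (hg : Continuous g) {p q : ℝ} {z : ℂ} (hz : z ∈ off p q) :
    ContinuousOn (fun s => (g s : ℂ) * ((ee s + z) / (ee s - z))) (Icc p q) := by
  refine ContinuousOn.mul (Complex.continuous_ofReal.comp hg).continuousOn ?_
  refine ContinuousOn.div (ee_cont.add continuous_const).continuousOn
    (ee_cont.sub continuous_const).continuousOn ?_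
  intro s hs
  exact sub_ne_zero.2 (hz s hs)

lemma FF_diff {g : ℝ → ℝ} (hg : Continuous g) {p q : ℝ} (hpq : p ≤ q) :
    DifferentiableOn ℂ (FF g p q) (off p q) := by
  intro z hz
  obtain ⟨d, hd, h⟩ := off_ball hz
  obtain ⟨M, hM⟩ := (isCompact_Icc (a := p) (b := q)).exists_bound_of_continuousOn hg.continuousOn
  have hsub : Set.uIoc p q ⊆ Icc p q := by
    rw [uIoc_of_le hpq]; exact Ioc_subset_Icc_self
  have hcont : ∀ w ∈ ball z d, w ∈ off p q := by
    intro w hw s hs hc
    have := h w hw s hs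
    rw [hc, sub_self, norm_zero] at this
    linarith
  have key := intervalIntegral.hasDerivAt_integral_of_dominated_loc_of_deriv_le
    (𝕜 := ℂ) (μ := volume) (a := p) (b := q) (s := ball z d) (x₀ := z)
    (F := fun w s => (g s : ℂ) * ((ee s + w) / (ee s - w)))
    (F' := fun w s => (g s : ℂ) * (2 * ee s / (ee s - w) ^ 2))
    (bound := fun _ => |M| * (2 / d ^ 2)) (ball_mem_nhds z hd) ?_ ?_ ?_ ?_ ?_ ?_
  · exact key.2.differentiableAt.differentiableWithinAt
  · filter_upwards [ball_mem_nhds z hd] with w hw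
    exact ((kernel_cont hg (hcont w hw)).mono hsub).aestronglyMeasurable measurableSet_uIoc
  · refine ContinuousOn.intervalIntegrable ?_
    rw [uIcc_of_le hpq]
    exact kernel_cont hg hz
  · refine ContinuousOn.aestronglyMeasurable ?_ measurableSet_uIoc
    refine ContinuousOn.mul (Complex.continuous_ofReal.comp hg).continuousOn ?_
    refine ContinuousOn.div (continuous_const.mul ee_cont).continuousOn
      ((ee_cont.sub continuous_const).pow 2).continuousOn ?_
    intro s hs
    exact pow_ne_zero 2 (sub_ne_zero.2 (hz s (hsub hs)))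
  · refine Eventually.of_forall ?_
    intro s hs w hw
    have h1 := h w hw s (hsub hs)
    have h2 : ‖g s‖ ≤ |M| := (hM s (hsub hs)).trans (le_abs_self M)
    rw [norm_mul, norm_div, norm_mul, norm_ee, norm_pow, Complex.norm_real]
    have h3 : ‖(2 : ℂ)‖ = 2 := by simp
    rw [h3, mul_one]
    have h4 : (2 : ℝ) / ‖ee s - w‖ ^ 2 ≤ 2 / d ^ 2 := by gcongr
    gcongr
  · exact intervalIntegrable_const
  · refine Eventually.of_forall ?_
    intro s hs w hw
    have hne : ee s - w ≠ 0 := sub_ne_zero.2 (hcont w hw s (hsub hs))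
    have h1 : HasDerivAt (fun w : ℂ => ee s + w) 1 w := (hasDerivAt_id w).const_add (ee s)
    have h2 : HasDerivAt (fun w : ℂ => ee s - w) (-1) w := (hasDerivAt_id w).const_sub (ee s)
    have h3 := (h1.div h2 hne).const_mul (g s : ℂ)
    refine h3.congr_deriv ?_
    congr 1
    ring

lemma FF_re {g : ℝ → ℝ} (hg : Continuous g) {p q : ℝ} (hpq : p ≤ q) {z : ℂ}
    (hz : z ∈ off p q) :
    (FF g p q z).re = ∫ s in p..q, g s * poissonKernel 0 z (ee s) := by
  unfold FF
  have hint : IntervalIntegrable (fun s => (g s : ℂ) * ((ee s + z) / (ee s - z))) volume p q := by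
    refine ContinuousOn.intervalIntegrable ?_
    rw [uIcc_of_le hpq]
    exact kernel_cont hg hz
  have h1 := ContinuousLinearMap.intervalIntegral_comp_comm Complex.reCLM hint
  rw [Complex.reCLM_apply] at h1
  rw [← h1]
  refine intervalIntegral.integral_congr ?_
  intro s _
  simp only [Complex.reCLM_apply]
  rw [Complex.re_ofReal_mul, poissonKernel_eq_re_herglotzRieszKernel]
  simp [herglotzRieszKernel_def]

lemma FF_contDiffAt {g : ℝ → ℝ} (hg : Continuous g) {p q : ℝ} (hpq : p ≤ q) {z : ℂ}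
    (hz : z ∈ off p q) : ContDiffAt ℝ 1 (fun z => (FF g p q z).re) z := by
  have h1 : AnalyticAt ℂ (FF g p q) z :=
    (FF_diff hg hpq).analyticAt ((off_open p q).mem_nhds hz)
  have h2 : ContDiffAt ℂ 1 (FF g p q) z := h1.contDiffAt
  have h3 : ContDiffAt ℝ 1 (FF g p q) z := h2.restrict_scalars ℝ
  exact Complex.reCLM.contDiff.contDiffAt.comp z h3

lemma dir_add {f g : ℂ → ℝ} {z : ℂ} (hf : ContDiffAt ℝ 2 f z) (hg : ContDiffAt ℝ 2 g z)
    (e : ℂ) : fderiv ℝ (fun w => fderiv ℝ (fun w => f w + g w) w e) z e =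
      fderiv ℝ (fun w => fderiv ℝ f w e) z e + fderiv ℝ (fun w => fderiv ℝ g w e) z e := by
  have hf1 : ∀ᶠ w in 𝓝 z, DifferentiableAt ℝ f w := by
    filter_upwards [hf.eventually (by simp)] with w hw
    exact hw.differentiableAt (by norm_num)
  have hg1 : ∀ᶠ w in 𝓝 z, DifferentiableAt ℝ g w := by
    filter_upwards [hg.eventually (by simp)] with w hw
    exact hw.differentiableAt (by norm_num)
  have heq : (fun w => fderiv ℝ (fun w => f w + g w) w e) =ᶠ[𝓝 z]
      fun w => fderiv ℝ f w e + fderiv ℝ g w e := by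
    filter_upwards [hf1, hg1] with w h1 h2
    have : fderiv ℝ (fun w => f w + g w) w = fderiv ℝ f w + fderiv ℝ g w := fderiv_add h1 h2
    rw [this]; rfl
  have hf2 : DifferentiableAt ℝ (fun w => fderiv ℝ f w e) z := by
    have h1 : DifferentiableAt ℝ (fderiv ℝ f) z :=
      (hf.fderiv_right (m := 1) (by norm_num)).differentiableAt (by norm_num)
    exact h1.clm_apply (differentiableAt_const e)
  have hg2 : DifferentiableAt ℝ (fun w => fderiv ℝ g w e) z := by
    have h1 : DifferentiableAt ℝ (fderiv ℝ g) z :=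
      (hg.fderiv_right (m := 1) (by norm_num)).differentiableAt (by norm_num)
    exact h1.clm_apply (differentiableAt_const e)
  rw [heq.fderiv_eq]
  have : fderiv ℝ (fun w => fderiv ℝ f w e + fderiv ℝ g w e) z =
      fderiv ℝ (fun w => fderiv ℝ f w e) z + fderiv ℝ (fun w => fderiv ℝ g w e) z :=
    fderiv_add hf2 hg2
  rw [this]; rfl

lemma lap_add {f g : ℂ → ℝ} {z : ℂ} (hf : ContDiffAt ℝ 2 f z) (hg : ContDiffAt ℝ 2 g z) :
    lap (fun w => f w + g w) z = lap f z + lap g z := by
  have h1 := dir_add hf hg 1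
  have h2 := dir_add hf hg Complex.I
  unfold lap dX dY
  rw [h1, h2]
  ring

lemma off_of {r t α β : ℝ} (hr : 0 < r) (ht : t ∈ Ioo α β) :
    (r : ℂ) * ee t ∈ off β (α + 2 * Real.pi) := by
  intro s hs hc
  have h1 : ‖ee s‖ = ‖(r : ℂ) * ee t‖ := by rw [hc]
  rw [norm_mul, norm_ee, norm_ee, mul_one, Complex.norm_real, Real.norm_eq_abs,
    abs_of_pos hr] at h1
  rw [← h1, Complex.ofReal_one, one_mul] at hc
  unfold ee at hc
  rw [Complex.exp_eq_exp_iff_exists_int] at hc
  obtain ⟨n, hn⟩ := hc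
  have h2 : (s : ℂ) = (t : ℂ) + n * (2 * Real.pi) := by
    have h3 : ((s : ℂ) - ((t : ℂ) + n * (2 * Real.pi))) * Complex.I = 0 := by
      rw [sub_mul, hn]; ring
    rcases mul_eq_zero.1 h3 with h4 | h4
    · exact sub_eq_zero.1 h4
    · exact absurd h4 Complex.I_ne_zero
  have h5 : s = t + n * (2 * Real.pi) := by exact_mod_cast h2
  have hpi := Real.pi_pos
  have h6 : 0 < (n : ℝ) * (2 * Real.pi) := by linarith [hs.1, ht.2]
  have h7 : (n : ℝ) * (2 * Real.pi) < 1 * (2 * Real.pi) := by linarith [hs.2, ht.1]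
  have h8 : (0 : ℝ) < n := by
    by_contra hcon
    push Not at hcon
    nlinarith
  have h9 : (n : ℝ) < 1 := lt_of_mul_lt_mul_right h7 (by positivity)
  have h10 : (0 : ℤ) < n := by exact_mod_cast h8
  have h11 : n < (1 : ℤ) := by exact_mod_cast h9
  omega

lemma poisson_zero {z : ℂ} (hz : ‖z‖ = 1) (s : ℝ) : poissonKernel 0 z (ee s) = 0 := by
  rw [poissonKernel_def]
  simp [norm_ee, hz]

lemma rho_contDiff {V a : ℂ → ℝ} {r₀ : ℝ} (hV : ContDiff ℝ 1 V) (hr1 : r₀ < 1)
    (hV0 : ∀ w, r₀ ≤ ‖w‖ → V w = 0) (ha : ∀ z ∈ ball (0 : ℂ) 1, ContDiffAt ℝ 2 a z) :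
    ContDiff ℝ 1 (fun w => V w * a w) := by
  rw [contDiff_iff_contDiffAt]
  intro z
  by_cases hz : ‖z‖ < 1
  · exact hV.contDiffAt.mul ((ha z (by rwa [mem_ball_zero_iff])).of_le (by norm_num))
  · have hz' : r₀ < ‖z‖ := lt_of_lt_of_le hr1 (not_lt.1 hz)
    have : (fun w => V w * a w) =ᶠ[𝓝 z] fun _ => 0 := by
      filter_upwards [(isOpen_lt continuous_const continuous_norm).mem_nhds hz'] with w hw
      rw [hV0 w (le_of_lt hw), zero_mul]
    exact contDiffAt_const.congr_of_eventuallyEq this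

end BdryReg

open BdryReg in
/-- A `V`-harmonic function which vanishes on an open arc is `C¹` up to and across the arc. -/
theorem s_BdryReg : GDprop → Bridge → BdryReg := by
  intro hGD hBr V a r₀ α β hV hr0 hr1 hV0 hac hharm hαβ hβ hz
  obtain ⟨_, g2, g3, _, _⟩ := hGD r₀ hr0 hr1
  have hρ : ContDiff ℝ 1 (fun w => V w * a w) :=
    rho_contDiff hV hr1 hV0 (fun z hz => (hharm z hz).1)
  have hρ0 : ∀ w, r₀ ≤ ‖w‖ → (fun w => V w * a w) w = 0 := by
    intro w hw
    simp [hV0 w hw]
  have hG := g2 _ hρ hρ0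
  set gg : ℂ → ℝ := gD (fun w => V w * a w) with hgg
  have hGc : ContinuousOn gg (closedBall 0 1) := by
    intro z hz
    rw [mem_closedBall_zero_iff] at hz
    have : ‖z‖ * r₀ < 1 := by nlinarith [norm_nonneg z]
    exact (hG z this).1.continuousAt.continuousWithinAt
  have hhc : ContinuousOn (fun z => a z + gg z) (closedBall 0 1) := hac.add hGc
  have hhH : InnerProductSpace.HarmonicContOnCl (fun z => a z + gg z) (ball 0 1) := by
    refine ⟨(hBr _ _ isOpen_ball).1 ?_, ?_⟩
    · intro z hz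
      have hz1 : ‖z‖ < 1 := by rwa [mem_ball_zero_iff] at hz
      have : ‖z‖ * r₀ < 1 := by nlinarith [norm_nonneg z]
      obtain ⟨h1, h2⟩ := hharm z hz
      obtain ⟨h3, h4⟩ := hG z this
      refine ⟨h1.add h3, ?_⟩
      rw [lap_add h1 h3, h2, h4]
      ring
    · rw [closure_ball (0 : ℂ) one_ne_zero]
      exact hhc
  have hgc : Continuous (fun s => a (ee s)) := by
    rw [← continuousOn_univ]
    exact hac.comp ee_cont.continuousOn (fun s _ => ee_mem s)
  -- value inside the disc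
  have hin : ∀ z : ℂ, ‖z‖ < 1 →
      (2 * Real.pi)⁻¹ * (FF (fun s => a (ee s)) β (α + 2 * Real.pi) z).re = a z + gg z := by
    intro z hz1
    have hzoff : z ∈ off β (α + 2 * Real.pi) := by
      intro s _ hc
      rw [← hc, norm_ee] at hz1
      exact lt_irrefl _ hz1
    have hP := hhH.circleAverage_poissonKernel_smul (w := z) (by rwa [mem_ball_zero_iff])
    rw [Real.circleAverage_eq_integral_add α] at hP
    rw [← hP, FF_re hgc hβ hzoff, smul_eq_mul]
    congr 1
    rw [intervalIntegral.integral_comp_add_right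
      (fun θ => (poissonKernel 0 z • fun z => a z + gg z) (circleMap 0 1 θ))]
    have hne : ∀ s, ee s - z ≠ 0 := by
      intro s hc
      rw [sub_eq_zero] at hc
      rw [← hc, norm_ee] at hz1
      exact lt_irrefl _ hz1
    have hcont : Continuous (fun s => a (ee s) * poissonKernel 0 z (ee s)) := by
      refine hgc.mul ?_
      have : (fun s => poissonKernel 0 z (ee s)) =
          fun s => (‖ee s‖ ^ 2 - ‖z‖ ^ 2) / ‖ee s - z‖ ^ 2 := by
        funext s
        rw [poissonKernel_def]; simp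
      rw [this]
      refine Continuous.div ?_ ?_ ?_
      · exact (ee_cont.norm.pow 2).sub continuous_const
      · exact (ee_cont.sub continuous_const).norm.pow 2
      · intro s
        exact pow_ne_zero 2 (norm_ne_zero_iff.2 (hne s))
    have heq : ∀ θ, (poissonKernel 0 z • fun z => a z + gg z) (circleMap 0 1 θ) =
        a (ee θ) * poissonKernel 0 z (ee θ) := by
      intro θ
      rw [circleMap_ee]
      simp only [Pi.smul_apply', smul_eq_mul]
      rw [hgg, g3 _ _ (norm_ee θ)]
      ring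
    simp_rw [heq]
    rw [zero_add, add_comm (2 * Real.pi) α]
    rw [← intervalIntegral.integral_add_adjacent_intervals
      (hcont.intervalIntegrable α β) (hcont.intervalIntegrable β (α + 2 * Real.pi))]
    have h0 : ∫ s in α..β, a (ee s) * poissonKernel 0 z (ee s) = 0 := by
      refine intervalIntegral.integral_zero_ae ?_
      have hae : ∀ᵐ x : ℝ, x ≠ β := by
        rw [ae_iff]
        simp
      filter_upwards [hae] with x hx hxm
      rw [uIoc_of_le hαβ.le] at hxm
      have : a (ee x) = 0 := hz x ⟨hxm.1, lt_of_le_of_ne hxm.2 hx⟩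
      rw [this, zero_mul]
    rw [h0, zero_add]
  refine ⟨fun z => (2 * Real.pi)⁻¹ * (FF (fun s => a (ee s)) β (α + 2 * Real.pi) z).re - gg z,
    ?_, ?_⟩
  · intro r t hr hr2 ht
    have hrpos : 0 < r := lt_trans hr0 hr
    have hoff := off_of hrpos ht
    have h1 := FF_contDiffAt hgc hβ hoff
    have h2 : ContDiffAt ℝ 1 gg ((r : ℂ) * ee t) := by
      refine ((hG _ ?_).1).of_le (by norm_num)
      rw [norm_mul, norm_ee, mul_one, Complex.norm_real, Real.norm_eq_abs, abs_of_pos hrpos]
      exact hr2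
    exact (contDiffAt_const.mul h1).sub h2
  · intro r t hr hr2 ht
    have hrpos : 0 < r := lt_trans hr0 hr
    have hnorm : ‖(r : ℂ) * ee t‖ = r := by
      rw [norm_mul, norm_ee, mul_one, Complex.norm_real, Real.norm_eq_abs, abs_of_pos hrpos]
    show (2 * Real.pi)⁻¹ * (FF (fun s => a (ee s)) β (α + 2 * Real.pi) ((r : ℂ) * ee t)).re
      - gg ((r : ℂ) * ee t) = a ((r : ℂ) * ee t)
    rcases lt_or_eq_of_le hr2 with h1 | h1
    · rw [hin _ (by rw [hnorm]; exact h1)]
      ring
    · have hn1 : ‖(r : ℂ) * ee t‖ = 1 := by rw [hnorm, h1]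
      rw [FF_re hgc hβ (off_of hrpos ht)]
      have h2 : ∫ s in β..(α + 2 * Real.pi), a (ee s) * poissonKernel 0 ((r : ℂ) * ee t) (ee s)
          = 0 := by
        simp_rw [poisson_zero hn1]
        simp
      have h3 : a ((r : ℂ) * ee t) = 0 := by
        rw [h1, Complex.ofReal_one, one_mul]
        exact hz t ht
      rw [h2, h3, hgg, g3 _ _ hn1]
      ring

end Pool.MP_31392c_an
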