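import Pool.Agent.Lib.MP_31392c_an.Full.SpecB

/-!
# MP_31392c_an, full proof: Bridge between `lap f = 0` and the harmonic functions of Mathlib
-/

set_option autoImplicit false

open MeasureTheory Set Filter Topology

namespace Pool.MP_31392c_an

namespace Bridge

lemma lap_eq (f : ℂ → ℝ) (z : ℂ) (hf : ContDiffAt ℝ 2 f z) : Laplacian.laplacian f z = lap f z := by
  have hd : DifferentiableAt ℝ (fderiv ℝ f) z :=
    (hf.fderiv_right (m := 1) (by norm_num)).differentiableAt (by norm_num)
  have key : ∀ e : ℂ, fderiv ℝ (fderiv ℝ f) z e e = fderiv ℝ (fun w => fderiv ℝ f w e) z e := by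
    intro e
    have h := fderiv_clm_apply (c := fderiv ℝ f) (u := fun _ => e) hd
      (differentiableAt_const e)
    have h' : fderiv ℝ (fun w => fderiv ℝ f w e) z =
        (fderiv ℝ f z).comp (fderiv ℝ (fun _ => e) z) + (fderiv ℝ (fderiv ℝ f) z).flip e := h
    rw [h']
    simp
  rw [InnerProductSpace.laplacian_eq_iteratedFDeriv_complexPlane]
  simp only [iteratedFDeriv_two_apply, Matrix.cons_val_zero, Matrix.cons_val_one]
  rw [key, key]
  rfl

end Bridge

theorem s_Bridge : Bridge := by
  intro f U hU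
  constructor
  · intro h z hz
    refine ⟨(h z hz).1, ?_⟩
    filter_upwards [hU.mem_nhds hz] with w hw
    rw [Bridge.lap_eq f w (h w hw).1, (h w hw).2]
    rfl
  · intro h z hz
    have h1 := h z hz
    refine ⟨h1.1, ?_⟩
    rw [← Bridge.lap_eq f z h1.1]
    exact h1.2.self_of_nhds

end Pool.MP_31392c_an
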