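import Pool.Agent.Lib.MP_31392c_an.Full.SpecZ

/-!
# MP_31392c_an full proof: points of differentiability of the capacity of stars are dense
-/

set_option autoImplicit false

open MeasureTheory Set Filter Topology Metric

namespace Pool.MP_31392c_an

namespace CapDiff

/-- enlarging all arms -/
theorem add_le (hL : CapLip) {N : ℕ} (θ m t : Fin N → ℝ) (hθ : Dirs θ) (hm : ∀ j, 0 < m j)
    (ht : ∀ j, 0 ≤ t j) (s : Finset (Fin N)) :
    (∀ j, 0 < (m + ∑ k ∈ s, Pi.single k (t k)) j) ∧
    cp (starSet 0 θ m) ≤ cp (starSet 0 θ (m + ∑ k ∈ s, Pi.single k (t k))) ∧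
    cp (starSet 0 θ (m + ∑ k ∈ s, Pi.single k (t k))) ≤
      cp (starSet 0 θ m) + ∑ k ∈ s, t k / 4 := by
  classical
  induction s using Finset.induction_on with
  | empty => simp [hm]
  | insert k s hk ih =>
    obtain ⟨h0, h1, h2⟩ := ih
    have e : m + ∑ k ∈ insert k s, Pi.single k (t k) =
        (m + ∑ k ∈ s, Pi.single k (t k)) + Pi.single k (t k) := by
      rw [Finset.sum_insert hk, add_assoc]
      congr 1
      exact add_comm _ _
    have h3 := hL N θ (m + ∑ k ∈ s, Pi.single k (t k)) k (t k) hθ h0 (ht k)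
    refine ⟨?_, ?_, ?_⟩
    · intro j
      rw [e, Pi.add_apply]
      have h4 : (0 : ℝ) ≤ (Pi.single k (t k) : Fin N → ℝ) j := by
        rcases eq_or_ne j k with hjk | hjk
        · subst hjk
          rw [Pi.single_eq_same]
          exact ht j
        · rw [Pi.single_eq_of_ne hjk]
      have := h0 j
      linarith
    · rw [e]
      exact h1.trans h3.1
    · rw [e, Finset.sum_insert hk]
      linarith [h3.2]

/-- comparison of two stars, one containing the other -/
theorem le_le (hL : CapLip) {N : ℕ} (θ m m' : Fin N → ℝ) (hθ : Dirs θ) (hm : ∀ j, 0 < m j)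
    (hmm : ∀ j, m j ≤ m' j) :
    cp (starSet 0 θ m) ≤ cp (starSet 0 θ m') ∧
    cp (starSet 0 θ m') ≤ cp (starSet 0 θ m) + ∑ k, (m' k - m k) / 4 := by
  have h := add_le hL θ m (fun k => m' k - m k) hθ hm (fun j => sub_nonneg.2 (hmm j)) Finset.univ
  have e : m + ∑ k, Pi.single k (m' k - m k) = m' := by
    have h1 : (∑ k, Pi.single k (m' k - m k) : Fin N → ℝ) = fun k => m' k - m k :=
      Finset.univ_sum_single (fun k => m' k - m k)
    rw [h1]
    funext j
    simp
  simp only [e] at h
  exact h.2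

/-- one half of the Lipschitz bound -/
theorem lip_aux (hL : CapLip) {N : ℕ} (θ m m' : Fin N → ℝ) (hθ : Dirs θ) (hm : ∀ j, 0 < m j)
    (hm' : ∀ j, 0 < m' j) :
    cp (starSet 0 θ m') ≤ cp (starSet 0 θ m) + N * dist m m' := by
  have h1 := le_le hL θ m (fun j => max (m j) (m' j)) hθ hm (fun j => le_max_left _ _)
  have h2 := le_le hL θ m' (fun j => max (m j) (m' j)) hθ hm' (fun j => le_max_right _ _)
  have h3 : ∑ k, (max (m k) (m' k) - m k) / 4 ≤ ∑ _k : Fin N, dist m m' := by
    refine Finset.sum_le_sum ?_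
    intro k _
    have e1 : dist (m k) (m' k) ≤ dist m m' := dist_le_pi_dist m m' k
    rw [Real.dist_eq] at e1
    have e2 : max (m k) (m' k) - m k ≤ |m k - m' k| := by
      rcases le_total (m k) (m' k) with h | h
      · rw [max_eq_right h]
        have := neg_abs_le (m k - m' k)
        linarith
      · rw [max_eq_left h, sub_self]
        exact abs_nonneg _
    have e3 := abs_nonneg (m k - m' k)
    linarith
  rw [Finset.sum_const, Finset.card_univ, Fintype.card_fin, nsmul_eq_mul] at h3
  linarith [h1.2, h2.1]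

/-- Lipschitz continuity on the open orthant -/
theorem lip (hL : CapLip) {N : ℕ} (θ : Fin N → ℝ) (hθ : Dirs θ) :
    LipschitzOnWith (N : NNReal) (fun y : Fin N → ℝ => cp (starSet 0 θ y))
      {m | ∀ j, 0 < m j} := by
  refine LipschitzOnWith.of_dist_le_mul ?_
  intro x hx y hy
  rw [Real.dist_eq, abs_sub_le_iff]
  have h1 := lip_aux hL θ x y hθ hx hy
  have h2 := lip_aux hL θ y x hθ hy hx
  rw [dist_comm y x] at h2
  simp only [NNReal.coe_natCast]
  constructor <;> linarith

end CapDiff

theorem s_CapDiff : CapLip → CapDiff := by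
  intro hL N θ m₀ η hθ hm₀ hη
  have hae := (CapDiff.lip hL θ hθ).ae_differentiableWithinAt_of_mem
    (μ := (volume : Measure (Fin N → ℝ)))
  have hdense := Measure.dense_of_ae hae
  have hO : IsOpen {m : Fin N → ℝ | ∀ j, 0 < m j} := by
    have : {m : Fin N → ℝ | ∀ j, 0 < m j} = Set.pi univ (fun _ => Ioi 0) := by
      ext m
      simp
    rw [this]
    exact isOpen_set_pi finite_univ (fun _ _ => isOpen_Ioi)
  have hB : IsOpen (Set.pi univ (fun j : Fin N => Ioo (m₀ j) (m₀ j + η))) :=
    isOpen_set_pi finite_univ (fun _ _ => isOpen_Ioo)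
  have hBne : (Set.pi univ (fun j : Fin N => Ioo (m₀ j) (m₀ j + η))).Nonempty := by
    refine ⟨fun j => m₀ j + η / 2, ?_⟩
    intro j _
    constructor
    · change m₀ j < m₀ j + η / 2
      linarith
    · change m₀ j + η / 2 < m₀ j + η
      linarith
  obtain ⟨m, hmB, hmD⟩ := hdense.inter_open_nonempty _ hB hBne
  have hmO : m ∈ {m : Fin N → ℝ | ∀ j, 0 < m j} := by
    intro j
    exact (hm₀ j).trans (hmB j (mem_univ j)).1
  refine ⟨m, ?_, ?_⟩
  · intro j
    exact ⟨(hmB j (mem_univ j)).1.le, (hmB j (mem_univ j)).2.le⟩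
  · exact (hmD hmO).differentiableAt (hO.mem_nhds hmO)

end Pool.MP_31392c_an
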