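import Mathlib
import Pool.Agent.Lib.MP_31392c_an.Full.SpecD

/-!
# MP_31392c_an full proof, group C: the key inequality in the unit disc

`π a(0) b(0) ≤ - ∫ (∇a·∇b + V a b)` for nonnegative solutions of `Δ a = V a` with boundary values
supported in disjoint arcs.  Cycloid coordinates `T = e^l (θ - sin θ)`, `Q = e^l (1 - cos θ)`.
-/

set_option autoImplicit false

open MeasureTheory Set Filter Topology Metric

namespace Pool.MP_31392c_an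

/-- `θ - sin θ` -/
noncomputable def cyN (t : ℝ) : ℝ := t - Real.sin t

/-- `1 - cos θ` -/
noncomputable def cyP (t : ℝ) : ℝ := 1 - Real.cos t

/-- `∂f/∂r` at the point `r e^{it}` -/
noncomputable def dR (f : ℂ → ℝ) (r t : ℝ) : ℝ :=
  fderiv ℝ f ((r : ℂ) * Complex.exp ((t : ℂ) * Complex.I)) (Complex.exp ((t : ℂ) * Complex.I))

/-- **CycPos.** Proof. For `0 < t < 2π`: `1 - cos t > 0`; `t - sin t > 0` (`Real.sin_lt`, `t > 0`);
`(1-cos t)² - (t - sin t) sin t = 2 - 2 cos t - t sin t = 4 sin(t/2) (sin(t/2) - (t/2) cos(t/2))` and for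
`x = t/2 ∈ (0,π)`: `sin x > 0` and `sin x - x cos x > 0` (it vanishes at `0` and has derivative
`x sin x > 0` on `(0,π)`). -/
def CycPos : Prop := ∀ t ∈ Ioo (0 : ℝ) (2 * Real.pi),
  0 < cyP t ∧ 0 < cyN t ∧ 0 < cyP t ^ 2 - cyN t * Real.sin t

/-- **Cyc.** The inverse function of `m(θ) = (θ - sin θ)/(1 - cos θ)`. Uses: CycPos.

Proof. `m` is smooth on `(0,2π)` with `m' = (p² - n s)/p² > 0` (`n' = p`, `p' = s = sin`), hence strictly
increasing; `m(t) → 0` as `t → 0+` (`n ≤ t³/6·…`: e.g. `n ≤ t p`-type bounds: for `0<t≤π`,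
`m(t) ≤ t/2·…`; simplest: `n ≤ t p` for small `t` is enough, since then `m ≤ t`; indeed
`t p - n = sin t - t cos t ≥ 0` on `(0,π)`), and `m(t) → +∞` as `t → 2π-` (`n → 2π`, `p → 0+`). By the
intermediate value theorem `m : (0,2π) → (0,∞)` is a bijection; let `Θ` be its inverse on `(0,∞)` (arbitrary
elsewhere). Smoothness: inverse function theorem (`ContDiffAt.toOpenPartialHomeomorph`… or
`HasStrictDerivAt.to_localInverse`/`OpenPartialHomeomorph.contDiffAt_symm_deriv`) at each point; the local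
inverse coincides with `Θ` since `m` is injective (continuity of `Θ` follows from monotonicity). Last
claim: `X = m(max(2π - η, π))` (monotonicity). -/
def Cyc : Prop := ∃ Θ : ℝ → ℝ,
  (∀ x, 0 < x → 0 < Θ x ∧ Θ x < 2 * Real.pi ∧ cyN (Θ x) = x * cyP (Θ x)) ∧
  (∀ x, 0 < x → ContDiffAt ℝ 2 Θ x) ∧
  (∀ η > 0, ∃ X > 0, ∀ x, X < x → 2 * Real.pi - η < Θ x)

/-- **CycPDE.** The differential identity in cycloid coordinates (pointwise).

Proof. Write `n = cyN (th z)`, `p = cyP (th z)`, `s = sin (th z)`, `c = cos (th z)`, `e = exp (l z)`;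
`n' = p`, `p' = s`. Product and chain rule near `z` (all functions are `C²` at `z`):
`∇T = e (n ∇l + p ∇th)`, `∇Q = e (p ∇l + s ∇th)`,
`lap T = e (n lap l + n |∇l|² + 2 p ∇l·∇th + p lap th + s |∇th|²)`,
`lap Q = e (p lap l + p |∇l|² + 2 s ∇l·∇th + s lap th + c |∇th|²)`.
Equation `Q lap T = ∇Q·∇T`, divided by `e² `: `p(n lap l + n|∇l|² + 2p ∇l·∇th + p lap th + s|∇th|²)
= pn|∇l|² + (p²+ns)∇l·∇th + ps|∇th|²`, i.e.
(1) `p n lap l + p² lap th + (p² - n s) ∇l·∇th = 0`.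
Equation `2 Q lap Q = 4 V Q² + |∇Q|² - |∇T|²`, divided by `e²`:
`2p(p lap l + p|∇l|² + 2s∇l·∇th + s lap th + c|∇th|²) = 4Vp² + (p²-n²)|∇l|² + 2(ps - np)∇l·∇th +
(s² - p²)|∇th|²`; as `s² - p² = 2pc` the `|∇th|²` terms cancel:
(2) `2p² lap l + 2ps lap th + (p²+n²)|∇l|² + 2p(s+n)∇l·∇th = 4Vp²`.
`p·(2) - 2s·(1)`: `2p(p² - ns) lap l + p(p²+n²)|∇l|² + [2p²(s+n) - 2s(p²-ns)]∇l·∇th = 4Vp³`, and
`2p²n + 2ns² = 2n(p²+s²) = 4np` (`p²+s² = 2 - 2c = 2p`). Divide by `2p > 0`. -/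
def CycPDE : Prop := ∀ (l th T Q : ℂ → ℝ) (z : ℂ) (Vz : ℝ),
  ContDiffAt ℝ 2 l z → ContDiffAt ℝ 2 th z → th z ∈ Ioo (0 : ℝ) (2 * Real.pi) →
  (∀ᶠ w in 𝓝 z, T w = Real.exp (l w) * cyN (th w)) →
  (∀ᶠ w in 𝓝 z, Q w = Real.exp (l w) * cyP (th w)) →
  Q z * lap T z = gp Q T z →
  2 * Q z * lap Q z = 4 * Vz * Q z ^ 2 + gp Q Q z - gp T T z →
  (cyP (th z) ^ 2 - cyN (th z) * Real.sin (th z)) * lap l z + 2 * cyN (th z) * gp l th z
    + (cyP (th z) ^ 2 + cyN (th z) ^ 2) / 2 * gp l l z = 2 * Vz * cyP (th z) ^ 2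

/-- **StreamPDE.** The equations for `Q = ab` and the stream function `M` of `W = a∇b - b∇a`.

Proof. `∇Q = a∇b + b∇a`; `lap Q = a lap b + b lap a + 2∇a·∇b = 2VQ + 2∇a·∇b`. At `z`:
`|∇Q|² - |∇M|² = |a∇b+b∇a|² - |a∇b-b∇a|² = 4ab∇a·∇b`, so `2Q lap Q = 4VQ² + |∇Q|² - |∇M|²`.
`lap M = dX(dX M) + dY(dY M) = -∂x(a b_y - b a_y) + ∂y(a b_x - b a_x) = -2(a_x b_y - a_y b_x)` (the second
order terms cancel by symmetry of second derivatives), and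
`gp Q M = (a b_x + b a_x)(-(a b_y - b a_y)) + (a b_y + b a_y)(a b_x - b a_x) = -2ab(a_x b_y - a_y b_x)`. -/
def StreamPDE : Prop := ∀ (a b M : ℂ → ℝ) (z : ℂ) (Vz : ℝ),
  ContDiffAt ℝ 2 a z → ContDiffAt ℝ 2 b z → lap a z = Vz * a z → lap b z = Vz * b z →
  (∀ᶠ w in 𝓝 z, dX M w = -(a w * dY b w - b w * dY a w) ∧
    dY M w = a w * dX b w - b w * dX a w) →
  (a z * b z) * lap M z = gp (fun w => a w * b w) M z ∧
  2 * (a z * b z) * lap (fun w => a w * b w) z =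
    4 * Vz * (a z * b z) ^ 2 + gp (fun w => a w * b w) (fun w => a w * b w) z - gp M M z

/-- **Poinc.** Poincaré lemma in the disc.

Proof. `M(x+iy) = ∫_0^x p(s) ds + ∫_0^y q(x+is) ds` (the path stays in the disc:
`|s| ≤ |x|`, resp. `‖x+is‖ ≤ ‖x+iy‖`). `∂M/∂y = q` (fundamental theorem). `∂M/∂x = p(x) +
∫_0^y dX q(x+is) ds = p(x) + ∫_0^y dY p (x+is) ds = p(x) + p(x+iy) - p(x) = p(x+iy)` (differentiation under
the integral, `q` is `C¹`). Both derivatives are `C¹`, so `M` is `C²` (a function with continuous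
derivatives in the two coordinate directions is `C¹` with `fderiv = p dx + q dy`; then the Fréchet
derivative is `C¹`). Alternatively `M(z) = ∫_0^1 (x p(tz) + y q(tz)) dt`. -/
def Poinc : Prop := ∀ (p q : ℂ → ℝ),
  (∀ z ∈ ball (0 : ℂ) 1, ContDiffAt ℝ 1 p z ∧ ContDiffAt ℝ 1 q z ∧ dY p z = dX q z) →
  ∃ M : ℂ → ℝ, ∀ z ∈ ball (0 : ℂ) 1, ContDiffAt ℝ 2 M z ∧ dX M z = p z ∧ dY M z = q z

/-- the data of the key inequality -/
structure KeyData (V a b : ℂ → ℝ) (r₀ α₁ β₁ α₂ β₂ : ℝ) : Prop where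
  smooth : ContDiff ℝ 1 V
  nonneg : ∀ z, 0 ≤ V z
  r0 : 0 < r₀
  r1 : r₀ < 1
  supp : ∀ w, r₀ ≤ ‖w‖ → V w = 0
  contA : ContinuousOn a (closedBall 0 1)
  contB : ContinuousOn b (closedBall 0 1)
  harmA : VHarm V a (ball 0 1)
  harmB : VHarm V b (ball 0 1)
  posA : ∀ z ∈ closedBall (0 : ℂ) 1, 0 ≤ a z
  posB : ∀ z ∈ closedBall (0 : ℂ) 1, 0 ≤ b z
  h1 : α₁ < β₁
  h2 : β₁ < α₂
  h3 : α₂ < β₂
  h4 : β₂ < α₁ + 2 * Real.pi
  zeroA : ∀ t ∈ Icc β₁ (α₁ + 2 * Real.pi), a (Complex.exp ((t : ℂ) * Complex.I)) = 0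
  zeroB : ∀ t ∈ Icc β₂ (α₂ + 2 * Real.pi), b (Complex.exp ((t : ℂ) * Complex.I)) = 0

/-- **MBdry.** The stream function up to the boundary. Uses: Poinc, BdryReg, GradSmall.

Proof. 1. Poinc with `p = -(a dY b - b dY a)`, `q = a dX b - b dX a`; both are `C¹` in the disc and
`dY p = -(a b_yy - b a_yy)`, `dX q = a b_xx - b a_xx`, equal because `a lap b - b lap a = aVb - bVa = 0`.
Get `M₀`. Along circles: `d/dt M₀(re^{it}) = fderiv M₀ (i r e^{it}) = r (a ∂_r b - b ∂_r a)(re^{it})`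
(`∇M₀` is `W = a∇b - b∇a` turned by `+90°`, and `i r e^{it}` is `r e^{it}` turned by `+90°`).
2. BdryReg for `a` on the arc `(β₁, α₁+2π)` gives `A`; for `b` on `(β₂ - 2π, α₂)` (zero there by
periodicity of `exp`) gives `B`.
3. Fix `β₁ < p < α₂` and `β₂ < q < α₁ + 2π`. The compact arc `[p,q]` lies in `(β₁,α₁+2π)` and
`[q-2π, p]` lies in `(β₂-2π, α₂)`; together they are a full period `[q-2π,q]`. Let `r₂ = (1+r₀)/2`. On the
compact set `S₁ = {re^{it} : r₂ ≤ r ≤ 1, t ∈ [p,q]}`, `A` is `C¹` near every point, so `fderiv A` is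
bounded by some `C` and uniformly continuous on `S₁`; `A = a` on `S₁`, so for `r₂ ≤ r < 1` the derivatives of
`a` and `A` agree at `re^{it}`, `t ∈ (p-,q+)` a slightly larger arc (do the argument with open neighbourhood arcs). For
`re^{it} ∈ S₁`: `0 ≤ a(re^{it}) = A(re^{it}) - A(e^{it}) ≤ C (1-r)` (segment on the ray). Also
`∂_r A(e^{it}) ≤ 0` as `A(re^{it}) ≥ 0 = A(e^{it})` for `r < 1`. Similarly for `b`, `B` on
`S₂ = {t ∈ [q-2π,p]}`.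
4. Uniformly in `t ∈ [p,q]` as `r → 1-`: `r(a ∂_r b - b ∂_r a)(re^{it}) → - b(e^{it}) ∂_r A(e^{it}) ≥ 0`,
because `|a ∂_r b| ≤ C(1-r)‖∇b‖ → 0` by GradSmall for `b`, `b(re^{it}) → b(e^{it})` (uniform continuity),
`∂_r a → ∂_r A(e^{it})`. Uniformly in `t ∈ [q-2π,p]`: the limit is `a(e^{it}) ∂_r B(e^{it}) ≤ 0`.
5. `W` is bounded in the disc: on `‖z‖ ≤ r₂` by continuity, on `S₁`: `|a∇b| ≤ C(1-r)‖∇b‖` and
`|b∇a| ≤ C sup b`; on `S₂` symmetric. So `M₀` is Lipschitz on the (convex) disc;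
`LipschitzOnWith.extend_real` gives a Lipschitz function `M₁` on `ℂ` equal to `M₀` on the disc.
6. For `t₁ ≤ t₂` in `[p,q]`: `M₁(e^{it₂}) - M₁(e^{it₁}) = lim_{r→1-} (M₀(re^{it₂}) - M₀(re^{it₁})) =
lim ∫_{t₁}^{t₂} r(a∂_r b - b∂_r a)(re^{it}) dt = ∫_{t₁}^{t₂} (-b ∂_rA)(e^{it}) dt ≥ 0`; in `[q-2π,p]` the same
difference is `≤ 0`. Put `M = M₁ - M₁(e^{ip})`, `Φ = M₁(e^{iq}) - M₁(e^{ip}) = -∫_p^q b ∂_rA ≥ 0`. On the unit
circle every point is `e^{it}` with `t ∈ [p,q]`, where `0 = M(e^{ip}) ≤ M(e^{it}) ≤ M(e^{iq}) = Φ`, or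
`t ∈ [q-2π,p]`, where `0 = M(e^{ip}) ≤ M(e^{it}) ≤ M(e^{i(q-2π)}) = Φ`.
7. `∫_0^{2π} b ∂_r a (re^{it}) dt = ∫_{q-2π}^p + ∫_p^q` (periodicity). On `[q-2π,p]`: `0 ≤ b ≤ C(1-r)` and
`(1-r)‖∇a‖ → 0`, so the first integral tends to `0`; the second tends to `∫_p^q b ∂_rA (e^{it}) dt = -Φ`. -/
def MBdry : Prop := ∀ (V a b : ℂ → ℝ) (r₀ α₁ β₁ α₂ β₂ : ℝ), KeyData V a b r₀ α₁ β₁ α₂ β₂ →
  ∃ (M : ℂ → ℝ) (Φ : ℝ), ContinuousOn M (closedBall 0 1) ∧
    (∀ z ∈ ball (0 : ℂ) 1, ContDiffAt ℝ 2 M z ∧ dX M z = -(a z * dY b z - b z * dY a z) ∧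
      dY M z = a z * dX b z - b z * dX a z) ∧
    (∀ z, ‖z‖ = 1 → 0 ≤ M z ∧ M z ≤ Φ) ∧
    Tendsto (fun r : ℝ => ∫ t in (0 : ℝ)..(2 * Real.pi),
      b ((r : ℂ) * Complex.exp ((t : ℂ) * Complex.I)) * dR a r t) (𝓝[<] 1) (𝓝 (-Φ))

/-- **CrossLim.** `∫ (∇a·∇b + V a b)` over the disc as a boundary limit. Uses: DivZero.

Proof. Let `h x = Real.smoothTransition (x - 1)` (`C^∞`, `0` for `x ≤ 1`, `1` for `x ≥ 2`) and for
`0 < s < 1/4`, `η z = h ((1 - ‖z‖)/s)`: `C^∞` on `ℂ` (equal to `1` for `‖z‖ ≤ 1 - 2s`), `0` for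
`‖z‖ ≥ 1 - s`. The field `(η b dX a, η b dY a)` is `C¹` with compact support in the open disc; DivZero:
`∫ η (∇a·∇b + V a b) = - ∫ b ∇η·∇a`, and at `re^{it}`: `∇η·∇a = -(1/s) h'((1-r)/s) ∂_r a`. In polar
coordinates the right side is `(1/s) ∫_{1-2s}^{1-s} h'((1-r)/s) r B(r) dr`, `B(r) = ∫_0^{2π} b ∂_r a dt`;
since `(1/s)∫ h'((1-r)/s) dr = 1`, `h' ≥ 0`, it tends to `L` as `s → 0`. The left side tends to
`∫ (∇a·∇b + V a b)` by dominated convergence (`|∇a·∇b| ≤ (|∇a|²+|∇b|²)/2`, `V a b` bounded). -/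
def CrossLim : Prop := ∀ (V a b : ℂ → ℝ) (L : ℝ), Continuous V →
  ContinuousOn a (closedBall 0 1) → ContinuousOn b (closedBall 0 1) →
  VHarm V a (ball 0 1) → VHarm V b (ball 0 1) →
  IntegrableOn (fun z => gp a a z) (ball 0 1) → IntegrableOn (fun z => gp b b z) (ball 0 1) →
  Tendsto (fun r : ℝ => ∫ t in (0 : ℝ)..(2 * Real.pi),
    b ((r : ℂ) * Complex.exp ((t : ℂ) * Complex.I)) * dR a r t) (𝓝[<] 1) (𝓝 L) →
  ∫ z in ball (0 : ℂ) 1, (gp a b z + V z * a z * b z) = L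

/-- **KeyDisc.** The key inequality. Uses: MBdry, CrossLim, CycPos, Cyc, CycPDE, StreamPDE,
MaxDrift, StrongMP.

Proof. (0) `V` is bounded (continuous, zero for `‖w‖ ≥ r₀`). By StrongMP each of `a`, `b` is identically `0`
or positive in the open disc. If one of them is `0` then both sides are `0` (`gp a b = 0`, since the
derivative of the zero function vanishes in the open disc). So let `a, b > 0` in the disc.
(1) Take `M`, `Φ` from MBdry; by CrossLim `-∫(gp a b + V a b) = Φ`. So we need `π a(0) b(0) ≤ Φ`.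
(2) `0 ≤ M ≤ Φ` in the disc: let `Q = ab > 0`, `β = -∇Q/Q`, continuous in the open disc, so bounded on
`closedBall 0 ρ`, `ρ < 1`; StreamPDE: `lap M + β·∇M = 0`. MaxDrift for `M` and `-M` on `closedBall 0 ρ`: the
values of `M` on it lie between the min and max of `M` over the sphere of radius `ρ`; as `ρ → 1` these tend
to limits in `[0,Φ]` (uniform continuity of `M` on the closed disc).
(3) Fix `δ > 0`, `T = M + δ ≥ δ`. With `Θ` from Cyc let `th = Θ(T/Q)`, `l = log(Q/cyP th)`, `C²` in the open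
disc. `e^l cyP th = Q`, `e^l cyN th = (Q/cyP th)(T/Q) cyP th = T`. CycPDE (with the equations of
StreamPDE; `T` and `M` have the same derivatives) gives, with `D = cyP² - cyN sin > 0` (CycPos):
`lap l + β₁ dX l + β₂ dY l = 2V cyP²/D ≥ 0`, `β₁ = (2 cyN(th) dX th + (cyP²+cyN²)/2 dX l)/D`, `β₂` likewise
with `dY`; continuous in the open disc. By MaxDrift `l(0) ≤ max_{‖z‖=ρ} l` for every `ρ < 1`.
(4) Let `0 < η < π` and `X` from Cyc. `Q` is continuous on the closed disc and `0` on the circle (at each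
boundary point `a` or `b` vanishes: zeroA covers `t ∈ [β₁,α₁+2π]`, zeroB covers `[β₂-2π, α₂] ⊇ [α₁,β₁]`),
so for `ρ` close to `1`: `Q < δ/X` on `‖z‖ = ρ`, hence `T/Q > X`, `th > 2π - η > π`, `sin th < 0`,
`cyN th ≥ 2π - η`, `e^l = T/cyN th ≤ (Φ+δ)/(2π-η)`. So `e^{l(0)} ≤ (Φ+δ)/(2π-η)`, let `η → 0`:
`a(0)b(0) = Q(0) = e^{l(0)} cyP(th(0)) ≤ 2 e^{l(0)} ≤ (Φ+δ)/π`. Let `δ → 0`. -/
def KeyDisc : Prop := ∀ (V a b : ℂ → ℝ) (r₀ α₁ β₁ α₂ β₂ : ℝ), KeyData V a b r₀ α₁ β₁ α₂ β₂ →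
  IntegrableOn (fun z => gp a a z) (ball 0 1) → IntegrableOn (fun z => gp b b z) (ball 0 1) →
  Real.pi * (a 0 * b 0) ≤ - ∫ z in ball (0 : ℂ) 1, (gp a b z + V z * a z * b z)

end Pool.MP_31392c_an
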