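import Mathlib
import Pool.Agent.Lib.MP_31392c_an.Full.SpecB

/-!
# MP_31392c_an full proof, group S: explicit conformal maps onto complements of stars

`φ(ζ) = C ζ⁻¹ ∏ (1 - ζ e^{iτ_i})^{γ_i}`, `γ_i = angle/π`, `∑ γ_i = 2`.
-/

set_option autoImplicit false

open MeasureTheory Set Filter Topology Metric

namespace Pool.MP_31392c_an

/-- cotangent -/
noncomputable def ct (x : ℝ) : ℝ := Real.cos x / Real.sin x

/-- the corner after `τ j` in cyclic order -/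
noncomputable def nx {N : ℕ} (τ : Fin N → ℝ) (j : Fin N) : ℝ :=
  if h : j.val + 1 < N then τ ⟨j.val + 1, h⟩
  else τ ⟨0, Nat.lt_of_le_of_lt (Nat.zero_le _) j.isLt⟩ + 2 * Real.pi

/-- the direction before `θ j` in cyclic order -/
noncomputable def pv {N : ℕ} (θ : Fin N → ℝ) (j : Fin N) : ℝ :=
  if j.val = 0 then θ ⟨N - 1, Nat.sub_lt (Nat.lt_of_le_of_lt (Nat.zero_le _) j.isLt) Nat.one_pos⟩
    - 2 * Real.pi
  else θ ⟨j.val - 1, Nat.lt_of_le_of_lt (Nat.sub_le _ _) j.isLt⟩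

/-- the angle between the arms `j-1` and `j`, divided by `π` -/
noncomputable def gam {N : ℕ} (θ : Fin N → ℝ) (j : Fin N) : ℝ := (θ j - pv θ j) / Real.pi

/-- the modulus of `∏ (1 - ζ e^{iτ_i})^{γ_i}` at `ζ = e^{-it}` -/
noncomputable def cm {N : ℕ} (γ τ : Fin N → ℝ) (t : ℝ) : ℝ :=
  ∏ i, |2 * Real.sin ((t - τ i) / 2)| ^ (γ i)

/-- the Schwarz–Christoffel map -/
noncomputable def scf {N : ℕ} (γ τ : Fin N → ℝ) (C : ℝ) (ζ : ℂ) : ℂ :=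
  (C : ℂ) / ζ * ∏ i, (1 - ζ * Complex.exp ((τ i : ℂ) * Complex.I)) ^ (γ i : ℂ)

/-- **StarBessel.** Orthogonality and Bessel's inequality.

Proof. Write `c_{ji} = ct ((t_j - τ_i)/2)`. For `j ≠ l`, with `α = (t_j-τ_i)/2`, `β = (t_l-τ_i)/2`,
`α - β = (t_j-t_l)/2`: `ct α · ct β = ct(α-β)(ct β - ct α) - 1` (clear denominators;
`sin(α-β) = sin α cos β - cos α sin β`). Multiply by `γ_i` and sum: `∑_i γ_i c_{ji} c_{li} = -2` (first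
claim). Also `∑_i γ_i c_{ji}² = s_j - 2` since `ct² = 1/sin² - 1`. With `e_i = 1`, `C_j(i) = 1 + c_{ji}` and
the scalar product `⟨f,g⟩ = ∑ γ_i f_i g_i`: `⟨C_j,C_l⟩ = 2 + 0 + 0 - 2 = 0` for `j ≠ l`, `⟨C_j,C_j⟩ = s_j > 0`,
`⟨e,C_j⟩ = 2`, `⟨e,e⟩ = 2`. Let `k ∉ A`, `A' = A ∪ {k}`. `0 ≤ ⟨f,f⟩` with `f = e - ∑_{l∈A'} (2/s_l) C_l`
gives `0 ≤ 2 - ∑_{l∈A'} 4/s_l`, so `∑_{l∈A} 2/s_l ≤ 1 - 2/s_k < 1`. -/
def StarBessel : Prop := ∀ (N : ℕ) (γ τ t : Fin N → ℝ), (∀ i, 0 < γ i) → ∑ i, γ i = 2 →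
  (∀ i j, Real.sin ((t j - τ i) / 2) ≠ 0) → (∀ j l, j ≠ l → Real.sin ((t j - t l) / 2) ≠ 0) →
  (∀ j, ∑ i, γ i * ct ((t j - τ i) / 2) = 0) →
  (∀ j l, j ≠ l → ∑ i, γ i * (ct ((t j - τ i) / 2) * ct ((t l - τ i) / 2)) = -2) ∧
  (∀ j, ∑ i, γ i * ct ((t j - τ i) / 2) ^ 2 = (∑ i, γ i / Real.sin ((t j - τ i) / 2) ^ 2) - 2) ∧
  ∀ A : Finset (Fin N), A ≠ Finset.univ →
    ∑ l ∈ A, 2 / (∑ i, γ i / Real.sin ((t l - τ i) / 2) ^ 2) < 1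

/-- **StarPert.** A first order perturbation of the corners that increases `cm` at the points `t_j`,
`j ∈ A`. Uses: StarBessel.

Proof. Let `s_l = ∑_i γ_i/sin²((t_l-τ_i)/2) > 0`, `λ_l = 2/s_l`,
`v_i = -∑_{l∈A} λ_l ct((t_l-τ_i)/2)`. For `j ∈ A` let `f(ε) = log cm γ (τ+εv) t_j =
∑ γ_i log|2 sin((t_j-τ_i-εv_i)/2)|`, differentiable at `0` (the sines are nonzero) with
`f'(0) = -½ ∑_i γ_i v_i ct((t_j-τ_i)/2) = ½ ∑_{l∈A} λ_l ∑_i γ_i ct((t_l-τ_i)/2) ct((t_j-τ_i)/2)`, which by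
StarBessel is `½(λ_j (s_j - 2) - 2∑_{l∈A, l≠j} λ_l) = 1 - ∑_{l∈A} 2/s_l > 0`. So `f(ε) > f(0)` for small
`ε > 0`, and `cm > 0` near `ε = 0`; exponentiate. -/
def StarPert : Prop := ∀ (N : ℕ) (γ τ t : Fin N → ℝ), (∀ i, 0 < γ i) → ∑ i, γ i = 2 →
  (∀ i j, Real.sin ((t j - τ i) / 2) ≠ 0) → (∀ j l, j ≠ l → Real.sin ((t j - t l) / 2) ≠ 0) →
  (∀ j, ∑ i, γ i * ct ((t j - τ i) / 2) = 0) →
  ∀ A : Finset (Fin N), A ≠ Finset.univ → ∃ v : Fin N → ℝ, ∀ j ∈ A, ∃ ε₀ > 0,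
    ∀ ε ∈ Ioo (0 : ℝ) ε₀, cm γ τ (t j) < cm γ (fun i => τ i + ε * v i) (t j)

/-- **StarParam.** Corners for prescribed arm lengths. Uses: StarPert.

Proof. `γ = gam θ` is positive with sum `2` (telescoping). Let `𝒯` be the compact set of all
`τ : Fin N → ℝ` with `τ_0 = 0`, `τ` monotone, `τ_{N-1} ≤ 2π`. For `τ ∈ 𝒯`, `u ∈ [0,1]` put
`P_j(τ,u) = cm γ τ (τ_j + u (nx τ j - τ_j))`, jointly continuous (`y ↦ |y|^{γ}` is continuous as `γ > 0`),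
`ψ_j(τ) = sup_{u∈[0,1]} P_j(τ,u)`, continuous (`IsCompact.continuous_sSup`), `m(τ) = min_j ψ_j(τ)/x_j`. `m`
attains its maximum `m*` at some `τ ∈ 𝒯`; `m* > 0` (equally spaced corners). If `τ_j = nx τ j` then
`P_j = 0` (the factor `i = j` is `0`), so at the maximum `τ_j < nx τ j` for all `j`: `Dirs τ`.
For each `j` let `t_j ∈ [τ_j, nx τ j]` be a point where `cm γ τ` is maximal, value `ψ_j > 0`; `cm` is `0` at the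
ends (the factors `i = j` and `i = j+1`), so `t_j` is interior and all `sin((t_j-τ_i)/2) ≠ 0`; the
derivative of `log cm = ∑ γ_i log|2 sin((t-τ_i)/2)|` vanishes: `∑ γ_i ct((t_j-τ_i)/2) = 0`. Also
`sin((t_j-t_l)/2) ≠ 0` for `j ≠ l` (distinct points in one period).
Let `A = {j | ψ_j/x_j = m*}` and suppose `A ≠ univ`. Take `v` from StarPert, `τ^ε_i = τ_i + ε v_i - ε v_0`,
in `𝒯` for small `ε ≥ 0` (all defining inequalities are strict at `τ`, and `τ^ε_0 = 0`). `cm` is invariant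
under a common shift of `t` and `τ`, so `ψ_j(τ^ε) ≥ cm γ (τ+εv) t_j > ψ_j(τ) = m* x_j` for `j ∈ A` and small
`ε > 0` (`t_j` is interior), and `ψ_j(τ^ε) > m* x_j` for `j ∉ A` by continuity of `ψ_j`. So
`m(τ^ε) > m*`, contradiction. Hence `ψ_j = m* x_j` for all `j`; `C = 1/m*`.
Finally shift `τ` by a constant: `∑ γ_i τ_i` changes by twice the shift, so it can be given any value; `Dirs`
and the maxima are invariant. -/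
def StarParam : Prop := ∀ (N : ℕ) (θ x : Fin N → ℝ) (S : ℝ), 2 ≤ N → Dirs θ → (∀ j, 0 < x j) →
  ∃ (τ : Fin N → ℝ) (C : ℝ), Dirs τ ∧ 0 < C ∧ ∑ i, gam θ i * τ i = S ∧
    ∀ j, (∀ t ∈ Icc (τ j) (nx τ j), C * cm (gam θ) τ t ≤ x j) ∧
      ∃ t ∈ Ioo (τ j) (nx τ j), C * cm (gam θ) τ t = x j

/-- **SCircle.** The boundary values of the Schwarz–Christoffel map.

Proof. For `0 < s < 2π`: `1 - e^{-is} = 2 sin(s/2) e^{i(π-s)/2}` with argument `(π-s)/2 ∈ (-π/2,π/2)`, so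
`(1 - e^{-is})^γ = |2 sin(s/2)|^γ e^{iγ(π-s)/2}` (`Complex.cpow` with real exponent of
`r e^{iω}`, `|ω| < π`). Let `t ∈ (τ_j, nx τ j)`. Then `e^{-it} e^{iτ_i} = e^{-is_i}` with
`s_i = t - τ_i ∈ (0,2π)` for `i ≤ j` and `s_i = t - τ_i + 2π ∈ (0,2π)` for `i > j`, and
`|2 sin(s_i/2)| = |2 sin((t-τ_i)/2)|`. So `scf = C e^{it} cm(t) e^{iE}`,
`E = ∑ γ_i(π - t + τ_i)/2 - π∑_{i>j} γ_i = π - t + ½∑γ_iτ_i - (θ_{N-1} - θ_j)` (`∑γ_i = 2`,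
`π∑_{i>j}γ_i = θ_{N-1} - θ_j` telescoping), and `½∑γ_iτ_i = θ_{N-1} - π` gives `E = -t + θ_j`. At the
end points of the interval both sides are `0` (the factor with `1 - 1 = 0`; `0^γ = 0` for `γ ≠ 0`). -/
def SCircle : Prop := ∀ (N : ℕ) (hN : 2 ≤ N) (θ τ : Fin N → ℝ) (C : ℝ), Dirs θ → Dirs τ →
  ∑ i, gam θ i * τ i = 2 * (θ ⟨N - 1, by omega⟩ - Real.pi) →
  ∀ j, ∀ t ∈ Icc (τ j) (nx τ j),
    scf (gam θ) τ C (Complex.exp (-((t : ℂ) * Complex.I))) =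
      ((C * cm (gam θ) τ t : ℝ) : ℂ) * Complex.exp ((θ j : ℂ) * Complex.I)

/-- **SInj.** Regularity and injectivity of the Schwarz–Christoffel map.

Proof. For `‖ζ‖ ≤ 1`: `re(1 - ζe^{iτ}) ≥ 0`, `> 0` for `‖ζ‖ < 1`, so each factor is holomorphic in the open
disc and continuous on the closed disc (`cpow` with real exponent `γ > 0` is continuous on the closed
right half plane, including `0`: `‖z^γ‖ = ‖z‖^γ`). `ζ·scf ζ = C ∏(...) → C` at `0`.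
Injectivity: on the half plane `re ξ > 0` let `Ψ(ξ) = ξ + ∑ γ_i Log(1 - e^{-ξ+iτ_i})`; then
`scf(e^{-ξ}) = C exp Ψ(ξ)`, `Ψ(ξ+2πik) = Ψ(ξ)+2πik`, and with `ω_i = e^{-ξ+iτ_i}`, `|ω_i| < 1`, `∑γ_i/2 = 1`:
`Ψ'(ξ) = 1 + ∑γ_i ω_i/(1-ω_i) = ∑(γ_i/2)(1+ω_i)/(1-ω_i)`, real part `∑(γ_i/2)(1-|ω_i|²)/|1-ω_i|² > 0`. So `Ψ`
is injective: `Ψ(ξ₂)-Ψ(ξ₁) = (ξ₂-ξ₁)∫_0^1 Ψ'(ξ₁+s(ξ₂-ξ₁))ds` and the integral has positive real part. If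
`scf ζ₁ = scf ζ₂`, `ζ_i = e^{-ξ_i}`, then `Ψ(ξ₁) = Ψ(ξ₂)+2πik = Ψ(ξ₂+2πik)`, so `ξ₁ = ξ₂+2πik`, `ζ₁ = ζ₂`. -/
def SInj : Prop := ∀ (N : ℕ) (γ τ : Fin N → ℝ) (C : ℝ), 0 < C → (∀ i, 0 < γ i) → ∑ i, γ i = 2 →
  (∀ ζ, ζ ≠ 0 → ‖ζ‖ < 1 → DifferentiableAt ℂ (scf γ τ C) ζ) ∧
  InjOn (scf γ τ C) {ζ | ζ ≠ 0 ∧ ‖ζ‖ < 1} ∧
  ContinuousOn (scf γ τ C) {ζ | ζ ≠ 0 ∧ ‖ζ‖ ≤ 1} ∧
  Tendsto (fun ζ => ζ * scf γ τ C ζ) (𝓝[≠] 0) (𝓝 (C : ℂ))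

/-- **SImage.** The image is the whole complement.

Proof. `D = {0 < ‖ζ‖ < 1}`, `Ω = φ(D)`. (a) `Ω` is open (open mapping theorem, `φ` is injective and
holomorphic on the open set `D`). (b) `Ω ∪ F` is closed: if `φ(ζ_n) → z` with `0 < ‖ζ_n‖ ≤ 1`, then `ζ_n`
stays away from `0` (`|φ| → ∞` at `0`), so a subsequence converges to some `ζ`, `0 < ‖ζ‖ ≤ 1`, and
`φ(ζ) = z`. (c) `Ω ∩ F = ∅`: let `φ(ζ₀) = z₀ = φ(ζ₁)`, `ζ₀ ∈ D`, `‖ζ₁‖ = 1`; let `U` be an open disc with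
`ζ₀ ∈ U`, `closure U ⊆ D`; `φ(U)` is an open neighbourhood of `z₀`; `φ((1-1/n)ζ₁) → z₀`, so eventually
`φ((1-1/n)ζ₁) ∈ φ(U)`, by injectivity `(1-1/n)ζ₁ ∈ U`, but the limit `ζ₁ ∉ closure U`, contradiction.
(d) `Ω ⊆ Fᶜ` is nonempty, open, and `Ω = (Ω ∪ F) ∩ Fᶜ` is closed in the preconnected set `Fᶜ`, so
`Ω = Fᶜ`. -/
def SImage : Prop := ∀ (F : Set ℂ) (φ : ℂ → ℂ) (C : ℂ), C ≠ 0 → IsPreconnected Fᶜ →
  (∀ ζ, ζ ≠ 0 → ‖ζ‖ < 1 → DifferentiableAt ℂ φ ζ) → InjOn φ {ζ | ζ ≠ 0 ∧ ‖ζ‖ < 1} →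
  ContinuousOn φ {ζ | ζ ≠ 0 ∧ ‖ζ‖ ≤ 1} → Tendsto (fun ζ => ζ * φ ζ) (𝓝[≠] 0) (𝓝 C) →
  φ '' {ζ | ‖ζ‖ = 1} = F → φ '' {ζ | ζ ≠ 0 ∧ ‖ζ‖ < 1} = Fᶜ

/-- **StarConn.** Complements of stars and of segments are connected.

Proof. Let `F` be the star, bounded by `R`. If `z ∉ F` then `t z ∉ F` for `t ≥ 1` (if `t z = r e^{iθ_j}`,
`r ≤ x_j`, then `z = (r/t)e^{iθ_j} ∈ F`; here we use `N ≥ 1` and `x_j ≥ 0`). So `Fᶜ` is the union of the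
preconnected set `{‖z‖ > R}` and the connected sets `{t z : t ≥ 1}`, `z ∈ Fᶜ`, each of which meets it (`z ≠ 0`
because `0 ∈ F`). The same argument with centre `a` works for a segment. -/
def StarConn : Prop :=
  (∀ (N : ℕ) (θ x : Fin N → ℝ), 0 < N → (∀ j, 0 ≤ x j) → IsPreconnected (starSet 0 θ x)ᶜ) ∧
  (∀ a b : ℂ, IsPreconnected (segment ℝ a b)ᶜ)

/-- **StarMapEx.** Existence of the star map, and the boundary arcs of two arms.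
Uses: StarParam, SCircle, SInj, SImage, StarConn.

Proof. (i) Reduction to positive arms: `J = {j | 0 < x j}`, `N' = card J ≥ 2`, `e = J.orderEmbOfFin rfl`,
`θ' = θ ∘ e`, `x' = x ∘ e`: `Dirs θ'`, and `starSet 0 θ x = starSet 0 θ' x'` (arms of length `0` contribute
only the point `0`, which is in the arm `k`).
(ii) positive arms: StarParam with `S = 2(θ_{N-1} - π)`, `φ = scf (gam θ) τ C`. SInj: analytic, injective,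
continuous, pole (`gam θ` positive with sum `2`). By SCircle the circle is mapped into the star `F` (every
point of the circle is `e^{-it}` with `t ∈ [τ_j, nx τ j]` for some `j`, and `0 ≤ C cm ≤ x_j`), and onto `F`:
`C cm` is continuous on `[τ_j, t_j]`, from `0` to `x_j` (intermediate values). SImage with StarConn.
(iii) arcs. For the arm `l` the set `{t ∈ [τ_l, nx τ l] | ρl ≤ C cm t}` is compact and does not contain the end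
points, so it lies in `[a_l,b_l]` with `τ_l < a_l < b_l < nx τ l`; similarly `[a_k,b_k]`. Outside, on the arc
of `l`, `φ(e^{-it}) = C cm(t) e^{iθ_l}` has modulus `≤ ρl`. Put `α₁ = -b_l`, `β₁ = -a_l`; if `k < l`
then `b_k < τ_l` and `nx τ l ≤ τ_k + 2π`, take `α₂ = -b_k`, `β₂ = -a_k`; if `l < k` take
`α₂ = 2π - b_k`, `β₂ = 2π - a_k`. In both cases `β₁ < α₂ < β₂ < α₁ + 2π`. A point `e^{it}` with
`t ∈ [β₁, α₁+2π]` is `e^{-it'}` with `t' = -t` mod `2π`; if it lies on the arc of `l` then `t'` (taken in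
`[τ_l, nx τ l]`) is not in `(a_l,b_l)`, so the image is in the arm `l` shortened to `ρl`; otherwise it is in
another arm. Same for `k`. -/
def StarMapEx : Prop := ∀ (N : ℕ) (θ x : Fin N → ℝ) (k l : Fin N), Dirs θ → k ≠ l →
  (∀ j, 0 ≤ x j) → 0 < x k → 0 < x l →
  ∃ (φ : ℂ → ℂ) (C : ℝ), StarMap (starSet 0 θ x) φ C ∧
    ∀ ρk ρl : ℝ, 0 < ρk → ρk < x k → 0 < ρl → ρl < x l →
      ∃ α₁ β₁ α₂ β₂ : ℝ, α₁ < β₁ ∧ β₁ < α₂ ∧ α₂ < β₂ ∧ β₂ < α₁ + 2 * Real.pi ∧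
        (∀ t ∈ Icc β₁ (α₁ + 2 * Real.pi), φ (Complex.exp ((t : ℂ) * Complex.I)) ∈
          starSet 0 θ (Function.update x l ρl)) ∧
        (∀ t ∈ Icc β₂ (α₂ + 2 * Real.pi), φ (Complex.exp ((t : ℂ) * Complex.I)) ∈
          starSet 0 θ (Function.update x k ρk))

/-- **SegEst.** The map for a segment, and the square root bound for its Green function `-log‖ζ‖`.
Uses: SImage, StarConn.

Proof. `b - a = ℓ e^{iω}`, `c = (a+b)/2`, `φ(ζ) = c + (ℓ/4)(ζ⁻¹ + e^{2iω} ζ)`. With `W = e^{-iω}ζ⁻¹`: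
`(4/ℓ) e^{-iω}(φ(ζ)-c) = W + W⁻¹`. Injective for `‖W‖ > 1`: `W+1/W = W'+1/W'` gives `(W-W')(1-1/(WW')) = 0`.
On `‖ζ‖ = 1`: `W = e^{iβ}`, `W+1/W = 2 cos β`, so the circle is mapped onto the segment. SImage.
Bound: a point `w` of the segment has `(4/ℓ)e^{-iω}(w-c) = 2 cos β`, and
`W + 1/W - 2cos β = (W-e^{iβ})(W-e^{-iβ})/W` has modulus `≥ (|W|-1)²/|W| = 4 sinh²(g/2) ≥ g²`,
`g = log|W| = -log‖ζ‖`. So `g² ≤ (4/ℓ)‖φ(ζ)-w‖`. -/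
def SegEst : Prop := ∀ a b : ℂ, a ≠ b → ∃ φ : ℂ → ℂ, StarMap (segment ℝ a b) φ (‖b - a‖ / 4) ∧
  ∀ ζ, ζ ≠ 0 → ‖ζ‖ < 1 → ∀ w ∈ segment ℝ a b,
    - Real.log ‖ζ‖ ≤ 2 * Real.sqrt (‖φ ζ - w‖ / ‖b - a‖)

end Pool.MP_31392c_an
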