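import Mathlib
import Pool.Agent.Lib.MP_31392c_an.Full.SpecC
import Pool.Agent.Lib.MP_31392c_an.Full.SpecS

/-!
# MP_31392c_an full proof, group G: Green functions of `Δ - V` in complements of stars, energy
identities, and the square inequality for stars with a soft obstacle `V`
-/

set_option autoImplicit false

open MeasureTheory Set Filter Topology Metric

namespace Pool.MP_31392c_an

/-- **StarInv.** The inverse of a star map and its behaviour at infinity.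

Proof. Let `D = {0 < ‖ζ‖ < 1}`. `φ` is injective and holomorphic on the open set `D`, so `φ' ≠ 0` there
(Mathlib: `AnalyticOnNhd`/open mapping; or: if `φ'(ζ₀)=0` then `φ` is not injective near `ζ₀`), `φ(D) = Fᶜ`
is open, and the inverse `ψ : Fᶜ → D` (choose anything on `F`) is holomorphic (inverse function theorem
at each point; the local inverse coincides with `ψ` near the point because `φ(D) ∋` values and
injectivity). The chain rule gives `ψ'·φ'(ψ) = 1`.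
Closedness of `{z ∉ F, ‖ψ z‖ ≤ r}`, `r < 1`: let `z_n = φ(ζ_n) → z`, `‖ζ_n‖ ≤ r`; `ζ_n` stays away from
`0` (`|φ| → ∞` at `0`), a subsequence converges to `ζ`, `0 < ‖ζ‖ ≤ r`, `z = φ(ζ) ∉ F`, `ψ z = ζ`.
Infinity: `ω(ζ) = 1/φ(ζ)` for small `ζ ≠ 0`, `ω(0) = 0`: holomorphic near `0` by the removable singularity
theorem (`ω(ζ)/ζ = 1/(ζφ(ζ)) → 1/C`), `ω'(0) = 1/C ≠ 0`. Let `χ` be its local inverse at `0`:
`χ(0) = 0`, `χ'(0) = C`. For `‖z‖` large `z ∉ F` (`φ(D)` contains a neighbourhood of infinity, because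
`ω` of a small disc is a neighbourhood of `0`), and `ψ z = χ(1/z)` since `ω(χ(1/z)) = 1/z`, i.e.
`φ(χ(1/z)) = z`. -/
def StarInv : Prop := ∀ (F : Set ℂ) (φ : ℂ → ℂ) (C : ℝ), StarMap F φ C →
  IsCompact F ∧
  (∃ (ω : ℂ → ℂ) (r : ℝ), 0 < r ∧ r < 1 ∧ (∀ ζ, ‖ζ‖ < r → AnalyticAt ℂ ω ζ) ∧ ω 0 = 0 ∧
    deriv ω 0 = (C : ℂ)⁻¹ ∧ ∀ ζ, ζ ≠ 0 → ‖ζ‖ < r → φ ζ ≠ 0 ∧ ω ζ = (φ ζ)⁻¹) ∧
  ∃ ψ : ℂ → ℂ, (∀ z, z ∉ F → ψ z ≠ 0 ∧ ‖ψ z‖ < 1 ∧ φ (ψ z) = z ∧ AnalyticAt ℂ ψ z ∧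
      deriv ψ z * deriv φ (ψ z) = 1) ∧
    (∀ ζ, ζ ≠ 0 → ‖ζ‖ < 1 → ψ (φ ζ) = ζ ∧ AnalyticAt ℂ φ ζ ∧ deriv φ ζ ≠ 0) ∧
    (∀ r, 0 < r → r < 1 → IsClosed {z | z ∉ F ∧ ‖ψ z‖ ≤ r}) ∧
    ∃ (χ : ℂ → ℂ) (r : ℝ), 0 < r ∧ (∀ w, ‖w‖ < r → AnalyticAt ℂ χ w ∧ ‖χ w‖ < 1 ∧ (w ≠ 0 → χ w ≠ 0)) ∧
      χ 0 = 0 ∧ deriv χ 0 = (C : ℂ) ∧ ∀ z, 1 / r < ‖z‖ → z ∉ F ∧ ψ z = χ z⁻¹

/-- **PullPot.** The potential in the disc coordinate. Uses: StarInv.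

Proof. Let `W ζ = V (φ ζ) ‖φ' ζ‖²` for `0 < ‖ζ‖ < 1` and `0` otherwise. `K = tsupport V` is compact and
disjoint from `F`, so `ψ(K)` is a compact subset of `{0 < ‖ζ‖ < 1}` (`ψ` is continuous on `Fᶜ`): it lies in
`{2 r₁ < ‖ζ‖ < r₀}` for suitable `0 < r₁`, `r₀ < 1`. Outside `ψ(K)` the function `W` is `0` (`V(φ ζ) ≠ 0`
implies `φ ζ ∈ K`, `ζ = ψ(φ ζ) ∈ ψ(K)`); on the open punctured disc it is `C¹` (`V` is `C²`, `φ` analytic,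
`‖φ'‖² = (re φ')² + (im φ')²`). The open sets `D` and `(ψ K)ᶜ` cover `ℂ`. -/
def PullPot : Prop := ∀ (F : Set ℂ) (φ : ℂ → ℂ) (C : ℝ) (V : ℂ → ℝ), StarMap F φ C → Pot V →
  Disjoint (tsupport V) F → ∃ (W : ℂ → ℝ) (r₀ r₁ : ℝ), ContDiff ℝ 1 W ∧ (∀ z, 0 ≤ W z) ∧
    0 < r₁ ∧ 0 < r₀ ∧ r₀ < 1 ∧ (∀ w, r₀ ≤ ‖w‖ → W w = 0) ∧ (∀ w, ‖w‖ ≤ r₁ → W w = 0) ∧
    ∀ ζ, ζ ≠ 0 → ‖ζ‖ < 1 → W ζ = V (φ ζ) * ‖deriv φ ζ‖ ^ 2

/-- **GreenEx.** Existence of the Green function of a star with soft obstacle.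
Uses: StarInv, PullPot, DiscGreen, Conf, Bridge.

Proof. Let `W` be the pulled back potential, `v` from DiscGreen for `W`, `û(ζ) = v ζ - log‖ζ‖`,
`u z = û(ψ z)` for `z ∉ F` and `0` on `F`. `û` is `C²` in the punctured disc with `lap û = W û`
(`log‖·‖` is harmonic off `0`), `û > 0`; by Conf for the analytic map `ψ`:
`lap u z = ‖ψ'(z)‖² W(ψ z) û(ψ z) = ‖ψ'‖²‖φ'(ψ z)‖² V(z) u(z) = V z * u z`. Continuity at points of `F`: given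
`ε > 0` there is `r < 1` with `û < ε` on `r < ‖ζ‖ < 1` (`v` continuous on the closed disc, `0` on the
circle), and `{z ∉ F, ‖ψ z‖ ≤ r}` is closed, so each point of `F` has a neighbourhood where `u < ε`.
Infinity: for `‖z‖` large, `w = 1/z`, `ψ z = χ(w)`:
`u z = v(χ w) - log‖χ w‖ = v(χ w) - log‖w‖ - log‖χ(w)/w‖ = log‖z‖ - κ + h(w)` with
`κ = log C - v 0`, `h w = v(χ w) - v 0 - (log‖g w‖ - log C)`, `g(w) = χ(w)/w`, `g(0) = C`, analytic and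
nonzero near `0` (dslope); `h` is `C²` and harmonic near `0`: `v` is harmonic near `0` (`W = 0` there; use
Conf), `log‖g‖` is harmonic (`g` analytic, nonzero). For `V = 0` take `v = 0`: `κ = log C`,
`u(φ ζ) = -log‖ζ‖`. -/
def GreenEx : Prop :=
  (∀ (V : ℂ → ℝ) (F : Set ℂ) (φ : ℂ → ℂ) (C : ℝ), StarMap F φ C → Pot V →
    Disjoint (tsupport V) F → ∃ (u : ℂ → ℝ) (κ : ℝ), IsGreen V F u κ) ∧
  (∀ (F : Set ℂ) (φ : ℂ → ℂ) (C : ℝ), StarMap F φ C →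
    ∃ u : ℂ → ℝ, IsGreen (fun _ => 0) F u (Real.log C) ∧
      ∀ ζ, ζ ≠ 0 → ‖ζ‖ < 1 → u (φ ζ) = - Real.log ‖ζ‖)

/-- **GreenSub.** A Green function belongs to the Perron class.

Proof. `u ≥ 0` (`0` on `F`, positive off `F`); where `u > 0` we are off `F`, so `u` is `C²` and
`lap u = V u ≥ 0`. For large `‖z‖`: `u z - log‖z‖ = -κ + h(z⁻¹) → -κ` (`h` is continuous at `0`, `h 0 = 0`,
`z⁻¹ → 0` along `cocompact`). -/
def GreenSub : Prop := ∀ (V : ℂ → ℝ) (F : Set ℂ) (u : ℂ → ℝ) (κ : ℝ), (∀ z, 0 ≤ V z) →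
  IsGreen V F u κ → IsSub F u (-κ)

/-- **SubLeGreen.** Comparison of the Perron class with a Green function. Uses: MaxPr.

Proof. For `ε > 0` let `g = v - (1+ε) u`, continuous. `g = (v - log) - (1+ε)(u - log) - ε log → -∞` at
infinity, so there is `R > 0` with `g < 0` for `‖z‖ ≥ R`. In `Ω = ball 0 R`, where `g > 0`: `v > 0` (as
`u ≥ 0`), so `z ∉ F'` (`v = 0` on `F'`), `V z = 0`, `z ∉ F`, `u` is `C²` with `lap u z = 0`, and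
`lap g z = lap v z ≥ 0`. MaxPr: `g ≤ 0`. Let `ε → 0`: `v ≤ u`; compare the limits of `v - log‖z‖` and
`u - log‖z‖` (which is `-κ`). -/
def SubLeGreen : Prop := ∀ (V : ℂ → ℝ) (F F' : Set ℂ) (u v : ℂ → ℝ) (κ c : ℝ),
  IsGreen V F u κ → IsSub F' v c → F ⊆ F' → (∀ z, z ∉ F' → V z = 0) →
  (∀ z, v z ≤ u z) ∧ c ≤ -κ

/-- **GreenMono.** Monotonicity of Green functions. Uses: MaxPr.

Proof. As SubLeGreen with `g = u₂ - (1+ε) u₁`: where `g > 0` we have `u₂ > 0`, so `z ∉ F₂ ⊇ F₁`, both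
functions are `C²` at `z` and `lap g = V g ≥ 0`. So `u₂ ≤ u₁`, and at infinity `-κ₂ ≤ -κ₁`. -/
def GreenMono : Prop := ∀ (V : ℂ → ℝ) (F₁ F₂ : Set ℂ) (u₁ u₂ : ℂ → ℝ) (κ₁ κ₂ : ℝ), (∀ z, 0 ≤ V z) →
  IsGreen V F₁ u₁ κ₁ → IsGreen V F₂ u₂ κ₂ → F₁ ⊆ F₂ → (∀ z, u₂ z ≤ u₁ z) ∧ κ₁ ≤ κ₂

/-- **GreenAsym.** Estimates at infinity.

Proof. `h` is `C²` on `ball 0 r`; on `closedBall 0 (r/2)` its derivative is bounded by some `C₁`, so
`|h w| ≤ C₁‖w‖`. For `‖z‖ > 2/r` (and then near `z`) `u = log‖·‖ - κ + h(·⁻¹)`; the derivative of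
`z ↦ z⁻¹` has norm `‖z‖⁻²`, so the gradient of `h(z⁻¹)` is at most `C₁/‖z‖²`; the gradient of `log‖z‖`
is `z/‖z‖²`. -/
def GreenAsym : Prop := ∀ (V : ℂ → ℝ) (F : Set ℂ) (u : ℂ → ℝ) (κ : ℝ), IsGreen V F u κ →
  ∃ C R : ℝ, 1 ≤ R ∧ 0 ≤ C ∧ ∀ z : ℂ, R ≤ ‖z‖ → ContDiffAt ℝ 2 u z ∧
    |u z - (Real.log ‖z‖ - κ)| ≤ C / ‖z‖ ∧ |dX u z - z.re / ‖z‖ ^ 2| ≤ C / ‖z‖ ^ 2 ∧
    |dY u z - z.im / ‖z‖ ^ 2| ≤ C / ‖z‖ ^ 2

/-- **GreenL2.** The gradient of a Green function is locally square integrable. Uses: DivZero.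

Proof. The file `DualA.lean` of the library has `ramp σ t = max 0 (min 1 (t/σ))` and
`rampInt σ s = ∫_0^s ramp σ`: `C¹`, `0` for `s ≤ 0`, `0 ≤ rampInt σ s ≤ s` for `s ≥ 0`, derivative `ramp σ s`.
Let `T_ε s = rampInt ε (s - ε)`. Let `χ` be a `C^∞` cutoff (`ContDiffBump`), `0 ≤ χ ≤ 1`, compact support, `χ = 1`
on a ball `B` containing `F` in its interior and `ball 0 R`. The field `(χ T_ε(u) dX u, χ T_ε(u) dY u)` is `C¹` on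
`ℂ`: off `F` as a product of `C¹` functions; near a point of `F` we have `u < ε`, so it is zero. DivZero:
`∫ χ ramp ε (u-ε) gp u u = - ∫ χ T_ε(u) V u - ∫ T_ε(u) gp χ u ≤ ∫ |u| |gp χ u| =: K < ∞` (`∇χ` vanishes on `B`,
so the integrand is continuous with compact support). As `ε → 0`, `ramp ε (u-ε) → 1` on `{u > 0} = Fᶜ`
(increasing as `ε` decreases; Fatou or monotone convergence for `lintegral`), and `F` is a null set:
`∫ χ gp u u ≤ K`. Measurability: `gp u u` is continuous on the open set `Fᶜ`. -/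
def GreenL2 : Prop := ∀ (V : ℂ → ℝ) (F : Set ℂ) (u : ℂ → ℝ) (κ : ℝ), Continuous V →
  (∀ z, 0 ≤ V z) → IsCompact F → volume F = 0 → IsGreen V F u κ →
  ∀ R : ℝ, IntegrableOn (fun z => gp u u z) (ball 0 R)

/-- **GreenPair.** The pairing of two Green functions, `F₁ ⊆ F₂`. Uses: DivZero, GreenL2.

Proof. With `T_ε` as in GreenL2 the field `(χ T_ε(u₂) dX u₁, χ T_ε(u₂) dY u₁)` is `C¹` with compact support (off
`F₂` all factors are `C¹` since `F₁ ⊆ F₂`; near `F₂` it vanishes). DivZero: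
`∫ [χ ramp ε (u₂-ε) gp u₁ u₂ + χ T_ε(u₂) V u₁ + T_ε(u₂) gp χ u₁] = 0`. Let `ε → 0`, dominated
convergence: `|gp u₁ u₂| ≤ (gp u₁ u₁ + gp u₂ u₂)/2` is integrable on `supp χ` (GreenL2),
`|gp χ u₁| ≤ C (1 + gp u₁ u₁)`, the functions `uᵢ`, `V` are bounded on `supp χ`; `ramp → 1` off `F₂`, a null set. -/
def GreenPair : Prop := ∀ (V : ℂ → ℝ) (F₁ F₂ : Set ℂ) (u₁ u₂ : ℂ → ℝ) (κ₁ κ₂ : ℝ) (χ : ℂ → ℝ),
  Continuous V → (∀ z, 0 ≤ V z) → IsCompact F₁ → IsCompact F₂ → volume F₂ = 0 → F₁ ⊆ F₂ →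
  IsGreen V F₁ u₁ κ₁ → IsGreen V F₂ u₂ κ₂ → ContDiff ℝ 2 χ → HasCompactSupport χ →
  Integrable (fun z => χ z * (gp u₁ u₂ z + V z * u₁ z * u₂ z)) ∧
  Integrable (fun z => u₂ z * gp χ u₁ z) ∧
  ∫ z, χ z * (gp u₁ u₂ z + V z * u₁ z * u₂ z) = - ∫ z, u₂ z * gp χ u₁ z

/-- **GreenNorm.** `∫ (|∇x|² + V x²) = 2π (κ₂ - κ₁)` for `x = u₁ - u₂`. Uses: GreenPair, GreenAsym,
GreenMono.

Proof. Let `χ` be a `C^∞` cutoff, `1` on `ball 0 1`, support in `ball 0 2`, `0 ≤ χ ≤ 1`, `χ_R z = χ (z/R)`.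
GreenPair for `(F₁,F₁)`, `(F₁,F₂)`, `(F₂,F₂)` gives
`∫ χ_R (gp x x + V x²) = -∫ (u₁ gp χ_R u₁ - 2 u₂ gp χ_R u₁ + u₂ gp χ_R u₂)
= -∫ x gp χ_R u₁ + ∫ u₂ gp χ_R x` (expand `gp χ_R x = gp χ_R u₁ - gp χ_R u₂`, `x = u₁ - u₂`; for large `R`
the functions `uᵢ` are `C²` on `supp ∇χ_R ⊆ {R ≤ ‖z‖ ≤ 2R}`). By GreenAsym on this annulus:
`‖∇χ_R‖ ≤ C/R`, `|x - (κ₂-κ₁)| ≤ C/R`, `‖∇x‖ ≤ C/R²`, `0 ≤ u₂ ≤ C log R`, `‖∇u₁ - z/‖z‖²‖ ≤ C/R²`. So the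
second integral is `O(log R / R)`, and the first is `-(κ₂-κ₁) ∫ ∇χ_R·z/‖z‖² dz + O(1/R)`, where
`∫ ∇χ_R·z/‖z‖² = ∫_0^{2π}∫_0^∞ ∂_r χ_R dr dt = -2π χ_R(0) = -2π` (polar coordinates). So the limit is
`2π(κ₂-κ₁)`. The integrand `gp x x + V x²` is `≥ 0` and `χ_R → 1`: by Fatou it is integrable, by
dominated convergence its integral is the limit. (`x ≥ 0` is not needed.) `gp x x` is integrable because
`0 ≤ gp x x ≤ gp x x + V x²` and it is a.e. measurable (continuous off `F₂`). -/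
def GreenNorm : Prop := ∀ (V : ℂ → ℝ) (F₁ F₂ : Set ℂ) (u₁ u₂ : ℂ → ℝ) (κ₁ κ₂ : ℝ),
  Pot V → IsCompact F₁ → IsCompact F₂ → volume F₂ = 0 → F₁ ⊆ F₂ →
  IsGreen V F₁ u₁ κ₁ → IsGreen V F₂ u₂ κ₂ →
  Integrable (fun z => gp (fun w => u₁ w - u₂ w) (fun w => u₁ w - u₂ w) z) ∧
  Integrable (fun z => V z * (u₁ z - u₂ z) ^ 2) ∧
  ∫ z, (gp (fun w => u₁ w - u₂ w) (fun w => u₁ w - u₂ w) z + V z * (u₁ z - u₂ z) ^ 2)
    = 2 * Real.pi * (κ₂ - κ₁)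

/-- **KeyPlane.** The key inequality in the plane. Uses: KeyDisc, StarInv, PullPot, Conf, ChVar,
GreenMono, GreenNorm.

Proof. `F` is compact (StarInv). Let `a = uA - u`, `b = uB - u` (`≥ 0` by GreenMono), `W` from PullPot, `â ζ = a(φ ζ)` for `ζ ≠ 0`,
`â 0 = κ - κA`, and `b̂` similarly, `b̂ 0 = κ - κB`. Check `KeyData W â b̂ r₀ α₁ β₁ α₂ β₂`.
Continuity on the closed disc: at `ζ ≠ 0` composition of continuous maps; at `0`: `‖φ ζ‖ → ∞` and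
`a z → κ - κA` at infinity. `C²` and `lap â = W â`: at `0 < ‖ζ‖ < 1` by Conf (`φ ζ ∉ F`, and `A₁, B₁ ⊆ F`, so
`uA`, `u` are `V`-harmonic at `φ ζ`). Near `0`: `a z = (κ-κA) + (hA - h)(z⁻¹)` for large `‖z‖` with `hA`, `h`
from the definition of IsGreen, so `â ζ = (κ-κA) + (hA-h)(ω ζ)` with `ω` analytic (StarInv), also at
`ζ = 0`; Conf: `C²`, Laplacian `0 = W â` (`W = 0` near `0`). Zeros: for `t ∈ [β₁,α₁+2π]`,
`φ(e^{it}) ∈ A₁ ⊆ F`, so `uA = u = 0` there. Nonnegativity clear.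
Energies: `gp â â ζ = ‖φ'‖² gp a a (φ ζ)` on the punctured disc (Conf), so by ChVar with
`U = {0 < ‖ζ‖ < 1}`, `φ(U) = Fᶜ`, and `volume F = 0` (and the point `0` is a null set in the disc):
`∫_disc (gp â b̂ + W â b̂) = ∫_ℂ (gp a b + V a b)`, and integrability of `gp â â` follows from GreenNorm
(for the pairs `(A₁,F)`, `(B₁,F)`). KeyDisc gives the claim. -/
def KeyPlane : Prop := ∀ (V : ℂ → ℝ) (F A₁ B₁ : Set ℂ) (φ : ℂ → ℂ) (C : ℝ)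
  (u uA uB : ℂ → ℝ) (κ κA κB α₁ β₁ α₂ β₂ : ℝ),
  Pot V → StarMap F φ C → Disjoint (tsupport V) F → volume F = 0 →
  IsCompact A₁ → IsCompact B₁ → A₁ ⊆ F → B₁ ⊆ F →
  IsGreen V F u κ → IsGreen V A₁ uA κA → IsGreen V B₁ uB κB →
  α₁ < β₁ → β₁ < α₂ → α₂ < β₂ → β₂ < α₁ + 2 * Real.pi →
  (∀ t ∈ Icc β₁ (α₁ + 2 * Real.pi), φ (Complex.exp ((t : ℂ) * Complex.I)) ∈ A₁) →
  (∀ t ∈ Icc β₂ (α₂ + 2 * Real.pi), φ (Complex.exp ((t : ℂ) * Complex.I)) ∈ B₁) →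
  Real.pi * ((κ - κA) * (κ - κB)) ≤
    - ∫ z, (gp (fun w => uA w - u w) (fun w => uB w - u w) z + V z * (uA z - u z) * (uB z - u z))

/-- **StarNull.** Stars and finite unions of segments are compact null sets, and monotone in the lengths.

Proof. An arm (a segment) is the image of an interval (compact) and lies in a real line, a proper real affine
subspace of `ℂ` (`Measure.addHaar_affineSubspace`, or `addHaar_submodule` after a translation); finite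
unions. -/
def StarNull : Prop :=
  (∀ (N : ℕ) (c : ℂ) (θ x : Fin N → ℝ), IsCompact (starSet c θ x) ∧ volume (starSet c θ x) = 0) ∧
  (∀ (N : ℕ) (c : ℂ) (θ x y : Fin N → ℝ), (∀ j, x j ≤ y j) → starSet c θ x ⊆ starSet c θ y) ∧
  (∀ K : Set ℂ, SegUnion K → IsCompact K ∧ volume K = 0)

/-- **SQV.** The square inequality with a soft obstacle. Uses: StarMapEx, StarNull, GreenNorm, KeyPlane.

Proof. Let `y = x + s e_l + t e_k` (so `B' = starSet 0 θ y`), `A = star x`, `A' = star (x + t e_k) =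
starSet 0 θ (update y l (x l))`, `B = star (x + s e_l) = starSet 0 θ (update y k (x k))`. StarMapEx for `y`
with `ρl = x l ∈ (0, y l)`, `ρk = x k ∈ (0, y k)` gives `φ`, `C` and the arcs. KeyPlane with `F = B'`,
`A₁ = A'`, `B₁ = B`: `π (κB' - κA')(κB' - κB) ≤ -∫ (gp a b + V a b)`, `a = uA' - uB'`, `b = uB - uB'`.
With `v = uA - uB'` the pointwise identity (for the quadratic form `f ↦ gp f f + V f²`)
`|v-a-b|² = -|v|² + |v-a|² + |v-b|² + 2⟨a,b⟩` off the null set `B'` (there all four functions are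
differentiable), `v - a = uA - uA'`, `v - b = uA - uB`, and GreenNorm for `(A,B')`, `(A,A')`, `(A,B)` (and
`(A',B')`, `(B,B')` for integrability of `gp a a`, `gp b b`, hence of `gp a b`) give
`0 ≤ -2π(κB'-κA) + 2π(κA'-κA) + 2π(κB-κA) + 2∫(gp a b + V a b)`, i.e.
`-∫(gp a b + Vab) ≤ π((κA'-κA) - (κB'-κB))`. Divide by `π`. -/
def SQV : Prop := ∀ (V : ℂ → ℝ) (N : ℕ) (θ x : Fin N → ℝ) (k l : Fin N) (s t : ℝ)
  (uA uA' uB uB' : ℂ → ℝ) (κA κA' κB κB' : ℝ),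
  Pot V → Dirs θ → k ≠ l → (∀ j, 0 ≤ x j) → 0 < x k → 0 < x l → 0 < s → 0 < t →
  Disjoint (tsupport V) (starSet 0 θ (x + Pi.single l s + Pi.single k t)) →
  IsGreen V (starSet 0 θ x) uA κA →
  IsGreen V (starSet 0 θ (x + Pi.single k t)) uA' κA' →
  IsGreen V (starSet 0 θ (x + Pi.single l s)) uB κB →
  IsGreen V (starSet 0 θ (x + Pi.single l s + Pi.single k t)) uB' κB' →
  (κB' - κA') * (κB' - κB) ≤ (κA' - κA) - (κB' - κB)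

end Pool.MP_31392c_an
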