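import Mathlib
import Pool.Agent.Lib.MP_31392c_an.Full.SpecG

/-!
# MP_31392c_an full proof, group K: Perron capacity `kap`, hard obstacles, growth lemma
-/

set_option autoImplicit false

open MeasureTheory Set Filter Topology Metric

namespace Pool.MP_31392c_an

/-- bounded sets containing a nondegenerate segment -/
def Fat (F : Set ℂ) : Prop :=
  Bornology.IsBounded F ∧ ∃ a b : ℂ, a ≠ b ∧ segment ℝ a b ⊆ F

/-- **KapBasic.** Uses: SegEst, GreenEx, SubLeGreen.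

Proof. Boundedness above of `S_F = {c | ∃ v, IsSub F v c}`: let `segment a b ⊆ F`, `a ≠ b`; SegEst and
GreenEx (second part) give `IsGreen 0 (segment a b) u (log (‖b-a‖/4))`, and `IsSub F v c` implies
`IsSub (segment a b) v c`, so `c ≤ -log(‖b-a‖/4)` by SubLeGreen. Nonempty (F ⊆ ball 0 R, R > 0):
`v z = max (log‖z‖ - log R) 0` (it is `0` for `‖z‖ ≤ R`; continuous; harmonic where positive),
`c = -log R`. (1), (2): definition of `sSup` (`le_csSup`, `exists_lt_of_lt_csSup`). (3) `IsSub F' v c`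
implies `IsSub F v c`. (4) `v ↦ v(· - w)`: a bijection between the Perron classes with the same `c`
(`log‖z-w‖ - log‖z‖ → 0`). (5) `v ↦ v(·/lam)`, `c ↦ c - log lam`. (`lap` commutes with translations, and
`lap (v(·/lam)) = lam⁻² (lap v)(·/lam)`.) -/
def KapBasic : Prop :=
  (∀ (F : Set ℂ) (v : ℂ → ℝ) (c : ℝ), Fat F → IsSub F v c → c ≤ - kap F) ∧
  (∀ F : Set ℂ, Fat F → ∀ ε > 0, ∃ (v : ℂ → ℝ) (c : ℝ), IsSub F v c ∧ - kap F - ε < c) ∧
  (∀ F F' : Set ℂ, Fat F → Bornology.IsBounded F' → F ⊆ F' → kap F ≤ kap F') ∧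
  (∀ (F : Set ℂ) (w : ℂ), Fat F → kap ((fun z => w + z) '' F) = kap F) ∧
  (∀ (F : Set ℂ) (lam : ℝ), 0 < lam → Fat F →
    kap ((fun z => (lam : ℂ) * z) '' F) = Real.log lam + kap F)

/-- **KapStar.** `kap F = log C` for a set with a star map. Uses: GreenEx, GreenSub, SubLeGreen, KapBasic.

Proof. GreenEx (second part): `IsGreen 0 F u (log C)`. By GreenSub `IsSub F u (-log C)`, so
`-log C ≤ -kap F` (KapBasic 1). By SubLeGreen (`F' = F`, `V = 0`) every `c` in the Perron class is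
`≤ -log C`, so by KapBasic (2) `-kap F ≤ -log C`. -/
def KapStar : Prop := ∀ (F : Set ℂ) (φ : ℂ → ℂ) (C : ℝ), Fat F → StarMap F φ C →
  kap F = Real.log C

/-- **SegBound.** Square root bound for the Perron class. Uses: SegEst, GreenEx, SubLeGreen.

Proof. If `z` is in the segment, `v z = 0`. Otherwise let `φ` be the map of SegEst, `u` the Green function of
the segment (GreenEx part 2), `z = φ ζ`: `v z ≤ u z = -log‖ζ‖ ≤ 2√(‖z-w‖/‖b-a‖)` (SubLeGreen with `V = 0`). -/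
def SegBound : Prop := ∀ (F : Set ℂ) (v : ℂ → ℝ) (c : ℝ) (a b : ℂ), a ≠ b → segment ℝ a b ⊆ F →
  IsSub F v c → ∀ z, ∀ w ∈ segment ℝ a b, v z ≤ 2 * Real.sqrt (‖z - w‖ / ‖b - a‖)

/-- **KapMod.** Modulus of continuity of `kap`. Uses: KapBasic, SegBound.

Proof. Let `ω = 2√(d/ℓ)`. For `v` in the class of `F`: `v ≤ ω` on `F'` (`v = 0` on `F`; otherwise SegBound,
`‖z-w‖/‖b-a‖ ≤ d/ℓ`). `v' = max (v - ω) 0` is in the class of `F'` with `c' = c - ω`: where `v' > 0` it equals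
`v - ω` in a neighbourhood, `v > ω ≥ 0`; near infinity `v' = v - ω` (`v → ∞`). So `c - ω ≤ -kap F'`; take `c`
within `ε` of `-kap F`. -/
def KapMod : Prop := ∀ (F F' : Set ℂ) (ℓ d : ℝ), Fat F → Bornology.IsBounded F' → F ⊆ F' →
  0 < ℓ → 0 ≤ d →
  (∀ z ∈ F', z ∈ F ∨ ∃ a b w : ℂ, segment ℝ a b ⊆ F ∧ ℓ ≤ ‖b - a‖ ∧ w ∈ segment ℝ a b ∧
    ‖z - w‖ ≤ d) →
  kap F' ≤ kap F + 2 * Real.sqrt (d / ℓ)

/-- **HardApprox.** Soft obstacles approximate hard ones, uniformly for `P₀ ⊆ P ⊆ B`.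
Uses: KapBasic, KapMod, SegBound, GreenSub, SubLeGreen, Barrier.

Proof. Case `K = ∅`: `V = 0`; `IsGreen 0 P u κ` gives `κ = kap P` as in KapStar. Otherwise `K` is a
nonempty finite union of segments of length `≥ ℓ > 0`. Choose `0 < ε` so small that `cthickening ε K` is
disjoint from the compact set `B` and `2√(ε/ℓ) ≤ η`. Let `f` be `C^∞`, `0 ≤ f ≤ 1`, `f = 1` on
`cthickening (ε/2) K`, `tsupport f ⊆ cthickening ε K` (smooth Urysohn, `exists_contDiff_…`), `V = n f`, `n` to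
be chosen. Let `P₀ ⊆ P ⊆ B`, `IsGreen V P u κ`.
Upper bound: with `F' = P ∪ cthickening ε K`, `V = 0` off `F'`: every `c` in the class of `F'` is `≤ -κ`
(SubLeGreen), so `κ ≤ kap F' ≤ kap (P ∪ K) + 2√(ε/ℓ)` (KapMod; a point `z` of `cthickening ε K` has a point
`w ∈ K` with `‖z-w‖ ≤ ε`, `K` compact).
Lower bound: `u` is in the class of `P ⊇ P₀ ⊇ segment a₀ b₀` (GreenSub), so by SegBound
`u z ≤ 2√(‖z-a₀‖/‖b₀-a₀‖) ≤ M` for `z ∈ cthickening ε K`, `M` independent of `n` and `P`. For `z₀ ∈ K` the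
closed disc of radius `ε/2` around `z₀` lies in `cthickening (ε/2) K`, where `V = n`, disjoint from `P`; Barrier:
`u z₀ ≤ 16 M/(n ε²) ≤ η` for `n` large. So `max (u - η) 0` is in the class of `P ∪ K` with `c = -κ - η`:
`-κ - η ≤ -kap (P ∪ K)`. -/
def HardApprox : Prop := ∀ (P₀ B K : Set ℂ) (η : ℝ), Fat P₀ → IsCompact B → P₀ ⊆ B → SegUnion K →
  Disjoint K B → 0 < η →
  ∃ V : ℂ → ℝ, Pot V ∧ Disjoint (tsupport V) B ∧
    ∀ (P : Set ℂ) (u : ℂ → ℝ) (κ : ℝ), P₀ ⊆ P → P ⊆ B → IsGreen V P u κ →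
      |κ - kap (P ∪ K)| ≤ η

/-- **SQK.** The square inequality with a hard obstacle, any centre. Uses: SQV, HardApprox, StarMapEx,
GreenEx, StarNull, KapBasic.

Proof. `starSet c θ x` is the translate by `c` of `starSet 0 θ x`; by KapBasic (4) we may take `c = 0` (`K`
replaced by `K - c`, again a SegUnion; `kap ((c + S) ∪ K) = kap (S ∪ (K-c))`). The four stars have all lengths
`≥ 0` and arms `k`, `l` positive, so StarMapEx and GreenEx give Green functions for every potential `V` with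
`tsupport V` disjoint from the largest star `B'` (compact, StarNull). For `η = 1/n` take `V_n` from HardApprox
(`P₀ = starSet 0 θ x`, which contains the arm `k`, a nondegenerate segment; the other stars are between `P₀`
and `B'`). SQV holds for the four `κ`'s, which converge to the four `kap (· ∪ K)`. Pass to the limit. -/
def SQK : Prop := ∀ (N : ℕ) (c : ℂ) (θ x : Fin N → ℝ) (k l : Fin N) (s t : ℝ) (K : Set ℂ),
  Dirs θ → k ≠ l → (∀ j, 0 ≤ x j) → 0 < x k → 0 < x l → 0 < s → 0 < t → SegUnion K →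
  Disjoint K (starSet c θ (x + Pi.single l s + Pi.single k t)) →
  (kap (starSet c θ (x + Pi.single l s + Pi.single k t) ∪ K) -
      kap (starSet c θ (x + Pi.single k t) ∪ K)) *
    (kap (starSet c θ (x + Pi.single l s + Pi.single k t) ∪ K) -
      kap (starSet c θ (x + Pi.single l s) ∪ K)) ≤
  (kap (starSet c θ (x + Pi.single k t) ∪ K) - kap (starSet c θ x ∪ K)) -
    (kap (starSet c θ (x + Pi.single l s + Pi.single k t) ∪ K) -
      kap (starSet c θ (x + Pi.single l s) ∪ K))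

/-- **StarMod.** Modulus of continuity of `kap` in the arm lengths. Uses: KapMod, KapBasic, StarNull.

Proof. Monotone: `starSet` is monotone in the lengths. A point of the larger star which is not in the smaller
one lies on an arm `j`, at distance `≤ y j - x j ≤ d` from the tip of the smaller arm `j`; if `ℓ ≤ x j` use the
segment from `c` to this tip; if `x j = 0` the tip is `c`, which lies in the arm `i₀` of length `≥ ℓ`. KapMod with
`F = starSet c θ x ∪ K`. (An arm of length `x` is `segment ℝ c (c + x e^{iθ})`.) -/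
def StarMod : Prop := ∀ (N : ℕ) (c : ℂ) (θ x y : Fin N → ℝ) (i₀ : Fin N) (K : Set ℂ) (ℓ d : ℝ),
  0 < ℓ → 0 ≤ d → SegUnion K → ℓ ≤ x i₀ → (∀ j, 0 ≤ x j) → (∀ j, x j ≤ y j ∧ y j ≤ x j + d) →
  (∀ j, x j < y j → (ℓ ≤ x j ∨ x j = 0)) →
  kap (starSet c θ x ∪ K) ≤ kap (starSet c θ y ∪ K) ∧
  kap (starSet c θ y ∪ K) ≤ kap (starSet c θ x ∪ K) + 2 * Real.sqrt (d / ℓ)

/-- **GridLem.** The discrete integration of the square inequality.

Proof. `X i j = f i (j+1) - f i j ∈ [0,ξ]`, `y i j = f (i+1) (j+1) - f i (j+1) ∈ [0,ξ]`. The square inequality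
says `X i j ≥ (1 + y i j) X (i+1) j`, so `X 0 j ≥ ∏_{i<n} (1 + y i j) · X n j`. As `1 + y ≥ exp (y - y²/2) ≥
exp ((1-ξ) y)` for `0 ≤ y ≤ ξ ≤ 1` and `∑_i y i j = f n (j+1) - f 0 (j+1) ≤ Y = f n n - f 0 0`:
`exp(f 0 (j+1)) X 0 j ≥ exp(f 0 (j+1) + (1-ξ)(f n (j+1) - f 0 (j+1))) X n j ≥ exp(-ξ Y) exp(f n (j+1)) X n j
≥ exp(-ξY) (exp(f n (j+1)) - exp(f n j))` (`1 - e^{-X} ≤ X`), and `exp(f 0 (j+1)) - exp(f 0 j) =
exp(f 0 (j+1)) (1 - e^{-X}) ≥ exp(f 0 (j+1)) X (1 - X/2) ≥ (1-ξ) exp(f 0 (j+1)) X 0 j`. Sum over `j < n`. -/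
def GridLem : Prop := ∀ (n : ℕ) (f : ℕ → ℕ → ℝ) (ξ : ℝ), 0 < ξ → ξ ≤ 1 →
  (∀ i j, i < n → j ≤ n → f i j ≤ f (i + 1) j ∧ f (i + 1) j ≤ f i j + ξ) →
  (∀ i j, i ≤ n → j < n → f i j ≤ f i (j + 1) ∧ f i (j + 1) ≤ f i j + ξ) →
  (∀ i j, i < n → j < n → (f (i + 1) (j + 1) - f i (j + 1)) * (f (i + 1) (j + 1) - f (i + 1) j) ≤
    (f i (j + 1) - f i j) - (f (i + 1) (j + 1) - f (i + 1) j)) →
  (1 - ξ) * Real.exp (-ξ * (f n n - f 0 0)) * (Real.exp (f n n) - Real.exp (f n 0)) ≤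
    Real.exp (f 0 n) - Real.exp (f 0 0)

/-- **Growth.** The growth lemma: lengthening the arm `l` (up to contact with `K`) decreases the gain in
capacity obtained by lengthening the arm `k`. Uses: SQK, StarMod, GridLem.

Proof. Let `q s t = kap (starSet c θ (x + s e_l + t e_k) ∪ K)`. Let `0 < s₀ < s' < s₁`. For `n ≥ 1` let
`f i j = q (s₀ + i(s'-s₀)/n) (j h/n)`. For `i,j < n` SQK applies with base lengths
`x + (s₀ + i(s'-s₀)/n) e_l + (j h/n) e_k` (all `≥ 0`, arms `k`, `l` positive) and increments `(s'-s₀)/n`,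
`h/n`; disjointness holds because the larger star is contained in `starSet c θ (x + s' e_l + h e_k)`. StarMod
with `ℓ = min (x k) (x l + s₀)`, `i₀ = k` gives monotonicity and increments `≤ ξ_n = 2√(max(s'-s₀,h)/(nℓ)) → 0`,
and `f n n - f 0 0` does not depend on `n`. GridLem, `n → ∞`:
`exp (q s' h) - exp (q s' 0) ≤ exp (q s₀ h) - exp (q s₀ 0)`.
`s' → s₁`: StarMod (lengths between `x + s' e_l + t e_k` and `x + s₁ e_l + t e_k`, the arm `l` has length
`≥ x l + s' ≥ s₁/2` when `s' ≥ s₁/2`) gives `q s' t → q s₁ t` for `t = 0, h`. `s₀ → 0`: `q s₀ t → q 0 t` by StarMod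
(if `x l > 0` with `ℓ = min (x k) (x l)`, if `x l = 0` by the second alternative). -/
def Growth : Prop := ∀ (N : ℕ) (c : ℂ) (θ x : Fin N → ℝ) (k l : Fin N) (h s₁ : ℝ) (K : Set ℂ),
  Dirs θ → k ≠ l → (∀ j, 0 ≤ x j) → 0 < x k → 0 < h → 0 < s₁ → SegUnion K →
  (∀ s, 0 ≤ s → s < s₁ → Disjoint K (starSet c θ (x + Pi.single l s + Pi.single k h))) →
  cp (starSet c θ (x + Pi.single l s₁ + Pi.single k h) ∪ K) -
      cp (starSet c θ (x + Pi.single l s₁) ∪ K) ≤
    cp (starSet c θ (x + Pi.single k h) ∪ K) - cp (starSet c θ x ∪ K)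

end Pool.MP_31392c_an
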