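import Mathlib
import Pool.Agent.Lib.MP_31392c_an.Full.SpecK

/-!
# MP_31392c_an full proof, group Z: the chain of cells, links with the transfinite diameter, and the
final reduction
-/

set_option autoImplicit false

open MeasureTheory Set Filter Topology Metric

namespace Pool.MP_31392c_an

/-- the cell number `p.1` on the ray `p.2`; `w` are the widths of the cells -/
noncomputable def cell {N : ℕ} (θ w : Fin N → ℝ) (p : ℕ × Fin N) : Set ℂ :=
  segment ℝ ((((p.1 : ℝ) * w p.2 : ℝ) : ℂ) * Complex.exp ((θ p.2 : ℂ) * Complex.I))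
    (((((p.1 : ℝ) + 1) * w p.2 : ℝ) : ℂ) * Complex.exp ((θ p.2 : ℂ) * Complex.I))

/-- union of cells -/
noncomputable def cellU {N : ℕ} (θ w : Fin N → ℝ) (S : Finset (ℕ × Fin N)) : Set ℂ :=
  ⋃ p ∈ S, cell θ w p

/-- the gain in capacity when the cell `(n k, k)` is added to the cells in `S` -/
noncomputable def gain {N : ℕ} (θ w : Fin N → ℝ) (n : Fin N → ℕ) (k : Fin N)
    (S : Finset (ℕ × Fin N)) : ℝ :=
  cp (cellU θ w (insert (n k, k) S)) - cp (cellU θ w S)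

/-- **StepIn.** Filling a missing cell on the ray `k`, next to the run of cells ending at the tip.
Uses: Growth.

Proof. `e = e^{iθ_k}`, `W = w k`. `i + 1 < n k` (since `i ≠ n k - 1`). Let
`c = ((i+1+n k)/2) W e`, `θ' = ![θ k, θ k + π]` (Dirs), `x = ![L, L]`, `L = (n k - i - 1) W/2 > 0`,
`K = cellU θ w (S.filter (fun p => ¬(p.2 = k ∧ i < p.1)))`. `starSet c θ' x` is the segment from `(i+1)W e` to
`(n k) W e`, the union of the cells `(i',k)`, `i < i' < n k`; so `cellU θ w S = starSet c θ' x ∪ K`,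
`cellU (insert (n k,k) S) = starSet c θ' (x + Pi.single 0 W) ∪ K`,
`cellU (insert (i,k) S) = starSet c θ' (x + Pi.single 1 W) ∪ K`, and with both cells
`starSet c θ' (x + Pi.single 1 W + Pi.single 0 W) ∪ K`. Growth with `k := 0`, `l := 1`, `h = s₁ = W`: `K` is a
SegUnion (cells are nondegenerate), and for `0 ≤ s < W` the segment from `((i+1)W - s)e` to `(n k + 1)W e` does not
meet `K`: cells of `K` on the ray `k` have number `< i`, so they lie in `[0, iW]e`; a cell on another ray meets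
the ray `k` at most in `0` (`e^{iθ_j} ≠ e^{iθ_k}`, both unit vectors, nonnegative multiples), and
`(i+1)W - s > 0`. -/
def StepIn : Prop := ∀ (N : ℕ) (θ w : Fin N → ℝ) (n : Fin N → ℕ) (k : Fin N) (i : ℕ)
  (S : Finset (ℕ × Fin N)), Dirs θ → (∀ j, 0 < w j) → (∀ p ∈ S, p.1 < n p.2) →
  (n k - 1, k) ∈ S → i < n k → (i, k) ∉ S → (∀ i', i < i' → i' < n k → (i', k) ∈ S) →
  gain θ w n k (insert (i, k) S) ≤ gain θ w n k S

/-- **StepOut.** Filling the first missing cell on another ray, when the ray `k` is full.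
Uses: Growth.

Proof. For each ray `j'` let `f j'` be the length of the initial run of `S`: the least `i'` with
`(i',j') ∉ S`; `f k = n k`, `f j = i`. `x j' = f j' * w j'`, `K = cellU θ w (S.filter (fun p => f p.2 ≤ p.1))`.
`cellU θ w S = starSet 0 θ x ∪ K` (an arm with `f = 0` contributes the point `0`, which is in the cell `(0,k)`;
`(0,k) ∈ S` because `(n k - 1, k) ∈ S` and the ray is full, `n k ≥ 1`), similarly for the sets with the cells
`(n k,k)`, `(i,j)` added (`x + Pi.single k (w k)`, `x + Pi.single j (w j)`). Growth with `k`, `l := j`,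
`h = w k`, `s₁ = w j`. Disjointness for `0 ≤ s < w j`: a cell of `K` on the ray `j'` has number
`p.1 ≥ f j' + 1` (`p.1 ≥ f j'` and `(f j', j') ∉ S`), so it starts at `≥ (f j' + 1) w j'`, which is larger than
the length of the arm (`f j' w j'`, resp. `i w j + s`); on the ray `k` there is no such cell
(`p.1 < n k = f k`). Different rays meet only in `0`, and the cells of `K` do not contain `0`. -/
def StepOut : Prop := ∀ (N : ℕ) (θ w : Fin N → ℝ) (n : Fin N → ℕ) (k j : Fin N) (i : ℕ)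
  (S : Finset (ℕ × Fin N)), Dirs θ → (∀ j, 0 < w j) → (∀ p ∈ S, p.1 < n p.2) → 1 ≤ n k → j ≠ k →
  (∀ i', i' < n k → (i', k) ∈ S) → i < n j → (i, j) ∉ S → (∀ i', i' < i → (i', j) ∈ S) →
  gain θ w n k (insert (i, j) S) ≤ gain θ w n k S

/-- **StepCells.** The gain is at least the gain for the full star. Uses: StepIn, StepOut.

Proof. Induction on the number of missing cells `{p | p.1 < n p.2} \ S`. If none is missing,
`cellU θ w S = starSet 0 θ (n_j w_j)` (the cells `0,…,n_j - 1` form the segment `[0, n_j w_j]`, `n_j ≥ 1`) and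
`cellU θ w (insert (n k,k) S)` is the star with arm `k` longer by `w k`: equality. If a cell of the ray `k` is
missing take the largest missing `i` and StepIn; otherwise take a ray `j ≠ k` with a missing cell, the
smallest missing `i` on it, and StepOut. `gain S ≥ gain (insert p S) ≥ …`. -/
def StepCells : Prop := ∀ (N : ℕ) (θ w : Fin N → ℝ) (n : Fin N → ℕ) (k : Fin N)
  (S : Finset (ℕ × Fin N)), Dirs θ → (∀ j, 0 < w j) → (∀ j, 1 ≤ n j) →
  (∀ p ∈ S, p.1 < n p.2) → (n k - 1, k) ∈ S →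
  cp (starSet 0 θ (fun j => ((if j = k then n j + 1 else n j : ℕ) : ℝ) * w j)) -
      cp (starSet 0 θ (fun j => (n j : ℝ) * w j)) ≤
    cp (cellU θ w (insert (n k, k) S)) - cp (cellU θ w S)

/-- **ChainCells.** The telescoping sum over all cells. Uses: StepCells, KapBasic.

Proof. Induction on the cardinality of `𝓔`. Let `p = (i,k)` be the largest element of `𝓔` in the
lexicographic order (first the number, then the ray), `𝓔' = 𝓔 \ {p}`. If `𝓔'` is empty the sum is empty (a good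
`p` needs `(i-1,k) ∈ 𝓔`), and `0 ≤ cp`. Otherwise the good elements of `𝓔'` are the good elements of `𝓔`
other than `p` (removing `p` cannot destroy goodness of `q ≠ p`: `(q.1-1,q.2) = p` would give `q > p`). If `p` is
good, apply StepCells with `n j = if j < k then i+1 else i` (`≥ 1`), `S = 𝓔'`: every `q ∈ 𝓔'` satisfies
`q.1 < n q.2` (`q.1 < i`, or `q.1 = i` and `q.2 < k`), `n k = i`, `(i-1,k) ∈ S`. This bounds the term of `p` by
`cp (cellU 𝓔) - cp (cellU 𝓔')`. If `p` is not good: `cp (cellU 𝓔') ≤ cp (cellU 𝓔)` (KapBasic 3, both are Fat: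
a cell is a nondegenerate segment). -/
def ChainCells : Prop := ∀ (N : ℕ) (θ w : Fin N → ℝ) (𝓔 : Finset (ℕ × Fin N)), Dirs θ →
  (∀ j, 0 < w j) → 𝓔.Nonempty →
  ∑ p ∈ 𝓔.filter (fun p => 1 ≤ p.1 ∧ (p.1 - 1, p.2) ∈ 𝓔),
    (cp (starSet 0 θ (fun j => ((if j ≤ p.2 then p.1 + 1 else p.1 : ℕ) : ℝ) * w j)) -
      cp (starSet 0 θ (fun j => ((if j < p.2 then p.1 + 1 else p.1 : ℕ) : ℝ) * w j))) ≤
  cp (cellU θ w 𝓔)

/-- **CapHom.** Homogeneity. Uses: KapBasic. Proof. `starSet 0 θ (lam • m)` is the image of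
`starSet 0 θ m` under multiplication by `lam`; KapBasic (5), `cp = exp kap`. -/
def CapHom : Prop := ∀ (N : ℕ) (θ m : Fin N → ℝ) (lam : ℝ), 0 < N → (∀ j, 0 < m j) → 0 < lam →
  cp (starSet 0 θ (fun j => lam * m j)) = lam * cp (starSet 0 θ m)

/-- **CapLip.** Monotonicity and Lipschitz bound in one arm. Uses: Growth, KapStar, SegEst, KapBasic.

Proof. First inequality: KapBasic (3) (the smaller star is Fat). Second: for a finite set `A` of rays not
containing `k` let `x_A j = m j` for `j ∈ A ∪ {k}` and `0` otherwise and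
`D A = cp (starSet 0 θ (x_A + Pi.single k t)) - cp (starSet 0 θ x_A)`, `t > 0`. Growth (`K = ∅`, `h = t`,
`s₁ = m l`) gives `D (insert l A) ≤ D A`. `starSet 0 θ x_∅` is the segment from `0` to `m_k e^{iθ_k}`, with
`cp = m_k/4` (SegEst, KapStar), so `D ∅ = t/4`. By induction `D (univ \ {k}) ≤ t/4`. -/
def CapLip : Prop := ∀ (N : ℕ) (θ m : Fin N → ℝ) (k : Fin N) (t : ℝ), Dirs θ → (∀ j, 0 < m j) →
  0 ≤ t →
  cp (starSet 0 θ m) ≤ cp (starSet 0 θ (m + Pi.single k t)) ∧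
  cp (starSet 0 θ (m + Pi.single k t)) ≤ cp (starSet 0 θ m) + t / 4

/-- **CapDiff.** Points of differentiability are dense. Uses: CapLip.

Proof. By CapLip the function `C m = cp (starSet 0 θ m)` is Lipschitz on the open orthant
`O = {m | ∀ j, 0 < m j}` (change the coordinates one at a time: `|C m - C m'| ≤ ∑ |m j - m' j|/4`).
Rademacher (`LipschitzOnWith.ae_differentiableWithinAt_of_mem`): `C` is differentiable within `O` at almost
every point of `O`, hence differentiable (`O` open). The box `∏ (m₀ j, m₀ j + η)` has positive measure and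
lies in `O`. -/
def CapDiff : Prop := ∀ (N : ℕ) (θ m₀ : Fin N → ℝ) (η : ℝ), Dirs θ → (∀ j, 0 < m₀ j) → 0 < η →
  ∃ m : Fin N → ℝ, (∀ j, m₀ j ≤ m j ∧ m j ≤ m₀ j + η) ∧
    DifferentiableAt ℝ (fun y : Fin N → ℝ => cp (starSet 0 θ y)) m

/-- **CountCells.** Counting pairs of neighbouring cells inside given intervals.

Proof. For an interval `[a,b]`, `a ≥ 0`, of `P` the numbers `i ≥ 1` with `a ≤ (i-1)v` and `(i+1)v ≤ b` form an
interval of integers with at least `(b-a)/v - 3` elements (`i` from `⌈a/v⌉ + 1` to `⌊b/v⌋ - 1`: at least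
`⌊b/v⌋ - 1 - ⌈a/v⌉ ≥ b/v - a/v - 3` elements). For different members of `P` these sets of numbers are
disjoint (the interval `((i-1)v, (i+1)v)` would lie in both, but the open intervals are disjoint and
`v > 0`). -/
def CountCells : Prop := ∀ (P : Finset (ℝ × ℝ)) (v : ℝ), 0 < v →
  (∀ p ∈ P, 0 ≤ p.1 ∧ p.1 < p.2) →
  (∀ p ∈ P, ∀ q ∈ P, p ≠ q → Disjoint (Ioo p.1 p.2) (Ioo q.1 q.2)) →
  ∃ G : Finset ℕ, (∀ i ∈ G, 1 ≤ i ∧ ∃ p ∈ P, p.1 ≤ ((i : ℝ) - 1) * v ∧ ((i : ℝ) + 1) * v ≤ p.2) ∧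
    (∑ p ∈ P, (p.2 - p.1)) / v - 3 * (P.card : ℝ) ≤ (G.card : ℝ)

/-- **ChainThm.** The chain inequality at a point of differentiability. Uses: ChainCells, CapHom, CapLip,
CountCells, KapBasic.

Proof. `C y = cp (starSet 0 θ y)`, `p_k = fderiv C m (Pi.single k (m k))`. Homogeneity (CapHom) gives
`∑_k p_k = fderiv C m m = C m` (derivative of `lam ↦ C(lam m) = lam C m` at `1`). For `i ≥ 1` let
`g_k(i) = i (C(y^{≤k}) - C(y^{<k}))`, `y^{≤k}_j = (1+1/i) m_j` for `j ≤ k` and `m_j` otherwise, `y^{<k}`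
likewise with `j < k`; `g_k(i) ≥ 0` (CapLip) and `g_k(i) → p_k` as `i → ∞` (differentiability at `m`, in the
directions `∑_{j≤k} m_j e_j`, `∑_{j<k} m_j e_j`).
Let `M ≥ 1`, `δ = 1/M`, `w = δ m`, `𝓔` the finite set of all `(i,k)` such that
`[i w_k, (i+1) w_k] ⊆ [p.1,p.2]` for some `p ∈ P k`. Then `cellU θ w 𝓔 ⊆ E`. The term of ChainCells for
`(i,k)` is `δ g_k(i)` (CapHom with `lam = δ i`). By CountCells (`v = w_k`,
`∑(p.2-p.1)/v = m_k/(δ m_k) = M`) the number of good cells on the ray `k` is `≥ M - 3 card (P k)`. Given `ε > 0`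
let `i₀` be such that `g_k(i) ≥ p_k - ε` for `i ≥ i₀` and all `k`, `q_k = max 0 (p_k - ε)`, so `g_k(i) ≥ q_k`
for `i ≥ i₀`. Hence (for `M` large, so that `𝓔` is nonempty)
`cp E ≥ cp (cellU 𝓔) ≥ δ ∑_k (M - 3 card (P k) - i₀) q_k → ∑ q_k ≥ C m - N ε` as `M → ∞`. (The first
inequality is KapBasic 3.) -/
def ChainThm : Prop := ∀ (N : ℕ) (θ m : Fin N → ℝ) (P : Fin N → Finset (ℝ × ℝ)) (E : Set ℂ),
  0 < N → Dirs θ → (∀ j, 0 < m j) → (∀ k, ∀ p ∈ P k, 0 ≤ p.1 ∧ p.1 < p.2) →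
  (∀ k, ∀ p ∈ P k, ∀ q ∈ P k, p ≠ q → Disjoint (Ioo p.1 p.2) (Ioo q.1 q.2)) →
  (∀ k, ∑ p ∈ P k, (p.2 - p.1) = m k) →
  DifferentiableAt ℝ (fun y : Fin N → ℝ => cp (starSet 0 θ y)) m →
  Bornology.IsBounded E →
  (∀ k, ∀ p ∈ P k, ∀ t ∈ Icc p.1 p.2, (t : ℂ) * Complex.exp ((θ k : ℂ) * Complex.I) ∈ E) →
  cp (starSet 0 θ m) ≤ cp E

/-- **FekLink.** `cp E ≤ tcap E`. Uses: KapBasic.

Proof. Fix `n`. `dn n E > 0` (library `dn_pos`, `E` infinite and bounded). Library theorem `fekete`: points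
`z_j ∈ E` (`N = n+2` of them) with `∏ ‖w-z_j‖ ≤ (dn n E)^N` for `w ∈ E`. Let
`v w = Real.log (max 1 ((∏ ‖w - z_j‖)^(1/N) / dn n E))`: continuous, `≥ 0`, `0` on `E`; where `v > 0` all
`‖w-z_j‖ > 0` and near `w` `v = (1/N) ∑ log‖·-z_j‖ - log (dn n E)`, harmonic (`C²`, `lap = 0`);
`v w - log‖w‖ → -log (dn n E)`. So `IsSub E v (-log dn)`, hence `kap E ≤ log (dn n E)` (KapBasic 1),
`cp E ≤ dn n E`. Take the infimum over `n`. -/
def FekLink : Prop := ∀ E : Set ℂ, IsCompact E → Fat E → cp E ≤ tcap E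

/-- **ChebVdm.** A monic polynomial which is small on `T` bounds the transfinite diameter.

Proof. Let `M = natDegree q ≥ 1`, `R ≥ 1` a bound for `‖z‖` on `T`. For `j ∈ ℕ` let
`p_j = q^{⌊j/M⌋} X^{j mod M}`, monic of degree `j`; on `T`: `‖p_j(z)‖ ≤ B^{M⌊j/M⌋} R^M ≤ A B^j` with
`A = R^M max(1, B^{-M})` (as `M⌊j/M⌋ = j - (j mod M)`). For points `z_0,…,z_{L-1} ∈ T` (`L = n+2`), the
Vandermonde determinant satisfies `∏_{i<j} ‖z_i - z_j‖ = |det (p_j(z_i))|`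
(`Matrix.det_eval_matrixOfPolynomials_eq_det_vandermonde`, `Matrix.det_vandermonde`), and by the Leibniz
formula `≤ L! ∏_{j<L} A B^j = L! A^L B^{L(L-1)/2}`. So `dn n T ≤ (L! A^L)^{2/(L(L-1))} B`, and
`(L!)^{2/(L(L-1))} → 1` (`L! ≤ L^L`), `A^{2/(L-1)} → 1`. -/
def ChebVdm : Prop := ∀ (T : Set ℂ) (q : Polynomial ℂ) (B : ℝ), Bornology.IsBounded T → 0 < B →
  q.Monic → 1 ≤ q.natDegree → (∀ z ∈ T, ‖q.eval z‖ ≤ B ^ q.natDegree) → tcap T ≤ B

/-- **StarCheb.** Capacity of a set avoiding the level region `‖ζ‖ ≤ ρ`. Uses: ChebVdm, StarInv.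

Proof. `K = (φ({0<‖ζ‖<ρ}))ᶜ` contains `T`; it is compact (`φ` is open, so `K` is closed; bounded because the
image contains a neighbourhood of infinity: StarInv). Let `0 < ρ' < ρ`. For `z ∈ K` the function
`G_z(ζ) = ζφ(ζ) - ζz` (`G_z(0) = C`) is holomorphic on `‖ζ‖ < 1` (removable singularity at `0`) and has no zero in
`‖ζ‖ ≤ ρ'` (`φ(ζ) ≠ z`), so `(1/2π)∫_0^{2π} log|G_z(ρ'e^{it})| dt = log C` (mean value property of
`log|G_z|`), i.e. `(1/2π)∫ log|φ(ρ'e^{it}) - z| dt = log C - log ρ'`. The function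
`(t,z) ↦ log|φ(ρ'e^{it}) - z|` is uniformly continuous on the compact set `[0,2π] × K` (no zeros), so for
`ε > 0` there is `M ≥ 1` such that the Riemann sums satisfy
`(1/M) ∑_{l<M} log|φ(ρ'e^{2πil/M}) - z| ≤ log C - log ρ' + ε` for all `z ∈ K`. The monic polynomial
`q = ∏_{l<M} (X - φ(ρ'e^{2πil/M}))` then satisfies `‖q(z)‖ ≤ (C e^ε/ρ')^M` on `K ⊇ T`. ChebVdm:
`tcap T ≤ C e^ε/ρ'`. Let `ε → 0`, `ρ' → ρ`. -/
def StarCheb : Prop := ∀ (F T : Set ℂ) (φ : ℂ → ℂ) (C ρ : ℝ), StarMap F φ C → 0 < ρ → ρ < 1 →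
  (∀ ζ, ζ ≠ 0 → ‖ζ‖ ≤ ρ → φ ζ ∉ T) → tcap T ≤ C / ρ

/-- **GridRed.** Discretisation of a compact set on finitely many rays.

Proof. Choose `N₀ ≥ 3` with `2π(R+1)/N₀ ≤ ε`, `θ⁰_j = 2πj/N₀` for `j : Fin N₀`, and let `A_j` be the
finite set of `i ∈ ℕ` such that `infDist (t e^{iθ⁰_j}) E ≤ ε` for some `t ∈ [iε,(i+1)ε]` (finite, since then
`iε ≤ R + ε`; note `E` is nonempty because `rayMeasure E θs > 0`). For every real `ω` there are two different
indices `j` (the neighbours, mod `N₀`) with `‖e^{iω} - e^{iθ⁰_j}‖ ≤ 2π/N₀`. (*) For such `j`: if `t ≥ 0`,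
`t e^{iω} ∈ E`, then `t ≤ R`, `‖t e^{iω} - t e^{iθ⁰_j}‖ ≤ ε`, so `t ∈ [iε,(i+1)ε]` with `i = ⌊t/ε⌋ ∈ A_j`;
hence `rayMeasure E ω ≤ ε card A_j`. Let `J = {j | A_j ≠ ∅}`, `N = card J`, `e = J.orderEmbOfFin rfl`,
`θ = θ⁰ ∘ e`, `m k = ε card A_{e k}`, `P k = A_{e k}.image (fun i => (iε,(i+1)ε))`. `Dirs θ` clear. By (*)
with `ω = θs` two indices have `ε card A_j ≥ rayMeasure E θs > 0`: `2 ≤ N` and the lower bound for some `m j`.
Points `t e^{iθ_k}`, `t ∈ [iε,(i+1)ε]`, `i ∈ A`: within `ε` of a point with `infDist ≤ ε`: `infDist ≤ 2ε`.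
Let `z = r e^{iω} ∈ LR E`, `0 ≤ r ≤ rayMeasure E ω ≤ R`. If `r = 0` take any `j` and radius `0`. If `r > 0`, by
(*) there is `j ∈ J` with `r ≤ ε card A_j` and `‖z - r e^{iθ⁰_j}‖ ≤ 2πR/N₀ ≤ ε`. -/
def GridRed : Prop := ∀ (E : Set ℂ) (R θs ε : ℝ), IsCompact E → (∀ z ∈ E, ‖z‖ ≤ R) →
  0 < rayMeasure E θs → 0 < ε →
  ∃ (N : ℕ) (θ m : Fin N → ℝ) (P : Fin N → Finset (ℝ × ℝ)), 2 ≤ N ∧ Dirs θ ∧ (∀ j, 0 < m j) ∧
    (∃ j, rayMeasure E θs ≤ m j) ∧
    (∀ k, ∀ p ∈ P k, 0 ≤ p.1 ∧ p.1 < p.2) ∧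
    (∀ k, ∀ p ∈ P k, ∀ q ∈ P k, p ≠ q → Disjoint (Ioo p.1 p.2) (Ioo q.1 q.2)) ∧
    (∀ k, ∑ p ∈ P k, (p.2 - p.1) = m k) ∧
    (∀ k, ∀ p ∈ P k, ∀ t ∈ Icc p.1 p.2,
      infDist ((t : ℂ) * Complex.exp ((θ k : ℂ) * Complex.I)) E ≤ 2 * ε) ∧
    (∀ z ∈ LR E, ∃ j, ∃ r : ℝ, 0 ≤ r ∧ r ≤ m j ∧
      ‖z - (r : ℂ) * Complex.exp ((θ j : ℂ) * Complex.I)‖ ≤ ε)

/-- **ApproxStep.** One approximation step. Uses: GridRed, CapDiff, ChainThm, FekLink, StarMapEx,
GreenEx, GreenSub, SegBound, KapStar, StarCheb.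

Proof. Take `N, θ, m, P` from GridRed with the given `ε ≤ 1`. CapDiff with `η = ε` gives
`m' `, `m ≤ m' ≤ m + ε`, a point of differentiability. Let `P' k = P k ∪ {(b, b + m' k - m k)}` if
`m k < m' k`, `b` the largest right end of `P k` (nonempty, since its total length is `m k > 0`), and
`P' k = P k` otherwise: still disjoint open intervals, total length `m' k`, and all points of the new
intervals on the rays are within `3ε` of `E`, so they lie in `E' = cthickening (4ε) E`, compact. ChainThm: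
`cp S ≤ cp E'`, `S = starSet 0 θ m'`. FekLink: `cp E' ≤ tcap E'` (`E'` is Fat: it contains one of the
segments). By StarMapEx (any two different arms) `StarMap S φ C`, `cp S = C` (KapStar), and GreenEx (part 2)
gives `u`, `IsGreen 0 S u (log C)`, `u(φ ζ) = -log‖ζ‖`; GreenSub: `IsSub S u _`. Let `z ∈ LR E`, `j`, `r` as in
GridRed, `w₀ = r e^{iθ_j}` on the arm `j` of `S` (segment from `0` of length `m' j`). If `m' j ≥ √ε`: SegBound:
`u z ≤ 2√(ε/√ε) = 2 ε^{1/4}`. If `m' j < √ε`: `‖z‖ ≤ ε + √ε ≤ 2√ε`, and with an arm `j₀` of length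
`≥ ℓ = rayMeasure E θs` and the point `0` of it: `u z ≤ 2√(2√ε/ℓ)`. So
`u z ≤ ω := 2 ε^{1/4} (1 + √(2/ℓ))` on `LR E`, `ω > 0`. With `ρ = exp(-2ω)`: for `0 < ‖ζ‖ ≤ ρ`,
`u(φ ζ) ≥ 2ω > ω`, so `φ ζ ∉ LR E`. StarCheb: `tcap (LR E) ≤ C e^{2ω} = cp S · e^{2ω} ≤ e^{2ω} tcap E'`. -/
def ApproxStep : Prop := ∀ (E : Set ℂ) (R θs ε : ℝ), IsCompact E → (∀ z ∈ E, ‖z‖ ≤ R) →
  0 < rayMeasure E θs → 0 < ε → ε ≤ 1 →
  tcap (LR E) ≤ Real.exp (4 * Real.sqrt (Real.sqrt ε) * (1 + Real.sqrt (2 / rayMeasure E θs))) *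
    tcap (cthickening (4 * ε) E)

/-- **MainThm.** `tcap (LR E) ≤ tcap E`. Uses: ApproxStep.

Proof. If `rayMeasure E θ = 0` for all `θ` then `LR E ⊆ {0}`, so `dn 0 (LR E) = 0` and
`tcap (LR E) ≤ 0 ≤ tcap E` (`tcap_le_dn`, `tcap_nonneg`). Otherwise fix `θs` with positive measure, `R` with
`E ⊆ closedBall 0 R`. Fix `n` and `κ > 0`; by `dn_cthickening` there is `ε₀` with
`dn n (cthickening (4ε) E) ≤ dn n E + κ` for `4ε ≤ ε₀`. ApproxStep and `tcap ≤ dn n`: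
`tcap (LR E) ≤ exp(…) (dn n E + κ)`; let `ε → 0`, then `κ → 0`, then take the infimum over `n`. -/
def MainThm : Prop := ∀ E : Set ℂ, IsCompact E → tcap (LR E) ≤ tcap E

end Pool.MP_31392c_an
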