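import Mathlib
import Pool.Agent.Lib.MP_31392c_an.Full.SpecZ

/-!
# MP_31392c_an full proof: CapHom
-/

set_option autoImplicit false

open MeasureTheory Set Filter Topology Metric

namespace Pool.MP_31392c_an

namespace CapHom

private theorem fat_star {N : ℕ} (θ m : Fin N → ℝ) (hN : 0 < N) (hm : ∀ j, 0 < m j) :
    Fat (starSet 0 θ m) := by
  refine ⟨?_, 0, ((m ⟨0, hN⟩ : ℝ) : ℂ) * Complex.exp ((θ ⟨0, hN⟩ : ℂ) * Complex.I), ?_, ?_⟩
  · refine (isBounded_closedBall (x := (0 : ℂ)) (r := ∑ j, m j)).subset ?_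
    rintro z ⟨j, r, hr, hrm, rfl⟩
    rw [mem_closedBall_zero_iff, zero_add, norm_mul, Complex.norm_exp_ofReal_mul_I, mul_one,
      Complex.norm_real, Real.norm_of_nonneg hr]
    exact hrm.trans (Finset.single_le_sum (fun i _ => (hm i).le) (Finset.mem_univ j))
  · intro h
    have h1 := h.symm
    rw [mul_eq_zero] at h1
    rcases h1 with h1 | h1
    · have : m ⟨0, hN⟩ = 0 := by exact_mod_cast h1
      exact (hm _).ne' this
    · exact Complex.exp_ne_zero _ h1
  · rintro z ⟨a, b, ha, hb, hab, rfl⟩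
    refine ⟨⟨0, hN⟩, b * m ⟨0, hN⟩, mul_nonneg hb (hm _).le, ?_, ?_⟩
    · have : b ≤ 1 := by linarith
      calc b * m ⟨0, hN⟩ ≤ 1 * m ⟨0, hN⟩ := mul_le_mul_of_nonneg_right this (hm _).le
        _ = m ⟨0, hN⟩ := one_mul _
    · simp only [smul_zero, zero_add, Complex.real_smul]
      push_cast
      ring

private theorem star_smul {N : ℕ} (θ m : Fin N → ℝ) (lam : ℝ) (hl : 0 < lam) :
    starSet 0 θ (fun j => lam * m j) = (fun z => (lam : ℂ) * z) '' starSet 0 θ m := by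
  ext z
  constructor
  · rintro ⟨j, r, hr, hrm, rfl⟩
    refine ⟨((r / lam : ℝ) : ℂ) * Complex.exp ((θ j : ℂ) * Complex.I), ⟨j, r / lam,
      div_nonneg hr hl.le, ?_, by rw [zero_add]⟩, ?_⟩
    · rw [div_le_iff₀ hl]
      linarith [mul_comm lam (m j)]
    · have hl' : (lam : ℂ) ≠ 0 := by exact_mod_cast hl.ne'
      push_cast
      field_simp
      ring
  · rintro ⟨w, ⟨j, r, hr, hrm, rfl⟩, rfl⟩
    refine ⟨j, lam * r, mul_nonneg hl.le hr, mul_le_mul_of_nonneg_left hrm hl.le, ?_⟩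
    push_cast
    ring

end CapHom

open CapHom in
theorem s_CapHom : KapBasic → CapHom := by
  intro hK N θ m lam hN hm hl
  obtain ⟨-, -, -, -, h5⟩ := hK
  unfold cp
  rw [star_smul θ m lam hl, h5 _ lam hl (fat_star θ m hN hm), Real.exp_add, Real.exp_log hl]

end Pool.MP_31392c_an
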