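import Pool.Agent.Lib.MP_31392c_an.Full.SpecZ

/-!
# MP_31392c_an full proof: `CapLip` (monotonicity and Lipschitz bound in one arm)
-/

set_option autoImplicit false

open MeasureTheory Set Filter Topology Metric

namespace Pool.MP_31392c_an

namespace CapLip

theorem norm_arm (s φ : ℝ) (hs : 0 ≤ s) :
    ‖(s : ℂ) * Complex.exp ((φ : ℂ) * Complex.I)‖ = s := by
  rw [norm_mul, Complex.norm_exp_ofReal_mul_I, mul_one, Complex.norm_real, Real.norm_eq_abs,
    abs_of_nonneg hs]

theorem mem_seg {φ r : ℝ} (hr : 0 < r) (z : ℂ) :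
    z ∈ segment ℝ (0 : ℂ) ((r : ℂ) * Complex.exp ((φ : ℂ) * Complex.I)) ↔
      ∃ s : ℝ, 0 ≤ s ∧ s ≤ r ∧ z = (s : ℂ) * Complex.exp ((φ : ℂ) * Complex.I) := by
  rw [segment_eq_image']
  constructor
  · rintro ⟨t, ⟨h0, h1⟩, rfl⟩
    refine ⟨t * r, by positivity, by nlinarith, ?_⟩
    simp only [sub_zero, zero_add, Complex.real_smul, Complex.ofReal_mul]
    ring
  · rintro ⟨s, h0, h1, rfl⟩
    refine ⟨s / r, ⟨by positivity, by rw [div_le_one hr]; exact h1⟩, ?_⟩
    simp only [sub_zero, zero_add, Complex.real_smul, Complex.ofReal_div]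
    have hr' : (r : ℂ) ≠ 0 := by exact_mod_cast hr.ne'
    field_simp

theorem star_bdd {N : ℕ} (θ x : Fin N → ℝ) : Bornology.IsBounded (starSet 0 θ x) := by
  rw [Metric.isBounded_iff_subset_closedBall 0]
  refine ⟨∑ j, |x j|, ?_⟩
  rintro z ⟨j, r, h0, h1, rfl⟩
  rw [mem_closedBall, dist_zero_right, zero_add, norm_arm _ _ h0]
  refine h1.trans ((le_abs_self _).trans ?_)
  exact Finset.single_le_sum (f := fun j => |x j|) (fun i _ => abs_nonneg _) (Finset.mem_univ j)

theorem star_mono {N : ℕ} (θ x y : Fin N → ℝ) (h : ∀ j, x j ≤ y j) :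
    starSet 0 θ x ⊆ starSet 0 θ y := by
  rintro z ⟨j, r, h0, h1, rfl⟩
  exact ⟨j, r, h0, h1.trans (h j), rfl⟩

theorem arm_ne {φ r : ℝ} (hr : 0 < r) :
    (0 : ℂ) ≠ (r : ℂ) * Complex.exp ((φ : ℂ) * Complex.I) := by
  intro h
  have := norm_arm r φ hr.le
  rw [← h, norm_zero] at this
  exact hr.ne this

theorem star_fat {N : ℕ} (θ x : Fin N → ℝ) (k : Fin N) (hk : 0 < x k) :
    Fat (starSet 0 θ x) := by
  refine ⟨star_bdd θ x, 0, (x k : ℂ) * Complex.exp ((θ k : ℂ) * Complex.I), arm_ne hk, ?_⟩
  intro z hz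
  obtain ⟨s, h0, h1, rfl⟩ := (mem_seg hk z).1 hz
  exact ⟨k, s, h0, h1, by rw [zero_add]⟩

theorem star_one {N : ℕ} (θ : Fin N → ℝ) (k : Fin N) (r : ℝ) (hr : 0 < r) :
    starSet 0 θ (Pi.single k r) =
      segment ℝ (0 : ℂ) ((r : ℂ) * Complex.exp ((θ k : ℂ) * Complex.I)) := by
  ext z
  rw [mem_seg hr]
  constructor
  · rintro ⟨j, s, h0, h1, rfl⟩
    by_cases hj : j = k
    · subst hj
      rw [Pi.single_eq_same] at h1
      exact ⟨s, h0, h1, by rw [zero_add]⟩
    · rw [Pi.single_eq_of_ne hj] at h1
      have hs : s = 0 := le_antisymm h1 h0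
      subst hs
      exact ⟨0, le_rfl, hr.le, by simp⟩
  · rintro ⟨s, h0, h1, rfl⟩
    exact ⟨k, s, h0, by rw [Pi.single_eq_same]; exact h1, by rw [zero_add]⟩

theorem cp_one (hKS : KapStar) (hSE : SegEst) {N : ℕ} (θ : Fin N → ℝ) (k : Fin N) (r : ℝ)
    (hr : 0 < r) : cp (starSet 0 θ (Pi.single k r)) = r / 4 := by
  obtain ⟨φ, hφ, _⟩ := hSE 0 ((r : ℂ) * Complex.exp ((θ k : ℂ) * Complex.I)) (arm_ne hr)
  have hfat : Fat (starSet 0 θ (Pi.single k r)) :=
    star_fat θ _ k (by rw [Pi.single_eq_same]; exact hr)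
  rw [star_one θ k r hr] at hfat ⊢
  rw [cp, hKS _ φ _ hfat hφ, sub_zero, norm_arm _ _ hr.le, Real.exp_log (by positivity)]

end CapLip

open CapLip

theorem s_CapLip : Growth → KapStar → SegEst → KapBasic → CapLip := by
  intro hG hKS hSE hKB N θ m k t hθ hm ht
  refine ⟨?_, ?_⟩
  · apply Real.exp_le_exp.2
    refine hKB.2.2.1 _ _ (star_fat θ m k (hm k)) (star_bdd _ _) (star_mono θ _ _ ?_)
    intro j
    have h0 : 0 ≤ (Pi.single k t : Fin N → ℝ) j := by
      by_cases hj : j = k
      · subst hj
        rw [Pi.single_eq_same]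
        exact ht
      · rw [Pi.single_eq_of_ne hj]
    simpa using h0
  · rcases ht.eq_or_lt with h | h
    · rw [← h]
      simp
    · -- the sum over the arms of a finite set
      let xA : Finset (Fin N) → Fin N → ℝ := fun A => Pi.single k (m k) + ∑ l ∈ A, Pi.single l (m l)
      have hnn : ∀ (l : Fin N) (r : ℝ), 0 ≤ r → ∀ j, 0 ≤ (Pi.single l r : Fin N → ℝ) j := by
        intro l r hr j
        by_cases hj : j = l
        · subst hj
          rw [Pi.single_eq_same]
          exact hr
        · rw [Pi.single_eq_of_ne hj]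
      have hsum : ∀ A : Finset (Fin N), ∀ j, 0 ≤ (∑ l ∈ A, Pi.single l (m l) : Fin N → ℝ) j := by
        intro A j
        rw [Finset.sum_apply]
        exact Finset.sum_nonneg (fun l _ => hnn l (m l) (hm l).le j)
      have key : ∀ A : Finset (Fin N), k ∉ A →
          cp (starSet 0 θ (xA A + Pi.single k t)) - cp (starSet 0 θ (xA A)) ≤ t / 4 := by
        intro A
        induction A using Finset.induction_on with
        | empty =>
          intro _
          have e1 : xA ∅ = Pi.single k (m k) := by simp [xA]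
          have e2 : xA ∅ + Pi.single k t = Pi.single k (m k + t) := by
            rw [e1, ← Pi.single_add]
          rw [e2, e1, cp_one hKS hSE θ k (m k + t) (by have := hm k; positivity),
            cp_one hKS hSE θ k (m k) (hm k)]
          linarith
        | insert l A hl ih =>
          intro hk
          rw [Finset.mem_insert, not_or] at hk
          have h1 := ih hk.2
          have hpos : ∀ j, 0 ≤ xA A j := by
            intro j
            exact add_nonneg (hnn k (m k) (hm k).le j) (hsum A j)
          have hkpos : 0 < xA A k := by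
            have h3 : xA A k = m k + (∑ l ∈ A, Pi.single l (m l) : Fin N → ℝ) k := by
              simp [xA]
            rw [h3]
            have := hsum A k
            have := hm k
            linarith
          have hSU : SegUnion (∅ : Set ℂ) := ⟨∅, by simp, by simp⟩
          have h2 := hG N 0 θ (xA A) k l t (m l) ∅ hθ hk.1 hpos hkpos h (hm l) hSU
            (fun s _ _ => by simp)
          simp only [union_empty] at h2
          have e : xA (insert l A) = xA A + Pi.single l (m l) := by
            simp only [xA]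
            rw [Finset.sum_insert hl]
            ring
          rw [e]
          linarith
      have hfin := key (Finset.univ.erase k) (by simp)
      have e : xA (Finset.univ.erase k) = m := by
        simp only [xA]
        rw [Finset.add_sum_erase Finset.univ (fun l => (Pi.single l (m l) : Fin N → ℝ))
          (Finset.mem_univ k)]
        exact Finset.univ_sum_single m
      rw [e] at hfin
      linarith

end Pool.MP_31392c_an
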