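import Pool.Agent.Lib.MP_31392c_an.Full.SpecZ

/-!
# MP_31392c_an full proof: the telescoping sum over all cells
-/

set_option autoImplicit false

open MeasureTheory Set Filter Topology Metric

namespace Pool.MP_31392c_an

namespace ChainCells

variable {N : ℕ}

lemma cell_bdd (θ w : Fin N → ℝ) (p : ℕ × Fin N) : Bornology.IsBounded (cell θ w p) := by
  unfold cell
  have h := ((Set.toFinite ({(((p.1 : ℝ) * w p.2 : ℝ) : ℂ) * Complex.exp ((θ p.2 : ℂ) * Complex.I),
      ((((p.1 : ℝ) + 1) * w p.2 : ℝ) : ℂ) * Complex.exp ((θ p.2 : ℂ) * Complex.I)} : Set ℂ)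
      ).isCompact_convexHull (𝕜 := ℝ)).isBounded
  rwa [convexHull_pair] at h

lemma cellU_bdd (θ w : Fin N → ℝ) (S : Finset (ℕ × Fin N)) :
    Bornology.IsBounded (cellU θ w S) := by
  unfold cellU
  exact (Bornology.isBounded_biUnion_finset S).mpr fun p _ => cell_bdd θ w p

lemma cell_ne (θ w : Fin N → ℝ) (hw : ∀ j, 0 < w j) (p : ℕ × Fin N) :
    (((p.1 : ℝ) * w p.2 : ℝ) : ℂ) * Complex.exp ((θ p.2 : ℂ) * Complex.I) ≠
      ((((p.1 : ℝ) + 1) * w p.2 : ℝ) : ℂ) * Complex.exp ((θ p.2 : ℂ) * Complex.I) := by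
  intro h
  have h1 := mul_right_cancel₀ (Complex.exp_ne_zero _) h
  have h2 : (p.1 : ℝ) * w p.2 = ((p.1 : ℝ) + 1) * w p.2 := by exact_mod_cast h1
  have := hw p.2
  linarith

lemma cellU_fat (θ w : Fin N → ℝ) (hw : ∀ j, 0 < w j) (S : Finset (ℕ × Fin N))
    (hS : S.Nonempty) : Fat (cellU θ w S) := by
  refine ⟨cellU_bdd θ w S, ?_⟩
  obtain ⟨p, hp⟩ := hS
  refine ⟨_, _, cell_ne θ w hw p, ?_⟩
  intro z hz
  exact Set.mem_biUnion hp hz

lemma cp_mono (hK : KapBasic) (θ w : Fin N → ℝ) (hw : ∀ j, 0 < w j)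
    (S S' : Finset (ℕ × Fin N)) (hS : S.Nonempty) (h : S ⊆ S') :
    cp (cellU θ w S) ≤ cp (cellU θ w S') := by
  unfold cp
  refine Real.exp_le_exp.mpr (hK.2.2.1 _ _ (cellU_fat θ w hw S hS) (cellU_bdd θ w S') ?_)
  unfold cellU
  exact Set.biUnion_subset_biUnion_left h

end ChainCells

theorem s_ChainCells : StepCells → KapBasic → ChainCells := by
  classical
  intro hStep hK N θ w 𝓔 hθ hw
  induction 𝓔 using Finset.induction_on_max_value (fun p : ℕ × Fin N => toLex p) with
  | empty => intro h; exact absurd h Finset.not_nonempty_empty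
  | insert a S ha hmax ih =>
    intro _
    obtain ⟨i, k⟩ := a
    have hlt : ∀ x ∈ S, x.1 < i ∨ (x.1 = i ∧ x.2 < k) := by
      intro x hx
      have h1 := hmax x hx
      rw [Prod.Lex.toLex_le_toLex] at h1
      rcases h1 with h1 | ⟨h1, h2⟩
      · exact Or.inl h1
      · refine Or.inr ⟨h1, lt_of_le_of_ne h2 ?_⟩
        intro h3
        apply ha
        have : x = (i, k) := Prod.ext h1 h3
        rw [← this]
        exact hx
    have hgood : ∀ x ∈ S, ((1 ≤ x.1 ∧ (x.1 - 1, x.2) ∈ insert (i, k) S) ↔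
        (1 ≤ x.1 ∧ (x.1 - 1, x.2) ∈ S)) := by
      intro x hx
      constructor
      · rintro ⟨h1, h2⟩
        refine ⟨h1, ?_⟩
        rcases Finset.mem_insert.mp h2 with h3 | h3
        · exfalso
          have h4 : x.1 - 1 = i := congrArg Prod.fst h3
          rcases hlt x hx with h5 | ⟨h5, _⟩ <;> omega
        · exact h3
      · rintro ⟨h1, h2⟩
        exact ⟨h1, Finset.mem_insert_of_mem h2⟩
    have hgooda : (1 ≤ i ∧ (i - 1, k) ∈ insert (i, k) S) ↔ (1 ≤ i ∧ (i - 1, k) ∈ S) := by
      constructor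
      · rintro ⟨h1, h2⟩
        refine ⟨h1, ?_⟩
        rcases Finset.mem_insert.mp h2 with h3 | h3
        · exfalso
          have h4 : i - 1 = i := congrArg Prod.fst h3
          omega
        · exact h3
      · rintro ⟨h1, h2⟩
        exact ⟨h1, Finset.mem_insert_of_mem h2⟩
    rw [Finset.filter_insert, Finset.filter_congr hgood]
    by_cases hS : S.Nonempty
    · have ih' := ih hS
      by_cases hg : 1 ≤ i ∧ (i - 1, k) ∈ S
      · rw [if_pos (hgooda.mpr hg), Finset.sum_insert (by
          intro h; exact ha (Finset.mem_filter.mp h).1)]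
        have hst := hStep N θ w (fun j => if j < k then i + 1 else i) k S hθ hw
          (by intro j; split_ifs <;> omega)
          (by
            intro p hp
            rcases hlt p hp with h1 | ⟨h1, h2⟩
            · split_ifs <;> omega
            · rw [if_pos h2]; omega)
          (by rw [if_neg (lt_irrefl k)]; exact hg.2)
        rw [if_neg (lt_irrefl k)] at hst
        have e1 : (fun j : Fin N => ((if j ≤ k then i + 1 else i : ℕ) : ℝ) * w j) =
            fun j : Fin N => ((if j = k then (if j < k then i + 1 else i) + 1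
              else (if j < k then i + 1 else i) : ℕ) : ℝ) * w j := by
          funext j
          rcases lt_trichotomy j k with h | h | h
          · rw [if_pos h.le, if_neg h.ne, if_pos h]
          · subst h
            rw [if_pos le_rfl, if_pos rfl, if_neg (lt_irrefl j)]
          · rw [if_neg (not_le.mpr h), if_neg h.ne', if_neg (not_lt.mpr h.le)]
        dsimp only at hst ⊢
        rw [e1]
        linarith
      · rw [if_neg (fun h => hg (hgooda.mp h))]
        exact le_trans ih' (ChainCells.cp_mono hK θ w hw S _ hS (Finset.subset_insert _ _))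
    · rw [Finset.not_nonempty_iff_eq_empty] at hS
      subst hS
      rw [if_neg (fun h => absurd (hgooda.mp h).2 (Finset.notMem_empty _))]
      simp only [Finset.filter_empty, Finset.sum_empty]
      exact (Real.exp_pos _).le

end Pool.MP_31392c_an
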