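import Pool.Agent.Lib.MP_31392c_an.Full.SpecZ

/-!
# MP_31392c_an, full proof: the chain inequality at a point of differentiability
-/

set_option autoImplicit false

open MeasureTheory Set Filter Topology Metric

namespace Pool.MP_31392c_an

namespace ChainThm

variable {N : ℕ}

lemma lim_dir (C : (Fin N → ℝ) → ℝ) (m v : Fin N → ℝ) (h : DifferentiableAt ℝ C m) :
    Tendsto (fun i : ℕ => (i : ℝ) * (C (m + (i : ℝ)⁻¹ • v) - C m)) atTop
      (𝓝 (fderiv ℝ C m v)) := by
  have h1 : Tendsto (fun i : ℕ => ‖((i : ℕ) : ℝ)‖) atTop atTop := by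
    simpa using (tendsto_natCast_atTop_atTop (R := ℝ))
  have h2 := h.hasFDerivAt.lim v (c := fun i : ℕ => (i : ℝ)) (l := atTop) h1
  simpa only [smul_eq_mul] using h2

lemma sum_fderiv (C : (Fin N → ℝ) → ℝ) (m : Fin N → ℝ) (h : DifferentiableAt ℝ C m)
    (hom : ∀ lam : ℝ, 0 < lam → C (fun j => lam * m j) = lam * C m) :
    C m = ∑ k, fderiv ℝ C m (Pi.single k (m k)) := by
  have h1 := lim_dir C m m h
  have h2 : Tendsto (fun i : ℕ => (i : ℝ) * (C (m + (i : ℝ)⁻¹ • m) - C m)) atTop (𝓝 (C m)) := by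
    refine tendsto_const_nhds.congr' ?_
    filter_upwards [eventually_ge_atTop 1] with i hi
    have hi' : (0 : ℝ) < i := by exact_mod_cast hi
    have e1 : m + (i : ℝ)⁻¹ • m = fun j => (1 + (i : ℝ)⁻¹) * m j := by
      funext j
      simp only [Pi.add_apply, Pi.smul_apply, smul_eq_mul]
      ring
    rw [e1, hom _ (by positivity)]
    field_simp
    ring
  have h3 := tendsto_nhds_unique h2 h1
  rw [← map_sum, Finset.univ_sum_single]
  exact h3

/-- the part of `m` on the indices satisfying `Q` -/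
noncomputable def part (m : Fin N → ℝ) (Q : Fin N → Prop) [DecidablePred Q] : Fin N → ℝ :=
  fun j => if Q j then m j else 0

lemma part_sub (m : Fin N → ℝ) (k : Fin N) :
    part m (fun j => j ≤ k) - part m (fun j => j < k) = Pi.single k (m k) := by
  funext j
  unfold part
  rw [Pi.sub_apply]
  by_cases h : j = k
  · subst h
    rw [Pi.single_eq_same, if_pos le_rfl, if_neg (lt_irrefl _), sub_zero]
  · rw [Pi.single_eq_of_ne h]
    rcases lt_or_gt_of_ne h with h1 | h1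
    · rw [if_pos h1.le, if_pos h1, sub_self]
    · rw [if_neg (not_le.2 h1), if_neg (not_lt.2 h1.le), sub_self]

/-- the difference quotients -/
noncomputable def gq (C : (Fin N → ℝ) → ℝ) (m : Fin N → ℝ) (k : Fin N) (i : ℕ) : ℝ :=
  (i : ℝ) * (C (m + (i : ℝ)⁻¹ • part m (fun j => j ≤ k)) -
    C (m + (i : ℝ)⁻¹ • part m (fun j => j < k)))

lemma gq_lim (C : (Fin N → ℝ) → ℝ) (m : Fin N → ℝ) (h : DifferentiableAt ℝ C m) (k : Fin N) :
    Tendsto (gq C m k) atTop (𝓝 (fderiv ℝ C m (Pi.single k (m k)))) := by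
  have h1 := (lim_dir C m (part m (fun j => j ≤ k)) h).sub (lim_dir C m (part m (fun j => j < k)) h)
  rw [← map_sub, part_sub] at h1
  refine h1.congr fun i => ?_
  unfold gq
  ring

lemma term_eq (hom : CapHom) (θ m : Fin N → ℝ) (hN : 0 < N) (hm : ∀ j, 0 < m j) (δ : ℝ)
    (hδ : 0 < δ) (i : ℕ) (hi : 1 ≤ i) (Q : Fin N → Prop) [DecidablePred Q] :
    cp (starSet 0 θ (fun j => ((if Q j then i + 1 else i : ℕ) : ℝ) * (δ * m j))) =
      δ * i * cp (starSet 0 θ (m + (i : ℝ)⁻¹ • part m Q)) := by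
  have hi' : (0 : ℝ) < i := by exact_mod_cast hi
  have e : (fun j => ((if Q j then i + 1 else i : ℕ) : ℝ) * (δ * m j)) =
      fun j => (δ * i) * ((m + (i : ℝ)⁻¹ • part m Q) j) := by
    funext j
    simp only [Pi.add_apply, Pi.smul_apply, smul_eq_mul, part]
    by_cases h : Q j
    · rw [if_pos h, if_pos h]
      push_cast
      field_simp
    · rw [if_neg h, if_neg h]
      ring
  rw [e]
  refine hom N θ _ (δ * i) hN (fun j => ?_) (by positivity)
  simp only [Pi.add_apply, Pi.smul_apply, smul_eq_mul, part]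
  by_cases h : Q j
  · rw [if_pos h]
    have := hm j
    positivity
  · rw [if_neg h, mul_zero, add_zero]
    exact hm j

lemma gq_nonneg (hLip : CapLip) (θ m : Fin N → ℝ) (hθ : Dirs θ) (hm : ∀ j, 0 < m j) (k : Fin N)
    (i : ℕ) : 0 ≤ gq (fun y => cp (starSet 0 θ y)) m k i := by
  unfold gq
  refine mul_nonneg (by positivity) (sub_nonneg.2 ?_)
  have e : m + (i : ℝ)⁻¹ • part m (fun j => j ≤ k) =
      (m + (i : ℝ)⁻¹ • part m (fun j => j < k)) + Pi.single k ((i : ℝ)⁻¹ * m k) := by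
    have h1 := part_sub m k
    have h2 : part m (fun j => j ≤ k) = part m (fun j => j < k) + Pi.single k (m k) := by
      rw [← h1]; abel
    rw [h2, smul_add, add_assoc]
    congr 2
    funext j
    by_cases h : j = k
    · subst h; simp
    · simp [Pi.single_eq_of_ne h]
  rw [e]
  refine (hLip N θ _ k ((i : ℝ)⁻¹ * m k) hθ (fun j => ?_) ?_).1
  · simp only [Pi.add_apply, Pi.smul_apply, smul_eq_mul, part]
    have h1 := hm j
    split_ifs
    · positivity
    · simpa using h1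
  · have := hm k
    positivity

lemma sum_lower (G : Finset ℕ) (g : ℕ → ℝ) (q : ℝ) (i₀ : ℕ) (hg : ∀ i, 0 ≤ g i) (hq : 0 ≤ q)
    (h : ∀ i, i₀ ≤ i → q ≤ g i) : ((G.card : ℝ) - i₀) * q ≤ ∑ i ∈ G, g i := by
  have h1 : ∑ i ∈ G.filter (fun i => i₀ ≤ i), g i ≤ ∑ i ∈ G, g i :=
    Finset.sum_le_sum_of_subset_of_nonneg (Finset.filter_subset _ _) fun i _ _ => hg i
  have h2 : ((G.filter (fun i => i₀ ≤ i)).card : ℝ) * q ≤
      ∑ i ∈ G.filter (fun i => i₀ ≤ i), g i := by
    rw [← nsmul_eq_mul]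
    exact Finset.card_nsmul_le_sum _ _ _ fun i hi => h i (Finset.mem_filter.1 hi).2
  have h3 : G.card ≤ (G.filter (fun i => i₀ ≤ i)).card + i₀ := by
    rw [← Finset.card_filter_add_card_filter_not (s := G) (fun i => i₀ ≤ i)]
    refine Nat.add_le_add_left ?_ _
    have h4 : G.filter (fun i => ¬ i₀ ≤ i) ⊆ Finset.range i₀ := by
      intro i hi
      exact Finset.mem_range.2 (not_le.1 (Finset.mem_filter.1 hi).2)
    have h5 := Finset.card_le_card h4
    rwa [Finset.card_range] at h5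
  have h4 : (G.card : ℝ) ≤ ((G.filter (fun i => i₀ ≤ i)).card : ℝ) + i₀ := by exact_mod_cast h3
  nlinarith

lemma cell_sub (θ w : Fin N → ℝ) (q : ℕ × Fin N) (p : ℝ × ℝ) (E : Set ℂ)
    (hw : 0 < w q.2) (h1 : p.1 ≤ (q.1 : ℝ) * w q.2) (h2 : ((q.1 : ℝ) + 1) * w q.2 ≤ p.2)
    (hE : ∀ t ∈ Icc p.1 p.2, (t : ℂ) * Complex.exp ((θ q.2 : ℂ) * Complex.I) ∈ E) :
    cell θ w q ⊆ E := by
  intro z hz
  unfold cell at hz
  obtain ⟨a, b, ha, hb, hab, rfl⟩ := hz
  have h3 := hE (a * ((q.1 : ℝ) * w q.2) + b * (((q.1 : ℝ) + 1) * w q.2)) ⟨?_, ?_⟩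
  · have e : a • ((((q.1 : ℝ) * w q.2 : ℝ) : ℂ) * Complex.exp ((θ q.2 : ℂ) * Complex.I)) +
        b • (((((q.1 : ℝ) + 1) * w q.2 : ℝ) : ℂ) * Complex.exp ((θ q.2 : ℂ) * Complex.I)) =
        ((a * ((q.1 : ℝ) * w q.2) + b * (((q.1 : ℝ) + 1) * w q.2) : ℝ) : ℂ) *
          Complex.exp ((θ q.2 : ℂ) * Complex.I) := by
      rw [Complex.real_smul, Complex.real_smul]
      push_cast
      ring
    rw [e]
    exact h3
  · have : b = 1 - a := by linarith
    subst this
    nlinarith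
  · have : b = 1 - a := by linarith
    subst this
    nlinarith

end ChainThm

open ChainThm in
theorem s_ChainThm : ChainCells → CapHom → CapLip → CountCells → KapBasic → ChainThm := by
  intro hCC hH hLip hCount hKB N θ m P E hN hθ hm hP0 hPd hPs hdiff hE hPE
  obtain ⟨C, hC⟩ : ∃ C : (Fin N → ℝ) → ℝ, C = fun y => cp (starSet 0 θ y) := ⟨_, rfl⟩
  rw [← hC] at hdiff
  have hCm : C m = cp (starSet 0 θ m) := by rw [hC]
  obtain ⟨p, hp⟩ : ∃ p : Fin N → ℝ, p = fun k => fderiv ℝ C m (Pi.single k (m k)) := ⟨_, rfl⟩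
  have hsum : C m = ∑ k, p k := by
    rw [hp]
    refine sum_fderiv C m hdiff fun lam hlam => ?_
    rw [hC]
    exact hH N θ m lam hN hm hlam
  have hglim : ∀ k, Tendsto (gq C m k) atTop (𝓝 (p k)) := by
    intro k
    rw [hp]
    exact gq_lim C m hdiff k
  have hgnn : ∀ k i, 0 ≤ gq C m k i := by
    intro k i
    rw [hC]
    exact gq_nonneg hLip θ m hθ hm k i
  have hNr : (0 : ℝ) < N := by exact_mod_cast hN
  have key : ∀ ε : ℝ, 0 < ε → ∃ (K : ℝ) (M₀ : ℕ), ∀ M : ℕ, M₀ ≤ M → 1 ≤ M →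
      C m - N * ε - K / M ≤ cp E := by
    intro ε hε
    have hev : ∀ᶠ i in atTop, ∀ k, p k - ε ≤ gq C m k i := by
      rw [eventually_all]
      intro k
      exact (hglim k).eventually_const_le (by linarith)
    obtain ⟨i₀, hi₀⟩ := eventually_atTop.1 hev
    refine ⟨∑ k, (3 * ((P k).card : ℝ) + i₀) * max 0 (p k - ε),
      3 * (P ⟨0, hN⟩).card + 1, fun M hM hM1 => ?_⟩
    have hMr : (0 : ℝ) < M := by exact_mod_cast hM1
    obtain ⟨δ, hδdef⟩ : ∃ δ : ℝ, δ = (M : ℝ)⁻¹ := ⟨_, rfl⟩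
    have hδ : 0 < δ := by rw [hδdef]; positivity
    have hδM : δ * M = 1 := by rw [hδdef]; field_simp
    obtain ⟨w, hw⟩ : ∃ w : Fin N → ℝ, w = fun j => δ * m j := ⟨_, rfl⟩
    have hwj : ∀ j, w j = δ * m j := fun j => by rw [hw]
    have hwpos : ∀ j, 0 < w j := fun j => by rw [hwj]; exact mul_pos hδ (hm j)
    choose G hG1 hG2 using fun k => hCount (P k) (w k) (hwpos k) (hP0 k) (hPd k)
    have hGcard : ∀ k, (M : ℝ) - 3 * ((P k).card : ℝ) ≤ ((G k).card : ℝ) := by
      intro k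
      have h1 := hG2 k
      rw [hPs k, hwj k] at h1
      have h2 : m k / (δ * m k) = M := by
        have := (hm k).ne'
        rw [hδdef]
        field_simp
      rwa [h2] at h1
    -- the set of cells
    obtain ⟨𝓔, h𝓔⟩ : ∃ 𝓔 : Finset (ℕ × Fin N), 𝓔 = Finset.univ.biUnion fun k =>
      ((G k) ∪ (G k).image (fun i => i - 1)).image (fun i => (i, k)) := ⟨_, rfl⟩
    have hmem : ∀ (i : ℕ) (k : Fin N), (i, k) ∈ 𝓔 ↔ i ∈ G k ∨ ∃ i' ∈ G k, i' - 1 = i := by
      intro i k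
      rw [h𝓔]
      simp only [Finset.mem_biUnion, Finset.mem_univ, true_and, Finset.mem_image,
        Finset.mem_union, Prod.mk.injEq]
      constructor
      · rintro ⟨k', i', h1, rfl, rfl⟩
        exact h1
      · intro h1
        exact ⟨k, i, h1, rfl, rfl⟩
    have hcell : ∀ q ∈ 𝓔, ∃ p' ∈ P q.2, p'.1 ≤ (q.1 : ℝ) * w q.2 ∧
        ((q.1 : ℝ) + 1) * w q.2 ≤ p'.2 := by
      rintro ⟨i, k⟩ hq
      have hwk := hwpos k
      rcases (hmem i k).1 hq with h1 | ⟨i', h1, h2⟩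
      · obtain ⟨-, p', hp', h3, h4⟩ := hG1 k i h1
        refine ⟨p', hp', ?_, h4⟩
        show p'.1 ≤ (i : ℝ) * w k
        nlinarith
      · obtain ⟨h5, p', hp', h3, h4⟩ := hG1 k i' h1
        have h6 : (i' : ℝ) = i + 1 := by
          have : i' = i + 1 := by omega
          rw [this]; push_cast; ring
        rw [h6] at h3 h4
        refine ⟨p', hp', ?_, ?_⟩
        · show p'.1 ≤ (i : ℝ) * w k
          linarith
        · show ((i : ℝ) + 1) * w k ≤ p'.2
          nlinarith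
    have hsubE : cellU θ w 𝓔 ⊆ E := by
      unfold cellU
      refine Set.iUnion₂_subset fun q hq => ?_
      obtain ⟨p', hp', h1, h2⟩ := hcell q hq
      exact cell_sub θ w q p' E (hwpos _) h1 h2 (hPE q.2 p' hp')
    have hne : 𝓔.Nonempty := by
      have h1 := hGcard ⟨0, hN⟩
      have h2 : (0 : ℝ) < ((G ⟨0, hN⟩).card : ℝ) := by
        have h3 : ((3 * (P ⟨0, hN⟩).card + 1 : ℕ) : ℝ) ≤ M := by exact_mod_cast hM
        push_cast at h3
        linarith
      have h3 : 0 < (G ⟨0, hN⟩).card := by exact_mod_cast h2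
      obtain ⟨i, hi⟩ := Finset.card_pos.1 h3
      exact ⟨(i, ⟨0, hN⟩), (hmem _ _).2 (Or.inl hi)⟩
    have hfat : Fat (cellU θ w 𝓔) := by
      refine ⟨hE.subset hsubE, ?_⟩
      obtain ⟨q, hq⟩ := hne
      refine ⟨(((q.1 : ℝ) * w q.2 : ℝ) : ℂ) * Complex.exp ((θ q.2 : ℂ) * Complex.I),
        ((((q.1 : ℝ) + 1) * w q.2 : ℝ) : ℂ) * Complex.exp ((θ q.2 : ℂ) * Complex.I), ?_, ?_⟩
      · intro h
        have h1 := mul_right_cancel₀ (Complex.exp_ne_zero _) h
        have h2 : (q.1 : ℝ) * w q.2 = ((q.1 : ℝ) + 1) * w q.2 := by exact_mod_cast h1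
        have := hwpos q.2
        linarith
      · intro z hz
        unfold cellU
        rw [Set.mem_iUnion₂]
        exact ⟨q, hq, hz⟩
    have hcp : cp (cellU θ w 𝓔) ≤ cp E := by
      unfold cp
      exact Real.exp_le_exp.2 (hKB.2.2.1 _ _ hfat hE hsubE)
    have hchain := hCC N θ w 𝓔 hθ hwpos hne
    -- the terms
    have hterm : ∀ (i : ℕ) (k : Fin N), 1 ≤ i →
        (cp (starSet 0 θ (fun j => ((if j ≤ k then i + 1 else i : ℕ) : ℝ) * w j)) -
          cp (starSet 0 θ (fun j => ((if j < k then i + 1 else i : ℕ) : ℝ) * w j))) =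
        δ * gq C m k i := by
      intro i k hi
      rw [hw]
      rw [term_eq hH θ m hN hm δ hδ i hi (fun j => j ≤ k),
        term_eq hH θ m hN hm δ hδ i hi (fun j => j < k)]
      unfold gq
      rw [hC]
      ring
    have hlow : ∑ k, ∑ i ∈ G k, δ * gq C m k i ≤ cp (cellU θ w 𝓔) := by
      refine le_trans ?_ hchain
      rw [Finset.sum_sigma']
      have himg : (Finset.univ.sigma G).image (fun x : (_ : Fin N) × ℕ => (x.2, x.1)) ⊆
          𝓔.filter (fun p => 1 ≤ p.1 ∧ (p.1 - 1, p.2) ∈ 𝓔) := by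
        intro q hq
        rw [Finset.mem_image] at hq
        obtain ⟨⟨k, i⟩, hx, rfl⟩ := hq
        rw [Finset.mem_sigma] at hx
        have hi : i ∈ G k := hx.2
        rw [Finset.mem_filter]
        exact ⟨(hmem i k).2 (Or.inl hi), (hG1 k i hi).1, (hmem (i - 1) k).2 (Or.inr ⟨i, hi, rfl⟩)⟩
      have h1 := Finset.sum_le_sum_of_subset_of_nonneg himg (f := fun q : ℕ × Fin N =>
        (cp (starSet 0 θ (fun j => ((if j ≤ q.2 then q.1 + 1 else q.1 : ℕ) : ℝ) * w j)) -
          cp (starSet 0 θ (fun j => ((if j < q.2 then q.1 + 1 else q.1 : ℕ) : ℝ) * w j))))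
        (by
          intro q hq _
          have h2 := (Finset.mem_filter.1 hq).2.1
          show 0 ≤ _
          rw [hterm q.1 q.2 h2]
          exact mul_nonneg hδ.le (hgnn _ _))
      refine le_trans (le_of_eq ?_) h1
      rw [Finset.sum_image]
      · refine Finset.sum_congr rfl fun x hx => ?_
        rw [Finset.mem_sigma] at hx
        exact (hterm x.2 x.1 (hG1 x.1 x.2 hx.2).1).symm
      · rintro ⟨k, i⟩ _ ⟨k', i'⟩ _ h
        simp only [Prod.mk.injEq] at h
        obtain ⟨rfl, rfl⟩ := h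
        rfl
    have hper : ∀ k, δ * (((M : ℝ) - 3 * ((P k).card : ℝ) - i₀) * max 0 (p k - ε)) ≤
        ∑ i ∈ G k, δ * gq C m k i := by
      intro k
      rw [← Finset.mul_sum]
      refine mul_le_mul_of_nonneg_left ?_ hδ.le
      refine le_trans ?_ (sum_lower (G k) (gq C m k) (max 0 (p k - ε)) i₀ (hgnn k)
        (le_max_left _ _) fun i hi => max_le (hgnn k i) (hi₀ i hi k))
      refine mul_le_mul_of_nonneg_right ?_ (le_max_left _ _)
      have := hGcard k
      linarith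
    have h1 : ∑ k, δ * (((M : ℝ) - 3 * ((P k).card : ℝ) - i₀) * max 0 (p k - ε)) ≤ cp E :=
      (Finset.sum_le_sum fun k _ => hper k).trans (hlow.trans hcp)
    have h2 : ∑ k, δ * (((M : ℝ) - 3 * ((P k).card : ℝ) - i₀) * max 0 (p k - ε)) =
        ∑ k, max 0 (p k - ε) -
          (∑ k, (3 * ((P k).card : ℝ) + i₀) * max 0 (p k - ε)) / M := by
      rw [div_eq_mul_inv, ← hδdef, Finset.sum_mul, ← Finset.sum_sub_distrib]
      refine Finset.sum_congr rfl fun k _ => ?_
      calc δ * (((M : ℝ) - 3 * ((P k).card : ℝ) - i₀) * max 0 (p k - ε)) =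
          (δ * M) * max 0 (p k - ε) - (3 * ((P k).card : ℝ) + i₀) * max 0 (p k - ε) * δ := by ring
        _ = _ := by rw [hδM, one_mul]
    have h3 : C m - N * ε ≤ ∑ k, max 0 (p k - ε) := by
      have h4 : ∑ k, (p k - ε) ≤ ∑ k, max 0 (p k - ε) :=
        Finset.sum_le_sum fun k _ => le_max_right _ _
      rw [Finset.sum_sub_distrib, Finset.sum_const, Finset.card_univ, Fintype.card_fin,
        nsmul_eq_mul, ← hsum] at h4
      exact h4
    rw [h2] at h1
    linarith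
  rw [← hCm]
  refine le_of_forall_pos_le_add fun η hη => ?_
  obtain ⟨K, M₀, hK⟩ := key (η / (2 * N)) (by positivity)
  obtain ⟨M, hM⟩ : ∃ M : ℕ, M = max (max M₀ 1) ⌈2 * K / η⌉₊ := ⟨_, rfl⟩
  have hM1 : M₀ ≤ M := by rw [hM]; exact (le_max_left _ _).trans (le_max_left _ _)
  have hM2 : 1 ≤ M := by rw [hM]; exact (le_max_right _ _).trans (le_max_left _ _)
  have hM3 : 2 * K / η ≤ M := by
    refine (Nat.le_ceil _).trans ?_
    rw [hM]
    exact_mod_cast le_max_right _ _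
  have hMr : (0 : ℝ) < M := by exact_mod_cast hM2
  have h1 := hK M hM1 hM2
  have h2 : K / M ≤ η / 2 := by
    rw [div_le_iff₀ hη] at hM3
    rw [div_le_iff₀ hMr]
    linarith
  have h3 : (N : ℝ) * (η / (2 * N)) = η / 2 := by field_simp
  linarith

end Pool.MP_31392c_an
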