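import Pool.Agent.Lib.MP_31392c_an.Full.SpecB

/-!
# Composition with an analytic map
-/

set_option autoImplicit false

open MeasureTheory Set Filter Topology Metric

namespace Pool.MP_31392c_an

namespace Conf

theorem fderivEv (φ : ℂ → ℂ) (z : ℂ) (hφ : AnalyticAt ℂ φ z) :
    ∀ᶠ w in 𝓝 z, HasFDerivAt φ (deriv φ w • (1 : ℂ →L[ℝ] ℂ)) w :=
  hφ.eventually_analyticAt.mono fun _ hw => hw.differentiableAt.hasDerivAt.complexToReal_fderiv

theorem first (f : ℂ → ℝ) (φ : ℂ → ℂ) (w : ℂ) (h : HasFDerivAt φ (deriv φ w • (1 : ℂ →L[ℝ] ℂ)) w)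
    (hf : DifferentiableAt ℝ f (φ w)) (c : ℂ) :
    fderiv ℝ (fun w => f (φ w)) w c = fderiv ℝ f (φ w) (deriv φ w * c) := by
  have h1 : HasFDerivAt (fun w => f (φ w)) ((fderiv ℝ f (φ w)).comp
      (deriv φ w • (1 : ℂ →L[ℝ] ℂ))) w := hf.hasFDerivAt.comp w h
  rw [h1.fderiv]
  simp

theorem second (f : ℂ → ℝ) (φ : ℂ → ℂ) (z : ℂ) (hφ : AnalyticAt ℂ φ z)
    (hf : ContDiffAt ℝ 2 f (φ z)) (c : ℂ) :
    fderiv ℝ (fun w => fderiv ℝ (fun w => f (φ w)) w c) z c =
      fderiv ℝ (fderiv ℝ f) (φ z) (deriv φ z * c) (deriv φ z * c) +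
        fderiv ℝ f (φ z) (deriv (deriv φ) z * c * c) := by
  have hev : (fun w => fderiv ℝ (fun w => f (φ w)) w c) =ᶠ[𝓝 z]
      fun w => fderiv ℝ f (φ w) (deriv φ w * c) := by
    have h1 : ∀ᶠ u in 𝓝 (φ z), DifferentiableAt ℝ f u :=
      (hf.eventually (by simp)).mono fun u hu => hu.differentiableAt (by norm_num)
    filter_upwards [fderivEv φ z hφ, hφ.continuousAt.eventually h1] with w h2 h3
    exact first f φ w h2 h3 c
  rw [hev.fderiv_eq]
  have hf1 : ContDiffAt ℝ 1 (fderiv ℝ f) (φ z) := hf.fderiv_right (by norm_num)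
  have hB : HasFDerivAt (fderiv ℝ f) (fderiv ℝ (fderiv ℝ f) (φ z)) (φ z) :=
    (hf1.differentiableAt (by norm_num)).hasFDerivAt
  have hφz := (fderivEv φ z hφ).self_of_nhds
  have hL := hB.comp z hφz
  have h2 : HasFDerivAt (deriv φ) (deriv (deriv φ) z • (1 : ℂ →L[ℝ] ℂ)) z :=
    hφ.deriv.differentiableAt.hasDerivAt.complexToReal_fderiv
  have hu := h2.mul_const c
  have h3 := hL.clm_apply hu
  have h4 := h3.fderiv
  change fderiv ℝ (fun w => fderiv ℝ f (φ w) (deriv φ w * c)) z = _ at h4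
  rw [h4]
  simp only [ContinuousLinearMap.add_apply, ContinuousLinearMap.comp_apply,
    ContinuousLinearMap.flip_apply, ContinuousLinearMap.smul_apply, smul_eq_mul,
    ContinuousLinearMap.one_apply, Function.comp_apply]
  rw [add_comm]
  congr 2
  ring

theorem expand (A : ℂ →L[ℝ] ℝ) (ζ : ℂ) : A ζ = ζ.re * A 1 + ζ.im * A Complex.I := by
  have h : ζ = ζ.re • (1 : ℂ) + ζ.im • Complex.I := by
    simp [Complex.re_add_im]
  conv_lhs => rw [h]
  rw [map_add, map_smul, map_smul, smul_eq_mul, smul_eq_mul]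

theorem expand2 (B : ℂ →L[ℝ] ℂ →L[ℝ] ℝ) (ζ : ℂ) :
    B (ζ * 1) (ζ * 1) + B (ζ * Complex.I) (ζ * Complex.I) =
      ‖ζ‖ ^ 2 * (B 1 1 + B Complex.I Complex.I) := by
  have h1 : ∀ ζ : ℂ, B ζ = ζ.re • B 1 + ζ.im • B Complex.I := by
    intro ζ
    have h : ζ = ζ.re • (1 : ℂ) + ζ.im • Complex.I := by
      simp [Complex.re_add_im]
    conv_lhs => rw [h]
    rw [map_add, map_smul, map_smul]
  have h2 : ∀ ζ : ℂ, B ζ ζ = ζ.re * (ζ.re * B 1 1 + ζ.im * B 1 Complex.I) +
      ζ.im * (ζ.re * B Complex.I 1 + ζ.im * B Complex.I Complex.I) := by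
    intro ζ
    rw [h1, ContinuousLinearMap.add_apply, ContinuousLinearMap.smul_apply,
      ContinuousLinearMap.smul_apply, expand (B 1) ζ, expand (B Complex.I) ζ, smul_eq_mul,
      smul_eq_mul]
  rw [h2 (ζ * 1), h2 (ζ * Complex.I), ← Complex.normSq_eq_norm_sq, Complex.normSq_apply]
  simp only [mul_one, Complex.mul_re, Complex.mul_im, Complex.I_re, Complex.I_im, mul_zero,
    zero_sub, zero_add, add_zero]
  ring

end Conf

open Conf in
theorem s_Conf : Conf := by
  intro f g φ z hφ hf hg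
  have hφc : ContDiffAt ℝ 2 φ z := (hφ.contDiffAt (n := 2)).restrict_scalars ℝ
  have hφz := (fderivEv φ z hφ).self_of_nhds
  refine ⟨hf.comp z hφc, ?_, ?_⟩
  · have h1 : lap (fun w => f (φ w)) z =
        fderiv ℝ (fun w => fderiv ℝ (fun w => f (φ w)) w 1) z 1 +
        fderiv ℝ (fun w => fderiv ℝ (fun w => f (φ w)) w Complex.I) z Complex.I := rfl
    rw [h1, second f φ z hφ hf, second f φ z hφ hf]
    have h2 : deriv (deriv φ) z * Complex.I * Complex.I = -(deriv (deriv φ) z * 1 * 1) := by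
      rw [mul_assoc, Complex.I_mul_I]
      ring
    rw [h2, map_neg]
    have h3 : lap f (φ z) = fderiv ℝ (fderiv ℝ f) (φ z) 1 1 +
        fderiv ℝ (fderiv ℝ f) (φ z) Complex.I Complex.I := by
      have hf1 : ContDiffAt ℝ 1 (fderiv ℝ f) (φ z) := hf.fderiv_right (by norm_num)
      have hB : HasFDerivAt (fderiv ℝ f) (fderiv ℝ (fderiv ℝ f) (φ z)) (φ z) :=
        (hf1.differentiableAt (by norm_num)).hasFDerivAt
      have h4 : ∀ c : ℂ, fderiv ℝ (fun w => fderiv ℝ f w c) (φ z) c =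
          fderiv ℝ (fderiv ℝ f) (φ z) c c := by
        intro c
        have h5 := hB.clm_apply (hasFDerivAt_const c (φ z))
        rw [h5.fderiv]
        simp
      have h6 : lap f (φ z) = fderiv ℝ (fun w => fderiv ℝ f w 1) (φ z) 1 +
        fderiv ℝ (fun w => fderiv ℝ f w Complex.I) (φ z) Complex.I := rfl
      rw [h6, h4, h4]
    rw [h3, ← expand2]
    ring
  · have d1 := hf.differentiableAt (by norm_num)
    have d2 := hg.differentiableAt (by norm_num)
    unfold gp dX dY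
    rw [first f φ z hφz d1, first f φ z hφz d1, first g φ z hφz d2, first g φ z hφz d2,
      expand (fderiv ℝ f (φ z)) (deriv φ z * 1), expand (fderiv ℝ f (φ z)) (deriv φ z * Complex.I),
      expand (fderiv ℝ g (φ z)) (deriv φ z * 1), expand (fderiv ℝ g (φ z)) (deriv φ z * Complex.I),
      ← Complex.normSq_eq_norm_sq, Complex.normSq_apply]
    simp only [mul_one, Complex.mul_re, Complex.mul_im, Complex.I_re, Complex.I_im, mul_zero,
      zero_sub, zero_add, add_zero]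
    ring

end Pool.MP_31392c_an
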