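import Pool.Agent.Lib.MP_31392c_an.Full.SpecZ

/-!
# MP_31392c_an full proof: `CountCells`
-/

set_option autoImplicit false

open MeasureTheory Set Filter Topology Metric

namespace Pool.MP_31392c_an

namespace CountCells

/-- the numbers of the good cells in the interval `p` -/
noncomputable def cc (v : ℝ) (p : ℝ × ℝ) : Finset ℕ :=
  Finset.Icc (⌈p.1 / v⌉₊ + 1) (⌊p.2 / v⌋₊ - 1)

lemma cc_spec {v : ℝ} (hv : 0 < v) {p : ℝ × ℝ} (hp : 0 ≤ p.1 ∧ p.1 < p.2) {i : ℕ}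
    (hi : i ∈ cc v p) :
    1 ≤ i ∧ p.1 ≤ ((i : ℝ) - 1) * v ∧ ((i : ℝ) + 1) * v ≤ p.2 := by
  unfold cc at hi
  rw [Finset.mem_Icc] at hi
  obtain ⟨h1, h2⟩ := hi
  have h3 : ⌈p.1 / v⌉₊ + 1 ≤ i := h1
  have h4 : i + 1 ≤ ⌊p.2 / v⌋₊ := by omega
  refine ⟨by omega, ?_, ?_⟩
  · have h5 : p.1 / v ≤ (⌈p.1 / v⌉₊ : ℝ) := Nat.le_ceil _
    have h6 : ((⌈p.1 / v⌉₊ : ℕ) : ℝ) + 1 ≤ (i : ℝ) := by exact_mod_cast h3
    have h7 : p.1 / v ≤ (i : ℝ) - 1 := by linarith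
    rwa [div_le_iff₀ hv] at h7
  · have h5 : (⌊p.2 / v⌋₊ : ℝ) ≤ p.2 / v :=
      Nat.floor_le (div_nonneg (hp.1.trans hp.2.le) hv.le)
    have h6 : (i : ℝ) + 1 ≤ (⌊p.2 / v⌋₊ : ℝ) := by exact_mod_cast h4
    have h7 : (i : ℝ) + 1 ≤ p.2 / v := h6.trans h5
    rwa [le_div_iff₀ hv] at h7

lemma cc_card {v : ℝ} (hv : 0 < v) {p : ℝ × ℝ} (hp : 0 ≤ p.1 ∧ p.1 < p.2) :
    (p.2 - p.1) / v - 3 ≤ ((cc v p).card : ℝ) := by
  have h1 : p.2 / v < (⌊p.2 / v⌋₊ : ℝ) + 1 := Nat.lt_floor_add_one _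
  have h2 : (⌈p.1 / v⌉₊ : ℝ) < p.1 / v + 1 := Nat.ceil_lt_add_one (div_nonneg hp.1 hv.le)
  have h3 : (cc v p).card = ⌊p.2 / v⌋₊ - 1 + 1 - (⌈p.1 / v⌉₊ + 1) := by
    unfold cc
    rw [Nat.card_Icc]
  have h4 : ⌊p.2 / v⌋₊ ≤ (cc v p).card + ⌈p.1 / v⌉₊ + 1 := by
    rw [h3]
    omega
  have h5 : (⌊p.2 / v⌋₊ : ℝ) ≤ ((cc v p).card : ℝ) + (⌈p.1 / v⌉₊ : ℝ) + 1 := by
    exact_mod_cast h4
  rw [sub_div]
  linarith

end CountCells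

open CountCells in
theorem s_CountCells : CountCells := by
  classical
  intro P v hv hP hd
  refine ⟨P.biUnion (cc v), ?_, ?_⟩
  · intro i hi
    rw [Finset.mem_biUnion] at hi
    obtain ⟨p, hp, hip⟩ := hi
    obtain ⟨h1, h2, h3⟩ := cc_spec hv (hP p hp) hip
    exact ⟨h1, p, hp, h2, h3⟩
  · rw [Finset.card_biUnion]
    · rw [Finset.sum_div]
      push_cast
      have h1 : ∑ p ∈ P, ((p.2 - p.1) / v - 3) ≤ ∑ p ∈ P, ((cc v p).card : ℝ) :=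
        Finset.sum_le_sum fun p hp => cc_card hv (hP p hp)
      rw [Finset.sum_sub_distrib, Finset.sum_const, nsmul_eq_mul] at h1
      linarith
    · intro p hp q hq hpq
      change Disjoint (cc v p) (cc v q)
      rw [Finset.disjoint_left]
      intro i hi hi'
      obtain ⟨-, h2, h3⟩ := cc_spec hv (hP p hp) hi
      obtain ⟨-, h4, h5⟩ := cc_spec hv (hP q hq) hi'
      have h6 := hd p hp q hq hpq
      rw [Set.disjoint_left] at h6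
      refine h6 (a := (i : ℝ) * v) ⟨?_, ?_⟩ ⟨?_, ?_⟩ <;> nlinarith

end Pool.MP_31392c_an
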