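import Pool.Agent.Lib.MP_31392c_an.Full.SpecC

/-!
# The integral of `∇a·∇b + V a b` over the disc as a boundary limit
-/

set_option autoImplicit false

open MeasureTheory Set Filter Topology Metric

namespace Pool.MP_31392c_an

namespace CrossLimAux

/-- the derivative of the transition function -/
noncomputable def kk (x : ℝ) : ℝ := deriv Real.smoothTransition x

lemma kk_cont : Continuous kk :=
  (Real.smoothTransition.contDiff (n := 1)).continuous_deriv le_rfl

lemma hasDerivAt_st (x : ℝ) : HasDerivAt Real.smoothTransition (kk x) x :=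
  ((Real.smoothTransition.contDiff (n := 1)).differentiable (by norm_num) x).hasDerivAt

lemma kk_nonneg (x : ℝ) : 0 ≤ kk x := Real.smoothTransition.monotone.deriv_nonneg

lemma kk_neg {x : ℝ} (h : x < 0) : kk x = 0 := by
  have h1 : Real.smoothTransition =ᶠ[𝓝 x] fun _ => 0 := by
    filter_upwards [gt_mem_nhds h] with y hy
    exact Real.smoothTransition.zero_of_nonpos hy.le
  unfold kk
  rw [h1.deriv_eq, deriv_const]

lemma kk_gt {x : ℝ} (h : 1 < x) : kk x = 0 := by
  have h1 : Real.smoothTransition =ᶠ[𝓝 x] fun _ => 1 := by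
    filter_upwards [lt_mem_nhds h] with y hy
    exact Real.smoothTransition.one_of_one_le hy.le
  unfold kk
  rw [h1.deriv_eq, deriv_const]

/-- the cutoff as a function of the squared radius -/
noncomputable def Hc (s u : ℝ) : ℝ := Real.smoothTransition ((1 - u) / s - 1)

/-- its derivative -/
noncomputable def Hd (s u : ℝ) : ℝ := -(1 / s) * kk ((1 - u) / s - 1)

lemma hasDerivAt_Hc (s u : ℝ) : HasDerivAt (Hc s) (Hd s u) u := by
  have h1 : HasDerivAt (fun u : ℝ => (1 - u) / s - 1) (-1 / s) u :=
    (((hasDerivAt_id u).const_sub 1).div_const s).sub_const 1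
  have h2 := (hasDerivAt_st ((1 - u) / s - 1)).comp u h1
  refine h2.congr_deriv ?_
  unfold Hd
  ring

lemma Hd_cont (s : ℝ) : Continuous (Hd s) := by
  unfold Hd
  have : Continuous fun u : ℝ => (1 - u) / s - 1 := by fun_prop
  exact continuous_const.mul (kk_cont.comp this)

/-- squared radius -/
noncomputable def sqz (z : ℂ) : ℝ := z.re ^ 2 + z.im ^ 2

lemma sqz_eq (z : ℂ) : sqz z = ‖z‖ ^ 2 := by
  unfold sqz
  rw [← Complex.normSq_eq_norm_sq, Complex.normSq_apply]
  ring

lemma hasFDerivAt_sqz (z : ℂ) : HasFDerivAt sqz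
    ((2 * z.re) • Complex.reCLM + (2 * z.im) • Complex.imCLM) z := by
  have h1 : HasFDerivAt (fun z : ℂ => z.re) Complex.reCLM z := Complex.reCLM.hasFDerivAt
  have h2 : HasFDerivAt (fun z : ℂ => z.im) Complex.imCLM z := Complex.imCLM.hasFDerivAt
  have h3 := (h1.pow 2).add (h2.pow 2)
  refine h3.congr_fderiv ?_
  ext <;> simp

lemma contDiff_sqz : ContDiff ℝ 1 sqz := by
  have h1 : ContDiff ℝ 1 (fun z : ℂ => z.re) := Complex.reCLM.contDiff
  have h2 : ContDiff ℝ 1 (fun z : ℂ => z.im) := Complex.imCLM.contDiff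
  exact (h1.pow 2).add (h2.pow 2)

/-- the cutoff -/
noncomputable def eta (s : ℝ) (z : ℂ) : ℝ := Hc s (sqz z)

lemma contDiff_eta (s : ℝ) : ContDiff ℝ 1 (eta s) := by
  unfold eta Hc
  exact Real.smoothTransition.contDiff.comp (((contDiff_const.sub contDiff_sqz).div_const s).sub
    contDiff_const)

lemma hasFDerivAt_eta (s : ℝ) (z : ℂ) : HasFDerivAt (eta s)
    (Hd s (sqz z) • ((2 * z.re) • Complex.reCLM + (2 * z.im) • Complex.imCLM)) z :=
  (hasDerivAt_Hc s (sqz z)).comp_hasFDerivAt z (hasFDerivAt_sqz z)

lemma dX_eta (s : ℝ) (z : ℂ) : dX (eta s) z = Hd s (sqz z) * (2 * z.re) := by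
  unfold dX
  rw [(hasFDerivAt_eta s z).fderiv]
  simp

lemma dY_eta (s : ℝ) (z : ℂ) : dY (eta s) z = Hd s (sqz z) * (2 * z.im) := by
  unfold dY
  rw [(hasFDerivAt_eta s z).fderiv]
  simp

lemma eta_le (s : ℝ) (z : ℂ) : |eta s z| ≤ 1 := by
  unfold eta Hc
  rw [abs_of_nonneg (Real.smoothTransition.nonneg _)]
  exact Real.smoothTransition.le_one _

lemma far {s : ℝ} (hs : 0 < s) {u : ℝ} (hu : 1 - s < u) : (1 - u) / s - 1 < 0 := by
  rw [sub_neg, div_lt_one hs]
  linarith

lemma Hc_far {s : ℝ} (hs : 0 < s) {u : ℝ} (hu : 1 - s < u) : Hc s u = 0 :=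
  Real.smoothTransition.zero_of_nonpos (far hs hu).le

lemma Hd_far {s : ℝ} (hs : 0 < s) {u : ℝ} (hu : 1 - s < u) : Hd s u = 0 := by
  unfold Hd
  rw [kk_neg (far hs hu), mul_zero]

lemma sqz_cont : Continuous sqz := contDiff_sqz.continuous

lemma far_nhds {s : ℝ} (hs : 0 < s) {z : ℂ} (hz : z ∉ ball (0 : ℂ) 1) :
    ∀ᶠ w in 𝓝 z, 1 - s < sqz w := by
  apply sqz_cont.continuousAt.eventually
  apply lt_mem_nhds
  rw [mem_ball, dist_zero_right, not_lt] at hz
  rw [sqz_eq]
  nlinarith

lemma far_ball {s : ℝ} (hs : 0 < s) {z : ℂ} (hz : z ∉ ball (0 : ℂ) 1) : 1 - s < sqz z :=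
  (far_nhds hs hz).self_of_nhds

lemma diff_dX {f : ℂ → ℝ} {z : ℂ} (h : ContDiffAt ℝ 2 f z) : ContDiffAt ℝ 1 (dX f) z := by
  have h1 : ContDiffAt ℝ 1 (fderiv ℝ f) z := h.fderiv_right (by norm_num)
  exact h1.clm_apply contDiffAt_const

lemma diff_dY {f : ℂ → ℝ} {z : ℂ} (h : ContDiffAt ℝ 2 f z) : ContDiffAt ℝ 1 (dY f) z := by
  have h1 : ContDiffAt ℝ 1 (fderiv ℝ f) z := h.fderiv_right (by norm_num)
  exact h1.clm_apply contDiffAt_const

/-- the bump in the radial variable -/
noncomputable def ph (s r : ℝ) : ℝ := -(Hd s (r ^ 2) * (2 * r))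

lemma ph_cont (s : ℝ) : Continuous (ph s) := by
  unfold ph
  exact (((Hd_cont s).comp (continuous_pow 2)).mul (continuous_const.mul continuous_id)).neg

lemma ph_nonneg {s r : ℝ} (hs : 0 < s) (hr : 0 ≤ r) : 0 ≤ ph s r := by
  unfold ph Hd
  have h1 := kk_nonneg ((1 - r ^ 2) / s - 1)
  have h2 : 0 ≤ 1 / s * kk ((1 - r ^ 2) / s - 1) * (2 * r) := by positivity
  linarith

lemma ph_zero {s r : ℝ} (hs : 0 < s) (h : r ^ 2 < 1 - 2 * s) : ph s r = 0 := by
  unfold ph Hd
  rw [kk_gt, mul_zero, zero_mul, neg_zero]
  rw [lt_sub_iff_add_lt, lt_div_iff₀ hs]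
  linarith

lemma hasDerivAt_ph (s r : ℝ) : HasDerivAt (fun r : ℝ => -Hc s (r ^ 2)) (ph s r) r := by
  have h1 := (hasDerivAt_Hc s (r ^ 2)).comp r (hasDerivAt_pow 2 r)
  refine h1.neg.congr_deriv ?_
  unfold ph
  simp

lemma ph_integral {s : ℝ} (hs : 0 < s) (hs2 : s ≤ 1 / 2) : ∫ r in Ioo (0 : ℝ) 1, ph s r = 1 := by
  rw [← integral_Ioc_eq_integral_Ioo, ← intervalIntegral.integral_of_le zero_le_one,
    intervalIntegral.integral_eq_sub_of_hasDerivAt (fun r _ => hasDerivAt_ph s r)
      ((ph_cont s).intervalIntegrable _ _)]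
  have h1 : Hc s (1 ^ 2) = 0 := Hc_far hs (by norm_num; exact hs)
  have h2 : Hc s (0 ^ 2) = 1 := by
    apply Real.smoothTransition.one_of_one_le
    rw [le_sub_iff_add_le, le_div_iff₀ hs]
    norm_num
    linarith
  rw [h1, h2]
  norm_num

/-- the limit of the radial averages -/
lemma ph_limit {B : ℝ → ℝ} {L : ℝ} (hB : Tendsto B (𝓝[<] 1) (𝓝 L))
    (hint : ∀ s, 0 < s → s < 1 / 2 → IntegrableOn (fun r => ph s r * (r * B r)) (Ioo 0 1)) :
    Tendsto (fun s => ∫ r in Ioo (0 : ℝ) 1, ph s r * (r * B r)) (𝓝[>] 0) (𝓝 L) := by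
  have h1 : Tendsto (fun r : ℝ => r * B r) (𝓝[<] 1) (𝓝 L) := by
    have h2 : Tendsto (fun r : ℝ => r) (𝓝[<] (1 : ℝ)) (𝓝 1) :=
      tendsto_id.mono_left nhdsWithin_le_nhds
    have := h2.mul hB
    rwa [one_mul] at this
  rw [Metric.tendsto_nhds]
  intro ε hε
  have h3 : ∀ᶠ r in 𝓝[<] (1 : ℝ), dist (r * B r) L < ε / 2 :=
    (Metric.tendsto_nhds.1 h1) (ε / 2) (by linarith)
  obtain ⟨c, hc1, hc⟩ := mem_nhdsLT_iff_exists_Ioo_subset.1 h3
  have hc1' : c < 1 := hc1
  set c' := max c 0 with hc'
  have hc'0 : 0 ≤ c' := le_max_right _ _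
  have hc'1 : c' < 1 := max_lt hc1' one_pos
  have h4 : ∀ᶠ s in 𝓝[>] (0 : ℝ), s < min (1 / 2) ((1 - c' ^ 2) / 2) := by
    apply Filter.Eventually.filter_mono nhdsWithin_le_nhds
    apply gt_mem_nhds
    apply lt_min (by norm_num)
    nlinarith
  filter_upwards [h4, self_mem_nhdsWithin] with s hs hs0
  have hs0' : 0 < s := hs0
  have hs1 : s < 1 / 2 := hs.trans_le (min_le_left _ _)
  have hs2 : s < (1 - c' ^ 2) / 2 := hs.trans_le (min_le_right _ _)
  have hphi : IntegrableOn (ph s) (Ioo 0 1) :=
    ((ph_cont s).integrableOn_Icc (a := 0) (b := 1)).mono_set Ioo_subset_Icc_self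
  have h5 : (∫ r in Ioo (0 : ℝ) 1, ph s r * (r * B r)) - L =
      ∫ r in Ioo (0 : ℝ) 1, ph s r * (r * B r - L) := by
    have h6 : L = ∫ r in Ioo (0 : ℝ) 1, ph s r * L := by
      rw [integral_mul_const, ph_integral hs0' hs1.le, one_mul]
    conv_lhs => rw [h6]
    rw [← integral_sub (hint s hs0' hs1) (hphi.mul_const L)]
    refine integral_congr_ae (Eventually.of_forall fun r => ?_)
    ring
  rw [Real.dist_eq, h5, ← Real.norm_eq_abs]
  have h7 : ‖∫ r in Ioo (0 : ℝ) 1, ph s r * (r * B r - L)‖ ≤
      ∫ r in Ioo (0 : ℝ) 1, ph s r * (ε / 2) := by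
    apply norm_integral_le_of_norm_le (hphi.mul_const _)
    rw [ae_restrict_iff' measurableSet_Ioo]
    refine Eventually.of_forall fun r hr => ?_
    rw [norm_mul, Real.norm_eq_abs, Real.norm_eq_abs, abs_of_nonneg (ph_nonneg hs0' hr.1.le)]
    by_cases hrc : c' < r
    · have h8 : dist (r * B r) L < ε / 2 := hc ⟨(le_max_left _ _).trans_lt hrc, hr.2⟩
      rw [Real.dist_eq] at h8
      exact mul_le_mul_of_nonneg_left h8.le (ph_nonneg hs0' hr.1.le)
    · rw [ph_zero hs0', zero_mul, zero_mul]
      have : r ^ 2 ≤ c' ^ 2 := pow_le_pow_left₀ hr.1.le (not_lt.1 hrc) 2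
      linarith
  rw [integral_mul_const, ph_integral hs0' hs1.le] at h7
  linarith

/-- the point with polar coordinates -/
noncomputable def pol (p : ℝ × ℝ) : ℂ := (p.1 : ℂ) * Complex.exp ((p.2 : ℂ) * Complex.I)

lemma pol_cont : Continuous pol := by
  unfold pol
  fun_prop

lemma pol_eq (p : ℝ × ℝ) : Complex.polarCoord.symm p = pol p := by
  rw [Complex.polarCoord_symm_apply]
  unfold pol
  rw [Complex.exp_mul_I, Complex.ofReal_cos, Complex.ofReal_sin]

lemma pol_re (p : ℝ × ℝ) : (pol p).re = p.1 * Real.cos p.2 := by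
  unfold pol
  rw [Complex.re_ofReal_mul, Complex.exp_ofReal_mul_I_re]

lemma pol_im (p : ℝ × ℝ) : (pol p).im = p.1 * Real.sin p.2 := by
  unfold pol
  rw [Complex.im_ofReal_mul, Complex.exp_ofReal_mul_I_im]

lemma pol_sq (p : ℝ × ℝ) : sqz (pol p) = p.1 ^ 2 := by
  unfold sqz
  rw [pol_re, pol_im]
  have := Real.cos_sq_add_sin_sq p.2
  linear_combination p.1 ^ 2 * this

lemma dR_eq (f : ℂ → ℝ) (r t : ℝ) : dR f r t =
    Real.cos t * dX f (pol (r, t)) + Real.sin t * dY f (pol (r, t)) := by
  unfold dR dX dY pol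
  have h1 : Complex.exp ((t : ℂ) * Complex.I) =
      (Real.cos t) • (1 : ℂ) + (Real.sin t) • Complex.I := by
    rw [Complex.exp_mul_I, Complex.real_smul, Complex.real_smul, mul_one, Complex.ofReal_cos,
      Complex.ofReal_sin]
  conv_lhs => rw [h1, map_add, map_smul, map_smul, smul_eq_mul, smul_eq_mul, ← h1]

end CrossLimAux

open CrossLimAux in
theorem s_CrossLim : DivZero → CrossLim := by
  intro hD V a b L hV ha hb hVa hVb hga hgb hlim
  have hCa : ∀ z ∈ ball (0 : ℂ) 1, ContDiffAt ℝ 2 a z := fun z hz => (hVa z hz).1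
  have hCb : ∀ z ∈ ball (0 : ℂ) 1, ContDiffAt ℝ 2 b z := fun z hz => (hVb z hz).1
  set F : ℂ → ℝ := fun z => gp a b z + V z * a z * b z with hF
  -- integrability of `F`
  have hgpc : ContinuousOn (fun z => gp a b z) (ball 0 1) := by
    intro z hz
    have h1 := (diff_dX (hCa z hz)).continuousAt
    have h2 := (diff_dY (hCa z hz)).continuousAt
    have h3 := (diff_dX (hCb z hz)).continuousAt
    have h4 := (diff_dY (hCb z hz)).continuousAt
    exact ((h1.mul h3).add (h2.mul h4)).continuousWithinAt
  have hint1 : IntegrableOn (fun z => gp a b z) (ball 0 1) := by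
    refine Integrable.mono' (((hga.add hgb).div_const 2)) ?_ ?_
    · exact hgpc.aestronglyMeasurable measurableSet_ball
    · refine Eventually.of_forall fun z => ?_
      simp only [Pi.add_apply]
      unfold gp
      rw [Real.norm_eq_abs, abs_le]
      constructor
      · nlinarith [sq_nonneg (dX a z + dX b z), sq_nonneg (dY a z + dY b z)]
      · nlinarith [sq_nonneg (dX a z - dX b z), sq_nonneg (dY a z - dY b z)]
  have hint2 : IntegrableOn (fun z => V z * a z * b z) (ball 0 1) := by
    have h1 : ContinuousOn (fun z => V z * a z * b z) (closedBall 0 1) :=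
      (hV.continuousOn.mul ha).mul hb
    exact (h1.integrableOn_compact (isCompact_closedBall 0 1)).mono_set ball_subset_closedBall
  have hFint : IntegrableOn F (ball 0 1) := hint1.add hint2
  set Fb : ℂ → ℝ := (ball (0 : ℂ) 1).indicator F with hFb
  have hFbint : Integrable Fb := (integrable_indicator_iff measurableSet_ball).2 hFint
  set B : ℝ → ℝ := fun r => ∫ t in (0 : ℝ)..(2 * Real.pi),
    b ((r : ℂ) * Complex.exp ((t : ℂ) * Complex.I)) * dR a r t with hB
  -- the cut off integrals converge to the integral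
  have hI : Tendsto (fun s => ∫ z, eta s z * Fb z) (𝓝[>] 0) (𝓝 (∫ z, Fb z)) := by
    apply tendsto_integral_filter_of_dominated_convergence (fun z => ‖Fb z‖)
    · exact Eventually.of_forall fun s =>
        (contDiff_eta s).continuous.aestronglyMeasurable.mul hFbint.aestronglyMeasurable
    · refine Eventually.of_forall fun s => Eventually.of_forall fun z => ?_
      rw [norm_mul]
      have := eta_le s z
      rw [← Real.norm_eq_abs] at this
      exact mul_le_of_le_one_left (norm_nonneg _) this
    · exact hFbint.norm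
    · refine Eventually.of_forall fun z => ?_
      by_cases hz : z ∈ ball (0 : ℂ) 1
      · have h1 : ∀ᶠ s in 𝓝[>] (0 : ℝ), eta s z * Fb z = Fb z := by
          have h2 : sqz z < 1 := by
            rw [mem_ball, dist_zero_right] at hz
            rw [sqz_eq]
            have := norm_nonneg z
            nlinarith
          have h3 : ∀ᶠ s in 𝓝[>] (0 : ℝ), s < (1 - sqz z) / 2 := by
            apply Filter.Eventually.filter_mono nhdsWithin_le_nhds
            apply gt_mem_nhds
            linarith
          filter_upwards [h3, self_mem_nhdsWithin] with s hs hs0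
          have hs0' : 0 < s := hs0
          have h4 : eta s z = 1 := by
            apply Real.smoothTransition.one_of_one_le
            rw [le_sub_iff_add_le, le_div_iff₀ hs0']
            linarith
          rw [h4, one_mul]
        exact tendsto_const_nhds.congr' (h1.mono fun s hs => hs.symm)
      · have h1 : Fb z = 0 := by
          rw [hFb, indicator_of_notMem hz]
        simp only [h1, mul_zero]
        exact tendsto_const_nhds
  -- the identity for small `s`
  have hmain : ∀ s, 0 < s → s < 1 / 2 →
      IntegrableOn (fun r => ph s r * (r * B r)) (Ioo 0 1) ∧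
      ∫ z, eta s z * Fb z = ∫ r in Ioo (0 : ℝ) 1, ph s r * (r * B r) := by
    intro s hs hs2
    set G : ℂ → ℝ := fun z => b z * gp (eta s) a z with hG
    have hGfar : ∀ z, 1 - s < sqz z → G z = 0 := by
      intro z hz
      simp only [hG]
      unfold gp
      rw [dX_eta, dY_eta, Hd_far hs hz]
      ring
    have hGout : ∀ z, z ∉ ball (0 : ℂ) 1 → G z = 0 := fun z hz => hGfar z (far_ball hs hz)
    have hGc : Continuous G := by
      rw [continuous_iff_continuousAt]
      intro z
      by_cases hz : z ∈ ball (0 : ℂ) 1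
      · have h1 := (diff_dX (hCa z hz)).continuousAt
        have h2 := (diff_dY (hCa z hz)).continuousAt
        have h3 := (hCb z hz).continuousAt
        have h4 : Continuous (dX (eta s)) := by
          have : dX (eta s) = fun z => Hd s (sqz z) * (2 * z.re) := funext (dX_eta s)
          rw [this]
          exact ((Hd_cont s).comp sqz_cont).mul (continuous_const.mul Complex.continuous_re)
        have h5 : Continuous (dY (eta s)) := by
          have : dY (eta s) = fun z => Hd s (sqz z) * (2 * z.im) := funext (dY_eta s)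
          rw [this]
          exact ((Hd_cont s).comp sqz_cont).mul (continuous_const.mul Complex.continuous_im)
        exact h3.mul ((h4.continuousAt.mul h1).add (h5.continuousAt.mul h2))
      · have h1 : G =ᶠ[𝓝 z] fun _ => 0 := by
          filter_upwards [far_nhds hs hz] with w hw
          exact hGfar w hw
        exact continuousAt_const.congr h1.symm
    have hGsupp : HasCompactSupport G :=
      HasCompactSupport.intro (isCompact_closedBall 0 1) fun z hz =>
        hGout z fun h => hz (ball_subset_closedBall h)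
    have hGint : Integrable G := hGc.integrable_of_hasCompactSupport hGsupp
    -- the field
    set p : ℂ → ℝ := fun z => eta s z * b z * dX a z with hp
    set q : ℂ → ℝ := fun z => eta s z * b z * dY a z with hq
    have hout : ∀ z, z ∉ ball (0 : ℂ) 1 → p =ᶠ[𝓝 z] (fun _ => 0) ∧ q =ᶠ[𝓝 z] (fun _ => 0) := by
      intro z hz
      constructor
      · filter_upwards [far_nhds hs hz] with w hw
        have : eta s w = 0 := Hc_far hs hw
        simp only [hp, this, zero_mul]
      · filter_upwards [far_nhds hs hz] with w hw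
        have : eta s w = 0 := Hc_far hs hw
        simp only [hq, this, zero_mul]
    have hpC : ContDiff ℝ 1 p := by
      rw [contDiff_iff_contDiffAt]
      intro z
      by_cases hz : z ∈ ball (0 : ℂ) 1
      · exact ((contDiff_eta s).contDiffAt.mul ((hCb z hz).of_le (by norm_num))).mul
          (diff_dX (hCa z hz))
      · exact contDiffAt_const.congr_of_eventuallyEq (hout z hz).1
    have hqC : ContDiff ℝ 1 q := by
      rw [contDiff_iff_contDiffAt]
      intro z
      by_cases hz : z ∈ ball (0 : ℂ) 1
      · exact ((contDiff_eta s).contDiffAt.mul ((hCb z hz).of_le (by norm_num))).mul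
          (diff_dY (hCa z hz))
      · exact contDiffAt_const.congr_of_eventuallyEq (hout z hz).2
    have hps : HasCompactSupport p :=
      HasCompactSupport.intro (isCompact_closedBall 0 1) fun z hz =>
        (hout z fun h => hz (ball_subset_closedBall h)).1.self_of_nhds
    have hqs : HasCompactSupport q :=
      HasCompactSupport.intro (isCompact_closedBall 0 1) fun z hz =>
        (hout z fun h => hz (ball_subset_closedBall h)).2.self_of_nhds
    have hdiv := hD p q hpC hqC hps hqs
    have htot : ∀ z, dX p z + dY q z = G z + eta s z * Fb z := by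
      intro z
      by_cases hz : z ∈ ball (0 : ℂ) 1
      · have e0 := ((contDiff_eta s).differentiable (by norm_num) z).hasFDerivAt
        have e1 := ((hCb z hz).differentiableAt (by norm_num)).hasFDerivAt
        have e2 := ((diff_dX (hCa z hz)).differentiableAt (by norm_num)).hasFDerivAt
        have e3 := ((diff_dY (hCa z hz)).differentiableAt (by norm_num)).hasFDerivAt
        have h1 : dX p z = eta s z * b z * dX (dX a) z +
            dX a z * (eta s z * dX b z + b z * dX (eta s) z) := by
          show fderiv ℝ p z 1 = _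
          have := ((e0.mul e1).mul e2).fderiv
          have h' : fderiv ℝ p z = _ := this
          rw [h']
          simp only [add_apply, FunLike.coe_smul, Pi.smul_apply, smul_eq_mul]
          rfl
        have h2 : dY q z = eta s z * b z * dY (dY a) z +
            dY a z * (eta s z * dY b z + b z * dY (eta s) z) := by
          show fderiv ℝ q z Complex.I = _
          have := ((e0.mul e1).mul e3).fderiv
          have h' : fderiv ℝ q z = _ := this
          rw [h']
          simp only [add_apply, FunLike.coe_smul, Pi.smul_apply, smul_eq_mul]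
          rfl
        have h3 : Fb z = F z := by rw [hFb, indicator_of_mem hz]
        have h4 : lap a z = V z * a z := (hVa z hz).2
        unfold lap at h4
        rw [h1, h2, h3]
        simp only [hG, hF]
        unfold gp
        linear_combination (eta s z * b z) * h4
      · have h1 : dX p z = 0 := by
          show fderiv ℝ p z 1 = 0
          rw [(hout z hz).1.fderiv_eq, fderiv_fun_const]
          rfl
        have h2 : dY q z = 0 := by
          show fderiv ℝ q z Complex.I = 0
          rw [(hout z hz).2.fderiv_eq, fderiv_fun_const]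
          rfl
        have h3 : Fb z = 0 := by rw [hFb, indicator_of_notMem hz]
        rw [h1, h2, h3, hGout z hz]
        ring
    have hEint : Integrable (fun z => eta s z * Fb z) := by
      refine hFbint.mono ((contDiff_eta s).continuous.aestronglyMeasurable.mul
        hFbint.aestronglyMeasurable) (Eventually.of_forall fun z => ?_)
      rw [norm_mul]
      have := eta_le s z
      rw [← Real.norm_eq_abs] at this
      exact mul_le_of_le_one_left (norm_nonneg _) this
    have hsum : (∫ z, G z) + ∫ z, eta s z * Fb z = 0 := by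
      rw [← integral_add hGint hEint, ← hdiv]
      exact integral_congr_ae (Eventually.of_forall fun z => (htot z).symm)
    -- polar coordinates
    set P : ℝ × ℝ → ℝ := fun p => p.1 * G (pol p) with hP
    have hPc : Continuous P := continuous_fst.mul (hGc.comp pol_cont)
    have hpolar : ∫ p in polarCoord.target, P p = ∫ z, G z := by
      rw [← Complex.integral_comp_polarCoord_symm G]
      refine integral_congr_ae (Eventually.of_forall fun p => ?_)
      simp only [hP, pol_eq, smul_eq_mul]
    have hsub : Ioo (0 : ℝ) 1 ×ˢ Ioo (-Real.pi) Real.pi ⊆ polarCoord.target := by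
      rintro ⟨r, t⟩ ⟨h1, h2⟩
      exact ⟨h1.1, h2⟩
    have hrestr : ∫ p in polarCoord.target, P p =
        ∫ p in Ioo (0 : ℝ) 1 ×ˢ Ioo (-Real.pi) Real.pi, P p := by
      refine setIntegral_eq_of_subset_of_forall_sdiff_eq_zero
        polarCoord.open_target.measurableSet hsub ?_
      rintro ⟨r, t⟩ ⟨h1, h2⟩
      have hr0 : 0 < r := h1.1
      have hr1 : 1 ≤ r := by
        by_contra hcon
        exact h2 ⟨⟨hr0, not_le.1 hcon⟩, h1.2⟩
      have : G (pol (r, t)) = 0 := by
        apply hGfar
        rw [pol_sq]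
        show 1 - s < r ^ 2
        nlinarith
      simp only [hP, this, mul_zero]
    have hPint : IntegrableOn P (Ioo (0 : ℝ) 1 ×ˢ Ioo (-Real.pi) Real.pi)
        (volume.prod volume) := by
      have h1 : IntegrableOn P (Icc (0 : ℝ) 1 ×ˢ Icc (-Real.pi) Real.pi) (volume.prod volume) :=
        hPc.continuousOn.integrableOn_compact (isCompact_Icc.prod isCompact_Icc)
      exact h1.mono_set (prod_mono Ioo_subset_Icc_self Ioo_subset_Icc_self)
    have hfub : ∫ p in Ioo (0 : ℝ) 1 ×ˢ Ioo (-Real.pi) Real.pi, P p =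
        ∫ r in Ioo (0 : ℝ) 1, ∫ t in Ioo (-Real.pi) Real.pi, P (r, t) :=
      setIntegral_prod P hPint
    -- the inner integral
    have hinner : ∀ r, ∫ t in Ioo (-Real.pi) Real.pi, P (r, t) = -(ph s r * (r * B r)) := by
      intro r
      have h1 : ∀ t, P (r, t) = -(ph s r * r) * (b ((r : ℂ) * Complex.exp ((t : ℂ) * Complex.I)) *
          dR a r t) := by
        intro t
        simp only [hP, hG]
        unfold gp
        rw [dX_eta, dY_eta, pol_sq, pol_re, pol_im, dR_eq]
        unfold ph
        show r * (b (pol (r, t)) * _) = _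
        have : pol (r, t) = (r : ℂ) * Complex.exp ((t : ℂ) * Complex.I) := rfl
        rw [← this]
        ring
      simp_rw [h1]
      rw [integral_const_mul]
      have hper : Function.Periodic (fun t : ℝ =>
          b ((r : ℂ) * Complex.exp ((t : ℂ) * Complex.I)) * dR a r t) (2 * Real.pi) := by
        intro t
        have e1 : Complex.exp (((t + 2 * Real.pi : ℝ) : ℂ) * Complex.I) =
            Complex.exp ((t : ℂ) * Complex.I) := by
          push_cast
          rw [add_mul, Complex.exp_add, Complex.exp_two_pi_mul_I, mul_one]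
        simp only [dR]
        rw [e1]
      have h2 : ∫ t in Ioo (-Real.pi) Real.pi,
          b ((r : ℂ) * Complex.exp ((t : ℂ) * Complex.I)) * dR a r t = B r := by
        rw [← integral_Ioc_eq_integral_Ioo,
          ← intervalIntegral.integral_of_le (by linarith [Real.pi_pos])]
        have h3 := hper.intervalIntegral_add_eq (-Real.pi) 0
        rw [zero_add] at h3
        have e2 : -Real.pi + 2 * Real.pi = Real.pi := by ring
        rw [e2] at h3
        rw [h3]
      rw [h2]
      ring
    have hfin : ∫ z, G z = -∫ r in Ioo (0 : ℝ) 1, ph s r * (r * B r) := by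
      rw [← hpolar, hrestr, hfub, ← integral_neg]
      exact integral_congr_ae (Eventually.of_forall fun r => hinner r)
    refine ⟨?_, ?_⟩
    · have h1 : Integrable (fun r => ∫ t in Ioo (-Real.pi) Real.pi, P (r, t))
          (volume.restrict (Ioo (0 : ℝ) 1)) := by
        have h2 : Integrable P ((volume.restrict (Ioo (0 : ℝ) 1)).prod
            (volume.restrict (Ioo (-Real.pi) Real.pi))) := by
          rw [Measure.prod_restrict]
          exact hPint
        exact h2.integral_prod_left
      have h3 : (fun r => ∫ t in Ioo (-Real.pi) Real.pi, P (r, t)) =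
          fun r => -(ph s r * (r * B r)) := funext hinner
      rw [h3] at h1
      have h4 := h1.neg
      refine h4.congr (Eventually.of_forall fun r => ?_)
      simp
    · rw [hfin] at hsum
      linarith
  have hJ : Tendsto (fun s => ∫ r in Ioo (0 : ℝ) 1, ph s r * (r * B r)) (𝓝[>] 0) (𝓝 L) :=
    ph_limit hlim fun s hs hs2 => (hmain s hs hs2).1
  have hIJ : (fun s => ∫ z, eta s z * Fb z) =ᶠ[𝓝[>] 0]
      fun s => ∫ r in Ioo (0 : ℝ) 1, ph s r * (r * B r) := by
    have h1 : ∀ᶠ s in 𝓝[>] (0 : ℝ), s < 1 / 2 :=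
      Filter.Eventually.filter_mono nhdsWithin_le_nhds (gt_mem_nhds (by norm_num))
    filter_upwards [h1, self_mem_nhdsWithin] with s hs hs0
    exact (hmain s hs0 hs).2
  have hlast := tendsto_nhds_unique (hI.congr' hIJ) hJ
  rw [← hlast, hFb, integral_indicator measurableSet_ball]

end Pool.MP_31392c_an
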