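import Pool.Agent.Lib.MP_31392c_an.Full.SpecC

/-!
# MP_31392c_an full proof: Cyc, the inverse of the cycloid function
-/

set_option autoImplicit false

open MeasureTheory Set Filter Topology

namespace Pool.MP_31392c_an

namespace CycAux

/-- the function `(θ - sin θ)/(1 - cos θ)` -/
noncomputable def cm (t : ℝ) : ℝ := cyN t / cyP t

lemma hasDerivAt_cyN (t : ℝ) : HasDerivAt cyN (cyP t) t := by
  unfold cyN cyP
  exact (hasDerivAt_id t).sub (Real.hasDerivAt_sin t)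

lemma hasDerivAt_cyP (t : ℝ) : HasDerivAt cyP (Real.sin t) t := by
  unfold cyP
  have h := (Real.hasDerivAt_cos t).const_sub 1
  rwa [neg_neg] at h

lemma hasDerivAt_cm (hC : CycPos) {t : ℝ} (ht : t ∈ Ioo (0 : ℝ) (2 * Real.pi)) :
    HasDerivAt cm ((cyP t ^ 2 - cyN t * Real.sin t) / cyP t ^ 2) t := by
  have h := (hasDerivAt_cyN t).div (hasDerivAt_cyP t) (hC t ht).1.ne'
  rw [show cyP t ^ 2 - cyN t * Real.sin t = cyP t * cyP t - cyN t * Real.sin t by ring]
  exact h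

lemma cm_deriv_pos (hC : CycPos) {t : ℝ} (ht : t ∈ Ioo (0 : ℝ) (2 * Real.pi)) :
    0 < (cyP t ^ 2 - cyN t * Real.sin t) / cyP t ^ 2 :=
  div_pos (hC t ht).2.2 (pow_pos (hC t ht).1 2)

lemma contDiff_cyN : ContDiff ℝ 2 cyN := by
  unfold cyN
  exact contDiff_id.sub Real.contDiff_sin

lemma contDiff_cyP : ContDiff ℝ 2 cyP := by
  unfold cyP
  exact contDiff_const.sub Real.contDiff_cos

lemma contDiffAt_cm (hC : CycPos) {t : ℝ} (ht : t ∈ Ioo (0 : ℝ) (2 * Real.pi)) :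
    ContDiffAt ℝ 2 cm t := by
  unfold cm
  exact contDiff_cyN.contDiffAt.div contDiff_cyP.contDiffAt (hC t ht).1.ne'

lemma cm_strictMonoOn (hC : CycPos) : StrictMonoOn cm (Ioo (0 : ℝ) (2 * Real.pi)) := by
  apply strictMonoOn_of_deriv_pos (convex_Ioo _ _)
  · intro t ht
    exact (hasDerivAt_cm hC ht).continuousAt.continuousWithinAt
  · intro t ht
    rw [interior_Ioo] at ht
    rw [(hasDerivAt_cm hC ht).deriv]
    exact cm_deriv_pos hC ht

/-- the function `cm` takes every positive value -/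
lemma exists_cm (hC : CycPos) {x : ℝ} (hx : 0 < x) :
    ∃ t ∈ Ioo (0 : ℝ) (2 * Real.pi), cyN t = x * cyP t := by
  have hpi := Real.pi_gt_three
  set t₀ := min (x / 2) 1 with ht₀
  have h0 : 0 < t₀ := lt_min (by linarith) one_pos
  have h1 : t₀ ≤ 1 := min_le_right _ _
  have hx2 : t₀ ≤ x / 2 := min_le_left _ _
  have h2 : t₀ ∈ Ioo (0 : ℝ) (2 * Real.pi) := ⟨h0, by linarith⟩
  have h3 : cyN t₀ < t₀ * cyP t₀ := by
    have h4 := Real.lt_tan h0 (by linarith)
    have h5 : 0 < Real.cos t₀ := Real.cos_pos_of_mem_Ioo ⟨by linarith, by linarith⟩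
    rw [Real.tan_eq_sin_div_cos, lt_div_iff₀ h5] at h4
    unfold cyN cyP
    linarith
  have h4 : cyN t₀ - x * cyP t₀ < 0 := by
    have h5 : t₀ * cyP t₀ ≤ x * cyP t₀ :=
      mul_le_mul_of_nonneg_right (by linarith) (hC t₀ h2).1.le
    linarith
  have h5 : 0 < cyN (2 * Real.pi) - x * cyP (2 * Real.pi) := by
    unfold cyN cyP
    rw [Real.sin_two_pi, Real.cos_two_pi]
    linarith
  have hcont : ContinuousOn (fun t => cyN t - x * cyP t) (Icc t₀ (2 * Real.pi)) :=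
    (contDiff_cyN.continuous.sub (continuous_const.mul contDiff_cyP.continuous)).continuousOn
  obtain ⟨t, ht, htx⟩ := intermediate_value_Ioo h2.2.le hcont
    (show (0 : ℝ) ∈ Ioo (cyN t₀ - x * cyP t₀) (cyN (2 * Real.pi) - x * cyP (2 * Real.pi)) from
      ⟨h4, h5⟩)
  refine ⟨t, ⟨h0.trans ht.1, ht.2⟩, ?_⟩
  simp only at htx
  linarith

end CycAux

open CycAux in
/-- **Cyc** -/
theorem s_Cyc : CycPos → Cyc := by
  intro hC
  have hex : ∀ x : ℝ, ∃ t : ℝ, 0 < x → t ∈ Ioo (0 : ℝ) (2 * Real.pi) ∧ cyN t = x * cyP t := by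
    intro x
    by_cases hx : 0 < x
    · obtain ⟨t, ht, h⟩ := exists_cm hC hx
      exact ⟨t, fun _ => ⟨ht, h⟩⟩
    · exact ⟨0, fun h => absurd h hx⟩
  choose Θ hΘ using hex
  have hcm : ∀ x, 0 < x → cm (Θ x) = x := by
    intro x hx
    obtain ⟨h1, h2⟩ := hΘ x hx
    unfold cm
    rw [h2]
    exact mul_div_cancel_right₀ x (hC _ h1).1.ne'
  refine ⟨Θ, ?_, ?_, ?_⟩
  · intro x hx
    exact ⟨(hΘ x hx).1.1, (hΘ x hx).1.2, (hΘ x hx).2⟩
  · intro x hx
    have hmem := (hΘ x hx).1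
    have hd := hasDerivAt_cm hC hmem
    have hpos := cm_deriv_pos hC hmem
    have hcd := contDiffAt_cm hC hmem
    have hf' : HasFDerivAt cm
        ((ContinuousLinearEquiv.unitsEquivAut ℝ (Units.mk0 _ hpos.ne') : ℝ ≃L[ℝ] ℝ) : ℝ →L[ℝ] ℝ)
        (Θ x) := hd.hasFDerivAt_equiv hpos.ne'
    have hinv := hcd.to_localInverse hf' (by norm_num)
    rw [hcm x hx] at hinv
    refine hinv.congr_of_eventuallyEq ?_
    have hs := hcd.hasStrictFDerivAt' hf' (by norm_num)
    have h1 := hs.eventually_right_inverse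
    have h2 := hs.localInverse_tendsto.eventually (isOpen_Ioo.mem_nhds hmem)
    rw [hcm x hx] at h1 h2
    filter_upwards [h1, h2, lt_mem_nhds hx] with y hy1 hy2 hy3
    have h3 := (hΘ y hy3).1
    apply (cm_strictMonoOn hC).injOn h3 hy2
    rw [hcm y hy3]
    exact hy1.symm
  · intro η hη
    have hpi := Real.pi_pos
    have ht : max (2 * Real.pi - η) Real.pi ∈ Ioo (0 : ℝ) (2 * Real.pi) :=
      ⟨lt_max_of_lt_right hpi, max_lt (by linarith) (by linarith)⟩
    refine ⟨cm (max (2 * Real.pi - η) Real.pi), div_pos (hC _ ht).2.1 (hC _ ht).1, ?_⟩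
    intro x hx
    have hx0 : 0 < x := (div_pos (hC _ ht).2.1 (hC _ ht).1).trans hx
    have h1 : max (2 * Real.pi - η) Real.pi < Θ x := by
      rw [← (cm_strictMonoOn hC).lt_iff_lt ht (hΘ x hx0).1, hcm x hx0]
      exact hx
    exact (le_max_left _ _).trans_lt h1

end Pool.MP_31392c_an
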