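import Mathlib
import Pool.Agent.Lib.MP_31392c_an.Full.SpecC

/-!
# MP_31392c_an full proof: CycPDE
-/

set_option autoImplicit false

open MeasureTheory Set Filter Topology Metric

namespace Pool.MP_31392c_an

namespace CycPDEaux

/-- the derivative of `fderiv f · v` exists if `f` is `C²` -/
theorem diff_dir (f : ℂ → ℝ) (z v : ℂ) (hf : ContDiffAt ℝ 2 f z) :
    DifferentiableAt ℝ (fun w => fderiv ℝ f w v) z := by
  have h1 : ContDiffAt ℝ 1 (fderiv ℝ f) z := hf.fderiv_right (by norm_num)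
  have h2 : DifferentiableAt ℝ (fderiv ℝ f) z := h1.differentiableAt (by norm_num)
  exact h2.clm_apply (differentiableAt_const v)

theorem first (l th T : ℂ → ℝ) (g g' : ℝ → ℝ) (z v : ℂ) (hg : ∀ x, HasDerivAt g (g' x) x)
    (hl : ContDiffAt ℝ 2 l z) (hth : ContDiffAt ℝ 2 th z)
    (hT : ∀ᶠ w in 𝓝 z, T w = Real.exp (l w) * g (th w)) :
    ∀ᶠ w in 𝓝 z, fderiv ℝ T w v = Real.exp (l w) *
      (g (th w) * fderiv ℝ l w v + g' (th w) * fderiv ℝ th w v) := by
  have h1 : ∀ᶠ w in 𝓝 z, ContDiffAt ℝ 2 l w := hl.eventually (by simp)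
  have h2 : ∀ᶠ w in 𝓝 z, ContDiffAt ℝ 2 th w := hth.eventually (by simp)
  filter_upwards [h1, h2, hT.eventually_nhds] with w h3 h4 h5
  have e1 : HasFDerivAt l (fderiv ℝ l w) w := (h3.differentiableAt (by norm_num)).hasFDerivAt
  have e2 : HasFDerivAt th (fderiv ℝ th w) w := (h4.differentiableAt (by norm_num)).hasFDerivAt
  have e3 := (e1.exp).mul ((hg (th w)).comp_hasFDerivAt w e2)
  have e4 : HasFDerivAt T _ w := e3.congr_of_eventuallyEq h5
  rw [e4.fderiv]
  simp only [add_apply, smul_apply, smul_eq_mul,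
    Function.comp_apply]
  ring

theorem second (l th T : ℂ → ℝ) (g g' g'' : ℝ → ℝ) (z v : ℂ) (hg : ∀ x, HasDerivAt g (g' x) x)
    (hg' : ∀ x, HasDerivAt g' (g'' x) x)
    (hl : ContDiffAt ℝ 2 l z) (hth : ContDiffAt ℝ 2 th z)
    (hT : ∀ᶠ w in 𝓝 z, T w = Real.exp (l w) * g (th w)) :
    fderiv ℝ (fun w => fderiv ℝ T w v) z v = Real.exp (l z) *
      (g (th z) * (fderiv ℝ l z v) ^ 2 + 2 * g' (th z) * (fderiv ℝ l z v * fderiv ℝ th z v) +
        g (th z) * fderiv ℝ (fun w => fderiv ℝ l w v) z v + g'' (th z) * (fderiv ℝ th z v) ^ 2 +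
        g' (th z) * fderiv ℝ (fun w => fderiv ℝ th w v) z v) := by
  have h0 := first l th T g g' z v hg hl hth hT
  have e1 : HasFDerivAt l (fderiv ℝ l z) z := (hl.differentiableAt (by norm_num)).hasFDerivAt
  have e2 : HasFDerivAt th (fderiv ℝ th z) z := (hth.differentiableAt (by norm_num)).hasFDerivAt
  have e3 := (diff_dir l z v hl).hasFDerivAt
  have e4 := (diff_dir th z v hth).hasFDerivAt
  have e5 := (e1.exp).mul ((((hg (th z)).comp_hasFDerivAt z e2).mul e3).add
    (((hg' (th z)).comp_hasFDerivAt z e2).mul e4))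
  have e6 : HasFDerivAt (fun w => fderiv ℝ T w v) _ z := e5.congr_of_eventuallyEq h0
  rw [e6.fderiv]
  simp only [add_apply, smul_apply, smul_eq_mul,
    Function.comp_apply, Pi.mul_apply, Pi.add_apply]
  ring

end CycPDEaux

open CycPDEaux in
theorem s_CycPDE : CycPDE := by
  intro l th T Q z Vz hl hth hz hT hQ hE1 hE2
  have hN : ∀ x, HasDerivAt cyN (cyP x) x := fun x => (hasDerivAt_id x).sub (Real.hasDerivAt_sin x)
  have hP : ∀ x, HasDerivAt cyP (Real.sin x) x := fun x => by
    have h := (Real.hasDerivAt_cos x).const_sub 1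
    rw [neg_neg] at h
    exact h
  have hS : ∀ x, HasDerivAt Real.sin (Real.cos x) x := fun x => Real.hasDerivAt_sin x
  have hTz := hT.self_of_nhds
  have hQz := hQ.self_of_nhds
  have T1 := fun v => (first l th T cyN cyP z v hN hl hth hT).self_of_nhds
  have Q1 := fun v => (first l th Q cyP Real.sin z v hP hl hth hQ).self_of_nhds
  have T2 := fun v => second l th T cyN cyP Real.sin z v hN hP hl hth hT
  have Q2 := fun v => second l th Q cyP Real.sin Real.cos z v hP hS hl hth hQ
  have t1 := T1 1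
  have tI := T1 Complex.I
  have q1 := Q1 1
  have qI := Q1 Complex.I
  have tt1 := T2 1
  have ttI := T2 Complex.I
  have qq1 := Q2 1
  have qqI := Q2 Complex.I
  unfold lap gp dX dY at hE1 hE2 ⊢
  rw [tt1, ttI, t1, tI, q1, qI, hQz] at hE1
  rw [qq1, qqI, t1, tI, q1, qI, hQz] at hE2
  have hp : 0 < cyP (th z) := by
    have h1 : 0 < Real.sin (th z / 2) := Real.sin_pos_of_pos_of_lt_pi (by linarith [hz.1])
      (by linarith [hz.2])
    have h2 : cyP (th z) = 2 * Real.sin (th z / 2) ^ 2 := by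
      have h3 := Real.cos_sq (th z / 2)
      have h4 := Real.sin_sq_add_cos_sq (th z / 2)
      have h5 : 2 * (th z / 2) = th z := by ring
      rw [h5] at h3
      unfold cyP
      linarith
    rw [h2]
    positivity
  have he : 0 < Real.exp (l z) := Real.exp_pos _
  have hsc := Real.sin_sq_add_cos_sq (th z)
  have hcp : Real.cos (th z) = 1 - cyP (th z) := by unfold cyP; ring
  rw [hcp] at hE2 hsc
  clear T1 Q1 T2 Q2 t1 tI q1 qI tt1 ttI qq1 qqI hT hQ hTz hQz hN hP hS hz hcp hl hth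
  generalize fderiv ℝ (fun w => fderiv ℝ l w 1) z 1 = l11 at *
  generalize fderiv ℝ (fun w => fderiv ℝ l w Complex.I) z Complex.I = lII at *
  generalize fderiv ℝ (fun w => fderiv ℝ th w 1) z 1 = t11 at *
  generalize fderiv ℝ (fun w => fderiv ℝ th w Complex.I) z Complex.I = tII at *
  generalize fderiv ℝ l z 1 = l1 at *
  generalize fderiv ℝ l z Complex.I = lI at *
  generalize fderiv ℝ th z 1 = th1 at *
  generalize fderiv ℝ th z Complex.I = thI at *
  generalize cyP (th z) = p at *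
  generalize cyN (th z) = n at *
  generalize Real.sin (th z) = s at *
  generalize Real.exp (l z) = e at *
  have hne : 2 * p * e ^ 2 ≠ 0 := by positivity
  refine mul_left_cancel₀ hne ?_
  linear_combination p * hE2 - 2 * s * hE1 -
    e ^ 2 * (2 * n * (l1 * th1 + lI * thI) - p * (th1 ^ 2 + thI ^ 2)) * hsc

end Pool.MP_31392c_an
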