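import Mathlib
import Pool.Agent.Lib.MP_31392c_an.Full.SpecC

/-!
# MP_31392c_an full proof: positivity of the cycloid quantities
-/

set_option autoImplicit false

open MeasureTheory Set Filter Topology Metric

namespace Pool.MP_31392c_an

namespace CycPos

theorem sin_sub_mul_cos_pos (x : ℝ) (h0 : 0 < x) (h1 : x < Real.pi) :
    0 < Real.sin x - x * Real.cos x := by
  have hs : 0 < Real.sin x := Real.sin_pos_of_pos_of_lt_pi h0 h1
  rcases lt_or_ge x (Real.pi / 2) with h | h
  · have hc : 0 < Real.cos x := Real.cos_pos_of_mem_Ioo ⟨by linarith, h⟩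
    have ht := Real.lt_tan h0 h
    rw [Real.tan_eq_sin_div_cos, lt_div_iff₀ hc] at ht
    linarith
  · have hc : Real.cos x ≤ 0 :=
      Real.cos_nonpos_of_pi_div_two_le_of_le h (by linarith [Real.pi_pos])
    nlinarith

end CycPos

open CycPos in
theorem s_CycPos : CycPos := by
  intro t ht
  obtain ⟨h0, h1⟩ := ht
  have hp : 0 < cyP t := by
    unfold cyP
    have hne : Real.cos t ≠ 1 := by
      intro h
      have := (Real.cos_eq_one_iff_of_lt_of_lt (by linarith [Real.pi_pos]) h1).1 h
      linarith
    have := lt_of_le_of_ne (Real.cos_le_one t) hne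
    linarith
  refine ⟨hp, ?_, ?_⟩
  · unfold cyN
    have := Real.sin_lt h0
    linarith
  · have hx0 : 0 < t / 2 := by linarith
    have hx1 : t / 2 < Real.pi := by linarith
    have hs : 0 < Real.sin (t / 2) := Real.sin_pos_of_pos_of_lt_pi hx0 hx1
    have hq := sin_sub_mul_cos_pos (t / 2) hx0 hx1
    have hsq := Real.sin_sq_add_cos_sq (t / 2)
    have e1 : Real.sin t = 2 * Real.sin (t / 2) * Real.cos (t / 2) := by
      rw [← Real.sin_two_mul]; congr 1; ring
    have e2 : Real.cos t = 1 - 2 * Real.sin (t / 2) ^ 2 := by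
      have h := Real.cos_two_mul (t / 2)
      have h3 : 2 * (t / 2) = t := by ring
      rw [h3] at h
      rw [h]
      linarith
    have key : cyP t ^ 2 - cyN t * Real.sin t
        = 4 * Real.sin (t / 2) * (Real.sin (t / 2) - t / 2 * Real.cos (t / 2)) := by
      unfold cyP cyN
      rw [e1, e2]
      have hc2 : Real.cos (t / 2) ^ 2 = 1 - Real.sin (t / 2) ^ 2 := by linarith
      ring_nf
      ring_nf at hc2
      rw [hc2]
      ring
    rw [key]
    positivity

end Pool.MP_31392c_an
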