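import Pool.Agent.Lib.MP_31392c_an.Full.SpecD

/-!
# MP_31392c_an full proof: the Green function of the disc with a potential
-/

set_option autoImplicit false

open MeasureTheory Set Filter Topology Metric

namespace Pool.MP_31392c_an

namespace DiscGreen

/-- the logarithm of the norm in coordinates -/
lemma log_norm_eq (z : ℂ) : Real.log ‖z‖ = (1 / 2) * Real.log (z.re ^ 2 + z.im ^ 2) := by
  have h : ‖z‖ = Real.sqrt (z.re ^ 2 + z.im ^ 2) := by
    rw [Complex.norm_def, Complex.normSq_apply]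
    ring_nf
  rw [h, Real.log_sqrt (by positivity)]
  ring

lemma sq_pos {z : ℂ} (hz : z ≠ 0) : 0 < z.re ^ 2 + z.im ^ 2 := by
  have h : Complex.normSq z = z.re ^ 2 + z.im ^ 2 := by
    rw [Complex.normSq_apply]; ring
  rw [← h]
  exact Complex.normSq_pos.mpr hz

lemma hasFDerivAt_re (z : ℂ) : HasFDerivAt (fun w : ℂ => w.re) (Complex.reCLM : ℂ →L[ℝ] ℝ) z :=
  Complex.reCLM.hasFDerivAt

lemma hasFDerivAt_im (z : ℂ) : HasFDerivAt (fun w : ℂ => w.im) (Complex.imCLM : ℂ →L[ℝ] ℝ) z :=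
  Complex.imCLM.hasFDerivAt

lemma hasFDerivAt_sq (z : ℂ) : HasFDerivAt (fun w : ℂ => w.re ^ 2 + w.im ^ 2)
    ((2 * z.re) • (Complex.reCLM : ℂ →L[ℝ] ℝ) + (2 * z.im) • (Complex.imCLM : ℂ →L[ℝ] ℝ)) z := by
  have h1 := (hasFDerivAt_re z).pow 2
  have h2 := (hasFDerivAt_im z).pow 2
  have h := h1.add h2
  refine h.congr_fderiv ?_
  ext <;> simp

lemma hasFDerivAt_log {z : ℂ} (hz : z ≠ 0) : HasFDerivAt (fun w : ℂ => Real.log ‖w‖)
    ((z.re / (z.re ^ 2 + z.im ^ 2)) • (Complex.reCLM : ℂ →L[ℝ] ℝ) +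
      (z.im / (z.re ^ 2 + z.im ^ 2)) • (Complex.imCLM : ℂ →L[ℝ] ℝ)) z := by
  have hp := sq_pos hz
  have h := ((hasFDerivAt_sq z).log hp.ne').const_mul (1 / 2 : ℝ)
  have he : (fun w : ℂ => Real.log ‖w‖) =
      fun w : ℂ => (1 / 2 : ℝ) * Real.log (w.re ^ 2 + w.im ^ 2) := by
    funext w; exact log_norm_eq w
  rw [he]
  refine h.congr_fderiv ?_
  ext
  · simp
    field_simp

lemma dX_log {z : ℂ} (hz : z ≠ 0) : dX (fun w : ℂ => Real.log ‖w‖) z =
    z.re / (z.re ^ 2 + z.im ^ 2) := by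
  unfold dX
  rw [(hasFDerivAt_log hz).fderiv]
  simp

lemma dY_log {z : ℂ} (hz : z ≠ 0) : dY (fun w : ℂ => Real.log ‖w‖) z =
    z.im / (z.re ^ 2 + z.im ^ 2) := by
  unfold dY
  rw [(hasFDerivAt_log hz).fderiv]
  simp

lemma lap_log {z : ℂ} (hz : z ≠ 0) : lap (fun w : ℂ => Real.log ‖w‖) z = 0 := by
  have hp := sq_pos hz
  have hev : ∀ᶠ w in 𝓝 z, w ≠ 0 := isOpen_ne.mem_nhds hz
  have e1 : dX (fun w : ℂ => Real.log ‖w‖) =ᶠ[𝓝 z]
      fun w => w.re / (w.re ^ 2 + w.im ^ 2) := by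
    filter_upwards [hev] with w hw using dX_log hw
  have e2 : dY (fun w : ℂ => Real.log ‖w‖) =ᶠ[𝓝 z]
      fun w => w.im / (w.re ^ 2 + w.im ^ 2) := by
    filter_upwards [hev] with w hw using dY_log hw
  unfold lap
  have h1 : dX (dX (fun w : ℂ => Real.log ‖w‖)) z =
      (z.im ^ 2 - z.re ^ 2) / (z.re ^ 2 + z.im ^ 2) ^ 2 := by
    unfold dX at e1 ⊢
    rw [e1.fderiv_eq]
    have hi := (hasDerivAt_inv hp.ne').comp_hasFDerivAt z (hasFDerivAt_sq z)
    have hd := (hasFDerivAt_re z).mul hi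
    have : (fun w : ℂ => w.re / (w.re ^ 2 + w.im ^ 2)) =
        (fun w : ℂ => w.re) * (Inv.inv ∘ fun w : ℂ => w.re ^ 2 + w.im ^ 2) := by
      funext w; simp [div_eq_mul_inv]
    rw [this, hd.fderiv]
    simp
    field_simp
    ring
  have h2 : dY (dY (fun w : ℂ => Real.log ‖w‖)) z =
      (z.re ^ 2 - z.im ^ 2) / (z.re ^ 2 + z.im ^ 2) ^ 2 := by
    unfold dY at e2 ⊢
    rw [e2.fderiv_eq]
    have hi := (hasDerivAt_inv hp.ne').comp_hasFDerivAt z (hasFDerivAt_sq z)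
    have hd := (hasFDerivAt_im z).mul hi
    have : (fun w : ℂ => w.im / (w.re ^ 2 + w.im ^ 2)) =
        (fun w : ℂ => w.im) * (Inv.inv ∘ fun w : ℂ => w.re ^ 2 + w.im ^ 2) := by
      funext w; simp [div_eq_mul_inv]
    rw [this, hd.fderiv]
    simp
    field_simp
    ring
  rw [h1, h2]
  ring

lemma contDiffAt_log {z : ℂ} (hz : z ≠ 0) (n : WithTop ℕ∞) :
    ContDiffAt ℝ n (fun w : ℂ => Real.log ‖w‖) z :=
  (contDiffAt_norm ℝ hz).log (norm_ne_zero_iff.mpr hz)

lemma dX_congr {f g : ℂ → ℝ} {z : ℂ} (h : f =ᶠ[𝓝 z] g) : dX f =ᶠ[𝓝 z] dX g := by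
  filter_upwards [h.fderiv (𝕜 := ℝ)] with w hw
  unfold dX
  rw [hw]

lemma dY_congr {f g : ℂ → ℝ} {z : ℂ} (h : f =ᶠ[𝓝 z] g) : dY f =ᶠ[𝓝 z] dY g := by
  filter_upwards [h.fderiv (𝕜 := ℝ)] with w hw
  unfold dY
  rw [hw]

lemma lap_congr {f g : ℂ → ℝ} {z : ℂ} (h : f =ᶠ[𝓝 z] g) : lap f z = lap g z := by
  unfold lap
  have h1 := (dX_congr (dX_congr h)).eq_of_nhds
  have h2 := (dY_congr (dY_congr h)).eq_of_nhds
  rw [h1, h2]

lemma lap_sub {f g : ℂ → ℝ} {z : ℂ} (hf : ContDiffAt ℝ 2 f z) (hg : ContDiffAt ℝ 2 g z) :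
    lap (fun w => f w - g w) z = lap f z - lap g z := by
  have ef : ∀ᶠ w in 𝓝 z, DifferentiableAt ℝ f w := by
    filter_upwards [hf.eventually (by simp)] with w hw using hw.differentiableAt (by simp)
  have eg : ∀ᶠ w in 𝓝 z, DifferentiableAt ℝ g w := by
    filter_upwards [hg.eventually (by simp)] with w hw using hw.differentiableAt (by simp)
  have ff : DifferentiableAt ℝ (fderiv ℝ f) z :=
    (hf.fderiv_right (m := 1) (by norm_num)).differentiableAt (by simp)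
  have fg : DifferentiableAt ℝ (fderiv ℝ g) z :=
    (hg.fderiv_right (m := 1) (by norm_num)).differentiableAt (by simp)
  have main : ∀ e : ℂ, fderiv ℝ (fun w => fderiv ℝ (fun y => f y - g y) w e) z e =
      fderiv ℝ (fun w => fderiv ℝ f w e) z e - fderiv ℝ (fun w => fderiv ℝ g w e) z e := by
    intro e
    have he : (fun w => fderiv ℝ (fun y => f y - g y) w e) =ᶠ[𝓝 z]
        fun w => fderiv ℝ f w e - fderiv ℝ g w e := by
      filter_upwards [ef, eg] with w h1 h2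
      rw [fderiv_fun_sub h1 h2]
      rfl
    rw [he.fderiv_eq, fderiv_fun_sub (ff.clm_apply (differentiableAt_const e))
      (fg.clm_apply (differentiableAt_const e))]
    rfl
  unfold lap dX dY
  rw [main 1, main Complex.I]
  ring

lemma preconn : IsPreconnected {z : ℂ | z ≠ 0 ∧ ‖z‖ < 1} := by
  have h : {z : ℂ | z ≠ 0 ∧ ‖z‖ < 1} =
      (fun p : ℝ × ℝ => (p.1 : ℂ) * Complex.exp ((p.2 : ℂ) * Complex.I)) ''
        (Ioo (0 : ℝ) 1 ×ˢ (univ : Set ℝ)) := by
    ext z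
    constructor
    · rintro ⟨h0, h1⟩
      refine ⟨(‖z‖, Complex.arg z), ⟨⟨norm_pos_iff.mpr h0, h1⟩, mem_univ _⟩, ?_⟩
      exact Complex.norm_mul_exp_arg_mul_I z
    · rintro ⟨⟨r, t⟩, ⟨⟨h0, h1⟩, _⟩, rfl⟩
      have hn : ‖(r : ℂ) * Complex.exp ((t : ℂ) * Complex.I)‖ = r := by
        rw [norm_mul, Complex.norm_exp_ofReal_mul_I, mul_one, Complex.norm_real, Real.norm_eq_abs,
          abs_of_pos h0]
      refine ⟨?_, ?_⟩
      · intro h
        rw [← norm_eq_zero, hn] at h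
        exact h0.ne' h
      · show ‖(r : ℂ) * Complex.exp ((t : ℂ) * Complex.I)‖ < 1
        rw [hn]
        exact h1
  rw [h]
  refine IsPreconnected.image (isPreconnected_Ioo.prod isPreconnected_univ) _ ?_
  refine Continuous.continuousOn ?_
  fun_prop

/-- the Green function is nonnegative -/
lemma nonneg_of (hM : MaxPr) {V a : ℂ → ℝ} (hV0 : ∀ z, 0 ≤ V z)
    (hac : ContinuousOn a (closedBall 0 1)) (ha1 : ∀ z, ‖z‖ = 1 → a z = 0)
    (haC : ∀ z ∈ ball (0 : ℂ) 1, ContDiffAt ℝ 2 a z ∧ lap a z = V z * (a z - Real.log ‖z‖))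
    {C : ℝ} (hC : ∀ z ∈ closedBall (0 : ℂ) 1, |a z| ≤ C) :
    ∀ z, z ≠ 0 → ‖z‖ < 1 → 0 ≤ a z - Real.log ‖z‖ := by
  intro z hz0 hz1
  have hzp : 0 < ‖z‖ := norm_pos_iff.mpr hz0
  set δ : ℝ := min (‖z‖ / 2) (Real.exp (-C)) with hδ
  have hδ0 : 0 < δ := lt_min (by positivity) (Real.exp_pos _)
  have hδz : δ < ‖z‖ := lt_of_le_of_lt (min_le_left _ _) (by linarith)
  have hδC : Real.log δ ≤ -C := by
    have : Real.log δ ≤ Real.log (Real.exp (-C)) := Real.log_le_log hδ0 (min_le_right _ _)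
    rwa [Real.log_exp] at this
  set Ω : Set ℂ := {w | δ < ‖w‖ ∧ ‖w‖ < 1} with hΩ
  have hop : IsOpen Ω := (isOpen_lt continuous_const continuous_norm).inter
    (isOpen_lt continuous_norm continuous_const)
  have hcl : closure Ω ⊆ {w | δ ≤ ‖w‖ ∧ ‖w‖ ≤ 1} := by
    apply closure_minimal
    · rintro w ⟨h1, h2⟩
      exact ⟨h1.le, h2.le⟩
    · exact (isClosed_le continuous_const continuous_norm).inter
        (isClosed_le continuous_norm continuous_const)
  have hbd : Bornology.IsBounded Ω := by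
    refine (isBounded_ball (x := (0 : ℂ)) (r := 1)).subset ?_
    rintro w ⟨_, h2⟩
    simpa using h2
  have hfr : ∀ w ∈ frontier Ω, ‖w‖ = δ ∨ ‖w‖ = 1 := by
    intro w hw
    rw [hop.frontier_eq] at hw
    obtain ⟨h1, h2⟩ := hw
    obtain ⟨h3, h4⟩ := hcl h1
    by_contra hne
    push Not at hne
    exact h2 ⟨lt_of_le_of_ne h3 (Ne.symm hne.1), lt_of_le_of_ne h4 hne.2⟩
  have hcont : ContinuousOn (fun w => Real.log ‖w‖ - a w) (closure Ω) := by
    apply ContinuousOn.sub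
    · intro w hw
      have : w ≠ 0 := by
        intro h
        have := (hcl hw).1
        rw [h, norm_zero] at this
        linarith
      exact (contDiffAt_log this 0).continuousAt.continuousWithinAt
    · refine hac.mono ?_
      intro w hw
      simpa using (hcl hw).2
  have key := hM Ω (fun w => Real.log ‖w‖ - a w) hop hbd hcont ?_ ?_ z ⟨hδz, hz1⟩
  · linarith
  · intro w hw
    rcases hfr w hw with h | h
    · have h1 : ‖w‖ ≤ 1 := by rw [h]; linarith
      have := abs_le.mp (hC w (by simpa using h1))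
      rw [h]
      linarith [this.1]
    · rw [h, ha1 w h]
      simp
  · rintro w ⟨h1, h2⟩ hpos
    have hw0 : w ≠ 0 := by
      intro h
      rw [h, norm_zero] at h1
      linarith
    have hwb : w ∈ ball (0 : ℂ) 1 := by simpa using h2
    obtain ⟨c1, c2⟩ := haC w hwb
    refine ⟨(contDiffAt_log hw0 2).sub c1, ?_⟩
    rw [lap_sub (contDiffAt_log hw0 2) c1, lap_log hw0, c2]
    have : 0 ≤ V w * (Real.log ‖w‖ - a w) := mul_nonneg (hV0 w) hpos.le
    nlinarith

end DiscGreen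

theorem s_DiscGreen : Fred → GDprop → MaxPr → StrongMP → DiscGreen := by
  intro hF hG hM hS V r₀ r₁ hV hV0 hr1 hr0 hr01 hVo hVi
  obtain ⟨g1, g2, g3, g4, -⟩ := hG r₀ hr0 hr01
  -- the density with the logarithm
  have hρ1 : ContDiff ℝ 1 (fun w => V w * Real.log ‖w‖) := by
    rw [contDiff_iff_contDiffAt]
    intro w
    by_cases hw : w = 0
    · have hev : (fun w => V w * Real.log ‖w‖) =ᶠ[𝓝 w] fun _ => (0 : ℝ) := by
        have : ball (0 : ℂ) r₁ ∈ 𝓝 w := by rw [hw]; exact ball_mem_nhds _ hr1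
        filter_upwards [this] with y hy
        have hy' : ‖y‖ ≤ r₁ := by
          have : ‖y‖ < r₁ := by simpa using hy
          exact this.le
        rw [hVi y hy', zero_mul]
      exact contDiffAt_const.congr_of_eventuallyEq hev
    · exact (hV.contDiffAt).mul (DiscGreen.contDiffAt_log hw 1)
  have hsupp : ∀ f : ℂ → ℝ, HasCompactSupport (fun w => V w * f w) := by
    intro f
    refine HasCompactSupport.intro (isCompact_closedBall (0 : ℂ) r₀) ?_
    intro w hw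
    have : r₀ ≤ ‖w‖ := by
      rw [mem_closedBall, dist_zero_right, not_le] at hw
      exact hw.le
    rw [hVo w this, zero_mul]
  have hmul : ∀ z : ℂ, ‖z‖ ≤ 1 → ‖z‖ * r₀ < 1 := by
    intro z hz
    nlinarith [norm_nonneg z]
  have hzero1 : ∀ w : ℂ, r₀ ≤ ‖w‖ → V w * Real.log ‖w‖ = 0 := fun w hw => by
    rw [hVo w hw, zero_mul]
  have hgc : ContinuousOn (gD (fun w => V w * Real.log ‖w‖)) (closedBall 0 1) := by
    intro z hz
    have hz' : ‖z‖ ≤ 1 := by simpa using hz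
    exact (g1 _ hρ1.continuous hzero1 z (hmul z hz')).continuousAt.continuousWithinAt
  obtain ⟨a, hac, haeq⟩ := hF V r₀ hV hV0 hr0 hr01 hVo _ hgc
  -- regularity away from the inner disc
  have hfar : ∀ (f : ℂ → ℝ) (w : ℂ), r₀ < ‖w‖ → (fun y => V y * f y) =ᶠ[𝓝 w] fun _ => (0 : ℝ) := by
    intro f w hw
    filter_upwards [(isOpen_lt continuous_const continuous_norm).mem_nhds hw] with y hy
    rw [hVo y (le_of_lt hy), zero_mul]
  have hρ2c : Continuous (fun w => V w * a w) := by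
    rw [continuous_iff_continuousAt]
    intro w
    rcases lt_or_ge r₀ ‖w‖ with hw | hw
    · exact (continuousAt_const).congr (hfar a w hw).symm
    · refine hV.continuous.continuousAt.mul (hac.continuousAt ?_)
      exact closedBall_mem_nhds_of_mem (by simpa using lt_of_le_of_lt hw hr01)
  have hzero2 : ∀ w : ℂ, r₀ ≤ ‖w‖ → V w * a w = 0 := fun w hw => by rw [hVo w hw, zero_mul]
  have hlin := g4 (fun w => V w * Real.log ‖w‖) (fun w => V w * a w) (-1) hρ1.continuous hρ2c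
    (hsupp _) (hsupp _)
  have hae : ∀ z ∈ closedBall (0 : ℂ) 1,
      a z = gD (fun w => V w * Real.log ‖w‖ + (-1) * (V w * a w)) z := by
    intro z hz
    rw [hlin z]
    have := haeq z hz
    linarith
  have hzero : ∀ w : ℂ, r₀ ≤ ‖w‖ → V w * Real.log ‖w‖ + (-1) * (V w * a w) = 0 := fun w hw => by
    rw [hVo w hw]; ring
  have hev : ∀ z ∈ ball (0 : ℂ) 1,
      a =ᶠ[𝓝 z] gD (fun w => V w * Real.log ‖w‖ + (-1) * (V w * a w)) := by
    intro z hz
    filter_upwards [isOpen_ball.mem_nhds hz] with y hy using hae y (ball_subset_closedBall hy)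
  have hballn : ∀ z ∈ ball (0 : ℂ) 1, ‖z‖ ≤ 1 := by
    intro z hz
    have : ‖z‖ < 1 := by simpa using hz
    exact this.le
  have hcρ : Continuous (fun w => V w * Real.log ‖w‖ + (-1) * (V w * a w)) :=
    hρ1.continuous.add (continuous_const.mul hρ2c)
  have ha1 : ∀ z ∈ ball (0 : ℂ) 1, ContDiffAt ℝ 1 a z := by
    intro z hz
    exact (g1 _ hcρ hzero z (hmul z (hballn z hz))).congr_of_eventuallyEq (hev z hz)
  have hρ2 : ContDiff ℝ 1 (fun w => V w * a w) := by
    rw [contDiff_iff_contDiffAt]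
    intro w
    rcases lt_or_ge r₀ ‖w‖ with hw | hw
    · exact contDiffAt_const.congr_of_eventuallyEq (hfar a w hw)
    · exact hV.contDiffAt.mul (ha1 w (by simpa using lt_of_le_of_lt hw hr01))
  have hCρ : ContDiff ℝ 1 (fun w => V w * Real.log ‖w‖ + (-1) * (V w * a w)) :=
    hρ1.add (contDiff_const.mul hρ2)
  have haC : ∀ z ∈ ball (0 : ℂ) 1,
      ContDiffAt ℝ 2 a z ∧ lap a z = V z * (a z - Real.log ‖z‖) := by
    intro z hz
    obtain ⟨h1, h2⟩ := g2 _ hCρ hzero z (hmul z (hballn z hz))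
    refine ⟨h1.congr_of_eventuallyEq (hev z hz), ?_⟩
    rw [DiscGreen.lap_congr (hev z hz), h2]
    ring
  have hacirc : ∀ z : ℂ, ‖z‖ = 1 → a z = 0 := by
    intro z hz
    rw [hae z (by simp [hz])]
    exact g3 _ z hz
  obtain ⟨C, hC⟩ := (isCompact_closedBall (0 : ℂ) 1).exists_bound_of_continuousOn hac
  have hC' : ∀ z ∈ closedBall (0 : ℂ) 1, |a z| ≤ C := fun z hz => by
    have := hC z hz
    rwa [Real.norm_eq_abs] at this
  have hnn := DiscGreen.nonneg_of hM hV0 hac hacirc haC hC'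
  refine ⟨a, hac, hacirc, haC, ?_⟩
  obtain ⟨Λ, hΛ⟩ := (isCompact_closedBall (0 : ℂ) 1).exists_bound_of_continuousOn
    hV.continuous.continuousOn
  have hst := hS {z : ℂ | z ≠ 0 ∧ ‖z‖ < 1} V (fun z => a z - Real.log ‖z‖) Λ
    (isOpen_ne.inter (isOpen_lt continuous_norm continuous_const)) DiscGreen.preconn
    (fun z hz => ⟨hV0 z, le_trans (le_abs_self _) (by
      have := hΛ z (by simpa using hz.2.le)
      rwa [Real.norm_eq_abs] at this)⟩)
    (fun z hz => by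
      have hzb : z ∈ ball (0 : ℂ) 1 := by simpa using hz.2
      obtain ⟨c1, c2⟩ := haC z hzb
      refine ⟨c1.sub (DiscGreen.contDiffAt_log hz.1 2), ?_⟩
      rw [DiscGreen.lap_sub c1 (DiscGreen.contDiffAt_log hz.1 2), DiscGreen.lap_log hz.1, c2,
        sub_zero])
    (fun z hz => hnn z hz.1 hz.2)
  rcases hst with h | h
  · exfalso
    set δ : ℝ := min (1 / 2) (Real.exp (-(C + 1))) with hδ
    have hδ0 : 0 < δ := lt_min (by norm_num) (Real.exp_pos _)
    have hδ1 : δ < 1 := lt_of_le_of_lt (min_le_left _ _) (by norm_num)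
    have hδC : Real.log δ ≤ -(C + 1) := by
      have : Real.log δ ≤ Real.log (Real.exp (-(C + 1))) :=
        Real.log_le_log hδ0 (min_le_right _ _)
      rwa [Real.log_exp] at this
    have hn : ‖(δ : ℂ)‖ = δ := by
      rw [Complex.norm_real, Real.norm_eq_abs, abs_of_pos hδ0]
    have h1 := h (δ : ℂ) ⟨by exact_mod_cast hδ0.ne', by rw [hn]; exact hδ1⟩
    rw [hn] at h1
    have h2 := abs_le.mp (hC' (δ : ℂ) (by
      rw [mem_closedBall, dist_zero_right, hn]
      exact hδ1.le))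
    linarith [h2.1]
  · intro z hz0 hz1
    exact h z ⟨hz0, hz1⟩

end Pool.MP_31392c_an
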