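import Pool.Agent.Lib.MP_31392c_an.Full.SpecB

set_option autoImplicit false

open MeasureTheory Set Filter Topology

namespace Pool.MP_31392c_an

private theorem divZero_aux (p : ℂ → ℝ) (v : ℂ) (hp : ContDiff ℝ 1 p) (hc : HasCompactSupport p) :
    Integrable (fun z => fderiv ℝ p z v) ∧ ∫ z, fderiv ℝ p z v = 0 := by
  have hcont : Continuous (fun z => fderiv ℝ p z v) :=
    (hp.continuous_fderiv one_ne_zero).clm_apply continuous_const
  have hcs : HasCompactSupport (fun z => fderiv ℝ p z v) := by
    have h1 := hc.fderiv ℝ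
    exact h1.comp_left (g := fun L : ℂ →L[ℝ] ℝ => L v) rfl
  have hint : Integrable (fun z => fderiv ℝ p z v) := hcont.integrable_of_hasCompactSupport hcs
  have hpint : Integrable p := hp.continuous.integrable_of_hasCompactSupport hc
  refine ⟨hint, ?_⟩
  have h := integral_mul_fderiv_eq_neg_fderiv_mul_of_integrable (μ := (volume : Measure ℂ))
    (f := fun _ : ℂ => (1 : ℝ)) (g := p) (v := v)
    (by simp) (by simpa using hint) (by simpa using hpint)
    (fun _ _ => differentiableAt_const _) (fun _ _ => hp.differentiable (by norm_num) _)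
  simpa using h

theorem s_DivZero : DivZero := by
  intro p q hp hq hpc hqc
  obtain ⟨i1, e1⟩ := divZero_aux p 1 hp hpc
  obtain ⟨i2, e2⟩ := divZero_aux q Complex.I hq hqc
  have : ∫ z, (dX p z + dY q z) = (∫ z, fderiv ℝ p z 1) + ∫ z, fderiv ℝ q z Complex.I :=
    integral_add i1 i2
  rw [this, e1, e2, add_zero]

end Pool.MP_31392c_an
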