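import Pool.Agent.Lib.MP_31392c_an.Full.SpecZ
import Pool.Agent.Lib.MP_31392c_an.Fek

/-!
# MP_31392c_an full proof: FekLink (the Perron capacity is at most the transfinite diameter)
-/

set_option autoImplicit false

open MeasureTheory Set Filter Topology Metric

namespace Pool.MP_31392c_an

namespace FekLink

/-- The Laplacian of Mathlib. -/
lemma lap_eq (f : ℂ → ℝ) (z : ℂ) (hf : ContDiffAt ℝ 2 f z) : Laplacian.laplacian f z = lap f z := by
  have hd : DifferentiableAt ℝ (fderiv ℝ f) z :=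
    (hf.fderiv_right (m := 1) (by norm_num)).differentiableAt (by norm_num)
  have key : ∀ e : ℂ, fderiv ℝ (fderiv ℝ f) z e e = fderiv ℝ (fun w => fderiv ℝ f w e) z e := by
    intro e
    have h := fderiv_clm_apply (c := fderiv ℝ f) (u := fun _ => e) hd
      (differentiableAt_const e)
    have h' : fderiv ℝ (fun w => fderiv ℝ f w e) z =
        (fderiv ℝ f z).comp (fderiv ℝ (fun _ => e) z) + (fderiv ℝ (fderiv ℝ f) z).flip e := h
    rw [h']
    simp
  rw [InnerProductSpace.laplacian_eq_iteratedFDeriv_complexPlane]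
  simp only [iteratedFDeriv_two_apply, Matrix.cons_val_zero, Matrix.cons_val_one]
  rw [key, key]
  rfl

/-- The polynomial with the zeros `z j`. -/
noncomputable def pol {N : ℕ} (z : Fin N → ℂ) (w : ℂ) : ℂ := ∏ j, (w - z j)

/-- The logarithm of the normalised polynomial. -/
noncomputable def lg {N : ℕ} (z : Fin N → ℂ) (d : ℝ) (w : ℂ) : ℝ :=
  (1 / (N : ℝ)) * Real.log ‖pol z w‖ - Real.log d

/-- The competitor. -/
noncomputable def fv {N : ℕ} (z : Fin N → ℂ) (d : ℝ) (w : ℂ) : ℝ :=
  (1 / (N : ℝ)) * Real.log (max 1 (‖pol z w‖ / d ^ N))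

lemma pol_continuous {N : ℕ} (z : Fin N → ℂ) : Continuous (pol z) := by
  unfold pol
  fun_prop

lemma fv_continuous {N : ℕ} (z : Fin N → ℂ) (d : ℝ) : Continuous (fv z d) := by
  unfold fv
  refine continuous_const.mul (Continuous.log ?_ ?_)
  · exact continuous_const.max ((pol_continuous z).norm.div_const _)
  · intro w
    exact (lt_of_lt_of_le one_pos (le_max_left _ _)).ne'

lemma fv_nonneg {N : ℕ} (z : Fin N → ℂ) (d : ℝ) (w : ℂ) : 0 ≤ fv z d w := by
  unfold fv
  exact mul_nonneg (by positivity) (Real.log_nonneg (le_max_left _ _))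

lemma fv_eq {N : ℕ} (hN : 0 < N) (z : Fin N → ℂ) {d : ℝ} (hd : 0 < d) (w : ℂ)
    (hw : pol z w ≠ 0) : fv z d w = max (lg z d w) 0 := by
  have hp : 0 < ‖pol z w‖ := norm_pos_iff.2 hw
  have hq : 0 < ‖pol z w‖ / d ^ N := by positivity
  have hN' : (0 : ℝ) < N := by exact_mod_cast hN
  have h1 : (1 / (N : ℝ)) * Real.log (‖pol z w‖ / d ^ N) = lg z d w := by
    unfold lg
    rw [Real.log_div hp.ne' (by positivity), Real.log_pow]
    field_simp
  unfold fv
  rcases le_total 1 (‖pol z w‖ / d ^ N) with h | h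
  · rw [max_eq_right h, h1, max_eq_left]
    rw [← h1]
    exact mul_nonneg (by positivity) (Real.log_nonneg h)
  · rw [max_eq_left h, Real.log_one, mul_zero, max_eq_right]
    rw [← h1]
    exact mul_nonpos_of_nonneg_of_nonpos (by positivity) (Real.log_nonpos hq.le h)

lemma lg_harmonic {N : ℕ} (z : Fin N → ℂ) (d : ℝ) (w : ℂ) (hw : pol z w ≠ 0) :
    InnerProductSpace.HarmonicAt (lg z d) w := by
  have ha : AnalyticAt ℂ (pol z) w := by
    unfold pol
    fun_prop
  have h1 := (ha.harmonicAt_log_norm hw).const_smul (c := (1 / (N : ℝ)))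
  have h2 := h1.sub (InnerProductSpace.harmonicAt_const (x := w) (Real.log d))
  exact h2

lemma log_diff (a : ℂ) :
    Tendsto (fun w : ℂ => Real.log ‖w - a‖ - Real.log ‖w‖) (cocompact ℂ) (𝓝 0) := by
  have h1 : Tendsto (fun w : ℂ => ‖1 - a * w⁻¹‖) (cocompact ℂ) (𝓝 1) := by
    have h2 : Tendsto (fun w : ℂ => w⁻¹) (cocompact ℂ) (𝓝 0) := by
      rw [← Metric.cobounded_eq_cocompact]
      exact tendsto_inv₀_cobounded
    have h3 : Tendsto (fun w : ℂ => ‖1 - a * w⁻¹‖) (cocompact ℂ) (𝓝 ‖(1 : ℂ) - a * 0‖) :=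
      (tendsto_const_nhds.sub (h2.const_mul a)).norm
    simpa using h3
  have h2 : Tendsto (fun w : ℂ => Real.log ‖1 - a * w⁻¹‖) (cocompact ℂ) (𝓝 0) := by
    have := (Real.continuousAt_log (one_ne_zero)).tendsto.comp h1
    rwa [Real.log_one] at this
  refine h2.congr' ?_
  have hne : ∀ b : ℂ, ∀ᶠ w : ℂ in cocompact ℂ, w ≠ b := by
    intro b
    have := (isCompact_singleton (x := b)).compl_mem_cocompact
    filter_upwards [this] with w hw
    exact hw
  filter_upwards [hne 0, hne a] with w h0 ha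
  rw [← Real.log_div (norm_ne_zero_iff.2 (sub_ne_zero.2 ha)) (norm_ne_zero_iff.2 h0),
    ← norm_div]
  congr 2
  field_simp

lemma lg_infty {N : ℕ} (hN : 0 < N) (z : Fin N → ℂ) (d : ℝ) :
    Tendsto (fun w => lg z d w - Real.log ‖w‖) (cocompact ℂ) (𝓝 (-Real.log d)) := by
  have hN' : (N : ℝ) ≠ 0 := by exact_mod_cast hN.ne'
  have h1 : Tendsto (fun w : ℂ => (1 / (N : ℝ)) * ∑ j, (Real.log ‖w - z j‖ - Real.log ‖w‖)
      - Real.log d) (cocompact ℂ) (𝓝 ((1 / (N : ℝ)) * ∑ _j : Fin N, (0 : ℝ) - Real.log d)) :=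
    ((tendsto_finsetSum _ fun j _ => log_diff (z j)).const_mul _).sub_const _
  have h2 : (1 / (N : ℝ)) * ∑ _j : Fin N, (0 : ℝ) - Real.log d = -Real.log d := by
    rw [Finset.sum_const_zero, mul_zero, zero_sub]
  rw [h2] at h1
  refine h1.congr' ?_
  have hne : ∀ᶠ w : ℂ in cocompact ℂ, ∀ j, w ≠ z j := by
    have := (Set.finite_range z).isCompact.compl_mem_cocompact
    filter_upwards [this] with w hw j hj
    exact hw ⟨j, hj.symm⟩
  filter_upwards [hne] with w hw
  unfold lg pol
  rw [norm_prod, Real.log_prod (fun j _ => norm_ne_zero_iff.2 (sub_ne_zero.2 (hw j))),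
    Finset.sum_sub_distrib, Finset.sum_const, Finset.card_univ, Fintype.card_fin, nsmul_eq_mul]
  field_simp
  ring

lemma pol_ne_event {N : ℕ} (z : Fin N → ℂ) : ∀ᶠ w : ℂ in cocompact ℂ, pol z w ≠ 0 := by
  have := (Set.finite_range z).isCompact.compl_mem_cocompact
  filter_upwards [this] with w hw
  unfold pol
  rw [Finset.prod_ne_zero_iff]
  intro j _ hj
  exact hw ⟨j, (sub_eq_zero.1 hj).symm⟩

/-- The competitor belongs to the Perron class. -/
lemma isSub {N : ℕ} (hN : 0 < N) (z : Fin N → ℂ) {d : ℝ} (hd : 0 < d) (E : Set ℂ)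
    (hE : ∀ w ∈ E, ∏ j, ‖w - z j‖ ≤ d ^ N) : IsSub E (fv z d) (-Real.log d) := by
  refine ⟨fv_continuous z d, fv_nonneg z d, ?_, ?_, ?_⟩
  · intro w hw
    have h1 := hE w hw
    have h2 : ‖pol z w‖ / d ^ N ≤ 1 := by
      rw [div_le_one (by positivity)]
      unfold pol
      rwa [norm_prod]
    unfold fv
    rw [max_eq_left h2, Real.log_one, mul_zero]
  · intro w hw
    have hp : pol z w ≠ 0 := by
      intro h0
      unfold fv at hw
      rw [h0, norm_zero, zero_div, max_eq_left zero_le_one, Real.log_one, mul_zero] at hw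
      exact lt_irrefl _ hw
    have hev : fv z d =ᶠ[𝓝 w] lg z d := by
      have e1 : ∀ᶠ y in 𝓝 w, 0 < fv z d y :=
        (fv_continuous z d).continuousAt.eventually (lt_mem_nhds hw)
      have e2 : ∀ᶠ y in 𝓝 w, pol z y ≠ 0 :=
        (pol_continuous z).continuousAt.eventually_ne hp
      filter_upwards [e1, e2] with y h1 h2
      rw [fv_eq hN z hd y h2] at h1 ⊢
      rcases le_total (lg z d y) 0 with h3 | h3
      · rw [max_eq_right h3] at h1
        exact absurd h1 (lt_irrefl _)
      · exact max_eq_left h3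
    have hh : InnerProductSpace.HarmonicAt (fv z d) w :=
      (InnerProductSpace.harmonicAt_congr_nhds hev).2 (lg_harmonic z d w hp)
    refine ⟨hh.1, ?_⟩
    rw [← lap_eq _ _ hh.1, hh.2.self_of_nhds]
    exact le_refl _
  · have h1 := lg_infty hN z d
    have h2 : Tendsto (fun w : ℂ => Real.log ‖w‖) (cocompact ℂ) atTop :=
      Real.tendsto_log_atTop.comp (tendsto_norm_cocompact_atTop (E := ℂ))
    have h3 : Tendsto (lg z d) (cocompact ℂ) atTop := by
      have h4 := h1.add_atTop h2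
      refine h4.congr fun w => ?_
      ring
    refine h1.congr' ?_
    filter_upwards [h3.eventually (eventually_ge_atTop 0), pol_ne_event z] with w h4 h5
    rw [fv_eq hN z hd w h5, max_eq_left h4]

lemma fat_infinite {E : Set ℂ} (h : Fat E) : E.Infinite := by
  obtain ⟨-, a, b, hab, hs⟩ := h
  have h1 : Infinite (Set.Icc (0 : ℝ) 1) := Set.Icc.infinite one_pos
  refine Set.Infinite.mono hs ?_
  refine Set.infinite_of_injective_forall_mem
    (f := fun t : Set.Icc (0 : ℝ) 1 => AffineMap.lineMap a b (t : ℝ)) ?_ ?_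
  · intro s t hst
    exact Subtype.ext (AffineMap.lineMap_injective ℝ hab hst)
  · intro t
    rw [segment_eq_image_lineMap]
    exact ⟨t, t.2, rfl⟩

end FekLink

theorem s_FekLink : KapBasic → FekLink := by
  intro hK E hE hfat
  have hinf := FekLink.fat_infinite hfat
  unfold tcap
  refine le_ciInf fun n => ?_
  have hd : 0 < dn n E := dn_pos n hE.isBounded hinf
  obtain ⟨z, -, hz⟩ := fekete n E hE hd
  have h1 := FekLink.isSub (Nat.succ_pos (n + 1)) z hd E hz
  have h2 := hK.1 E _ _ hfat h1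
  unfold cp
  calc Real.exp (kap E) ≤ Real.exp (Real.log (dn n E)) := Real.exp_le_exp.2 (by linarith)
    _ = dn n E := Real.exp_log hd

end Pool.MP_31392c_an
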