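import Mathlib
import Pool.Agent.Lib.MP_31392c_an.Full.SpecD

/-!
# MP_31392c_an: solvability of `a + G(V a) = g` in the closed disc
-/

set_option autoImplicit false

open MeasureTheory Set Filter Topology Metric

namespace Pool.MP_31392c_an

namespace Fred

open BoundedContinuousFunction

private theorem dX_neg (f : ℂ → ℝ) : dX (fun z => -f z) = fun z => -dX f z := by
  funext z
  unfold dX
  have : fderiv ℝ (fun z => -f z) z = -fderiv ℝ f z := fderiv_neg
  rw [this]
  rfl

private theorem dY_neg (f : ℂ → ℝ) : dY (fun z => -f z) = fun z => -dY f z := by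
  funext z
  unfold dY
  have : fderiv ℝ (fun z => -f z) z = -fderiv ℝ f z := fderiv_neg
  rw [this]
  rfl

private theorem lap_neg (f : ℂ → ℝ) (z : ℂ) : lap (fun z => -f z) z = -lap f z := by
  unfold lap
  rw [dX_neg, dY_neg, dX_neg, dY_neg]
  ring

/-- retraction onto the closed disc -/
private noncomputable def pr (w : ℂ) : closedBall (0 : ℂ) 1 :=
  ⟨((max 1 ‖w‖ : ℝ)⁻¹ : ℝ) • w, by
    rw [mem_closedBall_zero_iff, norm_smul, norm_inv, Real.norm_eq_abs,
      abs_of_pos (lt_of_lt_of_le one_pos (le_max_left _ _))]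
    rw [inv_mul_le_iff₀ (lt_of_lt_of_le one_pos (le_max_left _ _)), mul_one]
    exact le_max_right _ _⟩

private theorem pr_cont : Continuous pr := by
  unfold pr
  refine Continuous.subtype_mk ?_ _
  refine Continuous.smul (f := fun w : ℂ => (max 1 ‖w‖ : ℝ)⁻¹) ?_ continuous_id
  refine Continuous.inv₀ (continuous_const.max continuous_norm) ?_
  intro w
  exact ne_of_gt (lt_of_lt_of_le one_pos (le_max_left _ _))

private theorem pr_eq (z : closedBall (0 : ℂ) 1) : pr (z : ℂ) = z := by
  apply Subtype.ext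
  show ((max 1 ‖(z : ℂ)‖ : ℝ)⁻¹ : ℝ) • (z : ℂ) = z
  have h : ‖(z : ℂ)‖ ≤ 1 := mem_closedBall_zero_iff.1 z.2
  rw [max_eq_left h, inv_one, one_smul]

private theorem pr_eq' (z : ℂ) (hz : z ∈ closedBall (0 : ℂ) 1) : pr z = ⟨z, hz⟩ := pr_eq ⟨z, hz⟩

variable (V : ℂ → ℝ)

/-- the density -/
private noncomputable def den (f : closedBall (0 : ℂ) 1 →ᵇ ℝ) (w : ℂ) : ℝ := V w * f (pr w)

private theorem den_cont (hV : Continuous V) (f : closedBall (0 : ℂ) 1 →ᵇ ℝ) :
    Continuous (den V f) := hV.mul (f.continuous.comp pr_cont)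

theorem main (hGD : GDprop) (hMP : MaxPr) : Fred := by
  intro V r₀ hV hV0 hr0 hr1 hVz g hg
  obtain ⟨h1, h2, h3, h4, ⟨C, hC, h5⟩, -⟩ : _ ∧ _ ∧ _ ∧ _ ∧ _ ∧ True := by
    obtain ⟨a, b, c, d, e⟩ := hGD r₀ hr0 hr1
    exact ⟨a, b, c, d, e, trivial⟩
  have hVc : Continuous V := hV.continuous
  have hVs : HasCompactSupport V := by
    refine HasCompactSupport.intro (isCompact_closedBall (0 : ℂ) r₀) ?_
    intro w hw
    rw [mem_closedBall_zero_iff, not_le] at hw
    exact hVz w hw.le
  obtain ⟨M, hM⟩ := hVc.bounded_above_of_compact_support hVs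
  have hM0 : 0 ≤ M := le_trans (norm_nonneg _) (hM 0)
  have hdz : ∀ (f : closedBall (0 : ℂ) 1 →ᵇ ℝ) (w : ℂ), r₀ ≤ ‖w‖ → den V f w = 0 := by
    intro f w hw
    unfold den
    rw [hVz w hw, zero_mul]
  have hds : ∀ f : closedBall (0 : ℂ) 1 →ᵇ ℝ, HasCompactSupport (den V f) := fun f =>
    HasCompactSupport.mul_right hVs
  have hdc : ∀ f : closedBall (0 : ℂ) 1 →ᵇ ℝ, Continuous (den V f) := den_cont V hVc
  have hdb : ∀ (f : closedBall (0 : ℂ) 1 →ᵇ ℝ) (w : ℂ), |den V f w| ≤ M * ‖f‖ := by
    intro f w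
    unfold den
    rw [abs_mul]
    exact mul_le_mul (hM w) (f.norm_coe_le_norm _) (abs_nonneg _) hM0
  -- the operator
  have hLip : ∀ (f : closedBall (0 : ℂ) 1 →ᵇ ℝ) (z z' : closedBall (0 : ℂ) 1),
      |gD (den V f) z - gD (den V f) z'| ≤ C * (M * ‖f‖) * dist z z' := by
    intro f z z'
    have := (h5 (den V f) (M * ‖f‖) (hdc f) (hdz f) (hdb f) z z' (mem_closedBall_zero_iff.1 z.2)
      (mem_closedBall_zero_iff.1 z'.2)).1
    rwa [Subtype.dist_eq, dist_eq_norm]
  have hBd : ∀ (f : closedBall (0 : ℂ) 1 →ᵇ ℝ) (z : closedBall (0 : ℂ) 1),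
      |gD (den V f) z| ≤ C * (M * ‖f‖) := by
    intro f z
    exact (h5 (den V f) (M * ‖f‖) (hdc f) (hdz f) (hdb f) z z (mem_closedBall_zero_iff.1 z.2)
      (mem_closedBall_zero_iff.1 z.2)).2
  have hTc : ∀ f : closedBall (0 : ℂ) 1 →ᵇ ℝ,
      Continuous fun z : closedBall (0 : ℂ) 1 => gD (den V f) z := by
    intro f
    refine (LipschitzWith.of_dist_le_mul (K := ⟨C * (M * ‖f‖), by positivity⟩) ?_).continuous
    intro z z'
    rw [Real.dist_eq]
    exact hLip f z z'
  have hgD0 : ∀ z, gD (fun _ => 0) z = 0 := by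
    intro z
    have := h4 (fun _ => 0) (fun _ => 0) 1 continuous_const continuous_const HasCompactSupport.zero
      HasCompactSupport.zero z
    simp only [mul_zero, add_zero, one_mul] at this
    linarith
  let T₀ : (closedBall (0 : ℂ) 1 →ᵇ ℝ) →ₗ[ℝ] (closedBall (0 : ℂ) 1 →ᵇ ℝ) :=
    { toFun := fun f => mkOfCompact ⟨fun z : closedBall (0 : ℂ) 1 => gD (den V f) z, hTc f⟩
      map_add' := by
        intro f f'
        ext z
        show gD (den V (f + f')) z = gD (den V f) z + gD (den V f') z
        have := h4 (den V f) (den V f') 1 (hdc f) (hdc f') (hds f) (hds f') z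
        rw [one_mul] at this
        rw [← this]
        congr 1
        funext w
        simp only [den, BoundedContinuousFunction.coe_add, Pi.add_apply]
        ring
      map_smul' := by
        intro c f
        ext z
        show gD (den V (c • f)) z = c * gD (den V f) z
        have := h4 (fun _ => 0) (den V f) c continuous_const (hdc f) HasCompactSupport.zero
          (hds f) z
        rw [hgD0, zero_add] at this
        rw [← this]
        congr 1
        funext w
        simp only [den, BoundedContinuousFunction.coe_smul, smul_eq_mul]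
        ring }
  have hT₀ : ∀ f z, T₀ f z = gD (den V f) z := fun f z => rfl
  let T : (closedBall (0 : ℂ) 1 →ᵇ ℝ) →L[ℝ] (closedBall (0 : ℂ) 1 →ᵇ ℝ) :=
    T₀.mkContinuous (C * M) (by
      intro f
      refine (BoundedContinuousFunction.norm_le (by positivity)).2 ?_
      intro z
      rw [hT₀, Real.norm_eq_abs, mul_assoc]
      exact hBd f z)
  have hT : ∀ f z, T f z = gD (den V f) z := fun f z => rfl
  have hcomp : IsCompactOperator T := by
    show IsCompactOperator (T : (closedBall (0 : ℂ) 1 →ᵇ ℝ) →ₗ[ℝ] (closedBall (0 : ℂ) 1 →ᵇ ℝ))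
    rw [isCompactOperator_iff_isCompact_closure_image_closedBall _ one_pos]
    refine arzela_ascoli (Icc (-(C * M)) (C * M)) isCompact_Icc _ ?_ ?_
    · rintro F x ⟨f, hf, rfl⟩
      have hf1 : ‖f‖ ≤ 1 := mem_closedBall_zero_iff.1 hf
      have h := hBd f x
      have h' : C * (M * ‖f‖) ≤ C * M := by
        have : M * ‖f‖ ≤ M * 1 := mul_le_mul_of_nonneg_left hf1 hM0
        nlinarith
      exact abs_le.1 (h.trans h')
    · refine Metric.equicontinuous_of_continuity_modulus (fun t => C * M * t) ?_ _ ?_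
      · have : Tendsto (fun t : ℝ => C * M * t) (𝓝 0) (𝓝 (C * M * 0)) :=
          (continuous_const.mul continuous_id).tendsto 0
        rwa [mul_zero] at this
      · rintro x y ⟨F, f, hf, rfl⟩
        have hf1 : ‖f‖ ≤ 1 := mem_closedBall_zero_iff.1 hf
        have h := hLip f x y
        have h' : C * (M * ‖f‖) ≤ C * M := by
          have : M * ‖f‖ ≤ M * 1 := mul_le_mul_of_nonneg_left hf1 hM0
          nlinarith
        rw [Real.dist_eq]
        exact h.trans (mul_le_mul_of_nonneg_right h' dist_nonneg)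
  -- injectivity
  have hinj : ∀ f : closedBall (0 : ℂ) 1 →ᵇ ℝ, T f = -f → f = 0 := by
    intro f hf
    have hF : ∀ (z : ℂ) (hz : z ∈ closedBall (0 : ℂ) 1), f ⟨z, hz⟩ = -gD (den V f) z := by
      intro z hz
      have := congrArg (fun F : closedBall (0 : ℂ) 1 →ᵇ ℝ => F ⟨z, hz⟩) hf
      simp only [hT, BoundedContinuousFunction.coe_neg, Pi.neg_apply] at this
      linarith
    have hden : den V f = fun w => V w * -gD (den V f) w := by
      funext w
      by_cases hw : ‖w‖ ≤ 1
      · have hw' : w ∈ closedBall (0 : ℂ) 1 := mem_closedBall_zero_iff.2 hw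
        rw [← hF w hw']
        unfold den
        rw [pr_eq' w hw']
      · have h0 : V w = 0 := hVz w (hr1.le.trans (not_le.1 hw).le)
        unfold den
        rw [h0, zero_mul, zero_mul]
    have hden1 : ContDiff ℝ 1 (den V f) := by
      rw [contDiff_iff_contDiffAt]
      intro w
      by_cases hw : ‖w‖ * r₀ < 1
      · rw [hden]
        exact hV.contDiffAt.mul (h1 (den V f) (hdc f) (hdz f) w hw).neg
      · have hw1 : r₀ < ‖w‖ := by
          by_contra hcon
          rw [not_lt] at hcon
          apply hw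
          nlinarith [norm_nonneg w]
        have hev : den V f =ᶠ[𝓝 w] fun _ => 0 := by
          have : {w' : ℂ | r₀ < ‖w'‖} ∈ 𝓝 w :=
            (isOpen_lt continuous_const continuous_norm).mem_nhds hw1
          filter_upwards [this] with w' hw'
          exact hdz f w' (le_of_lt hw')
        exact contDiffAt_const.congr_of_eventuallyEq hev
    have hlap : ∀ z : ℂ, z ∈ closedBall (0 : ℂ) 1 →
        ContDiffAt ℝ 2 (gD (den V f)) z ∧ lap (gD (den V f)) z = V z * gD (den V f) z := by
      intro z hz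
      have hz1 : ‖z‖ ≤ 1 := mem_closedBall_zero_iff.1 hz
      have hz2 : ‖z‖ * r₀ < 1 := by nlinarith [norm_nonneg z]
      obtain ⟨ha, hb⟩ := h2 (den V f) hden1 (hdz f) z hz2
      refine ⟨ha, ?_⟩
      rw [hb]
      have := congrFun hden z
      rw [this]
      ring
    have hclos : closure (ball (0 : ℂ) 1) = closedBall 0 1 := closure_ball _ one_ne_zero
    have hfro : frontier (ball (0 : ℂ) 1) = sphere 0 1 := frontier_ball _ one_ne_zero
    have hA : ∀ z ∈ ball (0 : ℂ) 1, gD (den V f) z ≤ 0 := by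
      refine hMP (ball 0 1) (gD (den V f)) isOpen_ball isBounded_ball ?_ ?_ ?_
      · rw [hclos]
        exact fun z hz => (hlap z hz).1.continuousAt.continuousWithinAt
      · rw [hfro]
        intro z hz
        rw [h3 (den V f) z (mem_sphere_zero_iff_norm.1 hz)]
      · intro z hz hpos
        obtain ⟨ha, hb⟩ := hlap z (ball_subset_closedBall hz)
        refine ⟨ha, ?_⟩
        rw [hb]
        exact mul_nonneg (hV0 z) hpos.le
    have hB : ∀ z ∈ ball (0 : ℂ) 1, -gD (den V f) z ≤ 0 := by
      refine hMP (ball 0 1) (fun z => -gD (den V f) z) isOpen_ball isBounded_ball ?_ ?_ ?_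
      · rw [hclos]
        exact fun z hz => (hlap z hz).1.continuousAt.continuousWithinAt.neg
      · rw [hfro]
        intro z hz
        rw [h3 (den V f) z (mem_sphere_zero_iff_norm.1 hz), neg_zero]
      · intro z hz hpos
        obtain ⟨ha, hb⟩ := hlap z (ball_subset_closedBall hz)
        refine ⟨ha.neg, ?_⟩
        rw [lap_neg, hb]
        have := mul_nonneg (hV0 z) hpos.le
        linarith
    ext z
    rw [BoundedContinuousFunction.coe_zero, Pi.zero_apply]
    have hz := hF z z.2
    have hz' : f z = -gD (den V f) z := hz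
    rw [hz']
    rcases lt_or_eq_of_le (mem_closedBall_zero_iff.1 z.2) with h | h
    · have hzb : (z : ℂ) ∈ ball (0 : ℂ) 1 := mem_ball_zero_iff.2 h
      have := hA z hzb
      have := hB z hzb
      linarith
    · rw [h3 (den V f) z h, neg_zero]
  -- Fredholm alternative
  have hsurj : ∀ G : closedBall (0 : ℂ) 1 →ᵇ ℝ, ∃ f, f + T f = G := by
    rcases IsCompactOperator.hasEigenvalue_or_mem_resolventSet hcomp
      (μ := (-1 : ℝ)) (by norm_num) with h | h
    · exfalso
      obtain ⟨f, hf⟩ := h.exists_hasEigenvector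
      refine hf.2 (hinj f ?_)
      have := hf.apply_eq_smul
      rw [neg_one_smul] at this
      exact this
    · intro G
      rw [spectrum.mem_resolventSet_iff, ContinuousLinearMap.isUnit_iff_bijective] at h
      obtain ⟨f, hf⟩ := h.2 (-G)
      refine ⟨f, ?_⟩
      have hf' : -f - T f = -G := by
        rw [← hf]
        ext z
        show -f z - T f z = (-1 : ℝ) * f z - T f z
        ring
      have : f + T f = -(-f - T f) := by abel
      rw [this, hf', neg_neg]
  obtain ⟨f, hf⟩ := hsurj (mkOfCompact ⟨(closedBall (0 : ℂ) 1).domRestrict g,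
    continuousOn_iff_continuous_domRestrict.1 hg⟩)
  refine ⟨fun z => f (pr z), (f.continuous.comp pr_cont).continuousOn, ?_⟩
  intro z hz
  have := congrArg (fun F : closedBall (0 : ℂ) 1 →ᵇ ℝ => F ⟨z, hz⟩) hf
  simp only [BoundedContinuousFunction.coe_add, Pi.add_apply, hT] at this
  show f (pr z) + gD (den V f) z = g z
  rw [pr_eq' z hz]
  exact this

end Fred

theorem s_Fred : GDprop → MaxPr → Fred := Fred.main

end Pool.MP_31392c_an
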