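import Pool.Agent.Lib.MP_31392c_an.Full.SpecD
import Pool.Agent.Lib.MP_31392c_an.SlogB

/-!
# MP_31392c_an full proof: GDprop, properties of the Green potential of the disc
-/

set_option autoImplicit false

open MeasureTheory Set Filter Topology Metric

namespace Pool.MP_31392c_an

namespace GDprop

/-! ### linearity of the Laplacian -/

private lemma dX_lin {f g : ℂ → ℝ} {w : ℂ} (c : ℝ) (hf : DifferentiableAt ℝ f w)
    (hg : DifferentiableAt ℝ g w) (e : ℂ) :
    fderiv ℝ (fun z => c * (f z - g z)) w e = c * (fderiv ℝ f w e - fderiv ℝ g w e) := by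
  have h : HasFDerivAt (fun z => c * (f z - g z)) (c • (fderiv ℝ f w - fderiv ℝ g w)) w :=
    (hf.hasFDerivAt.sub hg.hasFDerivAt).const_mul c
  rw [h.fderiv]
  simp

private lemma dd_lin {f g : ℂ → ℝ} {z : ℂ} (c : ℝ) (hf : ContDiffAt ℝ 2 f z)
    (hg : ContDiffAt ℝ 2 g z) (e : ℂ) :
    fderiv ℝ (fun w => fderiv ℝ (fun z => c * (f z - g z)) w e) z e =
      c * (fderiv ℝ (fun w => fderiv ℝ f w e) z e - fderiv ℝ (fun w => fderiv ℝ g w e) z e) := by
  have h1 : (fun w => fderiv ℝ (fun z => c * (f z - g z)) w e) =ᶠ[𝓝 z]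
      fun w => c * (fderiv ℝ f w e - fderiv ℝ g w e) := by
    filter_upwards [hf.eventually (by simp), hg.eventually (by simp)] with w hfw hgw
    exact dX_lin c (hfw.differentiableAt (by norm_num)) (hgw.differentiableAt (by norm_num)) e
  rw [h1.fderiv_eq]
  have hf2 : DifferentiableAt ℝ (fun w => fderiv ℝ f w e) z :=
    ((hf.fderiv_right (m := 1) (by norm_num)).clm_apply contDiffAt_const).differentiableAt
      (by norm_num)
  have hg2 : DifferentiableAt ℝ (fun w => fderiv ℝ g w e) z :=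
    ((hg.fderiv_right (m := 1) (by norm_num)).clm_apply contDiffAt_const).differentiableAt
      (by norm_num)
  exact dX_lin c hf2 hg2 e

private lemma lap_lin {f g : ℂ → ℝ} {z : ℂ} (c : ℝ) (hf : ContDiffAt ℝ 2 f z)
    (hg : ContDiffAt ℝ 2 g z) : lap (fun w => c * (f w - g w)) z = c * (lap f z - lap g z) := by
  have h1 := dd_lin c hf hg 1
  have h2 := dd_lin c hf hg Complex.I
  unfold lap dX dY
  rw [h1, h2]
  ring

/-! ### integrability -/

private lemma supp_ball {ρ : ℂ → ℝ} (h : HasCompactSupport ρ) :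
    ∃ R : ℝ, ∀ w, ρ w ≠ 0 → w ∈ closedBall (0 : ℂ) R := by
  obtain ⟨R, hR⟩ := h.isCompact.isBounded.subset_closedBall 0
  exact ⟨R, fun w hw => hR (subset_tsupport ρ hw)⟩

private lemma int_mul {F ρ : ℂ → ℝ} {R : ℝ} (hF : IntegrableOn F (closedBall (0 : ℂ) R))
    (hρ : Continuous ρ) (hs : ∀ w, ρ w ≠ 0 → w ∈ closedBall (0 : ℂ) R) :
    Integrable (fun w => F w * ρ w) := by
  have h1 : IntegrableOn (fun w => F w * ρ w) (closedBall (0 : ℂ) R) :=
    hF.mul_continuousOn hρ.continuousOn (isCompact_closedBall 0 R)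
  rw [← integrableOn_iff_integrable_of_support_subset (s := closedBall (0 : ℂ) R)]
  · exact h1
  · intro w hw
    apply hs
    intro h0
    apply hw
    show F w * ρ w = 0
    rw [h0, mul_zero]

private lemma int_Nw {ρ : ℂ → ℝ} (hρ : Continuous ρ) (hs : HasCompactSupport ρ) (z : ℂ) :
    Integrable (fun w => Real.log ‖z - w‖ * ρ w) := by
  obtain ⟨R, hR⟩ := supp_ball hs
  refine int_mul ?_ hρ hR
  have := integrableOn_log_disc z 0 R
  simpa only [norm_sub_rev] using this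

private lemma norm_refl (z w : ℂ) : ‖1 - (starRingEnd ℂ) w * z‖ = ‖1 - w * (starRingEnd ℂ) z‖ := by
  have h : (starRingEnd ℂ) (1 - (starRingEnd ℂ) w * z) = 1 - w * (starRingEnd ℂ) z := by
    simp
  rw [← h, RCLike.norm_conj]

private lemma meas_Hw (z : ℂ) : Measurable (fun w : ℂ => Real.log ‖1 - (starRingEnd ℂ) w * z‖) := by
  apply Real.measurable_log.comp
  have hc : Continuous (fun w : ℂ => ‖1 - (starRingEnd ℂ) w * z‖) :=
    (continuous_const.sub (Complex.continuous_conj.mul continuous_const)).norm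
  exact hc.measurable

private lemma int_Hw {ρ : ℂ → ℝ} (hρ : Continuous ρ) (hs : HasCompactSupport ρ) (z : ℂ) :
    Integrable (fun w => Real.log ‖1 - (starRingEnd ℂ) w * z‖ * ρ w) := by
  obtain ⟨R, hR⟩ := supp_ball hs
  refine int_mul ?_ hρ hR
  by_cases hz : z = 0
  · subst hz
    simp
  have hz' : (starRingEnd ℂ) z ≠ 0 := by
    intro h
    apply hz
    have := congrArg (starRingEnd ℂ) h
    simpa using this
  have hg : IntegrableOn (fun w : ℂ => |Real.log ‖z‖| + |Real.log ‖w - ((starRingEnd ℂ) z)⁻¹‖|)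
      (closedBall (0 : ℂ) R) := by
    apply IntegrableOn.add
    · exact integrableOn_const (measure_closedBall_lt_top).ne
    · exact (integrableOn_log_disc _ 0 R).abs
  refine Integrable.mono' hg (meas_Hw z).aestronglyMeasurable ?_
  filter_upwards with w
  have e : ‖1 - (starRingEnd ℂ) w * z‖ = ‖z‖ * ‖w - ((starRingEnd ℂ) z)⁻¹‖ := by
    rw [norm_refl]
    have : 1 - w * (starRingEnd ℂ) z = -((starRingEnd ℂ) z * (w - ((starRingEnd ℂ) z)⁻¹)) := by
      field_simp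
      ring
    rw [this, norm_neg, norm_mul, RCLike.norm_conj]
  rw [e, Real.norm_eq_abs]
  by_cases hw : ‖w - ((starRingEnd ℂ) z)⁻¹‖ = 0
  · rw [hw, mul_zero, Real.log_zero, abs_zero]
    positivity
  · rw [Real.log_mul (norm_ne_zero_iff.2 hz) hw]
    exact abs_add_le _ _

/-! ### the constant `∫ 1/‖ζ‖` -/

private lemma int_inv : IntegrableOn (fun w : ℂ => ‖w‖⁻¹) (closedBall (0 : ℂ) 2) := by
  have h1 : IntegrableOn (fun w : ℂ => ‖w‖⁻¹) (ball (0 : ℂ) 3) := by
    have := (integrableOn_fun_norm_addHaar (μ := (volume : Measure ℂ)) (f := fun y : ℝ => y⁻¹)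
      (r := 3))
    rw [this, Complex.finrank_real_complex]
    have h2 : IntegrableOn (fun _ : ℝ => (1 : ℝ)) (Ioo (0 : ℝ) 3) :=
      integrableOn_const (by simp)
    refine h2.congr_fun ?_ measurableSet_Ioo
    intro y hy
    have : y ≠ 0 := hy.1.ne'
    simp [this]
  refine h1.mono_set ?_
  intro w hw
  rw [mem_closedBall_zero_iff] at hw
  rw [mem_ball_zero_iff]
  linarith

/-- the kernel -/
private noncomputable def kr (ζ : ℂ) : ℝ := (closedBall (0 : ℂ) 2).indicator (fun w => ‖w‖⁻¹) ζ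

private lemma kr_int : Integrable kr := by
  unfold kr
  exact (integrable_indicator_iff measurableSet_closedBall).2 int_inv

private lemma kr_nonneg (ζ : ℂ) : 0 ≤ kr ζ := by
  unfold kr
  apply indicator_nonneg
  intro w _
  positivity

/-- bound for the integrals of the kernels -/
private lemma kr_bound {k ρ : ℂ → ℝ} {B : ℝ} (hk : ∀ ζ, |k ζ| ≤ ‖ζ‖⁻¹)
    (hs : ∀ w, ρ w ≠ 0 → ‖w‖ ≤ 1) (hB : ∀ w, |ρ w| ≤ B) {z : ℂ} (hz : ‖z‖ ≤ 1) :
    |∫ w, k (z - w) * ρ w| ≤ B * ∫ w, kr w := by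
  have hB0 : 0 ≤ B := (abs_nonneg _).trans (hB 0)
  have h1 : Integrable (fun w => B * kr (z - w)) := (kr_int.comp_sub_left z).const_mul B
  have h2 : ∀ w, ‖k (z - w) * ρ w‖ ≤ B * kr (z - w) := by
    intro w
    by_cases hw : ρ w = 0
    · rw [hw, mul_zero, norm_zero]
      exact mul_nonneg hB0 (kr_nonneg _)
    · have h3 : z - w ∈ closedBall (0 : ℂ) 2 := by
        rw [mem_closedBall_zero_iff]
        have := norm_sub_le z w
        have := hs w hw
        linarith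
      have h4 : kr (z - w) = ‖z - w‖⁻¹ := by
        unfold kr
        rw [indicator_of_mem h3]
      rw [h4, norm_mul, Real.norm_eq_abs, Real.norm_eq_abs, mul_comm B]
      exact mul_le_mul (hk _) (hB w) (abs_nonneg _) (by positivity)
  have h5 := norm_integral_le_of_norm_le h1 (Eventually.of_forall h2)
  rw [Real.norm_eq_abs] at h5
  refine h5.trans ?_
  rw [integral_const_mul, integral_sub_left_eq_self]

private lemma re_bound (ζ : ℂ) : |ζ.re / ‖ζ‖ ^ 2| ≤ ‖ζ‖⁻¹ := by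
  rw [abs_div, abs_of_nonneg (by positivity : (0 : ℝ) ≤ ‖ζ‖ ^ 2)]
  by_cases h : ‖ζ‖ = 0
  · rw [h]; simp
  · have hp : 0 < ‖ζ‖ := lt_of_le_of_ne (norm_nonneg _) (Ne.symm h)
    rw [div_le_iff₀ (by positivity)]
    have e : ‖ζ‖⁻¹ * ‖ζ‖ ^ 2 = ‖ζ‖ := by field_simp
    rw [e]
    exact Complex.abs_re_le_norm ζ

private lemma im_bound (ζ : ℂ) : |ζ.im / ‖ζ‖ ^ 2| ≤ ‖ζ‖⁻¹ := by
  rw [abs_div, abs_of_nonneg (by positivity : (0 : ℝ) ≤ ‖ζ‖ ^ 2)]
  by_cases h : ‖ζ‖ = 0
  · rw [h]; simp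
  · have hp : 0 < ‖ζ‖ := lt_of_le_of_ne (norm_nonneg _) (Ne.symm h)
    rw [div_le_iff₀ (by positivity)]
    have e : ‖ζ‖⁻¹ * ‖ζ‖ ^ 2 = ‖ζ‖ := by field_simp
    rw [e]
    exact Complex.abs_im_le_norm ζ

private lemma Nw_lip (h1 : NewtC1) {ρ : ℂ → ℝ} {B : ℝ} (hρ : Continuous ρ)
    (hc : HasCompactSupport ρ) (hs : ∀ w, ρ w ≠ 0 → ‖w‖ ≤ 1) (hB : ∀ w, |ρ w| ≤ B) {z z' : ℂ}
    (hz : ‖z‖ ≤ 1) (hz' : ‖z'‖ ≤ 1) :
    |Nw ρ z - Nw ρ z'| ≤ 2 * (B * ∫ w, kr w) * ‖z - z'‖ := by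
  obtain ⟨hd, hX, hY⟩ := h1 ρ hρ hc
  have hbd : ∀ x ∈ closedBall (0 : ℂ) 1, ‖fderiv ℝ (Nw ρ) x‖ ≤ 2 * (B * ∫ w, kr w) := by
    intro x hx
    rw [mem_closedBall_zero_iff] at hx
    have hJ : 0 ≤ B * ∫ w, kr w := by
      have := (abs_nonneg _).trans (kr_bound re_bound hs hB hx)
      exact this
    apply ContinuousLinearMap.opNorm_le_bound _ (by positivity)
    intro v
    have e : fderiv ℝ (Nw ρ) x v = v.re * dX (Nw ρ) x + v.im * dY (Nw ρ) x := by
      have hv : v = v.re • (1 : ℂ) + v.im • Complex.I := by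
        rw [Complex.real_smul, Complex.real_smul, mul_one]
        exact (Complex.re_add_im v).symm
      conv_lhs => rw [hv]
      rw [map_add, map_smul, map_smul]
      rfl
    rw [e, Real.norm_eq_abs]
    have b1 : |dX (Nw ρ) x| ≤ B * ∫ w, kr w := by
      rw [hX x]
      exact kr_bound re_bound hs hB hx
    have b2 : |dY (Nw ρ) x| ≤ B * ∫ w, kr w := by
      rw [hY x]
      exact kr_bound im_bound hs hB hx
    calc |v.re * dX (Nw ρ) x + v.im * dY (Nw ρ) x|
        ≤ |v.re * dX (Nw ρ) x| + |v.im * dY (Nw ρ) x| := abs_add_le _ _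
      _ = |v.re| * |dX (Nw ρ) x| + |v.im| * |dY (Nw ρ) x| := by rw [abs_mul, abs_mul]
      _ ≤ ‖v‖ * (B * ∫ w, kr w) + ‖v‖ * (B * ∫ w, kr w) := by
          apply add_le_add
          · exact mul_le_mul (Complex.abs_re_le_norm v) b1 (abs_nonneg _) (norm_nonneg _)
          · exact mul_le_mul (Complex.abs_im_le_norm v) b2 (abs_nonneg _) (norm_nonneg _)
      _ = 2 * (B * ∫ w, kr w) * ‖v‖ := by ring
  have := Convex.norm_image_sub_le_of_norm_fderiv_le (𝕜 := ℝ) (f := Nw ρ)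
    (fun x _ => (hd.differentiable (by norm_num)) x) hbd (convex_closedBall (0 : ℂ) 1)
    (x := z') (y := z) (by rwa [mem_closedBall_zero_iff]) (by rwa [mem_closedBall_zero_iff])
  rwa [Real.norm_eq_abs] at this

private lemma log_lip {a b d : ℝ} (hd : 0 < d) (ha : d ≤ a) (hb : d ≤ b) :
    |Real.log a - Real.log b| ≤ |a - b| / d := by
  have ha0 : 0 < a := by linarith
  have hb0 : 0 < b := by linarith
  have key : ∀ x y : ℝ, d ≤ x → d ≤ y → Real.log x - Real.log y ≤ |x - y| / d := by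
    intro x y hx hy
    have hx0 : 0 < x := by linarith
    have hy0 : 0 < y := by linarith
    rw [← Real.log_div hx0.ne' hy0.ne']
    have h1 := Real.log_le_sub_one_of_pos (div_pos hx0 hy0)
    refine h1.trans ?_
    have h2 : x / y - 1 = (x - y) / y := by field_simp
    rw [h2]
    calc (x - y) / y ≤ |x - y| / y := div_le_div_of_nonneg_right (le_abs_self _) hy0.le
      _ ≤ |x - y| / d := div_le_div_of_nonneg_left (abs_nonneg _) hd hy
  rw [abs_le]
  constructor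
  · have := key b a hb ha
    rw [abs_sub_comm] at this
    linarith
  · exact key a b ha hb

private lemma Hw_lip {ρ : ℂ → ℝ} {B r₀ : ℝ} (hρ : Continuous ρ)
    (hc : HasCompactSupport ρ) (hr0 : 0 < r₀) (hr1 : r₀ < 1) (hs : ∀ w, r₀ ≤ ‖w‖ → ρ w = 0)
    (hB : ∀ w, |ρ w| ≤ B) {z z' : ℂ} (hz : ‖z‖ ≤ 1) (hz' : ‖z'‖ ≤ 1) :
    |Hw ρ z - Hw ρ z'| ≤
      (volume (closedBall (0 : ℂ) 1)).toReal * (B * (‖z - z'‖ / (1 - r₀))) := by
  have hB0 : 0 ≤ B := (abs_nonneg _).trans (hB 0)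
  have h1r : 0 < 1 - r₀ := by linarith
  unfold Hw
  rw [← integral_sub (int_Hw hρ hc z) (int_Hw hρ hc z')]
  have hg : Integrable (fun w : ℂ => (closedBall (0 : ℂ) 1).indicator
      (fun _ => B * (‖z - z'‖ / (1 - r₀))) w) := by
    rw [integrable_indicator_iff measurableSet_closedBall]
    exact integrableOn_const (measure_closedBall_lt_top).ne
  have hbd : ∀ w : ℂ, ‖Real.log ‖1 - (starRingEnd ℂ) w * z‖ * ρ w -
      Real.log ‖1 - (starRingEnd ℂ) w * z'‖ * ρ w‖ ≤ (closedBall (0 : ℂ) 1).indicator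
      (fun _ => B * (‖z - z'‖ / (1 - r₀))) w := by
    intro w
    by_cases hw : r₀ ≤ ‖w‖
    · rw [hs w hw]
      simp only [mul_zero, sub_self, norm_zero]
      apply indicator_nonneg
      intro _ _
      positivity
    · push Not at hw
      have hw1 : w ∈ closedBall (0 : ℂ) 1 := by
        rw [mem_closedBall_zero_iff]; linarith
      rw [indicator_of_mem hw1, ← sub_mul, norm_mul, Real.norm_eq_abs, Real.norm_eq_abs, mul_comm]
      apply mul_le_mul (hB w) _ (abs_nonneg _) hB0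
      have hlow : ∀ x : ℂ, ‖x‖ ≤ 1 → 1 - r₀ ≤ ‖1 - (starRingEnd ℂ) w * x‖ := by
        intro x hx
        have h2 := norm_sub_norm_le (1 : ℂ) ((starRingEnd ℂ) w * x)
        rw [norm_one, norm_mul, RCLike.norm_conj] at h2
        have h3 : ‖w‖ * ‖x‖ ≤ r₀ * 1 := mul_le_mul hw.le hx (norm_nonneg _) hr0.le
        linarith
      refine (log_lip h1r (hlow z hz) (hlow z' hz')).trans ?_
      apply div_le_div_of_nonneg_right _ h1r.le
      refine (abs_norm_sub_norm_le _ _).trans ?_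
      have e : 1 - (starRingEnd ℂ) w * z - (1 - (starRingEnd ℂ) w * z') =
          -((starRingEnd ℂ) w * (z - z')) := by ring
      rw [e, norm_neg, norm_mul, RCLike.norm_conj]
      have h4 : 0 ≤ ‖z - z'‖ := norm_nonneg _
      nlinarith
  have h5 := norm_integral_le_of_norm_le hg (Eventually.of_forall hbd)
  rw [Real.norm_eq_abs] at h5
  refine h5.trans (le_of_eq ?_)
  rw [integral_indicator_const _ measurableSet_closedBall]
  rfl

end GDprop

open GDprop in
theorem s_GDprop : NewtC1 → NewtC2 → HwReg → GDprop := by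
  intro hN1 hN2 hH r₀ hr0 hr1
  have hcs : ∀ ρ : ℂ → ℝ, (∀ w, r₀ ≤ ‖w‖ → ρ w = 0) → HasCompactSupport ρ := by
    intro ρ hs
    apply HasCompactSupport.intro (isCompact_closedBall (0 : ℂ) r₀)
    intro w hw
    apply hs
    rw [mem_closedBall_zero_iff, not_le] at hw
    exact hw.le
  have hgd : ∀ ρ : ℂ → ℝ, gD ρ = fun z => (1 / (2 * Real.pi)) * (Hw ρ z - Nw ρ z) := fun ρ => rfl
  have hthree : ∀ (ρ : ℂ → ℝ) (z : ℂ), ‖z‖ = 1 → gD ρ z = 0 := by
    intro ρ z hz
    have e : Hw ρ z = Nw ρ z := by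
      unfold Hw Nw
      congr 1
      funext w
      have h1 : ‖1 - (starRingEnd ℂ) w * z‖ = ‖z - w‖ := by
        rw [norm_refl]
        have h2 : (starRingEnd ℂ) z * z = 1 := by
          rw [mul_comm, Complex.mul_conj, Complex.normSq_eq_norm_sq, hz]
          norm_num
        have h3 : 1 - w * (starRingEnd ℂ) z = (starRingEnd ℂ) z * (z - w) := by
          rw [mul_sub, h2]
          ring
        rw [h3, norm_mul, RCLike.norm_conj, hz, one_mul]
      rw [h1]
    rw [hgd]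
    simp only
    rw [e, sub_self, mul_zero]
  refine ⟨?_, ?_, hthree, ?_, ?_⟩
  · intro ρ hρ hs z hz
    rw [hgd]
    have h1 := (hH ρ r₀ hρ hr0 hr1 hs z hz).1.of_le (m := 1) (by norm_num)
    have h2 := (hN1 ρ hρ (hcs ρ hs)).1.contDiffAt (x := z)
    exact contDiffAt_const.mul (h1.sub h2)
  · intro ρ hρ hs z hz
    have h1 := hH ρ r₀ hρ.continuous hr0 hr1 hs z hz
    have h2 := hN2 ρ hρ (hcs ρ hs)
    constructor
    · rw [hgd]
      exact contDiffAt_const.mul (h1.1.sub h2.1.contDiffAt)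
    · rw [hgd, lap_lin _ h1.1 h2.1.contDiffAt, h1.2, h2.2 z]
      have := Real.pi_pos.ne'
      field_simp
      ring
  · intro ρ₁ ρ₂ c hc1 hc2 hs1 hs2 z
    have e1 : Hw (fun w => ρ₁ w + c * ρ₂ w) z = Hw ρ₁ z + c * Hw ρ₂ z := by
      unfold Hw
      rw [← integral_const_mul, ← integral_add (int_Hw hc1 hs1 z) ((int_Hw hc2 hs2 z).const_mul c)]
      congr 1
      funext w
      ring
    have e2 : Nw (fun w => ρ₁ w + c * ρ₂ w) z = Nw ρ₁ z + c * Nw ρ₂ z := by
      unfold Nw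
      rw [← integral_const_mul, ← integral_add (int_Nw hc1 hs1 z) ((int_Nw hc2 hs2 z).const_mul c)]
      congr 1
      funext w
      ring
    rw [hgd, hgd, hgd]
    simp only
    rw [e1, e2]
    ring
  · obtain ⟨J, hJ⟩ : ∃ J : ℝ, J = ∫ w, kr w := ⟨_, rfl⟩
    have hJ0 : 0 ≤ J := by
      rw [hJ]
      exact integral_nonneg kr_nonneg
    obtain ⟨m, hm⟩ : ∃ m : ℝ, m = (volume (closedBall (0 : ℂ) 1)).toReal := ⟨_, rfl⟩
    have hm0 : 0 ≤ m := by rw [hm]; exact ENNReal.toReal_nonneg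
    have h1r : 0 < 1 - r₀ := by linarith
    have hpi := Real.pi_pos
    obtain ⟨C₁, hC₁⟩ : ∃ C₁ : ℝ, C₁ = (1 / (2 * Real.pi)) * (m / (1 - r₀) + 2 * J) + 1 :=
      ⟨_, rfl⟩
    have hC0 : 0 < C₁ := by
      rw [hC₁]
      positivity
    have hmain : ∀ (ρ : ℂ → ℝ) (B : ℝ), Continuous ρ → (∀ w, r₀ ≤ ‖w‖ → ρ w = 0) →
        (∀ w, |ρ w| ≤ B) → ∀ z z', ‖z‖ ≤ 1 → ‖z'‖ ≤ 1 →
        |gD ρ z - gD ρ z'| ≤ C₁ * B * ‖z - z'‖ := by
      intro ρ B hρ hs hB z z' hz hz'
      have hB0 : 0 ≤ B := (abs_nonneg _).trans (hB 0)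
      have hs1 : ∀ w, ρ w ≠ 0 → ‖w‖ ≤ 1 := by
        intro w hw
        by_contra hcon
        push Not at hcon
        exact hw (hs w (by linarith))
      have a1 := Hw_lip hρ (hcs ρ hs) hr0 hr1 hs hB hz hz'
      have a2 := Nw_lip hN1 hρ (hcs ρ hs) hs1 hB hz hz'
      rw [← hm] at a1
      rw [← hJ] at a2
      rw [hgd]
      simp only
      have e : 1 / (2 * Real.pi) * (Hw ρ z - Nw ρ z) - 1 / (2 * Real.pi) * (Hw ρ z' - Nw ρ z') =
          1 / (2 * Real.pi) * ((Hw ρ z - Hw ρ z') - (Nw ρ z - Nw ρ z')) := by ring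
      rw [e, abs_mul, abs_of_pos (by positivity : (0 : ℝ) < 1 / (2 * Real.pi))]
      have a3 : |(Hw ρ z - Hw ρ z') - (Nw ρ z - Nw ρ z')| ≤
          m * (B * (‖z - z'‖ / (1 - r₀))) + 2 * (B * J) * ‖z - z'‖ := by
        refine (abs_sub _ _).trans ?_
        exact add_le_add a1 a2
      have hn : 0 ≤ ‖z - z'‖ := norm_nonneg _
      calc 1 / (2 * Real.pi) * |(Hw ρ z - Hw ρ z') - (Nw ρ z - Nw ρ z')|
          ≤ 1 / (2 * Real.pi) * (m * (B * (‖z - z'‖ / (1 - r₀))) + 2 * (B * J) * ‖z - z'‖) :=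
            mul_le_mul_of_nonneg_left a3 (by positivity)
        _ = (1 / (2 * Real.pi)) * (m / (1 - r₀) + 2 * J) * B * ‖z - z'‖ := by
            field_simp
        _ ≤ C₁ * B * ‖z - z'‖ := by
            rw [hC₁]
            have : 0 ≤ B * ‖z - z'‖ := by positivity
            nlinarith
    refine ⟨2 * C₁, by positivity, ?_⟩
    intro ρ B hρ hs hB z z' hz hz'
    have hB0 : 0 ≤ B := (abs_nonneg _).trans (hB 0)
    constructor
    · refine (hmain ρ B hρ hs hB z z' hz hz').trans ?_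
      have : 0 ≤ C₁ * B * ‖z - z'‖ := by positivity
      linarith
    · have h1 := hmain ρ B hρ hs hB z 1 hz (by simp)
      rw [hthree ρ 1 (by simp), sub_zero] at h1
      refine h1.trans ?_
      have h2 : ‖z - 1‖ ≤ 2 := by
        have := norm_sub_le z 1
        rw [norm_one] at this
        linarith
      have h3 : 0 ≤ C₁ * B := by positivity
      nlinarith

end Pool.MP_31392c_an
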