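import Pool.Agent.Lib.MP_31392c_an.Full.SpecB

/-!
# MP_31392c_an full proof: gradient estimate for harmonic functions
-/

set_option autoImplicit false

open MeasureTheory Set Filter Topology Metric

namespace Pool.MP_31392c_an

namespace GradEst'

/-- Schwarz lemma for functions with bounded real part -/
theorem deriv_bound {G : ℂ → ℂ} {z : ℂ} {ρ a : ℝ} (hρ : 0 < ρ) (ha : 0 < a)
    (hG : DifferentiableOn ℂ G (ball z ρ)) (hGz : G z = 0)
    (hre : ∀ w ∈ ball z ρ, (G w).re < a) : ‖deriv G z‖ ≤ 2 * a / ρ := by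
  have hden : ∀ w ∈ ball z ρ, (2 * a : ℂ) - G w ≠ 0 := by
    intro w hw h0
    have h1 := congrArg Complex.re h0
    simp only [Complex.sub_re, Complex.mul_re, Complex.re_ofNat, Complex.ofReal_re,
      Complex.im_ofNat, Complex.ofReal_im, mul_zero, sub_zero, Complex.zero_re] at h1
    have h2 := hre w hw
    linarith
  have hz : z ∈ ball z ρ := mem_ball_self hρ
  have hφ : DifferentiableOn ℂ (fun w => G w / (2 * a - G w)) (ball z ρ) :=
    hG.div ((differentiableOn_const _).sub hG) hden
  have hφz : (fun w => G w / (2 * a - G w)) z = 0 := by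
    simp only [hGz, zero_div]
  have hmaps : MapsTo (fun w => G w / (2 * a - G w)) (ball z ρ)
      (closedBall ((fun w => G w / (2 * a - G w)) z) 1) := by
    intro w hw
    rw [hφz, mem_closedBall, dist_zero_right, norm_div]
    have h0 : 0 < ‖(2 * a : ℂ) - G w‖ := norm_pos_iff.2 (hden w hw)
    rw [div_le_one h0, ← sq_le_sq₀ (norm_nonneg _) (norm_nonneg _), ← Complex.normSq_eq_norm_sq,
      ← Complex.normSq_eq_norm_sq, Complex.normSq_apply, Complex.normSq_apply]
    simp only [Complex.sub_re, Complex.mul_re, Complex.re_ofNat, Complex.ofReal_re,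
      Complex.im_ofNat, Complex.ofReal_im, mul_zero, sub_zero, Complex.sub_im, Complex.mul_im,
      zero_mul, add_zero, zero_sub]
    have h2 := hre w hw
    nlinarith
  have hS := Complex.norm_deriv_le_div_of_mapsTo_ball hφ hmaps hρ
  have hGd : HasDerivAt G (deriv G z) z :=
    (hG.differentiableAt (isOpen_ball.mem_nhds hz)).hasDerivAt
  have hd : HasDerivAt (fun w => G w / (2 * a - G w))
      ((deriv G z * (2 * a - G z) - G z * (0 - deriv G z)) / (2 * a - G z) ^ 2) z :=
    hGd.div ((hasDerivAt_const z _).sub hGd) (hden z hz)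
  rw [hd.deriv, hGz] at hS
  have h2a : (2 * (a : ℂ)) ≠ 0 := by
    have : (a : ℂ) ≠ 0 := by exact_mod_cast ha.ne'
    exact mul_ne_zero two_ne_zero this
  have h3 : (deriv G z * (2 * a - 0) - 0 * (0 - deriv G z)) / (2 * a - 0) ^ 2
      = deriv G z / (2 * a) := by
    rw [sub_zero, zero_mul, sub_zero, div_eq_div_iff (pow_ne_zero 2 h2a) h2a]
    ring
  rw [h3, norm_div] at hS
  have h4 : ‖(2 * (a : ℂ))‖ = 2 * a := by
    rw [norm_mul, Complex.norm_real, Complex.norm_ofNat, Real.norm_of_nonneg ha.le]
  rw [h4, div_le_iff₀ (by positivity)] at hS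
  calc ‖deriv G z‖ ≤ 1 / ρ * (2 * a) := hS
    _ = 2 * a / ρ := by ring

end GradEst'

theorem s_GradEst : Bridge → GradEst := by
  intro hB f z ρ ω hρ hf hω
  have hz : z ∈ ball z ρ := mem_ball_self hρ
  have hω0 : 0 ≤ ω := (abs_nonneg _).trans (hω z hz)
  have hh : InnerProductSpace.HarmonicOnNhd f (ball z ρ) := (hB f _ isOpen_ball).1 hf
  obtain ⟨F, hF1, hF2⟩ := InnerProductSpace.HarmonicOnNhd.exists_analyticOnNhd_ball_re_eq hh
  have hFd : DifferentiableOn ℂ F (ball z ρ) := hF1.differentiableOn
  have hre : ∀ w ∈ ball z ρ, (F w).re = f w := fun w hw => hF2 hw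
  -- the derivative of `F`
  have hbound : ∀ a, ω < a → ‖deriv F z‖ ≤ 2 * a / ρ := by
    intro a ha
    have h1 := GradEst'.deriv_bound (G := fun w => F w - F z) hρ (hω0.trans_lt ha)
      (hFd.sub (differentiableOn_const _)) (sub_self _) (fun w hw => by
        rw [Complex.sub_re, hre w hw, hre z hz]
        exact (le_abs_self _).trans_lt ((hω w hw).trans_lt ha))
    rwa [deriv_sub_const] at h1
  have hb2 : ‖deriv F z‖ ≤ 2 * ω / ρ := by
    apply le_of_forall_pos_le_add
    intro e he
    have h1 := hbound (ω + e * ρ / 2) (by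
      have : 0 < e * ρ / 2 := by positivity
      linarith)
    have h2 : 2 * (ω + e * ρ / 2) / ρ = 2 * ω / ρ + e := by
      field_simp
    linarith
  -- the derivative of `f`
  have hFz : HasDerivAt F (deriv F z) z :=
    (hFd.differentiableAt (isOpen_ball.mem_nhds hz)).hasDerivAt
  have hFr : HasFDerivAt F
      ((ContinuousLinearMap.toSpanSingleton ℂ (deriv F z)).restrictScalars ℝ) z :=
    hFz.hasFDerivAt.restrictScalars ℝ
  have hf1 : HasFDerivAt (fun w => (F w).re)
      (Complex.reCLM.comp
        ((ContinuousLinearMap.toSpanSingleton ℂ (deriv F z)).restrictScalars ℝ)) z :=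
    Complex.reCLM.hasFDerivAt.comp z hFr
  have hf2 : HasFDerivAt f
      (Complex.reCLM.comp
        ((ContinuousLinearMap.toSpanSingleton ℂ (deriv F z)).restrictScalars ℝ)) z := by
    apply hf1.congr_of_eventuallyEq
    filter_upwards [isOpen_ball.mem_nhds hz] with w hw
    exact (hre w hw).symm
  rw [hf2.fderiv]
  have h5 : ‖Complex.reCLM.comp
      ((ContinuousLinearMap.toSpanSingleton ℂ (deriv F z)).restrictScalars ℝ)‖
      ≤ ‖deriv F z‖ := by
    apply ContinuousLinearMap.opNorm_le_bound _ (norm_nonneg _)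
    intro v
    have h6 : (Complex.reCLM.comp
      ((ContinuousLinearMap.toSpanSingleton ℂ (deriv F z)).restrictScalars ℝ)) v
        = (v * deriv F z).re := by
      simp
    rw [h6, Real.norm_eq_abs]
    refine (Complex.abs_re_le_norm _).trans ?_
    rw [norm_mul, mul_comm]
  refine (h5.trans hb2).trans ?_
  apply div_le_div_of_nonneg_right _ hρ.le
  linarith

end Pool.MP_31392c_an
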