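import Pool.Agent.Lib.MP_31392c_an.Full.SpecB
import Pool.Agent.Lib.MP_31392c_an.Full.SpecD

/-!
# MP_31392c_an: GradSmall
-/

set_option autoImplicit false

open MeasureTheory Set Filter Topology Metric

namespace Pool.MP_31392c_an

theorem s_GradSmall : GradEst → GradSmall := by
  intro hG V a r₀ hr₀ hV hc hh ε hε
  have huc : UniformContinuousOn a (closedBall (0 : ℂ) 1) :=
    (isCompact_closedBall (0 : ℂ) 1).uniformContinuousOn_of_continuous hc
  rw [Metric.uniformContinuousOn_iff] at huc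
  obtain ⟨d, hd, hdd⟩ := huc (ε / 4) (by positivity)
  refine ⟨min d ((1 - r₀) / 2), lt_min hd (by linarith), ?_⟩
  intro z hz1 hz2
  have hδ1 : min d ((1 - r₀) / 2) ≤ d := min_le_left _ _
  have hδ2 : min d ((1 - r₀) / 2) ≤ (1 - r₀) / 2 := min_le_right _ _
  have hρ : 0 < 1 - ‖z‖ := by linarith
  have hw : ∀ w ∈ ball z (1 - ‖z‖), ‖w‖ < 1 ∧ r₀ ≤ ‖w‖ ∧ dist w z < d := by
    intro w hw
    rw [mem_ball] at hw
    have h1 : ‖w‖ ≤ ‖z‖ + dist w z := by
      rw [dist_eq_norm]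
      have : w = z + (w - z) := by ring
      calc ‖w‖ = ‖z + (w - z)‖ := by rw [← this]
        _ ≤ ‖z‖ + ‖w - z‖ := norm_add_le _ _
    have h2 : ‖z‖ ≤ ‖w‖ + dist w z := by
      rw [dist_comm, dist_eq_norm]
      have : z = w + (z - w) := by ring
      calc ‖z‖ = ‖w + (z - w)‖ := by rw [← this]
        _ ≤ ‖w‖ + ‖z - w‖ := norm_add_le _ _
    refine ⟨by linarith, by linarith, by linarith⟩
  have h := hG a z (1 - ‖z‖) (ε / 4) hρ ?_ ?_
  · have h3 : 4 * (ε / 4) / (1 - ‖z‖) * (1 - ‖z‖) = ε := by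
      field_simp
    calc ‖fderiv ℝ a z‖ * (1 - ‖z‖) ≤ 4 * (ε / 4) / (1 - ‖z‖) * (1 - ‖z‖) :=
          mul_le_mul_of_nonneg_right h hρ.le
      _ = ε := h3
  · intro w hwb
    obtain ⟨h1, h2, -⟩ := hw w hwb
    have h3 := hh w (by rw [mem_ball_zero_iff]; exact h1)
    refine ⟨h3.1, ?_⟩
    rw [h3.2, hV w h2, zero_mul]
  · intro w hwb
    obtain ⟨h1, h2, h3⟩ := hw w hwb
    have h4 := hdd w (by rw [mem_closedBall_zero_iff]; exact h1.le) z
      (by rw [mem_closedBall_zero_iff]; exact hz2.le) h3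
    rw [Real.dist_eq] at h4
    exact h4.le

end Pool.MP_31392c_an
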