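import Mathlib
import Pool.Agent.Lib.MP_31392c_an.Full.SpecG

/-!
# MP_31392c_an full proof: GreenAsym
-/

set_option autoImplicit false

open MeasureTheory Set Filter Topology Metric

namespace Pool.MP_31392c_an

namespace GreenAsym

private theorem log_deriv {z : ℂ} (hz : z ≠ 0) :
    HasFDerivAt (fun w : ℂ => Real.log ‖w‖)
      ((1 / ‖z‖ ^ 2) • (z.re • Complex.reCLM + z.im • Complex.imCLM)) z := by
  have hpos : 0 < z.re ^ 2 + z.im ^ 2 := by
    have h1 := Complex.normSq_pos.2 hz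
    rw [Complex.normSq_apply] at h1
    nlinarith
  have h1 : HasFDerivAt (fun w : ℂ => w.re ^ 2 + w.im ^ 2)
      ((2 * z.re) • Complex.reCLM + (2 * z.im) • Complex.imCLM) z := by
    have hre : HasFDerivAt (fun v : ℂ => v.re) Complex.reCLM z := Complex.reCLM.hasFDerivAt
    have him : HasFDerivAt (fun v : ℂ => v.im) Complex.imCLM z := Complex.imCLM.hasFDerivAt
    have h := (hre.pow 2).add (him.pow 2)
    refine h.congr_fderiv ?_
    norm_num
  have h2 := (h1.log hpos.ne').const_mul (1 / 2 : ℝ)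
  have h3 : (fun w : ℂ => Real.log ‖w‖) = fun w => 1 / 2 * Real.log (w.re ^ 2 + w.im ^ 2) := by
    funext w
    have h4 : w.re ^ 2 + w.im ^ 2 = ‖w‖ ^ 2 := by
      rw [Complex.sq_norm, Complex.normSq_apply]
      ring
    rw [h4, Real.log_pow]
    push_cast
    ring
  rw [h3]
  refine h2.congr_fderiv ?_
  have h4 : ‖z‖ ^ 2 = z.re ^ 2 + z.im ^ 2 := by
    rw [Complex.sq_norm, Complex.normSq_apply]
    ring
  rw [h4]
  ext v
  simp only [ContinuousLinearMap.smul_apply, ContinuousLinearMap.add_apply, smul_eq_mul]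
  field_simp

private theorem inv_deriv {z : ℂ} (hz : z ≠ 0) (h : ℂ → ℝ) (L : ℂ →L[ℝ] ℝ)
    (hL : HasFDerivAt h L z⁻¹) :
    ∃ L' : ℂ →L[ℝ] ℝ, HasFDerivAt (fun w : ℂ => h w⁻¹) L' z ∧
      ∀ e, ‖L' e‖ ≤ ‖L‖ * (‖e‖ / ‖z‖ ^ 2) := by
  have h1 : HasFDerivAt (fun w : ℂ => w⁻¹)
      ((ContinuousLinearMap.toSpanSingleton ℂ (-(z ^ 2)⁻¹)).restrictScalars ℝ) z :=
    (hasDerivAt_inv hz).hasFDerivAt.restrictScalars ℝ
  refine ⟨L.comp ((ContinuousLinearMap.toSpanSingleton ℂ (-(z ^ 2)⁻¹)).restrictScalars ℝ),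
    hL.comp z h1, fun e => ?_⟩
  have h2 : (L.comp ((ContinuousLinearMap.toSpanSingleton ℂ (-(z ^ 2)⁻¹)).restrictScalars ℝ)) e
      = L (e * (-(z ^ 2)⁻¹)) := rfl
  rw [h2]
  refine (L.le_opNorm _).trans ?_
  rw [norm_mul, norm_neg, norm_inv, norm_pow, div_eq_mul_inv]

end GreenAsym

open GreenAsym in
theorem s_GreenAsym : GreenAsym := by
  intro V F u κ hG
  obtain ⟨h, r, hr, hh, h0, hu⟩ := hG.infty
  have hcont : ContinuousOn (fderiv ℝ h) (closedBall 0 (r / 2)) := by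
    intro w hw
    have hw' : ‖w‖ < r := by
      have := mem_closedBall_zero_iff.1 hw
      linarith
    have h1 : ContDiffAt ℝ 1 (fderiv ℝ h) w := (hh w hw').1.fderiv_right (by norm_num)
    exact h1.continuousAt.continuousWithinAt
  obtain ⟨C₁, hC₁⟩ := (isCompact_closedBall (0 : ℂ) (r / 2)).exists_bound_of_continuousOn hcont
  have hC₁0 : 0 ≤ C₁ := (norm_nonneg _).trans (hC₁ 0 (mem_closedBall_self (by positivity)))
  have hhb : ∀ w ∈ closedBall (0 : ℂ) (r / 2), |h w| ≤ C₁ * ‖w‖ := by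
    intro w hw
    have h1 := (convex_closedBall (0 : ℂ) (r / 2)).norm_image_sub_le_of_norm_fderiv_le
      (f := h) (𝕜 := ℝ) (C := C₁) (fun x hx => by
        have hx' : ‖x‖ < r := by
          have := mem_closedBall_zero_iff.1 hx
          linarith
        exact (hh x hx').1.differentiableAt (by norm_num)) hC₁
      (mem_closedBall_self (by positivity)) hw
    rw [h0, sub_zero, sub_zero] at h1
    exact h1
  refine ⟨C₁, max 1 (2 / r), le_max_left _ _, hC₁0, fun z hz => ?_⟩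
  have hz1 : 1 ≤ ‖z‖ := (le_max_left _ _).trans hz
  have hz2 : 2 / r ≤ ‖z‖ := (le_max_right _ _).trans hz
  have hz0 : z ≠ 0 := by
    rintro rfl
    simp at hz1
    linarith
  have hpos : 0 < ‖z‖ := by linarith
  have hzr : 1 / r < ‖z‖ := by
    refine lt_of_lt_of_le ?_ hz2
    exact (div_lt_div_iff_of_pos_right hr).2 (by norm_num)
  have hinv : z⁻¹ ∈ closedBall (0 : ℂ) (r / 2) := by
    rw [mem_closedBall_zero_iff, norm_inv]
    rw [inv_le_comm₀ hpos (by positivity)]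
    calc (r / 2)⁻¹ = 2 / r := by rw [inv_div]
      _ ≤ ‖z‖ := hz2
  have hinv' : ‖z⁻¹‖ < r := by
    have := mem_closedBall_zero_iff.1 hinv
    linarith
  have hev : u =ᶠ[𝓝 z] fun w => Real.log ‖w‖ - κ + h w⁻¹ := by
    have : ∀ᶠ w : ℂ in 𝓝 z, 1 / r < ‖w‖ := continuous_norm.continuousAt.eventually (lt_mem_nhds hzr)
    filter_upwards [this] with w hw
    exact hu w hw
  have hCh : ContDiffAt ℝ 2 h z⁻¹ := (hh z⁻¹ hinv').1
  have hCD : ContDiffAt ℝ 2 (fun w : ℂ => Real.log ‖w‖ - κ + h w⁻¹) z := by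
    have h1 : ContDiffAt ℝ 2 (fun w : ℂ => Real.log ‖w‖) z :=
      (contDiffAt_norm ℝ hz0).log (norm_ne_zero_iff.2 hz0)
    have h2 : ContDiffAt ℝ 2 (fun w : ℂ => w⁻¹) z := (contDiffAt_inv ℂ hz0).restrict_scalars ℝ
    have h3 : ContDiffAt ℝ 2 (fun w : ℂ => h w⁻¹) z := hCh.comp z h2
    exact (h1.sub contDiffAt_const).add h3
  obtain ⟨L', hL', hL'b⟩ := inv_deriv hz0 h (fderiv ℝ h z⁻¹)
    (hCh.differentiableAt (by norm_num)).hasFDerivAt
  have hfd : fderiv ℝ u z = (1 / ‖z‖ ^ 2) • (z.re • Complex.reCLM + z.im • Complex.imCLM) + L' := by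
    rw [hev.fderiv_eq]
    exact (((log_deriv hz0).sub_const κ).add hL').fderiv
  have hLz : ‖fderiv ℝ h z⁻¹‖ ≤ C₁ := hC₁ _ hinv
  refine ⟨hCD.congr_of_eventuallyEq hev, ?_, ?_, ?_⟩
  · rw [hu z hzr]
    have h1 := hhb _ hinv
    rw [norm_inv, ← div_eq_mul_inv] at h1
    have h2 : Real.log ‖z‖ - κ + h z⁻¹ - (Real.log ‖z‖ - κ) = h z⁻¹ := by ring
    rw [h2]
    exact h1
  · have h1 : dX u z - z.re / ‖z‖ ^ 2 = L' 1 := by
      unfold dX
      rw [hfd]
      simp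
      ring
    rw [h1]
    have h2 := hL'b 1
    rw [norm_one, Real.norm_eq_abs] at h2
    calc |L' 1| ≤ ‖fderiv ℝ h z⁻¹‖ * (1 / ‖z‖ ^ 2) := h2
      _ ≤ C₁ * (1 / ‖z‖ ^ 2) := mul_le_mul_of_nonneg_right hLz (by positivity)
      _ = C₁ / ‖z‖ ^ 2 := by ring
  · have h1 : dY u z - z.im / ‖z‖ ^ 2 = L' Complex.I := by
      unfold dY
      rw [hfd]
      simp
      ring
    rw [h1]
    have h2 := hL'b Complex.I
    rw [Complex.norm_I, Real.norm_eq_abs] at h2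
    calc |L' Complex.I| ≤ ‖fderiv ℝ h z⁻¹‖ * (1 / ‖z‖ ^ 2) := h2
      _ ≤ C₁ * (1 / ‖z‖ ^ 2) := mul_le_mul_of_nonneg_right hLz (by positivity)
      _ = C₁ / ‖z‖ ^ 2 := by ring

end Pool.MP_31392c_an
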