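import Mathlib
import Pool.Agent.Lib.MP_31392c_an.Full.SpecG
import Pool.Agent.Lib.MP_31392c_an.Full.DiscGreen

/-!
# MP_31392c_an full proof: GreenEx
-/

set_option autoImplicit false

open MeasureTheory Set Filter Topology Metric

namespace Pool.MP_31392c_an

namespace GreenEx

lemma lap_const (c : ℝ) (z : ℂ) : lap (fun _ => c) z = 0 := by
  have h1 : dX (fun _ : ℂ => c) = fun _ => 0 := by
    funext w
    simp [dX]
  have h2 : dY (fun _ : ℂ => c) = fun _ => 0 := by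
    funext w
    simp [dY]
  unfold lap
  rw [h1, h2]
  simp [dX, dY]

/-- `v ζ - log ‖ζ‖` is small near the unit circle. -/
lemma small (v : ℂ → ℝ) (hv : ContinuousOn v (closedBall 0 1)) (hv0 : ∀ z, ‖z‖ = 1 → v z = 0)
    (ε : ℝ) (hε : 0 < ε) : ∃ r : ℝ, 0 < r ∧ r < 1 ∧ ∀ ζ : ℂ, r < ‖ζ‖ → ‖ζ‖ < 1 →
      v ζ - Real.log ‖ζ‖ < ε := by
  have huc := (isCompact_closedBall (0 : ℂ) 1).uniformContinuousOn_of_continuous hv
  obtain ⟨δ, hδ, h⟩ := Metric.uniformContinuousOn_iff.1 huc (ε / 2) (by linarith)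
  refine ⟨max (max (1 / 2) (1 - δ / 2)) (Real.exp (-(ε / 2))), by positivity, ?_, ?_⟩
  · refine max_lt (max_lt (by norm_num) (by linarith)) ?_
    rw [Real.exp_lt_one_iff]
    linarith
  · intro ζ h1 h2
    have h3 : 1 / 2 < ‖ζ‖ := lt_of_le_of_lt ((le_max_left _ _).trans (le_max_left _ _)) h1
    have h4 : 1 - δ / 2 < ‖ζ‖ := lt_of_le_of_lt ((le_max_right _ _).trans (le_max_left _ _)) h1
    have h5 : Real.exp (-(ε / 2)) < ‖ζ‖ := lt_of_le_of_lt (le_max_right _ _) h1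
    have hpos : 0 < ‖ζ‖ := by linarith
    have h6 : -(ε / 2) < Real.log ‖ζ‖ := by
      rw [Real.lt_log_iff_exp_lt hpos]
      exact h5
    obtain ⟨ζ', hζ'⟩ : ∃ ζ' : ℂ, ζ' = ((‖ζ‖⁻¹ : ℝ) : ℂ) * ζ := ⟨_, rfl⟩
    have h7 : ‖ζ'‖ = 1 := by
      rw [hζ', norm_mul, Complex.norm_real, Real.norm_eq_abs, abs_of_pos (inv_pos.2 hpos)]
      exact inv_mul_cancel₀ hpos.ne'
    have h8 : dist ζ ζ' < δ := by
      have e1 : ζ' - ζ = ((‖ζ‖⁻¹ - 1 : ℝ) : ℂ) * ζ := by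
        rw [hζ']
        push_cast
        ring
      have e2 : (0 : ℝ) ≤ ‖ζ‖⁻¹ - 1 := by
        have := (one_le_inv₀ hpos).2 h2.le
        linarith
      rw [dist_comm, dist_eq_norm, e1, norm_mul, Complex.norm_real, Real.norm_eq_abs,
        abs_of_nonneg e2, sub_mul, inv_mul_cancel₀ hpos.ne']
      linarith
    have h9 := h ζ (by simpa using h2.le) ζ' (by simp [h7]) h8
    rw [hv0 ζ' h7, Real.dist_eq, sub_zero] at h9
    have := (abs_lt.1 h9).2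
    linarith

/-- the core of the proof -/
lemma core (hinv : StarInv) (hconf : Conf) (F : Set ℂ) (φ : ℂ → ℂ) (C : ℝ) (V W v : ℂ → ℝ)
    (r₁ : ℝ) (hφ : StarMap F φ C) (hr₁ : 0 < r₁)
    (hv : ContinuousOn v (closedBall 0 1)) (hv0 : ∀ z, ‖z‖ = 1 → v z = 0)
    (hv2 : ∀ z ∈ ball (0 : ℂ) 1, ContDiffAt ℝ 2 v z ∧ lap v z = W z * (v z - Real.log ‖z‖))
    (hpos : ∀ z, z ≠ 0 → ‖z‖ < 1 → 0 < v z - Real.log ‖z‖)
    (hW : ∀ ζ, ζ ≠ 0 → ‖ζ‖ < 1 → W ζ = V (φ ζ) * ‖deriv φ ζ‖ ^ 2)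
    (hW0 : ∀ w, ‖w‖ ≤ r₁ → W w = 0) :
    ∃ u : ℂ → ℝ, IsGreen V F u (Real.log C - v 0) ∧
      ∀ ζ, ζ ≠ 0 → ‖ζ‖ < 1 → u (φ ζ) = v ζ - Real.log ‖ζ‖ := by
  classical
  obtain ⟨hF, -, ψ, hψ, hψφ, hclosed, χ, r, hr, hχ, hχ0, hχ', hψχ⟩ := hinv F φ C hφ
  have hC : 0 < C := hφ.Cpos
  obtain ⟨û, hû⟩ : ∃ û : ℂ → ℝ, ∀ ζ, û ζ = v ζ - Real.log ‖ζ‖ := ⟨_, fun _ => rfl⟩
  have hûf : û = fun ζ => v ζ - Real.log ‖ζ‖ := funext hû
  have hû2 : ∀ ζ, ζ ≠ 0 → ‖ζ‖ < 1 → ContDiffAt ℝ 2 û ζ ∧ lap û ζ = W ζ * û ζ := by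
    intro ζ h0 h1
    obtain ⟨e1, e2⟩ := hv2 ζ (by simpa using h1)
    have e3 := DiscGreen.contDiffAt_log h0 2
    rw [hûf]
    refine ⟨e1.sub e3, ?_⟩
    rw [DiscGreen.lap_sub e1 e3, DiscGreen.lap_log h0, e2]
    ring
  obtain ⟨u, hu⟩ : ∃ u : ℂ → ℝ, ∀ z, u z = if z ∈ F then 0 else û (ψ z) := ⟨_, fun _ => rfl⟩
  have huF : ∀ z ∈ F, u z = 0 := fun z hz => by rw [hu, if_pos hz]
  have huFc : ∀ z, z ∉ F → u z = û (ψ z) := fun z hz => by rw [hu, if_neg hz]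
  have hopen : IsOpen Fᶜ := hF.isClosed.isOpen_compl
  have hev : ∀ z, z ∉ F → u =ᶠ[𝓝 z] fun w => û (ψ w) := by
    intro z hz
    filter_upwards [hopen.mem_nhds hz] with w hw
    exact huFc w hw
  have hharm : VHarm V u Fᶜ := by
    intro z hz
    obtain ⟨k1, k2, k3, k4, k5⟩ := hψ z hz
    obtain ⟨c1, c2⟩ := hû2 (ψ z) k1 k2
    obtain ⟨d1, d2, -⟩ := hconf û û ψ z k4 c1 c1
    refine ⟨d1.congr_of_eventuallyEq (hev z hz), ?_⟩
    rw [DiscGreen.lap_congr (hev z hz), d2, c2, huFc z hz, hW _ k1 k2, k3]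
    have e1 : ‖deriv ψ z‖ ^ 2 * ‖deriv φ (ψ z)‖ ^ 2 = 1 := by
      rw [← mul_pow, ← norm_mul, k5]
      simp
    linear_combination (V z * û (ψ z)) * e1
  have hupos : ∀ z, z ∉ F → 0 < u z := by
    intro z hz
    obtain ⟨k1, k2, -, -, -⟩ := hψ z hz
    rw [huFc z hz, hû]
    exact hpos _ k1 k2
  have hcont : Continuous u := by
    rw [continuous_iff_continuousAt]
    intro z
    by_cases hz : z ∈ F
    · rw [Metric.continuousAt_iff']
      intro ε hε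
      obtain ⟨ρ, hρ0, hρ1, hρ⟩ := small v hv hv0 ε hε
      have hcl := hclosed ρ hρ0 hρ1
      have hzS : z ∈ ({w | w ∉ F ∧ ‖ψ w‖ ≤ ρ}ᶜ : Set ℂ) := fun h => h.1 hz
      filter_upwards [hcl.isOpen_compl.mem_nhds hzS] with w hw
      rw [huF z hz, Real.dist_eq, sub_zero]
      by_cases hwF : w ∈ F
      · rw [huF w hwF]
        simpa using hε
      · have h1 : ρ < ‖ψ w‖ := by
          by_contra hcon
          exact hw ⟨hwF, not_lt.1 hcon⟩
        obtain ⟨k1, k2, -, -, -⟩ := hψ w hwF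
        rw [abs_of_pos (hupos w hwF), huFc w hwF, hû]
        exact hρ _ h1 k2
    · exact (hharm z hz).1.continuousAt
  refine ⟨u, ⟨hcont, huF, hupos, hharm, ?_⟩, ?_⟩
  · -- infinity
    have hχc : ContinuousAt χ 0 := (hχ 0 (by simpa using hr)).1.continuousAt
    obtain ⟨r', hr'0, hr'r, hr'⟩ : ∃ r' : ℝ, 0 < r' ∧ r' ≤ r ∧ ∀ w, ‖w‖ < r' → ‖χ w‖ < r₁ := by
      rw [Metric.continuousAt_iff] at hχc
      obtain ⟨δ, hδ, h⟩ := hχc r₁ hr₁
      refine ⟨min δ r, lt_min hδ hr, min_le_right _ _, fun w hw => ?_⟩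
      have := h (x := w) (by simpa using lt_of_lt_of_le hw (min_le_left _ _))
      simpa [hχ0] using this
    obtain ⟨g, hg⟩ : ∃ g : ℂ → ℂ, g = dslope χ 0 := ⟨_, rfl⟩
    have hg0 : g 0 = (C : ℂ) := by rw [hg, dslope_same, hχ']
    have hgw : ∀ w, w ≠ 0 → g w = χ w / w := by
      intro w hw
      rw [hg, dslope_of_ne _ hw, slope_def_field, hχ0]
      simp
    have hgan : ∀ w, ‖w‖ < r → AnalyticAt ℂ g w := by
      have hd : DifferentiableOn ℂ χ (ball 0 r) := fun w hw =>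
        (hχ w (by simpa using hw)).1.differentiableAt.differentiableWithinAt
      have hd2 : DifferentiableOn ℂ (dslope χ 0) (ball 0 r) :=
        (Complex.differentiableOn_dslope (ball_mem_nhds 0 hr)).2 hd
      intro w hw
      rw [hg]
      exact (hd2.analyticOnNhd isOpen_ball) w (by simpa using hw)
    have hgne : ∀ w, ‖w‖ < r → g w ≠ 0 := by
      intro w hw
      by_cases h0 : w = 0
      · rw [h0, hg0]
        exact_mod_cast hC.ne'
      · rw [hgw w h0]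
        exact div_ne_zero ((hχ w hw).2.2 h0) h0
    refine ⟨fun w => (v (χ w) - Real.log ‖g w‖) - (v 0 - Real.log C), r', hr'0, ?_, ?_, ?_⟩
    · intro w hw
      have hwr : ‖w‖ < r := lt_of_lt_of_le hw hr'r
      obtain ⟨a1, a2, a3⟩ := hχ w hwr
      obtain ⟨b1, b2⟩ := hv2 (χ w) (by simpa using a2)
      obtain ⟨c1, c2, -⟩ := hconf v v χ w a1 b1 b1
      have d0 := DiscGreen.contDiffAt_log (hgne w hwr) 2
      obtain ⟨d1, d2, -⟩ := hconf (fun z => Real.log ‖z‖) (fun z => Real.log ‖z‖) g w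
        (hgan w hwr) d0 d0
      have e1 : lap (fun w => v (χ w)) w = 0 := by
        rw [c2, b2, hW0 _ (hr' w hw).le]
        ring
      have e2 : lap (fun w => Real.log ‖g w‖) w = 0 := by
        rw [d2, DiscGreen.lap_log (hgne w hwr)]
        ring
      have f1 : ContDiffAt ℝ 2 (fun w => v (χ w) - Real.log ‖g w‖) w := c1.sub d1
      have f2 : ContDiffAt ℝ 2 (fun _ : ℂ => v 0 - Real.log C) w := contDiffAt_const
      refine ⟨f1.sub f2, ?_⟩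
      rw [DiscGreen.lap_sub f1 f2, DiscGreen.lap_sub c1 d1, e1, e2, lap_const]
      ring
    · simp only
      rw [hχ0, hg0, Complex.norm_real, Real.norm_eq_abs, abs_of_pos hC]
      ring
    · intro z hz
      have hz0 : 0 < ‖z‖ := lt_trans (by positivity) hz
      have hzr : 1 / r < ‖z‖ := lt_of_le_of_lt (one_div_le_one_div_of_le hr'0 hr'r) hz
      obtain ⟨k1, k2⟩ := hψχ z hzr
      have hw : ‖z⁻¹‖ < r := by
        rw [norm_inv]
        rw [one_div] at hzr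
        exact inv_lt_of_inv_lt₀ hr hzr
      have hzne : z ≠ 0 := norm_pos_iff.1 hz0
      have hwne : z⁻¹ ≠ 0 := inv_ne_zero hzne
      have hχne : χ z⁻¹ ≠ 0 := (hχ _ hw).2.2 hwne
      have e1 : Real.log ‖g z⁻¹‖ = Real.log ‖χ z⁻¹‖ + Real.log ‖z‖ := by
        rw [hgw _ hwne, div_inv_eq_mul, norm_mul,
          Real.log_mul (norm_ne_zero_iff.2 hχne) hz0.ne']
      rw [huFc z k1, k2, hû]
      simp only
      rw [e1]
      ring
  · intro ζ h0 h1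
    have hζ : φ ζ ∉ F := by
      have : φ ζ ∈ Fᶜ := by
        rw [← hφ.image]
        exact ⟨ζ, ⟨h0, h1⟩, rfl⟩
      exact this
    rw [huFc _ hζ, (hψφ ζ h0 h1).1, hû]

end GreenEx

theorem s_GreenEx : StarInv → PullPot → DiscGreen → Conf → Bridge → GreenEx := by
  intro hinv hpull hdisc hconf _
  constructor
  · intro V F φ C hφ hV hdis
    obtain ⟨W, r₀, r₁, hW1, hW0, hr₁, hr₀, hr₀1, hWo, hWi, hWφ⟩ := hpull F φ C V hφ hV hdis
    obtain ⟨v, hv, hv0, hv2, hpos⟩ := hdisc W r₀ r₁ hW1 hW0 hr₁ hr₀ hr₀1 hWo hWi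
    obtain ⟨u, hu, -⟩ := GreenEx.core hinv hconf F φ C V W v r₁ hφ hr₁ hv hv0 hv2 hpos hWφ hWi
    exact ⟨u, _, hu⟩
  · intro F φ C hφ
    obtain ⟨u, hu, hu2⟩ := GreenEx.core hinv hconf F φ C (fun _ => 0) (fun _ => 0) (fun _ => 0) 1
      hφ one_pos continuousOn_const (fun _ _ => rfl) (fun z _ => ⟨contDiffAt_const, by
        rw [GreenEx.lap_const]; ring⟩) (fun z h0 h1 => by
          have := Real.log_neg (norm_pos_iff.2 h0) h1
          linarith) (fun ζ _ _ => by ring) (fun _ _ => rfl)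
    refine ⟨u, by simpa using hu, fun ζ h0 h1 => ?_⟩
    rw [hu2 ζ h0 h1]
    ring

end Pool.MP_31392c_an
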