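import Pool.Agent.Lib.MP_31392c_an.Full.SpecG
import Pool.Agent.Lib.MP_31392c_an.DualA

/-!
# MP_31392c_an full proof: the gradient of a Green function is locally square integrable
-/

set_option autoImplicit false

open MeasureTheory Set Filter Topology Metric

namespace Pool.MP_31392c_an

namespace GreenL2Aux

variable {f g : ℂ → ℝ} {z : ℂ}

theorem dX_mul (hf : DifferentiableAt ℝ f z) (hg : DifferentiableAt ℝ g z) :
    dX (fun w => f w * g w) z = dX f z * g z + f z * dX g z := by
  unfold dX
  rw [fderiv_fun_mul hf hg]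
  simp only [add_apply, smul_apply, smul_eq_mul]
  ring

theorem dY_mul (hf : DifferentiableAt ℝ f z) (hg : DifferentiableAt ℝ g z) :
    dY (fun w => f w * g w) z = dY f z * g z + f z * dY g z := by
  unfold dY
  rw [fderiv_fun_mul hf hg]
  simp only [add_apply, smul_apply, smul_eq_mul]
  ring

theorem fderiv_comp' {T : ℝ → ℝ} {t' : ℝ} (hT : HasDerivAt T t' (f z))
    (hf : DifferentiableAt ℝ f z) : fderiv ℝ (fun w => T (f w)) z = t' • fderiv ℝ f z :=
  (hT.comp_hasFDerivAt z hf.hasFDerivAt).fderiv

theorem dX_comp {T : ℝ → ℝ} {t' : ℝ} (hT : HasDerivAt T t' (f z))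
    (hf : DifferentiableAt ℝ f z) : dX (fun w => T (f w)) z = t' * dX f z := by
  unfold dX
  rw [fderiv_comp' hT hf]
  rfl

theorem dY_comp {T : ℝ → ℝ} {t' : ℝ} (hT : HasDerivAt T t' (f z))
    (hf : DifferentiableAt ℝ f z) : dY (fun w => T (f w)) z = t' * dY f z := by
  unfold dY
  rw [fderiv_comp' hT hf]
  rfl

theorem dX_contDiffAt (hf : ContDiffAt ℝ 2 f z) : ContDiffAt ℝ 1 (dX f) z := by
  have h := hf.fderiv_right (m := 1) (by norm_num)
  exact h.clm_apply contDiffAt_const

theorem dY_contDiffAt (hf : ContDiffAt ℝ 2 f z) : ContDiffAt ℝ 1 (dY f) z := by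
  have h := hf.fderiv_right (m := 1) (by norm_num)
  exact h.clm_apply contDiffAt_const

theorem gp_continuousAt (hf : ContDiffAt ℝ 2 f z) (hg : ContDiffAt ℝ 2 g z) :
    ContinuousAt (gp f g) z := by
  unfold gp
  exact ((dX_contDiffAt hf).continuousAt.mul (dX_contDiffAt hg).continuousAt).add
    ((dY_contDiffAt hf).continuousAt.mul (dY_contDiffAt hg).continuousAt)

theorem gp_self_nonneg (f : ℂ → ℝ) (z : ℂ) : 0 ≤ gp f f z := by
  unfold gp
  nlinarith [mul_self_nonneg (dX f z), mul_self_nonneg (dY f z)]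

/-- the truncation -/
noncomputable def T (ε s : ℝ) : ℝ := rampInt ε (s - ε)

theorem T_deriv (ε s : ℝ) : HasDerivAt (T ε) (ramp ε (s - ε)) s := by
  have h := (rampInt_hasDerivAt ε (s - ε)).comp s ((hasDerivAt_id s).sub_const ε)
  rw [mul_one] at h
  exact h

theorem T_contDiff (ε : ℝ) : ContDiff ℝ 1 (T ε) :=
  (rampInt_contDiff ε).comp (contDiff_id.sub contDiff_const)

theorem T_zero {ε s : ℝ} (hε : 0 < ε) (hs : s ≤ ε) : T ε s = 0 :=
  rampInt_of_nonpos hε (by linarith)

theorem T_nonneg {ε s : ℝ} (hε : 0 < ε) : 0 ≤ T ε s := by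
  rcases le_or_gt s ε with h | h
  · rw [T_zero hε h]
  · unfold T rampInt
    exact intervalIntegral.integral_nonneg (by linarith) (fun t _ => ramp_nonneg _ _)

theorem T_le {ε s : ℝ} (hε : 0 < ε) (hs : 0 ≤ s) : T ε s ≤ s := by
  rcases le_or_gt s ε with h | h
  · rw [T_zero hε h]
    exact hs
  · exact (rampInt_le (by linarith)).trans (by linarith)

end GreenL2Aux

open GreenL2Aux

theorem s_GreenL2 : DivZero → GreenL2 := by
  intro hD V F u κ hV hV0 hF hF0 hu R
  -- the cutoff
  obtain ⟨R₁, hR₁, hRR₁, hFR₁⟩ : ∃ R₁ : ℝ, 0 < R₁ ∧ R ≤ R₁ ∧ F ⊆ ball 0 R₁ := by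
    obtain ⟨r, hr⟩ := hF.isBounded.subset_ball (0 : ℂ)
    exact ⟨max (max r R) 1, by positivity, (le_max_right _ _).trans (le_max_left _ _),
      hr.trans (ball_subset_ball ((le_max_left _ _).trans (le_max_left _ _)))⟩
  let b : ContDiffBump (0 : ℂ) := ⟨R₁, R₁ + 1, hR₁, by linarith⟩
  obtain ⟨χ, hχs, hχ0, hχ1, hχB, hχc⟩ : ∃ χ : ℂ → ℝ, ContDiff ℝ 2 χ ∧ (∀ z, 0 ≤ χ z) ∧
      (∀ z, χ z ≤ 1) ∧ (∀ z ∈ ball (0 : ℂ) R₁, χ z = 1) ∧ HasCompactSupport χ :=
    ⟨b, b.contDiff, fun z => b.nonneg, fun z => b.le_one,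
      fun z hz => b.one_of_mem_closedBall (ball_subset_closedBall hz), b.hasCompactSupport⟩
  have hKc : IsCompact (tsupport χ) := hχc
  have hout : ∀ z, z ∉ tsupport χ → χ z = 0 ∧ dX χ z = 0 ∧ dY χ z = 0 := by
    intro z hz
    have h1 : χ =ᶠ[𝓝 z] fun _ => 0 := notMem_tsupport_iff_eventuallyEq.1 hz
    have h2 : fderiv ℝ χ z = 0 := by
      rw [h1.fderiv_eq]
      simp
    refine ⟨h1.eq_of_nhds, ?_, ?_⟩
    · unfold dX
      rw [h2]
      rfl
    · unfold dY
      rw [h2]
      rfl
  have hgradB : ∀ z ∈ ball (0 : ℂ) R₁, gp χ u z = 0 := by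
    intro z hz
    have h1 : χ =ᶠ[𝓝 z] fun _ => 1 := by
      filter_upwards [isOpen_ball.mem_nhds hz] with w hw using hχB w hw
    have h2 : fderiv ℝ χ z = 0 := by
      rw [h1.fderiv_eq]
      simp
    unfold gp dX dY
    rw [h2]
    simp
  have hC2 : ∀ z, z ∉ F → ContDiffAt ℝ 2 u z := fun z hz => (hu.harm z hz).1
  have hlap : ∀ z, z ∉ F → lap u z = V z * u z := fun z hz => (hu.harm z hz).2
  have hunn : ∀ z, 0 ≤ u z := by
    intro z
    by_cases hz : z ∈ F
    · rw [hu.zero z hz]
    · exact (hu.pos z hz).le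
  have hsmall : ∀ z ∈ F, ∀ ε > 0, ∀ᶠ w in 𝓝 z, u w < ε := by
    intro z hz ε hε
    apply hu.cont.continuousAt.eventually_lt continuousAt_const
    rw [hu.zero z hz]
    exact hε
  -- continuity criterion
  have hcrit : ∀ f : ℂ → ℝ, (∀ z, z ∉ F → ContinuousAt f z) →
      (∀ z ∈ F, ∀ᶠ w in 𝓝 z, f w = 0) → Continuous f := by
    intro f hf1 hf2
    rw [continuous_iff_continuousAt]
    intro z
    by_cases hz : z ∈ F
    · have h1 : f =ᶠ[𝓝 z] fun _ => 0 := hf2 z hz
      exact continuousAt_const.congr h1.symm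
    · exact hf1 z hz
  -- the bound
  let G : ℂ → ℝ := fun z => u z * gp χ u z
  have hGc : Continuous G := by
    apply hcrit
    · intro z hz
      exact hu.cont.continuousAt.mul (gp_continuousAt hχs.contDiffAt (hC2 z hz))
    · intro z hz
      filter_upwards [isOpen_ball.mem_nhds (hFR₁ hz)] with w hw
      change u w * gp χ u w = 0
      rw [hgradB w hw, mul_zero]
  have hgpout : ∀ z, z ∉ tsupport χ → gp χ u z = 0 := by
    intro z hz
    obtain ⟨-, h2, h3⟩ := hout z hz
    unfold gp
    rw [h2, h3, zero_mul, zero_mul, add_zero]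
  have hGs : HasCompactSupport G := HasCompactSupport.intro hKc fun z hz => by
    change u z * gp χ u z = 0
    rw [hgpout z hz, mul_zero]
  have hGi : Integrable G := hGc.integrable_of_hasCompactSupport hGs
  -- the truncated integrals
  have hmain : ∀ ε : ℝ, 0 < ε →
      Continuous (fun z => χ z * ramp ε (u z - ε) * gp u u z) ∧
      Integrable (fun z => χ z * ramp ε (u z - ε) * gp u u z) ∧
      ∫ z, χ z * ramp ε (u z - ε) * gp u u z ≤ ∫ z, |G z| := by
    intro ε hε
    have hac : Continuous (fun z => χ z * ramp ε (u z - ε) * gp u u z) := by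
      apply hcrit
      · intro z hz
        exact (hχs.continuous.continuousAt.mul
          (((ramp_continuous ε).comp (hu.cont.sub continuous_const)).continuousAt)).mul
          (gp_continuousAt (hC2 z hz) (hC2 z hz))
      · intro z hz
        filter_upwards [hsmall z hz ε hε] with w hw
        rw [ramp_of_nonpos hε (by linarith), mul_zero, zero_mul]
    have has : HasCompactSupport (fun z => χ z * ramp ε (u z - ε) * gp u u z) :=
      HasCompactSupport.intro hKc fun z hz => by
        rw [(hout z hz).1, zero_mul, zero_mul]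
    have hai := hac.integrable_of_hasCompactSupport has (μ := (volume : Measure ℂ))
    have hTc : Continuous fun z => T ε (u z) := (T_contDiff ε).continuous.comp hu.cont
    have hbc : Continuous (fun z => χ z * T ε (u z) * (V z * u z)) :=
      (hχs.continuous.mul hTc).mul (hV.mul hu.cont)
    have hbs : HasCompactSupport (fun z => χ z * T ε (u z) * (V z * u z)) :=
      HasCompactSupport.intro hKc fun z hz => by
        rw [(hout z hz).1, zero_mul, zero_mul]
    have hbi := hbc.integrable_of_hasCompactSupport hbs (μ := (volume : Measure ℂ))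
    have hcc : Continuous (fun z => T ε (u z) * gp χ u z) := by
      apply hcrit
      · intro z hz
        exact hTc.continuousAt.mul (gp_continuousAt hχs.contDiffAt (hC2 z hz))
      · intro z hz
        filter_upwards [hsmall z hz ε hε] with w hw
        rw [T_zero hε hw.le, zero_mul]
    have hcs : HasCompactSupport (fun z => T ε (u z) * gp χ u z) :=
      HasCompactSupport.intro hKc fun z hz => by
        rw [hgpout z hz, mul_zero]
    have hci := hcc.integrable_of_hasCompactSupport hcs (μ := (volume : Measure ℂ))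
    -- the field
    let H : ℂ → ℝ := fun z => χ z * T ε (u z)
    have hHz : ∀ z ∈ F, ∀ᶠ w in 𝓝 z, H w = 0 := by
      intro z hz
      filter_upwards [hsmall z hz ε hε] with w hw
      change χ w * T ε (u w) = 0
      rw [T_zero hε hw.le, mul_zero]
    have hH1 : ∀ z, z ∉ F → ContDiffAt ℝ 1 H z := fun z hz =>
      (hχs.contDiffAt.of_le (by norm_num)).mul
        ((T_contDiff ε).contDiffAt.comp z ((hC2 z hz).of_le (by norm_num)))
    have hfield : ∀ D : ℂ → ℝ, (∀ z, z ∉ F → ContDiffAt ℝ 1 D z) →
        ContDiff ℝ 1 (fun z => H z * D z) ∧ HasCompactSupport (fun z => H z * D z) := by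
      intro D hD1
      constructor
      · rw [contDiff_iff_contDiffAt]
        intro z
        by_cases hz : z ∈ F
        · have h1 : (fun z => H z * D z) =ᶠ[𝓝 z] fun _ => 0 := by
            filter_upwards [hHz z hz] with w hw
            rw [hw, zero_mul]
          exact contDiffAt_const.congr_of_eventuallyEq h1
        · exact (hH1 z hz).mul (hD1 z hz)
      · exact HasCompactSupport.intro hKc fun z hz => by
          change χ z * T ε (u z) * D z = 0
          rw [(hout z hz).1, zero_mul, zero_mul]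
    obtain ⟨p1, p2⟩ := hfield (dX u) (fun z hz => dX_contDiffAt (hC2 z hz))
    obtain ⟨q1, q2⟩ := hfield (dY u) (fun z hz => dY_contDiffAt (hC2 z hz))
    have hdiv := hD _ _ p1 q1 p2 q2
    have hpt : ∀ z, dX (fun z => H z * dX u z) z + dY (fun z => H z * dY u z) z =
        χ z * ramp ε (u z - ε) * gp u u z + χ z * T ε (u z) * (V z * u z) +
          T ε (u z) * gp χ u z := by
      intro z
      by_cases hz : z ∈ F
      · have h1 : (fun z => H z * dX u z) =ᶠ[𝓝 z] fun _ => 0 := by
          filter_upwards [hHz z hz] with w hw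
          rw [hw, zero_mul]
        have h2 : (fun z => H z * dY u z) =ᶠ[𝓝 z] fun _ => 0 := by
          filter_upwards [hHz z hz] with w hw
          rw [hw, zero_mul]
        have h3 : dX (fun z => H z * dX u z) z = 0 := by
          change fderiv ℝ (fun z => H z * dX u z) z 1 = 0
          rw [h1.fderiv_eq]
          simp
        have h4 : dY (fun z => H z * dY u z) z = 0 := by
          change fderiv ℝ (fun z => H z * dY u z) z Complex.I = 0
          rw [h2.fderiv_eq]
          simp
        rw [h3, h4, hu.zero z hz, T_zero hε hε.le, ramp_of_nonpos hε (by linarith)]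
        ring
      · have hud : DifferentiableAt ℝ u z := (hC2 z hz).differentiableAt (by norm_num)
        have hχd : DifferentiableAt ℝ χ z := hχs.differentiable (by norm_num) z
        have hTd : DifferentiableAt ℝ (fun w => T ε (u w)) z :=
          ((T_deriv ε (u z)).comp_hasFDerivAt z hud.hasFDerivAt).differentiableAt
        have hHd : DifferentiableAt ℝ H z := hχd.mul hTd
        have hXd : DifferentiableAt ℝ (dX u) z :=
          (dX_contDiffAt (hC2 z hz)).differentiableAt (by norm_num)
        have hYd : DifferentiableAt ℝ (dY u) z :=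
          (dY_contDiffAt (hC2 z hz)).differentiableAt (by norm_num)
        rw [dX_mul hHd hXd, dY_mul hHd hYd]
        have e1 : dX H z = dX χ z * T ε (u z) + χ z * (ramp ε (u z - ε) * dX u z) := by
          change dX (fun w => χ w * T ε (u w)) z = _
          rw [dX_mul hχd hTd, dX_comp (T_deriv ε (u z)) hud]
        have e2 : dY H z = dY χ z * T ε (u z) + χ z * (ramp ε (u z - ε) * dY u z) := by
          change dY (fun w => χ w * T ε (u w)) z = _
          rw [dY_mul hχd hTd, dY_comp (T_deriv ε (u z)) hud]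
        have e3 := hlap z hz
        unfold lap at e3
        rw [e1, e2, ← e3]
        change _ = χ z * ramp ε (u z - ε) * (dX u z * dX u z + dY u z * dY u z) +
          χ z * T ε (u z) * (dX (dX u) z + dY (dY u) z) +
          T ε (u z) * (dX χ z * dX u z + dY χ z * dY u z)
        change _ + χ z * T ε (u z) * dX (dX u) z + (_ + χ z * T ε (u z) * dY (dY u) z) = _
        ring
    have hsplit : ∫ z, (χ z * ramp ε (u z - ε) * gp u u z + χ z * T ε (u z) * (V z * u z) +
          T ε (u z) * gp χ u z) = (∫ z, χ z * ramp ε (u z - ε) * gp u u z) +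
          (∫ z, χ z * T ε (u z) * (V z * u z)) + ∫ z, T ε (u z) * gp χ u z := by
      rw [← integral_add hai hbi]
      exact integral_add (hai.add hbi) hci
    rw [integral_congr_ae (Eventually.of_forall hpt), hsplit] at hdiv
    refine ⟨hac, hai, ?_⟩
    have hb0 : 0 ≤ ∫ z, χ z * T ε (u z) * (V z * u z) :=
      integral_nonneg fun z => mul_nonneg (mul_nonneg (hχ0 z) (T_nonneg hε))
        (mul_nonneg (hV0 z) (hunn z))
    have hc0 : -∫ z, T ε (u z) * gp χ u z ≤ ∫ z, |G z| := by
      rw [← integral_neg]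
      apply integral_mono hci.neg hGi.abs
      intro z
      change -(T ε (u z) * gp χ u z) ≤ |u z * gp χ u z|
      calc -(T ε (u z) * gp χ u z) ≤ |T ε (u z) * gp χ u z| := neg_le_abs _
        _ = T ε (u z) * |gp χ u z| := by rw [abs_mul, abs_of_nonneg (T_nonneg hε)]
        _ ≤ u z * |gp χ u z| :=
            mul_le_mul_of_nonneg_right (T_le hε (hunn z)) (abs_nonneg _)
        _ = |u z * gp χ u z| := by rw [abs_mul, abs_of_nonneg (hunn z)]
    linarith
  -- the limit
  let εn : ℕ → ℝ := fun n => 1 / ((n : ℝ) + 1)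
  have hεn : ∀ n, 0 < εn n := fun n => by positivity
  let a : ℕ → ℂ → ℝ := fun n z => χ z * ramp (εn n) (u z - εn n) * gp u u z
  have hann : ∀ n z, 0 ≤ a n z := fun n z =>
    mul_nonneg (mul_nonneg (hχ0 z) (ramp_nonneg _ _)) (gp_self_nonneg u z)
  have hlim : ∀ᵐ z ∂(volume.restrict (ball (0 : ℂ) R)),
      Tendsto (fun n => a n z) atTop (𝓝 (gp u u z)) := by
    have h1 : ∀ᵐ z ∂(volume : Measure ℂ), z ∉ F := measure_eq_zero_iff_ae_notMem.1 hF0
    have h2 : ∀ᵐ z ∂(volume.restrict (ball (0 : ℂ) R)), z ∈ ball (0 : ℂ) R :=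
      ae_restrict_mem measurableSet_ball
    filter_upwards [ae_restrict_of_ae h1, h2] with z hz hzR
    have hpos := hu.pos z hz
    have htend : Tendsto εn atTop (𝓝 0) := tendsto_one_div_add_atTop_nhds_zero_nat
    have hev : ∀ᶠ n in atTop, εn n < u z / 2 := htend.eventually_lt_const (by linarith)
    apply tendsto_const_nhds.congr'
    filter_upwards [hev] with n hn
    change gp u u z = χ z * ramp (εn n) (u z - εn n) * gp u u z
    rw [hχB z (ball_subset_ball hRR₁ hzR), ramp_of_ge (hεn n) (by linarith), one_mul, one_mul]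
  have hmeas : ∀ n, AEStronglyMeasurable (a n) (volume.restrict (ball (0 : ℂ) R)) := fun n =>
    (hmain (εn n) (hεn n)).1.aestronglyMeasurable
  have hgm : AEStronglyMeasurable (fun z => gp u u z) (volume.restrict (ball (0 : ℂ) R)) :=
    aestronglyMeasurable_of_tendsto_ae atTop hmeas hlim
  rw [IntegrableOn, ← memLp_one_iff_integrable]
  refine ⟨hgm, ?_⟩
  have hfat := Lp.eLpNorm_lim_le_liminf_eLpNorm (p := 1) hmeas (fun z => gp u u z) hlim
  refine lt_of_le_of_lt hfat ?_
  have hle : ∀ n, eLpNorm (a n) 1 (volume.restrict (ball (0 : ℂ) R)) ≤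
      ENNReal.ofReal (∫ z, |G z|) := by
    intro n
    obtain ⟨-, h2, h3⟩ := hmain (εn n) (hεn n)
    calc eLpNorm (a n) 1 (volume.restrict (ball (0 : ℂ) R)) ≤ eLpNorm (a n) 1 volume :=
          eLpNorm_mono_measure _ Measure.restrict_le_self
      _ = ENNReal.ofReal (∫ z, ‖a n z‖) := by
          rw [eLpNorm_one_eq_lintegral_enorm, ofReal_integral_norm_eq_lintegral_enorm h2]
      _ ≤ ENNReal.ofReal (∫ z, |G z|) := by
          apply ENNReal.ofReal_le_ofReal
          have h4 : ∫ z, ‖a n z‖ = ∫ z, a n z := by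
            apply integral_congr_ae
            filter_upwards with z
            rw [Real.norm_of_nonneg (hann n z)]
          rw [h4]
          exact h3
  calc liminf (fun n => eLpNorm (a n) 1 (volume.restrict (ball (0 : ℂ) R))) atTop
      ≤ liminf (fun _ : ℕ => ENNReal.ofReal (∫ z, |G z|)) atTop :=
        liminf_le_liminf (Eventually.of_forall hle)
    _ = ENNReal.ofReal (∫ z, |G z|) := liminf_const _
    _ < ⊤ := ENNReal.ofReal_lt_top

end Pool.MP_31392c_an
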