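import Pool.Agent.Lib.MP_31392c_an.Full.SpecG

/-!
# MP_31392c_an full proof, GreenMono: monotonicity of Green functions
-/

set_option autoImplicit false

open MeasureTheory Set Filter Topology Metric

namespace Pool.MP_31392c_an

namespace GreenMono

/-! ### linearity of the Laplacian -/

lemma d_lin {f g : ℂ → ℝ} {w : ℂ} (c : ℝ) (hf : DifferentiableAt ℝ f w)
    (hg : DifferentiableAt ℝ g w) (e : ℂ) :
    fderiv ℝ (fun z => f z - c * g z) w e = fderiv ℝ f w e - c * fderiv ℝ g w e := by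
  have h : HasFDerivAt (fun z => f z - c * g z) (fderiv ℝ f w - c • fderiv ℝ g w) w :=
    hf.hasFDerivAt.sub (hg.hasFDerivAt.const_mul c)
  rw [h.fderiv]
  simp

lemma dd_lin {f g : ℂ → ℝ} {z : ℂ} (c : ℝ) (hf : ContDiffAt ℝ 2 f z)
    (hg : ContDiffAt ℝ 2 g z) (e : ℂ) :
    fderiv ℝ (fun w => fderiv ℝ (fun z => f z - c * g z) w e) z e =
      fderiv ℝ (fun w => fderiv ℝ f w e) z e - c * fderiv ℝ (fun w => fderiv ℝ g w e) z e := by
  have h1 : (fun w => fderiv ℝ (fun z => f z - c * g z) w e) =ᶠ[𝓝 z]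
      fun w => fderiv ℝ f w e - c * fderiv ℝ g w e := by
    filter_upwards [hf.eventually (by simp), hg.eventually (by simp)] with w hfw hgw
    exact d_lin c (hfw.differentiableAt (by norm_num)) (hgw.differentiableAt (by norm_num)) e
  rw [h1.fderiv_eq]
  have hf2 : DifferentiableAt ℝ (fun w => fderiv ℝ f w e) z :=
    ((hf.fderiv_right (m := 1) (by norm_num)).clm_apply contDiffAt_const).differentiableAt
      (by norm_num)
  have hg2 : DifferentiableAt ℝ (fun w => fderiv ℝ g w e) z :=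
    ((hg.fderiv_right (m := 1) (by norm_num)).clm_apply contDiffAt_const).differentiableAt
      (by norm_num)
  exact d_lin c hf2 hg2 e

lemma lap_lin {f g : ℂ → ℝ} {z : ℂ} (c : ℝ) (hf : ContDiffAt ℝ 2 f z)
    (hg : ContDiffAt ℝ 2 g z) :
    lap (fun w => f w - c * g w) z = lap f z - c * lap g z := by
  have h1 := dd_lin c hf hg 1
  have h2 := dd_lin c hf hg Complex.I
  unfold lap dX dY
  rw [h1, h2]
  ring

/-- The behaviour at infinity. -/
lemma asym {V : ℂ → ℝ} {F : Set ℂ} {u : ℂ → ℝ} {κ : ℝ} (h : IsGreen V F u κ) {η : ℝ}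
    (hη : 0 < η) : ∃ R : ℝ, 0 < R ∧ ∀ z : ℂ, R < ‖z‖ → |u z - (Real.log ‖z‖ - κ)| < η := by
  obtain ⟨k, r, hr, hk, hk0, hu⟩ := h.infty
  have hc : ContinuousAt k 0 := (hk 0 (by rw [norm_zero]; exact hr)).1.continuousAt
  obtain ⟨δ, hδ, hδ'⟩ := Metric.continuousAt_iff.1 hc η hη
  refine ⟨max (1 / r) (1 / δ), lt_max_of_lt_left (by positivity), ?_⟩
  intro z hz
  have h1 : 1 / r < ‖z‖ := (le_max_left _ _).trans_lt hz
  have h2 : 1 / δ < ‖z‖ := (le_max_right _ _).trans_lt hz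
  have hz0 : 0 < ‖z‖ := lt_trans (by positivity) h1
  have h3 : ‖z⁻¹‖ < δ := by
    rw [norm_inv, inv_lt_comm₀ hz0 hδ, ← one_div]
    exact h2
  have h4 := hδ' (x := z⁻¹) (by rw [dist_zero_right]; exact h3)
  rw [hk0, Real.dist_eq, sub_zero] at h4
  have h5 : u z - (Real.log ‖z‖ - κ) = k z⁻¹ := by
    rw [hu z h1]
    ring
  rw [h5]
  exact h4

lemma nonneg {V : ℂ → ℝ} {F : Set ℂ} {u : ℂ → ℝ} {κ : ℝ} (h : IsGreen V F u κ) (z : ℂ) :
    0 ≤ u z := by
  by_cases hz : z ∈ F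
  · exact (h.zero z hz).ge
  · exact (h.pos z hz).le

/-- The comparison with a factor. -/
lemma compare (hM : MaxPr) {V : ℂ → ℝ} {F₁ F₂ : Set ℂ} {u₁ u₂ : ℂ → ℝ} {κ₁ κ₂ : ℝ}
    (hV : ∀ z, 0 ≤ V z) (h1 : IsGreen V F₁ u₁ κ₁) (h2 : IsGreen V F₂ u₂ κ₂) (hF : F₁ ⊆ F₂)
    {ε : ℝ} (hε : 0 < ε) (z : ℂ) : u₂ z ≤ (1 + ε) * u₁ z := by
  obtain ⟨R₁, hR₁, hu₁⟩ := asym h1 one_pos
  obtain ⟨R₂, hR₂, hu₂⟩ := asym h2 one_pos
  obtain ⟨L, hL⟩ : ∃ L, L = (1 - κ₂ + (1 + ε) * (κ₁ + 1)) / ε := ⟨_, rfl⟩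
  obtain ⟨R, hR⟩ : ∃ R, R = max (R₁ + 1) (max (R₂ + 1) (Real.exp L)) := ⟨_, rfl⟩
  have hRR₁ : R₁ < R := by
    have : R₁ + 1 ≤ R := by rw [hR]; exact le_max_left _ _
    linarith
  have hRR₂ : R₂ < R := by
    have : R₂ + 1 ≤ R := by rw [hR]; exact (le_max_left _ _).trans (le_max_right _ _)
    linarith
  have hRL : Real.exp L ≤ R := by rw [hR]; exact (le_max_right _ _).trans (le_max_right _ _)
  have hR0 : 0 < R := (Real.exp_pos L).trans_le hRL
  -- outside the ball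
  have hout : ∀ z : ℂ, R ≤ ‖z‖ → u₂ z - (1 + ε) * u₁ z ≤ 0 := by
    intro z hz
    have e1 := abs_lt.1 (hu₁ z (hRR₁.trans_le hz))
    have e2 := abs_lt.1 (hu₂ z (hRR₂.trans_le hz))
    have e3 : L ≤ Real.log ‖z‖ := by
      rw [Real.le_log_iff_exp_le (hR0.trans_le hz)]
      exact hRL.trans hz
    rw [hL, div_le_iff₀ hε] at e3
    nlinarith [e1.1, e2.2]
  by_cases hz : z ∈ ball (0 : ℂ) R
  · have hmax := hM (ball (0 : ℂ) R) (fun w => u₂ w - (1 + ε) * u₁ w) isOpen_ball isBounded_ball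
      ((h2.cont.sub (continuous_const.mul h1.cont)).continuousOn)
      (by
        intro w hw
        rw [frontier_ball (0 : ℂ) hR0.ne', mem_sphere_zero_iff_norm] at hw
        exact hout w hw.ge)
      (by
        intro w _ hw
        have hu2 : 0 < u₂ w := by
          have e1 : 0 ≤ (1 + ε) * u₁ w := mul_nonneg (by linarith) (nonneg h1 w)
          linarith
        have hw2 : w ∉ F₂ := fun hw' => by
          rw [h2.zero w hw'] at hu2
          exact lt_irrefl _ hu2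
        have hw1 : w ∉ F₁ := fun hw' => hw2 (hF hw')
        obtain ⟨c1, l1⟩ := h1.harm w hw1
        obtain ⟨c2, l2⟩ := h2.harm w hw2
        refine ⟨c2.sub (contDiffAt_const.mul c1), ?_⟩
        rw [lap_lin (1 + ε) c2 c1, l1, l2]
        have e1 : V w * u₂ w - (1 + ε) * (V w * u₁ w) = V w * (u₂ w - (1 + ε) * u₁ w) := by ring
        rw [e1]
        exact mul_nonneg (hV w) hw.le) z hz
    linarith
  · rw [mem_ball_zero_iff, not_lt] at hz
    have := hout z hz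
    linarith

end GreenMono

open GreenMono in
theorem s_GreenMono : MaxPr → GreenMono := by
  intro hM V F₁ F₂ u₁ u₂ κ₁ κ₂ hV h1 h2 hF
  have hle : ∀ z, u₂ z ≤ u₁ z := by
    intro z
    refine le_of_forall_pos_le_add fun δ hδ => ?_
    have hn := nonneg h1 z
    have hε : 0 < δ / (u₁ z + 1) := by positivity
    have h3 := compare hM hV h1 h2 hF hε z
    have h4 : δ / (u₁ z + 1) * u₁ z ≤ δ := by
      rw [div_mul_eq_mul_div, div_le_iff₀ (by linarith)]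
      nlinarith
    have h5 : (1 + δ / (u₁ z + 1)) * u₁ z = u₁ z + δ / (u₁ z + 1) * u₁ z := by ring
    linarith
  refine ⟨hle, ?_⟩
  refine le_of_forall_pos_le_add fun δ hδ => ?_
  obtain ⟨R₁, hR₁, hu₁⟩ := asym h1 (show (0 : ℝ) < δ / 2 by linarith)
  obtain ⟨R₂, hR₂, hu₂⟩ := asym h2 (show (0 : ℝ) < δ / 2 by linarith)
  obtain ⟨t, ht⟩ : ∃ t : ℝ, t = R₁ + R₂ + 1 := ⟨_, rfl⟩
  have htn : ‖(t : ℂ)‖ = t := by
    rw [Complex.norm_real, Real.norm_of_nonneg (by linarith)]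
  have e1 := abs_lt.1 (hu₁ (t : ℂ) (by rw [htn]; linarith))
  have e2 := abs_lt.1 (hu₂ (t : ℂ) (by rw [htn]; linarith))
  have e3 := hle (t : ℂ)
  linarith [e1.2, e2.1]

end Pool.MP_31392c_an
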