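import Pool.Agent.Lib.MP_31392c_an.Full.SpecG
import Pool.Agent.Lib.MP_31392c_an.DualA

/-!
# MP_31392c_an full proof: the pairing of two Green functions
-/

set_option autoImplicit false

open MeasureTheory Set Filter Topology Metric

namespace Pool.MP_31392c_an

namespace GreenPair

/-- the truncation `s ↦ rampInt ε (s - ε)` -/
noncomputable def Tr (ε s : ℝ) : ℝ := rampInt ε (s - ε)

theorem Tr_contDiff (ε : ℝ) : ContDiff ℝ 1 (Tr ε) :=
  (rampInt_contDiff ε).comp (contDiff_id.sub contDiff_const)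

theorem Tr_hasDerivAt (ε s : ℝ) : HasDerivAt (Tr ε) (ramp ε (s - ε)) s :=
  (rampInt_hasDerivAt ε (s - ε)).comp_sub_const s ε

theorem Tr_zero {ε s : ℝ} (hε : 0 < ε) (hs : s ≤ ε) : Tr ε s = 0 :=
  rampInt_of_nonpos hε (by linarith)

theorem Tr_nonneg {ε : ℝ} (hε : 0 < ε) (s : ℝ) : 0 ≤ Tr ε s := by
  rcases le_total s ε with h | h
  · rw [Tr_zero hε h]
  · unfold Tr rampInt
    exact intervalIntegral.integral_nonneg (by linarith) fun t _ => ramp_nonneg _ _

theorem Tr_le {ε s : ℝ} (hε : 0 < ε) (hs : 0 ≤ s) : Tr ε s ≤ s := by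
  rcases le_total s ε with h | h
  · rw [Tr_zero hε h]
    exact hs
  · have := rampInt_le (σ := ε) (s := s - ε) (by linarith)
    unfold Tr
    linarith

theorem Tr_ge {ε : ℝ} (hε : 0 < ε) (s : ℝ) : s - 2 * ε ≤ Tr ε s := by
  rcases le_total s (2 * ε) with h | h
  · have := Tr_nonneg hε s
    linarith
  · unfold Tr rampInt
    have hi : ∀ a b : ℝ, IntervalIntegrable (ramp ε) volume a b := fun a b =>
      (ramp_continuous ε).intervalIntegrable _ _
    rw [← intervalIntegral.integral_add_adjacent_intervals (hi 0 ε) (hi ε (s - ε))]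
    have h1 : 0 ≤ ∫ t in (0 : ℝ)..ε, ramp ε t :=
      intervalIntegral.integral_nonneg hε.le fun t _ => ramp_nonneg _ _
    have h2 : ∫ t in ε..(s - ε), (1 : ℝ) ≤ ∫ t in ε..(s - ε), ramp ε t := by
      apply intervalIntegral.integral_mono_on (by linarith)
        (continuous_const.intervalIntegrable _ _) (hi _ _)
      intro t ht
      rw [ramp_of_ge hε ht.1]
    have h3 : ∫ t in ε..(s - ε), (1 : ℝ) = s - 2 * ε := by
      rw [intervalIntegral.integral_const, smul_eq_mul]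
      ring
    linarith

/-- the sequence `1/(n+1)` -/
noncomputable def en (n : ℕ) : ℝ := 1 / ((n : ℝ) + 1)

theorem en_pos (n : ℕ) : 0 < en n := by unfold en; positivity

theorem en_tendsto : Tendsto en atTop (𝓝 0) := tendsto_one_div_add_atTop_nhds_zero_nat

theorem Tr_tendsto {s : ℝ} (hs : 0 ≤ s) : Tendsto (fun n => Tr (en n) s) atTop (𝓝 s) := by
  have h1 : Tendsto (fun n => s - 2 * en n) atTop (𝓝 (s - 2 * 0)) :=
    tendsto_const_nhds.sub (en_tendsto.const_mul 2)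
  rw [mul_zero, sub_zero] at h1
  exact tendsto_of_tendsto_of_tendsto_of_le_of_le h1 tendsto_const_nhds
    (fun n => Tr_ge (en_pos n) s) (fun n => Tr_le (en_pos n) hs)

theorem ramp_tendsto {s : ℝ} (hs : 0 < s) :
    Tendsto (fun n => ramp (en n) (s - en n)) atTop (𝓝 1) := by
  have h1 : ∀ᶠ n in atTop, en n < s / 2 := en_tendsto.eventually (gt_mem_nhds (by linarith))
  refine (tendsto_const_nhds (x := (1 : ℝ))).congr' (h1.mono fun n hn => ?_)
  exact (ramp_of_ge (en_pos n) (by linarith)).symm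

theorem dX_cd {f : ℂ → ℝ} {z : ℂ} (h : ContDiffAt ℝ 2 f z) : ContDiffAt ℝ 1 (dX f) z := by
  unfold dX
  exact (h.fderiv_right (m := 1) (by norm_num)).clm_apply contDiffAt_const

theorem dY_cd {f : ℂ → ℝ} {z : ℂ} (h : ContDiffAt ℝ 2 f z) : ContDiffAt ℝ 1 (dY f) z := by
  unfold dY
  exact (h.fderiv_right (m := 1) (by norm_num)).clm_apply contDiffAt_const

theorem dX_mul {f g : ℂ → ℝ} {z : ℂ} (hf : DifferentiableAt ℝ f z) (hg : DifferentiableAt ℝ g z) :
    dX (fun w => f w * g w) z = f z * dX g z + g z * dX f z := by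
  unfold dX
  have h : HasFDerivAt (fun w => f w * g w) (f z • fderiv ℝ g z + g z • fderiv ℝ f z) z :=
    hf.hasFDerivAt.mul hg.hasFDerivAt
  rw [h.fderiv]
  simp

theorem dY_mul {f g : ℂ → ℝ} {z : ℂ} (hf : DifferentiableAt ℝ f z) (hg : DifferentiableAt ℝ g z) :
    dY (fun w => f w * g w) z = f z * dY g z + g z * dY f z := by
  unfold dY
  have h : HasFDerivAt (fun w => f w * g w) (f z • fderiv ℝ g z + g z • fderiv ℝ f z) z :=
    hf.hasFDerivAt.mul hg.hasFDerivAt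
  rw [h.fderiv]
  simp

theorem dX_Tr {u : ℂ → ℝ} {z : ℂ} (ε : ℝ) (hu : DifferentiableAt ℝ u z) :
    dX (fun w => Tr ε (u w)) z = ramp ε (u z - ε) * dX u z := by
  unfold dX
  have h : HasFDerivAt (fun w => Tr ε (u w)) (ramp ε (u z - ε) • fderiv ℝ u z) z :=
    (Tr_hasDerivAt ε (u z)).comp_hasFDerivAt z hu.hasFDerivAt
  rw [h.fderiv]
  simp

theorem dY_Tr {u : ℂ → ℝ} {z : ℂ} (ε : ℝ) (hu : DifferentiableAt ℝ u z) :
    dY (fun w => Tr ε (u w)) z = ramp ε (u z - ε) * dY u z := by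
  unfold dY
  have h : HasFDerivAt (fun w => Tr ε (u w)) (ramp ε (u z - ε) • fderiv ℝ u z) z :=
    (Tr_hasDerivAt ε (u z)).comp_hasFDerivAt z hu.hasFDerivAt
  rw [h.fderiv]
  simp

/-- Smoothness of the field. -/
theorem field_cd {F₂ : Set ℂ} {u₂ χ g : ℂ → ℝ} {ε : ℝ} (hε : 0 < ε) (hu : Continuous u₂)
    (hu0 : ∀ z ∈ F₂, u₂ z = 0) (hu2 : ∀ z, z ∉ F₂ → ContDiffAt ℝ 2 u₂ z)
    (hχ : ContDiff ℝ 2 χ) (hg : ∀ z, z ∉ F₂ → ContDiffAt ℝ 1 g z) :
    ContDiff ℝ 1 (fun z => χ z * Tr ε (u₂ z) * g z) := by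
  rw [contDiff_iff_contDiffAt]
  intro z
  by_cases hz : z ∈ F₂
  · have h1 : ∀ᶠ w in 𝓝 z, u₂ w < ε :=
      hu.continuousAt.eventually (gt_mem_nhds (by rw [hu0 z hz]; exact hε))
    have h2 : (fun w => χ w * Tr ε (u₂ w) * g w) =ᶠ[𝓝 z] fun _ => (0 : ℝ) := by
      filter_upwards [h1] with w hw
      rw [Tr_zero hε hw.le]
      ring
    exact contDiffAt_const.congr_of_eventuallyEq h2
  · have h1 : ContDiffAt ℝ 1 (fun w => Tr ε (u₂ w)) z :=
      (Tr_contDiff ε).contDiffAt.comp z ((hu2 z hz).of_le (by norm_num))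
    exact ((hχ.contDiffAt.of_le (by norm_num)).mul h1).mul (hg z hz)

/-- The divergence of the field off `F₂`. -/
theorem field_div {V u₁ u₂ χ : ℂ → ℝ} {ε : ℝ} {z : ℂ} (hχ : ContDiff ℝ 2 χ)
    (h1 : ContDiffAt ℝ 2 u₁ z) (hl : lap u₁ z = V z * u₁ z) (h2 : ContDiffAt ℝ 2 u₂ z) :
    dX (fun w => χ w * Tr ε (u₂ w) * dX u₁ w) z + dY (fun w => χ w * Tr ε (u₂ w) * dY u₁ w) z =
      Tr ε (u₂ z) * gp χ u₁ z + χ z * (ramp ε (u₂ z - ε) * gp u₁ u₂ z) +
        χ z * (Tr ε (u₂ z) * (V z * u₁ z)) := by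
  have dχ : DifferentiableAt ℝ χ z := (hχ.differentiable (by norm_num)) z
  have du2 : DifferentiableAt ℝ u₂ z := h2.differentiableAt (by norm_num)
  have dT : DifferentiableAt ℝ (fun w => Tr ε (u₂ w)) z :=
    ((Tr_hasDerivAt ε (u₂ z)).comp_hasFDerivAt z du2.hasFDerivAt).differentiableAt
  have dXu : DifferentiableAt ℝ (dX u₁) z := (dX_cd h1).differentiableAt (by norm_num)
  have dYu : DifferentiableAt ℝ (dY u₁) z := (dY_cd h1).differentiableAt (by norm_num)
  rw [dX_mul (f := fun w => χ w * Tr ε (u₂ w)) (dχ.mul dT) dXu,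
    dY_mul (f := fun w => χ w * Tr ε (u₂ w)) (dχ.mul dT) dYu, dX_mul dχ dT, dY_mul dχ dT,
    dX_Tr ε du2, dY_Tr ε du2, ← hl]
  unfold lap gp
  ring

/-- Elementary inequality for products of gradients. -/
theorem gp_le (f g : ℂ → ℝ) (z : ℂ) : |gp f g z| ≤ gp f f z + gp g g z := by
  unfold gp
  rw [abs_le]
  constructor <;> nlinarith [sq_nonneg (dX f z + dX g z), sq_nonneg (dY f z + dY g z),
    sq_nonneg (dX f z - dX g z), sq_nonneg (dY f z - dY g z), sq_nonneg (dX f z),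
    sq_nonneg (dX g z), sq_nonneg (dY f z), sq_nonneg (dY g z)]

theorem gp_nonneg (f : ℂ → ℝ) (z : ℂ) : 0 ≤ gp f f z := by
  unfold gp
  nlinarith [sq_nonneg (dX f z), sq_nonneg (dY f z)]

end GreenPair

open GreenPair in
theorem s_GreenPair : DivZero → GreenL2 → GreenPair := by
  intro hdiv hL2 V F₁ F₂ u₁ u₂ κ₁ κ₂ χ hV hV0 hF₁ hF₂ hvol hsub hG₁ hG₂ hχ hχc
  have hvol₁ : volume F₁ = 0 := measure_mono_null hsub hvol
  have hopen : IsOpen F₂ᶜ := hF₂.isClosed.isOpen_compl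
  have cd1 : ∀ z, z ∉ F₂ → ContDiffAt ℝ 2 u₁ z := fun z hz =>
    (hG₁.harm z (fun h => hz (hsub h))).1
  have lp1 : ∀ z, z ∉ F₂ → lap u₁ z = V z * u₁ z := fun z hz =>
    (hG₁.harm z (fun h => hz (hsub h))).2
  have cd2 : ∀ z, z ∉ F₂ → ContDiffAt ℝ 2 u₂ z := fun z hz => (hG₂.harm z hz).1
  have u2nn : ∀ z, 0 ≤ u₂ z := by
    intro z
    by_cases hz : z ∈ F₂
    · rw [hG₂.zero z hz]
    · exact (hG₂.pos z hz).le
  have hae : ∀ᵐ z ∂(volume : Measure ℂ), z ∉ F₂ := measure_eq_zero_iff_ae_notMem.mp hvol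
  -- the ball
  obtain ⟨R, hR⟩ := hχc.isCompact.isBounded.subset_ball (0 : ℂ)
  have hχ0 : ∀ z, z ∉ ball (0 : ℂ) R → χ z = 0 := fun z hz =>
    image_eq_zero_of_notMem_tsupport fun h => hz (hR h)
  have hχd : ∀ z, z ∉ ball (0 : ℂ) R → fderiv ℝ χ z = 0 := fun z hz =>
    fderiv_of_notMem_tsupport ℝ fun h => hz (hR h)
  have hgχ0 : ∀ z, z ∉ ball (0 : ℂ) R → gp χ u₁ z = 0 := by
    intro z hz
    unfold gp dX dY
    rw [hχd z hz]
    simp
  have hdχc : Continuous (fderiv ℝ χ) := hχ.continuous_fderiv (by norm_num)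
  have cXχ : Continuous (dX χ) := hdχc.clm_apply continuous_const
  have cYχ : Continuous (dY χ) := hdχc.clm_apply continuous_const
  -- a common bound on the ball
  obtain ⟨M, hM1, bχ, bX, bY, b1, b2, bV⟩ : ∃ M : ℝ, 1 ≤ M ∧ (∀ z ∈ ball (0 : ℂ) R, |χ z| ≤ M) ∧
      (∀ z ∈ ball (0 : ℂ) R, |dX χ z| ≤ M) ∧ (∀ z ∈ ball (0 : ℂ) R, |dY χ z| ≤ M) ∧
      (∀ z ∈ ball (0 : ℂ) R, |u₁ z| ≤ M) ∧ (∀ z ∈ ball (0 : ℂ) R, |u₂ z| ≤ M) ∧
      (∀ z ∈ ball (0 : ℂ) R, |V z| ≤ M) := by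
    have key : ∀ f : ℂ → ℝ, Continuous f → ∃ C, ∀ z ∈ closedBall (0 : ℂ) R, ‖f z‖ ≤ C :=
      fun f hf => (isCompact_closedBall (0 : ℂ) R).exists_bound_of_continuousOn hf.continuousOn
    obtain ⟨C1, h1⟩ := key χ hχ.continuous
    obtain ⟨C2, h2⟩ := key (dX χ) cXχ
    obtain ⟨C3, h3⟩ := key (dY χ) cYχ
    obtain ⟨C4, h4⟩ := key u₁ hG₁.cont
    obtain ⟨C5, h5⟩ := key u₂ hG₂.cont
    obtain ⟨C6, h6⟩ := key V hV
    refine ⟨1 + |C1| + |C2| + |C3| + |C4| + |C5| + |C6|, ?_, ?_, ?_, ?_, ?_, ?_, ?_⟩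
    · have := abs_nonneg C1
      have := abs_nonneg C2
      have := abs_nonneg C3
      have := abs_nonneg C4
      have := abs_nonneg C5
      have := abs_nonneg C6
      linarith
    all_goals
      intro z hz
      have hz' := ball_subset_closedBall hz
      have e1 := h1 z hz'
      have e2 := h2 z hz'
      have e3 := h3 z hz'
      have e4 := h4 z hz'
      have e5 := h5 z hz'
      have e6 := h6 z hz'
      rw [Real.norm_eq_abs] at e1 e2 e3 e4 e5 e6
      have a1 := abs_nonneg C1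
      have a2 := abs_nonneg C2
      have a3 := abs_nonneg C3
      have a4 := abs_nonneg C4
      have a5 := abs_nonneg C5
      have a6 := abs_nonneg C6
      have := le_abs_self C1
      have := le_abs_self C2
      have := le_abs_self C3
      have := le_abs_self C4
      have := le_abs_self C5
      have := le_abs_self C6
      linarith
  -- integrability of the squares
  have i1 : IntegrableOn (fun z => gp u₁ u₁ z) (ball 0 R) :=
    hL2 V F₁ u₁ κ₁ hV hV0 hF₁ hvol₁ hG₁ R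
  have i2 : IntegrableOn (fun z => gp u₂ u₂ z) (ball 0 R) :=
    hL2 V F₂ u₂ κ₂ hV hV0 hF₂ hvol hG₂ R
  have i0 : IntegrableOn (fun _ : ℂ => (1 : ℝ)) (ball 0 R) := by
    rw [integrableOn_const_iff]
    exact Or.inr measure_ball_lt_top
  set bd : ℂ → ℝ := fun z => M ^ 4 * (1 + gp u₁ u₁ z + gp u₂ u₂ z) with hbd
  have hbdi : IntegrableOn bd (ball 0 R) := ((i0.add i1).add i2).const_mul _
  have hbd1 : ∀ z, M ^ 4 ≤ bd z := fun z => by
    have := gp_nonneg u₁ z
    have := gp_nonneg u₂ z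
    have hM4 : (0 : ℝ) < M ^ 4 := by positivity
    rw [hbd]
    nlinarith
  -- measurability
  have mres : volume.restrict F₂ᶜ = (volume : Measure ℂ) :=
    Measure.restrict_eq_self_of_ae_mem hae
  have meas : ∀ f : ℂ → ℝ, ContinuousOn f F₂ᶜ → AEStronglyMeasurable f volume := by
    intro f hf
    have := hf.aestronglyMeasurable hopen.measurableSet (μ := (volume : Measure ℂ))
    rwa [mres] at this
  have cX1 : ContinuousOn (dX u₁) F₂ᶜ := fun z hz =>
    (dX_cd (cd1 z hz)).continuousAt.continuousWithinAt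
  have cY1 : ContinuousOn (dY u₁) F₂ᶜ := fun z hz =>
    (dY_cd (cd1 z hz)).continuousAt.continuousWithinAt
  have cX2 : ContinuousOn (dX u₂) F₂ᶜ := fun z hz =>
    (dX_cd (cd2 z hz)).continuousAt.continuousWithinAt
  have cY2 : ContinuousOn (dY u₂) F₂ᶜ := fun z hz =>
    (dY_cd (cd2 z hz)).continuousAt.continuousWithinAt
  have cg12 : ContinuousOn (gp u₁ u₂) F₂ᶜ := (cX1.mul cX2).add (cY1.mul cY2)
  have cgχ : ContinuousOn (gp χ u₁) F₂ᶜ :=
    (cXχ.continuousOn.mul cX1).add (cYχ.continuousOn.mul cY1)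
  -- pointwise bounds
  have q1 : ∀ z ∈ ball (0 : ℂ) R, |χ z * gp u₁ u₂ z| ≤ bd z := by
    intro z hz
    rw [abs_mul]
    have h1 := gp_le u₁ u₂ z
    have h2 := gp_nonneg u₁ z
    have h3 := gp_nonneg u₂ z
    have hM : M ≤ M ^ 4 := le_self_pow₀ hM1 (by norm_num)
    calc |χ z| * |gp u₁ u₂ z| ≤ M * (gp u₁ u₁ z + gp u₂ u₂ z) :=
          mul_le_mul (bχ z hz) h1 (abs_nonneg _) (by linarith)
      _ ≤ M ^ 4 * (1 + gp u₁ u₁ z + gp u₂ u₂ z) := by
          apply mul_le_mul hM (by linarith) (by linarith) (by positivity)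
  have q2 : ∀ z ∈ ball (0 : ℂ) R, |χ z * (u₂ z * (V z * u₁ z))| ≤ bd z := by
    intro z hz
    rw [abs_mul, abs_mul, abs_mul]
    have h1 : |V z| * |u₁ z| ≤ M * M := mul_le_mul (bV z hz) (b1 z hz) (abs_nonneg _) (by linarith)
    have h2 : |u₂ z| * (|V z| * |u₁ z|) ≤ M * (M * M) :=
      mul_le_mul (b2 z hz) h1 (by positivity) (by linarith)
    have h3 : |χ z| * (|u₂ z| * (|V z| * |u₁ z|)) ≤ M * (M * (M * M)) :=
      mul_le_mul (bχ z hz) h2 (by positivity) (by linarith)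
    have h4 : M * (M * (M * M)) = M ^ 4 := by ring
    rw [h4] at h3
    exact h3.trans (hbd1 z)
  have q3 : ∀ z ∈ ball (0 : ℂ) R, |u₂ z * gp χ u₁ z| ≤ bd z := by
    intro z hz
    rw [abs_mul]
    have h1 : |gp χ u₁ z| ≤ M * (1 + gp u₁ u₁ z) := by
      unfold gp
      have e1 : |dX χ z * dX u₁ z| ≤ M * |dX u₁ z| := by
        rw [abs_mul]
        exact mul_le_mul_of_nonneg_right (bX z hz) (abs_nonneg _)
      have e2 : |dY χ z * dY u₁ z| ≤ M * |dY u₁ z| := by
        rw [abs_mul]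
        exact mul_le_mul_of_nonneg_right (bY z hz) (abs_nonneg _)
      have e3 : |dX u₁ z| + |dY u₁ z| ≤ 1 + (dX u₁ z * dX u₁ z + dY u₁ z * dY u₁ z) := by
        have s1 := abs_mul_abs_self (dX u₁ z)
        have s2 := abs_mul_abs_self (dY u₁ z)
        nlinarith [sq_nonneg (|dX u₁ z| - 1 / 2), sq_nonneg (|dY u₁ z| - 1 / 2)]
      refine (abs_add_le _ _).trans ?_
      have e4 := mul_le_mul_of_nonneg_left e3 (show (0 : ℝ) ≤ M by linarith)
      linarith
    have h2 := gp_nonneg u₁ z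
    have h3 := gp_nonneg u₂ z
    have hM2 : M * M ≤ M ^ 4 := by
      have : M ^ 2 ≤ M ^ 4 := pow_le_pow_right₀ hM1 (by norm_num)
      nlinarith
    calc |u₂ z| * |gp χ u₁ z| ≤ M * (M * (1 + gp u₁ u₁ z)) :=
          mul_le_mul (b2 z hz) h1 (abs_nonneg _) (by linarith)
      _ = (M * M) * (1 + gp u₁ u₁ z) := by ring
      _ ≤ M ^ 4 * (1 + gp u₁ u₁ z + gp u₂ u₂ z) :=
          mul_le_mul hM2 (by linarith) (by linarith) (by positivity)
  -- integrability of the three parts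
  have toInt : ∀ f : ℂ → ℝ, AEStronglyMeasurable f volume → (∀ z ∈ ball (0 : ℂ) R, |f z| ≤ bd z) →
      (∀ z, z ∉ ball (0 : ℂ) R → f z = 0) → Integrable f := by
    intro f hf hb h0
    have h1 : IntegrableOn f (ball 0 R) := by
      refine Integrable.mono' hbdi hf.restrict ?_
      refine (ae_restrict_iff' measurableSet_ball).mpr (Eventually.of_forall fun z hz => ?_)
      rw [Real.norm_eq_abs]
      exact hb z hz
    refine (integrableOn_iff_integrable_of_support_subset ?_).mp h1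
    intro z hz
    by_contra hcon
    exact hz (h0 z hcon)
  have I1 : Integrable (fun z => χ z * gp u₁ u₂ z) :=
    toInt _ (meas _ (hχ.continuous.continuousOn.mul cg12)) q1 fun z hz => by
      rw [hχ0 z hz, zero_mul]
  have I2 : Integrable (fun z => χ z * (u₂ z * (V z * u₁ z))) :=
    toInt _ (meas _ (hχ.continuous.mul (hG₂.cont.mul (hV.mul hG₁.cont))).continuousOn) q2
      fun z hz => by rw [hχ0 z hz, zero_mul]
  have I3 : Integrable (fun z => u₂ z * gp χ u₁ z) :=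
    toInt _ (meas _ (hG₂.cont.continuousOn.mul cgχ)) q3 fun z hz => by
      rw [hgχ0 z hz, mul_zero]
  -- the truncated identity
  set Fn : ℕ → ℂ → ℝ := fun n z => Tr (en n) (u₂ z) * gp χ u₁ z +
    χ z * (ramp (en n) (u₂ z - en n) * gp u₁ u₂ z) +
    χ z * (Tr (en n) (u₂ z) * (V z * u₁ z)) with hFn
  have hz0 : ∀ n, ∫ z, Fn n z = 0 := by
    intro n
    have e := hdiv (fun z => χ z * Tr (en n) (u₂ z) * dX u₁ z)
      (fun z => χ z * Tr (en n) (u₂ z) * dY u₁ z)
      (field_cd (en_pos n) hG₂.cont hG₂.zero cd2 hχ fun z hz => dX_cd (cd1 z hz))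
      (field_cd (en_pos n) hG₂.cont hG₂.zero cd2 hχ fun z hz => dY_cd (cd1 z hz))
      (hχc.mul_right.mul_right) (hχc.mul_right.mul_right)
    rw [← e]
    refine integral_congr_ae (hae.mono fun z hz => ?_)
    exact (field_div hχ (cd1 z hz) (lp1 z hz) (cd2 z hz)).symm
  have hFn0 : ∀ n z, z ∉ ball (0 : ℂ) R → Fn n z = 0 := by
    intro n z hz
    simp only [hFn, hχ0 z hz, hgχ0 z hz]
    ring
  have hz1 : ∀ n, ∫ z in ball (0 : ℂ) R, Fn n z = 0 := by
    intro n
    rw [setIntegral_eq_integral_of_forall_compl_eq_zero (fun z hz => hFn0 n z hz)]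
    exact hz0 n
  set Fl : ℂ → ℝ := fun z => u₂ z * gp χ u₁ z + χ z * gp u₁ u₂ z +
    χ z * (u₂ z * (V z * u₁ z)) with hFl
  have hFl0 : ∀ z, z ∉ ball (0 : ℂ) R → Fl z = 0 := by
    intro z hz
    simp only [hFl, hχ0 z hz, hgχ0 z hz]
    ring
  have hlim : Tendsto (fun n => ∫ z in ball (0 : ℂ) R, Fn n z) atTop
      (𝓝 (∫ z in ball (0 : ℂ) R, Fl z)) := by
    refine tendsto_integral_of_dominated_convergence (fun z => 3 * bd z) ?_
      (hbdi.const_mul 3) ?_ ?_
    · intro n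
      refine (meas _ ?_).restrict
      have cT : Continuous fun z => Tr (en n) (u₂ z) :=
        (Tr_contDiff (en n)).continuous.comp hG₂.cont
      have cR : Continuous fun z => ramp (en n) (u₂ z - en n) :=
        (ramp_continuous (en n)).comp (hG₂.cont.sub continuous_const)
      exact ((cT.continuousOn.mul cgχ).add
        (hχ.continuous.continuousOn.mul (cR.continuousOn.mul cg12))).add
        (hχ.continuous.mul (cT.mul (hV.mul hG₁.cont))).continuousOn
    · intro n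
      refine (ae_restrict_iff' measurableSet_ball).mpr (Eventually.of_forall fun z hz => ?_)
      rw [Real.norm_eq_abs]
      have hT0 := Tr_nonneg (en_pos n) (u₂ z)
      have hT1 := Tr_le (en_pos n) (u2nn z)
      have hr0 := ramp_nonneg (en n) (u₂ z - en n)
      have hr1 := ramp_le_one (en n) (u₂ z - en n)
      have t1 : |Tr (en n) (u₂ z) * gp χ u₁ z| ≤ bd z := by
        refine le_trans ?_ (q3 z hz)
        rw [abs_mul, abs_mul, abs_of_nonneg hT0, abs_of_nonneg (u2nn z)]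
        exact mul_le_mul_of_nonneg_right hT1 (abs_nonneg _)
      have t2 : |χ z * (ramp (en n) (u₂ z - en n) * gp u₁ u₂ z)| ≤ bd z := by
        refine le_trans ?_ (q1 z hz)
        rw [abs_mul, abs_mul, abs_mul, abs_of_nonneg hr0]
        apply mul_le_mul_of_nonneg_left _ (abs_nonneg _)
        exact mul_le_of_le_one_left (abs_nonneg _) hr1
      have t3 : |χ z * (Tr (en n) (u₂ z) * (V z * u₁ z))| ≤ bd z := by
        refine le_trans ?_ (q2 z hz)
        rw [abs_mul, abs_mul, abs_mul (χ z), abs_mul (u₂ z), abs_of_nonneg hT0,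
          abs_of_nonneg (u2nn z)]
        apply mul_le_mul_of_nonneg_left _ (abs_nonneg _)
        exact mul_le_mul_of_nonneg_right hT1 (abs_nonneg _)
      calc |Fn n z| ≤ |Tr (en n) (u₂ z) * gp χ u₁ z +
            χ z * (ramp (en n) (u₂ z - en n) * gp u₁ u₂ z)| +
            |χ z * (Tr (en n) (u₂ z) * (V z * u₁ z))| := abs_add_le _ _
        _ ≤ (|Tr (en n) (u₂ z) * gp χ u₁ z| +
            |χ z * (ramp (en n) (u₂ z - en n) * gp u₁ u₂ z)|) +
            |χ z * (Tr (en n) (u₂ z) * (V z * u₁ z))| := by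
            gcongr
            exact abs_add_le _ _
        _ ≤ 3 * bd z := by linarith
    · have hae' : ∀ᵐ z ∂(volume.restrict (ball (0 : ℂ) R)), z ∉ F₂ := ae_restrict_of_ae hae
      refine hae'.mono fun z hz => ?_
      have p2 : 0 < u₂ z := hG₂.pos z hz
      have l1 := Tr_tendsto (u2nn z)
      have l2 := ramp_tendsto p2
      have l3 : Tendsto (fun n => Tr (en n) (u₂ z) * gp χ u₁ z +
          χ z * (ramp (en n) (u₂ z - en n) * gp u₁ u₂ z) +
          χ z * (Tr (en n) (u₂ z) * (V z * u₁ z))) atTop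
          (𝓝 (u₂ z * gp χ u₁ z + χ z * (1 * gp u₁ u₂ z) + χ z * (u₂ z * (V z * u₁ z)))) :=
        ((l1.mul_const _).add ((l2.mul_const _).const_mul _)).add ((l1.mul_const _).const_mul _)
      rw [one_mul] at l3
      exact l3
  have hFlz : ∫ z in ball (0 : ℂ) R, Fl z = 0 := by
    have h1 : (fun n => ∫ z in ball (0 : ℂ) R, Fn n z) = fun _ => (0 : ℝ) := funext hz1
    rw [h1] at hlim
    exact (tendsto_nhds_unique hlim tendsto_const_nhds)
  have hFlz' : ∫ z, Fl z = 0 := by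
    rw [← setIntegral_eq_integral_of_forall_compl_eq_zero (fun z hz => hFl0 z hz)]
    exact hFlz
  -- conclusion
  have J : (fun z => χ z * (gp u₁ u₂ z + V z * u₁ z * u₂ z)) =
      fun z => χ z * gp u₁ u₂ z + χ z * (u₂ z * (V z * u₁ z)) := by
    funext z
    ring
  refine ⟨?_, I3, ?_⟩
  · rw [J]
    exact I1.add I2
  · have I12 : Integrable (fun z => χ z * gp u₁ u₂ z + χ z * (u₂ z * (V z * u₁ z))) := I1.add I2
    have e1 : ∫ z, Fl z = (∫ z, u₂ z * gp χ u₁ z) + ∫ z, χ z * (gp u₁ u₂ z + V z * u₁ z * u₂ z) := by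
      rw [J, ← integral_add I3 I12]
      refine integral_congr_ae (Eventually.of_forall fun z => ?_)
      simp only [hFl]
      ring
    rw [hFlz'] at e1
    linarith

end Pool.MP_31392c_an
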