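import Pool.Agent.Lib.MP_31392c_an.Full.SpecG

/-!
# GreenSub: a Green function belongs to the Perron class
-/

set_option autoImplicit false

open MeasureTheory Set Filter Topology Metric

namespace Pool.MP_31392c_an

theorem s_GreenSub : GreenSub := by
  intro V F u κ hV hG
  refine ⟨hG.cont, ?_, hG.zero, ?_, ?_⟩
  · intro z
    by_cases hz : z ∈ F
    · exact (hG.zero z hz).ge
    · exact (hG.pos z hz).le
  · intro z hz
    have hzF : z ∈ Fᶜ := fun h => hz.ne' (hG.zero z h)
    obtain ⟨h1, h2⟩ := hG.harm z hzF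
    exact ⟨h1, h2 ▸ mul_nonneg (hV z) hz.le⟩
  · obtain ⟨h, r, hr, hh, h0, hu⟩ := hG.infty
    have h1 : Tendsto (fun z : ℂ => z⁻¹) (cocompact ℂ) (𝓝 0) := by
      rw [← Metric.cobounded_eq_cocompact]
      exact Filter.tendsto_inv₀_cobounded
    have h2 : Tendsto h (𝓝 0) (𝓝 (h 0)) :=
      (hh 0 (by simpa using hr)).1.continuousAt
    have h3 : Tendsto (fun z : ℂ => -κ + h z⁻¹) (cocompact ℂ) (𝓝 (-κ)) := by
      have := (h2.comp h1).const_add (-κ)
      rwa [h0, add_zero] at this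
    refine h3.congr' ?_
    have h4 : ∀ᶠ z : ℂ in cocompact ℂ, 1 / r < ‖z‖ :=
      (tendsto_norm_cocompact_atTop (E := ℂ)).eventually_gt_atTop (1 / r)
    filter_upwards [h4] with z hz
    rw [hu z hz]
    ring

end Pool.MP_31392c_an
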