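import Pool.Agent.Lib.MP_31392c_an.Full.SpecK

/-!
# MP_31392c_an full proof: the discrete integration of the square inequality
-/

set_option autoImplicit false

open MeasureTheory Set Filter Topology Metric

namespace Pool.MP_31392c_an

namespace GridLem

/-- `exp ((1 - ξ) y) ≤ 1 + y` for `0 ≤ y ≤ ξ ≤ 1`. -/
private lemma exp_le (ξ y : ℝ) (h0 : 0 < ξ) (h1 : ξ ≤ 1) (hy0 : 0 ≤ y) (hy1 : y ≤ ξ) :
    Real.exp ((1 - ξ) * y) ≤ 1 + y := by
  have hz1 : (1 - ξ) * y < 1 := by nlinarith
  have h2 := Real.add_one_le_exp (-((1 - ξ) * y))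
  have h3 : 0 < 1 - (1 - ξ) * y := by linarith
  have h4 : Real.exp (-((1 - ξ) * y)) * Real.exp ((1 - ξ) * y) = 1 := by
    rw [← Real.exp_add]; simp
  have h5 := Real.exp_pos ((1 - ξ) * y)
  have h6 : (1 - (1 - ξ) * y) * Real.exp ((1 - ξ) * y) ≤ 1 := by
    exact (mul_le_mul_of_nonneg_right (by linarith) h5.le).trans h4.le
  have h7 : 1 ≤ (1 - (1 - ξ) * y) * (1 + y) := by
    have : (1 - (1 - ξ) * y) * (1 + y) - 1 = y * (1 - (1 - ξ) * (1 + y)) := by ring
    have h8 : 0 ≤ 1 - (1 - ξ) * (1 + y) := by nlinarith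
    nlinarith [mul_nonneg hy0 h8]
  by_contra hcon
  push Not at hcon
  have := mul_lt_mul_of_pos_left hcon h3
  linarith

private lemma exp_sub_le (a b : ℝ) : Real.exp b - Real.exp a ≤ Real.exp b * (b - a) := by
  have h := Real.add_one_le_exp (a - b)
  have h1 : Real.exp a = Real.exp b * Real.exp (a - b) := by
    rw [← Real.exp_add]; congr 1; ring
  rw [h1]
  nlinarith [Real.exp_pos b]

private lemma le_exp_sub (ξ a b : ℝ) (h1 : ξ ≤ 1) (hy0 : a ≤ b) (hy1 : b ≤ a + ξ) :
    (1 - ξ) * (Real.exp b * (b - a)) ≤ Real.exp b - Real.exp a := by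
  have h := Real.add_one_le_exp (b - a)
  have h2 : Real.exp b = Real.exp a * Real.exp (b - a) := by
    rw [← Real.exp_add]; congr 1; ring
  have ha := Real.exp_pos a
  have hX : 0 ≤ b - a := by linarith
  have h3 : Real.exp a * (1 + (b - a)) ≤ Real.exp b := by
    rw [h2]
    exact mul_le_mul_of_nonneg_left (by linarith) ha.le
  have h4 : 0 < 1 + (b - a) := by linarith
  have h5 : (1 - ξ) * (1 + (b - a)) ≤ 1 := by nlinarith
  have hb := Real.exp_pos b
  -- (1-ξ) e^b X (1+X) ≤ e^b X ≤ (e^b - e^a)(1+X)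
  have h6 : (1 - ξ) * (Real.exp b * (b - a)) * (1 + (b - a)) ≤ Real.exp b * (b - a) := by
    have := mul_le_mul_of_nonneg_left h5 (mul_nonneg hb.le hX)
    nlinarith
  have h7 : Real.exp b * (b - a) ≤ (Real.exp b - Real.exp a) * (1 + (b - a)) := by
    nlinarith
  exact le_of_mul_le_mul_right (h6.trans h7) h4

end GridLem

theorem s_GridLem : GridLem := by
  intro n f ξ h0 h1 H1 H2 H3
  -- monotonicity
  have hmonR : ∀ i ≤ n, ∀ j ≤ n, f i j ≤ f i n := by
    intro i hi j hj
    induction hk : n - j generalizing j with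
    | zero =>
      have : j = n := by omega
      rw [this]
    | succ k ih =>
      have hjn : j < n := by omega
      exact (H2 i j hi hjn).1.trans (ih (j + 1) (by omega) (by omega))
  have hmonL : ∀ j ≤ n, f 0 0 ≤ f 0 j := by
    intro j
    induction j with
    | zero => intro _; exact le_refl _
    | succ k ih =>
      intro hk
      exact (ih (by omega)).trans (H2 0 k (Nat.zero_le _) (by omega)).1
  have hX : ∀ j, j < n → Real.exp ((1 - ξ) * (f n (j + 1) - f 0 (j + 1))) *
      (f n (j + 1) - f n j) ≤ f 0 (j + 1) - f 0 j := by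
    intro j hj
    have key : ∀ m, m ≤ n → Real.exp ((1 - ξ) * (f m (j + 1) - f 0 (j + 1))) *
        (f m (j + 1) - f m j) ≤ f 0 (j + 1) - f 0 j := by
      intro m
      induction m with
      | zero => intro _; simp
      | succ m ih =>
        intro hm
        refine le_trans ?_ (ih (by omega))
        have hy := H1 m (j + 1) (by omega) (by omega)
        have h3 := H3 m j (by omega) hj
        have hx := H2 (m + 1) j hm hj
        have he := GridLem.exp_le ξ (f (m + 1) (j + 1) - f m (j + 1)) h0 h1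
          (by linarith) (by linarith)
        have hs : Real.exp ((1 - ξ) * (f (m + 1) (j + 1) - f 0 (j + 1))) =
            Real.exp ((1 - ξ) * (f m (j + 1) - f 0 (j + 1))) *
              Real.exp ((1 - ξ) * (f (m + 1) (j + 1) - f m (j + 1))) := by
          rw [← Real.exp_add]; congr 1; ring
        rw [hs, mul_assoc]
        refine mul_le_mul_of_nonneg_left ?_ (Real.exp_pos _).le
        have hx0 : 0 ≤ f (m + 1) (j + 1) - f (m + 1) j := by linarith [hx.1]
        refine (mul_le_mul_of_nonneg_right he hx0).trans ?_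
        linarith
    exact key n le_rfl
  have hterm : ∀ j ∈ Finset.range n, (1 - ξ) * Real.exp (-ξ * (f n n - f 0 0)) *
      (Real.exp (f n (j + 1)) - Real.exp (f n j)) ≤
        Real.exp (f 0 (j + 1)) - Real.exp (f 0 j) := by
    intro j hj
    rw [Finset.mem_range] at hj
    have hx := H2 0 j (Nat.zero_le _) hj
    have hxn := H2 n j le_rfl hj
    refine le_trans ?_ (GridLem.le_exp_sub ξ (f 0 j) (f 0 (j + 1)) h1 hx.1 hx.2)
    rw [mul_assoc]
    refine mul_le_mul_of_nonneg_left ?_ (by linarith)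
    have a1 := GridLem.exp_sub_le (f n j) (f n (j + 1))
    have a2 := hX j hj
    have a3 := mul_le_mul_of_nonneg_left a2 (Real.exp_pos (f 0 (j + 1))).le
    have a4 := mul_le_mul_of_nonneg_left a1 (Real.exp_pos (-ξ * (f n n - f 0 0))).le
    refine a4.trans (le_trans ?_ a3)
    rw [← mul_assoc, ← mul_assoc, ← Real.exp_add, ← Real.exp_add]
    refine mul_le_mul_of_nonneg_right (Real.exp_le_exp.2 ?_) (by linarith [hxn.1])
    have b1 := hmonR n le_rfl (j + 1) (by omega)
    have b2 := hmonL (j + 1) (by omega)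
    nlinarith
  have hsum := Finset.sum_le_sum hterm
  rw [← Finset.mul_sum, Finset.sum_range_sub (fun j => Real.exp (f n j)),
    Finset.sum_range_sub (fun j => Real.exp (f 0 j))] at hsum
  exact hsum

end Pool.MP_31392c_an
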