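import Pool.Agent.Lib.MP_31392c_an.Full.SpecZ

/-!
# MP_31392c_an full proof: discretisation of a compact set on finitely many rays
-/

set_option autoImplicit false

open MeasureTheory Set Filter Topology Metric

namespace Pool.MP_31392c_an

namespace GridRed

/-- the direction number `j` of the regular grid of directions -/
private noncomputable def th (N₀ : ℕ) (j : ℕ) : ℝ := 2 * Real.pi * j / N₀

private lemma norm_exp_sub (a b : ℝ) :
    ‖Complex.exp ((a : ℂ) * Complex.I) - Complex.exp ((b : ℂ) * Complex.I)‖ ≤ |a - b| := by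
  have h : Complex.exp ((a : ℂ) * Complex.I) - Complex.exp ((b : ℂ) * Complex.I) =
      Complex.exp ((b : ℂ) * Complex.I) * (Complex.exp (Complex.I * ((a - b : ℝ) : ℂ)) - 1) := by
    rw [mul_sub, ← Complex.exp_add, mul_one]
    congr 2
    push_cast
    ring
  rw [h, norm_mul, Complex.norm_exp_ofReal_mul_I, one_mul, ← Real.norm_eq_abs]
  exact Real.norm_exp_I_mul_ofReal_sub_one_le

private lemma exp_period (N₀ : ℕ) (hN : 0 < N₀) (k : ℤ) : ∃ j : Fin N₀,
    Complex.exp ((th N₀ j : ℂ) * Complex.I) =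
      Complex.exp (((2 * Real.pi * k / N₀ : ℝ) : ℂ) * Complex.I) ∧ ((j : ℕ) : ℤ) = k % N₀ := by
  have hN' : (0 : ℤ) < N₀ := by exact_mod_cast hN
  have h1 : 0 ≤ k % N₀ := Int.emod_nonneg k hN'.ne'
  have h2 : k % N₀ < N₀ := Int.emod_lt_of_pos k hN'
  have h3 : (((k % N₀).toNat : ℕ) : ℤ) = k % N₀ := Int.toNat_of_nonneg h1
  refine ⟨⟨(k % N₀).toNat, by omega⟩, ?_, h3⟩
  rw [Complex.exp_eq_exp_iff_exists_int]
  refine ⟨-(k / N₀), ?_⟩
  have h4 := Int.emod_add_mul_ediv k N₀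
  have h5 : (((k % N₀).toNat : ℕ) : ℂ) = (k : ℂ) - (N₀ : ℂ) * ((k / N₀ : ℤ) : ℂ) := by
    have h6 : (((k % N₀).toNat : ℕ) : ℤ) = k - N₀ * (k / N₀) := by
      rw [h3]; linarith
    have h7 : (((((k % N₀).toNat : ℕ) : ℤ) : ℂ)) = ((k - N₀ * (k / N₀) : ℤ) : ℂ) := by rw [h6]
    rw [Int.cast_natCast] at h7
    rw [h7]
    push_cast
    ring
  have hN0 : (N₀ : ℂ) ≠ 0 := by exact_mod_cast hN.ne'
  unfold th
  push_cast
  rw [h5]
  field_simp
  ring

/-- Every direction is close to two different directions of the grid. -/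
private lemma near (N₀ : ℕ) (hN : 2 ≤ N₀) (ω : ℝ) : ∃ j₁ j₂ : Fin N₀, j₁ ≠ j₂ ∧
    ‖Complex.exp ((ω : ℂ) * Complex.I) - Complex.exp ((th N₀ j₁ : ℂ) * Complex.I)‖ ≤
      2 * Real.pi / N₀ ∧
    ‖Complex.exp ((ω : ℂ) * Complex.I) - Complex.exp ((th N₀ j₂ : ℂ) * Complex.I)‖ ≤
      2 * Real.pi / N₀ := by
  have hN0 : 0 < N₀ := by omega
  have hNr : (0 : ℝ) < N₀ := by exact_mod_cast hN0
  have hpi := Real.pi_pos
  set x : ℝ := ω * N₀ / (2 * Real.pi) with hx
  obtain ⟨j₁, a1, a2⟩ := exp_period N₀ hN0 ⌊x⌋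
  obtain ⟨j₂, b1, b2⟩ := exp_period N₀ hN0 (⌊x⌋ + 1)
  have hω : ω = 2 * Real.pi * x / N₀ := by
    rw [hx]
    field_simp
  have hf1 := Int.floor_le x
  have hf2 := Int.lt_floor_add_one x
  have hpos : 0 < 2 * Real.pi / N₀ := by positivity
  refine ⟨j₁, j₂, ?_, ?_, ?_⟩
  · intro h
    rw [h, b2] at a2
    have h1 : ⌊x⌋ ≡ ⌊x⌋ + 1 [ZMOD N₀] := a2.symm
    have h2 := h1.dvd
    rw [add_sub_cancel_left] at h2
    have h3 := Int.le_of_dvd one_pos h2
    omega
  · rw [a1]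
    refine (norm_exp_sub _ _).trans ?_
    have : ω - 2 * Real.pi * (⌊x⌋ : ℝ) / N₀ = 2 * Real.pi / N₀ * (x - ⌊x⌋) := by
      rw [hω]; ring
    rw [this, abs_mul, abs_of_pos hpos, abs_of_nonneg (by linarith)]
    have := mul_le_mul_of_nonneg_left (show x - ⌊x⌋ ≤ 1 by linarith) hpos.le
    linarith
  · rw [b1]
    refine (norm_exp_sub _ _).trans ?_
    have : ω - 2 * Real.pi * ((⌊x⌋ + 1 : ℤ) : ℝ) / N₀ = 2 * Real.pi / N₀ * (x - (⌊x⌋ + 1)) := by
      rw [hω]; push_cast; ring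
    rw [this, abs_mul, abs_of_pos hpos, abs_of_nonpos (by linarith)]
    have := mul_le_mul_of_nonneg_left (show -(x - (⌊x⌋ + 1)) ≤ 1 by linarith) hpos.le
    linarith

open Classical in
/-- the numbers of the cells on a ray which come close to `E` -/
private noncomputable def AA (E : Set ℂ) (ε : ℝ) (B : ℕ) (θ : ℝ) : Finset ℕ :=
  (Finset.range B).filter fun i => ∃ t : ℝ, (i : ℝ) * ε ≤ t ∧ t ≤ ((i : ℝ) + 1) * ε ∧
    infDist ((t : ℂ) * Complex.exp ((θ : ℂ) * Complex.I)) E ≤ ε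

private lemma norm_ray (t θ : ℝ) (ht : 0 ≤ t) :
    ‖(t : ℂ) * Complex.exp ((θ : ℂ) * Complex.I)‖ = t := by
  rw [norm_mul, Complex.norm_exp_ofReal_mul_I, mul_one, Complex.norm_real, Real.norm_eq_abs,
    abs_of_nonneg ht]

private lemma ray_le {E : Set ℂ} {R ε : ℝ} (hR : ∀ z ∈ E, ‖z‖ ≤ R) (hε : 0 < ε) {B : ℕ}
    (hB : R / ε < B) (ω θ : ℝ)
    (h : R * ‖Complex.exp ((ω : ℂ) * Complex.I) - Complex.exp ((θ : ℂ) * Complex.I)‖ ≤ ε) :
    rayMeasure E ω ≤ ε * ((AA E ε B θ).card : ℝ) := by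
  classical
  unfold rayMeasure
  have hsub : {t : ℝ | 0 ≤ t ∧ (t : ℂ) * Complex.exp ((ω : ℂ) * Complex.I) ∈ E} ⊆
      ⋃ i ∈ AA E ε B θ, Icc ((i : ℝ) * ε) (((i : ℝ) + 1) * ε) := by
    rintro t ⟨ht, htE⟩
    have htR : t ≤ R := by
      rw [← norm_ray t ω ht]
      exact hR _ htE
    have hf1 := Nat.floor_le (show 0 ≤ t / ε by positivity)
    have hf2 := Nat.lt_floor_add_one (t / ε)
    have hfB : ⌊t / ε⌋₊ < B := by
      rw [Nat.floor_lt (by positivity)]
      exact lt_of_le_of_lt (div_le_div_of_nonneg_right htR hε.le) hB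
    rw [le_div_iff₀ hε] at hf1
    rw [div_lt_iff₀ hε] at hf2
    rw [mem_iUnion₂]
    refine ⟨⌊t / ε⌋₊, ?_, hf1, hf2.le⟩
    unfold AA
    rw [Finset.mem_filter, Finset.mem_range]
    refine ⟨hfB, t, hf1, hf2.le, (infDist_le_dist_of_mem htE).trans ?_⟩
    rw [dist_eq_norm, ← mul_sub, norm_mul, Complex.norm_real, Real.norm_eq_abs, abs_of_nonneg ht,
      norm_sub_rev]
    exact (mul_le_mul_of_nonneg_right htR (norm_nonneg _)).trans h
  refine ENNReal.toReal_le_of_le_ofReal (by positivity) ?_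
  refine (measure_mono hsub).trans ((measure_biUnion_finset_le _ _).trans ?_)
  have hc : ∀ i ∈ AA E ε B θ, volume (Icc ((i : ℝ) * ε) (((i : ℝ) + 1) * ε)) =
      ENNReal.ofReal ε := by
    intro i _
    rw [Real.volume_Icc]
    congr 1
    ring
  rw [Finset.sum_congr rfl hc, Finset.sum_const, nsmul_eq_mul, mul_comm ε,
    ENNReal.ofReal_mul (Nat.cast_nonneg _), ENNReal.ofReal_natCast]

private lemma ray_le_R {E : Set ℂ} {R : ℝ} (hR : ∀ z ∈ E, ‖z‖ ≤ R) (hR0 : 0 ≤ R) (ω : ℝ) :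
    rayMeasure E ω ≤ R := by
  unfold rayMeasure
  have hsub : {t : ℝ | 0 ≤ t ∧ (t : ℂ) * Complex.exp ((ω : ℂ) * Complex.I) ∈ E} ⊆ Icc 0 R := by
    rintro t ⟨ht, htE⟩
    refine ⟨ht, ?_⟩
    rw [← norm_ray t ω ht]
    exact hR _ htE
  refine ENNReal.toReal_le_of_le_ofReal hR0 ((measure_mono hsub).trans ?_)
  rw [Real.volume_Icc, sub_zero]

private lemma nonempty_of_pos {E : Set ℂ} {θ : ℝ} (h : 0 < rayMeasure E θ) : E.Nonempty := by
  by_contra hne
  rw [not_nonempty_iff_eq_empty] at hne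
  subst hne
  simp [rayMeasure] at h

end GridRed

theorem s_GridRed : GridRed := by
  classical
  intro E R θs ε hE hR hpos hε
  have hpi := Real.pi_pos
  have hEne := GridRed.nonempty_of_pos hpos
  have hR0 : 0 ≤ R := by
    obtain ⟨z, hz⟩ := hEne
    exact (norm_nonneg z).trans (hR z hz)
  obtain ⟨N₁, hN₁⟩ := exists_nat_ge (2 * Real.pi * (R + 1) / ε)
  set N₀ : ℕ := N₁ + 2 with hN₀
  have hN₀2 : 2 ≤ N₀ := by omega
  have hN₀r : (0 : ℝ) < N₀ := by rw [hN₀]; positivity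
  have hN₀ε : R * (2 * Real.pi / N₀) ≤ ε := by
    have h1 : (N₁ : ℝ) ≤ N₀ := by rw [hN₀]; push_cast; linarith
    have h2 := hN₁.trans h1
    rw [div_le_iff₀ hε] at h2
    rw [← mul_div_assoc, div_le_iff₀ hN₀r]
    nlinarith
  obtain ⟨B, hB⟩ := exists_nat_gt (R / ε)
  set A : Fin N₀ → Finset ℕ := fun j => GridRed.AA E ε B (GridRed.th N₀ j) with hA
  -- (*)
  have hstar : ∀ (ω : ℝ) (j : Fin N₀),
      ‖Complex.exp ((ω : ℂ) * Complex.I) - Complex.exp ((GridRed.th N₀ j : ℂ) * Complex.I)‖ ≤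
        2 * Real.pi / N₀ → rayMeasure E ω ≤ ε * ((A j).card : ℝ) := by
    intro ω j hj
    exact GridRed.ray_le hR hε hB ω _
      ((mul_le_mul_of_nonneg_left hj hR0).trans hN₀ε)
  have hAne : ∀ (ω : ℝ) (j : Fin N₀), 0 < rayMeasure E ω →
      rayMeasure E ω ≤ ε * ((A j).card : ℝ) → (A j).Nonempty := by
    intro ω j h1 h2
    rw [← Finset.card_pos]
    by_contra h3
    have h4 : (A j).card = 0 := by omega
    rw [h4] at h2
    simp at h2
    linarith
  set J : Finset (Fin N₀) := Finset.univ.filter fun j => (A j).Nonempty with hJ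
  have hJmem : ∀ j, j ∈ J ↔ (A j).Nonempty := by
    intro j
    rw [hJ, Finset.mem_filter]
    simp
  set e : Fin J.card ↪o Fin N₀ := J.orderEmbOfFin rfl with he
  have heJ : ∀ k, e k ∈ J := fun k => Finset.orderEmbOfFin_mem J rfl k
  have hesurj : ∀ j ∈ J, ∃ k, e k = j := by
    intro j hj
    have h1 : (j : Fin N₀) ∈ Set.range e := by
      rw [he, Finset.range_orderEmbOfFin]
      exact_mod_cast hj
    exact h1
  have hinj : Function.Injective (fun i : ℕ => (((i : ℝ) * ε, ((i : ℝ) + 1) * ε) : ℝ × ℝ)) := by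
    intro i i' h
    simp only [Prod.mk.injEq] at h
    have h1 := mul_right_cancel₀ hε.ne' h.1
    exact_mod_cast h1
  obtain ⟨j₁, j₂, hj12, hj1, hj2⟩ := GridRed.near N₀ hN₀2 θs
  have hj1J : j₁ ∈ J := (hJmem j₁).2 (hAne θs j₁ hpos (hstar θs j₁ hj1))
  have hj2J : j₂ ∈ J := (hJmem j₂).2 (hAne θs j₂ hpos (hstar θs j₂ hj2))
  have hJ2 : 2 ≤ J.card := by
    have h1 : ({j₁, j₂} : Finset (Fin N₀)) ⊆ J := by
      intro x hx
      rw [Finset.mem_insert, Finset.mem_singleton] at hx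
      rcases hx with rfl | rfl
      · exact hj1J
      · exact hj2J
    have h2 := Finset.card_le_card h1
    rw [Finset.card_pair hj12] at h2
    exact h2
  refine ⟨J.card, fun k => GridRed.th N₀ (e k), fun k => ε * ((A (e k)).card : ℝ),
    fun k => (A (e k)).image (fun i : ℕ => (((i : ℝ) * ε, ((i : ℝ) + 1) * ε) : ℝ × ℝ)),
    hJ2, ⟨?_, ?_⟩, ?_, ?_, ?_, ?_, ?_, ?_, ?_⟩
  · intro a b hab
    have h1 : e a < e b := e.strictMono hab
    have h2 : ((e a : ℕ) : ℝ) < ((e b : ℕ) : ℝ) := by exact_mod_cast h1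
    simp only [GridRed.th]
    exact div_lt_div_of_pos_right (by nlinarith) hN₀r
  · intro a b
    simp only [GridRed.th]
    have h1 : ((e b : ℕ) : ℝ) < N₀ := by exact_mod_cast (e b).2
    have h2 : 2 * Real.pi * ((e b : ℕ) : ℝ) / N₀ < 2 * Real.pi := by
      rw [div_lt_iff₀ hN₀r]
      nlinarith
    have h3 : 0 ≤ 2 * Real.pi * ((e a : ℕ) : ℝ) / N₀ := by positivity
    linarith
  · intro k
    have h1 := Finset.card_pos.2 ((hJmem _).1 (heJ k))
    have h2 : (0 : ℝ) < ((A (e k)).card : ℝ) := by exact_mod_cast h1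
    positivity
  · obtain ⟨k, hk⟩ := hesurj j₁ hj1J
    refine ⟨k, ?_⟩
    simp only [hk]
    exact hstar θs j₁ hj1
  · intro k p hp
    rw [Finset.mem_image] at hp
    obtain ⟨i, _, rfl⟩ := hp
    constructor
    · simp only
      positivity
    · simp only
      nlinarith
  · intro k p hp q hq hpq
    rw [Finset.mem_image] at hp hq
    obtain ⟨i, _, rfl⟩ := hp
    obtain ⟨i', _, rfl⟩ := hq
    have hii : i ≠ i' := fun h => hpq (by rw [h])
    rw [Set.disjoint_left]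
    rintro t ⟨a1, a2⟩ ⟨b1, b2⟩
    simp only at a1 a2 b1 b2
    rcases lt_or_gt_of_ne hii with h | h
    · have h1 : (i : ℝ) + 1 ≤ i' := by exact_mod_cast h
      have h2 := mul_le_mul_of_nonneg_right h1 hε.le
      linarith
    · have h1 : (i' : ℝ) + 1 ≤ i := by exact_mod_cast h
      have h2 := mul_le_mul_of_nonneg_right h1 hε.le
      linarith
  · intro k
    rw [Finset.sum_image (fun a _ b _ h => hinj h)]
    have h1 : ∀ i ∈ A (e k), (((i : ℝ) + 1) * ε - (i : ℝ) * ε) = ε := by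
      intro i _
      ring
    simp only
    rw [Finset.sum_congr rfl h1, Finset.sum_const, nsmul_eq_mul, mul_comm]
  · intro k p hp t ht
    rw [Finset.mem_image] at hp
    obtain ⟨i, hi, rfl⟩ := hp
    simp only [mem_Icc] at ht
    have hi' : i ∈ GridRed.AA E ε B (GridRed.th N₀ (e k)) := hi
    unfold GridRed.AA at hi'
    rw [Finset.mem_filter] at hi'
    obtain ⟨_, t', a1, a2, a3⟩ := hi'
    refine (infDist_le_infDist_add_dist (y := (t' : ℂ) *
      Complex.exp ((GridRed.th N₀ (e k) : ℂ) * Complex.I))).trans ?_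
    have h1 : dist ((t : ℂ) * Complex.exp ((GridRed.th N₀ (e k) : ℂ) * Complex.I))
        ((t' : ℂ) * Complex.exp ((GridRed.th N₀ (e k) : ℂ) * Complex.I)) ≤ ε := by
      rw [dist_eq_norm, ← sub_mul, norm_mul, Complex.norm_exp_ofReal_mul_I, mul_one,
        ← Complex.ofReal_sub, Complex.norm_real, Real.norm_eq_abs, abs_le]
      constructor <;> linarith [ht.1, ht.2]
    linarith
  · intro z hz
    obtain ⟨r, ω, hr0, hr1, rfl⟩ := hz
    rcases hr0.eq_or_lt with h0 | h0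
    · refine ⟨⟨0, by omega⟩, 0, le_refl _, by positivity, ?_⟩
      rw [← h0]
      simp [hε.le]
    · obtain ⟨j, _, _, hj, _⟩ := GridRed.near N₀ hN₀2 ω
      have h1 := hstar ω j hj
      have hjJ : j ∈ J := (hJmem j).2 (hAne ω j (h0.trans_le hr1) h1)
      obtain ⟨k, hk⟩ := hesurj j hjJ
      refine ⟨k, r, hr0, ?_, ?_⟩
      · simp only [hk]
        exact hr1.trans h1
      · simp only [hk]
        rw [← mul_sub, norm_mul, Complex.norm_real, Real.norm_eq_abs, abs_of_nonneg hr0]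
        have hrR : r ≤ R := hr1.trans (GridRed.ray_le_R hR hR0 ω)
        exact (mul_le_mul hrR hj (norm_nonneg _) hR0).trans hN₀ε

end Pool.MP_31392c_an
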