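import Mathlib
import Pool.Agent.Lib.MP_31392c_an.Full.SpecK

/-!
# MP_31392c_an full proof: HardApprox
-/

set_option autoImplicit false

open MeasureTheory Set Filter Topology Metric

namespace Pool.MP_31392c_an

namespace HardApprox

lemma dX_congr {f g : ℂ → ℝ} {z : ℂ} (h : f =ᶠ[𝓝 z] g) : dX f =ᶠ[𝓝 z] dX g := by
  filter_upwards [h.fderiv (𝕜 := ℝ)] with w hw
  unfold dX
  rw [hw]

lemma dY_congr {f g : ℂ → ℝ} {z : ℂ} (h : f =ᶠ[𝓝 z] g) : dY f =ᶠ[𝓝 z] dY g := by
  filter_upwards [h.fderiv (𝕜 := ℝ)] with w hw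
  unfold dY
  rw [hw]

lemma lap_congr {f g : ℂ → ℝ} {z : ℂ} (h : f =ᶠ[𝓝 z] g) : lap f z = lap g z := by
  unfold lap
  have h1 := (dX_congr (dX_congr h)).eq_of_nhds
  have h2 := (dY_congr (dY_congr h)).eq_of_nhds
  rw [h1, h2]

lemma lap_sub_const (f : ℂ → ℝ) (c : ℝ) (z : ℂ) : lap (fun z => f z - c) z = lap f z := by
  have h1 : dX (fun z => f z - c) = dX f := by
    funext z
    unfold dX
    rw [fderiv_sub_const]
  have h2 : dY (fun z => f z - c) = dY f := by
    funext z
    unfold dY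
    rw [fderiv_sub_const]
  unfold lap
  rw [h1, h2]

/-- Cutting a function of the Perron class. -/
lemma cut {F F' : Set ℂ} {v : ℂ → ℝ} {c ω : ℝ} (hv : IsSub F v c) (hω : 0 ≤ ω)
    (h : ∀ z ∈ F', v z ≤ ω) : IsSub F' (fun z => max (v z - ω) 0) (c - ω) := by
  refine ⟨(hv.cont.sub continuous_const).max continuous_const, fun z => le_max_right _ _, ?_, ?_,
    ?_⟩
  · intro z hz
    exact max_eq_right (by linarith [h z hz])
  · intro z hz
    have hz' : ω < v z := by
      by_contra hcon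
      rw [max_eq_right (by linarith [not_lt.1 hcon])] at hz
      exact lt_irrefl _ hz
    have hev : (fun z => max (v z - ω) 0) =ᶠ[𝓝 z] fun z => v z - ω := by
      filter_upwards [hv.cont.continuousAt.eventually (lt_mem_nhds hz')] with w hw
      exact max_eq_left (by linarith)
    obtain ⟨h1, h2⟩ := hv.sub z (hω.trans_lt hz')
    refine ⟨(h1.sub contDiffAt_const).congr_of_eventuallyEq hev, ?_⟩
    rw [lap_congr hev, lap_sub_const]
    exact h2
  · have h1 : Tendsto (fun z : ℂ => Real.log ‖z‖) (cocompact ℂ) atTop :=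
      Real.tendsto_log_atTop.comp tendsto_norm_cocompact_atTop
    have h2 : Tendsto v (cocompact ℂ) atTop := by
      have := h1.atTop_add hv.infty
      refine this.congr fun z => by ring
    have h3 : Tendsto (fun z => v z - Real.log ‖z‖ - ω) (cocompact ℂ) (𝓝 (c - ω)) :=
      hv.infty.sub tendsto_const_nhds
    refine h3.congr' ?_
    filter_upwards [h2.eventually (eventually_gt_atTop ω)] with z hz
    rw [max_eq_left (by linarith)]
    ring

/-- A finite union of segments is compact and its segments have a minimal length. -/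
lemma segUnion_facts {K : Set ℂ} (hK : SegUnion K) : IsCompact K ∧ ∃ ℓ : ℝ, 0 < ℓ ∧
    ∀ w ∈ K, ∃ a b : ℂ, segment ℝ a b ⊆ K ∧ ℓ ≤ ‖b - a‖ ∧ w ∈ segment ℝ a b := by
  classical
  obtain ⟨s, hs, rfl⟩ := hK
  refine ⟨?_, ?_⟩
  · refine s.isCompact_biUnion fun p _ => ?_
    rw [segment_eq_image_lineMap]
    exact isCompact_Icc.image (by fun_prop)
  · have hℓ : ∀ s : Finset (ℂ × ℂ), (∀ p ∈ s, p.1 ≠ p.2) → ∃ ℓ : ℝ, 0 < ℓ ∧
        ∀ p ∈ s, ℓ ≤ ‖p.2 - p.1‖ := by
      intro s
      induction s using Finset.induction_on with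
      | empty => exact fun _ => ⟨1, one_pos, by simp⟩
      | insert p s _ ih =>
        intro hp
        obtain ⟨ℓ, h1, h2⟩ := ih fun q hq => hp q (Finset.mem_insert_of_mem hq)
        have h3 : 0 < ‖p.2 - p.1‖ :=
          norm_pos_iff.2 (sub_ne_zero.2 (hp p (Finset.mem_insert_self _ _)).symm)
        refine ⟨min ℓ ‖p.2 - p.1‖, lt_min h1 h3, ?_⟩
        intro q hq
        rcases Finset.mem_insert.1 hq with rfl | hq
        · exact min_le_right _ _
        · exact (min_le_left _ _).trans (h2 q hq)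
    obtain ⟨ℓ, h1, h2⟩ := hℓ s hs
    refine ⟨ℓ, h1, ?_⟩
    intro w hw
    rw [mem_iUnion₂] at hw
    obtain ⟨p, hp, hwp⟩ := hw
    refine ⟨p.1, p.2, ?_, h2 p hp, hwp⟩
    exact subset_biUnion_of_mem (u := fun p : ℂ × ℂ => segment ℝ p.1 p.2) hp

/-- Smooth Urysohn function. -/
lemma urysohn {K : Set ℂ} (hK : IsCompact K) {ε : ℝ} (hε : 0 < ε) : ∃ f : ℂ → ℝ,
    ContDiff ℝ 2 f ∧ (∀ z, 0 ≤ f z) ∧ HasCompactSupport f ∧ tsupport f ⊆ cthickening ε K ∧
    ∀ z ∈ cthickening (ε / 2) K, f z = 1 := by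
  have hs : IsClosed (thickening ε K)ᶜ := isOpen_thickening.isClosed_compl
  have ht : IsClosed (cthickening (ε / 2) K) := isClosed_cthickening
  have hd : Disjoint (thickening ε K)ᶜ (cthickening (ε / 2) K) := by
    rw [disjoint_compl_left_iff_subset]
    exact cthickening_subset_thickening' hε (by linarith) K
  obtain ⟨f, hf, hr, h0, h1⟩ := exists_contMDiff_zero_iff_one_iff_of_isClosed (n := 2)
    (modelWithCornersSelf ℝ ℂ) hs ht hd
  have hsub : tsupport f ⊆ cthickening ε K := by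
    refine (closure_mono ?_).trans (closure_thickening_subset_cthickening ε K)
    intro z hz
    by_contra hcon
    exact hz ((h0 z).1 hcon)
  refine ⟨f, contMDiff_iff_contDiff.1 hf, fun z => (hr ⟨z, rfl⟩).1, ?_, hsub,
    fun z hz => (h1 z).1 hz⟩
  exact (hK.cthickening).of_isClosed_subset (isClosed_tsupport f) hsub

end HardApprox

open HardApprox in
theorem s_HardApprox : KapBasic → KapMod → SegBound → GreenSub → SubLeGreen → Barrier →
    HardApprox := by
  rintro ⟨kb1, kb2, -, -, -⟩ hKM hSB hGS hSL hBar P₀ B K η hP₀ hB hP₀B hK hKB hη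
  obtain ⟨hKc, ℓ, hℓ, hseg⟩ := segUnion_facts hK
  obtain ⟨hP₀b, a₀, b₀, hab₀, hseg₀⟩ := hP₀
  obtain ⟨δ, hδ, hdis⟩ := hKB.exists_cthickenings hKc hB.isClosed
  obtain ⟨ε, hε, hεδ, hεη⟩ : ∃ ε : ℝ, 0 < ε ∧ ε ≤ δ ∧ 2 * Real.sqrt (ε / ℓ) ≤ η := by
    refine ⟨min δ (ℓ * (η / 2) ^ 2), by positivity, min_le_left _ _, ?_⟩
    have h1 : min δ (ℓ * (η / 2) ^ 2) / ℓ ≤ (η / 2) ^ 2 := by
      rw [div_le_iff₀ hℓ]
      calc min δ (ℓ * (η / 2) ^ 2) ≤ ℓ * (η / 2) ^ 2 := min_le_right _ _
        _ = (η / 2) ^ 2 * ℓ := by ring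
    have h2 := Real.sqrt_le_sqrt h1
    rw [Real.sqrt_sq (by positivity)] at h2
    linarith
  have hdisB : Disjoint (cthickening ε K) B := by
    refine Disjoint.mono (cthickening_mono hεδ K) (self_subset_cthickening B) hdis
  obtain ⟨f, hf2, hf0, hfs, hfsub, hf1⟩ := urysohn hKc hε
  -- the bound `M`
  obtain ⟨ρ, hρ⟩ : ∃ ρ : ℝ, ∀ z ∈ cthickening ε K, ‖z - a₀‖ ≤ ρ := by
    obtain ⟨ρ, hρ⟩ := (hKc.cthickening (r := ε)).isBounded.exists_norm_le
    refine ⟨ρ + ‖a₀‖, fun z hz => (norm_sub_le _ _).trans ?_⟩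
    have := hρ z hz
    linarith
  obtain ⟨M, hM⟩ : ∃ M : ℝ, M = 2 * Real.sqrt (|ρ| / ‖b₀ - a₀‖) := ⟨_, rfl⟩
  have hM0 : 0 ≤ M := by rw [hM]; positivity
  obtain ⟨n, hn⟩ : ∃ n : ℝ, n = 16 * M / (η * ε ^ 2) + 1 := ⟨_, rfl⟩
  have hn0 : 0 < n := by rw [hn]; positivity
  have hnM : 4 * M / (n * (ε / 2) ^ 2) ≤ η := by
    rw [div_le_iff₀ (by positivity)]
    have h1 : 16 * M / (η * ε ^ 2) * (η * ε ^ 2) = 16 * M := by
      field_simp
    have h2 : 0 < η * ε ^ 2 := by positivity
    rw [hn]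
    nlinarith
  refine ⟨fun z => n * f z, ⟨contDiff_const.mul hf2, fun z => mul_nonneg hn0.le (hf0 z),
    hfs.mul_left⟩, ?_, ?_⟩
  · refine Disjoint.mono_left ?_ hdisB
    exact (tsupport_mul_subset_right (f := fun _ => n) (g := f)).trans hfsub
  · intro P u κ hP₀P hPB hu
    have hPb : Bornology.IsBounded P := hB.isBounded.subset hPB
    have hV0 : ∀ z, 0 ≤ n * f z := fun z => mul_nonneg hn0.le (hf0 z)
    have hKb : Bornology.IsBounded K := hKc.isBounded
    have hcb : Bornology.IsBounded (cthickening ε K) := (hKc.cthickening (r := ε)).isBounded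
    have hKcK : K ⊆ cthickening ε K := self_subset_cthickening K
    have hfat1 : Fat (P ∪ cthickening ε K) := ⟨hPb.union hcb, a₀, b₀, hab₀,
      (hseg₀.trans hP₀P).trans subset_union_left⟩
    have hfat2 : Fat (P ∪ K) := ⟨hPb.union hKb, a₀, b₀, hab₀,
      (hseg₀.trans hP₀P).trans subset_union_left⟩
    have hVout : ∀ z, z ∉ P ∪ cthickening ε K → n * f z = 0 := by
      intro z hz
      have : z ∉ tsupport f := fun h => hz (Or.inr (hfsub h))
      rw [image_eq_zero_of_notMem_tsupport this, mul_zero]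
    -- upper bound
    have hup : κ ≤ kap (P ∪ K) + η := by
      have h1 : κ ≤ kap (P ∪ cthickening ε K) := by
        by_contra hcon
        obtain ⟨v, c, hv, hc⟩ := kb2 _ hfat1 (κ - kap (P ∪ cthickening ε K))
          (by linarith [not_le.1 hcon])
        have h2 := (hSL _ P (P ∪ cthickening ε K) u v κ c hu hv subset_union_left hVout).2
        linarith
      have h2 := hKM (P ∪ K) (P ∪ cthickening ε K) ℓ ε hfat2 (hPb.union hcb)
        (union_subset_union_right P hKcK) hℓ hε.le (by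
          rintro z (hz | hz)
          · exact Or.inl (Or.inl hz)
          · right
            rw [hKc.cthickening_eq_biUnion_closedBall hε.le, mem_iUnion₂] at hz
            obtain ⟨w, hw, hzw⟩ := hz
            obtain ⟨a, b, h3, h4, h5⟩ := hseg w hw
            refine ⟨a, b, w, h3.trans subset_union_right, h4, h5, ?_⟩
            rw [← dist_eq_norm]
            exact mem_closedBall.1 hzw)
      linarith
    -- lower bound
    have hsub := hGS _ P u κ hV0 hu
    have huM : ∀ z ∈ cthickening ε K, u z ≤ M := by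
      intro z hz
      have h1 := hSB P u (-κ) a₀ b₀ hab₀ (hseg₀.trans hP₀P) hsub z a₀ (left_mem_segment ℝ a₀ b₀)
      refine h1.trans ?_
      rw [hM]
      have h2 : ‖z - a₀‖ / ‖b₀ - a₀‖ ≤ |ρ| / ‖b₀ - a₀‖ :=
        div_le_div_of_nonneg_right ((hρ z hz).trans (le_abs_self ρ)) (norm_nonneg _)
      have := Real.sqrt_le_sqrt h2
      linarith
    have huK : ∀ z ∈ K, u z ≤ η := by
      intro z₀ hz₀
      have hball : closedBall z₀ (ε / 2) ⊆ cthickening (ε / 2) K :=
        closedBall_subset_cthickening hz₀ _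
      have hball' : closedBall z₀ (ε / 2) ⊆ cthickening ε K :=
        hball.trans (cthickening_mono (by linarith) K)
      have hnP : ∀ z ∈ closedBall z₀ (ε / 2), z ∉ P := fun z hz hzP =>
        disjoint_left.1 hdisB (hball' hz) (hPB hzP)
      refine (hBar u z₀ (ε / 2) M n (by positivity) hM0 hn0 hu.cont.continuousOn ?_ ?_).trans hnM
      · intro z hz
        have hz' := ball_subset_closedBall hz
        obtain ⟨h1, h2⟩ := hu.harm z (hnP z hz')
        refine ⟨h1, ?_⟩
        simp only [h2, hf1 z (hball hz'), mul_one]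
        exact le_rfl
      · intro z hz
        exact ⟨(hu.pos z (hnP z hz)).le, huM z (hball' hz)⟩
    have hcut := cut (F' := P ∪ K) hsub hη.le (by
      rintro z (hz | hz)
      · rw [hu.zero z hz]; exact hη.le
      · exact huK z hz)
    have hlow := kb1 _ _ _ hfat2 hcut
    rw [abs_le]
    constructor <;> linarith

end Pool.MP_31392c_an
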