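import Pool.Agent.Lib.MP_31392c_an.Full.SpecD

/-!
# MP_31392c_an: regularity of the reflected potential
-/

set_option autoImplicit false

open MeasureTheory Set Filter Topology Metric

namespace Pool.MP_31392c_an

namespace HwReg

open Complex in
/-- the integrand -/
noncomputable def K (ρ : ℂ → ℝ) (z w : ℂ) : ℂ :=
  Complex.log (1 - (starRingEnd ℂ) w * z) * (ρ w : ℂ)

theorem slit {z w : ℂ} (h : ‖w‖ * ‖z‖ < 1) :
    1 - (starRingEnd ℂ) w * z ∈ Complex.slitPlane := by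
  left
  have h1 : ((starRingEnd ℂ) w * z).re ≤ ‖w‖ * ‖z‖ := by
    refine (Complex.re_le_norm _).trans ?_
    rw [norm_mul, RCLike.norm_conj]
  simp only [Complex.sub_re, Complex.one_re]
  linarith

theorem zero_of {ρ : ℂ → ℝ} {r₀ : ℝ} (hr0 : 0 < r₀) (hρ0 : ∀ w, r₀ ≤ ‖w‖ → ρ w = 0) {z w : ℂ}
    (hz : ‖z‖ * r₀ < 1) (h : ¬ ‖w‖ * ‖z‖ < 1) : ∀ᶠ w' in 𝓝 w, ρ w' = 0 := by
  have h1 : r₀ < ‖w‖ := by
    by_contra h2
    push Not at h2
    apply h
    calc ‖w‖ * ‖z‖ ≤ r₀ * ‖z‖ := mul_le_mul_of_nonneg_right h2 (norm_nonneg _)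
      _ = ‖z‖ * r₀ := mul_comm _ _
      _ < 1 := hz
  have h2 : ∀ᶠ w' in 𝓝 w, r₀ < ‖w'‖ := continuous_norm.continuousAt.eventually (lt_mem_nhds h1)
  filter_upwards [h2] with w' hw'
  exact hρ0 w' hw'.le

theorem cont {ρ : ℂ → ℝ} {r₀ : ℝ} (hρ : Continuous ρ) (hr0 : 0 < r₀)
    (hρ0 : ∀ w, r₀ ≤ ‖w‖ → ρ w = 0) {z : ℂ} (hz : ‖z‖ * r₀ < 1) :
    Continuous (fun w => K ρ z w) := by
  rw [continuous_iff_continuousAt]
  intro w
  by_cases h : ‖w‖ * ‖z‖ < 1
  · unfold K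
    apply ContinuousAt.mul
    · apply ContinuousAt.clog
      · fun_prop
      · exact slit h
    · exact (Complex.continuous_ofReal.comp hρ).continuousAt
  · have h1 : (fun w => K ρ z w) =ᶠ[𝓝 w] fun _ => 0 := by
      filter_upwards [zero_of hr0 hρ0 hz h] with w' hw'
      simp [K, hw']
    exact continuousAt_const.congr h1.symm

theorem supp {ρ : ℂ → ℝ} {r₀ : ℝ} (hρ0 : ∀ w, r₀ ≤ ‖w‖ → ρ w = 0) (z : ℂ) :
    HasCompactSupport (fun w => K ρ z w) := by
  refine HasCompactSupport.of_support_subset_isCompact (isCompact_closedBall 0 r₀) ?_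
  intro w hw
  rw [mem_closedBall_zero_iff]
  by_contra h
  push Not at h
  apply hw
  simp [K, hρ0 w h.le]

theorem suppρ {ρ : ℂ → ℝ} {r₀ : ℝ} (hρ0 : ∀ w, r₀ ≤ ‖w‖ → ρ w = 0) :
    HasCompactSupport ρ := by
  refine HasCompactSupport.of_support_subset_isCompact (isCompact_closedBall 0 r₀) ?_
  intro w hw
  rw [mem_closedBall_zero_iff]
  by_contra h
  push Not at h
  exact hw (hρ0 w h.le)

theorem diff {ρ : ℂ → ℝ} {r₀ : ℝ} (hρ : Continuous ρ) (hr0 : 0 < r₀)
    (hρ0 : ∀ w, r₀ ≤ ‖w‖ → ρ w = 0) {z₀ : ℂ} (hz : ‖z₀‖ * r₀ < 1) :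
    DifferentiableAt ℂ (fun z => ∫ w, K ρ z w) z₀ := by
  set s₁ : ℝ := (‖z₀‖ + 1 / r₀) / 2 with hs₁
  have hz1 : ‖z₀‖ < 1 / r₀ := by
    rw [lt_div_iff₀ hr0]
    exact hz
  have h1 : ‖z₀‖ < s₁ := by rw [hs₁]; linarith
  have h2 : s₁ * r₀ < 1 := by
    have : s₁ < 1 / r₀ := by rw [hs₁]; linarith
    rwa [lt_div_iff₀ hr0] at this
  have hs0 : 0 < s₁ := lt_of_le_of_lt (norm_nonneg _) h1
  have hS : ball (0 : ℂ) s₁ ∈ 𝓝 z₀ := isOpen_ball.mem_nhds (mem_ball_zero_iff.2 h1)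
  have hin : ∀ z ∈ ball (0 : ℂ) s₁, ‖z‖ * r₀ < 1 := by
    intro z hz
    rw [mem_ball_zero_iff] at hz
    exact lt_of_le_of_lt (mul_le_mul_of_nonneg_right hz.le hr0.le) h2
  have hρm : Measurable ρ := hρ.measurable
  have key := hasDerivAt_integral_of_dominated_loc_of_deriv_le (μ := volume) (𝕜 := ℂ) (x₀ := z₀)
    (F := fun (z : ℂ) (w : ℂ) => K ρ z w)
    (F' := fun (z : ℂ) (w : ℂ) => (-(starRingEnd ℂ) w / (1 - (starRingEnd ℂ) w * z)) * (ρ w : ℂ))
    (bound := fun w : ℂ => (r₀ / (1 - s₁ * r₀)) * |ρ w|) hS ?_ ?_ ?_ ?_ ?_ ?_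
  · exact key.2.differentiableAt
  · filter_upwards [hS] with z hz
    exact (cont hρ hr0 hρ0 (hin z hz)).aestronglyMeasurable
  · exact (cont hρ hr0 hρ0 hz).integrable_of_hasCompactSupport (supp hρ0 z₀)
  · apply Measurable.aestronglyMeasurable
    have e1 : Measurable (fun w : ℂ => (starRingEnd ℂ) w) := Complex.continuous_conj.measurable
    have e2 : Measurable (fun w : ℂ => (ρ w : ℂ)) := Complex.measurable_ofReal.comp hρm
    exact (e1.neg.div ((e1.mul_const z₀).const_sub 1)).mul e2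
  · refine Eventually.of_forall fun w z hz => ?_
    by_cases hw : r₀ ≤ ‖w‖
    · simp [hρ0 w hw]
    · push Not at hw
      rw [norm_mul, norm_div, norm_neg, RCLike.norm_conj, Complex.norm_real, Real.norm_eq_abs]
      apply mul_le_mul_of_nonneg_right _ (abs_nonneg _)
      have e1 : 1 - s₁ * r₀ ≤ ‖1 - (starRingEnd ℂ) w * z‖ := by
        have e2 : ‖(starRingEnd ℂ) w * z‖ ≤ s₁ * r₀ := by
          rw [norm_mul, RCLike.norm_conj, mul_comm]
          rw [mem_ball_zero_iff] at hz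
          exact mul_le_mul hz.le hw.le (norm_nonneg _) hs0.le
        have e3 := norm_sub_norm_le (1 : ℂ) ((starRingEnd ℂ) w * z)
        rw [norm_one] at e3
        linarith
      have e4 : 0 < 1 - s₁ * r₀ := by linarith
      exact div_le_div₀ hr0.le hw.le e4 e1
  · exact (hρ.abs.integrable_of_hasCompactSupport (suppρ hρ0).abs).const_mul _
  · refine Eventually.of_forall fun w z hz => ?_
    by_cases hw : r₀ ≤ ‖w‖
    · have e1 : (fun z => K ρ z w) = fun _ => 0 := by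
        funext z
        simp [K, hρ0 w hw]
      have e2 : (-(starRingEnd ℂ) w / (1 - (starRingEnd ℂ) w * z)) * (ρ w : ℂ) = 0 := by
        simp [hρ0 w hw]
      rw [e1, e2]
      exact hasDerivAt_const _ _
    · push Not at hw
      have e0 : ‖w‖ * ‖z‖ < 1 := by
        have e5 := hin z hz
        calc ‖w‖ * ‖z‖ ≤ r₀ * ‖z‖ := mul_le_mul_of_nonneg_right hw.le (norm_nonneg _)
          _ = ‖z‖ * r₀ := mul_comm _ _
          _ < 1 := e5
      have e1 : HasDerivAt (fun z : ℂ => 1 - (starRingEnd ℂ) w * z) (-(starRingEnd ℂ) w) z := by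
        have := ((hasDerivAt_id z).const_mul ((starRingEnd ℂ) w)).const_sub 1
        simpa using this
      exact (e1.clog (slit e0)).mul_const _

end HwReg

open HwReg in
theorem s_HwReg : Bridge → HwReg := by
  intro hB ρ r₀ hρ hr0 _ hρ0 z hz
  set U : Set ℂ := {z | ‖z‖ * r₀ < 1} with hU
  have hUo : IsOpen U := isOpen_lt (continuous_norm.mul continuous_const) continuous_const
  have hd : DifferentiableOn ℂ (fun z => ∫ w, HwReg.K ρ z w) U := fun z hz =>
    (HwReg.diff hρ hr0 hρ0 hz).differentiableWithinAt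
  have hre : ∀ z ∈ U, Hw ρ z = (∫ w, HwReg.K ρ z w).re := by
    intro z hz
    have hint : Integrable (fun w => HwReg.K ρ z w) :=
      (HwReg.cont hρ hr0 hρ0 hz).integrable_of_hasCompactSupport (HwReg.supp hρ0 z)
    have h1 : (∫ w, HwReg.K ρ z w).re = ∫ w, (HwReg.K ρ z w).re := by
      have h2 := Complex.reCLM.integral_comp_comm hint
      exact h2.symm
    rw [h1]
    unfold Hw
    congr 1
    funext w
    unfold HwReg.K
    rw [Complex.mul_re, Complex.ofReal_re, Complex.ofReal_im, mul_zero, sub_zero,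
      Complex.log_re]
  have hharm : InnerProductSpace.HarmonicOnNhd (Hw ρ) U := by
    intro z hz
    have h1 : AnalyticAt ℂ (fun z => ∫ w, HwReg.K ρ z w) z :=
      hd.analyticAt (hUo.mem_nhds hz)
    have h2 := h1.harmonicAt_re
    refine (InnerProductSpace.harmonicAt_congr_nhds ?_).2 h2
    filter_upwards [hUo.mem_nhds hz] with z' hz'
    exact hre z' hz'
  exact (hB (Hw ρ) U hUo).2 hharm z hz

end Pool.MP_31392c_an
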