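import Pool.Agent.Lib.MP_31392c_an.Full.SpecK
import Pool.Agent.Lib.MP_31392c_an.Full.DiscGreen
import Pool.Agent.Lib.MP_31392c_an.Full.Conf

/-!
# MP_31392c_an full proof: elementary properties of the Perron capacity
-/

set_option autoImplicit false

open MeasureTheory Set Filter Topology Metric

namespace Pool.MP_31392c_an

namespace KapBasic

lemma lap_congr {f g : ℂ → ℝ} {z : ℂ} (h : f =ᶠ[𝓝 z] g) : lap f z = lap g z := by
  have hx : dX f =ᶠ[𝓝 z] dX g := by
    filter_upwards [h.fderiv (𝕜 := ℝ)] with w hw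
    unfold dX
    rw [hw]
  have hy : dY f =ᶠ[𝓝 z] dY g := by
    filter_upwards [h.fderiv (𝕜 := ℝ)] with w hw
    unfold dY
    rw [hw]
  unfold lap
  have h1 : dX (dX f) z = dX (dX g) z := by
    show fderiv ℝ (dX f) z 1 = fderiv ℝ (dX g) z 1
    rw [hx.fderiv_eq]
  have h2 : dY (dY f) z = dY (dY g) z := by
    show fderiv ℝ (dY f) z Complex.I = fderiv ℝ (dY g) z Complex.I
    rw [hy.fderiv_eq]
  rw [h1, h2]

lemma lap_sub_const (f : ℂ → ℝ) (c : ℝ) (z : ℂ) : lap (fun w => f w - c) z = lap f z := by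
  have hx : dX (fun w => f w - c) = dX f := by
    funext w
    unfold dX
    rw [fderiv_sub_const]
  have hy : dY (fun w => f w - c) = dY f := by
    funext w
    unfold dY
    rw [fderiv_sub_const]
  unfold lap
  rw [hx, hy]

/-- the Perron class of a bounded set is not empty -/
lemma exists_sub {F : Set ℂ} (hF : Bornology.IsBounded F) : ∃ (c : ℝ) (v : ℂ → ℝ), IsSub F v c := by
  obtain ⟨R₀, hR₀⟩ := hF.exists_norm_le
  set R : ℝ := max R₀ 1 with hR
  have hR1 : 1 ≤ R := le_max_right _ _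
  have hRp : 0 < R := by linarith
  have hmp : ∀ z : ℂ, 0 < max ‖z‖ R := fun z => lt_of_lt_of_le hRp (le_max_right _ _)
  refine ⟨-Real.log R, fun z => Real.log (max ‖z‖ R) - Real.log R, ?_, ?_, ?_, ?_, ?_⟩
  · apply Continuous.sub _ continuous_const
    exact (continuous_norm.max continuous_const).log (fun z => (hmp z).ne')
  · intro z
    have := Real.log_le_log hRp (le_max_right ‖z‖ R)
    linarith
  · intro z hz
    have h1 : ‖z‖ ≤ R := (hR₀ z hz).trans (le_max_left _ _)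
    rw [max_eq_right h1, sub_self]
  · intro z hz
    have h1 : R < ‖z‖ := by
      by_contra h
      rw [max_eq_right (not_lt.1 h), sub_self] at hz
      exact lt_irrefl _ hz
    have hz0 : z ≠ 0 := by
      rintro rfl
      rw [norm_zero] at h1
      linarith
    have hev : (fun z : ℂ => Real.log (max ‖z‖ R) - Real.log R) =ᶠ[𝓝 z]
        fun z => Real.log ‖z‖ - Real.log R := by
      have h2 : ∀ᶠ w : ℂ in 𝓝 z, R < ‖w‖ :=
        (isOpen_lt continuous_const continuous_norm).mem_nhds h1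
      filter_upwards [h2] with w hw
      rw [max_eq_left hw.le]
    constructor
    · refine ContDiffAt.congr_of_eventuallyEq ?_ hev
      exact (DiscGreen.contDiffAt_log hz0 2).sub contDiffAt_const
    · rw [lap_congr hev, lap_sub_const, DiscGreen.lap_log hz0]
  · refine (tendsto_const_nhds (x := -Real.log R)).congr' ?_
    have h4 : ∀ᶠ z : ℂ in cocompact ℂ, R < ‖z‖ :=
      (tendsto_norm_cocompact_atTop (E := ℂ)).eventually_gt_atTop R
    filter_upwards [h4] with z hz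
    rw [max_eq_left hz.le]
    ring

lemma sub_mono {F F' : Set ℂ} {v : ℂ → ℝ} {c : ℝ} (h : IsSub F' v c) (hF : F ⊆ F') :
    IsSub F v c :=
  ⟨h.cont, h.nonneg, fun z hz => h.zero z (hF hz), h.sub, h.infty⟩

lemma sub_translate {F : Set ℂ} {v : ℂ → ℝ} {c : ℝ} (h : IsSub F v c) (w : ℂ) :
    IsSub ((fun z => w + z) '' F) (fun z => v (z - w)) c := by
  refine ⟨h.cont.comp (continuous_id.sub continuous_const), fun z => h.nonneg _, ?_, ?_, ?_⟩
  · rintro z ⟨y, hy, rfl⟩
    show v (w + y - w) = 0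
    rw [add_sub_cancel_left]
    exact h.zero y hy
  · intro z hz
    obtain ⟨h1, h2⟩ := h.sub _ hz
    have ha : AnalyticAt ℂ (fun y : ℂ => y - w) z := analyticAt_id.sub analyticAt_const
    obtain ⟨h3, h4, -⟩ := s_Conf v v (fun y : ℂ => y - w) z ha h1 h1
    refine ⟨h3, ?_⟩
    rw [h4]
    positivity
  · have h1 : Tendsto (fun z : ℂ => z - w) (cocompact ℂ) (cocompact ℂ) :=
      (Homeomorph.subRight w).isClosedEmbedding.tendsto_cocompact
    have h2 := h.infty.comp h1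
    have h3 : Tendsto (fun z : ℂ => Real.log (‖z - w‖ / ‖z‖)) (cocompact ℂ) (𝓝 0) := by
      have h5 : Tendsto (fun z : ℂ => ‖w‖ / ‖z‖) (cocompact ℂ) (𝓝 0) :=
        tendsto_const_nhds.div_atTop (tendsto_norm_cocompact_atTop (E := ℂ))
      have h6 : Tendsto (fun z : ℂ => ‖z - w‖ / ‖z‖) (cocompact ℂ) (𝓝 1) := by
        rw [tendsto_iff_norm_sub_tendsto_zero]
        refine squeeze_zero' (Eventually.of_forall fun _ => norm_nonneg _) ?_ h5
        have h4 : ∀ᶠ z : ℂ in cocompact ℂ, 0 < ‖z‖ :=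
          (tendsto_norm_cocompact_atTop (E := ℂ)).eventually_gt_atTop 0
        filter_upwards [h4] with z hz
        have e1 : ‖z - w‖ / ‖z‖ - 1 = (‖z - w‖ - ‖z‖) / ‖z‖ := by
          field_simp
        rw [e1, norm_div, Real.norm_of_nonneg hz.le]
        apply div_le_div_of_nonneg_right _ hz.le
        rw [Real.norm_eq_abs]
        have := abs_norm_sub_norm_le (z - w) z
        rwa [sub_sub_cancel_left, norm_neg] at this
      have h7 := (Real.continuousAt_log (one_ne_zero)).tendsto.comp h6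
      rw [Real.log_one] at h7
      exact h7
    have h8 := h2.add h3
    rw [add_zero] at h8
    refine h8.congr' ?_
    have h4 : ∀ᶠ z : ℂ in cocompact ℂ, ‖w‖ < ‖z‖ :=
      (tendsto_norm_cocompact_atTop (E := ℂ)).eventually_gt_atTop ‖w‖
    filter_upwards [h4] with z hz
    have hz0 : ‖z‖ ≠ 0 := by
      have := norm_nonneg w
      linarith
    have hzw : ‖z - w‖ ≠ 0 := by
      rw [norm_ne_zero_iff, sub_ne_zero]
      rintro rfl
      exact lt_irrefl _ hz
    show v (z - w) - Real.log ‖z - w‖ + Real.log (‖z - w‖ / ‖z‖) = v (z - w) - Real.log ‖z‖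
    rw [Real.log_div hzw hz0]
    ring

lemma sub_scale {F : Set ℂ} {v : ℂ → ℝ} {c : ℝ} (h : IsSub F v c) {lam : ℝ} (hl : 0 < lam) :
    IsSub ((fun z => (lam : ℂ) * z) '' F) (fun z => v ((lam : ℂ)⁻¹ * z)) (c - Real.log lam) := by
  have hlc : (lam : ℂ) ≠ 0 := by exact_mod_cast hl.ne'
  refine ⟨h.cont.comp (continuous_const.mul continuous_id), fun z => h.nonneg _, ?_, ?_, ?_⟩
  · rintro z ⟨y, hy, rfl⟩
    show v ((lam : ℂ)⁻¹ * ((lam : ℂ) * y)) = 0
    rw [inv_mul_cancel_left₀ hlc]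
    exact h.zero y hy
  · intro z hz
    obtain ⟨h1, h2⟩ := h.sub _ hz
    have ha : AnalyticAt ℂ (fun y : ℂ => (lam : ℂ)⁻¹ * y) z := analyticAt_const.mul analyticAt_id
    obtain ⟨h3, h4, -⟩ := s_Conf v v (fun y : ℂ => (lam : ℂ)⁻¹ * y) z ha h1 h1
    refine ⟨h3, ?_⟩
    rw [h4]
    positivity
  · have h1 : Tendsto (fun z : ℂ => (lam : ℂ)⁻¹ * z) (cocompact ℂ) (cocompact ℂ) :=
      (Homeomorph.mulLeft₀ (lam : ℂ)⁻¹ (inv_ne_zero hlc)).isClosedEmbedding.tendsto_cocompact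
    have h2 := (h.infty.comp h1).sub_const (Real.log lam)
    refine h2.congr' ?_
    have h4 : ∀ᶠ z : ℂ in cocompact ℂ, 0 < ‖z‖ :=
      (tendsto_norm_cocompact_atTop (E := ℂ)).eventually_gt_atTop 0
    filter_upwards [h4] with z hz
    show v ((lam : ℂ)⁻¹ * z) - Real.log ‖(lam : ℂ)⁻¹ * z‖ - Real.log lam =
      v ((lam : ℂ)⁻¹ * z) - Real.log ‖z‖
    rw [norm_mul, norm_inv, Complex.norm_real, Real.norm_of_nonneg hl.le,
      Real.log_mul (inv_ne_zero hl.ne') hz.ne', Real.log_inv]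
    ring

end KapBasic

open KapBasic in
theorem s_KapBasic : SegEst → GreenEx → SubLeGreen → KapBasic := by
  intro hSeg hGreen hSub
  have hbdd : ∀ F : Set ℂ, Fat F → BddAbove {c : ℝ | ∃ v : ℂ → ℝ, IsSub F v c} := by
    rintro F ⟨-, a, b, hab, hF⟩
    obtain ⟨φ, hφ, -⟩ := hSeg a b hab
    obtain ⟨u, hu, -⟩ := hGreen.2 _ φ _ hφ
    refine ⟨- Real.log (‖b - a‖ / 4), ?_⟩
    rintro c ⟨v, hv⟩
    exact (hSub _ _ _ u v _ c hu hv hF (fun _ _ => rfl)).2
  have hne : ∀ F : Set ℂ, Bornology.IsBounded F → {c : ℝ | ∃ v : ℂ → ℝ, IsSub F v c}.Nonempty :=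
    fun F hF => exists_sub hF
  have hkap : ∀ F : Set ℂ, - kap F = sSup {c : ℝ | ∃ v : ℂ → ℝ, IsSub F v c} := by
    intro F
    unfold kap
    rw [neg_neg]
  refine ⟨?_, ?_, ?_, ?_, ?_⟩
  · intro F v c hF hv
    rw [hkap]
    exact le_csSup (hbdd F hF) ⟨v, hv⟩
  · intro F hF ε hε
    rw [hkap]
    have h1 : sSup {c : ℝ | ∃ v : ℂ → ℝ, IsSub F v c} - ε <
        sSup {c : ℝ | ∃ v : ℂ → ℝ, IsSub F v c} := by linarith
    obtain ⟨c, ⟨v, hv⟩, hc⟩ := exists_lt_of_lt_csSup (hne F hF.1) h1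
    exact ⟨v, c, hv, hc⟩
  · intro F F' hF hF' hsub
    unfold kap
    apply neg_le_neg
    apply csSup_le_csSup (hbdd F hF) (hne F' hF')
    rintro c ⟨v, hv⟩
    exact ⟨v, sub_mono hv hsub⟩
  · intro F w _
    have h1 : {c : ℝ | ∃ v : ℂ → ℝ, IsSub ((fun z => w + z) '' F) v c} =
        {c : ℝ | ∃ v : ℂ → ℝ, IsSub F v c} := by
      ext c
      constructor
      · rintro ⟨v, hv⟩
        have h2 := sub_translate hv (-w)
        have h3 : (fun z => -w + z) '' ((fun z => w + z) '' F) = F := by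
          rw [Set.image_image]
          simp
        rw [h3] at h2
        exact ⟨_, h2⟩
      · rintro ⟨v, hv⟩
        exact ⟨_, sub_translate hv w⟩
    unfold kap
    rw [h1]
  · intro F lam hl hF
    have hlc : (lam : ℂ) ≠ 0 := by exact_mod_cast hl.ne'
    have h1 : ∀ c ∈ {c : ℝ | ∃ v : ℂ → ℝ, IsSub F v c}, c - Real.log lam ∈
        {c : ℝ | ∃ v : ℂ → ℝ, IsSub ((fun z => (lam : ℂ) * z) '' F) v c} := by
      rintro c ⟨v, hv⟩
      exact ⟨_, sub_scale hv hl⟩
    have h2 : ∀ c ∈ {c : ℝ | ∃ v : ℂ → ℝ, IsSub ((fun z => (lam : ℂ) * z) '' F) v c},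
        c + Real.log lam ∈ {c : ℝ | ∃ v : ℂ → ℝ, IsSub F v c} := by
      rintro c ⟨v, hv⟩
      have h3 := sub_scale hv (inv_pos.2 hl)
      have h4 : (fun z => ((lam⁻¹ : ℝ) : ℂ) * z) '' ((fun z => (lam : ℂ) * z) '' F) = F := by
        rw [Set.image_image]
        have : ∀ z : ℂ, ((lam⁻¹ : ℝ) : ℂ) * ((lam : ℂ) * z) = z := by
          intro z
          rw [Complex.ofReal_inv, inv_mul_cancel_left₀ hlc]
        simp only [this, Set.image_id']
      rw [h4, Real.log_inv, sub_neg_eq_add] at h3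
      exact ⟨_, h3⟩
    have hne1 := hne F hF.1
    have hne2 : {c : ℝ | ∃ v : ℂ → ℝ, IsSub ((fun z => (lam : ℂ) * z) '' F) v c}.Nonempty := by
      obtain ⟨c, hc⟩ := hne1
      exact ⟨_, h1 c hc⟩
    have hb1 := hbdd F hF
    have hb2 : BddAbove {c : ℝ | ∃ v : ℂ → ℝ, IsSub ((fun z => (lam : ℂ) * z) '' F) v c} := by
      obtain ⟨B, hB⟩ := hb1
      refine ⟨B - Real.log lam, ?_⟩
      intro c hc
      have := hB (h2 c hc)
      linarith
    have e1 : sSup {c : ℝ | ∃ v : ℂ → ℝ, IsSub ((fun z => (lam : ℂ) * z) '' F) v c} ≤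
        sSup {c : ℝ | ∃ v : ℂ → ℝ, IsSub F v c} - Real.log lam := by
      apply csSup_le hne2
      intro c hc
      have := le_csSup hb1 (h2 c hc)
      linarith
    have e2 : sSup {c : ℝ | ∃ v : ℂ → ℝ, IsSub F v c} ≤
        sSup {c : ℝ | ∃ v : ℂ → ℝ, IsSub ((fun z => (lam : ℂ) * z) '' F) v c} + Real.log lam := by
      apply csSup_le hne1
      intro c hc
      have := le_csSup hb2 (h1 c hc)
      linarith
    unfold kap
    linarith

end Pool.MP_31392c_an
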