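import Pool.Agent.Lib.MP_31392c_an.Full.SpecK

/-!
# Modulus of continuity of the capacity
-/

set_option autoImplicit false

open MeasureTheory Set Filter Topology Metric

namespace Pool.MP_31392c_an

namespace KapModAux

lemma lap_congr {f g : ℂ → ℝ} {z : ℂ} (h : f =ᶠ[𝓝 z] g) : lap f z = lap g z := by
  have h1 : dX f =ᶠ[𝓝 z] dX g := by
    filter_upwards [Filter.EventuallyEq.fderiv (𝕜 := ℝ) h] with y hy
    unfold dX
    rw [hy]
  have h2 : dY f =ᶠ[𝓝 z] dY g := by
    filter_upwards [Filter.EventuallyEq.fderiv (𝕜 := ℝ) h] with y hy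
    unfold dY
    rw [hy]
  have h3 : dX (dX f) z = dX (dX g) z := by
    show fderiv ℝ (dX f) z 1 = fderiv ℝ (dX g) z 1
    rw [h1.fderiv_eq]
  have h4 : dY (dY f) z = dY (dY g) z := by
    show fderiv ℝ (dY f) z Complex.I = fderiv ℝ (dY g) z Complex.I
    rw [h2.fderiv_eq]
  unfold lap
  rw [h3, h4]

lemma lap_sub_const (f : ℂ → ℝ) (c : ℝ) (z : ℂ) : lap (fun y => f y - c) z = lap f z := by
  have h1 : dX (fun y => f y - c) = dX f := by
    funext y
    unfold dX
    rw [fderiv_sub_const]
  have h2 : dY (fun y => f y - c) = dY f := by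
    funext y
    unfold dY
    rw [fderiv_sub_const]
  unfold lap
  rw [h1, h2]

/-- Cutting a function of the Perron class at a level. -/
lemma cut {F F' : Set ℂ} {v : ℂ → ℝ} {c ω : ℝ} (hv : IsSub F v c) (hω : 0 ≤ ω)
    (hF' : ∀ z ∈ F', v z ≤ ω) : IsSub F' (fun z => max (v z - ω) 0) (c - ω) := by
  refine ⟨(hv.cont.sub continuous_const).max continuous_const, fun z => le_max_right _ _, ?_, ?_,
    ?_⟩
  · intro z hz
    exact max_eq_right (by linarith [hF' z hz])
  · intro z hz
    have h1 : ω < v z := by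
      by_contra hcon
      have : max (v z - ω) 0 = 0 := max_eq_right (by linarith [not_lt.1 hcon])
      have hz' : 0 < max (v z - ω) 0 := hz
      rw [this] at hz'
      exact lt_irrefl _ hz'
    have h2 : (fun z => max (v z - ω) 0) =ᶠ[𝓝 z] fun z => v z - ω := by
      filter_upwards [hv.cont.continuousAt.eventually (lt_mem_nhds h1)] with y hy
      exact max_eq_left (by linarith)
    obtain ⟨h3, h4⟩ := hv.sub z (by linarith)
    refine ⟨(h3.sub contDiffAt_const).congr_of_eventuallyEq h2, ?_⟩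
    rw [lap_congr h2, lap_sub_const]
    exact h4
  · have h1 : Tendsto (fun z : ℂ => Real.log ‖z‖) (cocompact ℂ) atTop :=
      Real.tendsto_log_atTop.comp (tendsto_norm_cocompact_atTop (E := ℂ))
    have h2 : Tendsto v (cocompact ℂ) atTop := by
      have h3 := hv.infty.add_atTop h1
      refine h3.congr fun z => ?_
      ring
    have h3 : Tendsto (fun z => (v z - Real.log ‖z‖) - ω) (cocompact ℂ) (𝓝 (c - ω)) :=
      hv.infty.sub_const ω
    refine h3.congr' ?_
    filter_upwards [h2.eventually (eventually_ge_atTop ω)] with z hz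
    rw [max_eq_left (by linarith : (0 : ℝ) ≤ v z - ω)]
    ring

end KapModAux

open KapModAux in
theorem s_KapMod : KapBasic → SegBound → KapMod := by
  rintro ⟨hK1, hK2, -, -, -⟩ hS F F' ℓ d hF hF' hFF hℓ hd hz
  set ω : ℝ := 2 * Real.sqrt (d / ℓ) with hω
  have hω0 : 0 ≤ ω := by positivity
  have hfat : Fat F' := by
    obtain ⟨-, a, b, hab, hseg⟩ := hF
    exact ⟨hF', a, b, hab, hseg.trans hFF⟩
  apply le_of_forall_pos_le_add
  intro ε hε
  obtain ⟨v, c, hv, hc⟩ := hK2 F hF ε hε
  have hle : ∀ z ∈ F', v z ≤ ω := by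
    intro z hzF
    rcases hz z hzF with h | ⟨a, b, w, h1, h2, h3, h4⟩
    · rw [hv.zero z h]; exact hω0
    · have hba : 0 < ‖b - a‖ := hℓ.trans_le h2
      have hab : a ≠ b := by
        rintro rfl
        rw [sub_self, norm_zero] at hba
        exact lt_irrefl _ hba
      have h5 := hS F v c a b hab h1 hv z w h3
      have h6 : ‖z - w‖ / ‖b - a‖ ≤ d / ℓ := div_le_div₀ hd h4 hℓ h2
      have h7 := Real.sqrt_le_sqrt h6
      rw [hω]
      linarith
  have h1 := hK1 F' _ _ hfat (cut hv hω0 hle)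
  linarith

end Pool.MP_31392c_an
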