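import Mathlib
import Pool.Agent.Lib.MP_31392c_an.Full.SpecK

/-!
# MP_31392c_an full proof: the capacity of a set with a star map
-/

set_option autoImplicit false

open MeasureTheory Set Filter Topology Metric

namespace Pool.MP_31392c_an

theorem s_KapStar : GreenEx → GreenSub → SubLeGreen → KapBasic → KapStar := by
  intro hG hS hL hK F φ C hF hφ
  obtain ⟨u, hu, -⟩ := hG.2 F φ C hφ
  have h1 : IsSub F u (-Real.log C) := hS (fun _ => 0) F u (Real.log C) (fun _ => le_rfl) hu
  have h2 : -Real.log C ≤ -kap F := hK.1 F u (-Real.log C) hF h1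
  have h3 : -kap F ≤ -Real.log C := by
    refine le_of_forall_pos_lt_add fun ε hε => ?_
    obtain ⟨v, c, hv, hc⟩ := hK.2.1 F hF ε hε
    have h4 := (hL (fun _ => 0) F F u v (Real.log C) c hu hv subset_rfl (fun _ _ => rfl)).2
    linarith
  linarith

end Pool.MP_31392c_an
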