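import Pool.Agent.Lib.MP_31392c_an.Full.SpecC

/-!
# The key inequality in the unit disc
-/

set_option autoImplicit false

open MeasureTheory Set Filter Topology Metric

namespace Pool.MP_31392c_an

namespace KeyDisc

theorem dX_neg (f : ℂ → ℝ) : dX (fun z => -f z) = fun z => -dX f z := by
  funext z
  unfold dX
  rw [fderiv_fun_neg]
  rfl

theorem dY_neg (f : ℂ → ℝ) : dY (fun z => -f z) = fun z => -dY f z := by
  funext z
  unfold dY
  rw [fderiv_fun_neg]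
  rfl

theorem lap_neg (f : ℂ → ℝ) (z : ℂ) : lap (fun z => -f z) z = -lap f z := by
  unfold lap
  rw [dX_neg, dY_neg, dX_neg, dY_neg]
  ring

theorem dX_add (f : ℂ → ℝ) (c : ℝ) : dX (fun z => f z + c) = dX f := by
  funext z
  unfold dX
  rw [fderiv_add_const]

theorem dY_add (f : ℂ → ℝ) (c : ℝ) : dY (fun z => f z + c) = dY f := by
  funext z
  unfold dY
  rw [fderiv_add_const]

theorem lap_add (f : ℂ → ℝ) (c : ℝ) (z : ℂ) : lap (fun z => f z + c) z = lap f z := by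
  unfold lap
  rw [dX_add, dY_add]

theorem cont_dX {f : ℂ → ℝ} {z : ℂ} (h : ContDiffAt ℝ 2 f z) : ContinuousAt (dX f) z := by
  have h1 : ContDiffAt ℝ 1 (fderiv ℝ f) z := h.fderiv_right (by norm_num)
  exact h1.continuousAt.clm_apply continuousAt_const

theorem cont_dY {f : ℂ → ℝ} {z : ℂ} (h : ContDiffAt ℝ 2 f z) : ContinuousAt (dY f) z := by
  have h1 : ContDiffAt ℝ 1 (fderiv ℝ f) z := h.fderiv_right (by norm_num)
  exact h1.continuousAt.clm_apply continuousAt_const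

/-- Control near the unit circle. -/
theorem near_circle (f : ℂ → ℝ) (hf : ContinuousOn f (closedBall 0 1)) (c : ℝ)
    (hc : ∀ z, ‖z‖ = 1 → f z ≤ c) (ε : ℝ) (hε : 0 < ε) :
    ∃ δ > 0, ∀ z : ℂ, 1 - δ < ‖z‖ → ‖z‖ ≤ 1 → f z < c + ε := by
  have h1 := (isCompact_closedBall (0 : ℂ) 1).uniformContinuousOn_of_continuous hf
  rw [Metric.uniformContinuousOn_iff] at h1
  obtain ⟨δ, hδ, h2⟩ := h1 ε hε
  refine ⟨min δ 1, lt_min hδ one_pos, fun z hz hz1 => ?_⟩
  have hz0 : 0 < ‖z‖ := by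
    have := min_le_right δ (1 : ℝ)
    linarith
  have hzn : z ≠ 0 := norm_pos_iff.1 hz0
  set y : ℂ := ((‖z‖⁻¹ : ℝ) : ℂ) * z with hy
  have hy1 : ‖y‖ = 1 := by
    rw [hy, norm_mul, Complex.norm_real, norm_inv, norm_norm, inv_mul_cancel₀ hz0.ne']
  have hd : dist z y < δ := by
    have h3 : z - y = ((1 - ‖z‖⁻¹ : ℝ) : ℂ) * z := by
      rw [hy]; push_cast; ring
    rw [dist_eq_norm, h3, norm_mul, Complex.norm_real, Real.norm_eq_abs, ← abs_of_pos hz0,
      ← abs_mul, abs_of_pos hz0, sub_mul, one_mul, inv_mul_cancel₀ hz0.ne', abs_sub_comm,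
      abs_of_nonneg (by linarith)]
    have := min_le_left δ (1 : ℝ)
    linarith
  have h4 := h2 z (by simpa using hz1) y (by simp [hy1]) hd
  rw [Real.dist_eq] at h4
  have h5 := abs_lt.1 h4
  have h6 := hc y hy1
  linarith [h5.2]

/-- The maximum principle in a form for the open disc. -/
theorem mdr (hMD : MaxDrift) (g β₁ β₂ : ℂ → ℝ)
    (hg : ∀ z ∈ ball (0 : ℂ) 1, ContDiffAt ℝ 2 g z) (h1 : ContinuousOn β₁ (ball 0 1))
    (h2 : ContinuousOn β₂ (ball 0 1))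
    (hl : ∀ z ∈ ball (0 : ℂ) 1, 0 ≤ lap g z + β₁ z * dX g z + β₂ z * dY g z) (ρ c : ℝ)
    (hρ0 : 0 < ρ) (hρ1 : ρ < 1) (hs : ∀ z ∈ sphere (0 : ℂ) ρ, g z ≤ c) :
    ∀ z ∈ closedBall (0 : ℂ) ρ, g z ≤ c := by
  have hsub : closedBall (0 : ℂ) ρ ⊆ ball 0 1 := closedBall_subset_ball hρ1
  obtain ⟨C₁, hC₁⟩ := (isCompact_closedBall (0 : ℂ) ρ).exists_bound_of_continuousOn (h1.mono hsub)
  obtain ⟨C₂, hC₂⟩ := (isCompact_closedBall (0 : ℂ) ρ).exists_bound_of_continuousOn (h2.mono hsub)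
  have hbs : ball (0 : ℂ) ρ ⊆ closedBall 0 ρ := ball_subset_closedBall
  refine hMD ρ (max C₁ C₂) c g β₁ β₂ hρ0 ?_ ?_ ?_ ?_ hs
  · intro z hz
    exact (hg z (hsub hz)).continuousAt.continuousWithinAt
  · intro z hz
    exact hg z (hsub (hbs hz))
  · intro z hz
    exact ⟨(hC₁ z (hbs hz)).trans (le_max_left _ _), (hC₂ z (hbs hz)).trans (le_max_right _ _)⟩
  · intro z hz
    exact hl z (hsub (hbs hz))

/-- On the circle `a` or `b` vanishes. -/
theorem circle_zero {V a b : ℂ → ℝ} {r₀ α₁ β₁ α₂ β₂ : ℝ} (hk : KeyData V a b r₀ α₁ β₁ α₂ β₂)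
    (z : ℂ) (hz : ‖z‖ = 1) : a z * b z = 0 := by
  obtain ⟨m, hm, -⟩ := existsUnique_add_zsmul_mem_Ico Real.two_pi_pos z.arg α₁
  have hm' : z.arg + m • (2 * Real.pi) ∈ Ico α₁ (α₁ + 2 * Real.pi) := hm
  set t := z.arg + m • (2 * Real.pi) with ht
  have hexp : Complex.exp ((t : ℂ) * Complex.I) = z := by
    have h1 : ((t : ℂ) * Complex.I) = (z.arg : ℂ) * Complex.I + m * (2 * Real.pi * Complex.I) := by
      rw [ht]
      push_cast
      rw [zsmul_eq_mul]
      push_cast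
      ring
    rw [h1, Complex.exp_periodic.int_mul]
    have h2 := Complex.norm_mul_exp_arg_mul_I z
    rw [hz] at h2
    simpa using h2
  by_cases h : β₁ ≤ t
  · have h1 := hk.zeroA t ⟨h, hm'.2.le⟩
    rw [hexp] at h1
    rw [h1, zero_mul]
  · push Not at h
    have h1 := hk.zeroB (t + 2 * Real.pi) ⟨by linarith [hk.h4, hm'.1], by linarith [hk.h2]⟩
    have h2 : Complex.exp (((t + 2 * Real.pi : ℝ) : ℂ) * Complex.I) = z := by
      push_cast
      rw [add_mul, Complex.exp_add, Complex.exp_two_pi_mul_I, mul_one, hexp]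
    rw [h2] at h1
    rw [h1, mul_zero]

theorem zero_case (V a b : ℂ → ℝ) (h : ∀ z ∈ ball (0 : ℂ) 1, a z = 0 ∨ b z = 0)
    (h' : (∀ z ∈ ball (0 : ℂ) 1, a z = 0) ∨ (∀ z ∈ ball (0 : ℂ) 1, b z = 0)) :
    Real.pi * (a 0 * b 0) ≤ - ∫ z in ball (0 : ℂ) 1, (gp a b z + V z * a z * b z) := by
  have h0 : a 0 * b 0 = 0 := by
    rcases h 0 (mem_ball_self one_pos) with h1 | h1 <;> simp [h1]
  have hder : ∀ f : ℂ → ℝ, (∀ z ∈ ball (0 : ℂ) 1, f z = 0) → ∀ z ∈ ball (0 : ℂ) 1,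
      dX f z = 0 ∧ dY f z = 0 := by
    intro f hf z hz
    have h1 : f =ᶠ[𝓝 z] fun _ => (0 : ℝ) := by
      filter_upwards [isOpen_ball.mem_nhds hz] with w hw
      exact hf w hw
    unfold dX dY
    rw [h1.fderiv_eq]
    simp
  have h1 : ∫ z in ball (0 : ℂ) 1, (gp a b z + V z * a z * b z) = 0 := by
    rw [setIntegral_congr_fun (g := fun _ => (0 : ℝ)) measurableSet_ball]
    · simp
    · intro z hz
      change dX a z * dX b z + dY a z * dY b z + V z * a z * b z = 0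
      rcases h' with h' | h'
      · rw [(hder a h' z hz).1, (hder a h' z hz).2, h' z hz]
        ring
      · rw [(hder b h' z hz).1, (hder b h' z hz).2, h' z hz]
        ring
  rw [h0, h1]
  simp

/-- The bounds for `M` in the disc. -/
theorem M_bound (hSt : StreamPDE) (hMD : MaxDrift) {V a b M : ℂ → ℝ} {Φ : ℝ}
    (ha : ∀ z ∈ ball (0 : ℂ) 1, ContDiffAt ℝ 2 a z ∧ lap a z = V z * a z)
    (hb : ∀ z ∈ ball (0 : ℂ) 1, ContDiffAt ℝ 2 b z ∧ lap b z = V z * b z)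
    (hpa : ∀ z ∈ ball (0 : ℂ) 1, 0 < a z) (hpb : ∀ z ∈ ball (0 : ℂ) 1, 0 < b z)
    (hM0 : ContinuousOn M (closedBall 0 1))
    (hM1 : ∀ z ∈ ball (0 : ℂ) 1, ContDiffAt ℝ 2 M z ∧ dX M z = -(a z * dY b z - b z * dY a z) ∧
      dY M z = a z * dX b z - b z * dX a z)
    (hM2 : ∀ z, ‖z‖ = 1 → 0 ≤ M z ∧ M z ≤ Φ) :
    ∀ z ∈ ball (0 : ℂ) 1, 0 ≤ M z ∧ M z ≤ Φ := by
  set Q : ℂ → ℝ := fun w => a w * b w with hQ
  have hQc : ∀ z ∈ ball (0 : ℂ) 1, ContDiffAt ℝ 2 Q z := fun z hz => (ha z hz).1.mul (hb z hz).1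
  have hQp : ∀ z ∈ ball (0 : ℂ) 1, 0 < Q z := fun z hz => mul_pos (hpa z hz) (hpb z hz)
  have hst : ∀ z ∈ ball (0 : ℂ) 1, Q z * lap M z = gp Q M z := by
    intro z hz
    exact (hSt a b M z (V z) (ha z hz).1 (hb z hz).1 (ha z hz).2 (hb z hz).2 (by
      filter_upwards [isOpen_ball.mem_nhds hz] with w hw
      exact ⟨(hM1 w hw).2.1, (hM1 w hw).2.2⟩)).1
  have hc1 : ContinuousOn (fun z => -(dX Q z / Q z)) (ball 0 1) := fun z hz =>
    (((cont_dX (hQc z hz)).div (hQc z hz).continuousAt (hQp z hz).ne').neg).continuousWithinAt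
  have hc2 : ContinuousOn (fun z => -(dY Q z / Q z)) (ball 0 1) := fun z hz =>
    (((cont_dY (hQc z hz)).div (hQc z hz).continuousAt (hQp z hz).ne').neg).continuousWithinAt
  have hlap : ∀ z ∈ ball (0 : ℂ) 1, lap M z = dX Q z / Q z * dX M z + dY Q z / Q z * dY M z := by
    intro z hz
    have h1 := hst z hz
    have h2 := (hQp z hz).ne'
    rw [gp] at h1
    field_simp
    linarith
  have upper : ∀ (g : ℂ → ℝ) (c : ℝ), ContinuousOn g (closedBall 0 1) →
      (∀ z ∈ ball (0 : ℂ) 1, ContDiffAt ℝ 2 g z) →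
      (∀ z ∈ ball (0 : ℂ) 1, lap g z = dX Q z / Q z * dX g z + dY Q z / Q z * dY g z) →
      (∀ z, ‖z‖ = 1 → g z ≤ c) → ∀ z ∈ ball (0 : ℂ) 1, g z ≤ c := by
    intro g c hg hg2 hgl hgc z hz
    refine le_of_forall_pos_le_add fun ε hε => ?_
    obtain ⟨δ, hδ, h1⟩ := near_circle g hg c hgc ε hε
    rw [mem_ball_zero_iff] at hz
    obtain ⟨ρ, hρ1, hρ2⟩ := exists_between (max_lt hz (show 1 - min δ (1 / 2) < 1 by
      have : 0 < min δ (1 / 2) := lt_min hδ (by norm_num)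
      linarith))
    have hρz : ‖z‖ ≤ ρ := (le_max_left _ _).trans hρ1.le
    have hρδ : 1 - min δ (1 / 2) < ρ := (le_max_right _ _).trans_lt hρ1
    have hm1 := min_le_left δ (1 / 2)
    have hm2 := min_le_right δ (1 / 2)
    refine mdr hMD g _ _ hg2 hc1 hc2 ?_ ρ (c + ε) (by linarith) hρ2 ?_ z
      (by simpa using hρz)
    · intro w hw
      rw [hgl w hw]
      apply le_of_eq
      ring
    · intro w hw
      rw [mem_sphere_zero_iff_norm] at hw
      exact (h1 w (by rw [hw]; linarith) (by rw [hw]; exact hρ2.le)).le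
  intro z hz
  constructor
  · have := upper (fun z => -M z) 0 hM0.neg (fun w hw => (hM1 w hw).1.neg) (fun w hw => by
      rw [lap_neg, dX_neg, dY_neg, hlap w hw]
      ring) (fun w hw => by
      have := (hM2 w hw).1
      linarith) z hz
    linarith
  · exact upper M Φ hM0 (fun w hw => (hM1 w hw).1) hlap (fun w hw => (hM2 w hw).2) z hz

theorem contDiff_cyP : ContDiff ℝ 2 cyP := contDiff_const.sub Real.contDiff_cos

theorem contDiff_cyN : ContDiff ℝ 2 cyN := contDiff_id.sub Real.contDiff_sin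

/-- The estimate for fixed `δ` and `η`. -/
theorem main (hCP : CycPos) (hPDE : CycPDE) (hSt : StreamPDE) (hMD : MaxDrift)
    {V a b M : ℂ → ℝ} {Φ : ℝ} {Θ : ℝ → ℝ} (hV : ∀ z, 0 ≤ V z)
    (ha : ∀ z ∈ ball (0 : ℂ) 1, ContDiffAt ℝ 2 a z ∧ lap a z = V z * a z)
    (hb : ∀ z ∈ ball (0 : ℂ) 1, ContDiffAt ℝ 2 b z ∧ lap b z = V z * b z)
    (hpa : ∀ z ∈ ball (0 : ℂ) 1, 0 < a z) (hpb : ∀ z ∈ ball (0 : ℂ) 1, 0 < b z)
    (hM1 : ∀ z ∈ ball (0 : ℂ) 1, ContDiffAt ℝ 2 M z ∧ dX M z = -(a z * dY b z - b z * dY a z) ∧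
      dY M z = a z * dX b z - b z * dX a z)
    (hM3 : ∀ z ∈ ball (0 : ℂ) 1, 0 ≤ M z ∧ M z ≤ Φ)
    (hQcl : ContinuousOn (fun w => a w * b w) (closedBall 0 1))
    (hQ0 : ∀ z, ‖z‖ = 1 → a z * b z = 0)
    (hΘ1 : ∀ x, 0 < x → 0 < Θ x ∧ Θ x < 2 * Real.pi ∧ cyN (Θ x) = x * cyP (Θ x))
    (hΘ2 : ∀ x, 0 < x → ContDiffAt ℝ 2 Θ x)
    (hΘ3 : ∀ η > 0, ∃ X > 0, ∀ x, X < x → 2 * Real.pi - η < Θ x) (δ : ℝ) (hδ : 0 < δ)
    (η : ℝ) (hη0 : 0 < η) (hη : η < Real.pi) :
    a 0 * b 0 ≤ 2 * ((Φ + δ) / (2 * Real.pi - η)) := by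
  have hpi := Real.pi_pos
  set Q : ℂ → ℝ := fun w => a w * b w with hQ
  have hQc : ∀ z ∈ ball (0 : ℂ) 1, ContDiffAt ℝ 2 Q z := fun z hz => (ha z hz).1.mul (hb z hz).1
  have hQp : ∀ z ∈ ball (0 : ℂ) 1, 0 < Q z := fun z hz => mul_pos (hpa z hz) (hpb z hz)
  set T : ℂ → ℝ := fun z => M z + δ with hT
  have hTc : ∀ z ∈ ball (0 : ℂ) 1, ContDiffAt ℝ 2 T z := fun z hz =>
    (hM1 z hz).1.add contDiffAt_const
  have hTδ : ∀ z ∈ ball (0 : ℂ) 1, δ ≤ T z := fun z hz => by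
    have := (hM3 z hz).1
    simp only [hT]
    linarith
  have hTp : ∀ z ∈ ball (0 : ℂ) 1, 0 < T z / Q z := fun z hz =>
    div_pos (hδ.trans_le (hTδ z hz)) (hQp z hz)
  set th : ℂ → ℝ := fun z => Θ (T z / Q z) with hth
  have hthI : ∀ z ∈ ball (0 : ℂ) 1, th z ∈ Ioo (0 : ℝ) (2 * Real.pi) := fun z hz =>
    ⟨(hΘ1 _ (hTp z hz)).1, (hΘ1 _ (hTp z hz)).2.1⟩
  have hthc : ∀ z ∈ ball (0 : ℂ) 1, ContDiffAt ℝ 2 th z := fun z hz =>
    (hΘ2 _ (hTp z hz)).comp z ((hTc z hz).div (hQc z hz) (hQp z hz).ne')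
  have hPp : ∀ z ∈ ball (0 : ℂ) 1, 0 < cyP (th z) := fun z hz => (hCP _ (hthI z hz)).1
  have hNp : ∀ z ∈ ball (0 : ℂ) 1, 0 < cyN (th z) := fun z hz => (hCP _ (hthI z hz)).2.1
  have hDp : ∀ z ∈ ball (0 : ℂ) 1, 0 < cyP (th z) ^ 2 - cyN (th z) * Real.sin (th z) :=
    fun z hz => (hCP _ (hthI z hz)).2.2
  have hPc : ∀ z ∈ ball (0 : ℂ) 1, ContDiffAt ℝ 2 (fun z => cyP (th z)) z := fun z hz =>
    contDiff_cyP.contDiffAt.comp z (hthc z hz)
  have hNc : ∀ z ∈ ball (0 : ℂ) 1, ContDiffAt ℝ 2 (fun z => cyN (th z)) z := fun z hz =>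
    contDiff_cyN.contDiffAt.comp z (hthc z hz)
  set l : ℂ → ℝ := fun z => Real.log (Q z / cyP (th z)) with hl
  have hlc : ∀ z ∈ ball (0 : ℂ) 1, ContDiffAt ℝ 2 l z := fun z hz =>
    ((hQc z hz).div (hPc z hz) (hPp z hz).ne').log (div_pos (hQp z hz) (hPp z hz)).ne'
  have hexp : ∀ z ∈ ball (0 : ℂ) 1, Real.exp (l z) = Q z / cyP (th z) := fun z hz =>
    Real.exp_log (div_pos (hQp z hz) (hPp z hz))
  have hQe : ∀ z ∈ ball (0 : ℂ) 1, Q z = Real.exp (l z) * cyP (th z) := fun z hz => by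
    rw [hexp z hz, div_mul_cancel₀ _ (hPp z hz).ne']
  have hTe : ∀ z ∈ ball (0 : ℂ) 1, T z = Real.exp (l z) * cyN (th z) := fun z hz => by
    have h1 : cyN (th z) = T z / Q z * cyP (th z) := (hΘ1 _ (hTp z hz)).2.2
    have h2 := (hPp z hz).ne'
    have h3 := (hQp z hz).ne'
    rw [hexp z hz, h1]
    field_simp
  -- the differential inequality
  have hpde : ∀ z ∈ ball (0 : ℂ) 1,
      (cyP (th z) ^ 2 - cyN (th z) * Real.sin (th z)) * lap l z + 2 * cyN (th z) * gp l th z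
      + (cyP (th z) ^ 2 + cyN (th z) ^ 2) / 2 * gp l l z = 2 * V z * cyP (th z) ^ 2 := by
    intro z hz
    have hnb := isOpen_ball.mem_nhds hz
    have hst := hSt a b M z (V z) (ha z hz).1 (hb z hz).1 (ha z hz).2 (hb z hz).2 (by
      filter_upwards [hnb] with w hw
      exact ⟨(hM1 w hw).2.1, (hM1 w hw).2.2⟩)
    have e1 : dX T = dX M := dX_add M δ
    have e2 : dY T = dY M := dY_add M δ
    have e3 : lap T z = lap M z := lap_add M δ z
    have e4 : gp Q T z = gp Q M z := by unfold gp; rw [e1, e2]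
    have e5 : gp T T z = gp M M z := by unfold gp; rw [e1, e2]
    refine hPDE l th T Q z (V z) (hlc z hz) (hthc z hz) (hthI z hz) ?_ ?_ ?_ ?_
    · filter_upwards [hnb] with w hw
      exact hTe w hw
    · filter_upwards [hnb] with w hw
      exact hQe w hw
    · rw [e3, e4]
      exact hst.1
    · rw [e5]
      exact hst.2
  set D : ℂ → ℝ := fun z => cyP (th z) ^ 2 - cyN (th z) * Real.sin (th z) with hD
  have hDc : ∀ z ∈ ball (0 : ℂ) 1, ContinuousAt D z := fun z hz =>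
    ((hPc z hz).continuousAt.pow 2).sub ((hNc z hz).continuousAt.mul
      (Real.continuous_sin.continuousAt.comp (hthc z hz).continuousAt))
  have hc1 : ContinuousOn (fun z => (2 * cyN (th z) * dX th z +
      (cyP (th z) ^ 2 + cyN (th z) ^ 2) / 2 * dX l z) / D z) (ball 0 1) := fun z hz =>
    (ContinuousAt.div (((continuousAt_const.mul (hNc z hz).continuousAt).mul
      (cont_dX (hthc z hz))).add (((((hPc z hz).continuousAt.pow 2).add
      ((hNc z hz).continuousAt.pow 2)).div_const 2).mul (cont_dX (hlc z hz)))) (hDc z hz)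
      (hDp z hz).ne').continuousWithinAt
  have hc2 : ContinuousOn (fun z => (2 * cyN (th z) * dY th z +
      (cyP (th z) ^ 2 + cyN (th z) ^ 2) / 2 * dY l z) / D z) (ball 0 1) := fun z hz =>
    (ContinuousAt.div (((continuousAt_const.mul (hNc z hz).continuousAt).mul
      (cont_dY (hthc z hz))).add (((((hPc z hz).continuousAt.pow 2).add
      ((hNc z hz).continuousAt.pow 2)).div_const 2).mul (cont_dY (hlc z hz)))) (hDc z hz)
      (hDp z hz).ne').continuousWithinAt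
  have hineq : ∀ z ∈ ball (0 : ℂ) 1, 0 ≤ lap l z +
      (2 * cyN (th z) * dX th z + (cyP (th z) ^ 2 + cyN (th z) ^ 2) / 2 * dX l z) / D z * dX l z +
      (2 * cyN (th z) * dY th z + (cyP (th z) ^ 2 + cyN (th z) ^ 2) / 2 * dY l z) / D z *
        dY l z := by
    intro z hz
    have h1 := hpde z hz
    have h2 : 0 < D z := hDp z hz
    have h3 : D z * (lap l z +
      (2 * cyN (th z) * dX th z + (cyP (th z) ^ 2 + cyN (th z) ^ 2) / 2 * dX l z) / D z * dX l z +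
      (2 * cyN (th z) * dY th z + (cyP (th z) ^ 2 + cyN (th z) ^ 2) / 2 * dY l z) / D z *
        dY l z) = 2 * V z * cyP (th z) ^ 2 := by
      rw [← h1]
      change _ = D z * lap l z + 2 * cyN (th z) * (dX l z * dX th z + dY l z * dY th z) +
        (cyP (th z) ^ 2 + cyN (th z) ^ 2) / 2 * (dX l z * dX l z + dY l z * dY l z)
      field_simp
      ring
    have h4 : 0 ≤ 2 * V z * cyP (th z) ^ 2 := by
      have := hV z
      positivity
    rw [← h3] at h4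
    exact nonneg_of_mul_nonneg_right h4 h2
  -- near the boundary
  obtain ⟨X, hX0, hX⟩ := hΘ3 η hη0
  obtain ⟨d, hd, hnear⟩ := near_circle Q hQcl 0 (fun z hz => (hQ0 z hz).le) (δ / X)
    (div_pos hδ hX0)
  have hmin : 0 < min d (1 / 2) := lt_min hd (by norm_num)
  have hm1 := min_le_left d (1 / 2)
  have hm2 := min_le_right d (1 / 2)
  obtain ⟨ρ, hρ1, hρ2⟩ := exists_between (show 1 - min d (1 / 2) < 1 by linarith)
  have hη2 : 0 < 2 * Real.pi - η := by linarith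
  have hΦ0 : 0 ≤ Φ := by
    have := hM3 0 (mem_ball_self one_pos)
    linarith [this.1, this.2]
  have hfin := mdr hMD l _ _ hlc hc1 hc2 hineq ρ (Real.log ((Φ + δ) / (2 * Real.pi - η)))
    (by linarith) hρ2 (by
      intro z hz
      rw [mem_sphere_zero_iff_norm] at hz
      have hzb : z ∈ ball (0 : ℂ) 1 := by
        rw [mem_ball_zero_iff, hz]
        exact hρ2
      have h1 := hnear z (by rw [hz]; linarith) (by rw [hz]; exact hρ2.le)
      rw [zero_add, lt_div_iff₀ hX0] at h1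
      have h2 : X < T z / Q z := by
        rw [lt_div_iff₀ (hQp z hzb)]
        have := hTδ z hzb
        linarith
      have h3 : 2 * Real.pi - η < th z := hX _ h2
      have h4 := (hthI z hzb).2
      have h5 : Real.sin (th z) < 0 := by
        rw [← Real.sin_sub_two_pi]
        exact Real.sin_neg_of_neg_of_neg_pi_lt (by linarith) (by linarith)
      have h6 : 2 * Real.pi - η < cyN (th z) := by
        unfold cyN
        linarith
      rw [Real.le_log_iff_exp_le (by positivity), le_div_iff₀ hη2]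
      have h7 := hTe z hzb
      have h8 : T z ≤ Φ + δ := by
        have := (hM3 z hzb).2
        simp only [hT]
        linarith
      have h9 : Real.exp (l z) * (2 * Real.pi - η) ≤ Real.exp (l z) * cyN (th z) :=
        mul_le_mul_of_nonneg_left h6.le (Real.exp_pos _).le
      linarith) 0 (mem_closedBall_self (by linarith))
  rw [Real.le_log_iff_exp_le (by positivity)] at hfin
  have h0 : (0 : ℂ) ∈ ball (0 : ℂ) 1 := mem_ball_self one_pos
  have h1 := hQe 0 h0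
  have h2 : cyP (th 0) ≤ 2 := by
    unfold cyP
    have := Real.neg_one_le_cos (th 0)
    linarith
  calc a 0 * b 0 = Real.exp (l 0) * cyP (th 0) := h1
    _ ≤ Real.exp (l 0) * 2 := mul_le_mul_of_nonneg_left h2 (Real.exp_pos _).le
    _ = 2 * Real.exp (l 0) := mul_comm _ _
    _ ≤ 2 * ((Φ + δ) / (2 * Real.pi - η)) := by linarith

end KeyDisc

open KeyDisc in
theorem s_KeyDisc : MBdry → CrossLim → CycPos → Cyc → CycPDE → StreamPDE → MaxDrift → StrongMP →
    KeyDisc := by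
  intro hMB hCL hCP hCy hPDE hSt hMD hSM V a b r₀ α₁ β₁ α₂ β₂ hk hia hib
  have hVc : Continuous V := hk.smooth.continuous
  obtain ⟨Λ, hΛ⟩ := (isCompact_closedBall (0 : ℂ) 1).exists_bound_of_continuousOn hVc.continuousOn
  have hVb : ∀ z ∈ ball (0 : ℂ) 1, 0 ≤ V z ∧ V z ≤ Λ := fun z hz =>
    ⟨hk.nonneg z, (le_abs_self _).trans (hΛ z (ball_subset_closedBall hz))⟩
  have hpre : IsPreconnected (ball (0 : ℂ) 1) := (convex_ball (0 : ℂ) 1).isPreconnected
  rcases hSM (ball 0 1) V a Λ isOpen_ball hpre hVb hk.harmA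
    (fun z hz => hk.posA z (ball_subset_closedBall hz)) with ha0 | hap
  · exact zero_case V a b (fun z hz => Or.inl (ha0 z hz)) (Or.inl ha0)
  rcases hSM (ball 0 1) V b Λ isOpen_ball hpre hVb hk.harmB
    (fun z hz => hk.posB z (ball_subset_closedBall hz)) with hb0 | hbp
  · exact zero_case V a b (fun z hz => Or.inr (hb0 z hz)) (Or.inr hb0)
  obtain ⟨M, Φ, hM0, hM1, hM2, hlim⟩ := hMB V a b r₀ α₁ β₁ α₂ β₂ hk
  rw [hCL V a b (-Φ) hVc hk.contA hk.contB hk.harmA hk.harmB hia hib hlim, neg_neg]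
  have hM3 := M_bound hSt hMD hk.harmA hk.harmB hap hbp hM0 hM1 hM2
  obtain ⟨Θ, hΘ1, hΘ2, hΘ3⟩ := hCy
  have hmain := main hCP hPDE hSt hMD hk.nonneg hk.harmA hk.harmB hap hbp hM1 hM3
    (hk.contA.mul hk.contB) (fun z hz => circle_zero hk z hz) hΘ1 hΘ2 hΘ3
  have hpi := Real.pi_pos
  have hΦ0 : 0 ≤ Φ := by
    have := hM3 0 (mem_ball_self one_pos)
    linarith [this.1, this.2]
  -- limit
  have h1 : ∀ δ > 0, (a 0 * b 0) * Real.pi ≤ Φ + δ := by
    intro δ hδ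
    refine le_of_forall_pos_le_add fun ε hε => ?_
    have hab : 0 ≤ a 0 * b 0 := mul_nonneg (hap 0 (mem_ball_self one_pos)).le
      (hbp 0 (mem_ball_self one_pos)).le
    set η := min (Real.pi / 2) (2 * ε / (a 0 * b 0 + 1)) with hη
    have hη0 : 0 < η := lt_min (by positivity) (by positivity)
    have hη1 : η < Real.pi := (min_le_left _ _).trans_lt (by linarith)
    have h2 := hmain δ hδ η hη0 hη1
    have h3 : 0 < 2 * Real.pi - η := by linarith
    rw [← mul_div_assoc, le_div_iff₀ h3] at h2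
    have h4 : η * (a 0 * b 0 + 1) ≤ 2 * ε := by
      have := min_le_right (Real.pi / 2) (2 * ε / (a 0 * b 0 + 1))
      rwa [← hη, le_div_iff₀ (by linarith)] at this
    nlinarith
  have h2 : (a 0 * b 0) * Real.pi ≤ Φ := le_of_forall_pos_le_add fun δ hδ => h1 δ hδ
  linarith

end Pool.MP_31392c_an
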