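import Pool.Agent.Lib.MP_31392c_an.Full.SpecG

/-!
# MP_31392c_an full proof: the key inequality in the plane
-/

set_option autoImplicit false

open MeasureTheory Set Filter Topology Metric

namespace Pool.MP_31392c_an

namespace KeyPlane

lemma dX_congr {f g : ℂ → ℝ} {z : ℂ} (h : f =ᶠ[𝓝 z] g) : dX f z = dX g z := by
  unfold dX
  rw [h.fderiv_eq]

lemma dY_congr {f g : ℂ → ℝ} {z : ℂ} (h : f =ᶠ[𝓝 z] g) : dY f z = dY g z := by
  unfold dY
  rw [h.fderiv_eq]

lemma gp_congr {f g f' g' : ℂ → ℝ} {z : ℂ} (h : f =ᶠ[𝓝 z] g) (h' : f' =ᶠ[𝓝 z] g') :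
    gp f f' z = gp g g' z := by
  unfold gp
  rw [dX_congr h, dY_congr h, dX_congr h', dY_congr h']

lemma lap_congr {f g : ℂ → ℝ} {z : ℂ} (h : f =ᶠ[𝓝 z] g) : lap f z = lap g z := by
  unfold lap
  have h1 : dX f =ᶠ[𝓝 z] dX g := h.eventuallyEq_nhds.mono fun w hw => dX_congr hw
  have h2 : dY f =ᶠ[𝓝 z] dY g := h.eventuallyEq_nhds.mono fun w hw => dY_congr hw
  rw [dX_congr h1, dY_congr h2]

lemma diffNear {f : ℂ → ℝ} {z : ℂ} (hf : ContDiffAt ℝ 2 f z) :
    ∀ᶠ w in 𝓝 z, DifferentiableAt ℝ f w := by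
  have h := hf.eventually (by simp)
  exact h.mono fun w hw => hw.differentiableAt (by norm_num)

lemma diffDir {f : ℂ → ℝ} {z : ℂ} (hf : ContDiffAt ℝ 2 f z) (v : ℂ) :
    DifferentiableAt ℝ (fun w => fderiv ℝ f w v) z := by
  have h1 : ContDiffAt ℝ 1 (fderiv ℝ f) z := hf.fderiv_right (by norm_num)
  exact (h1.differentiableAt (by norm_num)).clm_apply (differentiableAt_const v)

lemma lap_sub {f g : ℂ → ℝ} {z : ℂ} (hf : ContDiffAt ℝ 2 f z) (hg : ContDiffAt ℝ 2 g z) :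
    lap (fun w => f w - g w) z = lap f z - lap g z := by
  have h1 : dX (fun w => f w - g w) =ᶠ[𝓝 z] fun w => dX f w - dX g w := by
    filter_upwards [diffNear hf, diffNear hg] with w hfw hgw
    unfold dX
    rw [fderiv_fun_sub hfw hgw]
    rfl
  have h2 : dY (fun w => f w - g w) =ᶠ[𝓝 z] fun w => dY f w - dY g w := by
    filter_upwards [diffNear hf, diffNear hg] with w hfw hgw
    unfold dY
    rw [fderiv_fun_sub hfw hgw]
    rfl
  have h3 : dX (fun w => dX f w - dX g w) z = dX (dX f) z - dX (dX g) z := by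
    unfold dX
    rw [fderiv_fun_sub (diffDir hf 1) (diffDir hg 1)]
    rfl
  have h4 : dY (fun w => dY f w - dY g w) z = dY (dY f) z - dY (dY g) z := by
    unfold dY
    rw [fderiv_fun_sub (diffDir hf Complex.I) (diffDir hg Complex.I)]
    rfl
  unfold lap
  rw [dX_congr h1, dY_congr h2, h3, h4]
  ring

lemma lap_const (c : ℝ) (z : ℂ) : lap (fun _ => c) z = 0 := by
  have h1 : dX (fun _ : ℂ => c) = fun _ => 0 := by
    funext w
    simp [dX]
  have h2 : dY (fun _ : ℂ => c) = fun _ => 0 := by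
    funext w
    simp [dY]
  unfold lap
  rw [h1, h2]
  simp [dX, dY]

/-- the pulled back difference of two Green functions -/
noncomputable def hat (φ : ℂ → ℂ) (f : ℂ → ℝ) (c : ℝ) (ζ : ℂ) : ℝ :=
  open Classical in if ζ = 0 then c else f (φ ζ)

lemma hat_ne {φ : ℂ → ℂ} {f : ℂ → ℝ} {c : ℝ} {ζ : ℂ} (h : ζ ≠ 0) :
    hat φ f c ζ = f (φ ζ) := by
  simp [hat, h]

lemma hat_near {φ : ℂ → ℂ} {f : ℂ → ℝ} {c : ℝ} {ζ : ℂ} (h : ζ ≠ 0) :
    hat φ f c =ᶠ[𝓝 ζ] fun w => f (φ w) := by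
  filter_upwards [isOpen_ne.mem_nhds h] with w hw
  exact hat_ne hw

/-- near `0` the pulled back difference is `G ∘ ω` -/
lemma hat_zero {V : ℂ → ℝ} {F A₁ : Set ℂ} {φ ω : ℂ → ℂ} {u uA : ℂ → ℝ} {κ κA r : ℝ}
    (hu : IsGreen V F u κ) (hA : IsGreen V A₁ uA κA) (hr : 0 < r)
    (hω : ∀ ζ, ‖ζ‖ < r → AnalyticAt ℂ ω ζ) (hω0 : ω 0 = 0)
    (hωφ : ∀ ζ, ζ ≠ 0 → ‖ζ‖ < r → φ ζ ≠ 0 ∧ ω ζ = (φ ζ)⁻¹) :
    ∃ G : ℂ → ℝ, ContDiffAt ℝ 2 G (ω 0) ∧ lap G (ω 0) = 0 ∧
      hat φ (fun w => uA w - u w) (κ - κA) =ᶠ[𝓝 0] fun ζ => G (ω ζ) := by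
  obtain ⟨h, ρ, hρ, hh, hh0, hhu⟩ := hu.infty
  obtain ⟨h', ρ', hρ', hh', hh'0, hhu'⟩ := hA.infty
  refine ⟨fun w => (h' w - h w) - (fun _ => κA - κ) w, ?_, ?_, ?_⟩
  · rw [hω0]
    exact ((hh' 0 (by simpa using hρ')).1.sub (hh 0 (by simpa using hρ)).1).sub contDiffAt_const
  · rw [hω0]
    have e1 : ContDiffAt ℝ 2 (fun w => h' w - h w) 0 :=
      (hh' 0 (by simpa using hρ')).1.sub (hh 0 (by simpa using hρ)).1
    rw [lap_sub e1 contDiffAt_const, lap_sub (hh' 0 (by simpa using hρ')).1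
      (hh 0 (by simpa using hρ)).1, lap_const, (hh' 0 (by simpa using hρ')).2,
      (hh 0 (by simpa using hρ)).2]
    ring
  · have hcont : ContinuousAt ω 0 := (hω 0 (by simpa using hr)).continuousAt
    have hball : ∀ᶠ ζ : ℂ in 𝓝 0, ‖ω ζ‖ < min ρ ρ' := by
      have := hcont.norm
      have hlt : ‖ω 0‖ < min ρ ρ' := by
        rw [hω0, norm_zero]
        exact lt_min hρ hρ'
      exact this.eventually (gt_mem_nhds hlt)
    have hball2 : ∀ᶠ ζ : ℂ in 𝓝 0, ‖ζ‖ < r :=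
      (continuous_norm.continuousAt (x := (0 : ℂ))).eventually
        (gt_mem_nhds (by simpa using hr))
    filter_upwards [hball, hball2] with ζ h1 h2
    by_cases hζ : ζ = 0
    · subst hζ
      simp only [hat, if_true, hω0, hh0, hh'0]
      ring
    · rw [hat_ne hζ]
      obtain ⟨hφ0, hωζ⟩ := hωφ ζ hζ h2
      have hn : ‖ω ζ‖ = ‖φ ζ‖⁻¹ := by rw [hωζ, norm_inv]
      have hφpos : 0 < ‖φ ζ‖ := norm_pos_iff.2 hφ0
      rw [hn] at h1
      have e1 : 1 / ρ < ‖φ ζ‖ := by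
        have := lt_of_lt_of_le h1 (min_le_left _ _)
        rw [div_lt_iff₀ hρ]
        rw [inv_lt_iff_one_lt_mul₀ hφpos] at this
        linarith
      have e2 : 1 / ρ' < ‖φ ζ‖ := by
        have := lt_of_lt_of_le h1 (min_le_right _ _)
        rw [div_lt_iff₀ hρ']
        rw [inv_lt_iff_one_lt_mul₀ hφpos] at this
        linarith
      rw [hhu _ e1, hhu' _ e2, hωζ]
      ring

end KeyPlane

open KeyPlane in
theorem s_KeyPlane : KeyDisc → StarInv → PullPot → Conf → ChVar → GreenMono → GreenNorm →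
    KeyPlane := by
  intro hKD hSI hPP hConf hCV hGM hGN V F A₁ B₁ φ C u uA uB κ κA κB α₁ β₁ α₂ β₂ hV hS hdisj hvol
    hAc hBc hAF hBF hu hA hB h1 h2 h3 h4 hz1 hz2
  obtain ⟨hFc, ⟨ω, r, hr, hr1, hω, hω0, _, hωφ⟩, ψ, _, hφa, _, _⟩ := hSI F φ C hS
  obtain ⟨W, r₀, r₁, hWs, hW0, hr1', hr0, hr01, hWout, hWin, hWφ⟩ := hPP F φ C V hS hV hdisj
  set U : Set ℂ := {ζ | ζ ≠ 0 ∧ ‖ζ‖ < 1} with hU
  have hUo : IsOpen U := isOpen_ne.inter (isOpen_lt continuous_norm continuous_const)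
  have himg : φ '' U = Fᶜ := hS.image
  have hnotF : ∀ ζ, ζ ≠ 0 → ‖ζ‖ < 1 → φ ζ ∉ F := by
    intro ζ h0 h1'
    have : φ ζ ∈ φ '' U := ⟨ζ, ⟨h0, h1'⟩, rfl⟩
    rw [himg] at this
    exact this
  have hballU : ball (0 : ℂ) 1 =ᵐ[volume] U := by
    have : ball (0 : ℂ) 1 = U ∪ {0} := by
      ext ζ
      simp only [mem_ball_zero_iff, hU, mem_union, mem_ofPred_eq, mem_singleton_iff]
      constructor
      · intro h
        by_cases h0 : ζ = 0
        · exact Or.inr h0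
        · exact Or.inl ⟨h0, h⟩
      · rintro (h | h)
        · exact h.2
        · rw [h]
          simp
    rw [this]
    exact union_ae_eq_left_of_ae_eq_empty (by
      rw [ae_eq_empty]
      simp)
  have hFcomp : (Fᶜ : Set ℂ) =ᵐ[volume] (univ : Set ℂ) := by
    rw [ae_eq_univ, compl_compl]
    exact hvol
  -- one pulled back function
  have key : ∀ (A : Set ℂ) (v : ℂ → ℝ) (k : ℝ), IsCompact A → A ⊆ F → IsGreen V A v k →
      ContinuousOn (hat φ (fun w => v w - u w) (κ - k)) (closedBall 0 1) ∧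
      VHarm W (hat φ (fun w => v w - u w) (κ - k)) (ball 0 1) ∧
      (∀ z ∈ closedBall (0 : ℂ) 1, 0 ≤ hat φ (fun w => v w - u w) (κ - k) z) ∧
      (∀ t : ℝ, φ (Complex.exp ((t : ℂ) * Complex.I)) ∈ A →
        hat φ (fun w => v w - u w) (κ - k) (Complex.exp ((t : ℂ) * Complex.I)) = 0) ∧
      IntegrableOn (fun z => gp (hat φ (fun w => v w - u w) (κ - k))
        (hat φ (fun w => v w - u w) (κ - k)) z) (ball 0 1) ∧
      ∀ z, z ∉ F → ContDiffAt ℝ 2 (fun w => v w - u w) z := by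
    intro A v k hAcomp hAsub hv
    obtain ⟨G, hG2, hGlap, hGeq⟩ := hat_zero hu hv hr hω hω0 hωφ
    have hC0 := hConf G G ω 0 (hω 0 (by simpa using hr)) hG2 hG2
    have hmono := hGM V A F v u k κ hV.nonneg hv hu hAsub
    have hCD : ∀ z, z ∉ F → ContDiffAt ℝ 2 (fun w => v w - u w) z := fun z hz =>
      (hv.harm z (fun h => hz (hAsub h))).1.sub (hu.harm z hz).1
    have hzero : ContDiffAt ℝ 2 (hat φ (fun w => v w - u w) (κ - k)) 0 :=
      hC0.1.congr_of_eventuallyEq hGeq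
    refine ⟨?_, ?_, ?_, ?_, ?_, hCD⟩
    · intro ζ hζ
      by_cases h0 : ζ = 0
      · subst h0
        exact hzero.continuousAt.continuousWithinAt
      · have hcv : Continuous (fun w => v w - u w) := hv.cont.sub hu.cont
        have hcφ : ContinuousWithinAt φ (closedBall 0 1) ζ := by
          have hm : ζ ∈ {ζ : ℂ | ζ ≠ 0 ∧ ‖ζ‖ ≤ 1} := ⟨h0, by simpa using hζ⟩
          refine (hS.cont ζ hm).mono_of_mem_nhdsWithin ?_
          filter_upwards [self_mem_nhdsWithin, mem_nhdsWithin_of_mem_nhds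
            (isOpen_ne.mem_nhds h0)] with w hw1 hw2
          exact ⟨hw2, by simpa using hw1⟩
        have h5 : ContinuousWithinAt (fun w => v (φ w) - u (φ w)) (closedBall 0 1) ζ :=
          hcv.continuousAt.comp_continuousWithinAt hcφ
        exact h5.congr_of_eventuallyEq ((hat_near h0).filter_mono nhdsWithin_le_nhds)
          (hat_ne h0)
    · intro ζ hζ
      have hζ1 : ‖ζ‖ < 1 := by simpa using hζ
      by_cases h0 : ζ = 0
      · subst h0
        refine ⟨hzero, ?_⟩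
        rw [lap_congr hGeq, hC0.2.1, hGlap, hWin 0 (by simpa using hr1'.le)]
        ring
      · have hnF := hnotF ζ h0 hζ1
        have hCf := hConf (fun w => v w - u w) (fun w => v w - u w) φ ζ (hφa ζ h0 hζ1).2.1
          (hCD _ hnF) (hCD _ hnF)
        refine ⟨hCf.1.congr_of_eventuallyEq (hat_near h0), ?_⟩
        rw [lap_congr (hat_near h0), hCf.2.1, lap_sub (hv.harm _ (fun h => hnF (hAsub h))).1
          (hu.harm _ hnF).1, (hv.harm _ (fun h => hnF (hAsub h))).2, (hu.harm _ hnF).2,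
          hWφ ζ h0 hζ1, hat_ne h0]
        ring
    · intro ζ _
      by_cases h0 : ζ = 0
      · subst h0
        simp only [hat, if_true]
        linarith [hmono.2]
      · rw [hat_ne h0]
        linarith [hmono.1 (φ ζ)]
    · intro t ht
      rw [hat_ne (Complex.exp_ne_zero _)]
      rw [hv.zero _ ht, hu.zero _ (hAsub ht), sub_zero]
    · have hint := (hGN V A F v u k κ hV hAcomp hFc hvol hAsub hv hu).1
      rw [integrableOn_congr_set_ae hballU]
      have h6 := (hCV φ U (fun z => gp (fun w => v w - u w) (fun w => v w - u w) z) hUo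
        (fun z hz => hS.anal z hz.1 hz.2) hS.inj).1.1 (by
          rw [himg]
          exact hint.integrableOn)
      refine h6.congr_fun (fun ζ hζ => ?_) hUo.measurableSet
      have hnF := hnotF ζ hζ.1 hζ.2
      simp only
      rw [gp_congr (hat_near hζ.1) (hat_near hζ.1), (hConf (fun w => v w - u w)
        (fun w => v w - u w) φ ζ (hφa ζ hζ.1 hζ.2).2.1 (hCD _ hnF) (hCD _ hnF)).2.2]
  obtain ⟨a1, a2, a3, a4, a5, a6⟩ := key A₁ uA κA hAc hAF hA
  obtain ⟨b1, b2, b3, b4, b5, b6⟩ := key B₁ uB κB hBc hBF hB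
  set a : ℂ → ℝ := hat φ (fun w => uA w - u w) (κ - κA) with ha
  set b : ℂ → ℝ := hat φ (fun w => uB w - u w) (κ - κB) with hb
  have hKDat : KeyData W a b r₀ α₁ β₁ α₂ β₂ :=
    { smooth := hWs, nonneg := hW0, r0 := hr0, r1 := hr01, supp := hWout, contA := a1, contB := b1,
      harmA := a2, harmB := b2, posA := a3, posB := b3, h1 := h1, h2 := h2, h3 := h3, h4 := h4,
      zeroA := fun t ht => a4 t (hz1 t ht), zeroB := fun t ht => b4 t (hz2 t ht) }
  have hfin := hKD W a b r₀ α₁ β₁ α₂ β₂ hKDat a5 b5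
  have ha0 : a 0 = κ - κA := by simp [ha, hat]
  have hb0 : b 0 = κ - κB := by simp [hb, hat]
  rw [ha0, hb0] at hfin
  refine hfin.trans (le_of_eq ?_)
  congr 1
  rw [setIntegral_congr_set hballU]
  have h7 : ∫ z in U, (gp a b z + W z * a z * b z) = ∫ z in U, ‖deriv φ z‖ ^ 2 *
      (fun w => gp (fun w => uA w - u w) (fun w => uB w - u w) w +
        V w * (uA w - u w) * (uB w - u w)) (φ z) := by
    refine setIntegral_congr_fun hUo.measurableSet fun ζ hζ => ?_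
    have hnF := hnotF ζ hζ.1 hζ.2
    simp only
    rw [ha, hb, gp_congr (hat_near hζ.1) (hat_near hζ.1), (hConf (fun w => uA w - u w)
      (fun w => uB w - u w) φ ζ (hφa ζ hζ.1 hζ.2).2.1 (a6 _ hnF) (b6 _ hnF)).2.2,
      hat_ne hζ.1, hat_ne hζ.1, hWφ ζ hζ.1 hζ.2]
    ring
  rw [h7, ← (hCV φ U (fun w => gp (fun w => uA w - u w) (fun w => uB w - u w) w +
        V w * (uA w - u w) * (uB w - u w)) hUo (fun z hz => hS.anal z hz.1 hz.2) hS.inj).2, himg,
    setIntegral_congr_set hFcomp, setIntegral_univ]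

end Pool.MP_31392c_an
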