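import Pool.Agent.Lib.MP_31392c_an.Full.SpecB

/-!
# MP_31392c_an full proof: LocMax
-/

set_option autoImplicit false

open MeasureTheory Set Filter Topology Metric

namespace Pool.MP_31392c_an

namespace LocMax

/-- The second derivative in a direction is `≤ 0` at a local maximum. -/
theorem second_dir (f : ℂ → ℝ) (z e : ℂ) (hf : ContDiffAt ℝ 2 f z) (hm : IsLocalMax f z) :
    fderiv ℝ (fun w => fderiv ℝ f w e) z e ≤ 0 := by
  set L : ℝ → ℂ := fun t => z + t • e with hLdef
  have hL : ∀ t : ℝ, HasDerivAt L e t := by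
    intro t
    have h1 : HasDerivAt (fun t : ℝ => t • e) ((1 : ℝ) • e) t := (hasDerivAt_id t).smul_const e
    rw [one_smul] at h1
    exact h1.const_add z
  have hL0 : L 0 = z := by simp [hLdef]
  have hLc : Tendsto L (𝓝 0) (𝓝 z) := by
    have := (hL 0).continuousAt.tendsto
    rwa [hL0] at this
  -- near `z` the function is `C²`
  have hev : ∀ᶠ w in 𝓝 z, ContDiffAt ℝ 2 f w := hf.eventually (by simp)
  have hevt : ∀ᶠ t in 𝓝 (0 : ℝ), ContDiffAt ℝ 2 f (L t) := hLc.eventually hev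
  have hd : ∀ᶠ t in 𝓝 (0 : ℝ), deriv (fun s => f (L s)) t = fderiv ℝ f (L t) e := by
    filter_upwards [hevt] with t ht
    have h1 : DifferentiableAt ℝ f (L t) := ht.differentiableAt (by norm_num)
    exact (h1.hasFDerivAt.comp_hasDerivAt t (hL t)).deriv
  have h2 : ContDiffAt ℝ 1 (fderiv ℝ f) z := hf.fderiv_right (by norm_num)
  have h3 : DifferentiableAt ℝ (fun w => fderiv ℝ f w e) z :=
    (h2.differentiableAt (by norm_num)).clm_apply (differentiableAt_const e)
  have h4 : HasDerivAt (fun t => fderiv ℝ f (L t) e) (fderiv ℝ (fun w => fderiv ℝ f w e) z e) 0 := by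
    have h5 : HasFDerivAt (fun w => fderiv ℝ f w e) (fderiv ℝ (fun w => fderiv ℝ f w e) z) (L 0) := by
      rw [hL0]
      exact h3.hasFDerivAt
    exact h5.comp_hasDerivAt (0 : ℝ) (hL 0)
  have hdd : deriv (deriv (fun s => f (L s))) 0 = fderiv ℝ (fun w => fderiv ℝ f w e) z e := by
    have h6 : deriv (fun s => f (L s)) =ᶠ[𝓝 0] fun t => fderiv ℝ f (L t) e := hd
    rw [h6.deriv_eq]
    exact h4.deriv
  by_contra hpos
  push Not at hpos
  have hmg : IsLocalMax (fun s => f (L s)) 0 := by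
    have h7 : ∀ᶠ w in 𝓝 z, f w ≤ f z := hm
    have h8 : ∀ᶠ t in 𝓝 (0 : ℝ), f (L t) ≤ f z := hLc.eventually h7
    have h9 : ∀ᶠ t in 𝓝 (0 : ℝ), f (L t) ≤ f (L 0) := by
      rw [hL0]
      exact h8
    exact h9
  have hd0 : deriv (fun s => f (L s)) 0 = 0 := hmg.deriv_eq_zero
  have hc0 : ContinuousAt (fun s => f (L s)) 0 := by
    have h10 : ContinuousAt f (L 0) := by
      rw [hL0]
      exact hf.continuousAt
    exact ContinuousAt.comp (g := f) (f := L) h10 (hL 0).continuousAt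
  have hmin : IsLocalMin (fun s => f (L s)) 0 :=
    isLocalMin_of_deriv_deriv_pos (by rw [hdd]; exact hpos) hd0 hc0
  have hconst : (fun s => f (L s)) =ᶠ[𝓝 0] fun _ => f (L 0) := by
    have ha : ∀ᶠ t in 𝓝 (0 : ℝ), f (L t) ≤ f (L 0) := hmg
    have hb : ∀ᶠ t in 𝓝 (0 : ℝ), f (L 0) ≤ f (L t) := hmin
    filter_upwards [ha, hb] with t h1 h2
    exact le_antisymm h1 h2
  have hdc : deriv (fun s => f (L s)) =ᶠ[𝓝 0] fun _ => 0 := by
    have := hconst.deriv
    refine this.trans ?_
    refine Filter.Eventually.of_forall fun t => ?_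
    simp
  have : deriv (deriv (fun s => f (L s))) 0 = 0 := by
    rw [hdc.deriv_eq]
    simp
  rw [hdd] at this
  linarith

end LocMax

theorem s_LocMax : LocMax := by
  intro f z hf hm
  have h0 : fderiv ℝ f z = 0 := hm.fderiv_eq_zero
  refine ⟨?_, ?_, ?_⟩
  · unfold dX
    rw [h0]
    rfl
  · unfold dY
    rw [h0]
    rfl
  · have h1 := LocMax.second_dir f z 1 hf hm
    have h2 := LocMax.second_dir f z Complex.I hf hm
    have h3 : lap f z = fderiv ℝ (fun w => fderiv ℝ f w 1) z 1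
        + fderiv ℝ (fun w => fderiv ℝ f w Complex.I) z Complex.I := rfl
    rw [h3]
    linarith

end Pool.MP_31392c_an
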