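import Pool.Agent.Lib.MP_31392c_an.Full.MBdryB

/-!
# MP_31392c_an: MBdry, the stream function up to the boundary
-/

set_option autoImplicit false

open MeasureTheory Set Filter Topology Metric

namespace Pool.MP_31392c_an

namespace MBdryAux

theorem stream (hP : Poinc) {V a b : ℂ → ℝ} (ha : VHarm V a (ball 0 1))
    (hb : VHarm V b (ball 0 1)) :
    ∃ M : ℂ → ℝ, ∀ z ∈ ball (0 : ℂ) 1, ContDiffAt ℝ 2 M z ∧
      dX M z = -(a z * dY b z - b z * dY a z) ∧ dY M z = a z * dX b z - b z * dX a z := by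
  apply hP (fun z => -(a z * dY b z - b z * dY a z)) (fun z => a z * dX b z - b z * dX a z)
  intro z hz
  obtain ⟨ha2, hal⟩ := ha z hz
  obtain ⟨hb2, hbl⟩ := hb z hz
  have fa : ContDiffAt ℝ 1 (fderiv ℝ a) z := ha2.fderiv_right (m := 1) (by norm_num)
  have fb : ContDiffAt ℝ 1 (fderiv ℝ b) z := hb2.fderiv_right (m := 1) (by norm_num)
  have aX : ContDiffAt ℝ 1 (dX a) z := fa.clm_apply contDiffAt_const
  have aY : ContDiffAt ℝ 1 (dY a) z := fa.clm_apply contDiffAt_const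
  have bX : ContDiffAt ℝ 1 (dX b) z := fb.clm_apply contDiffAt_const
  have bY : ContDiffAt ℝ 1 (dY b) z := fb.clm_apply contDiffAt_const
  have a1 : ContDiffAt ℝ 1 a z := ha2.of_le (by norm_num)
  have b1 : ContDiffAt ℝ 1 b z := hb2.of_le (by norm_num)
  refine ⟨((a1.mul bY).sub (b1.mul aY)).neg, (a1.mul bX).sub (b1.mul aX), ?_⟩
  have da := (a1.differentiableAt (by norm_num)).hasFDerivAt
  have db := (b1.differentiableAt (by norm_num)).hasFDerivAt
  have daX := (aX.differentiableAt (by norm_num)).hasFDerivAt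
  have daY := (aY.differentiableAt (by norm_num)).hasFDerivAt
  have dbX := (bX.differentiableAt (by norm_num)).hasFDerivAt
  have dbY := (bY.differentiableAt (by norm_num)).hasFDerivAt
  have e1 : dY (fun z => -(a z * dY b z - b z * dY a z)) z
      = -(a z * dY (dY b) z - b z * dY (dY a) z) := by
    have h := ((da.mul dbY).sub (db.mul daY)).neg
    have h2 : fderiv ℝ (fun z => -(a z * dY b z - b z * dY a z)) z = _ := h.fderiv
    change fderiv ℝ (fun z => -(a z * dY b z - b z * dY a z)) z Complex.I = _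
    rw [h2]
    change -((a z * (fderiv ℝ (dY b) z Complex.I) + dY b z * fderiv ℝ a z Complex.I) -
      (b z * (fderiv ℝ (dY a) z Complex.I) + dY a z * fderiv ℝ b z Complex.I)) = _
    unfold dY
    ring
  have e2 : dX (fun z => a z * dX b z - b z * dX a z) z
      = a z * dX (dX b) z - b z * dX (dX a) z := by
    have h := (da.mul dbX).sub (db.mul daX)
    have h2 : fderiv ℝ (fun z => a z * dX b z - b z * dX a z) z = _ := h.fderiv
    change fderiv ℝ (fun z => a z * dX b z - b z * dX a z) z 1 = _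
    rw [h2]
    change (a z * (fderiv ℝ (dX b) z 1) + dX b z * fderiv ℝ a z 1) -
      (b z * (fderiv ℝ (dX a) z 1) + dX a z * fderiv ℝ b z 1) = _
    unfold dX
    ring
  rw [e1, e2]
  unfold lap at hal hbl
  linear_combination b z * hal - a z * hbl

theorem exists_pt (z : ℂ) (s : ℝ) : ∃ t ∈ Ico s (s + 2 * Real.pi), z = pt ‖z‖ t := by
  obtain ⟨y, hy, hy2⟩ := (pt_periodic ‖z‖).exists_mem_Ico Real.two_pi_pos (Complex.arg z) s
  refine ⟨y, hy, ?_⟩
  rw [← hy2]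
  exact (Complex.norm_mul_exp_arg_mul_I z).symm

theorem bound {V a b : ℂ → ℝ} {τ σ C C' r₂ r₂' : ℝ} {g g' : ℝ → ℝ}
    (hsa : Str a τ σ C r₂ g) (hsb : Str b (σ - 2 * Real.pi) τ C' r₂' g')
    (ga : GS a) (gb : GS b)
    (hca : ContinuousOn a (closedBall 0 1)) (hcb : ContinuousOn b (closedBall 0 1))
    (hha : VHarm V a (ball 0 1)) (hhb : VHarm V b (ball 0 1))
    (hpa : ∀ z ∈ closedBall (0 : ℂ) 1, 0 ≤ a z) (hpb : ∀ z ∈ closedBall (0 : ℂ) 1, 0 ≤ b z) :
    ∃ K, ∀ z ∈ ball (0 : ℂ) 1, a z * ‖fderiv ℝ b z‖ + b z * ‖fderiv ℝ a z‖ ≤ K := by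
  obtain ⟨hC, hr₂, hr₂1, hs1, hs2⟩ := hsa
  obtain ⟨hC', hr₂', hr₂1', hs1', hs2'⟩ := hsb
  obtain ⟨m, hm, hmb⟩ := bdd hcb
  obtain ⟨m', hm', hma⟩ := bdd hca
  obtain ⟨l, hl, hl2⟩ := mem_nhdsLT_iff_exists_Ioo_subset.mp ((ga.ev one_pos).and (gb.ev one_pos))
  set r₃ := max (max r₂ r₂') l with hr₃
  have hr31 : r₃ < 1 := max_lt (max_lt hr₂1 hr₂1') hl
  have hr32 : r₂ ≤ r₃ := (le_max_left _ _).trans (le_max_left _ _)
  have hr32' : r₂' ≤ r₃ := (le_max_right _ _).trans (le_max_left _ _)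
  have hr3l : l ≤ r₃ := le_max_right _ _
  have hsub : closedBall (0 : ℂ) r₃ ⊆ ball 0 1 := closedBall_subset_ball hr31
  have hsub2 : closedBall (0 : ℂ) r₃ ⊆ closedBall 0 1 := closedBall_subset_closedBall hr31.le
  have hcF : ContinuousOn (fun z => a z * ‖fderiv ℝ b z‖ + b z * ‖fderiv ℝ a z‖)
      (closedBall (0 : ℂ) r₃) :=
    ((hca.mono hsub2).mul ((contFd hhb).mono hsub).norm).add
      ((hcb.mono hsub2).mul ((contFd hha).mono hsub).norm)
  obtain ⟨K₀, hK₀⟩ := (isCompact_closedBall (0 : ℂ) r₃).exists_bound_of_continuousOn hcF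
  refine ⟨max K₀ (max (C + m * C) (C' + m' * C')), ?_⟩
  intro z hz
  by_cases hz3 : ‖z‖ ≤ r₃
  · exact ((le_abs_self _).trans (hK₀ z (mem_closedBall_zero_iff.mpr hz3))).trans (le_max_left _ _)
  · rw [not_le] at hz3
    rw [mem_ball_zero_iff] at hz
    have hzc : z ∈ closedBall (0 : ℂ) 1 := mem_closedBall_zero_iff.mpr hz.le
    obtain ⟨t, ht, hzt⟩ := exists_pt z (σ - 2 * Real.pi)
    have hgs := hl2 ⟨lt_of_le_of_lt hr3l hz3, hz⟩
    have h1 : ‖fderiv ℝ a z‖ * (1 - ‖z‖) ≤ 1 := by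
      have := hgs.1 t
      rwa [← hzt] at this
    have h2 : ‖fderiv ℝ b z‖ * (1 - ‖z‖) ≤ 1 := by
      have := hgs.2 t
      rwa [← hzt] at this
    have ha0 := hpa z hzc
    have hb0 := hpb z hzc
    have ham := (le_abs_self _).trans (hma z hzc)
    have hbm := (le_abs_self _).trans (hmb z hzc)
    by_cases htt : τ ≤ t
    · have h3 := hs1 ‖z‖ t (by linarith) hz ⟨htt, by linarith [ht.2]⟩
      rw [← hzt] at h3
      refine le_trans ?_ ((le_max_left (C + m * C) (C' + m' * C')).trans (le_max_right _ _))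
      have h4 : a z * ‖fderiv ℝ b z‖ ≤ C := by
        calc a z * ‖fderiv ℝ b z‖ ≤ (C * (1 - ‖z‖)) * ‖fderiv ℝ b z‖ :=
              mul_le_mul_of_nonneg_right h3.1 (norm_nonneg _)
          _ = C * (‖fderiv ℝ b z‖ * (1 - ‖z‖)) := by ring
          _ ≤ C * 1 := mul_le_mul_of_nonneg_left h2 hC
          _ = C := mul_one C
      have h5 : b z * ‖fderiv ℝ a z‖ ≤ m * C := mul_le_mul hbm h3.2 (norm_nonneg _) hm
      linarith
    · have h3 := hs1' ‖z‖ t (by linarith) hz ⟨ht.1, by linarith⟩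
      rw [← hzt] at h3
      refine le_trans ?_ ((le_max_right (C + m * C) (C' + m' * C')).trans (le_max_right _ _))
      have h4 : b z * ‖fderiv ℝ a z‖ ≤ C' := by
        calc b z * ‖fderiv ℝ a z‖ ≤ (C' * (1 - ‖z‖)) * ‖fderiv ℝ a z‖ :=
              mul_le_mul_of_nonneg_right h3.1 (norm_nonneg _)
          _ = C' * (‖fderiv ℝ a z‖ * (1 - ‖z‖)) := by ring
          _ ≤ C' * 1 := mul_le_mul_of_nonneg_left h1 hC'
          _ = C' := mul_one C'
      have h5 : a z * ‖fderiv ℝ b z‖ ≤ m' * C' := mul_le_mul ham h3.2 (norm_nonneg _) hm'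
      linarith

theorem norm_le_of (L : ℂ →L[ℝ] ℝ) {K : ℝ} (h1 : |L 1| ≤ K) (h2 : |L Complex.I| ≤ K) :
    ‖L‖ ≤ 2 * K := by
  have hK : 0 ≤ K := (abs_nonneg _).trans h1
  apply ContinuousLinearMap.opNorm_le_bound _ (by linarith)
  intro v
  rw [lin_decomp L v, Real.norm_eq_abs]
  have h3 : |v.re * L 1| ≤ ‖v‖ * K := by
    rw [abs_mul]
    exact mul_le_mul (Complex.abs_re_le_norm v) h1 (abs_nonneg _) (norm_nonneg _)
  have h4 : |v.im * L Complex.I| ≤ ‖v‖ * K := by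
    rw [abs_mul]
    exact mul_le_mul (Complex.abs_im_le_norm v) h2 (abs_nonneg _) (norm_nonneg _)
  calc |v.re * L 1 + v.im * L Complex.I| ≤ |v.re * L 1| + |v.im * L Complex.I| := abs_add_le _ _
    _ ≤ 2 * K * ‖v‖ := by linarith

theorem abs_dX_le (f : ℂ → ℝ) (z : ℂ) : |dX f z| ≤ ‖fderiv ℝ f z‖ := by
  have h := ContinuousLinearMap.le_opNorm (fderiv ℝ f z) 1
  rw [norm_one, mul_one] at h
  exact h

theorem abs_dY_le (f : ℂ → ℝ) (z : ℂ) : |dY f z| ≤ ‖fderiv ℝ f z‖ := by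
  have h := ContinuousLinearMap.le_opNorm (fderiv ℝ f z) Complex.I
  rw [Complex.norm_I, mul_one] at h
  exact h

theorem extM {a b M₀ : ℂ → ℝ} {K : ℝ}
    (hM : ∀ z ∈ ball (0 : ℂ) 1, ContDiffAt ℝ 2 M₀ z ∧
      dX M₀ z = -(a z * dY b z - b z * dY a z) ∧ dY M₀ z = a z * dX b z - b z * dX a z)
    (hpa : ∀ z ∈ closedBall (0 : ℂ) 1, 0 ≤ a z) (hpb : ∀ z ∈ closedBall (0 : ℂ) 1, 0 ≤ b z)
    (hK : ∀ z ∈ ball (0 : ℂ) 1, a z * ‖fderiv ℝ b z‖ + b z * ‖fderiv ℝ a z‖ ≤ K) :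
    ∃ M₁ : ℂ → ℝ, Continuous M₁ ∧ ∀ z ∈ ball (0 : ℂ) 1, M₀ z = M₁ z := by
  have hb : ∀ z ∈ ball (0 : ℂ) 1, ‖fderiv ℝ M₀ z‖ ≤ 2 * K := by
    intro z hz
    obtain ⟨-, h1, h2⟩ := hM z hz
    have ha0 := hpa z (ball_subset_closedBall hz)
    have hb0 := hpb z (ball_subset_closedBall hz)
    apply norm_le_of
    · have e : (fderiv ℝ M₀ z) 1 = -(a z * dY b z - b z * dY a z) := h1
      rw [e, abs_neg]
      refine le_trans ((abs_sub _ _).trans ?_) (hK z hz)
      rw [abs_mul, abs_mul, abs_of_nonneg ha0, abs_of_nonneg hb0]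
      exact add_le_add (mul_le_mul_of_nonneg_left (abs_dY_le b z) ha0)
        (mul_le_mul_of_nonneg_left (abs_dY_le a z) hb0)
    · have e : (fderiv ℝ M₀ z) Complex.I = a z * dX b z - b z * dX a z := h2
      rw [e]
      refine le_trans ((abs_sub _ _).trans ?_) (hK z hz)
      rw [abs_mul, abs_mul, abs_of_nonneg ha0, abs_of_nonneg hb0]
      exact add_le_add (mul_le_mul_of_nonneg_left (abs_dX_le b z) ha0)
        (mul_le_mul_of_nonneg_left (abs_dX_le a z) hb0)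
  have hK0 : 0 ≤ 2 * K := (norm_nonneg _).trans (hb 0 (mem_ball_self one_pos))
  have hlip : LipschitzOnWith (Real.toNNReal (2 * K)) M₀ (ball (0 : ℂ) 1) := by
    apply (convex_ball (0 : ℂ) 1).lipschitzOnWith_of_nnnorm_fderiv_le (𝕜 := ℝ)
    · intro z hz
      exact (hM z hz).1.differentiableAt (by norm_num)
    · intro z hz
      rw [← NNReal.coe_le_coe, Real.coe_toNNReal _ hK0]
      exact hb z hz
  obtain ⟨M₁, h1, h2⟩ := hlip.extend_real
  exact ⟨M₁, h1.continuous, fun z hz => h2 hz⟩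

end MBdryAux

open MBdryAux in
theorem s_MBdry : Poinc → BdryReg → GradSmall → MBdry := by
  intro hP hB hG V a b r₀ α₁ β₁ α₂ β₂ hk
  obtain ⟨smooth, nonneg, r0, r1, supp, contA, contB, harmA, harmB, posA, posB, h1, h2, h3, h4,
    zeroA, zeroB⟩ := hk
  set τ := (β₁ + α₂) / 2 with hτ
  set σ := (β₂ + α₁ + 2 * Real.pi) / 2 with hσ
  have hpi := Real.pi_pos
  obtain ⟨C, r₂, g, hsa⟩ := strip hB (p := τ) (q := σ) smooth r0 r1 supp contA harmA
    (α := β₁) (β := α₁ + 2 * Real.pi) (by linarith) (by linarith)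
    (fun t ht => zeroA t ⟨ht.1.le, ht.2.le⟩) posA (by rw [hτ]; linarith) (by rw [hσ]; linarith)
  obtain ⟨C', r₂', g', hsb⟩ := strip hB (p := σ - 2 * Real.pi) (q := τ) smooth r0 r1 supp contB harmB
    (α := β₂ - 2 * Real.pi) (β := α₂) (by linarith) (by linarith)
    (fun t ht => by
      rw [← eu_periodic t]
      exact zeroB _ ⟨by linarith [ht.1], by linarith [ht.2]⟩) posB
    (by rw [hσ]; linarith) (by rw [hτ]; linarith)
  have hsa' : Str a τ σ C r₂ g := hsa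
  have hsb' : Str b (σ - 2 * Real.pi) τ C' r₂' g' := hsb
  have hτσ : τ ≤ σ := by rw [hτ, hσ]; linarith
  have hστ : σ - 2 * Real.pi ≤ τ := by rw [hτ, hσ]; linarith
  have ga : GS a := hG V a r₀ r1 supp contA harmA
  have gb : GS b := hG V b r₀ r1 supp contB harmB
  obtain ⟨M₀, hM₀⟩ := stream hP harmA harmB
  obtain ⟨K, hK⟩ := bound hsa' hsb' ga gb contA contB harmA harmB posA posB
  obtain ⟨M₁, hM₁, hMM⟩ := extM hM₀ posA posB hK
  have hder : ∀ r t, 0 < r → r < 1 → HasDerivAt (fun s => M₀ (pt r s))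
      (r * (a (pt r t) * dR b r t) - r * (b (pt r t) * dR a r t)) t := by
    intro r t hr hr1
    obtain ⟨e1, e2, e3⟩ := hM₀ _ (pt_mem_ball (t := t) hr.le hr1)
    exact circ_deriv t (e1.differentiableAt (by norm_num)) e2 e3
  have D1 : ∀ t₁ t₂, τ ≤ t₁ → t₁ ≤ t₂ → t₂ ≤ σ →
      M₁ (eu t₂) - M₁ (eu t₁) = -∫ t in t₁..t₂, b (eu t) * g t := fun t₁ t₂ i1 i2 i3 =>
    diff_arc hsa' gb contA contB harmA harmB posA hM₁ hMM hder i1 i2 i3
  have D2 : ∀ t₁ t₂, σ - 2 * Real.pi ≤ t₁ → t₁ ≤ t₂ → t₂ ≤ τ →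
      (-M₁ (eu t₂)) - (-M₁ (eu t₁)) = -∫ t in t₁..t₂, a (eu t) * g' t := fun t₁ t₂ i1 i2 i3 =>
    diff_arc (M₀ := fun z => -M₀ z) (M₁ := fun z => -M₁ z) hsb' ga contB contA harmB harmA posB
      hM₁.neg (fun z hz => by rw [hMM z hz])
      (fun r t hr hr1 => by
        refine (hder r t hr hr1).neg.congr_deriv ?_
        ring) i1 i2 i3
  have ceu : ∀ t, eu t ∈ closedBall (0 : ℂ) 1 := fun t => by
    rw [mem_closedBall_zero_iff, norm_eu]
  have P1 : ∀ t₁ t₂, τ ≤ t₁ → t₁ ≤ t₂ → t₂ ≤ σ → M₁ (eu t₁) ≤ M₁ (eu t₂) := by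
    intro t₁ t₂ i1 i2 i3
    have h5 := D1 t₁ t₂ i1 i2 i3
    have h6 : 0 ≤ ∫ t in t₁..t₂, -(b (eu t) * g t) := by
      apply intervalIntegral.integral_nonneg i2
      intro t ht
      have h7 := (hsa'.2.2.2.2 t ⟨by linarith [ht.1], by linarith [ht.2]⟩).1
      have h8 := posB _ (ceu t)
      nlinarith
    rw [intervalIntegral.integral_neg] at h6
    linarith
  have P2 : ∀ t₁ t₂, σ - 2 * Real.pi ≤ t₁ → t₁ ≤ t₂ → t₂ ≤ τ → M₁ (eu t₂) ≤ M₁ (eu t₁) := by
    intro t₁ t₂ i1 i2 i3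
    have h5 := D2 t₁ t₂ i1 i2 i3
    have h6 : 0 ≤ ∫ t in t₁..t₂, -(a (eu t) * g' t) := by
      apply intervalIntegral.integral_nonneg i2
      intro t ht
      have h7 := (hsb'.2.2.2.2 t ⟨by linarith [ht.1], by linarith [ht.2]⟩).1
      have h8 := posA _ (ceu t)
      nlinarith
    rw [intervalIntegral.integral_neg] at h6
    linarith
  have hper : M₁ (eu (σ - 2 * Real.pi)) = M₁ (eu σ) := by
    have := eu_periodic (σ - 2 * Real.pi)
    rw [sub_add_cancel] at this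
    rw [this]
  refine ⟨fun z => M₁ z - M₁ (eu τ), M₁ (eu σ) - M₁ (eu τ), ?_, ?_, ?_, ?_⟩
  · exact (hM₁.sub continuous_const).continuousOn
  · intro z hz
    obtain ⟨e1, e2, e3⟩ := hM₀ z hz
    have hev : (fun z => M₁ z - M₁ (eu τ)) =ᶠ[𝓝 z] (fun z => M₀ z - M₁ (eu τ)) := by
      filter_upwards [isOpen_ball.mem_nhds hz] with w hw
      rw [hMM w hw]
    have hfd : fderiv ℝ (fun z => M₁ z - M₁ (eu τ)) z = fderiv ℝ M₀ z := by
      rw [hev.fderiv_eq, fderiv_sub_const]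
    refine ⟨(e1.sub contDiffAt_const).congr_of_eventuallyEq hev, ?_, ?_⟩
    · unfold dX at *
      rw [hfd]
      exact e2
    · unfold dY at *
      rw [hfd]
      exact e3
  · intro z hz
    obtain ⟨t, ht, hzt⟩ := exists_pt z (σ - 2 * Real.pi)
    rw [hz, pt_one] at hzt
    rw [hzt]
    rw [sub_add_cancel] at ht
    by_cases htt : τ ≤ t
    · have i1 := P1 τ t le_rfl htt ht.2.le
      have i2 := P1 t σ htt ht.2.le le_rfl
      constructor <;> linarith
    · rw [not_le] at htt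
      have i1 := P2 t τ ht.1 htt.le le_rfl
      have i2 := P2 (σ - 2 * Real.pi) t le_rfl ht.1 htt.le
      rw [hper] at i2
      constructor <;> linarith
  · have L1 := lim1 hsb' ga contB harmA posB (t₁ := σ - 2 * Real.pi) (t₂ := τ) le_rfl hστ le_rfl
    have L2 := lim2 hsa' contB harmA (t₁ := τ) (t₂ := σ) le_rfl hτσ le_rfl
    have L3 := L1.add L2
    have hΦ : 0 + ∫ t in τ..σ, b (eu t) * g t = -(M₁ (eu σ) - M₁ (eu τ)) := by
      rw [D1 τ σ le_rfl hτσ le_rfl]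
      ring
    rw [hΦ] at L3
    apply L3.congr'
    have h5 : Ioo (0 : ℝ) 1 ∈ 𝓝[<] (1 : ℝ) := Ioo_mem_nhdsLT one_pos
    filter_upwards [h5] with r hr
    have c2 : Continuous (fun t => b (pt r t) * dR a r t) :=
      (continuous_comp_pt contB hr.1.le hr.2.le).mul (continuous_dR harmA hr.1.le hr.2)
    rw [intervalIntegral.integral_add_adjacent_intervals (c2.intervalIntegrable _ _)
      (c2.intervalIntegrable _ _)]
    have hp : Function.Periodic (fun t => b (pt r t) * dR a r t) (2 * Real.pi) := by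
      intro t
      have q1 := pt_periodic r t
      have q2 : dR a r (t + 2 * Real.pi) = dR a r t := by
        change fderiv ℝ a (pt r (t + 2 * Real.pi)) (eu (t + 2 * Real.pi)) = fderiv ℝ a (pt r t) (eu t)
        rw [q1, eu_periodic t]
      simp only [q1, q2]
    have q3 := hp.intervalIntegral_add_eq (σ - 2 * Real.pi) 0
    rw [sub_add_cancel, zero_add] at q3
    exact q3

end Pool.MP_31392c_an
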