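import Mathlib
import Pool.Agent.Lib.MP_31392c_an.Full.SpecZ
import Pool.Agent.Lib.MP_31392c_an.Dn

/-!
# MP_31392c_an full proof: the final limit
-/

set_option autoImplicit false

open MeasureTheory Set Filter Topology Metric

namespace Pool.MP_31392c_an

namespace MainThm

/-- Sets with at most the point `0` have capacity zero. -/
theorem tcap_le_zero (K : Set ℂ) (hK : K ⊆ {0}) : tcap K ≤ 0 := by
  refine (tcap_le_dn 0 _).trans ?_
  have h2 : sv 0 K ≤ 0 := by
    refine sv_le 0 le_rfl ?_
    intro z hz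
    have h0 : z 0 = 0 := by simpa using hK (hz 0)
    have h1 : z 1 = 0 := by simpa using hK (hz 1)
    unfold vdm
    have : ∏ j ∈ Finset.Ioi (0 : Fin 2), ‖z 0 - z j‖ = 0 := by
      apply Finset.prod_eq_zero (i := (1 : Fin 2))
      · simp
      · rw [h0, h1]; simp
    rw [Fin.prod_univ_two]
    change (∏ j ∈ Finset.Ioi (0 : Fin 2), ‖z 0 - z j‖) * _ ≤ 0
    rw [this, zero_mul]
  have h3 : sv 0 K = 0 := le_antisymm h2 (sv_nonneg 0 K)
  rw [dn_eq, h3]
  rw [Real.zero_rpow (expo_pos 0).ne']

end MainThm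

theorem s_MainThm : ApproxStep → MainThm := by
  intro hA E hE
  by_cases hex : ∃ θs, 0 < rayMeasure E θs
  · obtain ⟨θs, hθs⟩ := hex
    have hne : E.Nonempty := by
      by_contra hcon
      rw [Set.not_nonempty_iff_eq_empty] at hcon
      rw [hcon] at hθs
      simp [rayMeasure] at hθs
    obtain ⟨R, hR⟩ := hE.isBounded.exists_norm_le
    refine le_ciInf fun n => ?_
    refine le_of_forall_pos_le_add fun κ hκ => ?_
    obtain ⟨ε0, hε0, hd⟩ := dn_cthickening n hE hne hκ
    set B : ℝ := dn n E + κ with hB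
    have hBpos : 0 ≤ B := add_nonneg (dn_nonneg n E) hκ.le
    set F : ℝ → ℝ := fun ε =>
      Real.exp (4 * Real.sqrt (Real.sqrt ε) * (1 + Real.sqrt (2 / rayMeasure E θs))) * B with hF
    have hcont : Continuous F := by
      rw [hF]
      exact (Real.continuous_exp.comp (by
        exact ((continuous_const.mul (Real.continuous_sqrt.comp Real.continuous_sqrt)).mul
          continuous_const))).mul continuous_const
    have hF0 : F 0 = B := by
      simp [hF]
    have hlim : Tendsto F (𝓝[>] 0) (𝓝 B) := by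
      have := (hcont.tendsto 0).mono_left (nhdsWithin_le_nhds (s := Ioi (0 : ℝ)))
      rwa [hF0] at this
    refine ge_of_tendsto hlim ?_
    have hev : ∀ᶠ ε in 𝓝[>] (0 : ℝ), ε ∈ Ioo (0 : ℝ) (min 1 (ε0 / 4)) :=
      Ioo_mem_nhdsGT (by positivity)
    filter_upwards [hev] with ε hε
    have h1 : ε ≤ 1 := hε.2.le.trans (min_le_left _ _)
    have h2 : 4 * ε ≤ ε0 := by
      have := hε.2.le.trans (min_le_right _ _)
      linarith
    have h3 := hA E R θs ε hE hR hθs hε.1 h1
    refine h3.trans ?_
    refine mul_le_mul_of_nonneg_left ?_ (Real.exp_pos _).le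
    exact (tcap_le_dn n _).trans (hd (4 * ε) (by linarith [hε.1]) h2)
  · push Not at hex
    have h0 : LR E ⊆ {0} := by
      rintro x ⟨r, θ, hr, hr2, rfl⟩
      have : r = 0 := le_antisymm (hr2.trans (hex θ)) hr
      simp [this]
    exact (MainThm.tcap_le_zero _ h0).trans (tcap_nonneg E)

end Pool.MP_31392c_an
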