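import Mathlib
import Pool.Agent.Lib.MP_31392c_an.Full.SpecB

/-!
# MP_31392c_an full proof: weak maximum principle with a bounded drift
-/

set_option autoImplicit false

open MeasureTheory Set Filter Topology Metric

namespace Pool.MP_31392c_an

namespace MaxDrift

theorem diff_dX {f : ℂ → ℝ} {z : ℂ} (hf : ContDiffAt ℝ 2 f z) (e : ℂ) :
    DifferentiableAt ℝ (fun w => fderiv ℝ f w e) z := by
  have h1 : ContDiffAt ℝ 1 (fderiv ℝ f) z := hf.fderiv_right (by norm_num)
  exact (h1.differentiableAt (by norm_num)).clm_apply (differentiableAt_const e)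

theorem fderiv_add_ev {f h : ℂ → ℝ} {z : ℂ} (hf : ContDiffAt ℝ 2 f z)
    (hh : ContDiffAt ℝ 2 h z) :
    ∀ᶠ w in 𝓝 z, fderiv ℝ (fun w => f w + h w) w = fderiv ℝ f w + fderiv ℝ h w := by
  filter_upwards [hf.eventually (by simp), hh.eventually (by simp)] with w hw1 hw2
  exact fderiv_fun_add (hw1.differentiableAt (by norm_num)) (hw2.differentiableAt (by norm_num))

theorem second_add {f h : ℂ → ℝ} {z : ℂ} (hf : ContDiffAt ℝ 2 f z)
    (hh : ContDiffAt ℝ 2 h z) (e : ℂ) :
    fderiv ℝ (fun w => fderiv ℝ (fun w => f w + h w) w e) z e =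
      fderiv ℝ (fun w => fderiv ℝ f w e) z e + fderiv ℝ (fun w => fderiv ℝ h w e) z e := by
  have h1 : (fun w => fderiv ℝ (fun w => f w + h w) w e) =ᶠ[𝓝 z]
      fun w => fderiv ℝ f w e + fderiv ℝ h w e := by
    filter_upwards [fderiv_add_ev hf hh] with w hw
    rw [hw]
    rfl
  rw [h1.fderiv_eq, fderiv_fun_add (diff_dX hf e) (diff_dX hh e)]
  rfl

theorem lap_add {f h : ℂ → ℝ} {z : ℂ} (hf : ContDiffAt ℝ 2 f z) (hh : ContDiffAt ℝ 2 h z) :
    dX (fun w => f w + h w) z = dX f z + dX h z ∧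
    dY (fun w => f w + h w) z = dY f z + dY h z ∧
    lap (fun w => f w + h w) z = lap f z + lap h z := by
  have h0 := (fderiv_add_ev hf hh).self_of_nhds
  refine ⟨?_, ?_, ?_⟩
  · unfold dX
    rw [h0]
    rfl
  · unfold dY
    rw [h0]
    rfl
  · have h1 := second_add hf hh 1
    have h2 := second_add hf hh Complex.I
    unfold lap
    change fderiv ℝ (fun w => fderiv ℝ (fun w => f w + h w) w 1) z 1 +
      fderiv ℝ (fun w => fderiv ℝ (fun w => f w + h w) w Complex.I) z Complex.I = _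
    rw [h1, h2]
    change _ = fderiv ℝ (fun w => fderiv ℝ f w 1) z 1 +
      fderiv ℝ (fun w => fderiv ℝ f w Complex.I) z Complex.I +
      (fderiv ℝ (fun w => fderiv ℝ h w 1) z 1 +
      fderiv ℝ (fun w => fderiv ℝ h w Complex.I) z Complex.I)
    ring

/-- the barrier `δ exp (l re z)` -/
noncomputable def bar (d l : ℝ) (z : ℂ) : ℝ := d * Real.exp (l * z.re)

theorem bar_fderiv (d l : ℝ) (z : ℂ) :
    HasFDerivAt (bar d l) ((d * (l * Real.exp (l * z.re))) • Complex.reCLM) z := by
  have h1 : HasFDerivAt (fun w : ℂ => l * w.re) (l • Complex.reCLM) z := by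
    have := (Complex.reCLM.hasFDerivAt (x := z)).const_mul l
    simpa using this
  have h2 := (h1.exp).const_mul d
  have h3 : (d * (l * Real.exp (l * z.re))) • Complex.reCLM =
      d • Real.exp (l * z.re) • l • Complex.reCLM := by
    rw [smul_smul, smul_smul]
    congr 1
    ring
  rw [h3]
  exact h2

theorem bar_contDiff (d l : ℝ) : ContDiff ℝ 2 (bar d l) := by
  unfold bar
  exact contDiff_const.mul ((contDiff_const.mul Complex.reCLM.contDiff).exp)

theorem bar_dX (d l : ℝ) (z : ℂ) : dX (bar d l) z = d * (l * Real.exp (l * z.re)) := by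
  unfold dX
  rw [(bar_fderiv d l z).fderiv]
  simp

theorem bar_dY (d l : ℝ) (z : ℂ) : dY (bar d l) z = 0 := by
  unfold dY
  rw [(bar_fderiv d l z).fderiv]
  simp

theorem bar_lap (d l : ℝ) (z : ℂ) :
    lap (bar d l) z = d * (l ^ 2 * Real.exp (l * z.re)) := by
  unfold lap
  have h1 : dX (bar d l) = bar (d * l) l := by
    funext w
    rw [bar_dX]
    unfold bar
    ring
  have h2 : dY (bar d l) = fun _ => 0 := by
    funext w
    exact bar_dY d l w
  rw [h1, h2, bar_dX]
  unfold dY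
  simp
  ring

end MaxDrift

theorem s_MaxDrift : LocMax → MaxDrift := by
  intro hLoc ρ L c g β₁ β₂ hρ hcont hC2 hβ hsub hsph
  have h0 : (0 : ℂ) ∈ ball (0 : ℂ) ρ := mem_ball_self hρ
  have hL : 0 ≤ L := (abs_nonneg _).trans (hβ 0 h0).1
  set l : ℝ := L + 1 with hl
  have hl0 : 0 < l := by linarith
  have key : ∀ d > 0, ∀ z ∈ closedBall (0 : ℂ) ρ, g z ≤ c + d * Real.exp (l * ρ) := by
    intro d hd z hz
    have hGc : ContinuousOn (fun w => g w + MaxDrift.bar d l w) (closedBall 0 ρ) :=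
      hcont.add (MaxDrift.bar_contDiff d l).continuous.continuousOn
    obtain ⟨z₁, hz₁, hmax⟩ := (isCompact_closedBall (0 : ℂ) ρ).exists_isMaxOn ⟨z, hz⟩ hGc
    have hsphere : z₁ ∈ sphere (0 : ℂ) ρ := by
      by_contra hns
      have hb : z₁ ∈ ball (0 : ℂ) ρ := by
        rw [mem_closedBall] at hz₁
        rw [mem_sphere] at hns
        rw [mem_ball]
        exact lt_of_le_of_ne hz₁ hns
      have hnb : closedBall (0 : ℂ) ρ ∈ 𝓝 z₁ :=
        mem_of_superset (isOpen_ball.mem_nhds hb) ball_subset_closedBall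
      have hlm : IsLocalMax (fun w => g w + MaxDrift.bar d l w) z₁ := hmax.isLocalMax hnb
      have hg2 := hC2 z₁ hb
      have hb2 : ContDiffAt ℝ 2 (MaxDrift.bar d l) z₁ :=
        (MaxDrift.bar_contDiff d l).contDiffAt
      obtain ⟨e1, e2, e3⟩ := hLoc _ z₁ (hg2.add hb2) hlm
      obtain ⟨a1, a2, a3⟩ := MaxDrift.lap_add hg2 hb2
      change dX (fun w => g w + MaxDrift.bar d l w) z₁ = 0 at e1
      change dY (fun w => g w + MaxDrift.bar d l w) z₁ = 0 at e2
      change lap (fun w => g w + MaxDrift.bar d l w) z₁ ≤ 0 at e3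
      rw [a1, MaxDrift.bar_dX] at e1
      rw [a2, MaxDrift.bar_dY] at e2
      rw [a3, MaxDrift.bar_lap] at e3
      have hs := hsub z₁ hb
      have hb1 := (abs_le.mp (hβ z₁ hb).1).1
      have hE : 0 < Real.exp (l * z₁.re) := Real.exp_pos _
      set Ex : ℝ := Real.exp (l * z₁.re)
      have hx : dX g z₁ = -(d * (l * Ex)) := by linarith
      have hy : dY g z₁ = 0 := by linarith
      rw [hx, hy] at hs
      have hpos : 0 < d * (l * Ex) := by positivity
      have h1 : β₁ z₁ * -(d * (l * Ex)) ≤ L * (d * (l * Ex)) := by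
        have := mul_le_mul_of_nonneg_right hb1 hpos.le
        linarith
      have h2 : d * (l ^ 2 * Ex) = (L + 1) * (d * (l * Ex)) := by
        rw [hl]; ring
      rw [h2] at e3
      nlinarith
    have h1 : g z + MaxDrift.bar d l z ≤ g z₁ + MaxDrift.bar d l z₁ := hmax hz
    have h2 : 0 ≤ MaxDrift.bar d l z := by
      unfold MaxDrift.bar
      positivity
    have h3 : MaxDrift.bar d l z₁ ≤ d * Real.exp (l * ρ) := by
      unfold MaxDrift.bar
      refine mul_le_mul_of_nonneg_left (Real.exp_le_exp.mpr ?_) hd.le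
      refine mul_le_mul_of_nonneg_left ?_ hl0.le
      have : ‖z₁‖ = ρ := by simpa using hsphere
      calc z₁.re ≤ |z₁.re| := le_abs_self _
        _ ≤ ‖z₁‖ := Complex.abs_re_le_norm _
        _ = ρ := this
    have h4 := hsph z₁ hsphere
    linarith
  intro z hz
  refine le_of_forall_pos_le_add fun ε hε => ?_
  have hE : 0 < Real.exp (l * ρ) := Real.exp_pos _
  have := key (ε / Real.exp (l * ρ)) (by positivity) z hz
  rwa [div_mul_cancel₀ _ hE.ne'] at this

end Pool.MP_31392c_an
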