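import Mathlib
import Pool.Agent.Lib.MP_31392c_an.Full.SpecB

/-!
# MP_31392c_an full proof: the weak maximum principle
-/

set_option autoImplicit false

open MeasureTheory Set Filter Topology Metric

namespace Pool.MP_31392c_an

namespace MaxPr

/-- Directional derivatives are additive twice. -/
theorem fderiv_fderiv_add (f g : ℂ → ℝ) (z e : ℂ) (hf : ContDiffAt ℝ 2 f z)
    (hg : ContDiffAt ℝ 2 g z) :
    fderiv ℝ (fun w => fderiv ℝ (fun u => f u + g u) w e) z e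
      = fderiv ℝ (fun w => fderiv ℝ f w e) z e + fderiv ℝ (fun w => fderiv ℝ g w e) z e := by
  have ev : ∀ h : ℂ → ℝ, ContDiffAt ℝ 2 h z → ∀ᶠ w in 𝓝 z, DifferentiableAt ℝ h w := by
    intro h hh
    have h1 : ContDiffAt ℝ 1 h z := hh.of_le (by norm_num)
    have h2 := h1.eventually (by simp)
    filter_upwards [h2] with w hw
    exact hw.differentiableAt (by norm_num)
  have df : ∀ h : ℂ → ℝ, ContDiffAt ℝ 2 h z → DifferentiableAt ℝ (fun w => fderiv ℝ h w e) z := by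
    intro h hh
    have h1 : ContDiffAt ℝ 1 (fderiv ℝ h) z := hh.fderiv_right (by norm_num)
    have h2 : DifferentiableAt ℝ (fderiv ℝ h) z := h1.differentiableAt (by norm_num)
    exact h2.clm_apply (differentiableAt_const e)
  have heq : (fun w => fderiv ℝ (fun u => f u + g u) w e)
      =ᶠ[𝓝 z] (fun w => fderiv ℝ f w e + fderiv ℝ g w e) := by
    filter_upwards [ev f hf, ev g hg] with w hw1 hw2
    have : fderiv ℝ (fun u => f u + g u) w = fderiv ℝ f w + fderiv ℝ g w :=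
      fderiv_fun_add hw1 hw2
    rw [this]
    rfl
  rw [heq.fderiv_eq]
  have h3 : fderiv ℝ (fun w => fderiv ℝ f w e + fderiv ℝ g w e) z
      = fderiv ℝ (fun w => fderiv ℝ f w e) z + fderiv ℝ (fun w => fderiv ℝ g w e) z :=
    fderiv_fun_add (df f hf) (df g hg)
  rw [h3]
  rfl

theorem lap_add (f g : ℂ → ℝ) (z : ℂ) (hf : ContDiffAt ℝ 2 f z) (hg : ContDiffAt ℝ 2 g z) :
    lap (fun u => f u + g u) z = lap f z + lap g z := by
  have h1 := fderiv_fderiv_add f g z 1 hf hg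
  have h2 := fderiv_fderiv_add f g z Complex.I hf hg
  unfold lap dX dY
  rw [h1, h2]
  ring

/-- The directional derivative of `‖·‖²`. -/
theorem fderiv_normSq (δ : ℝ) (w e : ℂ) :
    fderiv ℝ (fun u : ℂ => δ * ‖u‖ ^ 2) w e = δ * (2 * (w.re * e.re + w.im * e.im)) := by
  have h1 : HasFDerivAt (fun u : ℂ => ‖u‖ ^ 2) (2 • (innerSL ℝ w)) w := by
    exact (hasStrictFDerivAt_norm_sq w).hasFDerivAt
  have h2 : HasFDerivAt (fun u : ℂ => δ * ‖u‖ ^ 2) (δ • (2 • (innerSL ℝ w))) w :=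
    h1.const_mul δ
  rw [h2.fderiv]
  simp [Complex.inner]
  left
  ring

theorem lap_normSq (δ : ℝ) (z : ℂ) : lap (fun u : ℂ => δ * ‖u‖ ^ 2) z = 4 * δ := by
  have key : ∀ e : ℂ, fderiv ℝ (fun w => fderiv ℝ (fun u : ℂ => δ * ‖u‖ ^ 2) w e) z e
      = δ * (2 * (e.re * e.re + e.im * e.im)) := by
    intro e
    have h0 : (fun w => fderiv ℝ (fun u : ℂ => δ * ‖u‖ ^ 2) w e)
        = fun w : ℂ => (δ * 2 * e.re) * w.re + (δ * 2 * e.im) * w.im := by
      funext w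
      rw [fderiv_normSq]
      ring
    rw [h0]
    have h1 : HasFDerivAt (fun w : ℂ => (δ * 2 * e.re) * w.re + (δ * 2 * e.im) * w.im)
        ((δ * 2 * e.re) • Complex.reCLM + (δ * 2 * e.im) • Complex.imCLM) z := by
      exact (Complex.reCLM.hasFDerivAt.const_mul _).add (Complex.imCLM.hasFDerivAt.const_mul _)
    rw [h1.fderiv]
    simp
    ring
  unfold lap dX dY
  rw [key, key]
  simp
  ring

end MaxPr

open MaxPr in
theorem s_MaxPr : LocMax → MaxPr := by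
  intro hLoc Ω g hΩ hbd hcont hfr hin z₀ hz₀
  by_contra hneg
  push Not at hneg
  obtain ⟨R, hRpos, hR⟩ : ∃ R : ℝ, 0 < R ∧ Ω ⊆ closedBall (0 : ℂ) R := by
    obtain ⟨r, hr⟩ := hbd.subset_closedBall (0 : ℂ)
    exact ⟨max r 1, by positivity, hr.trans (closedBall_subset_closedBall (le_max_left _ _))⟩
  have hRc : closure Ω ⊆ closedBall (0 : ℂ) R := closure_minimal hR isClosed_closedBall
  set δ : ℝ := g z₀ / (4 * R ^ 2) with hδ
  have hδpos : 0 < δ := by positivity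
  have hδR : 4 * (δ * R ^ 2) = g z₀ := by
    rw [hδ]; field_simp
  have hbound : ∀ z ∈ closure Ω, δ * ‖z‖ ^ 2 ≤ δ * R ^ 2 := by
    intro z hz
    have : ‖z‖ ≤ R := by simpa using hRc hz
    gcongr
  have hcomp : IsCompact (closure Ω) := hbd.isCompact_closure
  have hGc : ContinuousOn (fun z => g z + δ * ‖z‖ ^ 2) (closure Ω) := by
    apply hcont.add
    fun_prop
  obtain ⟨z₁, hz₁, hmax⟩ := hcomp.exists_isMaxOn ⟨z₀, subset_closure hz₀⟩ hGc
  have hz₁max : ∀ z ∈ closure Ω, g z + δ * ‖z‖ ^ 2 ≤ g z₁ + δ * ‖z₁‖ ^ 2 := fun z hz => hmax hz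
  have h1 : g z₀ ≤ g z₁ + δ * ‖z₁‖ ^ 2 := by
    have := hz₁max z₀ (subset_closure hz₀)
    have h2 : 0 ≤ δ * ‖z₀‖ ^ 2 := by positivity
    linarith
  have h2 := hbound z₁ hz₁
  have hg1 : 0 < g z₁ := by nlinarith [mul_pos hδpos (pow_pos hRpos 2)]
  have hz₁Ω : z₁ ∈ Ω := by
    by_contra hnot
    have : z₁ ∈ frontier Ω := by
      rw [hΩ.frontier_eq]
      exact ⟨hz₁, hnot⟩
    have := hfr z₁ this
    linarith
  obtain ⟨hC, hl⟩ := hin z₁ hz₁Ω hg1
  have hq : ContDiffAt ℝ 2 (fun u : ℂ => δ * ‖u‖ ^ 2) z₁ :=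
    (contDiff_const.mul (contDiff_norm_sq ℝ)).contDiffAt
  have hG : ContDiffAt ℝ 2 (fun u => g u + δ * ‖u‖ ^ 2) z₁ := hC.add hq
  have hloc : IsLocalMax (fun u => g u + δ * ‖u‖ ^ 2) z₁ := by
    filter_upwards [hΩ.mem_nhds hz₁Ω] with z hz
    exact hz₁max z (subset_closure hz)
  have h3 := (hLoc _ z₁ hG hloc).2.2
  rw [lap_add g (fun u => δ * ‖u‖ ^ 2) z₁ hC hq, lap_normSq] at h3
  linarith

end Pool.MP_31392c_an
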