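import Mathlib
import Pool.Agent.Lib.MP_31392c_an.Full.SpecD
import Pool.Agent.Lib.MP_31392c_an.SlogA
import Pool.Agent.Lib.MP_31392c_an.SlogB

/-!
# MP_31392c_an full proof: the logarithmic potential of a continuous density is `C¹`
-/

set_option autoImplicit false

open MeasureTheory Set Filter Topology Metric

namespace Pool.MP_31392c_an

namespace NewtC1

/-- local integrability of `1/‖ζ‖` in the plane -/
theorem inv_norm_ball (R : ℝ) : IntegrableOn (fun w : ℂ => ‖w‖⁻¹) (Metric.ball 0 R) := by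
  rw [integrableOn_fun_norm_addHaar (volume : Measure ℂ) (f := fun y : ℝ => y⁻¹),
    Complex.finrank_real_complex]
  have h1 : IntegrableOn (fun _ : ℝ => (1 : ℝ)) (Ioo 0 R) := by
    refine integrableOn_const ?_ ?_
    · rw [Real.volume_Ioo]
      exact ENNReal.ofReal_ne_top
    · simp
  refine h1.congr_fun ?_ measurableSet_Ioo
  intro y hy
  have : y ≠ 0 := hy.1.ne'
  simp [this]

theorem vf_zero (ε : ℝ) (w z : ℂ) : vf ε w z = vf ε 0 (z - w) := by
  unfold vf
  rw [sub_zero]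

theorem norm_vf (ε : ℝ) (ζ : ℂ) : ‖vf ε 0 ζ‖ = ‖ζ‖ / (max ‖ζ‖ ε) ^ 2 := by
  unfold vf
  rw [sub_zero, norm_mul, Complex.norm_real, Real.norm_of_nonneg (by positivity)]
  ring

theorem norm_vf_le {ε : ℝ} (hε : 0 ≤ ε) (ζ : ℂ) : ‖vf ε 0 ζ‖ ≤ ‖ζ‖⁻¹ := by
  rw [norm_vf]
  rcases eq_or_lt_of_le (norm_nonneg ζ) with h | h
  · rw [← h]
    simp
  · have h1 : ‖ζ‖ ≤ max ‖ζ‖ ε := le_max_left _ _
    calc ‖ζ‖ / (max ‖ζ‖ ε) ^ 2 ≤ ‖ζ‖ / ‖ζ‖ ^ 2 := by gcongr
      _ = ‖ζ‖⁻¹ := by field_simp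

theorem norm_vf_le' {ε : ℝ} (hε : 0 < ε) (ζ : ℂ) : ‖vf ε 0 ζ‖ ≤ ε⁻¹ := by
  rw [norm_vf]
  have h0 : 0 < max ‖ζ‖ ε := lt_max_of_lt_right hε
  have h1 : ‖ζ‖ ≤ max ‖ζ‖ ε := le_max_left _ _
  have h2 : ε ≤ max ‖ζ‖ ε := le_max_right _ _
  calc ‖ζ‖ / (max ‖ζ‖ ε) ^ 2 ≤ max ‖ζ‖ ε / (max ‖ζ‖ ε) ^ 2 := by gcongr
    _ = (max ‖ζ‖ ε)⁻¹ := by field_simp
    _ ≤ ε⁻¹ := by gcongr

theorem vf_eq {ε : ℝ} {ζ : ℂ} (h : ε ≤ ‖ζ‖) : vf ε 0 ζ = vf 0 0 ζ := by
  unfold vf
  rw [sub_zero, max_eq_left h, max_eq_left (norm_nonneg ζ)]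

theorem diff_le {ε : ℝ} (hε : 0 < ε) (hε1 : ε ≤ 1) (ζ : ℂ) :
    ‖vf ε 0 ζ - vf 0 0 ζ‖ ≤ (Metric.ball (0 : ℂ) 1).indicator (fun w : ℂ => ‖w‖⁻¹) ζ := by
  by_cases h : ε ≤ ‖ζ‖
  · rw [vf_eq h, sub_self, norm_zero]
    exact Set.indicator_nonneg (fun w _ => by positivity) ζ
  · rw [not_le] at h
    have hb : ζ ∈ Metric.ball (0 : ℂ) 1 := by
      rw [mem_ball_zero_iff]
      linarith
    rw [Set.indicator_of_mem hb]
    rcases eq_or_lt_of_le (norm_nonneg ζ) with h0 | h0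
    · have : ζ = 0 := norm_eq_zero.1 h0.symm
      subst this
      simp [vf]
    · have e : vf ε 0 ζ - vf 0 0 ζ = ((1 / ε ^ 2 - 1 / ‖ζ‖ ^ 2 : ℝ) : ℂ) * ζ := by
        unfold vf
        rw [sub_zero, max_eq_right h.le, max_eq_left (norm_nonneg ζ)]
        push_cast
        ring
      rw [e, norm_mul, Complex.norm_real, Real.norm_eq_abs]
      have h1 : 1 / ε ^ 2 ≤ 1 / ‖ζ‖ ^ 2 := by gcongr
      have h2 : 0 < 1 / ε ^ 2 := by positivity
      rw [abs_of_nonpos (by linarith)]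
      calc -(1 / ε ^ 2 - 1 / ‖ζ‖ ^ 2) * ‖ζ‖ ≤ (1 / ‖ζ‖ ^ 2) * ‖ζ‖ := by
            gcongr
            linarith
        _ = ‖ζ‖⁻¹ := by field_simp

theorem meas_vf (ε : ℝ) : Measurable (vf ε 0) := by
  unfold vf
  fun_prop

theorem ind_int : Integrable ((Metric.ball (0 : ℂ) 1).indicator (fun w : ℂ => ‖w‖⁻¹)) :=
  (integrable_indicator_iff measurableSet_ball).2 (inv_norm_ball 1)

theorem diff_int {ε : ℝ} (hε : 0 < ε) (hε1 : ε ≤ 1) :
    Integrable (fun ζ => ‖vf ε 0 ζ - vf 0 0 ζ‖) := by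
  refine ind_int.mono' (((meas_vf ε).sub (meas_vf 0)).norm.aestronglyMeasurable) ?_
  refine Eventually.of_forall fun ζ => ?_
  rw [norm_norm]
  exact diff_le hε hε1 ζ

/-- the regularisation parameters -/
noncomputable def ep (n : ℕ) : ℝ := 1 / ((n : ℝ) + 1)

theorem ep_pos (n : ℕ) : 0 < ep n := by unfold ep; positivity

theorem ep_le (n : ℕ) : ep n ≤ 1 := by
  unfold ep
  rw [div_le_one (by positivity)]
  have : (0 : ℝ) ≤ n := Nat.cast_nonneg n
  linarith

theorem ep_lim : Tendsto ep atTop (𝓝 0) := tendsto_one_div_add_atTop_nhds_zero_nat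

theorem cn_lim : Tendsto (fun n => ∫ ζ, ‖vf (ep n) 0 ζ - vf 0 0 ζ‖) atTop (𝓝 0) := by
  have h := tendsto_integral_of_dominated_convergence
    (F := fun n ζ => ‖vf (ep n) 0 ζ - vf 0 0 ζ‖) (f := fun _ => (0 : ℝ)) (μ := volume)
    ((Metric.ball (0 : ℂ) 1).indicator (fun w : ℂ => ‖w‖⁻¹))
    (fun n => ((meas_vf (ep n)).sub (meas_vf 0)).norm.aestronglyMeasurable) ind_int
    (fun n => Eventually.of_forall fun ζ => by
      rw [norm_norm]
      exact diff_le (ep_pos n) (ep_le n) ζ)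
    (Eventually.of_forall fun ζ => by
      by_cases h0 : ζ = 0
      · subst h0
        refine tendsto_const_nhds.congr fun n => ?_
        simp [vf]
      · have hp : 0 < ‖ζ‖ := norm_pos_iff.2 h0
        refine (tendsto_const_nhds (x := (0 : ℝ))).congr' ?_
        filter_upwards [ep_lim.eventually (Iio_mem_nhds hp)] with n hn
        rw [vf_eq (le_of_lt hn), sub_self, norm_zero])
  simpa using h

variable {ρ : ℂ → ℝ}

theorem exB (hρ : Continuous ρ) (hc : HasCompactSupport ρ) : ∃ B, 0 ≤ B ∧ ∀ w, |ρ w| ≤ B := by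
  obtain ⟨B, hB⟩ := hρ.bounded_above_of_compact_support hc
  exact ⟨B, (norm_nonneg _).trans (hB 0), hB⟩

/-- the product of `ρ` with a function which is integrable on balls is integrable -/
theorem int_mul (hρ : Continuous ρ) (hc : HasCompactSupport ρ) (f : ℂ → ℝ)
    (hf : ∀ R : ℝ, IntegrableOn f (Metric.closedBall 0 R)) :
    Integrable (fun w => f w * ρ w) := by
  obtain ⟨B, hB0, hB⟩ := exB hρ hc
  obtain ⟨R, hR⟩ := (hc.isCompact.isBounded).subset_closedBall (0 : ℂ)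
  have h1 : IntegrableOn (fun w => f w * ρ w) (Metric.closedBall 0 R) :=
    (hf R).mul_bdd hρ.aestronglyMeasurable (c := B) (Eventually.of_forall hB)
  rw [← integrable_indicator_iff measurableSet_closedBall] at h1
  refine h1.congr (Eventually.of_forall fun w => ?_)
  by_cases hw : w ∈ Metric.closedBall (0 : ℂ) R
  · rw [Set.indicator_of_mem hw]
  · rw [Set.indicator_of_notMem hw]
    have : ρ w = 0 := by
      by_contra h0
      exact hw (hR (subset_tsupport _ h0))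
    show 0 = f w * ρ w
    rw [this, mul_zero]

theorem int_inv (z : ℂ) (R : ℝ) :
    IntegrableOn (fun w : ℂ => ‖z - w‖⁻¹) (Metric.closedBall 0 R) := by
  have h2 := ((Measure.measurePreserving_sub_left (volume : Measure ℂ) z).integrableOn_comp_preimage
    (measurableEmbedding_subLeft z)).2 (inv_norm_ball (R + ‖z‖ + 1))
  refine h2.mono_set ?_
  intro w hw
  rw [mem_closedBall_zero_iff] at hw
  show z - w ∈ Metric.ball (0 : ℂ) _
  rw [mem_ball_zero_iff]
  calc ‖z - w‖ ≤ ‖z‖ + ‖w‖ := norm_sub_le _ _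
    _ < R + ‖z‖ + 1 := by linarith

theorem slog_abs {ε s : ℝ} (hε : 0 < ε) (hε1 : ε ≤ 1) (hs : 0 < s) : |slog ε s| ≤ |Real.log s| := by
  by_cases h : s ≤ ε
  · have h1 := log_le_slog hε hs
    have h2 := slog_le_log hε hs.le h le_rfl
    have h3 : Real.log ε ≤ 0 := Real.log_nonpos hε.le hε1
    rw [abs_of_nonpos (by linarith), abs_of_nonpos (by linarith)]
    linarith
  · unfold slog
    rw [if_neg h]

/-- the gradient of the regularised potential -/
noncomputable def Gr (ρ : ℂ → ℝ) (ε : ℝ) (z : ℂ) : ℂ →L[ℝ] ℝ :=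
  ∫ w, ρ w • innerSL ℝ (vf ε w z)

theorem Gr_meas (hρ : Continuous ρ) (ε : ℝ) (z : ℂ) :
    AEStronglyMeasurable (fun w => ρ w • innerSL ℝ (vf ε w z)) (volume : Measure ℂ) := by
  refine hρ.aestronglyMeasurable.smul ?_
  refine (innerSL ℝ).continuous.comp_aestronglyMeasurable ?_
  have : (fun w => vf ε w z) = fun w => vf ε 0 (z - w) := by
    funext w
    exact vf_zero ε w z
  rw [this]
  exact ((meas_vf ε).comp (measurable_const.sub measurable_id)).aestronglyMeasurable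

theorem Gr_int (hρ : Continuous ρ) (hc : HasCompactSupport ρ) {ε : ℝ} (hε : 0 ≤ ε) (z : ℂ) :
    Integrable (fun w => ρ w • innerSL ℝ (vf ε w z)) := by
  have h1 := (int_mul hρ hc _ (int_inv z)).norm
  refine h1.mono' (Gr_meas hρ ε z) (Eventually.of_forall fun w => ?_)
  rw [norm_smul, innerSL_apply_norm, vf_zero, norm_mul, norm_inv, norm_norm, mul_comm]
  exact mul_le_mul_of_nonneg_right (norm_vf_le hε _) (norm_nonneg _)

theorem slog_int (hρ : Continuous ρ) (hc : HasCompactSupport ρ) {ε : ℝ} (hε : 0 < ε) (z : ℂ) :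
    Integrable (fun w => slog ε ‖z - w‖ * ρ w) := by
  have hcont : Continuous fun w : ℂ => slog ε ‖z - w‖ := by
    have h := (contDiff_slog hε z).continuous
    have e : (fun w : ℂ => slog ε ‖z - w‖) = fun w : ℂ => slog ε ‖w - z‖ := by
      funext w
      rw [norm_sub_rev]
    rw [e]
    exact h
  exact int_mul hρ hc _ fun R => hcont.continuousOn.integrableOn_compact (isCompact_closedBall _ _)

theorem hasF (hρ : Continuous ρ) (hc : HasCompactSupport ρ) {ε : ℝ} (hε : 0 < ε) (z : ℂ) :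
    HasFDerivAt (fun z => ∫ w, slog ε ‖z - w‖ * ρ w) (Gr ρ ε z) z := by
  obtain ⟨B, hB0, hB⟩ := exB hρ hc
  have hint : Integrable (fun w => ε⁻¹ * ‖ρ w‖) := ((hρ.integrable_of_hasCompactSupport hc).norm).const_mul _
  refine hasFDerivAt_integral_of_dominated_of_fderiv_le (F := fun z w => slog ε ‖z - w‖ * ρ w)
    (F' := fun z w => ρ w • innerSL ℝ (vf ε w z)) (s := Set.univ) (bound := fun w => ε⁻¹ * ‖ρ w‖)
    Filter.univ_mem ?_ (slog_int hρ hc hε z) (Gr_meas hρ ε z) ?_ hint ?_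
  · exact Eventually.of_forall fun x => (slog_int hρ hc hε x).aestronglyMeasurable
  · refine Eventually.of_forall fun w x _ => ?_
    rw [norm_smul, innerSL_apply_norm, vf_zero, mul_comm]
    exact mul_le_mul_of_nonneg_right (norm_vf_le' hε _) (norm_nonneg _)
  · refine Eventually.of_forall fun w x _ => ?_
    exact (hasFDerivAt_slog hε w x).mul_const (ρ w)

theorem Gr_cont (hρ : Continuous ρ) (hc : HasCompactSupport ρ) {ε : ℝ} (hε : 0 < ε) :
    Continuous (Gr ρ ε) := by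
  have hint : Integrable (fun w => ε⁻¹ * ‖ρ w‖) := ((hρ.integrable_of_hasCompactSupport hc).norm).const_mul _
  refine continuous_of_dominated (bound := fun w => ε⁻¹ * ‖ρ w‖) (fun z => Gr_meas hρ ε z) ?_ hint ?_
  · intro z
    refine Eventually.of_forall fun w => ?_
    rw [norm_smul, innerSL_apply_norm, vf_zero, mul_comm]
    exact mul_le_mul_of_nonneg_right (norm_vf_le' hε _) (norm_nonneg _)
  · refine Eventually.of_forall fun w => ?_
    exact ((innerSL ℝ).continuous.comp (continuous_vf hε w)).const_smul (ρ w)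

theorem Gr_unif (hρ : Continuous ρ) (hc : HasCompactSupport ρ) :
    TendstoUniformly (fun n z => Gr ρ (ep n) z) (Gr ρ 0) atTop := by
  obtain ⟨B, hB0, hB⟩ := exB hρ hc
  have key : ∀ n z, ‖Gr ρ (ep n) z - Gr ρ 0 z‖ ≤ B * ∫ ζ, ‖vf (ep n) 0 ζ - vf 0 0 ζ‖ := by
    intro n z
    have hd := diff_int (ep_pos n) (ep_le n)
    unfold Gr
    rw [← integral_sub (Gr_int hρ hc (ep_pos n).le z) (Gr_int hρ hc le_rfl z)]
    have e : ∫ ζ, ‖vf (ep n) 0 ζ - vf 0 0 ζ‖ = ∫ w, ‖vf (ep n) 0 (z - w) - vf 0 0 (z - w)‖ :=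
      (integral_sub_left_eq_self (fun ζ => ‖vf (ep n) 0 ζ - vf 0 0 ζ‖) volume z).symm
    rw [e, ← integral_const_mul]
    refine norm_integral_le_of_norm_le ?_ (Eventually.of_forall fun w => ?_)
    · exact (hd.comp_sub_left z).const_mul B
    · rw [← smul_sub, ← map_sub, norm_smul, innerSL_apply_norm, vf_zero, vf_zero 0]
      exact mul_le_mul_of_nonneg_right (hB w) (norm_nonneg _)
  rw [Metric.tendstoUniformly_iff]
  intro δ hδ
  have hl : Tendsto (fun n => B * ∫ ζ, ‖vf (ep n) 0 ζ - vf 0 0 ζ‖) atTop (𝓝 0) := by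
    have := cn_lim.const_mul B
    rwa [mul_zero] at this
  filter_upwards [hl.eventually (Iio_mem_nhds hδ)] with n hn z
  rw [dist_comm, dist_eq_norm]
  exact lt_of_le_of_lt (key n z) hn

theorem pt_lim (hρ : Continuous ρ) (hc : HasCompactSupport ρ) (z : ℂ) :
    Tendsto (fun n => ∫ w, slog (ep n) ‖z - w‖ * ρ w) atTop (𝓝 (Nw ρ z)) := by
  have hlog : ∀ R : ℝ, IntegrableOn (fun w : ℂ => Real.log ‖z - w‖) (Metric.closedBall 0 R) := by
    intro R
    have h := integrableOn_log_disc z 0 R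
    refine h.congr_fun (fun w _ => ?_) measurableSet_closedBall
    simp only
    rw [norm_sub_rev]
  have hint := (int_mul hρ hc _ hlog).norm
  refine tendsto_integral_of_dominated_convergence (fun w => ‖Real.log ‖z - w‖ * ρ w‖)
    (fun n => (slog_int hρ hc (ep_pos n) z).aestronglyMeasurable) hint ?_ ?_
  · intro n
    have : ∀ᵐ w : ℂ, w ≠ z := by
      simp [ae_iff]
    filter_upwards [this] with w hw
    have hp : 0 < ‖z - w‖ := norm_pos_iff.2 (sub_ne_zero.2 hw.symm)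
    rw [norm_mul, norm_mul]
    exact mul_le_mul_of_nonneg_right (slog_abs (ep_pos n) (ep_le n) hp) (norm_nonneg _)
  · have : ∀ᵐ w : ℂ, w ≠ z := by
      simp [ae_iff]
    filter_upwards [this] with w hw
    have hp : 0 < ‖z - w‖ := norm_pos_iff.2 (sub_ne_zero.2 hw.symm)
    refine tendsto_const_nhds.congr' ?_
    filter_upwards [ep_lim.eventually (Iio_mem_nhds hp)] with n hn
    unfold slog
    rw [if_neg (not_le.2 hn)]

theorem hasN (hρ : Continuous ρ) (hc : HasCompactSupport ρ) (z : ℂ) :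
    HasFDerivAt (Nw ρ) (Gr ρ 0 z) z :=
  hasFDerivAt_of_tendstoUniformly (Gr_unif hρ hc)
    (fun n => fun x => hasF hρ hc (ep_pos n) x) (fun x => pt_lim hρ hc x) z

theorem Gr0_cont (hρ : Continuous ρ) (hc : HasCompactSupport ρ) : Continuous (Gr ρ 0) :=
  (Gr_unif hρ hc).continuous (Frequently.of_forall fun n => Gr_cont hρ hc (ep_pos n))

theorem Gr_apply (hρ : Continuous ρ) (hc : HasCompactSupport ρ) (z v : ℂ) :
    Gr ρ 0 z v = ∫ w, ((z - w).re * v.re + (z - w).im * v.im) / ‖z - w‖ ^ 2 * ρ w := by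
  unfold Gr
  rw [ContinuousLinearMap.integral_apply (Gr_int hρ hc le_rfl z)]
  congr 1
  funext w
  rw [ContinuousLinearMap.smul_apply, innerSL_apply_apply, smul_eq_mul, vf, max_eq_left (norm_nonneg _)]
  rw [← Complex.real_smul, real_inner_smul_left, Complex.inner]
  simp only [Complex.mul_re, Complex.conj_re, Complex.conj_im]
  ring

end NewtC1

theorem s_NewtC1 : NewtC1 := by
  intro ρ hρ hc
  refine ⟨?_, ?_, ?_⟩
  · rw [contDiff_one_iff_hasFDerivAt]
    exact ⟨NewtC1.Gr ρ 0, NewtC1.Gr0_cont hρ hc, NewtC1.hasN hρ hc⟩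
  · intro z
    unfold dX
    rw [(NewtC1.hasN hρ hc z).fderiv, NewtC1.Gr_apply hρ hc]
    congr 1
    funext w
    simp
  · intro z
    unfold dY
    rw [(NewtC1.hasN hρ hc z).fderiv, NewtC1.Gr_apply hρ hc]
    congr 1
    funext w
    simp

end Pool.MP_31392c_an
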