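import Mathlib
import Pool.Agent.Lib.MP_31392c_an.Full.SpecD
import Pool.Agent.Lib.MP_31392c_an.DualA

/-!
# MP_31392c_an full proof: NewtC2 (the logarithmic potential of a `C¹` density is `C²`)
-/

set_option autoImplicit false

open MeasureTheory Set Filter Topology Metric
open scoped Convolution

namespace Pool.MP_31392c_an

/-- first kernel -/
private noncomputable def nk1 (z : ℂ) : ℝ := z.re / ‖z‖ ^ 2

/-- second kernel -/
private noncomputable def nk2 (z : ℂ) : ℝ := z.im / ‖z‖ ^ 2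

private lemma nk_bound (a : ℝ) (z : ℂ) (h : |a| ≤ ‖z‖) :
    ‖a / ‖z‖ ^ 2‖ ≤ 1 * ‖z‖ ^ (-(1 : ℝ)) := by
  rw [one_mul, Real.rpow_neg_one, Real.norm_eq_abs, abs_div, abs_of_nonneg (by positivity : (0:ℝ) ≤ ‖z‖ ^ 2)]
  by_cases hz : ‖z‖ = 0
  · rw [hz]; simp
  · have hz' : 0 < ‖z‖ := lt_of_le_of_ne (norm_nonneg _) (Ne.symm hz)
    rw [div_le_iff₀ (by positivity)]
    have : ‖z‖⁻¹ * ‖z‖ ^ 2 = ‖z‖ := by field_simp
    rw [this]; exact h

private lemma nk_finrank : (1 : ℝ) < (Module.finrank ℝ ℂ : ℝ) := by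
  rw [Complex.finrank_real_complex]; norm_num

private lemma nk_one_le : 1 ≤ Module.finrank ℝ ℂ := by
  rw [Complex.finrank_real_complex]; norm_num

private lemma nk1_loc : LocallyIntegrable nk1 (volume : Measure ℂ) := by
  refine locallyIntegrable_of_norm_le_rpow (C := 1) (α := 1) nk_one_le nk_finrank
    (Eventually.of_forall fun z => nk_bound _ z (Complex.abs_re_le_norm z)) ?_
  have : Measurable nk1 := by unfold nk1; fun_prop
  exact this.aestronglyMeasurable

private lemma nk2_loc : LocallyIntegrable nk2 (volume : Measure ℂ) := by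
  refine locallyIntegrable_of_norm_le_rpow (C := 1) (α := 1) nk_one_le nk_finrank
    (Eventually.of_forall fun z => nk_bound _ z (Complex.abs_im_le_norm z)) ?_
  have : Measurable nk2 := by unfold nk2; fun_prop
  exact this.aestronglyMeasurable

private lemma nkinv_loc :
    LocallyIntegrable (fun z : ℂ => ‖z‖⁻¹) (volume : Measure ℂ) := by
  refine locallyIntegrable_of_norm_le_rpow (C := 1) (α := 1) nk_one_le nk_finrank
    (Eventually.of_forall fun z => ?_) ?_
  · rw [one_mul, Real.rpow_neg_one, Real.norm_eq_abs, abs_of_nonneg (by positivity)]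
  · have : Measurable (fun z : ℂ => ‖z‖⁻¹) := by fun_prop
    exact this.aestronglyMeasurable

private lemma nk_fderiv_eq (f : ℂ → ℝ) (z : ℂ) :
    fderiv ℝ f z = (dX f z) • Complex.reCLM + (dY f z) • Complex.imCLM := by
  ext w
  have hw : w = w.re • (1 : ℂ) + w.im • Complex.I := by
    apply Complex.ext <;> simp
  conv_lhs => rw [hw, map_add, map_smul, map_smul]
  show w.re • fderiv ℝ f z 1 + w.im • fderiv ℝ f z Complex.I =
    fderiv ℝ f z 1 * w.re + fderiv ℝ f z Complex.I * w.im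
  simp only [smul_eq_mul]
  ring

/-- a differentiable function with `C¹` partial derivatives is `C²` -/
private lemma nk_contDiff_two (f : ℂ → ℝ) (hf : Differentiable ℝ f) (hX : ContDiff ℝ 1 (dX f))
    (hY : ContDiff ℝ 1 (dY f)) : ContDiff ℝ 2 f := by
  have h2 : (2 : WithTop ℕ∞) = 1 + 1 := one_add_one_eq_two.symm
  rw [h2, contDiff_succ_iff_fderiv]
  refine ⟨hf, by simp, ?_⟩
  have : fderiv ℝ f = fun z => (dX f z) • Complex.reCLM + (dY f z) • Complex.imCLM := by
    funext z; exact nk_fderiv_eq f z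
  rw [this]
  exact (hX.smul contDiff_const).add (hY.smul contDiff_const)

private lemma nk_conv_eq (k ρ : ℂ → ℝ) (z : ℂ) :
    (∫ w, k (z - w) * ρ w) = (k ⋆[ContinuousLinearMap.mul ℝ ℝ, volume] ρ) z := by
  rw [convolution_def]
  have := integral_sub_left_eq_self (μ := (volume : Measure ℂ)) (fun t => k t * ρ (z - t)) z
  simp only [sub_sub_cancel] at this
  rw [this]
  rfl

private lemma nk_conv_deriv (k ρ : ℂ → ℝ) (hk : LocallyIntegrable k (volume : Measure ℂ))
    (hρ : ContDiff ℝ 1 ρ) (hc : HasCompactSupport ρ) (z v : ℂ) :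
    fderiv ℝ (k ⋆[ContinuousLinearMap.mul ℝ ℝ, volume] ρ) z v =
      ∫ t, k t * fderiv ℝ ρ (z - t) v := by
  rw [(hc.hasFDerivAt_convolution_right (ContinuousLinearMap.mul ℝ ℝ) hk hρ z).fderiv,
    convolution_precompR_apply (ContinuousLinearMap.mul ℝ ℝ) hk (hc.fderiv ℝ)
      (hρ.continuous_fderiv one_ne_zero)]
  rfl

private lemma nk_integrable (k ρ : ℂ → ℝ) (hk : LocallyIntegrable k (volume : Measure ℂ))
    (hρ : ContDiff ℝ 1 ρ) (hc : HasCompactSupport ρ) (z v : ℂ) :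
    Integrable (fun t => k t * fderiv ℝ ρ (z - t) v) := by
  have h1 : Continuous (fun t => fderiv ℝ ρ (z - t) v) :=
    ((hρ.continuous_fderiv one_ne_zero).comp (continuous_const.sub continuous_id)).clm_apply
      continuous_const
  have h2 : HasCompactSupport (fun t => fderiv ℝ ρ (z - t) v) := by
    have h3 : HasCompactSupport (fun t => fderiv ℝ ρ (z - t)) :=
      (hc.fderiv ℝ).comp_homeomorph (Homeomorph.subLeft z)
    refine h3.mono ?_
    intro t ht
    rw [Function.mem_support] at ht ⊢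
    intro h0
    apply ht
    rw [h0]; rfl
  have := hk.integrable_smul_right_of_hasCompactSupport h1 h2
  simpa [smul_eq_mul] using this

/-- the limit field -/
private noncomputable def nkK (t : ℂ) : ℂ := ((1 / ‖t‖ ^ 2 : ℝ) : ℂ) * t

/-- the regularised field -/
private noncomputable def nkE (ε : ℝ) (t : ℂ) : ℂ := ((1 / (max ‖t‖ ε) ^ 2 : ℝ) : ℂ) * t

private lemma nk_lap_eq (ρ : ℂ → ℝ) (hρ : ContDiff ℝ 1 ρ) (hc : HasCompactSupport ρ)
    (z : ℂ) :
    fderiv ℝ (nk1 ⋆[ContinuousLinearMap.mul ℝ ℝ, volume] ρ) z 1 +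
      fderiv ℝ (nk2 ⋆[ContinuousLinearMap.mul ℝ ℝ, volume] ρ) z Complex.I =
      ∫ t, fderiv ℝ ρ (z - t) (nkK t) := by
  rw [nk_conv_deriv nk1 ρ nk1_loc hρ hc, nk_conv_deriv nk2 ρ nk2_loc hρ hc,
    ← integral_add (nk_integrable nk1 ρ nk1_loc hρ hc z 1)
      (nk_integrable nk2 ρ nk2_loc hρ hc z Complex.I)]
  refine integral_congr_ae (Eventually.of_forall fun t => ?_)
  have hK : nkK t = nk1 t • (1 : ℂ) + nk2 t • Complex.I := by
    unfold nkK nk1 nk2
    apply Complex.ext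
    · simp [-Complex.ofReal_div, -Complex.ofReal_pow]; ring
    · simp [-Complex.ofReal_div, -Complex.ofReal_pow]; ring
  show nk1 t * fderiv ℝ ρ (z - t) 1 + nk2 t * fderiv ℝ ρ (z - t) Complex.I =
    fderiv ℝ ρ (z - t) (nkK t)
  rw [hK, map_add, map_smul, map_smul]
  rfl

private lemma nk_ib (ρ : ℂ → ℝ) (hρ : ContDiff ℝ 1 ρ) (hc : HasCompactSupport ρ)
    (z : ℂ) {ε : ℝ} (hε : 0 < ε) :
    ∫ t, fderiv ℝ ρ (z - t) (nkE ε t) = (2 / ε ^ 2) * ∫ w in ball z ε, ρ w := by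
  have h := ib ρ hρ hc z hε
  have h1 := integral_sub_left_eq_self (μ := (volume : Measure ℂ))
    (fun w => fderiv ℝ ρ w (vf ε z w)) z
  rw [h] at h1
  have h2 : (fun t : ℂ => fderiv ℝ ρ (z - t) (vf ε z (z - t))) =
      fun t => -(fderiv ℝ ρ (z - t) (nkE ε t)) := by
    funext t
    have : vf ε z (z - t) = -(nkE ε t) := by
      unfold vf nkE
      have e1 : z - t - z = -t := by ring
      rw [e1, norm_neg, mul_neg]
    rw [this, map_neg]
  rw [h2, integral_neg] at h1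
  linarith

private lemma nk_ball_tendsto (ρ : ℂ → ℝ) (hρ : Continuous ρ) (z : ℂ) {η : ℝ} (hη : 0 < η) :
    ∃ δ > 0, ∀ ε : ℝ, 0 < ε → ε ≤ δ →
      |(2 / ε ^ 2) * (∫ w in ball z ε, ρ w) - 2 * Real.pi * ρ z| ≤ 2 * Real.pi * η := by
  obtain ⟨δ, hδ, hδ'⟩ := Metric.continuousAt_iff.1 (hρ.continuousAt (x := z)) η hη
  refine ⟨δ, hδ, fun ε hε hεδ => ?_⟩
  have hvol := volume_ball_toReal z hε
  have hfin : volume (ball z ε) < ⊤ := measure_ball_lt_top
  have h1 : ‖∫ w in ball z ε, (ρ w - ρ z)‖ ≤ η * (volume (ball z ε)).toReal := by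
    refine norm_setIntegral_le_of_norm_le_const hfin fun w hw => ?_
    have := hδ' (lt_of_lt_of_le (mem_ball.1 hw) hεδ)
    rw [Real.dist_eq] at this
    exact this.le
  have h2 : ∫ w in ball z ε, (ρ w - ρ z) =
      (∫ w in ball z ε, ρ w) - (Real.pi * ε ^ 2) * ρ z := by
    rw [integral_sub (integrableOn_ball hρ z ε) (integrableOn_const hfin.ne), setIntegral_const]
    rw [Measure.real, hvol, smul_eq_mul]
  rw [h2, Real.norm_eq_abs, hvol] at h1
  have hε2 : 0 < ε ^ 2 := by positivity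
  have h3 : (2 / ε ^ 2) * (∫ w in ball z ε, ρ w) - 2 * Real.pi * ρ z =
      (2 / ε ^ 2) * ((∫ w in ball z ε, ρ w) - (Real.pi * ε ^ 2) * ρ z) := by
    field_simp
  rw [h3, abs_mul, abs_of_pos (by positivity)]
  calc 2 / ε ^ 2 * |(∫ w in ball z ε, ρ w) - Real.pi * ε ^ 2 * ρ z|
      ≤ 2 / ε ^ 2 * (η * (Real.pi * ε ^ 2)) := by gcongr
    _ = 2 * Real.pi * η := by field_simp

private lemma nk_tendsto (ρ : ℂ → ℝ) (hρ : ContDiff ℝ 1 ρ) (hc : HasCompactSupport ρ) (z : ℂ) :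
    Tendsto (fun n : ℕ => ∫ t, fderiv ℝ ρ (z - t) (nkE (1 / ((n : ℝ) + 1)) t)) atTop
      (𝓝 (∫ t, fderiv ℝ ρ (z - t) (nkK t))) := by
  have hcd : Continuous (fun t => fderiv ℝ ρ (z - t)) :=
    (hρ.continuous_fderiv one_ne_zero).comp (continuous_const.sub continuous_id)
  have hcs : HasCompactSupport (fun t => ‖fderiv ℝ ρ (z - t)‖) :=
    ((hc.fderiv ℝ).comp_homeomorph (Homeomorph.subLeft z)).norm
  have hbound : Integrable (fun t => ‖fderiv ℝ ρ (z - t)‖ * ‖t‖⁻¹) := by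
    have := nkinv_loc.integrable_smul_left_of_hasCompactSupport hcd.norm hcs
    simpa [smul_eq_mul] using this
  refine tendsto_integral_of_dominated_convergence _ ?_ hbound ?_ ?_
  · intro n
    have hE : Continuous (nkE (1 / ((n : ℝ) + 1))) := by
      have hε : (0 : ℝ) < 1 / ((n : ℝ) + 1) := by positivity
      have := IB_vf_continuous hε 0
      have e : vf (1 / ((n : ℝ) + 1)) 0 = nkE (1 / ((n : ℝ) + 1)) := by
        funext t; simp [vf, nkE]
      rwa [e] at this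
    exact (hcd.clm_apply hE).aestronglyMeasurable
  · intro n
    refine Eventually.of_forall fun t => ?_
    have hε : (0 : ℝ) < 1 / ((n : ℝ) + 1) := by positivity
    refine (ContinuousLinearMap.le_opNorm _ _).trans ?_
    refine mul_le_mul_of_nonneg_left ?_ (norm_nonneg _)
    unfold nkE
    rw [norm_mul, Complex.norm_real, Real.norm_eq_abs, abs_of_nonneg (by positivity)]
    by_cases ht : ‖t‖ = 0
    · rw [ht]; simp
    · have ht' : 0 < ‖t‖ := lt_of_le_of_ne (norm_nonneg _) (Ne.symm ht)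
      have hm : ‖t‖ ≤ max ‖t‖ (1 / ((n : ℝ) + 1)) := le_max_left _ _
      calc 1 / max ‖t‖ (1 / ((n : ℝ) + 1)) ^ 2 * ‖t‖
          ≤ 1 / ‖t‖ ^ 2 * ‖t‖ := by gcongr
        _ = ‖t‖⁻¹ := by field_simp
  · have hne : ∀ᵐ t : ℂ, t ≠ 0 := by
      rw [ae_iff]; simp
    filter_upwards [hne] with t ht
    have ht' : 0 < ‖t‖ := norm_pos_iff.2 ht
    refine tendsto_const_nhds.congr' ?_
    obtain ⟨N, hN⟩ := exists_nat_one_div_lt ht'
    filter_upwards [eventually_ge_atTop N] with n hn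
    have h1 : 1 / ((n : ℝ) + 1) ≤ ‖t‖ := by
      refine le_trans ?_ hN.le
      have : (N : ℝ) ≤ n := by exact_mod_cast hn
      gcongr
    have : nkE (1 / ((n : ℝ) + 1)) t = nkK t := by
      unfold nkE nkK
      rw [max_eq_left h1]
    rw [this]

theorem s_NewtC2 : NewtC1 → NewtC2 := by
  intro hN ρ hρ hc
  obtain ⟨h1, hX, hY⟩ := hN ρ hρ.continuous hc
  have eX : dX (Nw ρ) = (nk1 ⋆[ContinuousLinearMap.mul ℝ ℝ, volume] ρ) := by
    funext z
    rw [hX z, ← nk_conv_eq]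
    rfl
  have eY : dY (Nw ρ) = (nk2 ⋆[ContinuousLinearMap.mul ℝ ℝ, volume] ρ) := by
    funext z
    rw [hY z, ← nk_conv_eq]
    rfl
  have cX : ContDiff ℝ 1 (dX (Nw ρ)) := by
    rw [eX]
    exact hc.contDiff_convolution_right (n := 1) (ContinuousLinearMap.mul ℝ ℝ) nk1_loc hρ
  have cY : ContDiff ℝ 1 (dY (Nw ρ)) := by
    rw [eY]
    exact hc.contDiff_convolution_right (n := 1) (ContinuousLinearMap.mul ℝ ℝ) nk2_loc hρ
  refine ⟨nk_contDiff_two _ (h1.differentiable one_ne_zero) cX cY, fun z => ?_⟩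
  have e1 : lap (Nw ρ) z = ∫ t, fderiv ℝ ρ (z - t) (nkK t) := by
    rw [← nk_lap_eq ρ hρ hc z]
    unfold lap
    rw [eX, eY]
    rfl
  rw [e1]
  refine tendsto_nhds_unique (nk_tendsto ρ hρ hc z) ?_
  rw [Metric.tendsto_atTop]
  intro η hη
  obtain ⟨δ, hδ, hδ'⟩ := nk_ball_tendsto ρ hρ.continuous z (η := η / (4 * Real.pi)) (by positivity)
  obtain ⟨N, hNn⟩ := exists_nat_one_div_lt hδ
  refine ⟨N, fun n hn => ?_⟩
  have hε : (0 : ℝ) < 1 / ((n : ℝ) + 1) := by positivity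
  have hle : 1 / ((n : ℝ) + 1) ≤ δ := by
    refine le_trans ?_ hNn.le
    have : (N : ℝ) ≤ n := by exact_mod_cast hn
    gcongr
  rw [nk_ib ρ hρ hc z hε, Real.dist_eq]
  refine lt_of_le_of_lt (hδ' _ hε hle) ?_
  have : 2 * Real.pi * (η / (4 * Real.pi)) = η / 2 := by field_simp; ring
  rw [this]; linarith

end Pool.MP_31392c_an
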