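import Mathlib
import Pool.Agent.Lib.MP_31392c_an.Full.SpecC

/-!
# MP_31392c_an full proof: Poinc
-/

set_option autoImplicit false

open MeasureTheory Set Filter Topology Metric

namespace Pool.MP_31392c_an

theorem s_Poinc : Poinc := by
  intro p q h
  let ω : ℂ → ℂ →L[ℝ] ℝ := fun z => p z • Complex.reCLM + q z • Complex.imCLM
  have hω1 : ∀ z ∈ ball (0 : ℂ) 1, ContDiffAt ℝ 1 ω z := by
    intro z hz
    obtain ⟨hp, hq, -⟩ := h z hz
    exact (hp.smul contDiffAt_const).add (hq.smul contDiffAt_const)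
  have hωd : ∀ z ∈ ball (0 : ℂ) 1, HasFDerivAt ω
      ((fderiv ℝ p z).smulRight Complex.reCLM + (fderiv ℝ q z).smulRight Complex.imCLM) z := by
    intro z hz
    obtain ⟨hp, hq, -⟩ := h z hz
    have h1 := (hp.differentiableAt (by norm_num)).hasFDerivAt.smul_const Complex.reCLM
    have h2 := (hq.differentiableAt (by norm_num)).hasFDerivAt.smul_const Complex.imCLM
    exact h1.add h2
  have hdec : ∀ (L : ℂ →L[ℝ] ℝ) (x : ℂ), L x = x.re * L 1 + x.im * L Complex.I := by
    intro L x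
    have hx : x = x.re • (1 : ℂ) + x.im • Complex.I := by
      apply Complex.ext <;> simp
    conv_lhs => rw [hx]
    rw [map_add, map_smul, map_smul, smul_eq_mul, smul_eq_mul]
  obtain ⟨M, hM⟩ := (convex_ball (0 : ℂ) 1).exists_forall_hasFDerivAt_of_fderiv_symmetric
    isOpen_ball (ω := ω)
    (fun z hz => ((hω1 z hz).differentiableAt (by norm_num)).differentiableWithinAt) (by
      intro z hz x y
      obtain ⟨hp, hq, hpq⟩ := h z hz
      rw [(hωd z hz).fderiv]
      have e : ∀ u v : ℂ, ((fderiv ℝ p z).smulRight Complex.reCLM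
          + (fderiv ℝ q z).smulRight Complex.imCLM) u v
          = fderiv ℝ p z u * v.re + fderiv ℝ q z u * v.im := by
        intro u v
        simp
      rw [e, e, hdec (fderiv ℝ p z) x, hdec (fderiv ℝ p z) y, hdec (fderiv ℝ q z) x,
        hdec (fderiv ℝ q z) y]
      have hpq' : fderiv ℝ p z Complex.I = fderiv ℝ q z 1 := hpq
      rw [hpq']
      ring)
  refine ⟨M, fun z hz => ⟨?_, ?_, ?_⟩⟩
  · have h2 : ContDiffAt ℝ ((1 : ℕ) + 1) M z := by
      rw [contDiffAt_succ_iff_hasFDerivAt]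
      exact ⟨ω, ⟨ball 0 1, isOpen_ball.mem_nhds hz, hM⟩, hω1 z hz⟩
    have e2 : (((1 : ℕ) : WithTop ℕ∞) + 1) = 2 := by norm_num
    rw [e2] at h2
    exact h2
  · unfold dX
    rw [(hM z hz).fderiv]
    simp [ω]
  · unfold dY
    rw [(hM z hz).fderiv]
    simp [ω]

end Pool.MP_31392c_an
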