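import Mathlib
import Pool.Agent.Lib.MP_31392c_an.Full.SpecG

/-!
# MP_31392c_an full proof: PullPot, the potential in the disc coordinate
-/

set_option autoImplicit false

open MeasureTheory Set Filter Topology Metric

namespace Pool.MP_31392c_an

theorem s_PullPot : StarInv → PullPot := by
  intro hSI F φ C V hφ hV hd
  classical
  obtain ⟨-, -, ψ, hψ1, hψ2, -, -⟩ := hSI F φ C hφ
  have hK : IsCompact (tsupport V) := hV.supp
  have hcont : ContinuousOn ψ (tsupport V) := by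
    intro z hz
    have hzF : z ∉ F := fun h => Set.disjoint_left.1 hd hz h
    exact (hψ1 z hzF).2.2.2.1.continuousAt.continuousWithinAt
  set L : Set ℂ := ψ '' tsupport V with hL
  have hLc : IsCompact L := hK.image_of_continuousOn hcont
  have hLD : ∀ w ∈ L, w ≠ 0 ∧ ‖w‖ < 1 := by
    rintro w ⟨z, hz, rfl⟩
    have hzF : z ∉ F := fun h => Set.disjoint_left.1 hd hz h
    exact ⟨(hψ1 z hzF).1, (hψ1 z hzF).2.1⟩
  have h0L : (0 : ℂ) ∈ Lᶜ := fun h => (hLD 0 h).1 rfl
  obtain ⟨ε, hε, hεL⟩ := Metric.isOpen_iff.1 hLc.isClosed.isOpen_compl 0 h0L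
  obtain ⟨r₀, hr₀, hLr⟩ := exists_pos_lt_subset_ball (x := (0 : ℂ)) one_pos hLc.isClosed
    (fun w hw => by
      rw [mem_ball_zero_iff]
      exact (hLD w hw).2)
  let W : ℂ → ℝ := fun ζ => if ζ ≠ 0 ∧ ‖ζ‖ < 1 then V (φ ζ) * ‖deriv φ ζ‖ ^ 2 else 0
  have hW0 : ∀ w, w ∉ L → W w = 0 := by
    intro w hw
    by_cases hD : w ≠ 0 ∧ ‖w‖ < 1
    · have hVw : V (φ w) = 0 := by
        by_contra hne
        apply hw
        refine ⟨φ w, subset_tsupport V hne, (hψ2 w hD.1 hD.2).1⟩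
      simp only [W]
      rw [if_pos hD, hVw, zero_mul]
    · simp only [W]
      rw [if_neg hD]
  refine ⟨W, r₀, ε / 2, ?_, ?_, by positivity, hr₀.1, hr₀.2, ?_, ?_, ?_⟩
  · rw [contDiff_iff_contDiffAt]
    intro ζ
    by_cases hζ : ζ ∈ L
    · obtain ⟨h1, h2⟩ := hLD ζ hζ
      have hopen : IsOpen {w : ℂ | w ≠ 0 ∧ ‖w‖ < 1} :=
        isOpen_ne.inter (isOpen_lt continuous_norm continuous_const)
      have hev : W =ᶠ[𝓝 ζ] fun w => V (φ w) * ‖deriv φ w‖ ^ 2 := by
        filter_upwards [hopen.mem_nhds (show ζ ∈ {w : ℂ | w ≠ 0 ∧ ‖w‖ < 1} from ⟨h1, h2⟩)]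
          with w hw
        simp only [W]
        rw [if_pos hw]
      refine ContDiffAt.congr_of_eventuallyEq ?_ hev
      have hφa : AnalyticAt ℂ φ ζ := (hψ2 ζ h1 h2).2.1
      have hφc : ContDiffAt ℝ 1 φ ζ := (hφa.contDiffAt (n := 1)).restrict_scalars ℝ
      have hφd : ContDiffAt ℝ 1 (deriv φ) ζ := (hφa.deriv.contDiffAt (n := 1)).restrict_scalars ℝ
      have hV1 : ContDiff ℝ 1 V := hV.smooth.of_le (by norm_num)
      exact (hV1.contDiffAt.comp ζ hφc).mul (hφd.norm_sq ℝ)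
    · have hev : W =ᶠ[𝓝 ζ] fun _ => 0 := by
        filter_upwards [hLc.isClosed.isOpen_compl.mem_nhds hζ] with w hw
        exact hW0 w hw
      exact contDiffAt_const.congr_of_eventuallyEq hev
  · intro z
    simp only [W]
    split_ifs
    · exact mul_nonneg (hV.nonneg _) (by positivity)
    · exact le_refl _
  · intro w hw
    apply hW0
    intro hwL
    have := mem_ball_zero_iff.1 (hLr hwL)
    linarith
  · intro w hw
    apply hW0
    apply hεL
    rw [mem_ball_zero_iff]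
    linarith
  · intro ζ h1 h2
    simp only [W]
    rw [if_pos ⟨h1, h2⟩]

end Pool.MP_31392c_an
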