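import Pool.Agent.Lib.MP_31392c_an.Full.SpecS

/-!
# MP_31392c_an: the boundary values of the Schwarz–Christoffel map
-/

set_option autoImplicit false

open MeasureTheory Set Filter Topology Metric

namespace Pool.MP_31392c_an

namespace SCircle

lemma base (s : ℝ) : 1 - Complex.exp (-((s : ℂ) * Complex.I)) =
    ((2 * Real.sin (s / 2) : ℝ) : ℂ) * Complex.exp (((Real.pi - s) / 2 : ℝ) * Complex.I) := by
  have h1 : Complex.exp ((((Real.pi - s) / 2 : ℝ) : ℂ) * Complex.I) =
      Complex.I * Complex.exp (-(((s / 2 : ℝ) : ℂ) * Complex.I)) := by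
    rw [show (((Real.pi - s) / 2 : ℝ) : ℂ) * Complex.I =
      (Real.pi : ℂ) / 2 * Complex.I + -(((s / 2 : ℝ) : ℂ) * Complex.I) by push_cast; ring,
      Complex.exp_add, Complex.exp_pi_div_two_mul_I]
  have h2 : Complex.exp (-((s : ℂ) * Complex.I)) =
      Complex.exp (-(((s / 2 : ℝ) : ℂ) * Complex.I)) * Complex.exp (-(((s / 2 : ℝ) : ℂ) * Complex.I)) := by
    rw [← Complex.exp_add]
    congr 1
    push_cast; ring
  have h3 : (1 : ℂ) = Complex.exp (((s / 2 : ℝ) : ℂ) * Complex.I) *
      Complex.exp (-(((s / 2 : ℝ) : ℂ) * Complex.I)) := by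
    rw [← Complex.exp_add]; simp
  have h4 : ((2 * Real.sin (s / 2) : ℝ) : ℂ) * Complex.I =
      Complex.exp (((s / 2 : ℝ) : ℂ) * Complex.I) - Complex.exp (-(((s / 2 : ℝ) : ℂ) * Complex.I)) := by
    push_cast
    rw [Complex.sin]
    have : (2 : ℂ) * ((Complex.exp (-((s : ℂ) / 2) * Complex.I) - Complex.exp ((s : ℂ) / 2 * Complex.I)) *
        Complex.I / 2) * Complex.I = (Complex.I * Complex.I) *
        (Complex.exp (-((s : ℂ) / 2) * Complex.I) - Complex.exp ((s : ℂ) / 2 * Complex.I)) := by ring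
    rw [this, Complex.I_mul_I, neg_mul]
    ring_nf
  rw [h1, ← mul_assoc, h4, sub_mul, ← h3, ← h2]

lemma fac (s γ : ℝ) (hγ : γ ≠ 0) (h0 : 0 ≤ s) (h1 : s ≤ 2 * Real.pi) :
    (1 - Complex.exp (-((s : ℂ) * Complex.I))) ^ (γ : ℂ) =
      ((|2 * Real.sin (s / 2)| ^ γ : ℝ) : ℂ) *
        Complex.exp ((γ * (Real.pi - s) / 2 : ℝ) * Complex.I) := by
  by_cases hs : Real.sin (s / 2) = 0
  · rw [base, hs]
    simp only [mul_zero, Complex.ofReal_zero, zero_mul, abs_zero]
    rw [Complex.zero_cpow (by exact_mod_cast hγ), Real.zero_rpow hγ]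
    simp
  · have hs0 : s ≠ 0 := by
      rintro rfl
      simp at hs
    have hs1 : s ≠ 2 * Real.pi := by
      rintro rfl
      apply hs
      rw [show 2 * Real.pi / 2 = Real.pi by ring, Real.sin_pi]
    have hs2 : 0 < s := lt_of_le_of_ne h0 (Ne.symm hs0)
    have hs3 : s < 2 * Real.pi := lt_of_le_of_ne h1 hs1
    have hpos : 0 < 2 * Real.sin (s / 2) := by
      have := Real.sin_pos_of_pos_of_lt_pi (x := s / 2) (by linarith) (by linarith)
      linarith
    rw [base, abs_of_pos hpos]
    generalize 2 * Real.sin (s / 2) = r at *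
    have hb : (r : ℂ) * Complex.exp ((((Real.pi - s) / 2 : ℝ) : ℂ) * Complex.I) =
        Complex.exp ((Real.log r : ℂ) + (((Real.pi - s) / 2 : ℝ) : ℂ) * Complex.I) := by
      rw [Complex.exp_add, ← Complex.ofReal_exp, Real.exp_log hpos]
    rw [hb, Complex.cpow_def_of_ne_zero (Complex.exp_ne_zero _), Complex.log_exp]
    · rw [Real.rpow_def_of_pos hpos, Complex.ofReal_exp, ← Complex.exp_add]
      congr 1
      push_cast
      ring
    · simp
      linarith [Real.pi_pos]
    · simp
      linarith [Real.pi_pos]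

lemma tele {N : ℕ} (θ : Fin N → ℝ) (f : ℕ → ℝ) (hf : ∀ m, ∀ h : m < N, f m = θ ⟨m, h⟩) (j : Fin N) :
    ∑ i : Fin N, (if j < i then θ i - pv θ i else 0) = f (N - 1) - f j.val := by
  have h1 : ∀ i : Fin N, (if j < i then θ i - pv θ i else 0) =
      (fun m : ℕ => if j.val < m then f m - f (m - 1) else 0) i.val := by
    intro i
    by_cases hij : j < i
    · have hij' : j.val < i.val := hij
      have hi0 : i.val ≠ 0 := by omega
      rw [if_pos hij]
      simp only [if_pos hij']
      unfold pv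
      rw [if_neg hi0, hf i.val i.isLt, hf (i.val - 1) (by omega)]
    · have hij' : ¬ j.val < i.val := hij
      rw [if_neg hij]
      simp only [if_neg hij']
  rw [Finset.sum_congr rfl (fun i _ => h1 i),
    Fin.sum_univ_eq_sum_range (fun m : ℕ => if j.val < m then f m - f (m - 1) else 0) N]
  have h2 : ∀ M : ℕ, ∑ m ∈ Finset.range (j.val + 1 + M), (if j.val < m then f m - f (m - 1) else 0) =
      f (j.val + M) - f j.val := by
    intro M
    induction M with
    | zero =>
      rw [add_zero, add_zero, sub_self]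
      refine Finset.sum_eq_zero fun m hm => ?_
      rw [Finset.mem_range] at hm
      rw [if_neg (by omega)]
    | succ M ih =>
      rw [show j.val + 1 + (M + 1) = (j.val + 1 + M) + 1 by ring, Finset.sum_range_succ, ih,
        if_pos (by omega), show j.val + 1 + M - 1 = j.val + M by omega,
        show j.val + (M + 1) = j.val + 1 + M by ring]
      ring
  have hj := j.isLt
  obtain ⟨M, hM⟩ : ∃ M, N = j.val + 1 + M := ⟨N - (j.val + 1), by omega⟩
  have h3 := h2 M
  rw [← hM] at h3
  rw [h3, show N - 1 = j.val + M by omega]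

lemma gam_pos {N : ℕ} (θ : Fin N → ℝ) (hθ : Dirs θ) (i : Fin N) : 0 < θ i - pv θ i := by
  unfold pv
  split_ifs with h
  · have h1 := hθ.2 i ⟨N - 1, Nat.sub_lt (Nat.lt_of_le_of_lt (Nat.zero_le _) i.isLt) Nat.one_pos⟩
    linarith
  · have h1 : (⟨i.val - 1, Nat.lt_of_le_of_lt (Nat.sub_le _ _) i.isLt⟩ : Fin N) < i := by
      rw [Fin.lt_def]
      show i.val - 1 < i.val
      omega
    have h2 := hθ.1 h1
    linarith

lemma total {N : ℕ} (hN : 2 ≤ N) (θ : Fin N → ℝ) :
    ∑ i : Fin N, (θ i - pv θ i) = 2 * Real.pi := by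
  have hN0 : 0 < N := by omega
  have h1 : ∀ i : Fin N, θ i - pv θ i = (if (⟨0, hN0⟩ : Fin N) < i then θ i - pv θ i else 0) +
      (if i = (⟨0, hN0⟩ : Fin N) then θ ⟨0, hN0⟩ - pv θ ⟨0, hN0⟩ else 0) := by
    intro i
    by_cases hi : i = (⟨0, hN0⟩ : Fin N)
    · rw [if_pos hi, hi, if_neg (lt_irrefl _), zero_add]
    · have hi' : (⟨0, hN0⟩ : Fin N) < i := by
        rw [Fin.lt_def]
        show 0 < i.val
        rcases Nat.eq_zero_or_pos i.val with h | h
        · exact absurd (Fin.ext h) hi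
        · exact h
      rw [if_neg hi, if_pos hi', add_zero]
  rw [Finset.sum_congr rfl (fun i _ => h1 i), Finset.sum_add_distrib,
    tele θ (fun m => if h : m < N then θ ⟨m, h⟩ else 0) (fun m h => by simp only [dif_pos h])
      ⟨0, hN0⟩, Finset.sum_ite_eq' Finset.univ, if_pos (Finset.mem_univ _)]
  have h2 : N - 1 < N := by omega
  simp only [dif_pos h2, dif_pos hN0]
  unfold pv
  rw [if_pos rfl]
  ring

lemma range {N : ℕ} (τ : Fin N → ℝ) (hτ : Dirs τ) (j : Fin N) (t : ℝ)
    (ht : t ∈ Icc (τ j) (nx τ j)) (i : Fin N) :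
    0 ≤ (if j < i then t - τ i + 2 * Real.pi else t - τ i) ∧
      (if j < i then t - τ i + 2 * Real.pi else t - τ i) ≤ 2 * Real.pi := by
  obtain ⟨h1, h2⟩ := ht
  by_cases hij : j < i
  · rw [if_pos hij]
    have hj1 : j.val + 1 < N := by
      have : j.val < i.val := hij
      have := i.isLt
      omega
    have h3 : nx τ j ≤ τ i := by
      unfold nx
      rw [dif_pos hj1]
      apply hτ.1.monotone
      rw [Fin.le_def]
      show j.val + 1 ≤ i.val
      exact hij
    have h4 := hτ.2 j i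
    constructor <;> linarith
  · rw [if_neg hij]
    have hij' : i ≤ j := not_lt.mp hij
    have h3 : τ i ≤ τ j := hτ.1.monotone hij'
    have h4 : nx τ j ≤ τ i + 2 * Real.pi := by
      unfold nx
      split_ifs with h
      · exact (hτ.2 i ⟨j.val + 1, h⟩).le
      · have h5 : τ ⟨0, Nat.lt_of_le_of_lt (Nat.zero_le _) j.isLt⟩ ≤ τ i := by
          apply hτ.1.monotone
          rw [Fin.le_def]
          exact Nat.zero_le _
        linarith
    constructor <;> linarith

end SCircle

open SCircle in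
theorem s_SCircle : SCircle := by
  intro N hN θ τ C hθ hτ hsum j t ht
  have hpi := Real.pi_pos
  have hpi0 : Real.pi ≠ 0 := Real.pi_ne_zero
  obtain ⟨s, hs⟩ : ∃ s : Fin N → ℝ, s = fun i => if j < i then t - τ i + 2 * Real.pi else t - τ i :=
    ⟨_, rfl⟩
  have hsr : ∀ i, 0 ≤ s i ∧ s i ≤ 2 * Real.pi := by
    intro i
    rw [hs]
    exact range τ hτ j t ht i
  have hexp : ∀ i, Complex.exp (-((t : ℂ) * Complex.I)) * Complex.exp ((τ i : ℂ) * Complex.I) =
      Complex.exp (-((s i : ℂ) * Complex.I)) := by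
    intro i
    rw [← Complex.exp_add, hs]
    beta_reduce
    split_ifs with h
    · rw [show -(((t - τ i + 2 * Real.pi : ℝ) : ℂ) * Complex.I) =
        (-((t : ℂ) * Complex.I) + (τ i : ℂ) * Complex.I) + -(2 * Real.pi * Complex.I) by
          push_cast; ring, Complex.exp_add _ (-(2 * Real.pi * Complex.I)), Complex.exp_neg (2 * Real.pi * Complex.I),
        Complex.exp_two_pi_mul_I]
      simp
    · congr 1
      push_cast; ring
  have hsin : ∀ i, |2 * Real.sin (s i / 2)| = |2 * Real.sin ((t - τ i) / 2)| := by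
    intro i
    rw [hs]
    beta_reduce
    split_ifs with h
    · rw [show (t - τ i + 2 * Real.pi) / 2 = (t - τ i) / 2 + Real.pi by ring, Real.sin_add_pi,
        mul_neg, abs_neg]
    · rfl
  have hg : ∀ i, gam θ i ≠ 0 := fun i => (div_pos (gam_pos θ hθ i) hpi).ne'
  have hgp : ∀ i, gam θ i * Real.pi = θ i - pv θ i := by
    intro i
    unfold gam
    field_simp
  have hprod : ∏ i, (1 - Complex.exp (-((t : ℂ) * Complex.I)) *
      Complex.exp ((τ i : ℂ) * Complex.I)) ^ (gam θ i : ℂ) =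
      ((cm (gam θ) τ t : ℝ) : ℂ) *
        Complex.exp (((∑ i, gam θ i * (Real.pi - s i) / 2 : ℝ) : ℂ) * Complex.I) := by
    have h1 : ∀ i, (1 - Complex.exp (-((t : ℂ) * Complex.I)) *
        Complex.exp ((τ i : ℂ) * Complex.I)) ^ (gam θ i : ℂ) =
        ((|2 * Real.sin ((t - τ i) / 2)| ^ (gam θ i) : ℝ) : ℂ) *
          Complex.exp (((gam θ i * (Real.pi - s i) / 2 : ℝ) : ℂ) * Complex.I) := by
      intro i
      rw [hexp i, fac (s i) (gam θ i) (hg i) (hsr i).1 (hsr i).2, hsin i]
    rw [Finset.prod_congr rfl (fun i _ => h1 i), Finset.prod_mul_distrib, ← Complex.exp_sum]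
    unfold cm
    rw [Complex.ofReal_prod, Complex.ofReal_sum, Finset.sum_mul]
  have hE : t + ∑ i, gam θ i * (Real.pi - s i) / 2 = θ j := by
    have h1 : ∀ i, gam θ i * (Real.pi - s i) / 2 =
        (θ i - pv θ i) * ((Real.pi - t) / (2 * Real.pi)) + gam θ i * τ i * (1 / 2) -
          (if j < i then θ i - pv θ i else 0) := by
      intro i
      have h2 := hgp i
      have h3 : gam θ i = (θ i - pv θ i) / Real.pi := rfl
      rw [hs]
      beta_reduce
      split_ifs with h
      · rw [h3]; field_simp; ring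
      · rw [h3]; field_simp; ring
    rw [Finset.sum_congr rfl (fun i _ => h1 i), Finset.sum_sub_distrib, Finset.sum_add_distrib,
      ← Finset.sum_mul, ← Finset.sum_mul, total hN θ, hsum,
      tele θ (fun m => if h : m < N then θ ⟨m, h⟩ else 0) (fun m h => by simp only [dif_pos h]) j]
    have h2 : N - 1 < N := by omega
    simp only [dif_pos h2, dif_pos j.isLt]
    field_simp
    ring
  unfold scf
  rw [hprod]
  have h1 : (C : ℂ) / Complex.exp (-((t : ℂ) * Complex.I)) =
      (C : ℂ) * Complex.exp ((t : ℂ) * Complex.I) := by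
    rw [Complex.exp_neg, div_inv_eq_mul]
  rw [h1, Complex.ofReal_mul]
  have h2 : Complex.exp ((t : ℂ) * Complex.I) *
      Complex.exp (((∑ i, gam θ i * (Real.pi - s i) / 2 : ℝ) : ℂ) * Complex.I) =
      Complex.exp ((θ j : ℂ) * Complex.I) := by
    rw [← Complex.exp_add, ← add_mul, ← Complex.ofReal_add, hE]
  rw [← h2]
  ring

end Pool.MP_31392c_an
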