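import Pool.Agent.Lib.MP_31392c_an.Full.SpecS

/-!
# MP_31392c_an full proof, SImage: the image is the whole complement
-/

set_option autoImplicit false

open MeasureTheory Set Filter Topology Metric

namespace Pool.MP_31392c_an

namespace SImage

/-- The punctured disc. -/
def D : Set ℂ := {ζ | ζ ≠ 0 ∧ ‖ζ‖ < 1}

/-- The closed punctured disc. -/
def D' : Set ℂ := {ζ | ζ ≠ 0 ∧ ‖ζ‖ ≤ 1}

lemma isOpen_D : IsOpen D := by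
  have h1 : IsOpen {ζ : ℂ | ζ ≠ 0} := isOpen_ne
  have h2 : IsOpen {ζ : ℂ | ‖ζ‖ < 1} := isOpen_lt continuous_norm continuous_const
  exact h1.inter h2

lemma D_subset : D ⊆ D' := fun _ h => ⟨h.1, h.2.le⟩

/-- Open mapping. -/
lemma nhds_image {φ : ℂ → ℂ} (hd : ∀ ζ, ζ ≠ 0 → ‖ζ‖ < 1 → DifferentiableAt ℂ φ ζ)
    (hi : InjOn φ D) {ζ₀ : ℂ} (h0 : ζ₀ ∈ D) {s : Set ℂ} (hs : s ∈ 𝓝 ζ₀) :
    φ '' s ∈ 𝓝 (φ ζ₀) := by
  have hD : D ∈ 𝓝 ζ₀ := isOpen_D.mem_nhds h0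
  have hdiff : DifferentiableOn ℂ φ D := fun ζ hζ => (hd ζ hζ.1 hζ.2).differentiableWithinAt
  have ha : AnalyticAt ℂ φ ζ₀ := hdiff.analyticAt hD
  rcases ha.eventually_constant_or_nhds_le_map_nhds with h1 | h1
  · exfalso
    have h2 : ∀ᶠ z in 𝓝 ζ₀, z = ζ₀ := by
      filter_upwards [h1, hD] with z hz hzD
      exact hi hzD h0 hz
    have h3 : ∀ᶠ z in 𝓝[≠] ζ₀, z = ζ₀ := h2.filter_mono nhdsWithin_le_nhds
    have h4 : ∀ᶠ z in 𝓝[≠] ζ₀, z ≠ ζ₀ := self_mem_nhdsWithin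
    obtain ⟨z, hz1, hz2⟩ := (h3.and h4).exists
    exact hz2 hz1
  · exact h1 (image_mem_map hs)

/-- The map is large near the origin. -/
lemma large {φ : ℂ → ℂ} {C : ℂ} (hC : C ≠ 0)
    (ht : Tendsto (fun ζ => ζ * φ ζ) (𝓝[≠] 0) (𝓝 C)) (R : ℝ) :
    ∃ δ > 0, ∀ ζ : ℂ, ζ ≠ 0 → ‖ζ‖ < δ → R < ‖φ ζ‖ := by
  have hC' : 0 < ‖C‖ := norm_pos_iff.2 hC
  have h1 : ∀ᶠ ζ in 𝓝[≠] (0 : ℂ), ‖C‖ / 2 < ‖ζ * φ ζ‖ :=
    ht.norm.eventually (lt_mem_nhds (by linarith))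
  rw [eventually_nhdsWithin_iff, Metric.eventually_nhds_iff] at h1
  obtain ⟨ε, hε, h2⟩ := h1
  have hR : 0 < |R| + 1 := by positivity
  refine ⟨min ε (‖C‖ / (2 * (|R| + 1))), lt_min hε (by positivity), ?_⟩
  intro ζ hζ hlt
  have h3 := h2 (y := ζ) (by rw [dist_zero_right]; exact hlt.trans_le (min_le_left _ _)) hζ
  have h4 : ‖ζ‖ < ‖C‖ / (2 * (|R| + 1)) := hlt.trans_le (min_le_right _ _)
  rw [lt_div_iff₀ (by positivity)] at h4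
  rw [norm_mul] at h3
  have h5 : 0 < ‖ζ‖ := norm_pos_iff.2 hζ
  have h6 : ‖ζ‖ * (|R| + 1) < ‖ζ‖ * ‖φ ζ‖ := by linarith
  have h7 : |R| + 1 < ‖φ ζ‖ := lt_of_mul_lt_mul_left h6 h5.le
  have h8 := le_abs_self R
  linarith

/-- The image of the closed punctured disc is closed. -/
lemma closed_image {φ : ℂ → ℂ} {C : ℂ} (hC : C ≠ 0) (hc : ContinuousOn φ D')
    (ht : Tendsto (fun ζ => ζ * φ ζ) (𝓝[≠] 0) (𝓝 C)) : IsClosed (φ '' D') := by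
  refine isClosed_of_closure_subset fun z hz => ?_
  obtain ⟨δ, hδ, hlarge⟩ := large hC ht (‖z‖ + 1)
  have hKc : IsCompact {ζ : ℂ | δ ≤ ‖ζ‖ ∧ ‖ζ‖ ≤ 1} := by
    have h1 : IsClosed {ζ : ℂ | δ ≤ ‖ζ‖} := isClosed_le continuous_const continuous_norm
    have h2 : IsCompact (closedBall (0 : ℂ) 1) := isCompact_closedBall 0 1
    have h3 : {ζ : ℂ | δ ≤ ‖ζ‖ ∧ ‖ζ‖ ≤ 1} = closedBall (0 : ℂ) 1 ∩ {ζ : ℂ | δ ≤ ‖ζ‖} := by
      ext ζ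
      simp only [Set.mem_ofPred_eq, Set.mem_inter_iff, mem_closedBall_zero_iff]
      exact and_comm
    rw [h3]
    exact h2.inter_right h1
  have hKD : {ζ : ℂ | δ ≤ ‖ζ‖ ∧ ‖ζ‖ ≤ 1} ⊆ D' := by
    intro ζ hζ
    refine ⟨?_, hζ.2⟩
    rintro rfl
    have := hζ.1
    rw [norm_zero] at this
    linarith
  have hKi : IsClosed (φ '' {ζ : ℂ | δ ≤ ‖ζ‖ ∧ ‖ζ‖ ≤ 1}) :=
    (hKc.image_of_continuousOn (hc.mono hKD)).isClosed
  by_contra hcon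
  have h1 : z ∉ φ '' {ζ : ℂ | δ ≤ ‖ζ‖ ∧ ‖ζ‖ ≤ 1} := fun h => hcon (image_mono hKD h)
  have h2 : (φ '' {ζ : ℂ | δ ≤ ‖ζ‖ ∧ ‖ζ‖ ≤ 1})ᶜ ∩ ball z 1 ∈ 𝓝 z :=
    inter_mem (hKi.isOpen_compl.mem_nhds h1) (ball_mem_nhds z one_pos)
  obtain ⟨w, ⟨hw1, hw2⟩, ζ, hζ, rfl⟩ := mem_closure_iff_nhds.1 hz _ h2
  have h3 : ‖ζ‖ < δ := by
    by_contra h4
    exact hw1 ⟨ζ, ⟨not_lt.1 h4, hζ.2⟩, rfl⟩
  have h4 := hlarge ζ hζ.1 h3
  rw [mem_ball, dist_eq_norm] at hw2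
  have h5 : ‖φ ζ‖ ≤ ‖φ ζ - z‖ + ‖z‖ := by
    have := norm_add_le (φ ζ - z) z
    rwa [sub_add_cancel] at this
  linarith

lemma mem_closure_D {ζ₁ : ℂ} (h : ‖ζ₁‖ = 1) : ζ₁ ∈ closure D := by
  rw [Metric.mem_closure_iff]
  intro ε hε
  obtain ⟨t, ht⟩ : ∃ t, t = min (ε / 2) (1 / 2) := ⟨_, rfl⟩
  have ht0 : 0 < t := by rw [ht]; exact lt_min (by linarith) (by norm_num)
  have ht1 : t ≤ 1 / 2 := by rw [ht]; exact min_le_right _ _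
  have ht2 : t ≤ ε / 2 := by rw [ht]; exact min_le_left _ _
  have hne : ζ₁ ≠ 0 := by
    rintro rfl
    rw [norm_zero] at h
    norm_num at h
  have hn : ‖((1 - t : ℝ) : ℂ)‖ = 1 - t := by
    rw [Complex.norm_real, Real.norm_of_nonneg (by linarith)]
  refine ⟨((1 - t : ℝ) : ℂ) * ζ₁, ⟨?_, ?_⟩, ?_⟩
  · refine mul_ne_zero ?_ hne
    intro h0
    rw [h0, norm_zero] at hn
    linarith
  · rw [norm_mul, hn, h]
    linarith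
  · rw [dist_eq_norm]
    have h1 : ζ₁ - ((1 - t : ℝ) : ℂ) * ζ₁ = (t : ℂ) * ζ₁ := by
      push_cast
      ring
    rw [h1, norm_mul, h, Complex.norm_real, Real.norm_of_nonneg ht0.le]
    linarith

/-- The images of the open punctured disc and of the circle are disjoint. -/
lemma disj {φ : ℂ → ℂ} (hd : ∀ ζ, ζ ≠ 0 → ‖ζ‖ < 1 → DifferentiableAt ℂ φ ζ)
    (hi : InjOn φ D) (hc : ContinuousOn φ D') {ζ₀ ζ₁ : ℂ} (h0 : ζ₀ ∈ D) (h1 : ‖ζ₁‖ = 1)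
    (h : φ ζ₁ = φ ζ₀) : False := by
  have hne : ζ₀ ≠ ζ₁ := by
    rintro rfl
    have := h0.2
    linarith
  obtain ⟨U, V, hU, hV, h0U, h1V, hUV⟩ := t2_separation hne
  have hU' : U ∩ D ∈ 𝓝 ζ₀ := inter_mem (hU.mem_nhds h0U) (isOpen_D.mem_nhds h0)
  have h2 := nhds_image hd hi h0 hU'
  rw [← h] at h2
  have h1D : ζ₁ ∈ D' := by
    refine ⟨?_, h1.le⟩
    rintro rfl
    rw [norm_zero] at h1
    norm_num at h1
  have h3 : ∀ᶠ ζ in 𝓝[D'] ζ₁, φ ζ ∈ φ '' (U ∩ D) := (hc ζ₁ h1D) h2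
  have h4 : ∀ᶠ ζ in 𝓝[D] ζ₁, φ ζ ∈ φ '' (U ∩ D) := h3.filter_mono (nhdsWithin_mono _ D_subset)
  have h5' : ∀ᶠ ζ in 𝓝 ζ₁, ζ ∈ V := hV.mem_nhds h1V
  have h5 : ∀ᶠ ζ in 𝓝[D] ζ₁, ζ ∈ V := h5'.filter_mono nhdsWithin_le_nhds
  have h6 : ∀ᶠ ζ in 𝓝[D] ζ₁, ζ ∈ D := self_mem_nhdsWithin
  have hbot : (𝓝[D] ζ₁).NeBot := mem_closure_iff_nhdsWithin_neBot.1 (mem_closure_D h1)
  obtain ⟨ζ, ⟨ζ', hζ', he⟩, hζV, hζD⟩ := ((h4.and (h5.and h6))).exists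
  have h7 : ζ' = ζ := hi hζ'.2 hζD he
  rw [h7] at hζ'
  exact Set.disjoint_left.1 hUV hζ'.1 hζV

end SImage

open SImage in
theorem s_SImage : SImage := by
  intro F φ C hC hF hd hi hc ht hcirc
  have hi' : InjOn φ D := hi
  have hc' : ContinuousOn φ D' := hc
  have hopen : IsOpen (φ '' D) := by
    rw [isOpen_iff_mem_nhds]
    rintro z ⟨ζ, hζ, rfl⟩
    exact nhds_image hd hi' hζ (isOpen_D.mem_nhds hζ)
  have hunion : φ '' D ∪ F = φ '' D' := by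
    rw [← hcirc, ← image_union]
    congr 1
    ext ζ
    constructor
    · rintro (h | h)
      · exact D_subset h
      · have h' : ‖ζ‖ = 1 := h
        refine ⟨?_, h'.le⟩
        rintro rfl
        rw [norm_zero] at h'
        norm_num at h'
    · rintro ⟨h1, h2⟩
      rcases lt_or_eq_of_le h2 with h3 | h3
      · exact Or.inl ⟨h1, h3⟩
      · exact Or.inr h3
  have hclosed : IsClosed (φ '' D ∪ F) := by
    rw [hunion]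
    exact closed_image hC hc' ht
  have hsub : φ '' D ⊆ Fᶜ := by
    rintro z ⟨ζ, hζ, rfl⟩ hz
    rw [← hcirc] at hz
    obtain ⟨ζ₁, h1, h2⟩ := hz
    exact disj hd hi' hc' hζ h1 h2
  refine Set.Subset.antisymm hsub ?_
  have hhalf : (1 / 2 : ℂ) ∈ D := by
    refine ⟨by norm_num, ?_⟩
    have : ‖(1 / 2 : ℂ)‖ = 1 / 2 := by norm_num
    rw [this]
    norm_num
  refine hF.subset_left_of_subset_union hopen hclosed.isOpen_compl ?_ ?_ ?_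
  · rw [Set.disjoint_left]
    intro z hz hz'
    exact hz' (Or.inl hz)
  · intro z hz
    by_cases h : z ∈ φ '' D
    · exact Or.inl h
    · exact Or.inr fun h' => h'.elim h hz
  · exact ⟨φ (1 / 2), hsub ⟨1 / 2, hhalf, rfl⟩, ⟨1 / 2, hhalf, rfl⟩⟩

end Pool.MP_31392c_an
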