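import Mathlib
import Pool.Agent.Lib.MP_31392c_an.Full.SpecS

/-!
# MP_31392c_an full proof: SInj, regularity and injectivity of the Schwarz–Christoffel map
-/

set_option autoImplicit false

open MeasureTheory Set Filter Topology Metric

namespace Pool.MP_31392c_an

namespace SInj

/-- a linear factor of the map -/
noncomputable def fac (τ : ℝ) (ζ : ℂ) : ℂ := 1 - ζ * Complex.exp ((τ : ℂ) * Complex.I)

lemma fac_re {τ : ℝ} {ζ : ℂ} (h : ‖ζ‖ < 1) : 0 < (fac τ ζ).re := by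
  have h1 : ‖ζ * Complex.exp ((τ : ℂ) * Complex.I)‖ < 1 := by
    rw [norm_mul, Complex.norm_exp_ofReal_mul_I, mul_one]
    exact h
  have h2 := Complex.re_le_norm (ζ * Complex.exp ((τ : ℂ) * Complex.I))
  unfold fac
  rw [Complex.sub_re, Complex.one_re]
  linarith

lemma fac_re' {τ : ℝ} {ζ : ℂ} (h : ‖ζ‖ ≤ 1) : 0 ≤ (fac τ ζ).re := by
  have h1 : ‖ζ * Complex.exp ((τ : ℂ) * Complex.I)‖ ≤ 1 := by
    rw [norm_mul, Complex.norm_exp_ofReal_mul_I, mul_one]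
    exact h
  have h2 := Complex.re_le_norm (ζ * Complex.exp ((τ : ℂ) * Complex.I))
  unfold fac
  rw [Complex.sub_re, Complex.one_re]
  linarith

lemma fac_diff (τ : ℝ) : Differentiable ℂ (fac τ) := by
  unfold fac
  fun_prop

lemma fac_slit {τ : ℝ} {ζ : ℂ} (h : ‖ζ‖ < 1) : fac τ ζ ∈ Complex.slitPlane :=
  Complex.mem_slitPlane_iff.2 (Or.inl (fac_re h))

/-- the product -/
noncomputable def prd {N : ℕ} (γ τ : Fin N → ℝ) (ζ : ℂ) : ℂ := ∏ i, fac (τ i) ζ ^ (γ i : ℂ)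

lemma scf_eq {N : ℕ} (γ τ : Fin N → ℝ) (C : ℝ) (ζ : ℂ) : scf γ τ C ζ = (C : ℂ) / ζ * prd γ τ ζ :=
  rfl

lemma prd_diff {N : ℕ} (γ τ : Fin N → ℝ) {ζ : ℂ} (h : ‖ζ‖ < 1) :
    DifferentiableAt ℂ (prd γ τ) ζ := by
  unfold prd
  refine DifferentiableAt.fun_finsetProd fun i _ => ?_
  exact (fac_diff (τ i) ζ).cpow_const (fac_slit h)

lemma prd_cont {N : ℕ} (γ τ : Fin N → ℝ) (hγ : ∀ i, 0 < γ i) {ζ : ℂ} (h : ‖ζ‖ ≤ 1) :
    ContinuousAt (prd γ τ) ζ := by
  unfold prd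
  refine tendsto_finsetProd _ fun i _ => ?_
  have h1 : ContinuousAt (fun x : ℂ => x ^ (γ i : ℂ)) (fac (τ i) ζ) :=
    Complex.continuousAt_cpow_const_of_re_pos (Or.inl (fac_re' h)) (by simpa using hγ i)
  exact ContinuousAt.comp (f := fac (τ i)) h1 (fac_diff (τ i)).continuous.continuousAt

/-- the logarithm of the map in the variable `ξ`, `ζ = exp (-ξ)` -/
noncomputable def Psi {N : ℕ} (γ τ : Fin N → ℝ) (ξ : ℂ) : ℂ :=
  ξ + ∑ i, (γ i : ℂ) * Complex.log (fac (τ i) (Complex.exp (-ξ)))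

lemma norm_exp_neg {ξ : ℂ} (h : 0 < ξ.re) : ‖Complex.exp (-ξ)‖ < 1 := by
  rw [Complex.norm_exp, Complex.neg_re]
  rw [← Real.exp_zero]
  exact Real.exp_lt_exp.2 (by linarith)

lemma scf_exp {N : ℕ} (γ τ : Fin N → ℝ) (C : ℝ) {ξ : ℂ} (h : 0 < ξ.re) :
    scf γ τ C (Complex.exp (-ξ)) = (C : ℂ) * Complex.exp (Psi γ τ ξ) := by
  rw [scf_eq]
  unfold Psi prd
  rw [Complex.exp_add, Complex.exp_sum, div_eq_mul_inv, ← Complex.exp_neg, neg_neg, mul_assoc]
  congr 2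
  refine Finset.prod_congr rfl fun i _ => ?_
  have h1 : fac (τ i) (Complex.exp (-ξ)) ≠ 0 :=
    Complex.slitPlane_ne_zero (fac_slit (norm_exp_neg h))
  rw [Complex.cpow_def_of_ne_zero h1, mul_comm]

/-- the derivative of `Psi` -/
noncomputable def dPsi {N : ℕ} (γ τ : Fin N → ℝ) (ξ : ℂ) : ℂ :=
  1 + ∑ i, (γ i : ℂ) * (Complex.exp (-ξ) * Complex.exp ((τ i : ℂ) * Complex.I) /
    fac (τ i) (Complex.exp (-ξ)))

lemma Psi_deriv {N : ℕ} (γ τ : Fin N → ℝ) {ξ : ℂ} (h : 0 < ξ.re) :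
    HasDerivAt (Psi γ τ) (dPsi γ τ ξ) ξ := by
  unfold Psi dPsi
  refine (hasDerivAt_id ξ).add ?_
  refine HasDerivAt.fun_sum fun i _ => ?_
  refine HasDerivAt.const_mul _ ?_
  refine HasDerivAt.clog ?_ (fac_slit (norm_exp_neg h))
  unfold fac
  have h1 : HasDerivAt (fun ξ : ℂ => Complex.exp (-ξ)) (-Complex.exp (-ξ)) ξ := by
    have := (hasDerivAt_neg ξ).cexp
    simpa using this
  have h2 := (h1.mul_const (Complex.exp ((τ i : ℂ) * Complex.I))).const_sub 1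
  have h3 : -(-Complex.exp (-ξ) * Complex.exp ((τ i : ℂ) * Complex.I)) =
      Complex.exp (-ξ) * Complex.exp ((τ i : ℂ) * Complex.I) := by ring
  rw [h3] at h2
  exact h2

lemma half_lt {ω : ℂ} (h : ‖ω‖ < 1) : -(1 / 2) < (ω / (1 - ω)).re := by
  have h0 : (1 - ω) ≠ 0 := by
    intro hc
    have : ω = 1 := by linear_combination -hc
    rw [this] at h
    simp at h
  have hns : 0 < Complex.normSq (1 - ω) := Complex.normSq_pos.2 h0
  have h1 : Complex.normSq ω < 1 := by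
    rw [Complex.normSq_eq_norm_sq]
    have := norm_nonneg ω
    nlinarith
  rw [Complex.div_re]
  have e : ω.re * (1 - ω).re / Complex.normSq (1 - ω) + ω.im * (1 - ω).im / Complex.normSq (1 - ω) =
      (ω.re * (1 - ω).re + ω.im * (1 - ω).im) / Complex.normSq (1 - ω) := by ring
  rw [e, lt_div_iff₀ hns]
  rw [Complex.normSq_apply] at h1 ⊢
  simp only [Complex.sub_re, Complex.one_re, Complex.sub_im, Complex.one_im]
  nlinarith

lemma dPsi_re {N : ℕ} (γ τ : Fin N → ℝ) (hγ : ∀ i, 0 < γ i) (hs : ∑ i, γ i = 2) {ξ : ℂ}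
    (h : 0 < ξ.re) : 0 < (dPsi γ τ ξ).re := by
  unfold dPsi
  rw [Complex.add_re, Complex.one_re, Complex.re_sum]
  have h1 : ∀ i, ((γ i : ℂ) * (Complex.exp (-ξ) * Complex.exp ((τ i : ℂ) * Complex.I) /
      fac (τ i) (Complex.exp (-ξ)))).re = γ i * (Complex.exp (-ξ) *
        Complex.exp ((τ i : ℂ) * Complex.I) / fac (τ i) (Complex.exp (-ξ))).re := by
    intro i
    rw [Complex.re_ofReal_mul]
  have h2 : ∀ i, γ i * (-(1 / 2)) < γ i * (Complex.exp (-ξ) *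
        Complex.exp ((τ i : ℂ) * Complex.I) / fac (τ i) (Complex.exp (-ξ))).re := by
    intro i
    refine mul_lt_mul_of_pos_left ?_ (hγ i)
    unfold fac
    apply half_lt
    rw [norm_mul, Complex.norm_exp_ofReal_mul_I, mul_one]
    exact norm_exp_neg h
  have hne : (Finset.univ : Finset (Fin N)).Nonempty := by
    rw [Finset.nonempty_iff_ne_empty]
    intro he
    rw [he, Finset.sum_empty] at hs
    norm_num at hs
  have h3 := Finset.sum_lt_sum_of_nonempty hne (fun i _ => h2 i)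
  rw [← Finset.sum_mul, hs] at h3
  rw [Finset.sum_congr rfl fun i _ => h1 i]
  linarith

lemma Psi_inj {N : ℕ} (γ τ : Fin N → ℝ) (hγ : ∀ i, 0 < γ i) (hs : ∑ i, γ i = 2) {ξ₁ ξ₂ : ℂ}
    (h₁ : 0 < ξ₁.re) (h₂ : 0 < ξ₂.re) (he : Psi γ τ ξ₁ = Psi γ τ ξ₂) : ξ₁ = ξ₂ := by
  by_contra hne
  set d : ℂ := ξ₂ - ξ₁ with hd
  have hd0 : d ≠ 0 := by
    intro hc
    apply hne
    have : ξ₂ = ξ₁ := by linear_combination hc
    exact this.symm
  have hpos : ∀ s ∈ Icc (0 : ℝ) 1, 0 < (ξ₁ + (s : ℂ) * d).re := by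
    intro s hs'
    have : (ξ₁ + (s : ℂ) * d).re = (1 - s) * ξ₁.re + s * ξ₂.re := by
      rw [Complex.add_re, Complex.re_ofReal_mul, hd, Complex.sub_re]
      ring
    rw [this]
    rcases eq_or_lt_of_le hs'.1 with h0 | h0
    · rw [← h0]; simpa using h₁
    · have h3 : 0 ≤ (1 - s) * ξ₁.re := mul_nonneg (by linarith [hs'.2]) h₁.le
      have h4 : 0 < s * ξ₂.re := mul_pos h0 h₂
      linarith
  have hder : ∀ s ∈ Icc (0 : ℝ) 1,
      HasDerivAt (fun s : ℝ => (Psi γ τ (ξ₁ + (s : ℂ) * d) * (starRingEnd ℂ) d).re)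
        (Complex.normSq d * (dPsi γ τ (ξ₁ + (s : ℂ) * d)).re) s := by
    intro s hs'
    have h1 := Psi_deriv γ τ (hpos s hs')
    have h2 : HasDerivAt (fun s : ℂ => ξ₁ + s * d) d (s : ℂ) := by
      have := ((hasDerivAt_id (s : ℂ)).mul_const d).const_add ξ₁
      simpa using this
    have h3 := (h1.comp (s : ℂ) h2).mul_const ((starRingEnd ℂ) d)
    have h4 : HasDerivAt (fun s : ℝ => (Psi γ τ (ξ₁ + (s : ℂ) * d) * (starRingEnd ℂ) d).re)
        (dPsi γ τ (ξ₁ + (s : ℂ) * d) * d * (starRingEnd ℂ) d).re s := h3.real_of_complex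
    have h5 : dPsi γ τ (ξ₁ + (s : ℂ) * d) * d * (starRingEnd ℂ) d =
        ((Complex.normSq d : ℝ) : ℂ) * dPsi γ τ (ξ₁ + (s : ℂ) * d) := by
      rw [mul_assoc, Complex.mul_conj]
      ring
    rw [h5, Complex.re_ofReal_mul] at h4
    exact h4
  obtain ⟨c, hc, hc2⟩ := exists_hasDerivAt_eq_slope
    (fun s : ℝ => (Psi γ τ (ξ₁ + (s : ℂ) * d) * (starRingEnd ℂ) d).re)
    (fun s : ℝ => Complex.normSq d * (dPsi γ τ (ξ₁ + (s : ℂ) * d)).re) (zero_lt_one)
    (fun s hs' => (hder s hs').continuousAt.continuousWithinAt)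
    (fun s hs' => hder s (Ioo_subset_Icc_self hs'))
  have h6 : 0 < Complex.normSq d * (dPsi γ τ (ξ₁ + (c : ℂ) * d)).re :=
    mul_pos (Complex.normSq_pos.2 hd0) (dPsi_re γ τ hγ hs (hpos c (Ioo_subset_Icc_self hc)))
  rw [hc2] at h6
  have e1 : ξ₁ + ((1 : ℝ) : ℂ) * d = ξ₂ := by rw [hd]; push_cast; ring
  have e0 : ξ₁ + ((0 : ℝ) : ℂ) * d = ξ₁ := by push_cast; ring
  rw [e1, e0, he] at h6
  simp at h6

end SInj

open SInj in
theorem s_SInj : SInj := by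
  intro N γ τ C hC hγ hs
  refine ⟨?_, ?_, ?_, ?_⟩
  · intro ζ h0 h1
    have h2 : DifferentiableAt ℂ (fun ζ : ℂ => (C : ℂ) / ζ) ζ :=
      (differentiableAt_const _).div differentiableAt_id h0
    exact h2.mul (prd_diff γ τ h1)
  · rintro ζ₁ ⟨h10, h11⟩ ζ₂ ⟨h20, h21⟩ he
    set ξ₁ := -Complex.log ζ₁ with hξ₁
    set ξ₂ := -Complex.log ζ₂ with hξ₂
    have p₁ : 0 < ξ₁.re := by
      rw [hξ₁, Complex.neg_re, Complex.log_re]
      have := Real.log_neg (norm_pos_iff.2 h10) h11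
      linarith
    have p₂ : 0 < ξ₂.re := by
      rw [hξ₂, Complex.neg_re, Complex.log_re]
      have := Real.log_neg (norm_pos_iff.2 h20) h21
      linarith
    have e₁ : Complex.exp (-ξ₁) = ζ₁ := by rw [hξ₁, neg_neg, Complex.exp_log h10]
    have e₂ : Complex.exp (-ξ₂) = ζ₂ := by rw [hξ₂, neg_neg, Complex.exp_log h20]
    rw [← e₁, ← e₂, scf_exp γ τ C p₁, scf_exp γ τ C p₂] at he
    have hC' : (C : ℂ) ≠ 0 := by exact_mod_cast hC.ne'
    have he' := mul_left_cancel₀ hC' he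
    obtain ⟨n, hn⟩ := Complex.exp_eq_exp_iff_exists_int.1 he'
    have hexp : Complex.exp (-(ξ₂ + n * (2 * Real.pi * Complex.I))) = Complex.exp (-ξ₂) := by
      rw [Complex.exp_eq_exp_iff_exists_int]
      refine ⟨-n, ?_⟩
      push_cast
      ring
    have hshift : Psi γ τ (ξ₂ + n * (2 * Real.pi * Complex.I)) =
        Psi γ τ ξ₂ + n * (2 * Real.pi * Complex.I) := by
      unfold Psi
      rw [hexp]
      ring
    rw [← hshift] at hn
    have p₃ : 0 < (ξ₂ + n * (2 * Real.pi * Complex.I)).re := by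
      simpa using p₂
    have hfin := Psi_inj γ τ hγ hs p₁ p₃ hn
    rw [← e₁, ← e₂, hfin, hexp]
  · rintro ζ ⟨h0, h1⟩
    refine ContinuousAt.continuousWithinAt ?_
    have h2 : ContinuousAt (fun ζ : ℂ => (C : ℂ) / ζ) ζ := continuousAt_const.div continuousAt_id h0
    exact h2.mul (prd_cont γ τ hγ h1)
  · have h1 : Tendsto (fun ζ : ℂ => (C : ℂ) * prd γ τ ζ) (𝓝[≠] 0) (𝓝 (C : ℂ)) := by
      have h2 : ContinuousAt (fun ζ : ℂ => (C : ℂ) * prd γ τ ζ) 0 :=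
        continuousAt_const.mul (prd_cont γ τ hγ (by simp))
      have h3 := h2.tendsto
      have h4 : prd γ τ 0 = 1 := by
        unfold prd fac
        simp
      rw [h4, mul_one] at h3
      exact h3.mono_left nhdsWithin_le_nhds
    refine h1.congr' ?_
    filter_upwards [self_mem_nhdsWithin] with ζ hζ
    have hζ' : ζ ≠ 0 := hζ
    rw [scf_eq]
    field_simp

end Pool.MP_31392c_an
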