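import Mathlib
import Pool.Agent.Lib.MP_31392c_an.Full.SpecK

/-!
# MP_31392c_an full proof: the square inequality with a hard obstacle
-/

set_option autoImplicit false

open MeasureTheory Set Filter Topology Metric

namespace Pool.MP_31392c_an

namespace SQK

/-- Translation of a star. -/
theorem star_translate {N : ℕ} (c : ℂ) (θ y : Fin N → ℝ) :
    starSet c θ y = (fun z => c + z) '' starSet 0 θ y := by
  ext z
  simp only [starSet, mem_ofPred_eq, mem_image, zero_add]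
  constructor
  · rintro ⟨j, r, h0, h1, h2⟩
    exact ⟨_, ⟨j, r, h0, h1, rfl⟩, h2.symm⟩
  · rintro ⟨w, ⟨j, r, h0, h1, h2⟩, h3⟩
    exact ⟨j, r, h0, h1, by rw [← h3, h2]⟩

/-- Translation of a union of segments. -/
theorem segUnion_translate (w : ℂ) (K : Set ℂ) (hK : SegUnion K) :
    SegUnion ((fun z => w + z) '' K) := by
  classical
  obtain ⟨s, hs, rfl⟩ := hK
  refine ⟨s.image (fun p => (w + p.1, w + p.2)), ?_, ?_⟩
  · intro p hp
    obtain ⟨q, hq, rfl⟩ := Finset.mem_image.1 hp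
    simpa using hs q hq
  · rw [image_iUnion₂]
    ext z
    simp only [mem_iUnion, exists_prop]
    constructor
    · rintro ⟨p, hp, hz⟩
      refine ⟨(w + p.1, w + p.2), Finset.mem_image.2 ⟨p, hp, rfl⟩, ?_⟩
      rw [segment_translate_image] at hz
      exact hz
    · rintro ⟨p, hp, hz⟩
      obtain ⟨q, hq, rfl⟩ := Finset.mem_image.1 hp
      refine ⟨q, hq, ?_⟩
      rw [segment_translate_image]
      exact hz

/-- A star with a positive arm contains a nondegenerate segment. -/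
theorem star_seg {N : ℕ} (θ y : Fin N → ℝ) (k : Fin N) (hk : 0 < y k) :
    ∃ a b : ℂ, a ≠ b ∧ segment ℝ a b ⊆ starSet 0 θ y := by
  refine ⟨0, ((y k : ℝ) : ℂ) * Complex.exp ((θ k : ℂ) * Complex.I), ?_, ?_⟩
  · intro h
    have h1 : ((y k : ℝ) : ℂ) ≠ 0 := by exact_mod_cast hk.ne'
    exact (mul_ne_zero h1 (Complex.exp_ne_zero _)) h.symm
  · rintro z ⟨p, q, hp, hq, hpq, rfl⟩
    refine ⟨k, q * y k, by positivity, ?_, ?_⟩
    · have : q ≤ 1 := by linarith
      nlinarith
    · simp [Complex.real_smul]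
      ring

/-- Fatness of a star together with a union of segments. -/
theorem fat_union {N : ℕ} (hN : StarNull) (θ y : Fin N → ℝ) (k : Fin N) (hk : 0 < y k)
    (K : Set ℂ) (hK : SegUnion K) : Fat (starSet 0 θ y ∪ K) := by
  refine ⟨((hN.1 N 0 θ y).1.isBounded).union (hN.2.2 K hK).1.isBounded, ?_⟩
  obtain ⟨a, b, hab, h⟩ := star_seg θ y k hk
  exact ⟨a, b, hab, h.trans subset_union_left⟩

/-- Fatness of a star. -/
theorem fat_star {N : ℕ} (hN : StarNull) (θ y : Fin N → ℝ) (k : Fin N) (hk : 0 < y k) :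
    Fat (starSet 0 θ y) := by
  refine ⟨(hN.1 N 0 θ y).1.isBounded, ?_⟩
  exact star_seg θ y k hk

end SQK

theorem s_SQK : SQV → HardApprox → StarMapEx → GreenEx → StarNull → KapBasic → SQK := by
  intro hSQV hHA hSM hGE hSN hKB N c θ x k l s t K hD hkl hx hxk hxl hs ht hK hdis
  set K0 : Set ℂ := (fun z => -c + z) '' K with hK0
  have hSK0 : SegUnion K0 := SQK.segUnion_translate _ _ hK
  have hKK0 : (fun z => c + z) '' K0 = K := by
    rw [hK0, image_image]
    simp
  -- the four lengths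
  set yA : Fin N → ℝ := x with hyA
  set yA' : Fin N → ℝ := x + Pi.single k t with hyA'
  set yB : Fin N → ℝ := x + Pi.single l s with hyB
  set yB' : Fin N → ℝ := x + Pi.single l s + Pi.single k t with hyB'
  have hsk : ∀ j, 0 ≤ (Pi.single k t : Fin N → ℝ) j := fun j => by
    by_cases h : j = k
    · subst h; simp [ht.le]
    · simp [h]
  have hsl : ∀ j, 0 ≤ (Pi.single l s : Fin N → ℝ) j := fun j => by
    by_cases h : j = l
    · subst h; simp [hs.le]
    · simp [h]
  have leA' : ∀ j, x j ≤ yA' j := fun j => by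
    have := hsk j
    simp only [hyA', Pi.add_apply]; linarith
  have leB : ∀ j, x j ≤ yB j := fun j => by
    have := hsl j
    simp only [hyB, Pi.add_apply]; linarith
  have leB' : ∀ j, x j ≤ yB' j := fun j => by
    have := hsl j
    have := hsk j
    simp only [hyB', Pi.add_apply]; linarith
  have leA'B' : ∀ j, yA' j ≤ yB' j := fun j => by
    have := hsl j
    simp only [hyB', hyA', Pi.add_apply]; linarith
  have leBB' : ∀ j, yB j ≤ yB' j := fun j => by
    have := hsk j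
    simp only [hyB', hyB, Pi.add_apply]; linarith
  -- translation
  have htr : ∀ y : Fin N → ℝ, (∀ j, x j ≤ y j) →
      kap (starSet c θ y ∪ K) = kap (starSet 0 θ y ∪ K0) := by
    intro y hy
    have h1 : starSet c θ y ∪ K = (fun z => c + z) '' (starSet 0 θ y ∪ K0) := by
      rw [image_union, hKK0, ← SQK.star_translate]
    rw [h1]
    exact hKB.2.2.2.1 _ _ (SQK.fat_union hSN θ y k (hxk.trans_le (hy k)) K0 hSK0)
  have hdis0 : Disjoint K0 (starSet 0 θ yB') := by
    rw [Set.disjoint_left]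
    rintro z ⟨w, hw, rfl⟩ hz
    have h2 : w ∈ starSet c θ yB' := by
      rw [SQK.star_translate]
      exact ⟨_, hz, by simp⟩
    exact Set.disjoint_left.1 hdis hw h2
  rw [htr yB' leB', htr yA' leA', htr yB leB, htr x (fun _ => le_rfl)]
  -- Green functions
  have hgreen : ∀ y : Fin N → ℝ, (∀ j, x j ≤ y j) → ∀ V : ℂ → ℝ, Pot V →
      Disjoint (tsupport V) (starSet 0 θ y) → ∃ (u : ℂ → ℝ) (κ : ℝ),
        IsGreen V (starSet 0 θ y) u κ := by
    intro y hy V hV hd
    obtain ⟨φ, C, hφ, -⟩ := hSM N θ y k l hD hkl (fun j => (hx j).trans (hy j))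
      (hxk.trans_le (hy k)) (hxl.trans_le (hy l))
    exact hGE.1 V _ φ C hφ hV hd
  have hmono := fun y y' h => hSN.2.1 N 0 θ y y' h
  have key : ∀ n : ℕ, ∃ a a' b b' : ℝ,
      |a - kap (starSet 0 θ x ∪ K0)| ≤ 1 / ((n : ℝ) + 1) ∧
      |a' - kap (starSet 0 θ yA' ∪ K0)| ≤ 1 / ((n : ℝ) + 1) ∧
      |b - kap (starSet 0 θ yB ∪ K0)| ≤ 1 / ((n : ℝ) + 1) ∧
      |b' - kap (starSet 0 θ yB' ∪ K0)| ≤ 1 / ((n : ℝ) + 1) ∧
      (b' - a') * (b' - b) ≤ (a' - a) - (b' - b) := by
    intro n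
    obtain ⟨V, hV, hVd, hVk⟩ := hHA (starSet 0 θ x) (starSet 0 θ yB') K0 (1 / ((n : ℝ) + 1))
      (SQK.fat_star hSN θ x k hxk) (hSN.1 N 0 θ yB').1 (hmono x yB' leB') hSK0 hdis0
      (by positivity)
    obtain ⟨uA, κA, hA⟩ := hgreen x (fun _ => le_rfl) V hV (hVd.mono_right (hmono x yB' leB'))
    obtain ⟨uA', κA', hA'⟩ := hgreen yA' leA' V hV (hVd.mono_right (hmono yA' yB' leA'B'))
    obtain ⟨uB, κB, hB⟩ := hgreen yB leB V hV (hVd.mono_right (hmono yB yB' leBB'))
    obtain ⟨uB', κB', hB'⟩ := hgreen yB' leB' V hV hVd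
    refine ⟨κA, κA', κB, κB', hVk _ _ _ Subset.rfl (hmono x yB' leB') hA,
      hVk _ _ _ (hmono x yA' leA') (hmono yA' yB' leA'B') hA',
      hVk _ _ _ (hmono x yB leB) (hmono yB yB' leBB') hB,
      hVk _ _ _ (hmono x yB' leB') Subset.rfl hB', ?_⟩
    exact hSQV V N θ x k l s t uA uA' uB uB' κA κA' κB κB' hV hD hkl hx hxk hxl hs ht hVd
      hA hA' hB hB'
  choose a a' b b' h1 h2 h3 h4 h5 using key
  have hz : Tendsto (fun n : ℕ => 1 / ((n : ℝ) + 1)) atTop (𝓝 0) :=
    tendsto_one_div_add_atTop_nhds_zero_nat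
  have hlim : ∀ (f : ℕ → ℝ) (L : ℝ), (∀ n, |f n - L| ≤ 1 / ((n : ℝ) + 1)) →
      Tendsto f atTop (𝓝 L) := by
    intro f L hf
    rw [tendsto_iff_dist_tendsto_zero]
    exact squeeze_zero (fun _ => dist_nonneg) (fun n => by rw [Real.dist_eq]; exact hf n) hz
  have l1 := hlim a _ h1
  have l2 := hlim a' _ h2
  have l3 := hlim b _ h3
  have l4 := hlim b' _ h4
  exact le_of_tendsto_of_tendsto' ((l4.sub l2).mul (l4.sub l3))
    ((l2.sub l1).sub (l4.sub l3)) h5

end Pool.MP_31392c_an
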