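import Pool.Agent.Lib.MP_31392c_an.Full.SpecG

/-!
# MP_31392c_an full proof: SQV, the square inequality for stars with a soft obstacle
-/

set_option autoImplicit false

open MeasureTheory Set Filter Topology Metric

namespace Pool.MP_31392c_an

namespace SQVAux

lemma dX_sub {f g : ℂ → ℝ} {z : ℂ} (hf : DifferentiableAt ℝ f z) (hg : DifferentiableAt ℝ g z) :
    dX (fun w => f w - g w) z = dX f z - dX g z := by
  unfold dX
  rw [fderiv_fun_sub hf hg]
  rfl

lemma dY_sub {f g : ℂ → ℝ} {z : ℂ} (hf : DifferentiableAt ℝ f z) (hg : DifferentiableAt ℝ g z) :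
    dY (fun w => f w - g w) z = dY f z - dY g z := by
  unfold dY
  rw [fderiv_fun_sub hf hg]
  rfl

lemma measurable_gp (f g : ℂ → ℝ) : Measurable (fun z => gp f g z) := by
  unfold gp dX dY
  exact ((measurable_fderiv_apply_const ℝ f 1).mul (measurable_fderiv_apply_const ℝ g 1)).add
    ((measurable_fderiv_apply_const ℝ f Complex.I).mul
      (measurable_fderiv_apply_const ℝ g Complex.I))

lemma integrable_gp {f g : ℂ → ℝ} (hf : Integrable (fun z => gp f f z))
    (hg : Integrable (fun z => gp g g z)) : Integrable (fun z => gp f g z) := by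
  refine Integrable.mono' (hf.add hg) (measurable_gp f g).aestronglyMeasurable ?_
  refine Eventually.of_forall fun z => ?_
  simp only [Real.norm_eq_abs, Pi.add_apply]
  unfold gp
  rw [abs_le]
  constructor <;>
    nlinarith [sq_nonneg (dX f z + dX g z), sq_nonneg (dY f z + dY g z),
      sq_nonneg (dX f z - dX g z), sq_nonneg (dY f z - dY g z)]

lemma integrable_V {V f g : ℂ → ℝ} (hV0 : ∀ z, 0 ≤ V z) (hVc : Continuous V) (hfc : Continuous f)
    (hgc : Continuous g) (hf : Integrable (fun z => V z * (f z) ^ 2))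
    (hg : Integrable (fun z => V z * (g z) ^ 2)) : Integrable (fun z => V z * f z * g z) := by
  refine Integrable.mono' (hf.add hg) ((hVc.mul hfc).mul hgc).aestronglyMeasurable ?_
  refine Eventually.of_forall fun z => ?_
  simp only [Real.norm_eq_abs, Pi.add_apply]
  have h := hV0 z
  rw [abs_le]
  constructor
  · nlinarith [mul_nonneg h (sq_nonneg (f z + g z)), mul_nonneg h (sq_nonneg (f z - g z)),
      mul_nonneg h (sq_nonneg (f z)), mul_nonneg h (sq_nonneg (g z))]
  · nlinarith [mul_nonneg h (sq_nonneg (f z + g z)), mul_nonneg h (sq_nonneg (f z - g z)),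
      mul_nonneg h (sq_nonneg (f z)), mul_nonneg h (sq_nonneg (g z))]

end SQVAux

open SQVAux in
/-- **SQV** -/
theorem s_SQV : StarMapEx → StarNull → GreenNorm → KeyPlane → SQV := by
  intro hEx hNull hNorm hKey V N θ x k l s t uA uA' uB uB' κA κA' κB κB' hV hθ hkl hx hxk hxl hs ht
    hdis hA hA' hB hB'
  obtain ⟨hcn, hmono, -⟩ := hNull
  set y : Fin N → ℝ := x + Pi.single l s + Pi.single k t with hy
  have hyk : y k = x k + t := by
    simp [hy, Pi.single_eq_of_ne hkl]
  have hyl : y l = x l + s := by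
    simp [hy, Pi.single_eq_of_ne (Ne.symm hkl)]
  have hyj : ∀ j, j ≠ k → j ≠ l → y j = x j := by
    intro j hjk hjl
    simp [hy, Pi.single_eq_of_ne hjk, Pi.single_eq_of_ne hjl]
  have e1 : Function.update y l (x l) = x + Pi.single k t := by
    funext j
    by_cases hjl : j = l
    · subst hjl
      simp [Pi.single_eq_of_ne (Ne.symm hkl)]
    · rw [Function.update_of_ne hjl]
      simp [hy, Pi.single_eq_of_ne hjl]
  have e2 : Function.update y k (x k) = x + Pi.single l s := by
    funext j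
    by_cases hjk : j = k
    · subst hjk
      simp [Pi.single_eq_of_ne hkl]
    · rw [Function.update_of_ne hjk]
      simp [hy, Pi.single_eq_of_ne hjk]
  have hs0 : ∀ j, 0 ≤ (Pi.single l s : Fin N → ℝ) j := by
    intro j
    by_cases h : j = l
    · subst h
      rw [Pi.single_eq_same]
      exact hs.le
    · rw [Pi.single_eq_of_ne h]
  have ht0 : ∀ j, 0 ≤ (Pi.single k t : Fin N → ℝ) j := by
    intro j
    by_cases h : j = k
    · subst h
      rw [Pi.single_eq_same]
      exact ht.le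
    · rw [Pi.single_eq_of_ne h]
  have hAA' : starSet 0 θ x ⊆ starSet 0 θ (x + Pi.single k t) :=
    hmono N 0 θ _ _ fun j => by
      rw [Pi.add_apply]
      linarith [ht0 j]
  have hAB : starSet 0 θ x ⊆ starSet 0 θ (x + Pi.single l s) :=
    hmono N 0 θ _ _ fun j => by
      rw [Pi.add_apply]
      linarith [hs0 j]
  have hA'F : starSet 0 θ (x + Pi.single k t) ⊆ starSet 0 θ y :=
    hmono N 0 θ _ _ fun j => by
      rw [hy, Pi.add_apply, Pi.add_apply, Pi.add_apply]
      linarith [hs0 j]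
  have hBF : starSet 0 θ (x + Pi.single l s) ⊆ starSet 0 θ y :=
    hmono N 0 θ _ _ fun j => by
      rw [hy, Pi.add_apply, Pi.add_apply, Pi.add_apply]
      linarith [ht0 j]
  obtain ⟨φ, C, hφ, harcs⟩ := hEx N θ y k l hθ hkl (fun j => by
    rw [hy, Pi.add_apply, Pi.add_apply]
    linarith [hs0 j, ht0 j, hx j]) (by rw [hyk]; linarith) (by rw [hyl]; linarith)
  obtain ⟨α₁, β₁, α₂, β₂, h1, h2, h3, h4, h5, h6⟩ := harcs (x k) (x l) hxk (by rw [hyk]; linarith)
    hxl (by rw [hyl]; linarith)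
  rw [e1] at h5
  rw [e2] at h6
  have key := hKey V (starSet 0 θ y) (starSet 0 θ (x + Pi.single k t))
    (starSet 0 θ (x + Pi.single l s)) φ C uB' uA' uB κB' κA' κB α₁ β₁ α₂ β₂ hV hφ hdis
    (hcn N 0 θ y).2 (hcn N 0 θ _).1 (hcn N 0 θ _).1 hA'F hBF hB' hA' hB h1 h2 h3 h4 h5 h6
  -- the norms
  obtain ⟨n1, n1', n1''⟩ := hNorm V _ _ uA uB' κA κB' hV (hcn N 0 θ x).1 (hcn N 0 θ y).1
    (hcn N 0 θ y).2 (hAA'.trans hA'F) hA hB'
  obtain ⟨n2, n2', n2''⟩ := hNorm V _ _ uA uA' κA κA' hV (hcn N 0 θ x).1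
    (hcn N 0 θ (x + Pi.single k t)).1 (hcn N 0 θ (x + Pi.single k t)).2 hAA' hA hA'
  obtain ⟨n3, n3', n3''⟩ := hNorm V _ _ uA uB κA κB hV (hcn N 0 θ x).1
    (hcn N 0 θ (x + Pi.single l s)).1 (hcn N 0 θ (x + Pi.single l s)).2 hAB hA hB
  obtain ⟨n4, n4', -⟩ := hNorm V _ _ uA' uB' κA' κB' hV (hcn N 0 θ (x + Pi.single k t)).1
    (hcn N 0 θ y).1 (hcn N 0 θ y).2 hA'F hA' hB'
  obtain ⟨n5, n5', -⟩ := hNorm V _ _ uB uB' κB κB' hV (hcn N 0 θ (x + Pi.single l s)).1
    (hcn N 0 θ y).1 (hcn N 0 θ y).2 hBF hB hB'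
  have iab := integrable_gp n4 n5
  have iV := integrable_V hV.nonneg hV.smooth.continuous (hA'.cont.sub hB'.cont)
    (hB.cont.sub hB'.cont) n4' n5'
  -- nonnegativity off `F`
  have hae : ∀ᵐ z ∂(volume : Measure ℂ), z ∉ starSet 0 θ y := by
    rw [ae_iff]
    simpa using (hcn N 0 θ y).2
  have hpos : 0 ≤ ∫ z, (-(gp (fun w => uA w - uB' w) (fun w => uA w - uB' w) z
        + V z * (uA z - uB' z) ^ 2)
      + (gp (fun w => uA w - uA' w) (fun w => uA w - uA' w) z + V z * (uA z - uA' z) ^ 2)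
      + (gp (fun w => uA w - uB w) (fun w => uA w - uB w) z + V z * (uA z - uB z) ^ 2)
      + 2 * (gp (fun w => uA' w - uB' w) (fun w => uB w - uB' w) z
        + V z * (uA' z - uB' z) * (uB z - uB' z))) := by
    apply integral_nonneg_of_ae
    filter_upwards [hae] with z hz
    have dA : DifferentiableAt ℝ uA z :=
      (hA.harm z (fun h => hz (hA'F (hAA' h)))).1.differentiableAt (by norm_num)
    have dA' : DifferentiableAt ℝ uA' z :=
      (hA'.harm z (fun h => hz (hA'F h))).1.differentiableAt (by norm_num)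
    have dB : DifferentiableAt ℝ uB z :=
      (hB.harm z (fun h => hz (hBF h))).1.differentiableAt (by norm_num)
    have dB' : DifferentiableAt ℝ uB' z := (hB'.harm z hz).1.differentiableAt (by norm_num)
    simp only [Pi.zero_apply]
    unfold gp
    rw [dX_sub dA dB', dY_sub dA dB', dX_sub dA dA', dY_sub dA dA', dX_sub dA dB, dY_sub dA dB,
      dX_sub dA' dB', dY_sub dA' dB', dX_sub dB dB', dY_sub dB dB']
    have h := hV.nonneg z
    have h7 : 0 ≤ (dX uA z - dX uA' z - dX uB z + dX uB' z) ^ 2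
        + (dY uA z - dY uA' z - dY uB z + dY uB' z) ^ 2
        + V z * (uA z - uA' z - uB z + uB' z) ^ 2 := by positivity
    refine h7.trans (le_of_eq ?_)
    ring
  rw [integral_add, integral_add, integral_add, integral_neg, integral_const_mul, n1'', n2'', n3'']
    at hpos
  · have hpi := Real.pi_pos
    have h8 : Real.pi * ((κB' - κA') * (κB' - κB)) ≤
        Real.pi * ((κA' - κA) - (κB' - κB)) := by
      linarith
    exact le_of_mul_le_mul_left h8 hpi
  · exact (n1.add n1').neg
  · exact n2.add n2'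
  · exact (n1.add n1').neg.add (n2.add n2')
  · exact n3.add n3'
  · exact ((n1.add n1').neg.add (n2.add n2')).add (n3.add n3')
  · exact (iab.add iV).const_mul 2

end Pool.MP_31392c_an
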