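import Mathlib
import Pool.Agent.Lib.MP_31392c_an.Full.SpecK

/-!
# MP_31392c_an: square root bound for the Perron class
-/

set_option autoImplicit false

open MeasureTheory Set Filter Topology Metric

namespace Pool.MP_31392c_an

theorem s_SegBound : SegEst → GreenEx → SubLeGreen → SegBound := by
  intro hS hG hL F v c a b hab hseg hv z w hw
  obtain ⟨φ, hφ, hb⟩ := hS a b hab
  obtain ⟨u, hu, huφ⟩ := hG.2 (segment ℝ a b) φ _ hφ
  have hle := (hL (fun _ => 0) (segment ℝ a b) F u v _ c hu hv hseg (fun _ _ => rfl)).1 z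
  by_cases hz : z ∈ segment ℝ a b
  · rw [hv.zero z (hseg hz)]
    positivity
  · have hz' : z ∈ φ '' {ζ | ζ ≠ 0 ∧ ‖ζ‖ < 1} := by
      rw [hφ.image]
      exact hz
    obtain ⟨ζ, ⟨h0, h1⟩, rfl⟩ := hz'
    rw [huφ ζ h0 h1] at hle
    exact hle.trans (hb ζ h0 h1 w hw)

end Pool.MP_31392c_an
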