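import Mathlib
import Pool.Agent.Lib.MP_31392c_an.Full.SpecS

/-!
# MP_31392c_an: the conformal map for a segment
-/

set_option autoImplicit false

open MeasureTheory Set Filter Topology Metric

namespace Pool.MP_31392c_an

namespace SegEst

/-- the map -/
private noncomputable def ph (c L E : ℂ) (ζ : ℂ) : ℂ := c + L * (ζ⁻¹ + E ^ 2 * ζ)

private theorem ph_diff (c L E ζ : ℂ) (h : ζ ≠ 0) : DifferentiableAt ℂ (ph c L E) ζ := by
  unfold ph
  refine (differentiableAt_const _).add ((differentiableAt_const _).mul ?_)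
  exact (differentiableAt_inv h).add ((differentiableAt_const _).mul differentiableAt_id)

private theorem ph_inj (c L E : ℂ) (hL : L ≠ 0) (hE : ‖E‖ = 1) :
    InjOn (ph c L E) {ζ | ζ ≠ 0 ∧ ‖ζ‖ < 1} := by
  rintro ζ ⟨h0, h1⟩ ζ' ⟨h0', h1'⟩ h
  unfold ph at h
  have h2 : ζ⁻¹ + E ^ 2 * ζ = ζ'⁻¹ + E ^ 2 * ζ' := mul_left_cancel₀ hL (add_left_cancel h)
  by_contra hne
  have h3 : (ζ' - ζ) * (1 - E ^ 2 * ζ * ζ') = 0 := by
    have e1 : ζ' - ζ = (ζ⁻¹ - ζ'⁻¹) * (ζ * ζ') := by field_simp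
    have e2 : ζ⁻¹ - ζ'⁻¹ = E ^ 2 * (ζ' - ζ) := by linear_combination h2
    have e3 : ζ' - ζ = E ^ 2 * (ζ' - ζ) * (ζ * ζ') := by rw [← e2]; exact e1
    linear_combination e3
  rcases mul_eq_zero.1 h3 with h4 | h4
  · exact hne (sub_eq_zero.1 h4).symm
  · have h5 : E ^ 2 * ζ * ζ' = 1 := (sub_eq_zero.1 h4).symm
    have h6 := congrArg norm h5
    rw [norm_mul, norm_mul, norm_pow, hE, one_pow, one_mul, norm_one] at h6
    have := norm_nonneg ζ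
    have := norm_nonneg ζ'
    nlinarith

private theorem ph_pole (c L E : ℂ) :
    Tendsto (fun ζ => ζ * ph c L E ζ) (𝓝[≠] 0) (𝓝 L) := by
  have h1 : Tendsto (fun ζ : ℂ => ζ * c + L * (1 + E ^ 2 * ζ ^ 2)) (𝓝[≠] 0)
      (𝓝 ((0 : ℂ) * c + L * (1 + E ^ 2 * 0 ^ 2))) := by
    refine Tendsto.mono_left (Continuous.tendsto ?_ 0) nhdsWithin_le_nhds
    fun_prop
  have h2 : (0 : ℂ) * c + L * (1 + E ^ 2 * 0 ^ 2) = L := by ring
  rw [h2] at h1
  refine h1.congr' ?_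
  filter_upwards [self_mem_nhdsWithin] with ζ hζ
  have hζ' : ζ ≠ 0 := hζ
  unfold ph
  field_simp

private theorem main_circle (a b : ℂ) (L E : ℂ) (hE : ‖E‖ = 1) (hLE : 4 * L * E = b - a) :
    ph ((a + b) / 2) L E '' {ζ | ‖ζ‖ = 1} = segment ℝ a b := by
  have hE0 : E ≠ 0 := by
    intro h
    rw [h, norm_zero] at hE
    norm_num at hE
  have key : ∀ u : ℂ, ‖u‖ = 1 →
      ph ((a + b) / 2) L E (u / E) = ((1 - (1 + u.re) / 2 : ℝ) : ℂ) * a
        + (((1 + u.re) / 2 : ℝ) : ℂ) * b := by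
    intro u hu
    have hu0 : u ≠ 0 := by
      intro h
      rw [h, norm_zero] at hu
      norm_num at hu
    have hinv : u⁻¹ = (starRingEnd ℂ) u := by
      rw [Complex.inv_def, Complex.normSq_eq_norm_sq, hu]
      simp
    have hre : u + (starRingEnd ℂ) u = 2 * (u.re : ℂ) := by
      rw [Complex.add_conj]
      push_cast
      ring
    unfold ph
    have e1 : (u / E)⁻¹ + E ^ 2 * (u / E) = E * (2 * (u.re : ℂ)) := by
      rw [← hre, ← hinv]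
      field_simp
      ring
    rw [e1]
    push_cast
    linear_combination ((u.re : ℂ) / 2) * hLE
  rw [segment_eq_image]
  apply Set.Subset.antisymm
  · rintro _ ⟨ζ, hζ, rfl⟩
    have hζ1 : ‖ζ‖ = 1 := hζ
    have hu : ‖ζ * E‖ = 1 := by rw [norm_mul, hζ1, hE, one_mul]
    have h := key (ζ * E) hu
    rw [mul_div_cancel_right₀ _ hE0] at h
    have hre := Complex.abs_re_le_norm (ζ * E)
    rw [hu, abs_le] at hre
    refine ⟨(1 + (ζ * E).re) / 2, ⟨by linarith [hre.1], by linarith [hre.2]⟩, ?_⟩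
    rw [h]
    simp only [Complex.real_smul]
  · rintro _ ⟨t, ⟨ht0, ht1⟩, rfl⟩
    have hs : 0 ≤ 1 - (2 * t - 1) ^ 2 := by nlinarith
    have hu : ‖(⟨2 * t - 1, Real.sqrt (1 - (2 * t - 1) ^ 2)⟩ : ℂ)‖ = 1 := by
      rw [← sq_eq_sq₀ (norm_nonneg _) zero_le_one, ← Complex.normSq_eq_norm_sq,
        Complex.normSq_mk, Real.mul_self_sqrt hs]
      ring
    refine ⟨(⟨2 * t - 1, Real.sqrt (1 - (2 * t - 1) ^ 2)⟩ : ℂ) / E, ?_, ?_⟩
    · show ‖_‖ = 1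
      rw [norm_div, hu, hE, div_one]
    · rw [key _ hu]
      simp only [Complex.real_smul]
      congr 2
      · congr 1
        ring
      · congr 1
        ring

private theorem main_bound (a b : ℂ) (l : ℝ) (hl : 0 < l) (E : ℂ) (hE : ‖E‖ = 1)
    (hLE : (l : ℂ) * E = b - a) (ζ : ℂ) (h0 : ζ ≠ 0) (h1 : ‖ζ‖ < 1) (w : ℂ)
    (hw : w ∈ segment ℝ a b) :
    - Real.log ‖ζ‖ ≤ 2 * Real.sqrt (‖ph ((a + b) / 2) ((l / 4 : ℝ) : ℂ) E ζ - w‖ / l) := by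
  have hE0 : E ≠ 0 := by
    intro h
    rw [h, norm_zero] at hE
    norm_num at hE
  rw [segment_eq_image] at hw
  obtain ⟨t, ⟨ht0, ht1⟩, rfl⟩ := hw
  have hs : 0 ≤ 1 - (2 * t - 1) ^ 2 := by nlinarith
  obtain ⟨u, hudef⟩ : ∃ u : ℂ, u = ⟨2 * t - 1, Real.sqrt (1 - (2 * t - 1) ^ 2)⟩ := ⟨_, rfl⟩
  have hu : ‖u‖ = 1 := by
    rw [hudef, ← sq_eq_sq₀ (norm_nonneg _) zero_le_one, ← Complex.normSq_eq_norm_sq,
      Complex.normSq_mk, Real.mul_self_sqrt hs]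
    ring
  have hure : u.re = 2 * t - 1 := by rw [hudef]
  obtain ⟨v, hvdef⟩ : ∃ v : ℂ, v = (starRingEnd ℂ) u := ⟨_, rfl⟩
  have hv : ‖v‖ = 1 := by rw [hvdef, RCLike.norm_conj, hu]
  have huv : u * v = 1 := by
    rw [hvdef, Complex.mul_conj, Complex.normSq_eq_norm_sq, hu]
    norm_num
  have huv2 : u + v = 2 * ((2 * t - 1 : ℝ) : ℂ) := by
    rw [hvdef, Complex.add_conj, hure]
    push_cast
    ring
  obtain ⟨W, hW⟩ : ∃ W : ℂ, W = (E * ζ)⁻¹ := ⟨_, rfl⟩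
  have hW0 : W ≠ 0 := by
    rw [hW]
    exact inv_ne_zero (mul_ne_zero hE0 h0)
  have hζpos : 0 < ‖ζ‖ := norm_pos_iff.2 h0
  have hWn : ‖W‖ = ‖ζ‖⁻¹ := by rw [hW, norm_inv, norm_mul, hE, one_mul]
  have hζW : ζ = (E * W)⁻¹ := by
    rw [hW]
    field_simp
  have hform : ph ((a + b) / 2) ((l / 4 : ℝ) : ℂ) E ζ - ((1 - t) • a + t • b) =
      ((l / 4 : ℝ) : ℂ) * E * ((W - u) * (W - v) / W) := by
    have e1 : (W - u) * (W - v) / W = W + W⁻¹ - 2 * ((2 * t - 1 : ℝ) : ℂ) := by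
      rw [← huv2]
      field_simp
      linear_combination huv
    rw [e1]
    have e2 : ζ⁻¹ + E ^ 2 * ζ = E * (W + W⁻¹) := by
      rw [hζW]
      field_simp
    unfold ph
    rw [e2]
    simp only [Complex.real_smul]
    push_cast
    linear_combination ((2 * (t : ℂ) - 1) / 2) * hLE
  obtain ⟨g, hg⟩ : ∃ g : ℝ, g = - Real.log ‖ζ‖ := ⟨_, rfl⟩
  have hg0 : 0 < g := by
    rw [hg]
    have := Real.log_neg hζpos h1
    linarith
  obtain ⟨x, hx⟩ : ∃ x : ℝ, x = Real.exp (g / 2) := ⟨_, rfl⟩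
  have hxpos : 0 < x := by rw [hx]; exact Real.exp_pos _
  have hxx : x ^ 2 = ‖W‖ := by
    rw [hx, ← Real.exp_nat_mul, hWn]
    have : ((2 : ℕ) : ℝ) * (g / 2) = g := by push_cast; ring
    rw [this, hg, Real.exp_neg, Real.exp_log hζpos]
  have hsinh : g ≤ x - x⁻¹ := by
    have h := Real.self_le_sinh_iff.2 (by linarith : 0 ≤ g / 2)
    rw [Real.sinh_eq, Real.exp_neg, ← hx] at h
    linarith
  have hn1 : ‖W‖ - 1 ≤ ‖W - u‖ := by
    have := norm_sub_norm_le W u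
    rwa [hu] at this
  have hn2 : ‖W‖ - 1 ≤ ‖W - v‖ := by
    have := norm_sub_norm_le W v
    rwa [hv] at this
  have hW1 : 1 < ‖W‖ := by
    rw [hWn]
    exact (one_lt_inv₀ hζpos).2 h1
  have hWpos : 0 < ‖W‖ := by linarith
  have hn3 : (‖W‖ - 1) ^ 2 / ‖W‖ ≤ ‖(W - u) * (W - v) / W‖ := by
    rw [norm_div, norm_mul]
    refine div_le_div_of_nonneg_right ?_ hWpos.le
    rw [sq]
    exact mul_le_mul hn1 hn2 (by linarith) (norm_nonneg _)
  have hn4 : g ^ 2 ≤ (‖W‖ - 1) ^ 2 / ‖W‖ := by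
    have e : (‖W‖ - 1) ^ 2 / ‖W‖ = (x - x⁻¹) ^ 2 := by
      rw [← hxx]
      field_simp
    rw [e]
    exact pow_le_pow_left₀ hg0.le hsinh 2
  rw [hform, norm_mul, norm_mul, hE, mul_one, Complex.norm_real, Real.norm_eq_abs,
    abs_of_pos (by positivity), ← hg]
  have e : l / 4 * ‖(W - u) * (W - v) / W‖ / l = ‖(W - u) * (W - v) / W‖ / 4 := by
    field_simp
  rw [e]
  have h5 : (g / 2) ≤ Real.sqrt (‖(W - u) * (W - v) / W‖ / 4) := by
    apply Real.le_sqrt_of_sq_le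
    nlinarith
  linarith

theorem main (hI : SImage) (hC : StarConn) : SegEst := by
  intro a b hab
  have hl : 0 < ‖b - a‖ := norm_pos_iff.2 (sub_ne_zero.2 hab.symm)
  obtain ⟨l, hldef⟩ : ∃ l : ℝ, l = ‖b - a‖ := ⟨_, rfl⟩
  have hl' : 0 < l := by rw [hldef]; exact hl
  have hl0 : (l : ℂ) ≠ 0 := by exact_mod_cast hl'.ne'
  obtain ⟨E, hEdef⟩ : ∃ E : ℂ, E = (b - a) / (l : ℂ) := ⟨_, rfl⟩
  have hE : ‖E‖ = 1 := by
    rw [hEdef, norm_div, Complex.norm_real, Real.norm_eq_abs, abs_of_pos hl', ← hldef,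
      div_self hl'.ne']
  have hLE : (l : ℂ) * E = b - a := by
    rw [hEdef]
    field_simp
  have hLE' : 4 * ((l / 4 : ℝ) : ℂ) * E = b - a := by
    rw [← hLE]
    push_cast
    ring
  have hL0 : ((l / 4 : ℝ) : ℂ) ≠ 0 := by
    have : l / 4 ≠ 0 := by positivity
    exact_mod_cast this
  have hcirc := main_circle a b ((l / 4 : ℝ) : ℂ) E hE hLE'
  have hcont : ContinuousOn (ph ((a + b) / 2) ((l / 4 : ℝ) : ℂ) E) {ζ | ζ ≠ 0 ∧ ‖ζ‖ ≤ 1} :=
    fun ζ hζ => (ph_diff _ _ _ ζ hζ.1).continuousAt.continuousWithinAt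
  have hinj := ph_inj ((a + b) / 2) ((l / 4 : ℝ) : ℂ) E hL0 hE
  have hpole := ph_pole ((a + b) / 2) ((l / 4 : ℝ) : ℂ) E
  refine ⟨ph ((a + b) / 2) ((l / 4 : ℝ) : ℂ) E, ?_, ?_⟩
  · rw [← hldef]
    refine ⟨by positivity, fun ζ h _ => ph_diff _ _ _ ζ h, hpole, hcont, hinj, ?_, ?_⟩
    · exact hI (segment ℝ a b) _ _ hL0 (hC.2 a b) (fun ζ h _ => ph_diff _ _ _ ζ h) hinj hcont
        hpole hcirc
    · intro ζ hζ
      rw [← hcirc]
      exact ⟨ζ, hζ, rfl⟩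
  · intro ζ h0 h1 w hw
    rw [← hldef]
    exact main_bound a b l hl' E hE hLE ζ h0 h1 w hw

end SegEst

theorem s_SegEst : SImage → StarConn → SegEst := SegEst.main

end Pool.MP_31392c_an
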