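import Mathlib
import Pool.Agent.Lib.MP_31392c_an.Full.SpecS

/-!
# MP_31392c_an full proof, StarBessel: orthogonality and Bessel's inequality
-/

set_option autoImplicit false

namespace Pool.MP_31392c_an

namespace StarBessel

theorem ct_mul {a b : ℝ} (ha : Real.sin a ≠ 0) (hb : Real.sin b ≠ 0)
    (hab : Real.sin (a - b) ≠ 0) :
    ct a * ct b = ct (a - b) * (ct b - ct a) - 1 := by
  unfold ct
  rw [Real.sin_sub] at hab
  rw [Real.cos_sub, Real.sin_sub]
  field_simp
  ring

theorem ct_sq {a : ℝ} (ha : Real.sin a ≠ 0) : ct a ^ 2 = 1 / Real.sin a ^ 2 - 1 := by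
  unfold ct
  have h := Real.sin_sq_add_cos_sq a
  field_simp
  linarith

theorem pow_pos_of_ne {a : ℝ} (ha : a ≠ 0) : 0 < a ^ 2 := by positivity

end StarBessel

open StarBessel in
theorem s_StarBessel : StarBessel := by
  intro N γ τ t hγ hsum hs hst hc
  have h1 : ∀ j l, j ≠ l →
      ∑ i, γ i * (ct ((t j - τ i) / 2) * ct ((t l - τ i) / 2)) = -2 := by
    intro j l hjl
    have h2 : ∀ i, γ i * (ct ((t j - τ i) / 2) * ct ((t l - τ i) / 2)) =
        ct ((t j - t l) / 2) * (γ i * ct ((t l - τ i) / 2)) -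
          ct ((t j - t l) / 2) * (γ i * ct ((t j - τ i) / 2)) - γ i := by
      intro i
      have h3 : (t j - τ i) / 2 - (t l - τ i) / 2 = (t j - t l) / 2 := by ring
      have h4 := ct_mul (hs i j) (hs i l) (by rw [h3]; exact hst j l hjl)
      rw [h3] at h4
      rw [h4]
      ring
    rw [Finset.sum_congr rfl (fun i _ => h2 i), Finset.sum_sub_distrib, Finset.sum_sub_distrib,
      ← Finset.mul_sum, ← Finset.mul_sum, hc l, hc j, hsum]
    ring
  have h2 : ∀ j, ∑ i, γ i * ct ((t j - τ i) / 2) ^ 2 =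
      (∑ i, γ i / Real.sin ((t j - τ i) / 2) ^ 2) - 2 := by
    intro j
    have h3 : ∀ i, γ i * ct ((t j - τ i) / 2) ^ 2 =
        γ i / Real.sin ((t j - τ i) / 2) ^ 2 - γ i := by
      intro i
      rw [ct_sq (hs i j)]
      ring
    rw [Finset.sum_congr rfl (fun i _ => h3 i), Finset.sum_sub_distrib, hsum]
  refine ⟨h1, h2, ?_⟩
  intro A hA
  obtain ⟨k, hk⟩ : ∃ k, k ∉ A := by
    by_contra hcon
    push Not at hcon
    exact hA (Finset.eq_univ_iff_forall.2 hcon)
  set s : Fin N → ℝ := fun l => ∑ i, γ i / Real.sin ((t l - τ i) / 2) ^ 2 with hsdef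
  have hspos : ∀ l, 0 < s l := by
    intro l
    apply Finset.sum_pos
    · intro i _
      exact div_pos (hγ i) (pow_pos_of_ne (hs i l))
    · exact ⟨l, Finset.mem_univ l⟩
  set c : Fin N → Fin N → ℝ := fun l i => ct ((t l - τ i) / 2) with hcdef
  have hCe : ∀ l, ∑ i, γ i * (1 + c l i) = 2 := by
    intro l
    have : ∀ i, γ i * (1 + c l i) = γ i + γ i * c l i := fun i => by ring
    rw [Finset.sum_congr rfl (fun i _ => this i), Finset.sum_add_distrib, hsum, hc l, add_zero]
  have hCC : ∀ l m, ∑ i, γ i * ((1 + c l i) * (1 + c m i)) = if l = m then s l else 0 := by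
    intro l m
    have h3 : ∀ i, γ i * ((1 + c l i) * (1 + c m i)) =
        γ i + γ i * c l i + γ i * c m i + γ i * (c l i * c m i) := fun i => by ring
    rw [Finset.sum_congr rfl (fun i _ => h3 i), Finset.sum_add_distrib, Finset.sum_add_distrib,
      Finset.sum_add_distrib, hsum, hc l, hc m]
    split_ifs with hlm
    · subst hlm
      have h4 : ∀ i, γ i * (c l i * c l i) = γ i * c l i ^ 2 := fun i => by ring
      rw [Finset.sum_congr rfl (fun i _ => h4 i), h2 l]
      ring
    · rw [h1 l m hlm]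
      ring
  set B : Finset (Fin N) := insert k A with hB
  set g : Fin N → ℝ := fun i => ∑ l ∈ B, 2 / s l * (1 + c l i) with hg
  have hg1 : ∑ i, γ i * g i = ∑ l ∈ B, 2 / s l * 2 := by
    have h3 : ∀ i, γ i * g i = ∑ l ∈ B, 2 / s l * (γ i * (1 + c l i)) := by
      intro i
      rw [hg]
      simp only
      rw [Finset.mul_sum]
      apply Finset.sum_congr rfl
      intro l _
      ring
    rw [Finset.sum_congr rfl (fun i _ => h3 i), Finset.sum_comm]
    apply Finset.sum_congr rfl
    intro l _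
    rw [← Finset.mul_sum, hCe l]
  have hg2 : ∀ l ∈ B, ∑ i, γ i * ((1 + c l i) * g i) = 2 := by
    intro l hl
    have h3 : ∀ i, γ i * ((1 + c l i) * g i) =
        ∑ m ∈ B, 2 / s m * (γ i * ((1 + c l i) * (1 + c m i))) := by
      intro i
      rw [hg]
      simp only
      rw [Finset.mul_sum, Finset.mul_sum]
      apply Finset.sum_congr rfl
      intro m _
      ring
    rw [Finset.sum_congr rfl (fun i _ => h3 i), Finset.sum_comm]
    have h4 : ∀ m ∈ B, ∑ i, 2 / s m * (γ i * ((1 + c l i) * (1 + c m i))) =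
        if l = m then 2 else 0 := by
      intro m _
      rw [← Finset.mul_sum, hCC l m]
      split_ifs with hlm
      · subst hlm
        have := (hspos l).ne'
        field_simp
      · ring
    rw [Finset.sum_congr rfl h4, Finset.sum_ite_eq, if_pos hl]
  have hg3 : ∑ i, γ i * (g i * g i) = ∑ l ∈ B, 2 / s l * 2 := by
    have h3 : ∀ i, γ i * (g i * g i) = ∑ l ∈ B, 2 / s l * (γ i * ((1 + c l i) * g i)) := by
      intro i
      conv_lhs => rw [hg]
      simp only
      rw [Finset.sum_mul, Finset.mul_sum]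
      apply Finset.sum_congr rfl
      intro l _
      ring
    rw [Finset.sum_congr rfl (fun i _ => h3 i), Finset.sum_comm]
    apply Finset.sum_congr rfl
    intro l hl
    rw [← Finset.mul_sum, hg2 l hl]
  have h0 : 0 ≤ ∑ i, γ i * (1 - g i) ^ 2 :=
    Finset.sum_nonneg fun i _ => mul_nonneg (hγ i).le (sq_nonneg _)
  have h5 : ∑ i, γ i * (1 - g i) ^ 2 = 2 - ∑ l ∈ B, 2 / s l * 2 := by
    have h6 : ∀ i, γ i * (1 - g i) ^ 2 = γ i - 2 * (γ i * g i) + γ i * (g i * g i) :=
      fun i => by ring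
    rw [Finset.sum_congr rfl (fun i _ => h6 i), Finset.sum_add_distrib, Finset.sum_sub_distrib,
      hsum, ← Finset.mul_sum, hg1, hg3]
    ring
  have h7 : ∑ l ∈ B, 2 / s l * 2 = (2 / s k + ∑ l ∈ A, 2 / s l) * 2 := by
    rw [← Finset.sum_mul, hB, Finset.sum_insert hk]
  have h8 : 0 < 2 / s k := div_pos two_pos (hspos k)
  rw [h5, h7] at h0
  change ∑ l ∈ A, 2 / s l < 1
  linarith

end Pool.MP_31392c_an
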