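import Mathlib
import Pool.Agent.Lib.MP_31392c_an.Full.SpecZ

/-!
# MP_31392c_an: capacity of a set avoiding a level region of a star map
-/

set_option autoImplicit false

open MeasureTheory Set Filter Topology Metric

namespace Pool.MP_31392c_an

namespace StarCheb

/-- uniform Riemann sums with parameters in a compact set -/
theorem riemann {X : Type*} [PseudoMetricSpace X] {K : Set X} (hK : IsCompact K) (f : ℝ → X → ℝ)
    (hf : ContinuousOn (fun p : ℝ × X => f p.1 p.2) (Icc 0 (2 * Real.pi) ×ˢ K)) {ε : ℝ}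
    (hε : 0 < ε) : ∃ M : ℕ, 1 ≤ M ∧ ∀ z ∈ K,
      ∑ l ∈ Finset.range M, f (2 * Real.pi * l / M) z ≤
        M * ((2 * Real.pi)⁻¹ * (∫ t in (0 : ℝ)..(2 * Real.pi), f t z) + ε) := by
  have hpi := Real.pi_pos
  have hu := (isCompact_Icc.prod hK).uniformContinuousOn_of_continuous hf
  rw [Metric.uniformContinuousOn_iff] at hu
  obtain ⟨δ, hδ, hu⟩ := hu ε hε
  obtain ⟨M, hM⟩ := exists_nat_gt (2 * Real.pi / δ)
  have hM0 : (0 : ℝ) < M := lt_of_le_of_lt (by positivity) hM
  have hM1 : 1 ≤ M := by exact_mod_cast hM0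
  refine ⟨M, hM1, fun z hz => ?_⟩
  set a : ℕ → ℝ := fun l => 2 * Real.pi * l / M with ha
  have hstep : ∀ l, a (l + 1) - a l = 2 * Real.pi / M := by
    intro l
    simp only [ha]
    push_cast
    field_simp
    ring
  have hstep0 : 0 < 2 * Real.pi / M := by positivity
  have hstepδ : 2 * Real.pi / M < δ := by
    rw [div_lt_iff₀ hδ] at hM
    rw [div_lt_iff₀ hM0]
    linarith
  have hmono : ∀ l, a l ≤ a (l + 1) := fun l => by have := hstep l; linarith
  have ha0 : a 0 = 0 := by simp [ha]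
  have haM : a M = 2 * Real.pi := by
    simp only [ha]
    field_simp
  have hamono : Monotone a := monotone_nat_of_le_succ hmono
  have hIcc : ∀ l < M, Icc (a l) (a (l + 1)) ⊆ Icc 0 (2 * Real.pi) := by
    intro l hl t ht
    refine ⟨?_, ?_⟩
    · have := hamono (Nat.zero_le l)
      rw [ha0] at this
      exact this.trans ht.1
    · have := hamono (show l + 1 ≤ M from hl)
      rw [haM] at this
      exact ht.2.trans this
  have hcont : ContinuousOn (fun t => f t z) (Icc 0 (2 * Real.pi)) := by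
    have h1 : ContinuousOn (fun t : ℝ => (t, z)) (Icc 0 (2 * Real.pi)) := by fun_prop
    exact hf.comp h1 (fun t ht => ⟨ht, hz⟩)
  have hint : ∀ l < M, IntervalIntegrable (fun t => f t z) volume (a l) (a (l + 1)) := by
    intro l hl
    refine ContinuousOn.intervalIntegrable ?_
    rw [uIcc_of_le (hmono l)]
    exact hcont.mono (hIcc l hl)
  have hsum := intervalIntegral.sum_integral_adjacent_intervals hint
  rw [ha0, haM] at hsum
  rw [← hsum]
  have hterm : ∀ l ∈ Finset.range M, f (a l) z - ε ≤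
      M * ((2 * Real.pi)⁻¹ * ∫ t in (a l)..(a (l + 1)), f t z) := by
    intro l hl
    rw [Finset.mem_range] at hl
    have h1 : ∫ _ in (a l)..(a (l + 1)), (f (a l) z - ε) ≤ ∫ t in (a l)..(a (l + 1)), f t z := by
      refine intervalIntegral.integral_mono_on (hmono l) (by simp) (hint l hl) ?_
      intro t ht
      have h2 : dist (a l, z) (t, z) < δ := by
        rw [Prod.dist_eq, dist_self, max_eq_left dist_nonneg, Real.dist_eq, abs_sub_comm,
          abs_of_nonneg (by linarith [ht.1])]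
        have := hstep l
        linarith [ht.2]
      have h3 := hu (a l, z) ⟨hIcc l hl ⟨le_rfl, hmono l⟩, hz⟩ (t, z) ⟨hIcc l hl ht, hz⟩ h2
      rw [Real.dist_eq, abs_lt] at h3
      linarith [h3.2]
    rw [intervalIntegral.integral_const, smul_eq_mul, hstep] at h1
    have h4 : (M : ℝ) * ((2 * Real.pi)⁻¹ * (2 * Real.pi / M * (f (a l) z - ε))) =
        f (a l) z - ε := by
      field_simp
    calc f (a l) z - ε = (M : ℝ) * ((2 * Real.pi)⁻¹ * (2 * Real.pi / M * (f (a l) z - ε))) := h4.symm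
      _ ≤ _ := by gcongr
  have h5 := Finset.sum_le_sum hterm
  rw [Finset.sum_sub_distrib, Finset.sum_const, Finset.card_range, nsmul_eq_mul, ← Finset.mul_sum,
    ← Finset.mul_sum] at h5
  linarith

/-- the mean value of `log ‖φ - z‖` on a circle -/
theorem mean {φ : ℂ → ℂ} {C ρ' : ℝ} {z : ℂ} (hC : 0 < C) (h0 : 0 < ρ') (h1 : ρ' < 1)
    (hd : ∀ ζ, ζ ≠ 0 → ‖ζ‖ < 1 → DifferentiableAt ℂ φ ζ)
    (hp : Tendsto (fun ζ => ζ * φ ζ) (𝓝[≠] 0) (𝓝 (C : ℂ)))
    (hz : ∀ ζ, ζ ≠ 0 → ‖ζ‖ ≤ ρ' → φ ζ ≠ z) :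
    (2 * Real.pi)⁻¹ * (∫ t in (0 : ℝ)..(2 * Real.pi), Real.log ‖φ (circleMap 0 ρ' t) - z‖) =
      Real.log C - Real.log ρ' := by
  set g : ℂ → ℂ := Function.update (fun ζ => ζ * φ ζ - ζ * z) 0 (C : ℂ) with hg
  have hg0 : g 0 = C := by simp [hg]
  have hgne : ∀ ζ, ζ ≠ 0 → g ζ = ζ * φ ζ - ζ * z := fun ζ hζ => by simp [hg, hζ]
  have hdiff : ∀ ζ, ζ ≠ 0 → ‖ζ‖ < 1 → DifferentiableAt ℂ g ζ := by
    intro ζ hζ hζ1
    have h2 : g =ᶠ[𝓝 ζ] fun ζ => ζ * φ ζ - ζ * z := by
      filter_upwards [isOpen_ne.mem_nhds hζ] with w hw using hgne w hw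
    refine DifferentiableAt.congr_of_eventuallyEq ?_ h2
    have := hd ζ hζ hζ1
    fun_prop
  have hcont : ContinuousAt g 0 := by
    rw [continuousAt_iff_punctured_nhds, hg0]
    have h3 : Tendsto (fun ζ => ζ * φ ζ - ζ * z) (𝓝[≠] 0) (𝓝 ((C : ℂ) - 0 * z)) := by
      refine hp.sub ?_
      have h4 : Tendsto (fun ζ : ℂ => ζ * z) (𝓝 0) (𝓝 (0 * z)) := by
        exact (continuous_id.mul continuous_const).tendsto 0
      exact h4.mono_left nhdsWithin_le_nhds
    rw [zero_mul, sub_zero] at h3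
    refine h3.congr' ?_
    filter_upwards [self_mem_nhdsWithin] with w hw using (hgne w hw).symm
  have hana : AnalyticOnNhd ℂ g (closedBall 0 |ρ'|) := by
    intro ζ hζ
    rw [abs_of_pos h0, mem_closedBall_zero_iff] at hζ
    by_cases h : ζ = 0
    · subst h
      refine Complex.analyticAt_of_differentiable_on_punctured_nhds_of_continuousAt ?_ hcont
      have h5 : ∀ᶠ w : ℂ in 𝓝[≠] 0, w ∈ ball (0 : ℂ) 1 :=
        nhdsWithin_le_nhds (ball_mem_nhds _ one_pos)
      filter_upwards [self_mem_nhdsWithin, h5] with w hw hw1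
      exact hdiff w hw (by simpa using hw1)
    · have h6 : ∀ᶠ w in 𝓝 ζ, DifferentiableAt ℂ g w := by
        have h7 : ∀ᶠ w in 𝓝 ζ, w ≠ 0 := isOpen_ne.mem_nhds h
        have h8 : ∀ᶠ w in 𝓝 ζ, w ∈ ball (0 : ℂ) 1 :=
          isOpen_ball.mem_nhds (by rw [mem_ball_zero_iff]; linarith)
        filter_upwards [h7, h8] with w hw hw1
        exact hdiff w hw (by simpa using hw1)
      exact Complex.analyticAt_iff_eventually_differentiableAt.mpr h6
  have hne : ∀ u ∈ closedBall (0 : ℂ) |ρ'|, g u ≠ 0 := by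
    intro ζ hζ
    rw [abs_of_pos h0, mem_closedBall_zero_iff] at hζ
    by_cases h : ζ = 0
    · subst h
      rw [hg0]
      exact_mod_cast hC.ne'
    · rw [hgne ζ h, ← mul_sub]
      exact mul_ne_zero h (sub_ne_zero.mpr (hz ζ h hζ))
  have hav := AnalyticOnNhd.circleAverage_log_norm_of_ne_zero hana hne
  rw [hg0, Real.circleAverage_def, smul_eq_mul] at hav
  have hCn : ‖(C : ℂ)‖ = C := by
    rw [Complex.norm_real, Real.norm_of_nonneg hC.le]
  rw [hCn] at hav
  have hcirc : ∀ t : ℝ, circleMap 0 ρ' t ≠ 0 := fun t => circleMap_ne_center h0.ne'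
  have hnorm : ∀ t : ℝ, ‖circleMap 0 ρ' t‖ = ρ' := fun t => by
    rw [norm_circleMap_zero, abs_of_pos h0]
  have hint : ∀ t : ℝ, Real.log ‖g (circleMap 0 ρ' t)‖ =
      Real.log ρ' + Real.log ‖φ (circleMap 0 ρ' t) - z‖ := by
    intro t
    rw [hgne _ (hcirc t), ← mul_sub, norm_mul, hnorm, Real.log_mul h0.ne']
    exact norm_ne_zero_iff.mpr (sub_ne_zero.mpr (hz _ (hcirc t) (hnorm t).le))
  have hci : Continuous fun t : ℝ => Real.log ‖φ (circleMap 0 ρ' t) - z‖ := by
    rw [continuous_iff_continuousAt]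
    intro t
    have h9 : ContinuousAt φ (circleMap 0 ρ' t) :=
      (hd _ (hcirc t) (by rw [hnorm]; exact h1)).continuousAt
    have h10 : ContinuousAt (fun t : ℝ => φ (circleMap 0 ρ' t)) t :=
      ContinuousAt.comp (f := circleMap 0 ρ') h9 (continuous_circleMap 0 ρ').continuousAt
    refine ContinuousAt.log (h10.sub continuousAt_const).norm ?_
    exact norm_ne_zero_iff.mpr (sub_ne_zero.mpr (hz _ (hcirc t) (hnorm t).le))
  simp only [hint] at hav
  rw [intervalIntegral.integral_add (by simp) (hci.intervalIntegrable _ _),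
    intervalIntegral.integral_const, sub_zero, smul_eq_mul, mul_add, ← mul_assoc,
    inv_mul_cancel₀ (by positivity), one_mul] at hav
  linarith

end StarCheb

open StarCheb in
theorem s_StarCheb : ChebVdm → StarInv → StarCheb := by
  intro hCheb hInv F T φ C ρ hφ hρ0 hρ1 hT
  obtain ⟨hF, -, ψ, hψ, hψφ, -, χ, r, hr, hχ, hχ0, -, hinf⟩ := hInv F φ C hφ
  -- `T` is bounded
  have hbdd : Bornology.IsBounded T := by
    have h1 : Tendsto χ (𝓝 0) (𝓝 0) := by
      have := (hχ 0 (by rw [norm_zero]; exact hr)).1.continuousAt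
      rw [ContinuousAt, hχ0] at this
      exact this
    have h2 : ∀ᶠ w in 𝓝 (0 : ℂ), ‖χ w‖ < ρ := by
      have := h1 (ball_mem_nhds 0 hρ0)
      filter_upwards [this] with w hw
      simpa using hw
    obtain ⟨s, hs, hs'⟩ := Metric.eventually_nhds_iff.mp h2
    refine (isBounded_closedBall (x := (0 : ℂ)) (r := max (1 / r) (1 / s))).subset ?_
    intro z hz
    rw [mem_closedBall_zero_iff]
    by_contra hcon
    rw [not_le, max_lt_iff] at hcon
    obtain ⟨hzr, hzs⟩ := hcon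
    obtain ⟨hzF, hzψ⟩ := hinf z hzr
    have hz0 : 0 < ‖z‖ := lt_trans (by positivity) hzr
    obtain ⟨p1, -, p3, -⟩ := hψ z hzF
    refine hT (ψ z) p1 ?_ (by rw [p3]; exact hz)
    rw [hzψ]
    apply le_of_lt
    apply hs'
    rw [dist_zero_right, norm_inv, inv_lt_comm₀ hz0 hs, ← one_div]
    exact hzs
  -- the closure of `T` avoids the open region
  have hK : ∀ z ∈ closure T, ∀ ζ, ζ ≠ 0 → ‖ζ‖ < ρ → φ ζ ≠ z := by
    rintro z hz ζ hζ hζρ rfl
    have hzF : φ ζ ∉ F := by
      have : φ ζ ∈ φ '' {ζ | ζ ≠ 0 ∧ ‖ζ‖ < 1} := ⟨ζ, ⟨hζ, by linarith⟩, rfl⟩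
      rw [hφ.image] at this
      exact this
    obtain ⟨-, -, -, q4, -⟩ := hψ _ hzF
    have q5 := (hψφ ζ hζ (by linarith)).1
    have q6 : ∀ᶠ w in 𝓝 (φ ζ), ‖ψ w‖ < ρ := by
      have h3 : Tendsto (fun w => ‖ψ w‖) (𝓝 (φ ζ)) (𝓝 ‖ζ‖) := by
        have := q4.continuousAt.norm
        rw [ContinuousAt, q5] at this
        exact this
      exact h3.eventually (gt_mem_nhds hζρ)
    have q7 : ∀ᶠ w in 𝓝 (φ ζ), w ∉ F := hF.isClosed.isOpen_compl.mem_nhds hzF
    obtain ⟨w, hwT, hw1, hw2⟩ := (mem_closure_iff_frequently.mp hz).and_eventually (q6.and q7)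
      |>.exists
    obtain ⟨p1, -, p3, -⟩ := hψ w hw2
    exact hT (ψ w) p1 hw1.le (by rw [p3]; exact hwT)
  have hKc : IsCompact (closure T) := hbdd.isCompact_closure
  -- the bound with `ε`
  have hC := hφ.Cpos
  have main : ∀ ε : ℝ, 0 < ε → tcap T ≤ C / ρ * Real.exp (2 * ε) := by
    intro ε hε
    set ρ' : ℝ := ρ * Real.exp (-ε) with hρ'
    have hρ'0 : 0 < ρ' := by positivity
    have hρ'ρ : ρ' < ρ := by
      have : Real.exp (-ε) < 1 := by
        rw [Real.exp_lt_one_iff]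
        linarith
      nlinarith
    have hρ'1 : ρ' < 1 := hρ'ρ.trans hρ1
    have hcirc : ∀ t : ℝ, circleMap 0 ρ' t ≠ 0 := fun t => circleMap_ne_center hρ'0.ne'
    have hnorm : ∀ t : ℝ, ‖circleMap 0 ρ' t‖ = ρ' := fun t => by
      rw [norm_circleMap_zero, abs_of_pos hρ'0]
    have hcφ : Continuous fun t : ℝ => φ (circleMap 0 ρ' t) := by
      rw [continuous_iff_continuousAt]
      intro t
      have h9 : ContinuousAt φ (circleMap 0 ρ' t) :=
        (hφ.anal _ (hcirc t) (by rw [hnorm]; exact hρ'1)).continuousAt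
      exact ContinuousAt.comp (f := circleMap 0 ρ') h9 (continuous_circleMap 0 ρ').continuousAt
    have hcf : ContinuousOn (fun p : ℝ × ℂ => Real.log ‖φ (circleMap 0 ρ' p.1) - p.2‖)
        (Icc 0 (2 * Real.pi) ×ˢ closure T) := by
      refine ContinuousOn.log ?_ ?_
      · have h4 : Continuous fun p : ℝ × ℂ => ‖φ (circleMap 0 ρ' p.1) - p.2‖ :=
          ((hcφ.comp continuous_fst).sub continuous_snd).norm
        exact h4.continuousOn
      · rintro ⟨t, z⟩ ⟨-, hz⟩
        exact norm_ne_zero_iff.mpr (sub_ne_zero.mpr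
          (hK z hz _ (hcirc t) (by rw [hnorm]; exact hρ'ρ)))
    obtain ⟨M, hM, hsum⟩ := riemann hKc (fun t z => Real.log ‖φ (circleMap 0 ρ' t) - z‖) hcf hε
    have hM0 : (0 : ℝ) < M := by exact_mod_cast hM
    set q : Polynomial ℂ := ∏ l ∈ Finset.range M,
      (Polynomial.X - Polynomial.C (φ (circleMap 0 ρ' (2 * Real.pi * l / M)))) with hq
    have hqm : q.Monic := Polynomial.monic_prod_of_monic _ _ fun l _ => Polynomial.monic_X_sub_C _
    have hqd : q.natDegree = M := by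
      rw [hq, Polynomial.natDegree_prod_of_monic _ _ fun l _ => Polynomial.monic_X_sub_C _]
      simp
    have hB : 0 < C / ρ * Real.exp (2 * ε) := by positivity
    refine hCheb T q _ hbdd hB hqm (by rw [hqd]; exact hM) ?_
    intro z hz
    have hzK : z ∈ closure T := subset_closure hz
    have h5 := hsum z hzK
    have h6 := mean hC hρ'0 hρ'1 hφ.anal hφ.pole
      (fun ζ hζ hζ' => hK z hzK ζ hζ (lt_of_le_of_lt hζ' hρ'ρ))
    rw [h6] at h5
    rw [hqd, hq, Polynomial.eval_prod, norm_prod]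
    have hpos : ∀ l ∈ Finset.range M,
        ‖Polynomial.eval z (Polynomial.X - Polynomial.C (φ (circleMap 0 ρ' (2 * Real.pi * l / M))))‖ =
        Real.exp (Real.log ‖φ (circleMap 0 ρ' (2 * Real.pi * l / M)) - z‖) := by
      intro l _
      rw [Real.exp_log]
      · simp [norm_sub_rev]
      · exact norm_pos_iff.mpr (sub_ne_zero.mpr
          (hK z hzK _ (hcirc _) (by rw [hnorm]; exact hρ'ρ)))
    rw [Finset.prod_congr rfl hpos, ← Real.exp_sum]
    have h7 : (C / ρ * Real.exp (2 * ε)) ^ M = Real.exp (M * (Real.log C - Real.log ρ' + ε)) := by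
      rw [Real.exp_nat_mul]
      congr 1
      rw [Real.exp_add, Real.exp_sub, Real.exp_log hC, Real.exp_log hρ'0, hρ', two_mul,
        Real.exp_add, Real.exp_neg]
      field_simp
    rw [h7]
    exact Real.exp_le_exp.mpr h5
  have hlim : Tendsto (fun ε : ℝ => C / ρ * Real.exp (2 * ε)) (𝓝[>] 0) (𝓝 (C / ρ)) := by
    have h8 : Continuous fun ε : ℝ => C / ρ * Real.exp (2 * ε) := by fun_prop
    have h9 := h8.tendsto 0
    simp only [mul_zero, Real.exp_zero, mul_one] at h9
    exact h9.mono_left nhdsWithin_le_nhds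
  refine ge_of_tendsto hlim ?_
  filter_upwards [self_mem_nhdsWithin] with ε hε
  exact main ε hε

end Pool.MP_31392c_an
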