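import Mathlib
import Pool.Agent.Lib.MP_31392c_an.Full.SpecS

/-!
# MP_31392c_an full proof: complements of stars and segments are connected
-/

set_option autoImplicit false

open MeasureTheory Set Filter Topology Metric

namespace Pool.MP_31392c_an

namespace StarConn

theorem outer_preconnected (a : ℂ) {R : ℝ} (hR : 0 ≤ R) :
    IsPreconnected {w : ℂ | R < ‖w - a‖} := by
  have h1 : IsPreconnected ((Ioi R) ×ˢ (univ : Set ℝ)) :=
    isPreconnected_Ioi.prod isPreconnected_univ
  have h2 : Continuous fun p : ℝ × ℝ => a + (p.1 : ℂ) * Complex.exp ((p.2 : ℂ) * Complex.I) := by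
    fun_prop
  have h3 := h1.image _ h2.continuousOn
  have h4 : (fun p : ℝ × ℝ => a + (p.1 : ℂ) * Complex.exp ((p.2 : ℂ) * Complex.I)) ''
      ((Ioi R) ×ˢ (univ : Set ℝ)) = {w : ℂ | R < ‖w - a‖} := by
    ext w
    constructor
    · rintro ⟨⟨r, θ⟩, ⟨hr, -⟩, rfl⟩
      have hr' : R < r := hr
      have hr0 : 0 < r := hR.trans_lt hr'
      have : ‖a + (r : ℂ) * Complex.exp ((θ : ℂ) * Complex.I) - a‖ = r := by
        rw [add_sub_cancel_left, norm_mul, Complex.norm_exp_ofReal_mul_I, mul_one,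
          Complex.norm_real, Real.norm_eq_abs, abs_of_pos hr0]
      simp only [mem_setOf_eq, this]
      exact hr'
    · intro hw
      refine ⟨(‖w - a‖, Complex.arg (w - a)), ⟨hw, mem_univ _⟩, ?_⟩
      simp only [Complex.norm_mul_exp_arg_mul_I]
      ring
  rwa [h4] at h3

theorem compl_preconnected {F : Set ℂ} {a : ℂ} {R : ℝ} (hR : 0 ≤ R)
    (hb : ∀ z ∈ F, ‖z - a‖ ≤ R) (ha : a ∈ F)
    (hs : ∀ z, ∀ t : ℝ, 1 ≤ t → a + (t : ℂ) * (z - a) ∈ F → z ∈ F) : IsPreconnected Fᶜ := by
  have hout : {w : ℂ | R < ‖w - a‖} ⊆ Fᶜ := by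
    intro w hw hwF
    have h1 := hb w hwF
    have h2 : R < ‖w - a‖ := hw
    linarith
  have hx : a + ((R + 1 : ℝ) : ℂ) ∈ {w : ℂ | R < ‖w - a‖} := by
    have : ‖a + ((R + 1 : ℝ) : ℂ) - a‖ = R + 1 := by
      rw [add_sub_cancel_left, Complex.norm_real, Real.norm_eq_abs, abs_of_pos (by linarith)]
    simp only [mem_setOf_eq, this]
    linarith
  refine isPreconnected_of_forall (a + ((R + 1 : ℝ) : ℂ)) fun z hz => ?_
  have hza : z - a ≠ 0 := by
    intro h
    apply hz
    rw [sub_eq_zero.mp h]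
    exact ha
  have hray : IsPreconnected ((fun t : ℝ => a + (t : ℂ) * (z - a)) '' Ici 1) := by
    refine isPreconnected_Ici.image _ ?_
    have : Continuous fun t : ℝ => a + (t : ℂ) * (z - a) := by fun_prop
    exact this.continuousOn
  have hpos : 0 < ‖z - a‖ := norm_pos_iff.mpr hza
  have hmeet : ∃ w, w ∈ {w : ℂ | R < ‖w - a‖} ∧
      w ∈ (fun t : ℝ => a + (t : ℂ) * (z - a)) '' Ici 1 := by
    have ht0 : 0 ≤ (R + 1) / ‖z - a‖ := by positivity
    refine ⟨a + ((1 + (R + 1) / ‖z - a‖ : ℝ) : ℂ) * (z - a), ?_,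
      ⟨1 + (R + 1) / ‖z - a‖, ?_, rfl⟩⟩
    · have : ‖a + ((1 + (R + 1) / ‖z - a‖ : ℝ) : ℂ) * (z - a) - a‖ = ‖z - a‖ + (R + 1) := by
        rw [add_sub_cancel_left, norm_mul, Complex.norm_real, Real.norm_eq_abs,
          abs_of_pos (by linarith)]
        field_simp
      simp only [mem_setOf_eq, this]
      linarith
    · simp only [mem_Ici]
      linarith
  obtain ⟨w, hw1, hw2⟩ := hmeet
  refine ⟨{w : ℂ | R < ‖w - a‖} ∪ (fun t : ℝ => a + (t : ℂ) * (z - a)) '' Ici 1, ?_, Or.inl hx,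
    Or.inr ⟨1, mem_Ici.mpr le_rfl, by simp⟩,
    IsPreconnected.union w hw1 hw2 (outer_preconnected a hR) hray⟩
  refine union_subset hout ?_
  rintro _ ⟨t, ht, rfl⟩ hmem
  exact hz (hs z t ht hmem)

end StarConn

theorem s_StarConn : StarConn := by
  refine ⟨?_, ?_⟩
  · intro N θ x hN hx
    refine StarConn.compl_preconnected (a := 0) (R := ∑ j, x j)
      (Finset.sum_nonneg fun j _ => hx j) ?_ ?_ ?_
    · rintro z ⟨j, r, hr0, hr1, rfl⟩
      have h1 : ‖(0 : ℂ) + (r : ℂ) * Complex.exp ((θ j : ℂ) * Complex.I) - 0‖ = r := by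
        rw [zero_add, sub_zero, norm_mul, Complex.norm_exp_ofReal_mul_I, mul_one,
          Complex.norm_real, Real.norm_eq_abs, abs_of_nonneg hr0]
      rw [h1]
      exact hr1.trans (Finset.single_le_sum (f := x) (fun i _ => hx i) (Finset.mem_univ j))
    · exact ⟨⟨0, hN⟩, 0, le_rfl, hx _, by simp⟩
    · rintro z t ht ⟨j, r, hr0, hr1, h⟩
      have ht0 : (0 : ℝ) < t := by linarith
      have htc : (t : ℂ) ≠ 0 := by exact_mod_cast ht0.ne'
      refine ⟨j, r / t, by positivity, ?_, ?_⟩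
      · calc r / t ≤ r / 1 := div_le_div_of_nonneg_left hr0 one_pos ht
          _ ≤ x j := by rw [div_one]; exact hr1
      · have h' : (t : ℂ) * z = (r : ℂ) * Complex.exp ((θ j : ℂ) * Complex.I) := by
          simpa using h
        have : z = (t : ℂ)⁻¹ * ((r : ℂ) * Complex.exp ((θ j : ℂ) * Complex.I)) := by
          rw [← h', inv_mul_cancel_left₀ htc]
        rw [this]
        push_cast
        field_simp
        ring
  · intro a b
    refine StarConn.compl_preconnected (a := a) (R := ‖b - a‖) (norm_nonneg _) ?_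
      (left_mem_segment ℝ a b) ?_
    · intro z hz
      rw [segment_eq_image'] at hz
      obtain ⟨s, ⟨hs0, hs1⟩, rfl⟩ := hz
      have : ‖a + s • (b - a) - a‖ = s * ‖b - a‖ := by
        rw [add_sub_cancel_left, norm_smul, Real.norm_eq_abs, abs_of_nonneg hs0]
      simp only [this]
      exact mul_le_of_le_one_left (norm_nonneg _) hs1
    · intro z t ht hz
      rw [segment_eq_image'] at hz ⊢
      obtain ⟨s, ⟨hs0, hs1⟩, h⟩ := hz
      have ht0 : (0 : ℝ) < t := by linarith
      have htc : (t : ℂ) ≠ 0 := by exact_mod_cast ht0.ne'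
      refine ⟨s / t, ⟨by positivity, ?_⟩, ?_⟩
      · calc s / t ≤ s / 1 := div_le_div_of_nonneg_left hs0 one_pos ht
          _ ≤ 1 := by rw [div_one]; exact hs1
      · have h' : (s : ℂ) * (b - a) = (t : ℂ) * (z - a) := by
          have h2 : a + s • (b - a) = a + (t : ℂ) * (z - a) := h
          have h3 := add_left_cancel h2
          rwa [Complex.real_smul] at h3
        have h4 : z - a = (t : ℂ)⁻¹ * ((s : ℂ) * (b - a)) := by
          rw [h', inv_mul_cancel_left₀ htc]
        show a + (s / t) • (b - a) = z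
        rw [Complex.real_smul]
        have h5 : z = a + (z - a) := by ring
        rw [h5, h4]
        push_cast
        field_simp

end Pool.MP_31392c_an
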