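import Mathlib
import Pool.Agent.Lib.MP_31392c_an.Full.SpecG

/-!
# MP_31392c_an: the inverse of a star map
-/

set_option autoImplicit false

open MeasureTheory Set Filter Topology Metric

namespace Pool.MP_31392c_an

namespace StarInv

/-- an injective analytic function has nonzero derivative -/
theorem deriv_ne {f : ℂ → ℂ} {a : ℂ} {U : Set ℂ} (hU : U ∈ 𝓝 a) (hf : AnalyticAt ℂ f a)
    (hi : InjOn f U) : deriv f a ≠ 0 := by
  intro h0
  set g : ℂ → ℂ := fun z => f z - f a with hg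
  have hga : AnalyticAt ℂ g a := by fun_prop
  have hne : analyticOrderAt g a ≠ ⊤ := by
    intro h
    rw [analyticOrderAt_eq_top] at h
    have h1 : ∀ᶠ z in 𝓝[≠] a, g z = 0 ∧ z ∈ U := (h.and hU).filter_mono nhdsWithin_le_nhds
    have h2 : ∀ᶠ z in 𝓝[≠] a, z ≠ a := eventually_mem_nhdsWithin
    obtain ⟨z, ⟨hz, hzU⟩, hza⟩ := (h1.and h2).exists
    have : f z = f a := by simpa [hg, sub_eq_zero] using hz
    exact hza (hi hzU (mem_of_mem_nhds hU) this)
  obtain ⟨n, hn⟩ := ENat.ne_top_iff_exists.mp hne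
  obtain ⟨h, hh, hh0, hev⟩ := (hga.analyticOrderAt_eq_natCast).1 hn.symm
  have hn0 : n ≠ 0 := by
    rintro rfl
    have := hev.self_of_nhds
    simp [hg] at this
    exact hh0 this.symm
  have hdg : deriv g a = 0 := by
    simp [hg, h0]
  have hn1 : n ≠ 1 := by
    rintro rfl
    have e1 : deriv g a = deriv (fun z => (z - a) ^ 1 • h z) a := Filter.EventuallyEq.deriv_eq hev
    have e2 : HasDerivAt (fun z => (z - a) ^ 1 • h z) (1 * h a + (a - a) * deriv h a) a := by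
      have h1 : HasDerivAt (fun z : ℂ => z - a) 1 a := (hasDerivAt_id a).sub_const a
      have := h1.mul hh.differentiableAt.hasDerivAt
      refine this.congr_of_eventuallyEq (Eventually.of_forall fun z => ?_)
      simp
    rw [hdg, e2.deriv] at e1
    simp at e1
    exact hh0 e1.symm
  have hnC : (n : ℂ) ≠ 0 := by exact_mod_cast hn0
  obtain ⟨c, hc⟩ : ∃ c : ℂ, c ^ n = h a := IsAlgClosed.exists_pow_nat_eq _ (Nat.pos_of_ne_zero hn0)
  have hc0 : c ≠ 0 := by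
    rintro rfl
    rw [zero_pow hn0] at hc
    exact hh0 hc.symm
  set k : ℂ → ℂ := fun z => Complex.exp (Complex.log (h z / h a) / n) with hk
  have hka : AnalyticAt ℂ k a := by
    have h1 : AnalyticAt ℂ (fun z => h z / h a) a := by fun_prop
    have h2 : h a / h a ∈ Complex.slitPlane := by
      rw [div_self hh0]; exact Complex.one_mem_slitPlane
    have h3 : AnalyticAt ℂ (fun z => Complex.log (h z / h a)) a := h1.clog h2
    fun_prop
  have hk1 : k a = 1 := by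
    simp [hk, div_self hh0]
  have hkn : ∀ᶠ z in 𝓝 a, k z ^ n = h z / h a := by
    filter_upwards [hh.continuousAt.eventually_ne hh0] with z hz
    have : h z / h a ≠ 0 := div_ne_zero hz hh0
    rw [hk]
    simp only
    rw [← Complex.exp_nat_mul, mul_div_cancel₀ _ hnC, Complex.exp_log this]
  set u : ℂ → ℂ := fun z => (z - a) * (c * k z) with hu
  have hua : AnalyticAt ℂ u a := by fun_prop
  have hu0 : u a = 0 := by simp [hu]
  have hdu : HasStrictDerivAt u (deriv u a) a := hua.hasStrictDerivAt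
  have hdu1 : deriv u a = c := by
    have h1 : HasDerivAt (fun z : ℂ => z - a) 1 a := (hasDerivAt_id a).sub_const a
    have h2 : HasDerivAt (fun z : ℂ => c * k z) (c * deriv k a) a :=
      hka.differentiableAt.hasDerivAt.const_mul c
    have := (h1.mul h2).deriv
    rw [show ((fun z : ℂ => z - a) * fun z : ℂ => c * k z) = u from rfl] at this
    rw [this, hk1]
    simp
  have hun : ∀ᶠ z in 𝓝 a, g z = u z ^ n := by
    filter_upwards [hev, hkn] with z h1 h2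
    rw [h1, hu]
    simp only
    rw [mul_pow, mul_pow, h2, hc, smul_eq_mul]
    field_simp
  have hmap : map u (𝓝 a) = 𝓝 0 := by
    rw [← hu0]
    exact hdu.map_nhds_eq (by rw [hdu1]; exact hc0)
  set V : Set ℂ := {z | z ∈ U ∧ g z = u z ^ n} with hV
  have hVm : V ∈ 𝓝 a := (show ∀ᶠ z in 𝓝 a, z ∈ U from hU).and hun
  have hI : u '' V ∈ 𝓝 (0 : ℂ) := by
    rw [← hmap]
    exact image_mem_map hVm
  set w0 : ℂ := Complex.exp (2 * Real.pi * Complex.I / n) with hw0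
  have hprim : IsPrimitiveRoot w0 n := Complex.isPrimitiveRoot_exp n hn0
  have hw1 : w0 ≠ 1 := hprim.ne_one (by omega)
  have hI2 : {w : ℂ | w0 * w ∈ u '' V} ∈ 𝓝 (0 : ℂ) := by
    have hcont : ContinuousAt (fun w : ℂ => w0 * w) 0 := by fun_prop
    apply hcont
    simpa using hI
  have h3 : ∀ᶠ w in 𝓝[≠] (0 : ℂ), w ∈ u '' V ∧ w0 * w ∈ u '' V :=
    (show ∀ᶠ w in 𝓝 (0 : ℂ), w ∈ u '' V ∧ w0 * w ∈ u '' V from
      (show ∀ᶠ w in 𝓝 (0 : ℂ), w ∈ u '' V from hI).and hI2).filter_mono nhdsWithin_le_nhds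
  have h4 : ∀ᶠ w in 𝓝[≠] (0 : ℂ), w ≠ 0 := eventually_mem_nhdsWithin
  obtain ⟨w, ⟨⟨z1, hz1, e1⟩, ⟨z2, hz2, e2⟩⟩, hw⟩ := (h3.and h4).exists
  have e3 : g z1 = g z2 := by
    rw [hz1.2, hz2.2, e1, e2, mul_pow, hprim.pow_eq_one, one_mul]
  have e4 : f z1 = f z2 := by simpa [hg] using e3
  have e5 : z1 = z2 := hi hz1.1 hz2.1 e4
  rw [← e5, e1] at e2
  have : w0 = 1 := by
    have := mul_right_cancel₀ hw (show w0 * w = 1 * w by rw [one_mul]; exact e2.symm)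
    exact this
  exact hw1 this

/-- the punctured open disc -/
def D : Set ℂ := {ζ | ζ ≠ 0 ∧ ‖ζ‖ < 1}

theorem isOpen_D : IsOpen D := by
  have h1 : IsOpen {ζ : ℂ | ζ ≠ 0} := isOpen_ne
  have h2 : IsOpen {ζ : ℂ | ‖ζ‖ < 1} := isOpen_lt continuous_norm continuous_const
  exact h1.inter h2

theorem anal {F : Set ℂ} {φ : ℂ → ℂ} {C : ℝ} (h : StarMap F φ C) {ζ : ℂ} (hζ : ζ ∈ D) :
    AnalyticAt ℂ φ ζ := by
  have : DifferentiableOn ℂ φ D := fun z hz => (h.anal z hz.1 hz.2).differentiableWithinAt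
  exact this.analyticAt (isOpen_D.mem_nhds hζ)

theorem dne {F : Set ℂ} {φ : ℂ → ℂ} {C : ℝ} (h : StarMap F φ C) {ζ : ℂ} (hζ : ζ ∈ D) :
    deriv φ ζ ≠ 0 := deriv_ne (isOpen_D.mem_nhds hζ) (anal h hζ) h.inj

/-- the function `1/φ` near zero -/
theorem omega {F : Set ℂ} {φ : ℂ → ℂ} {C : ℝ} (h : StarMap F φ C) :
    ∃ (ω : ℂ → ℂ) (r : ℝ), 0 < r ∧ r < 1 ∧ (∀ ζ, ‖ζ‖ < r → AnalyticAt ℂ ω ζ) ∧ ω 0 = 0 ∧
      deriv ω 0 = (C : ℂ)⁻¹ ∧ ∀ ζ, ζ ≠ 0 → ‖ζ‖ < r → φ ζ ≠ 0 ∧ ω ζ = (φ ζ)⁻¹ := by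
  have hC : (C : ℂ) ≠ 0 := by exact_mod_cast h.Cpos.ne'
  have h1 : ∀ᶠ ζ in 𝓝[≠] (0 : ℂ), ζ * φ ζ ≠ 0 := h.pole.eventually_ne hC
  rw [eventually_nhdsWithin_iff, Metric.eventually_nhds_iff] at h1
  obtain ⟨r0, hr0, h2⟩ := h1
  set r : ℝ := min r0 (1 / 2) with hr
  have hrpos : 0 < r := lt_min hr0 (by norm_num)
  have hr1 : r < 1 := lt_of_le_of_lt (min_le_right _ _) (by norm_num)
  have hφ : ∀ ζ, ζ ≠ 0 → ‖ζ‖ < r → φ ζ ≠ 0 := by
    intro ζ h3 h4 h5
    refine h2 (y := ζ) ?_ h3 (by rw [h5, mul_zero])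
    rw [dist_zero_right]
    exact lt_of_lt_of_le h4 (min_le_left _ _)
  set q : ℂ → ℂ := Function.update (fun ζ => (ζ * φ ζ)⁻¹) 0 ((C : ℂ)⁻¹) with hq
  set ω : ℂ → ℂ := fun ζ => ζ * q ζ with hω
  have hq0 : q 0 = (C : ℂ)⁻¹ := by simp [hq]
  have hωz : ∀ ζ, ζ ≠ 0 → ω ζ = (φ ζ)⁻¹ := by
    intro ζ hζ
    rw [hω, hq]
    simp only
    rw [Function.update_of_ne hζ, mul_inv, ← mul_assoc, mul_inv_cancel₀ hζ, one_mul]
  have hqc : ContinuousAt q 0 := by
    rw [hq, continuousAt_update_same]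
    exact h.pole.inv₀ hC
  have hqd : ∀ᶠ z in 𝓝[≠] (0 : ℂ), DifferentiableAt ℂ q z := by
    rw [eventually_nhdsWithin_iff, Metric.eventually_nhds_iff]
    refine ⟨r, hrpos, fun z hz hz0 => ?_⟩
    rw [dist_zero_right] at hz
    have hz0' : z ≠ 0 := hz0
    have e1 : q =ᶠ[𝓝 z] fun ζ => (ζ * φ ζ)⁻¹ := by
      filter_upwards [isOpen_ne.mem_nhds hz0'] with y hy
      rw [hq, Function.update_of_ne hy]
    rw [e1.differentiableAt_iff]
    have h3 : DifferentiableAt ℂ φ z := h.anal z hz0' (hz.trans hr1)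
    have h4 : DifferentiableAt ℂ (fun ζ => ζ * φ ζ) z := differentiableAt_id.mul h3
    exact h4.inv (mul_ne_zero hz0' (hφ z hz0' hz))
  have hqa : AnalyticAt ℂ q 0 :=
    Complex.analyticAt_of_differentiable_on_punctured_nhds_of_continuousAt hqd hqc
  refine ⟨ω, r, hrpos, hr1, ?_, by simp [hω], ?_, fun ζ h3 h4 => ⟨hφ ζ h3 h4, hωz ζ h3⟩⟩
  · intro ζ hζ
    by_cases h3 : ζ = 0
    · subst h3
      exact analyticAt_id.mul hqa
    · have e1 : ω =ᶠ[𝓝 ζ] fun z => (φ z)⁻¹ := by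
        filter_upwards [isOpen_ne.mem_nhds h3] with y hy
        exact hωz y hy
      rw [analyticAt_congr e1]
      exact (anal h ⟨h3, hζ.trans hr1⟩).inv (hφ ζ h3 hζ)
  · have h3 := (hasDerivAt_id (0 : ℂ)).mul hqa.differentiableAt.hasDerivAt
    have h4 : (id * q) = ω := rfl
    rw [h4] at h3
    rw [h3.deriv, hq0]
    simp

end StarInv

open StarInv in
theorem s_StarInv : StarInv := by
  intro F φ C h
  obtain ⟨ω, r, hr0, hr1, hωa, hω0, hωd, hω⟩ := omega h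
  have hC : (C : ℂ) ≠ 0 := by exact_mod_cast h.Cpos.ne'
  set ψ : ℂ → ℂ := Function.invFunOn φ D with hψ
  have himg : φ '' D = Fᶜ := h.image
  have hex : ∀ z, z ∉ F → ∃ ζ ∈ D, φ ζ = z := by
    intro z hz
    have : z ∈ φ '' D := by rw [himg]; exact hz
    exact this
  have hψD : ∀ z, z ∉ F → ψ z ∈ D := fun z hz => Function.invFunOn_mem (hex z hz)
  have hφψ : ∀ z, z ∉ F → φ (ψ z) = z := fun z hz => Function.invFunOn_eq (hex z hz)
  have hφF : ∀ ζ, ζ ∈ D → φ ζ ∉ F := by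
    intro ζ hζ
    have : φ ζ ∈ φ '' D := mem_image_of_mem _ hζ
    rw [himg] at this
    exact this
  have hψφ : ∀ ζ, ζ ∈ D → ψ (φ ζ) = ζ := by
    intro ζ hζ
    exact h.inj (hψD _ (hφF ζ hζ)) hζ (hφψ _ (hφF ζ hζ))
  have hψev : ∀ ζ, ζ ∈ D → ∀ᶠ x in 𝓝 ζ, ψ (φ x) = x := by
    intro ζ hζ
    filter_upwards [isOpen_D.mem_nhds hζ] with x hx
    exact hψφ x hx
  have hψa : ∀ ζ, ζ ∈ D → AnalyticAt ℂ ψ (φ ζ) ∧ deriv ψ (φ ζ) * deriv φ ζ = 1 := by
    intro ζ hζ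
    have h1 : ψ ∘ φ =ᶠ[𝓝 ζ] id := hψev ζ hζ
    have h2 : AnalyticAt ℂ (ψ ∘ φ) ζ := by
      rw [analyticAt_congr h1]; exact analyticAt_id
    have h3 : AnalyticAt ℂ ψ (φ ζ) :=
      (analyticAt_comp_iff_of_deriv_ne_zero (anal h hζ) (dne h hζ)).1 h2
    refine ⟨h3, ?_⟩
    have h4 := h3.differentiableAt.hasDerivAt.comp ζ (anal h hζ).differentiableAt.hasDerivAt
    have h5 : deriv (ψ ∘ φ) ζ = 1 := by
      rw [h1.deriv_eq]; simp
    rw [← h5, h4.deriv]
  -- the local inverse at infinity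
  have hωs : AnalyticAt ℂ ω 0 := hωa 0 (by simpa using hr0)
  have hωd' : deriv ω 0 ≠ 0 := by rw [hωd]; exact inv_ne_zero hC
  set χ : ℂ → ℂ := hωs.hasStrictDerivAt.localInverse _ _ _ hωd' with hχ
  have hχa : AnalyticAt ℂ χ 0 := by
    have := hωs.analyticAt_localInverse hωd'
    rwa [hω0] at this
  have hχ0 : χ 0 = 0 := by
    have := (hωs.hasStrictDerivAt.eventually_left_inverse hωd').self_of_nhds
    rwa [hω0] at this
  have hχr : ∀ᶠ w in 𝓝 (0 : ℂ), ω (χ w) = w := by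
    have := hωs.hasStrictDerivAt.eventually_right_inverse hωd'
    rwa [hω0] at this
  have hχd : deriv χ 0 = (C : ℂ) := by
    have := (hωs.hasStrictDerivAt.to_localInverse hωd').hasDerivAt.deriv
    rw [hω0, ← hχ] at this
    rw [this, hωd, inv_inv]
  have hχn : ∀ᶠ w in 𝓝 (0 : ℂ), ‖χ w‖ < r := by
    have hc : ContinuousAt (fun w => ‖χ w‖) 0 := hχa.continuousAt.norm
    have : ∀ᶠ w in 𝓝 (0 : ℂ), ‖χ w‖ < r := hc.eventually_lt_const (by simpa [hχ0] using hr0)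
    exact this
  have hall := (hχa.eventually_analyticAt.and (hχr.and hχn))
  rw [Metric.eventually_nhds_iff] at hall
  obtain ⟨ρ, hρ, hall⟩ := hall
  have hχne : ∀ w, ‖w‖ < ρ → w ≠ 0 → χ w ≠ 0 := by
    intro w hw hw0 h1
    have h2 := (hall (y := w) (by rwa [dist_zero_right])).2.1
    rw [h1, hω0] at h2
    exact hw0 h2.symm
  have hinf : ∀ z, 1 / ρ < ‖z‖ → z ∉ F ∧ ψ z = χ z⁻¹ := by
    intro z hz
    have hz0 : z ≠ 0 := by
      rintro rfl
      rw [norm_zero] at hz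
      exact absurd hz (not_lt.2 (by positivity))
    have hzi : ‖z⁻¹‖ < ρ := by
      rw [norm_inv, inv_lt_comm₀ (norm_pos_iff.2 hz0) hρ]
      rwa [one_div] at hz
    obtain ⟨h1, h2, h3⟩ := hall (y := z⁻¹) (by rwa [dist_zero_right])
    have h4 : χ z⁻¹ ≠ 0 := hχne _ hzi (inv_ne_zero hz0)
    have h5 : χ z⁻¹ ∈ D := ⟨h4, h3.trans hr1⟩
    have h6 : φ (χ z⁻¹) = z := by
      have := (hω _ h4 h3).2
      rw [h2] at this
      exact (inv_injective this).symm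
    have h7 := hφF _ h5
    rw [h6] at h7
    refine ⟨h7, ?_⟩
    have h8 := hψφ _ h5
    rwa [h6] at h8
  -- F is closed
  have hopen : IsOpen Fᶜ := by
    rw [← himg, isOpen_iff_mem_nhds]
    rintro _ ⟨ζ, hζ, rfl⟩
    rw [← (anal h hζ).hasStrictDerivAt.map_nhds_eq (dne h hζ)]
    exact image_mem_map (isOpen_D.mem_nhds hζ)
  have hclosed : IsClosed F := isOpen_compl_iff.1 hopen
  refine ⟨?_, ⟨ω, r, hr0, hr1, hωa, hω0, hωd, hω⟩, ψ, ?_, ?_, ?_, χ, ρ, hρ, ?_, hχ0, hχd, hinf⟩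
  · refine Metric.isCompact_of_isClosed_isBounded hclosed ?_
    refine (Metric.isBounded_closedBall (x := (0 : ℂ)) (r := 1 / ρ)).subset ?_
    intro z hz
    rw [mem_closedBall, dist_zero_right]
    by_contra hlt
    exact (hinf z (not_le.1 hlt)).1 hz
  · intro z hz
    have h1 := hψa (ψ z) (hψD z hz)
    rw [hφψ z hz] at h1
    exact ⟨(hψD z hz).1, (hψD z hz).2, hφψ z hz, h1.1, h1.2⟩
  · intro ζ h1 h2
    exact ⟨hψφ ζ ⟨h1, h2⟩, anal h ⟨h1, h2⟩, dne h ⟨h1, h2⟩⟩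
  · intro s hs0 hs1
    apply IsSeqClosed.isClosed
    intro x z hx hz
    have hcomp : IsCompact (closedBall (0 : ℂ) s) := isCompact_closedBall _ _
    have hmem : ∀ n, ψ (x n) ∈ closedBall (0 : ℂ) s := by
      intro n
      rw [mem_closedBall, dist_zero_right]
      exact (hx n).2
    obtain ⟨ζ, hζ, g, hg, hlim⟩ := hcomp.tendsto_subseq hmem
    have hxg : Tendsto (fun n => x (g n)) atTop (𝓝 z) := hz.comp hg.tendsto_atTop
    have hφx : ∀ n, φ (ψ (x (g n))) = x (g n) := fun n => hφψ _ (hx (g n)).1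
    have hζs : ‖ζ‖ ≤ s := by simpa using hζ
    by_cases hζ0 : ζ = 0
    · exfalso
      have h1 : Tendsto (fun n => ψ (x (g n))) atTop (𝓝[≠] 0) := by
        rw [tendsto_nhdsWithin_iff]
        refine ⟨by rw [hζ0] at hlim; exact hlim, Eventually.of_forall fun n => ?_⟩
        exact (hψD _ (hx (g n)).1).1
      have h2 := h.pole.comp h1
      have h3 : Tendsto (fun n => ψ (x (g n)) * x (g n)) atTop (𝓝 (0 * z)) := by
        refine Tendsto.mul ?_ hxg
        rw [hζ0] at hlim; exact hlim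
      have h4 : ((fun ζ => ζ * φ ζ) ∘ fun n => ψ (x (g n))) = fun n => ψ (x (g n)) * x (g n) := by
        funext n
        simp only [Function.comp, hφx n]
      rw [h4] at h2
      have := tendsto_nhds_unique h2 h3
      rw [zero_mul] at this
      exact hC this
    · have hζD : ζ ∈ D := ⟨hζ0, lt_of_le_of_lt hζs hs1⟩
      have h1 : Tendsto (fun n => φ (ψ (x (g n)))) atTop (𝓝 (φ ζ)) :=
        (anal h hζD).continuousAt.tendsto.comp hlim
      have h2 : (fun n => φ (ψ (x (g n)))) = fun n => x (g n) := by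
        funext n; exact hφx n
      rw [h2] at h1
      have h3 : z = φ ζ := tendsto_nhds_unique hxg h1
      refine ⟨?_, ?_⟩
      · rw [h3]; exact hφF _ hζD
      · rw [h3, hψφ _ hζD]; exact hζs
  · intro w hw
    obtain ⟨h1, h2, h3⟩ := hall (y := w) (by rwa [dist_zero_right])
    exact ⟨h1, h3.trans hr1, hχne w hw⟩

end Pool.MP_31392c_an
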