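import Mathlib
import Pool.Agent.Lib.MP_31392c_an.Full.SpecK

/-!
# MP_31392c_an full proof: modulus of continuity of `kap` in the arm lengths
-/

set_option autoImplicit false

open MeasureTheory Set Filter Topology Metric

namespace Pool.MP_31392c_an

namespace StarMod

/-- The unit vector of angle `t`. -/
noncomputable def ev (t : ℝ) : ℂ := Complex.exp ((t : ℂ) * Complex.I)

lemma norm_ev (t : ℝ) : ‖ev t‖ = 1 := Complex.norm_exp_ofReal_mul_I t

lemma arm_subset {N : ℕ} (c : ℂ) (θ x : Fin N → ℝ) (j : Fin N) (hx : 0 ≤ x j) :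
    segment ℝ c (c + (x j : ℂ) * ev (θ j)) ⊆ starSet c θ x := by
  intro z hz
  rw [segment_eq_image'] at hz
  obtain ⟨t, ht, rfl⟩ := hz
  refine ⟨j, t * x j, mul_nonneg ht.1 hx, ?_, ?_⟩
  · calc t * x j ≤ 1 * x j := by gcongr; exact ht.2
      _ = x j := one_mul _
  · simp only [add_sub_cancel_left, Complex.real_smul, Complex.ofReal_mul]
    unfold ev
    ring

end StarMod

open StarMod in
/-- Modulus of continuity of `kap` in the arm lengths. -/
theorem s_StarMod : KapMod → KapBasic → StarNull → StarMod := by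
  intro hKM hKB hSN N c θ x y i₀ K ℓ d hℓ hd hK hi₀ hx hxy hor
  have hsub : starSet c θ x ∪ K ⊆ starSet c θ y ∪ K := by
    refine union_subset_union_left K ?_
    rintro z ⟨j, r, hr0, hr, rfl⟩
    exact ⟨j, r, hr0, hr.trans (hxy j).1, rfl⟩
  have hbdx : Bornology.IsBounded (starSet c θ x ∪ K) :=
    (hSN.1 N c θ x).1.isBounded.union (hSN.2.2 K hK).1.isBounded
  have hbdy : Bornology.IsBounded (starSet c θ y ∪ K) :=
    (hSN.1 N c θ y).1.isBounded.union (hSN.2.2 K hK).1.isBounded
  have hnorm : ∀ j, ‖c + (x j : ℂ) * ev (θ j) - c‖ = x j := by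
    intro j
    rw [add_sub_cancel_left, norm_mul, norm_ev, mul_one, Complex.norm_real, Real.norm_eq_abs,
      abs_of_nonneg (hx j)]
  have hfat : Fat (starSet c θ x ∪ K) := by
    refine ⟨hbdx, c, c + (x i₀ : ℂ) * ev (θ i₀), ?_, ?_⟩
    · intro he
      have h1 := hnorm i₀
      rw [← he, sub_self, norm_zero] at h1
      linarith
    · exact (arm_subset c θ x i₀ (hx i₀)).trans subset_union_left
  refine ⟨hKB.2.2.1 _ _ hfat hbdy hsub, ?_⟩
  refine hKM _ _ ℓ d hfat hbdy hsub hℓ hd ?_
  rintro z (hz | hz)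
  · obtain ⟨j, r, hr0, hr, rfl⟩ := hz
    by_cases hrx : r ≤ x j
    · left
      left
      exact ⟨j, r, hr0, hrx, rfl⟩
    · right
      rw [not_le] at hrx
      rcases hor j (hrx.trans_le hr) with h1 | h1
      · refine ⟨c, c + (x j : ℂ) * ev (θ j), c + (x j : ℂ) * ev (θ j), ?_, ?_, ?_, ?_⟩
        · exact (arm_subset c θ x j (hx j)).trans subset_union_left
        · rw [hnorm]; exact h1
        · exact right_mem_segment ℝ _ _
        · have : c + (r : ℂ) * Complex.exp ((θ j : ℂ) * Complex.I) - (c + (x j : ℂ) * ev (θ j)) =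
              ((r - x j : ℝ) : ℂ) * ev (θ j) := by
            unfold ev
            push_cast
            ring
          rw [this, norm_mul, norm_ev, mul_one, Complex.norm_real, Real.norm_eq_abs,
            abs_of_pos (sub_pos.2 hrx)]
          linarith [(hxy j).2]
      · refine ⟨c, c + (x i₀ : ℂ) * ev (θ i₀), c, ?_, ?_, ?_, ?_⟩
        · exact (arm_subset c θ x i₀ (hx i₀)).trans subset_union_left
        · rw [hnorm]; exact hi₀
        · exact left_mem_segment ℝ _ _
        · rw [add_sub_cancel_left, norm_mul, Complex.norm_real, Real.norm_eq_abs,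
            abs_of_nonneg hr0, Complex.norm_exp_ofReal_mul_I, mul_one]
          linarith [(hxy j).2]
  · left
    right
    exact hz

end Pool.MP_31392c_an
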