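import Pool.Agent.Lib.MP_31392c_an.Full.SpecG

/-!
# MP_31392c_an full proof: stars and finite unions of segments are compact null sets
-/

set_option autoImplicit false

open MeasureTheory Set Filter Topology Metric

namespace Pool.MP_31392c_an

namespace StarNull

private lemma line_null (a v : ℂ) : volume {z : ℂ | ∃ t : ℝ, z = a + t • v} = 0 := by
  have hsub : {z : ℂ | ∃ t : ℝ, z = a + t • v} ⊆
      ((AffineSubspace.mk' a (Submodule.span ℝ {v}) : AffineSubspace ℝ ℂ) : Set ℂ) := by
    rintro z ⟨t, rfl⟩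
    rw [SetLike.mem_coe, AffineSubspace.mem_mk']
    rw [vsub_eq_sub, add_sub_cancel_left]
    exact Submodule.smul_mem _ _ (Submodule.mem_span_singleton_self v)
  refine measure_mono_null hsub (Measure.addHaar_affineSubspace volume _ ?_)
  intro h
  have h1 : (Submodule.span ℝ {v} : Submodule ℝ ℂ) = ⊤ := by
    have := congrArg AffineSubspace.direction h
    rw [AffineSubspace.direction_mk', AffineSubspace.direction_top] at this
    exact this
  have h2 := finrank_span_le_card (R := ℝ) ({v} : Set ℂ)
  rw [h1, finrank_top, Complex.finrank_real_complex] at h2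
  simp at h2

private lemma seg_facts (a b : ℂ) : IsCompact (segment ℝ a b) ∧ volume (segment ℝ a b) = 0 := by
  rw [segment_eq_image']
  refine ⟨isCompact_Icc.image (by fun_prop), measure_mono_null ?_ (line_null a (b - a))⟩
  rintro z ⟨t, _, rfl⟩
  exact ⟨t, rfl⟩

end StarNull

theorem s_StarNull : StarNull := by
  refine ⟨?_, ?_, ?_⟩
  · intro N c θ x
    have heq : starSet c θ x = ⋃ j : Fin N, (fun r : ℝ =>
        c + (r : ℂ) * Complex.exp ((θ j : ℂ) * Complex.I)) '' Icc 0 (x j) := by
      ext z
      rw [mem_iUnion]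
      constructor
      · rintro ⟨j, r, h1, h2, rfl⟩
        exact ⟨j, r, ⟨h1, h2⟩, rfl⟩
      · rintro ⟨j, r, ⟨h1, h2⟩, rfl⟩
        exact ⟨j, r, h1, h2, rfl⟩
    rw [heq]
    refine ⟨isCompact_iUnion fun j => isCompact_Icc.image (by fun_prop),
      measure_iUnion_null fun j => ?_⟩
    refine measure_mono_null ?_ (StarNull.line_null c (Complex.exp ((θ j : ℂ) * Complex.I)))
    rintro z ⟨t, _, rfl⟩
    refine ⟨t, ?_⟩
    rw [Complex.real_smul]
  · rintro N c θ x y h z ⟨j, r, h1, h2, rfl⟩
    exact ⟨j, r, h1, h2.trans (h j), rfl⟩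
  · rintro K ⟨s, _, rfl⟩
    constructor
    · exact s.isCompact_biUnion fun p _ => (StarNull.seg_facts p.1 p.2).1
    · exact (measure_biUnion_null_iff s.countable_toSet).2
        fun p _ => (StarNull.seg_facts p.1 p.2).2

end Pool.MP_31392c_an
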