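import Pool.Agent.Lib.MP_31392c_an.Full.SpecS

/-!
# MP_31392c_an full proof: corners for prescribed arm lengths (`StarParam`)
-/

set_option autoImplicit false

open MeasureTheory Set Filter Topology Metric

namespace Pool.MP_31392c_an

namespace StarParam

variable {N : ℕ}

lemma nx_lt {τ : Fin N → ℝ} {j : Fin N} (h : j.val + 1 < N) : nx τ j = τ ⟨j.val + 1, h⟩ :=
  dif_pos h

lemma nx_last {τ : Fin N → ℝ} {j : Fin N} (h : ¬ j.val + 1 < N) :
    nx τ j = τ ⟨0, Nat.lt_of_le_of_lt (Nat.zero_le _) j.isLt⟩ + 2 * Real.pi :=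
  dif_neg h

lemma nx_cont (j : Fin N) : Continuous (fun τ : Fin N → ℝ => nx τ j) := by
  by_cases h : j.val + 1 < N
  · simp only [nx_lt h]
    exact continuous_apply _
  · simp only [nx_last h]
    exact (continuous_apply _).add continuous_const

lemma nx_add (τ : Fin N → ℝ) (s : ℝ) (j : Fin N) : nx (fun i => τ i + s) j = nx τ j + s := by
  by_cases h : j.val + 1 < N
  · rw [nx_lt h, nx_lt h]
  · rw [nx_last h, nx_last h]
    ring

lemma cm_shift (γ τ : Fin N → ℝ) (t s : ℝ) : cm γ (fun i => τ i + s) (t + s) = cm γ τ t := by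
  unfold cm
  refine Finset.prod_congr rfl fun i _ => ?_
  congr 4
  ring

lemma cm_corner {γ : Fin N → ℝ} (hγ : ∀ i, 0 < γ i) (τ : Fin N → ℝ) (j : Fin N) :
    cm γ τ (τ j) = 0 := by
  unfold cm
  refine Finset.prod_eq_zero (Finset.mem_univ j) ?_
  rw [sub_self, zero_div, Real.sin_zero, mul_zero, abs_zero, Real.zero_rpow (hγ j).ne']

lemma cm_nx {γ : Fin N → ℝ} (hγ : ∀ i, 0 < γ i) (τ : Fin N → ℝ) (j : Fin N) :
    cm γ τ (nx τ j) = 0 := by
  by_cases h : j.val + 1 < N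
  · rw [nx_lt h]
    exact cm_corner hγ τ _
  · rw [nx_last h]
    unfold cm
    refine Finset.prod_eq_zero
      (Finset.mem_univ (⟨0, Nat.lt_of_le_of_lt (Nat.zero_le _) j.isLt⟩ : Fin N)) ?_
    have : (τ ⟨0, Nat.lt_of_le_of_lt (Nat.zero_le _) j.isLt⟩ + 2 * Real.pi -
        τ ⟨0, Nat.lt_of_le_of_lt (Nat.zero_le _) j.isLt⟩) / 2 = Real.pi := by ring
    rw [this, Real.sin_pi, mul_zero, abs_zero, Real.zero_rpow (hγ _).ne']

lemma cm_pos {γ τ : Fin N → ℝ} {t : ℝ} (hs : ∀ i, Real.sin ((t - τ i) / 2) ≠ 0) :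
    0 < cm γ τ t := by
  unfold cm
  refine Finset.prod_pos fun i _ => Real.rpow_pos_of_pos ?_ _
  exact abs_pos.2 (mul_ne_zero two_ne_zero (hs i))

lemma nx_le {τ : Fin N → ℝ} (hτ : Monotone τ) {j i : Fin N} (h : j < i) : nx τ j ≤ τ i := by
  have h1 : j.val + 1 ≤ i.val := h
  have h2 : j.val + 1 < N := lt_of_le_of_lt h1 i.isLt
  rw [nx_lt h2]
  exact hτ (Fin.mk_le_of_le_val h1)

lemma nx_le_add {τ : Fin N → ℝ} (hτ : Dirs τ) (j i : Fin N) : nx τ j ≤ τ i + 2 * Real.pi := by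
  by_cases h : j.val + 1 < N
  · rw [nx_lt h]
    exact (hτ.2 _ _).le
  · rw [nx_last h]
    have : τ ⟨0, Nat.lt_of_le_of_lt (Nat.zero_le _) j.isLt⟩ ≤ τ i :=
      hτ.1.monotone (Fin.mk_le_of_le_val (Nat.zero_le _))
    linarith

lemma sin_ne {τ : Fin N → ℝ} (hτ : Dirs τ) {j : Fin N} {t : ℝ} (ht : t ∈ Ioo (τ j) (nx τ j))
    (i : Fin N) : Real.sin ((t - τ i) / 2) ≠ 0 := by
  rcases le_or_gt i j with h | h
  · have h1 : τ i ≤ τ j := hτ.1.monotone h
    have h2 := nx_le_add hτ j i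
    refine (Real.sin_pos_of_pos_of_lt_pi ?_ ?_).ne'
    · linarith [ht.1]
    · linarith [ht.2]
  · have h1 := nx_le hτ.1.monotone h
    have h2 := hτ.2 j i
    have h3 : Real.sin ((t - τ i) / 2) < 0 := by
      refine Real.sin_neg_of_neg_of_neg_pi_lt ?_ ?_
      · linarith [ht.2]
      · linarith [ht.1]
    exact h3.ne

lemma sin_ne' {τ t : Fin N → ℝ} (hτ : Dirs τ) (ht : ∀ j, t j ∈ Ioo (τ j) (nx τ j)) (j l : Fin N)
    (hjl : j ≠ l) : Real.sin ((t j - t l) / 2) ≠ 0 := by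
  have key : ∀ j l : Fin N, j < l → 0 < t l - t j ∧ t l - t j < 2 * Real.pi := by
    intro j l h
    have h1 := nx_le hτ.1.monotone h
    have h2 := nx_le_add hτ l j
    have h3 := (ht j).2
    have h4 := (ht l).1
    have h5 := (ht l).2
    have h6 := (ht j).1
    constructor <;> linarith
  rcases lt_or_gt_of_ne hjl with h | h
  · obtain ⟨h1, h2⟩ := key j l h
    have h3 : Real.sin ((t j - t l) / 2) < 0 := by
      refine Real.sin_neg_of_neg_of_neg_pi_lt ?_ ?_ <;> linarith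
    exact h3.ne
  · obtain ⟨h1, h2⟩ := key l j h
    refine (Real.sin_pos_of_pos_of_lt_pi ?_ ?_).ne' <;> linarith

lemma cm_comp {X : Type} [TopologicalSpace X] (γ : Fin N → ℝ) (hγ : ∀ i, 0 < γ i)
    (f : X → Fin N → ℝ) (g : X → ℝ) (hf : Continuous f) (hg : Continuous g) :
    Continuous fun x => cm γ (f x) (g x) := by
  unfold cm
  refine continuous_finsetProd _ fun i _ => ?_
  refine Continuous.rpow_const ?_ (fun _ => Or.inr (hγ i).le)
  refine continuous_abs.comp (continuous_const.mul (Real.continuous_sin.comp ?_))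
  exact ((hg.sub ((continuous_apply i).comp hf)).div_const 2)

/-- Critical points. -/
lemma crit {γ τ : Fin N → ℝ} {t : ℝ} (hs : ∀ i, Real.sin ((t - τ i) / 2) ≠ 0)
    (hmax : IsLocalMax (cm γ τ) t) : ∑ i, γ i * ct ((t - τ i) / 2) = 0 := by
  have hlog : ∀ᶠ y in 𝓝 t, Real.log (cm γ τ y) =
      ∑ i, γ i * Real.log (2 * Real.sin ((y - τ i) / 2)) := by
    have h1 : ∀ i, ∀ᶠ y in 𝓝 t, Real.sin ((y - τ i) / 2) ≠ 0 := by
      intro i
      have : Continuous fun y : ℝ => Real.sin ((y - τ i) / 2) := by fun_prop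
      exact this.continuousAt.eventually_ne (hs i)
    filter_upwards [eventually_all.2 h1] with y hy
    unfold cm
    rw [Real.log_prod]
    · refine Finset.sum_congr rfl fun i _ => ?_
      rw [Real.log_rpow (abs_pos.2 (mul_ne_zero two_ne_zero (hy i))), Real.log_abs]
    · intro i _
      exact (Real.rpow_pos_of_pos (abs_pos.2 (mul_ne_zero two_ne_zero (hy i))) _).ne'
  have hpos : 0 < cm γ τ t := cm_pos hs
  have hev : ∀ᶠ y in 𝓝 t, 0 < cm γ τ y := by
    have h1 : ∀ i, ∀ᶠ y in 𝓝 t, Real.sin ((y - τ i) / 2) ≠ 0 := by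
      intro i
      have : Continuous fun y : ℝ => Real.sin ((y - τ i) / 2) := by fun_prop
      exact this.continuousAt.eventually_ne (hs i)
    filter_upwards [eventually_all.2 h1] with y hy using cm_pos hy
  have hloc : IsLocalMax (fun y => ∑ i, γ i * Real.log (2 * Real.sin ((y - τ i) / 2))) t := by
    have h0 := hlog.self_of_nhds
    show ∀ᶠ y in 𝓝 t, _ ≤ _
    filter_upwards [hlog, hev, hmax] with y h1 h2 h3
    rw [← h1, ← h0]
    exact Real.log_le_log h2 h3
  have hder : HasDerivAt (fun y => ∑ i, γ i * Real.log (2 * Real.sin ((y - τ i) / 2)))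
      (∑ i, γ i * (ct ((t - τ i) / 2) / 2)) t := by
    refine HasDerivAt.fun_sum fun i _ => HasDerivAt.const_mul (γ i) ?_
    have h1 : HasDerivAt (fun y : ℝ => (y - τ i) / 2) (1 / 2) t :=
      ((hasDerivAt_id t).sub_const (τ i)).div_const 2
    have h2 := (h1.sin.const_mul 2).log (mul_ne_zero two_ne_zero (hs i))
    refine h2.congr_deriv ?_
    have h3 := hs i
    show _ = Real.cos ((t - τ i) / 2) / Real.sin ((t - τ i) / 2) / 2
    field_simp
  have h := hloc.hasDerivAt_eq_zero hder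
  have h2 : ∑ i, γ i * (ct ((t - τ i) / 2) / 2) = (∑ i, γ i * ct ((t - τ i) / 2)) / 2 := by
    rw [Finset.sum_div]
    refine Finset.sum_congr rfl fun i _ => ?_
    ring
  rw [h2] at h
  linarith

lemma gam_pos {θ : Fin N → ℝ} (hθ : Dirs θ) (j : Fin N) : 0 < gam θ j := by
  unfold gam pv
  refine div_pos ?_ Real.pi_pos
  split_ifs with h
  · have := hθ.2 j ⟨N - 1, Nat.sub_lt (Nat.lt_of_le_of_lt (Nat.zero_le _) j.isLt) Nat.one_pos⟩
    linarith
  · have : θ ⟨j.val - 1, Nat.lt_of_le_of_lt (Nat.sub_le _ _) j.isLt⟩ < θ j := by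
      apply hθ.1
      rw [Fin.lt_def]
      show j.val - 1 < j.val
      omega
    linarith

lemma gam_sum {n : ℕ} (θ : Fin (n + 1) → ℝ) : ∑ j, gam θ j = 2 := by
  unfold gam
  rw [← Finset.sum_div, div_eq_iff Real.pi_ne_zero, Finset.sum_sub_distrib]
  have h1 : ∑ j, pv θ j = θ (Fin.last n) - 2 * Real.pi + ∑ j : Fin n, θ j.castSucc := by
    rw [Fin.sum_univ_succ]
    congr 1
  rw [h1, Fin.sum_univ_castSucc]
  ring

/-- the parametrised values -/
noncomputable def Pf (γ : Fin N → ℝ) (j : Fin N) (p : (Fin N → ℝ) × (Fin N → ℝ)) : ℝ :=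
  cm γ p.1 (p.1 j + p.2 j * (nx p.1 j - p.1 j))

lemma Pf_cont (γ : Fin N → ℝ) (hγ : ∀ i, 0 < γ i) (j : Fin N) : Continuous (Pf γ j) := by
  have a1 : Continuous fun p : (Fin N → ℝ) × (Fin N → ℝ) => p.1 j :=
    (continuous_apply j).comp continuous_fst
  have a2 : Continuous fun p : (Fin N → ℝ) × (Fin N → ℝ) => p.2 j :=
    (continuous_apply j).comp continuous_snd
  have a3 : Continuous fun p : (Fin N → ℝ) × (Fin N → ℝ) => nx p.1 j :=
    (nx_cont j).comp continuous_fst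
  have a4 : Continuous fun p : (Fin N → ℝ) × (Fin N → ℝ) =>
      p.1 j + p.2 j * (nx p.1 j - p.1 j) := a1.add (a2.mul (a3.sub a1))
  exact cm_comp γ hγ (fun p : (Fin N → ℝ) × (Fin N → ℝ) => p.1) _ continuous_fst a4

/-- the admissible corners -/
def Tset (n : ℕ) : Set (Fin (n + 1) → ℝ) :=
  {τ | τ 0 = 0 ∧ (∀ i j, i ≤ j → τ i ≤ τ j) ∧ τ (Fin.last n) ≤ 2 * Real.pi}

lemma Tset_compact (n : ℕ) : IsCompact (Tset n) := by
  have hbox : IsCompact (Set.univ.pi fun _ : Fin (n + 1) => Icc (0 : ℝ) (2 * Real.pi)) :=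
    isCompact_univ_pi fun _ => isCompact_Icc
  refine hbox.of_isClosed_subset ?_ ?_
  · unfold Tset
    have c0 : IsClosed {τ : Fin (n + 1) → ℝ | τ 0 = 0} :=
      isClosed_eq (continuous_apply _) continuous_const
    have c1 : IsClosed {τ : Fin (n + 1) → ℝ | ∀ i j, i ≤ j → τ i ≤ τ j} := by
      have e : {τ : Fin (n + 1) → ℝ | ∀ i j, i ≤ j → τ i ≤ τ j} =
          ⋂ i, ⋂ j, ⋂ _ : i ≤ j, {τ : Fin (n + 1) → ℝ | τ i ≤ τ j} := by
        ext τ
        simp only [Set.mem_iInter]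
        rfl
      rw [e]
      exact isClosed_iInter fun i => isClosed_iInter fun j => isClosed_iInter fun _ =>
        isClosed_le (continuous_apply _) (continuous_apply _)
    have c2 : IsClosed {τ : Fin (n + 1) → ℝ | τ (Fin.last n) ≤ 2 * Real.pi} :=
      isClosed_le (continuous_apply _) continuous_const
    exact c0.inter (c1.inter c2)
  · rintro τ ⟨h0, hm, hl⟩ i -
    refine ⟨?_, (hm i _ (Fin.le_last i)).trans hl⟩
    rw [← h0]
    exact hm 0 i (Fin.zero_le i)

/-- the smallest ratio -/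
noncomputable def mf {n : ℕ} (γ x : Fin (n + 1) → ℝ)
    (p : (Fin (n + 1) → ℝ) × (Fin (n + 1) → ℝ)) : ℝ :=
  Finset.univ.inf' Finset.univ_nonempty fun j => Pf γ j p / x j

lemma mf_cont {n : ℕ} (γ x : Fin (n + 1) → ℝ) (hγ : ∀ i, 0 < γ i) : Continuous (mf γ x) :=
  Continuous.finset_inf'_apply _ fun j _ => (Pf_cont γ hγ j).div_const (x j)

lemma mf_le {n : ℕ} (γ x : Fin (n + 1) → ℝ) (p : (Fin (n + 1) → ℝ) × (Fin (n + 1) → ℝ))
    (j : Fin (n + 1)) : mf γ x p ≤ Pf γ j p / x j :=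
  Finset.inf'_le _ (Finset.mem_univ j)

lemma lt_mf {n : ℕ} (γ x : Fin (n + 1) → ℝ) (p : (Fin (n + 1) → ℝ) × (Fin (n + 1) → ℝ)) (c : ℝ)
    (h : ∀ j, c < Pf γ j p / x j) : c < mf γ x p := by
  unfold mf
  rw [Finset.lt_inf'_iff]
  exact fun j _ => h j

/-- existence of a maximum -/
lemma exists_max {n : ℕ} (γ x : Fin (n + 1) → ℝ) (hγ : ∀ i, 0 < γ i) :
    ∃ p : (Fin (n + 1) → ℝ) × (Fin (n + 1) → ℝ), p.1 ∈ Tset n ∧ (∀ j, p.2 j ∈ Icc (0 : ℝ) 1) ∧
      ∀ q : (Fin (n + 1) → ℝ) × (Fin (n + 1) → ℝ), q.1 ∈ Tset n →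
        (∀ j, q.2 j ∈ Icc (0 : ℝ) 1) → mf γ x q ≤ mf γ x p := by
  have hUc : IsCompact (Set.univ.pi fun _ : Fin (n + 1) => Icc (0 : ℝ) 1) :=
    isCompact_univ_pi fun _ => isCompact_Icc
  have hne : (Tset n ×ˢ (Set.univ.pi fun _ : Fin (n + 1) => Icc (0 : ℝ) 1)).Nonempty := by
    refine ⟨(fun _ => 0, fun _ => 0), ⟨rfl, fun _ _ _ => le_rfl, ?_⟩, ?_⟩
    · show (0 : ℝ) ≤ 2 * Real.pi
      positivity
    · intro i _
      exact ⟨le_rfl, zero_le_one⟩
  obtain ⟨p, hp, hmax⟩ := ((Tset_compact n).prod hUc).exists_isMaxOn hne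
    (mf_cont γ x hγ).continuousOn
  refine ⟨p, hp.1, fun j => hp.2 j (Set.mem_univ j), ?_⟩
  intro q hq1 hq2
  exact hmax ⟨hq1, fun j _ => hq2 j⟩

/-- strict corners -/
lemma dirs_of {n : ℕ} {τ : Fin (n + 1) → ℝ} (hT : τ ∈ Tset n) (h : ∀ j, τ j ≠ nx τ j) :
    Dirs τ := by
  obtain ⟨h0, hm, hl⟩ := hT
  have hs : StrictMono τ := by
    rw [Fin.strictMono_iff_lt_succ]
    intro i
    have h1 := h i.castSucc
    have h2 : nx τ i.castSucc = τ i.succ := by
      rw [nx_lt (show i.castSucc.val + 1 < n + 1 from by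
        have := i.isLt
        simp)]
      rfl
    rw [h2] at h1
    exact lt_of_le_of_ne (hm _ _ (Fin.castSucc_lt_succ).le) h1
  refine ⟨hs, ?_⟩
  intro i j
  have h1 := h (Fin.last n)
  rw [nx_last (by simp)] at h1
  have e0 : τ ⟨0, Nat.lt_of_le_of_lt (Nat.zero_le _) (Fin.last n).isLt⟩ = 0 := h0
  rw [e0] at h1
  have h2 : τ (Fin.last n) < 2 * Real.pi := lt_of_le_of_ne hl (by simpa using h1)
  have h3 : τ j ≤ τ (Fin.last n) := hm _ _ (Fin.le_last j)
  have h4 : 0 ≤ τ i := by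
    rw [← h0]
    exact hm _ _ (Fin.zero_le i)
  linarith

lemma lt_nx {τ : Fin N → ℝ} (hτ : Dirs τ) (j : Fin N) : τ j < nx τ j := by
  by_cases h : j.val + 1 < N
  · rw [nx_lt h]
    apply hτ.1
    rw [Fin.lt_def]
    exact Nat.lt_succ_self _
  · rw [nx_last h]
    exact hτ.2 _ _

/-- equally spaced corners -/
noncomputable def te (n : ℕ) (i : Fin (n + 1)) : ℝ := 2 * Real.pi * ((i.val : ℝ) / (n + 1))

lemma te_nx (n : ℕ) (j : Fin (n + 1)) :
    nx (te n) j = 2 * Real.pi * (((j.val : ℝ) + 1) / (n + 1)) := by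
  by_cases h : j.val + 1 < n + 1
  · rw [nx_lt h]
    unfold te
    push_cast
    rfl
  · rw [nx_last h]
    have hj : j.val = n := by
      have := j.isLt
      omega
    have hj' : (j.val : ℝ) = n := by exact_mod_cast hj
    unfold te
    rw [hj', div_self (by positivity : ((n : ℝ) + 1) ≠ 0)]
    push_cast
    ring

lemma te_mem (n : ℕ) : te n ∈ Tset n := by
  refine ⟨?_, ?_, ?_⟩
  · unfold te
    simp
  · intro i j hij
    unfold te
    have : (i.val : ℝ) ≤ (j.val : ℝ) := by exact_mod_cast hij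
    have h1 : (i.val : ℝ) / (n + 1) ≤ (j.val : ℝ) / (n + 1) :=
      div_le_div_of_nonneg_right this (by positivity)
    exact mul_le_mul_of_nonneg_left h1 (by positivity)
  · unfold te
    have h1 : ((Fin.last n).val : ℝ) / (n + 1) ≤ 1 := by
      rw [Fin.val_last, div_le_one (by positivity)]
      linarith
    calc 2 * Real.pi * (((Fin.last n).val : ℝ) / (n + 1)) ≤ 2 * Real.pi * 1 :=
          mul_le_mul_of_nonneg_left h1 (by positivity)
      _ = 2 * Real.pi := mul_one _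

lemma te_dirs (n : ℕ) : Dirs (te n) := by
  apply dirs_of (te_mem n)
  intro j h
  rw [te_nx] at h
  unfold te at h
  have h1 := mul_left_cancel₀ (by positivity : (2 * Real.pi : ℝ) ≠ 0) h
  rw [div_left_inj' (by positivity)] at h1
  linarith

lemma max_pos {n : ℕ} (γ x : Fin (n + 1) → ℝ) (hx : ∀ j, 0 < x j) :
    0 < mf γ x (te n, fun _ => 1 / 2) := by
  apply lt_mf
  intro j
  refine div_pos ?_ (hx j)
  unfold Pf
  have h := lt_nx (te_dirs n) j
  refine cm_pos (sin_ne (te_dirs n) (j := j) ⟨?_, ?_⟩)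
  · show te n j < te n j + 1 / 2 * (nx (te n) j - te n j)
    linarith
  · show te n j + 1 / 2 * (nx (te n) j - te n j) < nx (te n) j
    linarith

/-- the improvement -/
lemma improve {n : ℕ} (γ x τ t : Fin (n + 1) → ℝ) (hγ : ∀ i, 0 < γ i) (hx : ∀ j, 0 < x j)
    (hT : τ ∈ Tset n) (hD : Dirs τ) (ht : ∀ j, t j ∈ Ioo (τ j) (nx τ j)) (M : ℝ)
    (hM : ∀ j, M * x j ≤ cm γ τ (t j)) (A : Finset (Fin (n + 1))) (v : Fin (n + 1) → ℝ)
    (hA : ∀ j, j ∉ A → M * x j < cm γ τ (t j))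
    (hv : ∀ j ∈ A, ∃ ε₀ > 0, ∀ ε ∈ Ioo (0 : ℝ) ε₀,
      cm γ τ (t j) < cm γ (fun i => τ i + ε * v i) (t j)) :
    ∃ q : (Fin (n + 1) → ℝ) × (Fin (n + 1) → ℝ), q.1 ∈ Tset n ∧
      (∀ j, q.2 j ∈ Icc (0 : ℝ) 1) ∧ M < mf γ x q := by
  have key : ∀ f g : ℝ → ℝ, Continuous f → Continuous g → f 0 < g 0 →
      ∀ᶠ ε in 𝓝[>] (0 : ℝ), f ε < g ε := fun f g hf hg h =>
    nhdsWithin_le_nhds ((hf.tendsto 0).eventually_lt (hg.tendsto 0) h)
  have hc : ∀ i, Continuous fun ε : ℝ => τ i + ε * v i + -(ε * v 0) := by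
    intro i
    fun_prop
  have hcp : Continuous fun ε : ℝ => (fun i => τ i + ε * v i + -(ε * v 0) : Fin (n + 1) → ℝ) :=
    continuous_pi hc
  have hc2 : Continuous fun ε : ℝ => (fun i => τ i + ε * v i : Fin (n + 1) → ℝ) :=
    continuous_pi fun i => by fun_prop
  have ev1 : ∀ i j : Fin (n + 1), ∀ᶠ ε in 𝓝[>] (0 : ℝ), i < j →
      τ i + ε * v i + -(ε * v 0) < τ j + ε * v j + -(ε * v 0) := by
    intro i j
    by_cases hij : i < j
    · have h := key _ _ (hc i) (hc j) (by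
        have := hD.1 hij
        simpa using this)
      filter_upwards [h] with ε hε _ using hε
    · exact Eventually.of_forall fun ε h => absurd h hij
  have ev2 : ∀ᶠ ε in 𝓝[>] (0 : ℝ),
      τ (Fin.last n) + ε * v (Fin.last n) + -(ε * v 0) < 2 * Real.pi := by
    refine key _ _ (hc (Fin.last n)) continuous_const ?_
    have h1 := hD.2 0 (Fin.last n)
    rw [hT.1] at h1
    simpa using h1
  have ev3 : ∀ j : Fin (n + 1), ∀ᶠ ε in 𝓝[>] (0 : ℝ),
      τ j + ε * v j + -(ε * v 0) < t j + -(ε * v 0) := by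
    intro j
    refine key _ _ (hc j) (by fun_prop) ?_
    have := (ht j).1
    simpa using this
  have ev4 : ∀ j : Fin (n + 1), ∀ᶠ ε in 𝓝[>] (0 : ℝ),
      t j + -(ε * v 0) < nx (fun i => τ i + ε * v i + -(ε * v 0)) j := by
    intro j
    refine key (fun ε => t j + -(ε * v 0))
      (fun ε => nx (fun i => τ i + ε * v i + -(ε * v 0)) j) (by fun_prop)
      (Continuous.comp (nx_cont j) hcp) ?_
    have := (ht j).2
    simpa using this
  have ev5 : ∀ j : Fin (n + 1), ∀ᶠ ε in 𝓝[>] (0 : ℝ),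
      M * x j < cm γ (fun i => τ i + ε * v i) (t j) := by
    intro j
    by_cases hj : j ∈ A
    · obtain ⟨ε₀, hε₀, h⟩ := hv j hj
      filter_upwards [Ioo_mem_nhdsGT hε₀] with ε hε
      exact (hM j).trans_lt (h ε hε)
    · refine key (fun _ => M * x j) (fun ε => cm γ (fun i => τ i + ε * v i) (t j))
        continuous_const (cm_comp γ hγ _ (fun _ => t j) hc2 continuous_const) ?_
      have := hA j hj
      simpa using this
  obtain ⟨ε, h1, h2, h3, h4, h5⟩ := ((eventually_all.2 fun i => eventually_all.2 (ev1 i)).and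
    (ev2.and ((eventually_all.2 ev3).and ((eventually_all.2 ev4).and
      (eventually_all.2 ev5))))).exists
  set σ : Fin (n + 1) → ℝ := fun i => τ i + ε * v i + -(ε * v 0) with hσ
  have hpos : ∀ j, 0 < nx σ j - σ j := fun j => by
    have a := h3 j
    have b := h4 j
    show 0 < nx σ j - (τ j + ε * v j + -(ε * v 0))
    linarith
  refine ⟨(σ, fun j => (t j + -(ε * v 0) - σ j) / (nx σ j - σ j)), ⟨?_, ?_, ?_⟩, ?_, ?_⟩
  · show τ 0 + ε * v 0 + -(ε * v 0) = 0
    rw [hT.1]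
    ring
  · intro i j hij
    rcases hij.lt_or_eq with h | h
    · exact (h1 i j h).le
    · rw [h]
  · exact h2.le
  · intro j
    have a := h3 j
    have b := h4 j
    constructor
    · exact div_nonneg (by show 0 ≤ t j + -(ε * v 0) - (τ j + ε * v j + -(ε * v 0)); linarith)
        (hpos j).le
    · show (t j + -(ε * v 0) - σ j) / (nx σ j - σ j) ≤ 1
      rw [div_le_one (hpos j)]
      linarith
  · apply lt_mf
    intro j
    rw [lt_div_iff₀ (hx j)]
    have e1 : Pf γ j (σ, fun j => (t j + -(ε * v 0) - σ j) / (nx σ j - σ j)) =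
        cm γ (fun i => τ i + ε * v i) (t j) := by
      unfold Pf
      show cm γ σ (σ j + (t j + -(ε * v 0) - σ j) / (nx σ j - σ j) * (nx σ j - σ j)) = _
      rw [div_mul_cancel₀ _ (hpos j).ne', add_sub_cancel]
      exact cm_shift γ (fun i => τ i + ε * v i) (t j) (-(ε * v 0))
    rw [e1]
    exact h5 j

end StarParam

open StarParam in
theorem s_StarParam : StarPert → StarParam := by
  intro hP N θ x S hN hθ hx
  obtain ⟨n, rfl⟩ : ∃ n, N = n + 1 := ⟨N - 1, by omega⟩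
  have hγ : ∀ i, 0 < gam θ i := fun i => gam_pos hθ i
  have hγs : ∑ i, gam θ i = 2 := gam_sum θ
  generalize gam θ = γ at hγ hγs ⊢
  obtain ⟨⟨τ, u⟩, hτT, hu, hmax⟩ := exists_max γ x hγ
  simp only at hτT hu
  have hMpos : 0 < mf γ x (τ, u) := (max_pos γ x hx).trans_le
    (hmax _ (te_mem n) fun _ => ⟨by norm_num, by norm_num⟩)
  obtain ⟨M, hM⟩ : ∃ M, M = mf γ x (τ, u) := ⟨_, rfl⟩
  rw [← hM] at hMpos hmax
  have hMP : ∀ j, M * x j ≤ Pf γ j (τ, u) := by
    intro j
    have := mf_le γ x (τ, u) j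
    rw [← hM, le_div_iff₀ (hx j)] at this
    exact this
  have hne : ∀ j, τ j ≠ nx τ j := by
    intro j h
    have h1 := hMP j
    unfold Pf at h1
    simp only [← h, sub_self, mul_zero, add_zero] at h1
    rw [cm_corner hγ τ j] at h1
    have := mul_pos hMpos (hx j)
    linarith
  have hD : Dirs τ := dirs_of hτT hne
  have hcm : Continuous (fun t => cm γ τ t) :=
    cm_comp γ hγ (fun _ : ℝ => τ) (fun t => t) continuous_const continuous_id
  have hex : ∀ j, ∃ t ∈ Icc (τ j) (nx τ j), IsMaxOn (cm γ τ) (Icc (τ j) (nx τ j)) t := fun j =>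
    isCompact_Icc.exists_isMaxOn (nonempty_Icc.2 (lt_nx hD j).le) hcm.continuousOn
  choose t htI htm using hex
  have hψ : ∀ j, M * x j ≤ cm γ τ (t j) := by
    intro j
    refine (hMP j).trans ?_
    have h1 := lt_nx hD j
    have h2 := hu j
    have h3 : τ j + u j * (nx τ j - τ j) ∈ Icc (τ j) (nx τ j) := by
      constructor
      · have := mul_nonneg h2.1 (sub_nonneg.2 h1.le)
        linarith
      · have := mul_le_mul_of_nonneg_right h2.2 (sub_nonneg.2 h1.le)
        linarith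
    exact htm j h3
  have ht : ∀ j, t j ∈ Ioo (τ j) (nx τ j) := by
    intro j
    have h1 := hψ j
    have h2 := mul_pos hMpos (hx j)
    refine ⟨lt_of_le_of_ne (htI j).1 ?_, lt_of_le_of_ne (htI j).2 ?_⟩
    · intro h
      rw [← h, cm_corner hγ τ j] at h1
      linarith
    · intro h
      rw [h, cm_nx hγ τ j] at h1
      linarith
  have hcrit : ∀ j, ∑ i, γ i * ct ((t j - τ i) / 2) = 0 := fun j =>
    crit (sin_ne hD (ht j)) ((htm j).isLocalMax (Icc_mem_nhds (ht j).1 (ht j).2))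
  have heq : ∀ j, cm γ τ (t j) = M * x j := by
    by_contra hcon
    push Not at hcon
    obtain ⟨j₀, hj₀⟩ := hcon
    classical
    have hAne : (Finset.univ.filter fun j => cm γ τ (t j) = M * x j) ≠ Finset.univ := by
      intro h
      have : j₀ ∈ Finset.univ.filter fun j => cm γ τ (t j) = M * x j := by
        rw [h]
        exact Finset.mem_univ _
      exact hj₀ (Finset.mem_filter.1 this).2
    obtain ⟨v, hv⟩ := hP (n + 1) γ τ t hγ hγs (fun i j => sin_ne hD (ht j) i)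
      (sin_ne' hD ht) hcrit _ hAne
    obtain ⟨q, hq1, hq2, hq3⟩ := improve γ x τ t hγ hx hτT hD ht M hψ _ v (by
      intro j hj
      refine lt_of_le_of_ne (hψ j) fun h => hj ?_
      exact Finset.mem_filter.2 ⟨Finset.mem_univ _, h.symm⟩) hv
    exact absurd (hmax q hq1 hq2) (not_le.2 hq3)
  -- the shift
  set s : ℝ := (S - ∑ i, γ i * τ i) / 2 with hs
  refine ⟨fun i => τ i + s, 1 / M, ⟨?_, ?_⟩, by positivity, ?_, ?_⟩
  · intro i j hij
    have := hD.1 hij
    show τ i + s < τ j + s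
    linarith
  · intro i j
    have := hD.2 i j
    show τ j + s < τ i + s + 2 * Real.pi
    linarith
  · have : ∑ i, γ i * (τ i + s) = ∑ i, γ i * τ i + (∑ i, γ i) * s := by
      rw [Finset.sum_mul, ← Finset.sum_add_distrib]
      refine Finset.sum_congr rfl fun i _ => ?_
      ring
    rw [this, hγs, hs]
    ring
  · intro j
    have hcs : ∀ y, cm γ (fun i => τ i + s) (y + s) = cm γ τ y := fun y => cm_shift γ τ y s
    rw [nx_add]
    constructor
    · intro y hy
      have h1 := hcs (y - s)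
      rw [sub_add_cancel] at h1
      rw [h1]
      have h2 : y - s ∈ Icc (τ j) (nx τ j) := ⟨by linarith [hy.1], by linarith [hy.2]⟩
      have h3 : cm γ τ (y - s) ≤ cm γ τ (t j) := htm j h2
      rw [heq] at h3
      rw [one_div, inv_mul_le_iff₀ hMpos]
      exact h3
    · refine ⟨t j + s, ⟨by linarith [(ht j).1], by linarith [(ht j).2]⟩, ?_⟩
      rw [hcs, heq]
      field_simp

end Pool.MP_31392c_an
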