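import Mathlib
import Pool.Agent.Lib.MP_31392c_an.Full.SpecS

/-!
# MP_31392c_an full proof: `StarPert`

A first order perturbation of the corners increases the modulus at the given points.
-/

set_option autoImplicit false

open MeasureTheory Set Filter Topology Metric

namespace Pool.MP_31392c_an

namespace StarPert

/-- derivative of `log |2 sin|` in the direction `v` -/
theorem hasDeriv_log (t τ v : ℝ) (h : Real.sin ((t - τ) / 2) ≠ 0) :
    HasDerivAt (fun ε : ℝ => Real.log |2 * Real.sin ((t - (τ + ε * v)) / 2)|)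
      (-(v / 2) * ct ((t - τ) / 2)) 0 := by
  have h1 : HasDerivAt (fun ε : ℝ => (t - (τ + ε * v)) / 2) (-(v / 2)) 0 := by
    have := ((((hasDerivAt_id (0 : ℝ)).mul_const v).const_add τ).const_sub t).div_const 2
    have e : -(1 * v) / 2 = -(v / 2) := by ring
    rw [e] at this
    exact this
  have h2 : HasDerivAt (fun ε : ℝ => 2 * Real.sin ((t - (τ + ε * v)) / 2))
      (2 * (Real.cos ((t - (τ + 0 * v)) / 2) * (-(v / 2)))) 0 := (h1.sin).const_mul 2
  have h0 : (t - (τ + 0 * v)) / 2 = (t - τ) / 2 := by ring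
  have h3 := h2.log (by rw [h0]; exact mul_ne_zero two_ne_zero h)
  simp only [Real.log_abs]
  rw [h0] at h3
  convert h3 using 1
  unfold ct
  field_simp

/-- `cm` as an exponential -/
theorem cm_eq_exp {N : ℕ} (γ τ : Fin N → ℝ) (t : ℝ) (h : ∀ i, Real.sin ((t - τ i) / 2) ≠ 0) :
    cm γ τ t = Real.exp (∑ i, γ i * Real.log |2 * Real.sin ((t - τ i) / 2)|) := by
  unfold cm
  rw [Real.exp_sum]
  refine Finset.prod_congr rfl fun i _ => ?_
  have hp : 0 < |2 * Real.sin ((t - τ i) / 2)| := abs_pos.mpr (mul_ne_zero two_ne_zero (h i))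
  rw [Real.rpow_def_of_pos hp, mul_comm]

/-- a positive derivative gives an increase to the right -/
theorem incr_of_deriv_pos (f : ℝ → ℝ) (f' : ℝ) (hf : HasDerivAt f f' 0) (hpos : 0 < f') :
    ∀ᶠ ε in 𝓝[>] (0 : ℝ), f 0 < f ε := by
  have h1 := hasDerivAt_iff_tendsto_slope.mp hf
  have h2 : ∀ᶠ ε in 𝓝[≠] (0 : ℝ), 0 < slope f 0 ε := h1.eventually (lt_mem_nhds hpos)
  have h3 : ∀ᶠ ε in 𝓝[>] (0 : ℝ), 0 < slope f 0 ε :=
    h2.filter_mono (nhdsWithin_mono _ (fun x hx => ne_of_gt hx))
  filter_upwards [h3, self_mem_nhdsWithin] with ε h4 h5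
  rw [slope_def_field, sub_zero] at h4
  have h6 : (0 : ℝ) < ε := h5
  have h7 := mul_pos h4 h6
  rw [div_mul_cancel₀ _ h6.ne'] at h7
  linarith

end StarPert

open StarPert in
/-- **StarPert.** -/
theorem s_StarPert : StarBessel → StarPert := by
  intro hB N γ τ t hγ hsum hsin hsin2 hct A hA
  obtain ⟨horth, hsq, hbes⟩ := hB N γ τ t hγ hsum hsin hsin2 hct
  set s : Fin N → ℝ := fun l => ∑ i, γ i / Real.sin ((t l - τ i) / 2) ^ 2 with hs
  have hNpos : (Finset.univ : Finset (Fin N)).Nonempty := by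
    by_contra hne
    rw [Finset.not_nonempty_iff_eq_empty] at hne
    rw [hne, Finset.sum_empty] at hsum
    norm_num at hsum
  have hspos : ∀ l, 0 < s l := fun l =>
    Finset.sum_pos (fun i _ => div_pos (hγ i) (by have := hsin i l; positivity)) hNpos
  set v : Fin N → ℝ := fun i => -∑ l ∈ A, 2 / s l * ct ((t l - τ i) / 2) with hv
  refine ⟨v, fun j hj => ?_⟩
  -- the derivative
  have hder : HasDerivAt (fun ε : ℝ => ∑ i, γ i * Real.log |2 * Real.sin ((t j - (τ i + ε * v i)) / 2)|)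
      (∑ i, γ i * (-(v i / 2) * ct ((t j - τ i) / 2))) 0 :=
    HasDerivAt.fun_sum fun i _ => (hasDeriv_log (t j) (τ i) (v i) (hsin i j)).const_mul (γ i)
  have hval : ∑ i, γ i * (-(v i / 2) * ct ((t j - τ i) / 2)) = 1 - ∑ l ∈ A, 2 / s l := by
    have h1 : ∀ i, γ i * (-(v i / 2) * ct ((t j - τ i) / 2)) =
        ∑ l ∈ A, (1 / s l) * (γ i * (ct ((t j - τ i) / 2) * ct ((t l - τ i) / 2))) := by
      intro i
      rw [hv]
      simp only [neg_div, neg_neg]
      rw [Finset.sum_div, Finset.sum_mul, Finset.mul_sum]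
      refine Finset.sum_congr rfl fun l _ => ?_
      ring
    simp only [h1]
    rw [Finset.sum_comm]
    have h2 : ∀ l ∈ A, ∑ i, (1 / s l) * (γ i * (ct ((t j - τ i) / 2) * ct ((t l - τ i) / 2))) =
        (if l = j then 1 else 0) - 2 / s l := by
      intro l _
      rw [← Finset.mul_sum]
      split_ifs with h
      · subst h
        have h3 := hsq l
        have h4 : ∑ i, γ i * (ct ((t l - τ i) / 2) * ct ((t l - τ i) / 2)) = s l - 2 := by
          rw [← h3]
          refine Finset.sum_congr rfl fun i _ => ?_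
          ring
        rw [h4]
        have := (hspos l).ne'
        field_simp
      · rw [horth j l (Ne.symm h)]
        ring
    rw [Finset.sum_congr rfl h2, Finset.sum_sub_distrib, Finset.sum_ite_eq' A j, if_pos hj]
  have hpos : 0 < ∑ i, γ i * (-(v i / 2) * ct ((t j - τ i) / 2)) := by
    rw [hval]
    have := hbes A hA
    linarith
  have hinc := incr_of_deriv_pos _ _ hder hpos
  -- the sines stay nonzero
  have hne : ∀ᶠ ε in 𝓝[>] (0 : ℝ), ∀ i, Real.sin ((t j - (τ i + ε * v i)) / 2) ≠ 0 := by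
    rw [Filter.eventually_all]
    intro i
    have hc : ContinuousAt (fun ε : ℝ => Real.sin ((t j - (τ i + ε * v i)) / 2)) 0 := by fun_prop
    have h0 : Real.sin ((t j - (τ i + 0 * v i)) / 2) ≠ 0 := by
      have h00 : (t j - (τ i + 0 * v i)) / 2 = (t j - τ i) / 2 := by ring
      rw [h00]; exact hsin i j
    exact (hc.eventually_ne h0).filter_mono nhdsWithin_le_nhds
  have hall : ∀ᶠ ε in 𝓝[>] (0 : ℝ), cm γ τ (t j) < cm γ (fun i => τ i + ε * v i) (t j) := by
    filter_upwards [hinc, hne] with ε h1 h2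
    rw [cm_eq_exp γ τ (t j) (fun i => hsin i j), cm_eq_exp γ _ (t j) h2]
    refine Real.exp_lt_exp.mpr ?_
    simpa only [zero_mul, add_zero] using h1
  obtain ⟨u, hu, hsub⟩ := (mem_nhdsGT_iff_exists_Ioo_subset).mp hall
  exact ⟨u, hu, fun ε hε => hsub hε⟩

end Pool.MP_31392c_an
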