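import Pool.Agent.Lib.MP_31392c_an.Full.SpecZ

/-!
# The gain of a cell is at least the gain for the full star
-/

set_option autoImplicit false

open MeasureTheory Set Filter Topology Metric

namespace Pool.MP_31392c_an

namespace StepCells

theorem mem_cell {N : ℕ} (θ w : Fin N → ℝ) (hw : ∀ j, 0 < w j) (p : ℕ × Fin N) (z : ℂ) :
    z ∈ cell θ w p ↔ ∃ r : ℝ, (p.1 : ℝ) * w p.2 ≤ r ∧ r ≤ ((p.1 : ℝ) + 1) * w p.2 ∧
      z = (r : ℂ) * Complex.exp ((θ p.2 : ℂ) * Complex.I) := by
  have hwp := hw p.2
  unfold cell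
  constructor
  · rintro ⟨a, b, ha, hb, hab, rfl⟩
    refine ⟨a * ((p.1 : ℝ) * w p.2) + b * (((p.1 : ℝ) + 1) * w p.2), ?_, ?_, ?_⟩
    · have e1 : a * ((p.1 : ℝ) * w p.2) + b * (((p.1 : ℝ) + 1) * w p.2) =
          (a + b) * ((p.1 : ℝ) * w p.2) + b * w p.2 := by ring
      rw [e1, hab]
      nlinarith
    · have e1 : a * ((p.1 : ℝ) * w p.2) + b * (((p.1 : ℝ) + 1) * w p.2) =
          (a + b) * (((p.1 : ℝ) + 1) * w p.2) - a * w p.2 := by ring
      rw [e1, hab]
      nlinarith
    · rw [Complex.real_smul, Complex.real_smul]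
      push_cast
      ring
  · rintro ⟨r, h1, h2, rfl⟩
    refine ⟨(((p.1 : ℝ) + 1) * w p.2 - r) / w p.2, (r - (p.1 : ℝ) * w p.2) / w p.2,
      div_nonneg (by linarith) hwp.le, div_nonneg (by linarith) hwp.le, ?_, ?_⟩
    · field_simp
      ring
    · have hwc : (w p.2 : ℂ) ≠ 0 := by exact_mod_cast hwp.ne'
      rw [Complex.real_smul, Complex.real_smul]
      push_cast
      field_simp
      ring

theorem cellU_full {N : ℕ} (θ w : Fin N → ℝ) (hw : ∀ j, 0 < w j) (m : Fin N → ℕ)
    (hm : ∀ j, 1 ≤ m j) (S : Finset (ℕ × Fin N)) (hS : ∀ p : ℕ × Fin N, p ∈ S ↔ p.1 < m p.2) :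
    cellU θ w S = starSet 0 θ (fun j => (m j : ℝ) * w j) := by
  ext z
  unfold cellU starSet
  rw [Set.mem_iUnion₂, Set.mem_setOf_eq]
  constructor
  · rintro ⟨p, hp, hz⟩
    rw [mem_cell θ w hw] at hz
    obtain ⟨r, h1, h2, rfl⟩ := hz
    have hwp := hw p.2
    refine ⟨p.2, r, le_trans (by positivity) h1, h2.trans ?_, by rw [zero_add]⟩
    have h3 : p.1 + 1 ≤ m p.2 := (hS p).1 hp
    have h4 : (p.1 : ℝ) + 1 ≤ (m p.2 : ℝ) := by exact_mod_cast h3
    exact mul_le_mul_of_nonneg_right h4 hwp.le
  · rintro ⟨j, r, h0, h1, rfl⟩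
    have hwj := hw j
    -- the number of the cell
    by_cases hr : r = (m j : ℝ) * w j
    · obtain ⟨i, hi⟩ : ∃ i, m j = i + 1 := ⟨m j - 1, by have := hm j; omega⟩
      refine ⟨(i, j), (hS _).2 (by simp only; omega), ?_⟩
      rw [mem_cell θ w hw]
      refine ⟨r, ?_, ?_, by rw [zero_add]⟩
      · rw [hr, hi]
        push_cast
        nlinarith
      · rw [hr, hi]
        push_cast
        exact le_rfl
    · have hlt : r < (m j : ℝ) * w j := lt_of_le_of_ne h1 hr
      have hq0 : 0 ≤ r / w j := div_nonneg h0 hwj.le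
      have h3 : (⌊r / w j⌋₊ : ℝ) ≤ r / w j := Nat.floor_le hq0
      have h4 : r / w j < (⌊r / w j⌋₊ : ℝ) + 1 := Nat.lt_floor_add_one _
      have h5 : r / w j < (m j : ℝ) := by
        rw [div_lt_iff₀ hwj]
        exact hlt
      have h6 : ⌊r / w j⌋₊ < m j := by
        rw [Nat.floor_lt hq0]
        exact h5
      refine ⟨(⌊r / w j⌋₊, j), (hS _).2 h6, ?_⟩
      rw [mem_cell θ w hw]
      refine ⟨r, ?_, ?_, by rw [zero_add]⟩
      · rw [le_div_iff₀ hwj] at h3
        exact h3
      · rw [div_lt_iff₀ hwj] at h4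
        exact h4.le

end StepCells

open StepCells in
theorem s_StepCells : StepIn → StepOut → StepCells := by
  intro hIn hOut N θ w n k S hθ hw hn hS hk
  -- the full set of cells
  obtain ⟨F, hF⟩ : ∃ F : Finset (ℕ × Fin N), ∀ p : ℕ × Fin N, p ∈ F ↔ p.1 < n p.2 := by
    refine ⟨(Finset.range (∑ j, n j) ×ˢ Finset.univ).filter (fun p => p.1 < n p.2), ?_⟩
    intro p
    rw [Finset.mem_filter, Finset.mem_product, Finset.mem_range]
    constructor
    · exact fun h => h.2
    · intro h
      refine ⟨⟨lt_of_lt_of_le h ?_, Finset.mem_univ _⟩, h⟩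
      exact Finset.single_le_sum (f := n) (fun _ _ => Nat.zero_le _) (Finset.mem_univ p.2)
  obtain ⟨r, hr⟩ : ∃ r, r = (F \ S).card := ⟨_, rfl⟩
  induction r using Nat.strong_induction_on generalizing S with
  | _ r ih =>
    -- one step
    have hstep : ∀ p : ℕ × Fin N, p.1 < n p.2 → p ∉ S →
        gain θ w n k (insert p S) ≤ gain θ w n k S →
        cp (starSet 0 θ (fun j => ((if j = k then n j + 1 else n j : ℕ) : ℝ) * w j)) -
          cp (starSet 0 θ (fun j => (n j : ℝ) * w j)) ≤
          cp (cellU θ w (insert (n k, k) S)) - cp (cellU θ w S) := by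
      intro p hp hpS hg
      have hcard : (F \ insert p S).card < r := by
        rw [hr]
        apply Finset.card_lt_card
        rw [Finset.ssubset_iff_of_subset (Finset.sdiff_subset_sdiff (Finset.Subset.refl _)
          (Finset.subset_insert _ _))]
        exact ⟨p, Finset.mem_sdiff.2 ⟨(hF p).2 hp, hpS⟩, fun h =>
          (Finset.mem_sdiff.1 h).2 (Finset.mem_insert_self _ _)⟩
      have h1 := ih _ hcard (insert p S) (by
        intro q hq
        rcases Finset.mem_insert.1 hq with rfl | hq
        · exact hp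
        · exact hS q hq) (Finset.mem_insert_of_mem hk) rfl
      exact h1.trans hg
    by_cases hfull : ∀ p, p ∈ F → p ∈ S
    · -- nothing is missing
      have hSF : ∀ p : ℕ × Fin N, p ∈ S ↔ p.1 < n p.2 := fun p =>
        ⟨hS p, fun h => hfull p ((hF p).2 h)⟩
      rw [cellU_full θ w hw n hn S hSF, cellU_full θ w hw (fun j => if j = k then n j + 1 else n j)
        (by
          intro j
          split_ifs
          · omega
          · exact hn j) (insert (n k, k) S) (by
          rintro ⟨i, j⟩
          rw [Finset.mem_insert, hSF, Prod.mk.injEq]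
          simp only
          by_cases hj : j = k
          · subst hj
            rw [if_pos rfl]
            simp only [and_true]
            omega
          · rw [if_neg hj]
            constructor
            · rintro (h | h)
              · exact absurd h.2 hj
              · exact h
            · exact fun h => Or.inr h)]
    · by_cases hray : ∀ i', i' < n k → (i', k) ∈ S
      · -- a missing cell on another ray
        push Not at hfull
        obtain ⟨⟨i₀, j⟩, hp, hpS⟩ := hfull
        have hi₀ : i₀ < n j := (hF _).1 hp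
        have hjk : j ≠ k := by
          rintro rfl
          exact hpS (hray i₀ hi₀)
        classical
        have hex : ∃ i, (i, j) ∉ S := ⟨i₀, hpS⟩
        have h1 : (Nat.find hex, j) ∉ S := Nat.find_spec hex
        have h2 : Nat.find hex ≤ i₀ := Nat.find_min' hex hpS
        have h3 : Nat.find hex < n j := lt_of_le_of_lt h2 hi₀
        refine hstep (Nat.find hex, j) h3 h1 ?_
        refine hOut N θ w n k j (Nat.find hex) S hθ hw hS (hn k) hjk hray h3 h1 ?_
        intro i' hi'
        by_contra hcon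
        exact Nat.find_min hex hi' hcon
      · -- a missing cell on the ray `k`
        push Not at hray
        obtain ⟨i₀, hi₀, hi₀S⟩ := hray
        classical
        obtain ⟨i, hi, hmax⟩ := Finset.exists_max_image
          ((Finset.range (n k)).filter (fun i => (i, k) ∉ S)) (fun i => i)
          ⟨i₀, Finset.mem_filter.2 ⟨Finset.mem_range.2 hi₀, hi₀S⟩⟩
        rw [Finset.mem_filter, Finset.mem_range] at hi
        refine hstep (i, k) hi.1 hi.2 ?_
        refine hIn N θ w n k i S hθ hw hS hk hi.1 hi.2 ?_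
        intro i' h1 h2
        by_contra hcon
        have := hmax i' (Finset.mem_filter.2 ⟨Finset.mem_range.2 h2, hcon⟩)
        omega

end Pool.MP_31392c_an
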