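import Pool.Agent.Lib.MP_31392c_an.Full.SpecZ

/-!
# MP_31392c_an full proof: StepIn
-/

set_option autoImplicit false

open MeasureTheory Set Filter Topology Metric

namespace Pool.MP_31392c_an

namespace StepInAux

/-- the part of the ray of direction `a` between the radii in `I` -/
noncomputable def ry (a : ℝ) (I : Set ℝ) : Set ℂ :=
  (fun t : ℝ => (t : ℂ) * Complex.exp ((a : ℂ) * Complex.I)) '' I

lemma segment_ry (a x y : ℝ) (h : x ≤ y) :
    segment ℝ ((x : ℂ) * Complex.exp ((a : ℂ) * Complex.I))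
      ((y : ℂ) * Complex.exp ((a : ℂ) * Complex.I)) = ry a (Icc x y) := by
  have h1 := image_segment ℝ
    ((LinearMap.mulRight ℝ (Complex.exp ((a : ℂ) * Complex.I))).comp
      Complex.ofRealCLM.toLinearMap).toAffineMap x y
  rw [segment_eq_Icc h] at h1
  exact h1.symm

lemma cell_ry {N : ℕ} (θ w : Fin N → ℝ) (hw : ∀ j, 0 < w j) (p : ℕ × Fin N) :
    cell θ w p = ry (θ p.2) (Icc ((p.1 : ℝ) * w p.2) (((p.1 : ℝ) + 1) * w p.2)) := by
  unfold cell
  exact segment_ry _ _ _ (by nlinarith [hw p.2])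

lemma exp_add_pi (a : ℝ) : Complex.exp (((a + Real.pi : ℝ) : ℂ) * Complex.I) =
    -Complex.exp ((a : ℂ) * Complex.I) := by
  push_cast
  rw [add_mul, Complex.exp_add, Complex.exp_pi_mul_I]
  ring

lemma star_ry (a c x₀ x₁ : ℝ) (h₀ : 0 ≤ x₀) (h₁ : 0 ≤ x₁) :
    starSet ((c : ℂ) * Complex.exp ((a : ℂ) * Complex.I)) ![a, a + Real.pi] ![x₀, x₁] =
      ry a (Icc (c - x₁) (c + x₀)) := by
  ext z
  constructor
  · rintro ⟨j, r, hr, hrx, rfl⟩
    fin_cases j
    · refine ⟨c + r, ⟨?_, ?_⟩, ?_⟩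
      · linarith
      · have : r ≤ x₀ := hrx
        linarith
      · simp only [Fin.zero_eta, Matrix.cons_val_zero]
        push_cast
        ring
    · refine ⟨c - r, ⟨?_, ?_⟩, ?_⟩
      · have : r ≤ x₁ := hrx
        linarith
      · linarith
      · simp only [Fin.mk_one, Matrix.cons_val_one, Matrix.cons_val_fin_one]
        rw [exp_add_pi]
        push_cast
        ring
  · rintro ⟨t, ⟨ht1, ht2⟩, rfl⟩
    rcases le_total c t with h | h
    · refine ⟨0, t - c, by linarith, ?_, ?_⟩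
      · show t - c ≤ x₀
        linarith
      · simp only [Matrix.cons_val_zero]
        push_cast
        ring
    · refine ⟨1, c - t, by linarith, ?_, ?_⟩
      · show c - t ≤ x₁
        linarith
      · simp only [Matrix.cons_val_one, Matrix.cons_val_fin_one]
        rw [exp_add_pi]
        push_cast
        ring

lemma cover {W : ℝ} (a b : ℕ) (hab : a < b) (t : ℝ) (h1 : (a : ℝ) * W ≤ t)
    (h2 : t ≤ (b : ℝ) * W) :
    ∃ i, a ≤ i ∧ i < b ∧ (i : ℝ) * W ≤ t ∧ t ≤ ((i : ℝ) + 1) * W := by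
  induction b with
  | zero => omega
  | succ b ih =>
    by_cases h3 : t ≤ (b : ℝ) * W
    · rcases Nat.lt_or_ge a b with h4 | h4
      · obtain ⟨i, hi1, hi2, hi3, hi4⟩ := ih h4 h3
        exact ⟨i, hi1, by omega, hi3, hi4⟩
      · have : a = b := by omega
        subst this
        refine ⟨a, le_rfl, by omega, h1, ?_⟩
        push_cast at h2
        exact h2
    · refine ⟨b, by omega, by omega, by linarith, ?_⟩
      push_cast at h2
      exact h2

lemma exp_ne_of_dirs {N : ℕ} {θ : Fin N → ℝ} (hθ : Dirs θ) {j k : Fin N} (hjk : j ≠ k) :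
    Complex.exp ((θ j : ℂ) * Complex.I) ≠ Complex.exp ((θ k : ℂ) * Complex.I) := by
  intro h
  rw [Complex.exp_eq_exp_iff_exists_int] at h
  obtain ⟨n, hn⟩ := h
  have h1 : (θ j : ℂ) = θ k + n * (2 * Real.pi) := by
    have h2 : ((θ j : ℂ) - (θ k + n * (2 * Real.pi))) * Complex.I = 0 := by
      linear_combination hn
    rcases mul_eq_zero.1 h2 with h3 | h3
    · exact sub_eq_zero.1 h3
    · exact absurd h3 Complex.I_ne_zero
  have h2 : θ j = θ k + n * (2 * Real.pi) := by exact_mod_cast h1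
  have h3 := hθ.2 j k
  have h4 := hθ.2 k j
  have hpi := Real.pi_pos
  have h5 : (n : ℝ) < 1 := by
    by_contra hcon
    push Not at hcon
    nlinarith
  have h6 : (-1 : ℝ) < n := by
    by_contra hcon
    push Not at hcon
    nlinarith
  have h7 : n = 0 := by
    have h8 : n < 1 := by exact_mod_cast h5
    have h9 : -1 < n := by exact_mod_cast h6
    omega
  rw [h7] at h2
  simp only [Int.cast_zero, zero_mul, add_zero] at h2
  exact hjk (hθ.1.injective h2)

/-- two points of rays, one of positive radius -/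
lemma ray_inter {N : ℕ} {θ : Fin N → ℝ} (hθ : Dirs θ) {j k : Fin N} {t t' : ℝ} (ht : 0 < t)
    (ht' : 0 ≤ t') (h : (t : ℂ) * Complex.exp ((θ k : ℂ) * Complex.I) =
      (t' : ℂ) * Complex.exp ((θ j : ℂ) * Complex.I)) : j = k ∧ t = t' := by
  have h1 : t = t' := by
    have h2 := congrArg (fun z : ℂ => ‖z‖) h
    simp only [norm_mul, Complex.norm_real, Real.norm_eq_abs, Complex.norm_exp_ofReal_mul_I,
      mul_one] at h2
    rwa [abs_of_pos ht, abs_of_nonneg ht'] at h2
  refine ⟨?_, h1⟩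
  by_contra hjk
  subst h1
  have h3 : (t : ℂ) ≠ 0 := by exact_mod_cast ht.ne'
  exact exp_ne_of_dirs hθ hjk (mul_left_cancel₀ h3 h).symm

lemma cellU_insert {N : ℕ} (θ w : Fin N → ℝ) (p : ℕ × Fin N) (S : Finset (ℕ × Fin N)) :
    cellU θ w (insert p S) = cell θ w p ∪ cellU θ w S := by
  classical
  unfold cellU
  rw [Finset.set_biUnion_insert]

lemma segUnion_cellU {N : ℕ} (θ w : Fin N → ℝ) (hw : ∀ j, 0 < w j) (S : Finset (ℕ × Fin N)) :
    SegUnion (cellU θ w S) := by
  classical
  refine ⟨S.image (fun p => ((((p.1 : ℝ) * w p.2 : ℝ) : ℂ) * Complex.exp ((θ p.2 : ℂ) * Complex.I),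
    ((((p.1 : ℝ) + 1) * w p.2 : ℝ) : ℂ) * Complex.exp ((θ p.2 : ℂ) * Complex.I))), ?_, ?_⟩
  · intro q hq
    rw [Finset.mem_image] at hq
    obtain ⟨p, -, rfl⟩ := hq
    intro h
    have h1 := mul_right_cancel₀ (Complex.exp_ne_zero _) h
    have h2 : (p.1 : ℝ) * w p.2 = ((p.1 : ℝ) + 1) * w p.2 := by exact_mod_cast h1
    have := hw p.2
    linarith
  · unfold cellU cell
    rw [Finset.set_biUnion_finset_image]

lemma dirs_two (a : ℝ) : Dirs ![a, a + Real.pi] := by
  have hpi := Real.pi_pos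
  constructor
  · intro i j hij
    fin_cases i <;> fin_cases j <;> simp_all
  · intro i j
    fin_cases i <;> fin_cases j <;> simp <;> linarith

end StepInAux

open StepInAux in
/-- **StepIn** -/
theorem s_StepIn : Growth → StepIn := by
  classical
  intro hG N θ w n k i S hθ hw hS hlast hin hiS hrun
  have hW := hw k
  have hi1 : i + 1 < n k := by
    rcases Nat.lt_or_ge (i + 1) (n k) with h | h
    · exact h
    · exfalso
      apply hiS
      have : i = n k - 1 := by omega
      rw [this]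
      exact hlast
  have hi1r : (i : ℝ) + 1 < n k := by exact_mod_cast hi1
  set W := w k with hWdef
  set c : ℝ := ((i : ℝ) + 1 + n k) / 2 * W with hc
  set L : ℝ := ((n k : ℝ) - i - 1) / 2 * W with hL
  have hL0 : 0 < L := mul_pos (by linarith) hW
  set K := cellU θ w (S.filter (fun p => ¬(p.2 = k ∧ i < p.1))) with hK
  have cl : c - L = ((i : ℝ) + 1) * W := by rw [hc, hL]; ring
  have cr : c + L = (n k : ℝ) * W := by rw [hc, hL]; ring
  -- the four sets
  have hbase : cellU θ w S = ry (θ k) (Icc (((i : ℝ) + 1) * W) ((n k : ℝ) * W)) ∪ K := by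
    ext z
    constructor
    · intro hz
      unfold cellU at hz
      rw [mem_iUnion₂] at hz
      obtain ⟨p, hp, hzp⟩ := hz
      by_cases h1 : p.2 = k ∧ i < p.1
      · left
        rw [cell_ry θ w hw] at hzp
        obtain ⟨t, ht, rfl⟩ := hzp
        rw [h1.1] at ht ⊢
        refine ⟨t, ⟨?_, ?_⟩, rfl⟩
        · have h2 : (i : ℝ) + 1 ≤ p.1 := by exact_mod_cast h1.2
          have h3 := mul_le_mul_of_nonneg_right h2 hW.le
          linarith [ht.1]
        · have h2 : p.1 < n k := by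
            have := hS p hp
            rwa [h1.1] at this
          have h3 : (p.1 : ℝ) + 1 ≤ n k := by exact_mod_cast h2
          have h4 := mul_le_mul_of_nonneg_right h3 hW.le
          linarith [ht.2]
      · right
        rw [hK]
        unfold cellU
        rw [mem_iUnion₂]
        exact ⟨p, Finset.mem_filter.2 ⟨hp, h1⟩, hzp⟩
    · rintro (hz | hz)
      · obtain ⟨t, ht, rfl⟩ := hz
        obtain ⟨i', h1, h2, h3, h4⟩ := cover (W := W) (i + 1) (n k) hi1 t
          (by push_cast; exact ht.1) ht.2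
        unfold cellU
        rw [mem_iUnion₂]
        refine ⟨(i', k), hrun i' (by omega) h2, ?_⟩
        rw [cell_ry θ w hw]
        exact ⟨t, ⟨h3, h4⟩, rfl⟩
      · rw [hK] at hz
        unfold cellU at hz ⊢
        rw [mem_iUnion₂] at hz ⊢
        obtain ⟨p, hp, hzp⟩ := hz
        exact ⟨p, (Finset.mem_filter.1 hp).1, hzp⟩
  have hcn : cell θ w (n k, k) = ry (θ k) (Icc ((n k : ℝ) * W) (((n k : ℝ) + 1) * W)) :=
    cell_ry θ w hw _
  have hci : cell θ w (i, k) = ry (θ k) (Icc ((i : ℝ) * W) (((i : ℝ) + 1) * W)) :=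
    cell_ry θ w hw _
  have hU : ∀ {x y z : ℝ}, x ≤ y → y ≤ z →
      ry (θ k) (Icc x y) ∪ ry (θ k) (Icc y z) = ry (θ k) (Icc x z) := by
    intro x y z hxy hyz
    unfold ry
    rw [← image_union, Icc_union_Icc_eq_Icc hxy hyz]
  have o1 : (i : ℝ) * W ≤ ((i : ℝ) + 1) * W := by nlinarith
  have o2 : ((i : ℝ) + 1) * W ≤ (n k : ℝ) * W := mul_le_mul_of_nonneg_right hi1r.le hW.le
  have o3 : (n k : ℝ) * W ≤ ((n k : ℝ) + 1) * W := by nlinarith
  have e1 : cellU θ w (insert (n k, k) S) =
      ry (θ k) (Icc (((i : ℝ) + 1) * W) (((n k : ℝ) + 1) * W)) ∪ K := by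
    rw [cellU_insert, hbase, hcn, ← union_assoc, union_comm (ry (θ k) (Icc ((n k : ℝ) * W) _)),
      hU o2 o3]
  have e2 : cellU θ w (insert (i, k) S) = ry (θ k) (Icc ((i : ℝ) * W) ((n k : ℝ) * W)) ∪ K := by
    rw [cellU_insert, hbase, hci, ← union_assoc, hU o1 o2]
  have e3 : cellU θ w (insert (n k, k) (insert (i, k) S)) =
      ry (θ k) (Icc ((i : ℝ) * W) (((n k : ℝ) + 1) * W)) ∪ K := by
    rw [cellU_insert, e2, hcn, ← union_assoc, union_comm (ry (θ k) (Icc ((n k : ℝ) * W) _)),
      hU (o1.trans o2) o3]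
  -- the stars
  have x1 : ∀ s : ℝ, (![L, L] + Pi.single 1 s : Fin 2 → ℝ) = ![L, L + s] := by
    intro s
    ext j
    fin_cases j <;> simp
  have x2 : ∀ s u : ℝ, (![L, s] + Pi.single 0 u : Fin 2 → ℝ) = ![L + u, s] := by
    intro s u
    ext j
    fin_cases j <;> simp
  have key := hG 2 ((c : ℂ) * Complex.exp ((θ k : ℂ) * Complex.I)) ![θ k, θ k + Real.pi] ![L, L]
    0 1 W W K (dirs_two _) (by decide) (by intro j; fin_cases j <;> exact hL0.le) hL0 hW hW
    (segUnion_cellU θ w hw _) (by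
      intro s hs0 hsW
      rw [x1, x2, star_ry _ _ _ _ (by linarith) (by linarith), disjoint_left]
      intro z hzK hz
      obtain ⟨t, ht, rfl⟩ := hz
      have ht0 : (i : ℝ) * W < t := by
        have h1 := ht.1
        have h2 : c - (L + s) = ((i : ℝ) + 1) * W - s := by rw [← cl]; ring
        rw [h2] at h1
        nlinarith
      have htpos : 0 < t := lt_of_le_of_lt (mul_nonneg (Nat.cast_nonneg i) hW.le) ht0
      rw [hK] at hzK
      unfold cellU at hzK
      rw [mem_iUnion₂] at hzK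
      obtain ⟨p, hp, hzp⟩ := hzK
      rw [Finset.mem_filter] at hp
      rw [cell_ry θ w hw] at hzp
      obtain ⟨t', ht', heq⟩ := hzp
      have ht'0 : 0 ≤ t' := le_trans (mul_nonneg (Nat.cast_nonneg _) (hw _).le) ht'.1
      obtain ⟨hj, htt⟩ := ray_inter hθ htpos ht'0 heq.symm
      have h3 : p.1 ≤ i := by
        by_contra hcon
        exact hp.2 ⟨hj, by omega⟩
      have h4 : p.1 ≠ i := by
        intro h5
        apply hiS
        have : p = (i, k) := Prod.ext h5 hj
        rw [← this]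
        exact hp.1
      have h5 : (p.1 : ℝ) + 1 ≤ i := by exact_mod_cast (show p.1 + 1 ≤ i by omega)
      have h6 := ht'.2
      rw [hj] at h6
      have h7 := mul_le_mul_of_nonneg_right h5 hW.le
      linarith)
  rw [x1, x2, x2, star_ry _ _ _ _ (by linarith) (by linarith),
    star_ry _ _ _ _ (by linarith) (by linarith), star_ry _ _ _ _ (by linarith) (by linarith),
    star_ry _ _ _ _ (by linarith) (by linarith)] at key
  have y1 : c - (L + W) = (i : ℝ) * W := by
    have : c - (L + W) = (c - L) - W := by ring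
    rw [this, cl]
    ring
  have y2 : c + (L + W) = ((n k : ℝ) + 1) * W := by
    have : c + (L + W) = (c + L) + W := by ring
    rw [this, cr]
    ring
  rw [y1, y2, cl, cr] at key
  unfold gain
  rw [e3, e2, e1, hbase]
  exact key

end Pool.MP_31392c_an
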