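import Mathlib
import Pool.Agent.Lib.MP_31392c_an.Full.SpecZ

/-!
# MP_31392c_an full proof: StepOut (filling the first missing cell on another ray)
-/

set_option autoImplicit false

open MeasureTheory Set Filter Topology Metric

namespace Pool.MP_31392c_an

namespace StepOut

theorem mem_cell {N : ℕ} (θ w : Fin N → ℝ) (hw : ∀ j, 0 < w j) (p : ℕ × Fin N) (z : ℂ) :
    z ∈ cell θ w p ↔ ∃ r : ℝ, (p.1 : ℝ) * w p.2 ≤ r ∧ r ≤ ((p.1 : ℝ) + 1) * w p.2 ∧
      z = (r : ℂ) * Complex.exp ((θ p.2 : ℂ) * Complex.I) := by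
  have hwp := hw p.2
  unfold cell
  rw [segment_eq_image]
  constructor
  · rintro ⟨t, ⟨ht0, ht1⟩, rfl⟩
    refine ⟨(1 - t) * ((p.1 : ℝ) * w p.2) + t * (((p.1 : ℝ) + 1) * w p.2), ?_, ?_, ?_⟩
    · nlinarith
    · nlinarith
    · simp only [Complex.real_smul]
      push_cast
      ring
  · rintro ⟨r, h1, h2, rfl⟩
    refine ⟨(r - (p.1 : ℝ) * w p.2) / w p.2, ⟨by
      apply div_nonneg (by linarith) hwp.le, by
      rw [div_le_one hwp]; nlinarith⟩, ?_⟩
    simp only [Complex.real_smul]
    have hne : (w p.2 : ℂ) ≠ 0 := by exact_mod_cast hwp.ne'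
    push_cast
    field_simp
    ring

theorem mem_cellU {N : ℕ} (θ w : Fin N → ℝ) (hw : ∀ j, 0 < w j) (S : Finset (ℕ × Fin N)) (z : ℂ) :
    z ∈ cellU θ w S ↔ ∃ p ∈ S, ∃ r : ℝ, (p.1 : ℝ) * w p.2 ≤ r ∧ r ≤ ((p.1 : ℝ) + 1) * w p.2 ∧
      z = (r : ℂ) * Complex.exp ((θ p.2 : ℂ) * Complex.I) := by
  unfold cellU
  simp only [mem_iUnion, exists_prop, mem_cell θ w hw]

theorem cellU_eq {N : ℕ} (θ w : Fin N → ℝ) (hw : ∀ j, 0 < w j) (S K : Finset (ℕ × Fin N))
    (f : Fin N → ℕ) (k : Fin N) (hk : 1 ≤ f k) (hf : ∀ j i, i < f j → (i, j) ∈ S)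
    (hK : S.filter (fun p => f p.2 ≤ p.1) = K) (x : Fin N → ℝ)
    (hx : ∀ j, x j = (f j : ℝ) * w j) :
    cellU θ w S = starSet 0 θ x ∪ cellU θ w K := by
  subst hK
  ext z
  rw [mem_union, mem_cellU θ w hw, mem_cellU θ w hw]
  constructor
  · rintro ⟨p, hp, r, h1, h2, hz⟩
    by_cases hfp : f p.2 ≤ p.1
    · right
      exact ⟨p, Finset.mem_filter.mpr ⟨hp, hfp⟩, r, h1, h2, hz⟩
    · left
      push Not at hfp
      have h0 : 0 ≤ (p.1 : ℝ) * w p.2 := mul_nonneg (Nat.cast_nonneg _) (hw _).le
      refine ⟨p.2, r, h0.trans h1, ?_, ?_⟩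
      · rw [hx]
        refine h2.trans ?_
        apply mul_le_mul_of_nonneg_right _ (hw _).le
        exact_mod_cast hfp
      · rw [zero_add]; exact hz
  · rintro (⟨j, r, h1, h2, hz⟩ | ⟨p, hp, h⟩)
    · rw [zero_add] at hz
      rw [hx] at h2
      have hwj := hw j
      rcases Nat.eq_zero_or_pos (f j) with h0 | h0
      · -- the point is `0`
        rw [h0] at h2
        have hr : r = 0 := le_antisymm (by simpa using h2) h1
        refine ⟨(0, k), hf k 0 (by omega), 0, by simp, ?_, ?_⟩
        · simpa using (hw k).le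
        · rw [hz, hr]; simp
      · have hfl : (⌊r / w j⌋₊ : ℝ) ≤ r / w j := Nat.floor_le (div_nonneg h1 hwj.le)
        have hfl2 : r / w j < (⌊r / w j⌋₊ : ℝ) + 1 := Nat.lt_floor_add_one _
        rw [le_div_iff₀ hwj] at hfl
        rw [div_lt_iff₀ hwj] at hfl2
        rcases lt_or_ge ⌊r / w j⌋₊ (f j) with h | h
        · exact ⟨(⌊r / w j⌋₊, j), hf j _ h, r, hfl, hfl2.le, hz⟩
        · refine ⟨(f j - 1, j), hf j _ (by omega), r, ?_, ?_, hz⟩
          · refine le_trans ?_ hfl
            apply mul_le_mul_of_nonneg_right _ hwj.le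
            have : f j - 1 ≤ ⌊r / w j⌋₊ := by omega
            exact_mod_cast this
          · refine h2.trans (le_of_eq ?_)
            congr 1
            have : (f j : ℝ) = ((f j - 1 + 1 : ℕ) : ℝ) := by
              congr 1; omega
            rw [this]; push_cast; ring
    · exact ⟨p, (Finset.mem_filter.mp hp).1, h⟩

theorem dir_inj {N : ℕ} (θ : Fin N → ℝ) (hθ : Dirs θ) (a b : Fin N)
    (h : Complex.exp ((θ a : ℂ) * Complex.I) = Complex.exp ((θ b : ℂ) * Complex.I)) : a = b := by
  rw [Complex.exp_eq_exp_iff_exists_int] at h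
  obtain ⟨n, hn⟩ := h
  have h1 : (θ a : ℂ) = θ b + n * (2 * Real.pi) := by
    have hI : Complex.I ≠ 0 := Complex.I_ne_zero
    have : (θ a : ℂ) * Complex.I = (θ b + n * (2 * Real.pi)) * Complex.I := by
      rw [hn]; ring
    exact mul_right_cancel₀ hI this
  have h2 : θ a = θ b + n * (2 * Real.pi) := by exact_mod_cast h1
  have hpi := Real.pi_pos
  have h3 := hθ.2 a b
  have h4 := hθ.2 b a
  have hn0 : n = 0 := by
    have : (n : ℝ) < 1 := by
      by_contra hc
      push Not at hc
      nlinarith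
    have h' : (-1 : ℝ) < n := by
      by_contra hc
      push Not at hc
      nlinarith
    have i1 : n < 1 := by exact_mod_cast this
    have i2 : -1 < n := by exact_mod_cast h'
    omega
  rw [hn0] at h2
  exact hθ.1.injective (by simpa using h2)

theorem polar_eq {N : ℕ} (θ : Fin N → ℝ) (hθ : Dirs θ) (a b : Fin N) (r s : ℝ) (hr : 0 < r)
    (hs : 0 ≤ s)
    (h : (r : ℂ) * Complex.exp ((θ a : ℂ) * Complex.I) =
      (s : ℂ) * Complex.exp ((θ b : ℂ) * Complex.I)) : a = b ∧ r = s := by
  have hrs : r = s := by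
    have := congrArg norm h
    rw [norm_mul, norm_mul, Complex.norm_exp_ofReal_mul_I, Complex.norm_exp_ofReal_mul_I,
      Complex.norm_real, Complex.norm_real, mul_one, mul_one, Real.norm_of_nonneg hr.le,
      Real.norm_of_nonneg hs] at this
    exact this
  subst hrs
  have hne : (r : ℂ) ≠ 0 := by exact_mod_cast hr.ne'
  exact ⟨dir_inj θ hθ a b (mul_left_cancel₀ hne h), rfl⟩

theorem segU {N : ℕ} (θ w : Fin N → ℝ) (hw : ∀ j, 0 < w j) (S : Finset (ℕ × Fin N)) :
    SegUnion (cellU θ w S) := by
  classical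
  refine ⟨S.image (fun p => ((((p.1 : ℝ) * w p.2 : ℝ) : ℂ) * Complex.exp ((θ p.2 : ℂ) * Complex.I),
    ((((p.1 : ℝ) + 1) * w p.2 : ℝ) : ℂ) * Complex.exp ((θ p.2 : ℂ) * Complex.I))), ?_, ?_⟩
  · intro q hq
    obtain ⟨p, hp, rfl⟩ := Finset.mem_image.mp hq
    simp only
    intro h
    have h' := mul_right_cancel₀ (Complex.exp_ne_zero _) h
    have h'' : (p.1 : ℝ) * w p.2 = ((p.1 : ℝ) + 1) * w p.2 := by exact_mod_cast h'
    have := hw p.2
    nlinarith
  · unfold cellU cell
    rw [Finset.set_biUnion_finset_image]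

end StepOut

open StepOut in
theorem s_StepOut : Growth → StepOut := by
  classical
  intro hG N θ w n k j i S hθ hw hS hnk hjk hfull hij hnot hrun
  -- the initial runs
  have hex : ∀ j' : Fin N, ∃ i', (i', j') ∉ S := by
    intro j'
    refine ⟨n j', fun h => ?_⟩
    exact absurd (hS _ h) (lt_irrefl _)
  obtain ⟨f, hf1, hf2⟩ : ∃ f : Fin N → ℕ, (∀ j', (f j', j') ∉ S) ∧
      ∀ j' i', i' < f j' → (i', j') ∈ S := by
    refine ⟨fun j' => Nat.find (hex j'), fun j' => Nat.find_spec (hex j'), ?_⟩
    intro j' i' hi'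
    exact not_not.mp (Nat.find_min (hex j') hi')
  have hfk : f k = n k := by
    apply le_antisymm
    · by_contra hc
      push Not at hc
      exact absurd (hS _ (hf2 k (n k) hc)) (lt_irrefl _)
    · by_contra hc
      push Not at hc
      exact hf1 k (hfull _ hc)
  have hfj : f j = i := by
    apply le_antisymm
    · by_contra hc
      push Not at hc
      exact hnot (hf2 j i hc)
    · by_contra hc
      push Not at hc
      exact hf1 j (hrun _ hc)
  set K : Finset (ℕ × Fin N) := S.filter (fun p => f p.2 ≤ p.1) with hKdef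
  set x : Fin N → ℝ := fun j' => (f j' : ℝ) * w j' with hxdef
  -- the members of `K`
  have hKmem : ∀ p ∈ K, p ∈ S ∧ f p.2 + 1 ≤ p.1 ∧ p.2 ≠ k := by
    intro p hp
    obtain ⟨hpS, hfp⟩ := Finset.mem_filter.mp hp
    refine ⟨hpS, ?_, ?_⟩
    · rcases Nat.lt_or_eq_of_le hfp with h | h
      · exact h
      · exfalso
        apply hf1 p.2
        rw [h]
        exact hpS
    · intro hk
      have h1 := hS p hpS
      rw [hk] at h1 hfp
      omega
  -- the four sets
  have e1 : cellU θ w S = starSet 0 θ x ∪ cellU θ w K :=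
    cellU_eq θ w hw S K f k (by omega) hf2 rfl x (fun _ => rfl)
  have e2 : cellU θ w (insert (n k, k) S) =
      starSet 0 θ (x + Pi.single k (w k)) ∪ cellU θ w K := by
    refine cellU_eq θ w hw _ K (f + Pi.single k 1) k (by simp) ?_ ?_ _ ?_
    · intro j' i' hi'
      by_cases hj' : j' = k
      · subst hj'
        simp only [Pi.add_apply, Pi.single_eq_same, hfk] at hi'
        rcases Nat.lt_or_eq_of_le (Nat.lt_succ_iff.mp hi') with h | h
        · exact Finset.mem_insert_of_mem (hfull _ h)
        · rw [h]; exact Finset.mem_insert_self _ _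
      · rw [Pi.add_apply, Pi.single_eq_of_ne hj', add_zero] at hi'
        exact Finset.mem_insert_of_mem (hf2 _ _ hi')
    · ext p
      rw [Finset.mem_filter, Finset.mem_insert]
      constructor
      · rintro ⟨rfl | hp, hfp⟩
        · exfalso
          simp only [Pi.add_apply, Pi.single_eq_same, hfk] at hfp
          omega
        · refine Finset.mem_filter.mpr ⟨hp, ?_⟩
          refine le_trans ?_ hfp
          exact Nat.le_add_right _ _
      · intro hp
        obtain ⟨hpS, hfp, hpk⟩ := hKmem p hp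
        refine ⟨Or.inr hpS, ?_⟩
        rw [Pi.add_apply, Pi.single_eq_of_ne hpk, add_zero]
        omega
    · intro j'
      by_cases hj' : j' = k
      · subst hj'
        simp only [Pi.add_apply, Pi.single_eq_same, hxdef]
        push_cast; ring
      · simp only [Pi.add_apply, Pi.single_eq_of_ne hj', add_zero, hxdef]
  have e3 : cellU θ w (insert (i, j) S) =
      starSet 0 θ (x + Pi.single j (w j)) ∪ cellU θ w K := by
    refine cellU_eq θ w hw _ K (f + Pi.single j 1) j (by simp) ?_ ?_ _ ?_
    · intro j' i' hi'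
      by_cases hj' : j' = j
      · subst hj'
        simp only [Pi.add_apply, Pi.single_eq_same, hfj] at hi'
        rcases Nat.lt_or_eq_of_le (Nat.lt_succ_iff.mp hi') with h | h
        · exact Finset.mem_insert_of_mem (hrun _ h)
        · rw [h]; exact Finset.mem_insert_self _ _
      · rw [Pi.add_apply, Pi.single_eq_of_ne hj', add_zero] at hi'
        exact Finset.mem_insert_of_mem (hf2 _ _ hi')
    · ext p
      rw [Finset.mem_filter, Finset.mem_insert]
      constructor
      · rintro ⟨rfl | hp, hfp⟩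
        · exfalso
          simp only [Pi.add_apply, Pi.single_eq_same, hfj] at hfp
          omega
        · refine Finset.mem_filter.mpr ⟨hp, ?_⟩
          refine le_trans ?_ hfp
          exact Nat.le_add_right _ _
      · intro hp
        obtain ⟨hpS, hfp, hpk⟩ := hKmem p hp
        refine ⟨Or.inr hpS, ?_⟩
        by_cases hpj : p.2 = j
        · rw [Pi.add_apply, hpj, Pi.single_eq_same, ← hpj]
          exact hfp
        · rw [Pi.add_apply, Pi.single_eq_of_ne hpj, add_zero]
          omega
    · intro j'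
      by_cases hj' : j' = j
      · subst hj'
        simp only [Pi.add_apply, Pi.single_eq_same, hxdef]
        push_cast; ring
      · simp only [Pi.add_apply, Pi.single_eq_of_ne hj', add_zero, hxdef]
  have e4 : cellU θ w (insert (n k, k) (insert (i, j) S)) =
      starSet 0 θ (x + Pi.single j (w j) + Pi.single k (w k)) ∪ cellU θ w K := by
    refine cellU_eq θ w hw _ K (f + Pi.single j 1 + Pi.single k 1) k (by simp) ?_ ?_ _ ?_
    · intro j' i' hi'
      by_cases hj' : j' = k
      · subst hj'
        rw [Pi.add_apply, Pi.add_apply, Pi.single_eq_same, Pi.single_eq_of_ne (Ne.symm hjk),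
          add_zero, hfk] at hi'
        rcases Nat.lt_or_eq_of_le (Nat.lt_succ_iff.mp hi') with h | h
        · exact Finset.mem_insert_of_mem (Finset.mem_insert_of_mem (hfull _ h))
        · rw [h]; exact Finset.mem_insert_self _ _
      · rw [Pi.add_apply, Pi.single_eq_of_ne hj', add_zero] at hi'
        apply Finset.mem_insert_of_mem
        by_cases hj'' : j' = j
        · subst hj''
          simp only [Pi.add_apply, Pi.single_eq_same, hfj] at hi'
          rcases Nat.lt_or_eq_of_le (Nat.lt_succ_iff.mp hi') with h | h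
          · exact Finset.mem_insert_of_mem (hrun _ h)
          · rw [h]; exact Finset.mem_insert_self _ _
        · rw [Pi.add_apply, Pi.single_eq_of_ne hj'', add_zero] at hi'
          exact Finset.mem_insert_of_mem (hf2 _ _ hi')
    · ext p
      rw [Finset.mem_filter, Finset.mem_insert, Finset.mem_insert]
      constructor
      · rintro ⟨rfl | rfl | hp, hfp⟩
        · exfalso
          rw [Pi.add_apply, Pi.add_apply, Pi.single_eq_same,
            Pi.single_eq_of_ne (Ne.symm hjk), add_zero, hfk] at hfp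
          omega
        · exfalso
          rw [Pi.add_apply, Pi.add_apply, Pi.single_eq_same, hfj] at hfp
          omega
        · refine Finset.mem_filter.mpr ⟨hp, ?_⟩
          refine le_trans ?_ hfp
          rw [Pi.add_apply, Pi.add_apply]
          omega
      · intro hp
        obtain ⟨hpS, hfp, hpk⟩ := hKmem p hp
        refine ⟨Or.inr (Or.inr hpS), ?_⟩
        rw [Pi.add_apply, Pi.single_eq_of_ne hpk, add_zero]
        by_cases hpj : p.2 = j
        · rw [Pi.add_apply, hpj, Pi.single_eq_same, ← hpj]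
          exact hfp
        · rw [Pi.add_apply, Pi.single_eq_of_ne hpj, add_zero]
          omega
    · intro j'
      by_cases hj' : j' = k
      · subst hj'
        simp only [Pi.add_apply, Pi.single_eq_same, Pi.single_eq_of_ne (Ne.symm hjk), hxdef]
        push_cast; ring
      · by_cases hj'' : j' = j
        · subst hj''
          simp only [Pi.add_apply, Pi.single_eq_same, Pi.single_eq_of_ne hjk, hxdef]
          push_cast; ring
        · simp only [Pi.add_apply, Pi.single_eq_of_ne hj', Pi.single_eq_of_ne hj'', add_zero,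
            hxdef]
  unfold gain
  rw [e1, e2, e3, e4]
  refine hG N 0 θ x k j (w k) (w j) (cellU θ w K) hθ (Ne.symm hjk) ?_ ?_ (hw k) (hw j)
    (segU θ w hw K) ?_
  · intro j'
    exact mul_nonneg (Nat.cast_nonneg _) (hw _).le
  · simp only [hxdef]
    rw [hfk]
    exact mul_pos (by exact_mod_cast hnk) (hw k)
  · intro s hs0 hs1
    rw [Set.disjoint_left]
    intro z hzK hzS
    rw [mem_cellU θ w hw] at hzK
    obtain ⟨p, hp, r, h1, h2, hz⟩ := hzK
    obtain ⟨j', r', h3, h4, hz'⟩ := hzS
    rw [zero_add] at hz'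
    obtain ⟨hpS, hfp, hpk⟩ := hKmem p hp
    have hwp := hw p.2
    have hfp' : (f p.2 : ℝ) + 1 ≤ (p.1 : ℝ) := by exact_mod_cast hfp
    have hr1 : ((f p.2 : ℝ) + 1) * w p.2 ≤ r :=
      le_trans (mul_le_mul_of_nonneg_right hfp' hwp.le) h1
    have hf0 : (0 : ℝ) ≤ (f p.2 : ℝ) := Nat.cast_nonneg _
    have hrpos : 0 < r := lt_of_lt_of_le (by positivity) hr1
    obtain ⟨hpj', hrr'⟩ := polar_eq θ hθ p.2 j' r r' hrpos h3 (hz.symm.trans hz')
    subst hpj'
    rw [Pi.add_apply, Pi.add_apply, Pi.single_eq_of_ne hpk, add_zero] at h4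
    simp only [hxdef] at h4
    by_cases hpj : p.2 = j
    · rw [hpj, Pi.single_eq_same, ← hpj] at h4
      rw [← hpj] at hs1
      nlinarith
    · rw [Pi.single_eq_of_ne hpj, add_zero] at h4
      nlinarith

end Pool.MP_31392c_an
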