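import Pool.Agent.Lib.MP_31392c_an.Full.SpecB

/-!
# Strong maximum principle from the weak one (comparison with an exponential barrier)
-/

set_option autoImplicit false

open MeasureTheory Set Filter Topology Metric

namespace Pool.MP_31392c_an

namespace StrongMPAux

lemma diff_dX {f : ℂ → ℝ} {z : ℂ} (h : ContDiffAt ℝ 2 f z) : DifferentiableAt ℝ (dX f) z := by
  have h1 : ContDiffAt ℝ 1 (fderiv ℝ f) z := h.fderiv_right (by norm_num)
  exact (h1.differentiableAt (by norm_num)).clm_apply (differentiableAt_const _)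

lemma diff_dY {f : ℂ → ℝ} {z : ℂ} (h : ContDiffAt ℝ 2 f z) : DifferentiableAt ℝ (dY f) z := by
  have h1 : ContDiffAt ℝ 1 (fderiv ℝ f) z := h.fderiv_right (by norm_num)
  exact (h1.differentiableAt (by norm_num)).clm_apply (differentiableAt_const _)

lemma ev_diff {f : ℂ → ℝ} {z : ℂ} (h : ContDiffAt ℝ 2 f z) :
    ∀ᶠ y in 𝓝 z, DifferentiableAt ℝ f y := by
  filter_upwards [h.eventually (by norm_num)] with y hy
  exact hy.differentiableAt (by norm_num)

/-- The Laplacian of a difference. -/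
lemma lap_sub {f g : ℂ → ℝ} {z : ℂ} (hf : ContDiffAt ℝ 2 f z) (hg : ContDiffAt ℝ 2 g z) :
    lap (fun y => f y - g y) z = lap f z - lap g z := by
  have h1 : dX (fun y => f y - g y) =ᶠ[𝓝 z] fun y => dX f y - dX g y := by
    filter_upwards [ev_diff hf, ev_diff hg] with y hy1 hy2
    unfold dX
    rw [fderiv_fun_sub hy1 hy2]
    rfl
  have h2 : dY (fun y => f y - g y) =ᶠ[𝓝 z] fun y => dY f y - dY g y := by
    filter_upwards [ev_diff hf, ev_diff hg] with y hy1 hy2
    unfold dY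
    rw [fderiv_fun_sub hy1 hy2]
    rfl
  have h3 : dX (dX (fun y => f y - g y)) z = dX (dX f) z - dX (dX g) z := by
    have : dX (dX (fun y => f y - g y)) z = dX (fun y => dX f y - dX g y) z := by
      show fderiv ℝ (dX (fun y => f y - g y)) z 1 = fderiv ℝ (fun y => dX f y - dX g y) z 1
      rw [h1.fderiv_eq]
    rw [this]
    show fderiv ℝ (fun y => dX f y - dX g y) z 1 = fderiv ℝ (dX f) z 1 - fderiv ℝ (dX g) z 1
    rw [fderiv_fun_sub (diff_dX hf) (diff_dX hg)]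
    rfl
  have h4 : dY (dY (fun y => f y - g y)) z = dY (dY f) z - dY (dY g) z := by
    have : dY (dY (fun y => f y - g y)) z = dY (fun y => dY f y - dY g y) z := by
      show fderiv ℝ (dY (fun y => f y - g y)) z Complex.I =
        fderiv ℝ (fun y => dY f y - dY g y) z Complex.I
      rw [h2.fderiv_eq]
    rw [this]
    show fderiv ℝ (fun y => dY f y - dY g y) z Complex.I =
      fderiv ℝ (dY f) z Complex.I - fderiv ℝ (dY g) z Complex.I
    rw [fderiv_fun_sub (diff_dY hf) (diff_dY hg)]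
    rfl
  unfold lap
  rw [h3, h4]
  ring

/-- The squared distance to `z₁`. -/
noncomputable def q (z₁ z : ℂ) : ℝ := (z.re - z₁.re) ^ 2 + (z.im - z₁.im) ^ 2

lemma q_eq (z₁ z : ℂ) : q z₁ z = ‖z - z₁‖ ^ 2 := by
  unfold q
  rw [← Complex.normSq_eq_norm_sq, Complex.normSq_apply, Complex.sub_re, Complex.sub_im]
  ring

/-- The exponential barrier. -/
noncomputable def ex (α : ℝ) (z₁ z : ℂ) : ℝ := Real.exp (-α * q z₁ z)

lemma ex_pos (α : ℝ) (z₁ z : ℂ) : 0 < ex α z₁ z := Real.exp_pos _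

lemma hasFDerivAt_q (z₁ z : ℂ) : HasFDerivAt (q z₁)
    ((2 * (z.re - z₁.re)) • Complex.reCLM + (2 * (z.im - z₁.im)) • Complex.imCLM) z := by
  have h1 : HasFDerivAt (fun z : ℂ => z.re - z₁.re) Complex.reCLM z :=
    Complex.reCLM.hasFDerivAt.sub_const _
  have h2 : HasFDerivAt (fun z : ℂ => z.im - z₁.im) Complex.imCLM z :=
    Complex.imCLM.hasFDerivAt.sub_const _
  have h3 := (h1.pow 2).add (h2.pow 2)
  refine h3.congr_fderiv ?_
  ext <;> simp

lemma hasFDerivAt_ex (α : ℝ) (z₁ z : ℂ) : HasFDerivAt (ex α z₁)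
    (ex α z₁ z • ((-α) • ((2 * (z.re - z₁.re)) • Complex.reCLM +
      (2 * (z.im - z₁.im)) • Complex.imCLM))) z :=
  ((hasFDerivAt_q z₁ z).const_mul (-α)).exp

lemma contDiff_q (z₁ : ℂ) : ContDiff ℝ 2 (q z₁) := by
  have h1 : ContDiff ℝ 2 (fun z : ℂ => z.re - z₁.re) := Complex.reCLM.contDiff.sub contDiff_const
  have h2 : ContDiff ℝ 2 (fun z : ℂ => z.im - z₁.im) := Complex.imCLM.contDiff.sub contDiff_const
  exact (h1.pow 2).add (h2.pow 2)

lemma contDiff_ex (α : ℝ) (z₁ : ℂ) : ContDiff ℝ 2 (ex α z₁) :=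
  (contDiff_const.mul (contDiff_q z₁)).exp

/-- The barrier. -/
noncomputable def wb (η α c : ℝ) (z₁ z : ℂ) : ℝ := η * (ex α z₁ z - c)

lemma contDiff_wb (η α c : ℝ) (z₁ : ℂ) : ContDiff ℝ 2 (wb η α c z₁) :=
  contDiff_const.mul ((contDiff_ex α z₁).sub contDiff_const)

lemma dX_wb (η α c : ℝ) (z₁ : ℂ) : dX (wb η α c z₁) =
    fun z => (-2 * η * α) * (ex α z₁ z * (z.re - z₁.re)) := by
  funext z
  have h1 : HasFDerivAt (wb η α c z₁) (η • (ex α z₁ z • ((-α) • ((2 * (z.re - z₁.re)) •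
      Complex.reCLM + (2 * (z.im - z₁.im)) • Complex.imCLM)))) z :=
    ((hasFDerivAt_ex α z₁ z).sub_const c).const_mul η
  unfold dX
  rw [h1.fderiv]
  simp
  ring

lemma dY_wb (η α c : ℝ) (z₁ : ℂ) : dY (wb η α c z₁) =
    fun z => (-2 * η * α) * (ex α z₁ z * (z.im - z₁.im)) := by
  funext z
  have h1 : HasFDerivAt (wb η α c z₁) (η • (ex α z₁ z • ((-α) • ((2 * (z.re - z₁.re)) •
      Complex.reCLM + (2 * (z.im - z₁.im)) • Complex.imCLM)))) z :=
    ((hasFDerivAt_ex α z₁ z).sub_const c).const_mul η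
  unfold dY
  rw [h1.fderiv]
  simp
  ring

lemma lap_wb (η α c : ℝ) (z₁ z : ℂ) : lap (wb η α c z₁) z =
    η * ex α z₁ z * (4 * α ^ 2 * q z₁ z - 4 * α) := by
  have h1 : dX (dX (wb η α c z₁)) z = η * ex α z₁ z *
      (4 * α ^ 2 * (z.re - z₁.re) ^ 2 - 2 * α) := by
    rw [dX_wb]
    have h2 : HasFDerivAt (fun z : ℂ => z.re - z₁.re) Complex.reCLM z :=
      Complex.reCLM.hasFDerivAt.sub_const _
    have h3 := ((hasFDerivAt_ex α z₁ z).mul h2).const_mul (-2 * η * α)
    unfold dX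
    have h4 : fderiv ℝ (fun z => (-2 * η * α) * (ex α z₁ z * (z.re - z₁.re))) z = _ := h3.fderiv
    rw [h4]
    simp
    ring
  have h1' : dY (dY (wb η α c z₁)) z = η * ex α z₁ z *
      (4 * α ^ 2 * (z.im - z₁.im) ^ 2 - 2 * α) := by
    rw [dY_wb]
    have h2 : HasFDerivAt (fun z : ℂ => z.im - z₁.im) Complex.imCLM z :=
      Complex.imCLM.hasFDerivAt.sub_const _
    have h3 := ((hasFDerivAt_ex α z₁ z).mul h2).const_mul (-2 * η * α)
    unfold dY
    have h4 : fderiv ℝ (fun z => (-2 * η * α) * (ex α z₁ z * (z.im - z₁.im))) z = _ := h3.fderiv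
    rw [h4]
    simp
    ring
  unfold lap
  rw [h1, h1']
  unfold q
  ring

/-- Positivity propagates to the largest ball. -/
lemma hopf (hM : MaxPr) {U : Set ℂ} {V a : ℂ → ℝ} {Λ : ℝ} (hU : IsOpen U)
    (hV : ∀ z ∈ U, 0 ≤ V z ∧ V z ≤ Λ) (ha : VHarm V a U) (ha0 : ∀ z ∈ U, 0 ≤ a z)
    {z₁ : ℂ} {R : ℝ} (hR : 0 < R) (hball : closedBall z₁ R ⊆ U) (hz₁ : 0 < a z₁) :
    ∀ z ∈ ball z₁ R, 0 < a z := by
  have hcont : ∀ z ∈ U, ContinuousAt a z := fun z hz => (ha z hz).1.continuousAt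
  have hz₁U : z₁ ∈ U := hball (mem_closedBall_self hR.le)
  -- a small closed ball on which `a` is bounded below
  obtain ⟨ρ, hρ, hρR, hρa⟩ : ∃ ρ, 0 < ρ ∧ ρ < R ∧ ∀ z ∈ closedBall z₁ ρ, a z₁ / 2 ≤ a z := by
    have h1 : ∀ᶠ z in 𝓝 z₁, a z₁ / 2 < a z :=
      (hcont z₁ hz₁U).eventually (lt_mem_nhds (by linarith))
    obtain ⟨r, hr, hr'⟩ := Metric.eventually_nhds_iff_ball.1 h1
    refine ⟨min (r / 2) (R / 2), lt_min (by linarith) (by linarith), ?_, ?_⟩
    · exact (min_le_right _ _).trans_lt (by linarith)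
    · intro z hz
      refine (hr' z ?_).le
      rw [mem_ball]
      rw [mem_closedBall] at hz
      have := min_le_left (r / 2) (R / 2)
      linarith
  set Λ' : ℝ := max Λ 1 with hΛ'
  have hΛ'1 : 1 ≤ Λ' := le_max_right _ _
  have hΛ'Λ : Λ ≤ Λ' := le_max_left _ _
  set α : ℝ := 2 / ρ ^ 2 + Λ' with hα
  have hα0 : 0 < α := by positivity
  have hαρ : 2 ≤ α * ρ ^ 2 := by
    have h1 : α * ρ ^ 2 = 2 + Λ' * ρ ^ 2 := by
      rw [hα]; field_simp
    have h2 : 0 ≤ Λ' * ρ ^ 2 := by positivity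
    linarith
  set ε : ℝ := a z₁ / 2 with hε
  have hε0 : 0 < ε := by rw [hε]; linarith
  set c : ℝ := Real.exp (-α * R ^ 2) with hc
  have hc0 : 0 < c := Real.exp_pos _
  set Ω : Set ℂ := ball z₁ R \ closedBall z₁ ρ with hΩ
  have hΩo : IsOpen Ω := isOpen_ball.sdiff isClosed_closedBall
  have hΩb : Bornology.IsBounded Ω := isBounded_ball.subset sdiff_subset
  have hcl : closure Ω ⊆ closedBall z₁ R \ ball z₁ ρ := by
    apply closure_minimal
    · intro z hz
      exact ⟨ball_subset_closedBall hz.1, fun h => hz.2 (ball_subset_closedBall h)⟩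
    · exact isClosed_closedBall.sdiff isOpen_ball
  have hfr : ∀ z ∈ frontier Ω, ‖z - z₁‖ = R ∨ ‖z - z₁‖ = ρ := by
    intro z hz
    rw [hΩo.frontier_eq] at hz
    obtain ⟨h1, h2⟩ := hz
    obtain ⟨h3, h4⟩ := hcl h1
    rw [mem_closedBall, dist_eq_norm] at h3
    rw [mem_ball, dist_eq_norm] at h4
    rw [hΩ, Set.mem_sdiff, mem_ball, mem_closedBall, dist_eq_norm] at h2
    by_contra hcon
    push Not at hcon
    apply h2
    refine ⟨lt_of_le_of_ne h3 hcon.1, ?_⟩
    intro h5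
    exact hcon.2 (le_antisymm h5 (not_lt.1 h4))
  have hq0 : ∀ z, 0 ≤ q z₁ z := fun z => by unfold q; positivity
  have hwR : ∀ z, ‖z - z₁‖ = R → wb ε α c z₁ z = 0 := by
    intro z hz
    unfold wb ex
    rw [q_eq, hz, hc]
    ring
  have hwle : ∀ z, wb ε α c z₁ z ≤ ε * ex α z₁ z := by
    intro z
    unfold wb
    have : 0 < ε * c := by positivity
    linarith
  have hex1 : ∀ z, ex α z₁ z ≤ 1 := by
    intro z
    unfold ex
    rw [Real.exp_le_one_iff]
    have := mul_nonneg hα0.le (hq0 z)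
    linarith
  have hwε : ∀ z, wb ε α c z₁ z ≤ ε := by
    intro z
    refine (hwle z).trans ?_
    have := mul_le_mul_of_nonneg_left (hex1 z) hε0.le
    linarith
  have hwpos : ∀ z ∈ ball z₁ R, 0 < wb ε α c z₁ z := by
    intro z hz
    rw [mem_ball, dist_eq_norm] at hz
    unfold wb
    apply mul_pos hε0
    rw [sub_pos, hc]
    unfold ex
    rw [Real.exp_lt_exp, q_eq]
    have h1 : ‖z - z₁‖ ^ 2 < R ^ 2 := by
      have := norm_nonneg (z - z₁)
      nlinarith
    have := mul_lt_mul_of_pos_left h1 hα0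
    linarith
  have hΩU : Ω ⊆ U := fun z hz => hball (ball_subset_closedBall hz.1)
  have key := hM Ω (fun z => wb ε α c z₁ z - a z) hΩo hΩb ?_ ?_ ?_
  · intro z hz
    by_cases hzρ : z ∈ closedBall z₁ ρ
    · have := hρa z hzρ
      linarith
    · have h1 := key z ⟨hz, hzρ⟩
      have h2 := hwpos z hz
      linarith
  · intro z hz
    have hzU : z ∈ U := hball (hcl hz).1
    exact (((contDiff_wb ε α c z₁).continuous.continuousAt).sub
      (hcont z hzU)).continuousWithinAt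
  · intro z hz
    show wb ε α c z₁ z - a z ≤ 0
    rcases hfr z hz with h | h
    · rw [hwR z h]
      have hzU : z ∈ U := hball (by rw [mem_closedBall, dist_eq_norm, h])
      have := ha0 z hzU
      linarith
    · have h1 := hρa z (by rw [mem_closedBall, dist_eq_norm, h])
      have h2 := hwε z
      linarith
  · intro z hz hg
    have hzU := hΩU hz
    obtain ⟨h1, h2⟩ := ha z hzU
    have hwC : ContDiffAt ℝ 2 (wb ε α c z₁) z := (contDiff_wb ε α c z₁).contDiffAt
    refine ⟨hwC.sub h1, ?_⟩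
    have hg' : 0 < wb ε α c z₁ z - a z := hg
    have h3 : lap (fun z => wb ε α c z₁ z - a z) z = lap (wb ε α c z₁) z - lap a z :=
      lap_sub hwC h1
    rw [h3, lap_wb, h2]
    have hqρ : ρ ^ 2 ≤ q z₁ z := by
      rw [q_eq]
      have h4 : ρ < ‖z - z₁‖ := by
        have := hz.2
        rw [mem_closedBall, dist_eq_norm, not_le] at this
        exact this
      nlinarith
    have h5 : Λ' ≤ 4 * α ^ 2 * q z₁ z - 4 * α := by
      have h6 : α * ρ ^ 2 ≤ α * q z₁ z := mul_le_mul_of_nonneg_left hqρ hα0.le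
      have h7 : 4 * α * (α * q z₁ z - 1) ≥ 4 * α * 1 :=
        mul_le_mul_of_nonneg_left (by linarith) (by linarith)
      have h8 : Λ' ≤ α := by
        rw [hα]
        have : 0 < 2 / ρ ^ 2 := by positivity
        linarith
      nlinarith
    have h6 : 0 < ε * ex α z₁ z := mul_pos hε0 (ex_pos _ _ _)
    have h7 : ε * ex α z₁ z * Λ' ≤ ε * ex α z₁ z * (4 * α ^ 2 * q z₁ z - 4 * α) :=
      mul_le_mul_of_nonneg_left h5 h6.le
    have h8 : Λ' * wb ε α c z₁ z ≤ Λ' * (ε * ex α z₁ z) :=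
      mul_le_mul_of_nonneg_left (hwle z) (by linarith)
    have h9 : V z * a z ≤ Λ' * a z :=
      mul_le_mul_of_nonneg_right ((hV z hzU).2.trans hΛ'Λ) (ha0 z hzU)
    have h10 : 0 < Λ' * (wb ε α c z₁ z - a z) := mul_pos (by linarith) hg'
    nlinarith

end StrongMPAux

open StrongMPAux in
theorem s_StrongMP : MaxPr → StrongMP := by
  intro hM U V a Λ hU hUc hV ha ha0
  have hcont : ∀ z ∈ U, ContinuousAt a z := fun z hz => (ha z hz).1.continuousAt
  have hP : IsOpen {z | z ∈ U ∧ 0 < a z} := by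
    rw [isOpen_iff_mem_nhds]
    rintro z ⟨hzU, hz⟩
    filter_upwards [hU.mem_nhds hzU, (hcont z hzU).eventually (lt_mem_nhds hz)] with y hy1 hy2
    exact ⟨hy1, hy2⟩
  have hZ : IsOpen {z | z ∈ U ∧ a z = 0} := by
    rw [Metric.isOpen_iff]
    rintro z ⟨hzU, hz⟩
    obtain ⟨d, hd, hd'⟩ := Metric.isOpen_iff.1 hU z hzU
    refine ⟨d / 4, by linarith, ?_⟩
    intro y hy
    rw [mem_ball] at hy
    have hyU : y ∈ U := hd' (by rw [mem_ball]; linarith)
    refine ⟨hyU, ?_⟩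
    by_contra hne
    have hpos : 0 < a y := lt_of_le_of_ne (ha0 y hyU) (Ne.symm hne)
    have hsub : closedBall y (d / 2) ⊆ U := by
      intro x hx
      rw [mem_closedBall] at hx
      apply hd'
      rw [mem_ball]
      have := dist_triangle x y z
      linarith
    have h1 := hopf hM hU hV ha ha0 (by linarith : 0 < d / 2) hsub hpos z (by
      rw [mem_ball, dist_comm]; linarith)
    rw [hz] at h1
    exact lt_irrefl _ h1
  have hdis : Disjoint {z | z ∈ U ∧ 0 < a z} {z | z ∈ U ∧ a z = 0} := by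
    rw [Set.disjoint_left]
    rintro z ⟨_, h1⟩ ⟨_, h2⟩
    rw [h2] at h1
    exact lt_irrefl _ h1
  have hcov : U ⊆ {z | z ∈ U ∧ 0 < a z} ∪ {z | z ∈ U ∧ a z = 0} := by
    intro z hz
    rcases (ha0 z hz).lt_or_eq with h | h
    · exact Or.inl ⟨hz, h⟩
    · exact Or.inr ⟨hz, h.symm⟩
  rcases hUc.subset_or_subset hP hZ hdis hcov with h | h
  · exact Or.inr fun z hz => (h hz).2
  · exact Or.inl fun z hz => (h hz).2

end Pool.MP_31392c_an
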