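import Mathlib
import Pool.Agent.Lib.MP_31392c_an.Full.SpecG
import Pool.Agent.Lib.MP_31392c_an.Full.MaxPr

/-!
# MP_31392c_an full proof: comparison of the Perron class with a Green function
-/

set_option autoImplicit false

open MeasureTheory Set Filter Topology Metric

namespace Pool.MP_31392c_an

namespace SubLeGreen

theorem dir_const_mul (a : ℝ) (f : ℂ → ℝ) (e : ℂ) :
    (fun w => fderiv ℝ (fun z => a * f z) w e) = fun w => a * fderiv ℝ f w e := by
  funext w
  have h : fderiv ℝ (fun z => a * f z) w = a • fderiv ℝ f w :=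
    congrFun (fderiv_const_smul_field (𝕜 := ℝ) (f := f) a) w
  rw [h]
  rfl

theorem lap_const_mul (a : ℝ) (f : ℂ → ℝ) (z : ℂ) : lap (fun z => a * f z) z = a * lap f z := by
  have h1 : dX (fun z => a * f z) = fun w => a * dX f w := dir_const_mul a f 1
  have h2 : dY (fun z => a * f z) = fun w => a * dY f w := dir_const_mul a f Complex.I
  unfold lap
  rw [h1, h2]
  have h3 : dX (fun w => a * dX f w) z = a * dX (dX f) z :=
    congrFun (dir_const_mul a (dX f) 1) z
  have h4 : dY (fun w => a * dY f w) z = a * dY (dY f) z :=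
    congrFun (dir_const_mul a (dY f) Complex.I) z
  rw [h3, h4]
  ring

theorem lim_green {V : ℂ → ℝ} {F : Set ℂ} {u : ℂ → ℝ} {κ : ℝ} (hu : IsGreen V F u κ) :
    Tendsto (fun z => u z - Real.log ‖z‖) (cocompact ℂ) (𝓝 (-κ)) := by
  obtain ⟨h, r, hr, hh, h0, hz⟩ := hu.infty
  have h1 : ContinuousAt h 0 := (hh 0 (by simpa using hr)).1.continuousAt
  have h2 : Tendsto (fun z : ℂ => z⁻¹) (cocompact ℂ) (𝓝 0) := by
    rw [← Metric.cobounded_eq_cocompact]
    exact tendsto_inv₀_cobounded
  have h3 : Tendsto (fun z : ℂ => h z⁻¹) (cocompact ℂ) (𝓝 0) := by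
    have h4 : Tendsto h (𝓝 0) (𝓝 0) := by
      have := h1.tendsto
      rwa [h0] at this
    exact h4.comp h2
  have h5 : Tendsto (fun z : ℂ => -κ + h z⁻¹) (cocompact ℂ) (𝓝 (-κ)) := by
    have := h3.const_add (-κ)
    rwa [add_zero] at this
  refine h5.congr' ?_
  have h6 : ∀ᶠ z : ℂ in cocompact ℂ, 1 / r < ‖z‖ :=
    tendsto_norm_cocompact_atTop.eventually_gt_atTop (1 / r)
  filter_upwards [h6] with z hz1
  rw [hz z hz1]
  ring

theorem green_nonneg {V : ℂ → ℝ} {F : Set ℂ} {u : ℂ → ℝ} {κ : ℝ} (hu : IsGreen V F u κ) (z : ℂ) :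
    0 ≤ u z := by
  by_cases h : z ∈ F
  · exact (hu.zero z h).ge
  · exact (hu.pos z h).le

/-- From a maximum principle to a comparison of functions with logarithmic growth. -/
theorem compare (hM : MaxPr) (f g : ℂ → ℝ) (a b : ℝ) (hf : Continuous f) (hg : Continuous g)
    (hlf : Tendsto (fun z => f z - Real.log ‖z‖) (cocompact ℂ) (𝓝 a))
    (hlg : Tendsto (fun z => g z - Real.log ‖z‖) (cocompact ℂ) (𝓝 b))
    (hg0 : ∀ z, 0 ≤ g z)
    (hd : ∀ ε : ℝ, 0 < ε → ∀ z, 0 < f z - (1 + ε) * g z →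
      ContDiffAt ℝ 2 f z ∧ ContDiffAt ℝ 2 g z ∧ 0 ≤ lap f z - (1 + ε) * lap g z) :
    (∀ z, f z ≤ g z) ∧ a ≤ b := by
  have key : ∀ ε : ℝ, 0 < ε → ∀ z, f z - (1 + ε) * g z ≤ 0 := by
    intro ε hε
    have hcont : Continuous (fun z => f z - (1 + ε) * g z) :=
      hf.sub (continuous_const.mul hg)
    have hlog : Tendsto (fun z : ℂ => Real.log ‖z‖) (cocompact ℂ) atTop :=
      Real.tendsto_log_atTop.comp tendsto_norm_cocompact_atTop
    have e1 : ∀ᶠ z in cocompact ℂ, f z - Real.log ‖z‖ < a + 1 :=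
      hlf.eventually_lt_const (by linarith)
    have e2 : ∀ᶠ z in cocompact ℂ, b - 1 < g z - Real.log ‖z‖ :=
      hlg.eventually_const_lt (by linarith)
    have e3 : ∀ᶠ z : ℂ in cocompact ℂ, (a + 1 - (1 + ε) * (b - 1)) / ε < Real.log ‖z‖ :=
      hlog.eventually_gt_atTop _
    have e4 : ∀ᶠ z in cocompact ℂ, f z - (1 + ε) * g z < 0 := by
      filter_upwards [e1, e2, e3] with z h1 h2 h3
      rw [div_lt_iff₀ hε] at h3
      have h4 : (1 + ε) * (b - 1) < (1 + ε) * (g z - Real.log ‖z‖) :=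
        mul_lt_mul_of_pos_left h2 (by linarith)
      nlinarith
    have hb : Bornology.IsBounded {z | 0 ≤ f z - (1 + ε) * g z} := by
      rw [Bornology.isBounded_def, Metric.cobounded_eq_cocompact]
      filter_upwards [e4] with z hz hz'
      exact absurd hz (not_lt.2 hz')
    obtain ⟨R, hR⟩ := hb.subset_ball 0
    have hmp := hM (ball 0 R) (fun z => f z - (1 + ε) * g z) isOpen_ball isBounded_ball
      hcont.continuousOn ?_ ?_
    · intro z
      by_cases hz : z ∈ ball (0 : ℂ) R
      · exact hmp z hz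
      · by_contra hcon
        push Not at hcon
        exact hz (hR hcon.le)
    · intro z hz
      have hz1 : z ∈ sphere (0 : ℂ) R := frontier_ball_subset_sphere hz
      by_contra hcon
      push Not at hcon
      have hz2 := hR (show z ∈ {z | 0 ≤ f z - (1 + ε) * g z} from hcon.le)
      rw [mem_ball] at hz2
      rw [mem_sphere] at hz1
      linarith
    · intro z _ hpos
      obtain ⟨h1, h2, h3⟩ := hd ε hε z hpos
      have h4 : ContDiffAt ℝ 2 (fun z => (-(1 + ε)) * g z) z := contDiffAt_const.mul h2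
      have h5 : (fun z => f z - (1 + ε) * g z) = fun z => f z + (-(1 + ε)) * g z := by
        funext w
        ring
      rw [h5]
      refine ⟨h1.add h4, ?_⟩
      rw [MaxPr.lap_add f (fun z => (-(1 + ε)) * g z) z h1 h4, lap_const_mul]
      linarith
  have hle : ∀ z, f z ≤ g z := by
    intro z
    rcases (hg0 z).eq_or_lt with h | h
    · have := key 1 one_pos z
      rw [← h] at this ⊢
      linarith
    · by_contra hcon
      push Not at hcon
      have h1 := key ((f z - g z) / (2 * g z)) (div_pos (by linarith) (by linarith)) z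
      have h2 : (1 + (f z - g z) / (2 * g z)) * g z = g z + (f z - g z) / 2 := by
        field_simp
      rw [h2] at h1
      linarith
  refine ⟨hle, le_of_tendsto_of_tendsto' hlf hlg fun z => ?_⟩
  have := hle z
  linarith

end SubLeGreen

open SubLeGreen in
theorem s_SubLeGreen : MaxPr → SubLeGreen := by
  intro hM V F F' u v κ c hu hv hFF hV
  refine compare hM v u c (-κ) hv.cont hu.cont hv.infty (lim_green hu) (green_nonneg hu) ?_
  intro ε hε z hz
  have hu0 := green_nonneg hu z
  have hv0 : 0 < v z := by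
    have : 0 ≤ (1 + ε) * u z := mul_nonneg (by linarith) hu0
    linarith
  obtain ⟨h1, h2⟩ := hv.sub z hv0
  have hz' : z ∉ F' := fun h => hv0.ne' (hv.zero z h)
  have hzF : z ∈ Fᶜ := fun h => hz' (hFF h)
  obtain ⟨h3, h4⟩ := hu.harm z hzF
  rw [hV z hz', zero_mul] at h4
  refine ⟨h1, h3, ?_⟩
  rw [h4]
  linarith

end Pool.MP_31392c_an
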