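import Mathlib
import Pool.Agent.Lib.MP_31392c_an.Full.SpecZ
import Pool.Agent.Lib.MP_31392c_an.Full.LocMax
import Pool.Agent.Lib.MP_31392c_an.Full.MaxPr
import Pool.Agent.Lib.MP_31392c_an.Full.MaxDrift
import Pool.Agent.Lib.MP_31392c_an.Full.StrongMP
import Pool.Agent.Lib.MP_31392c_an.Full.Bridge
import Pool.Agent.Lib.MP_31392c_an.Full.GradEst
import Pool.Agent.Lib.MP_31392c_an.Full.Conf
import Pool.Agent.Lib.MP_31392c_an.Full.DivZero
import Pool.Agent.Lib.MP_31392c_an.Full.Barrier
import Pool.Agent.Lib.MP_31392c_an.Full.ChVar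
import Pool.Agent.Lib.MP_31392c_an.Full.NewtC1
import Pool.Agent.Lib.MP_31392c_an.Full.NewtC2
import Pool.Agent.Lib.MP_31392c_an.Full.HwReg
import Pool.Agent.Lib.MP_31392c_an.Full.GDprop
import Pool.Agent.Lib.MP_31392c_an.Full.Fred
import Pool.Agent.Lib.MP_31392c_an.Full.DiscGreen
import Pool.Agent.Lib.MP_31392c_an.Full.BdryReg
import Pool.Agent.Lib.MP_31392c_an.Full.GradSmall
import Pool.Agent.Lib.MP_31392c_an.Full.CycPos
import Pool.Agent.Lib.MP_31392c_an.Full.Cyc
import Pool.Agent.Lib.MP_31392c_an.Full.CycPDE
import Pool.Agent.Lib.MP_31392c_an.Full.StreamPDE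
import Pool.Agent.Lib.MP_31392c_an.Full.Poinc
import Pool.Agent.Lib.MP_31392c_an.Full.MBdry
import Pool.Agent.Lib.MP_31392c_an.Full.CrossLim
import Pool.Agent.Lib.MP_31392c_an.Full.KeyDisc
import Pool.Agent.Lib.MP_31392c_an.Full.StarBessel
import Pool.Agent.Lib.MP_31392c_an.Full.StarPert
import Pool.Agent.Lib.MP_31392c_an.Full.StarParam
import Pool.Agent.Lib.MP_31392c_an.Full.SCircle
import Pool.Agent.Lib.MP_31392c_an.Full.SInj
import Pool.Agent.Lib.MP_31392c_an.Full.SImage
import Pool.Agent.Lib.MP_31392c_an.Full.StarConn
import Pool.Agent.Lib.MP_31392c_an.Full.StarMapEx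
import Pool.Agent.Lib.MP_31392c_an.Full.SegEst
import Pool.Agent.Lib.MP_31392c_an.Full.StarInv
import Pool.Agent.Lib.MP_31392c_an.Full.PullPot
import Pool.Agent.Lib.MP_31392c_an.Full.GreenEx
import Pool.Agent.Lib.MP_31392c_an.Full.GreenSub
import Pool.Agent.Lib.MP_31392c_an.Full.SubLeGreen
import Pool.Agent.Lib.MP_31392c_an.Full.GreenMono
import Pool.Agent.Lib.MP_31392c_an.Full.GreenAsym
import Pool.Agent.Lib.MP_31392c_an.Full.GreenL2
import Pool.Agent.Lib.MP_31392c_an.Full.GreenPair
import Pool.Agent.Lib.MP_31392c_an.Full.GreenNorm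
import Pool.Agent.Lib.MP_31392c_an.Full.KeyPlane
import Pool.Agent.Lib.MP_31392c_an.Full.StarNull
import Pool.Agent.Lib.MP_31392c_an.Full.SQV
import Pool.Agent.Lib.MP_31392c_an.Full.KapBasic
import Pool.Agent.Lib.MP_31392c_an.Full.KapStar
import Pool.Agent.Lib.MP_31392c_an.Full.SegBound
import Pool.Agent.Lib.MP_31392c_an.Full.KapMod
import Pool.Agent.Lib.MP_31392c_an.Full.HardApprox
import Pool.Agent.Lib.MP_31392c_an.Full.SQK
import Pool.Agent.Lib.MP_31392c_an.Full.StarMod
import Pool.Agent.Lib.MP_31392c_an.Full.GridLem
import Pool.Agent.Lib.MP_31392c_an.Full.Growth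
import Pool.Agent.Lib.MP_31392c_an.Full.StepIn
import Pool.Agent.Lib.MP_31392c_an.Full.StepOut
import Pool.Agent.Lib.MP_31392c_an.Full.StepCells
import Pool.Agent.Lib.MP_31392c_an.Full.ChainCells
import Pool.Agent.Lib.MP_31392c_an.Full.CapHom
import Pool.Agent.Lib.MP_31392c_an.Full.CapLip
import Pool.Agent.Lib.MP_31392c_an.Full.CapDiff
import Pool.Agent.Lib.MP_31392c_an.Full.CountCells
import Pool.Agent.Lib.MP_31392c_an.Full.ChainThm
import Pool.Agent.Lib.MP_31392c_an.Full.FekLink
import Pool.Agent.Lib.MP_31392c_an.Full.ChebVdm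
import Pool.Agent.Lib.MP_31392c_an.Full.StarCheb
import Pool.Agent.Lib.MP_31392c_an.Full.GridRed
import Pool.Agent.Lib.MP_31392c_an.Full.ApproxStep
import Pool.Agent.Lib.MP_31392c_an.Full.MainThm

/-!
# MP_31392c_an: assembly of the full proof
-/

set_option autoImplicit false

namespace Pool.MP_31392c_an

/-- the linear radial transformation does not increase the logarithmic capacity -/
theorem main_all : MainThm := by
  have locMax := s_LocMax
  have maxPr := s_MaxPr locMax
  have maxDrift := s_MaxDrift locMax
  have strongMP := s_StrongMP maxPr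
  have bridge := s_Bridge
  have gradEst := s_GradEst bridge
  have conf := s_Conf
  have divZero := s_DivZero
  have barrier := s_Barrier maxPr
  have chVar := s_ChVar
  have newtC1 := s_NewtC1
  have newtC2 := s_NewtC2 newtC1
  have hwReg := s_HwReg bridge
  have gdprop := s_GDprop newtC1 newtC2 hwReg
  have fred := s_Fred gdprop maxPr
  have discGreen := s_DiscGreen fred gdprop maxPr strongMP
  have bdryReg := s_BdryReg gdprop bridge
  have gradSmall := s_GradSmall gradEst
  have cycPos := s_CycPos
  have cyc := s_Cyc cycPos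
  have cycPDE := s_CycPDE
  have streamPDE := s_StreamPDE
  have poinc := s_Poinc
  have mBdry := s_MBdry poinc bdryReg gradSmall
  have crossLim := s_CrossLim divZero
  have keyDisc := s_KeyDisc mBdry crossLim cycPos cyc cycPDE streamPDE maxDrift strongMP
  have starBessel := s_StarBessel
  have starPert := s_StarPert starBessel
  have starParam := s_StarParam starPert
  have sCircle := s_SCircle
  have sInj := s_SInj
  have sImage := s_SImage
  have starConn := s_StarConn
  have starMapEx := s_StarMapEx starParam sCircle sInj sImage starConn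
  have segEst := s_SegEst sImage starConn
  have starInv := s_StarInv
  have pullPot := s_PullPot starInv
  have greenEx := s_GreenEx starInv pullPot discGreen conf bridge
  have greenSub := s_GreenSub
  have subLeGreen := s_SubLeGreen maxPr
  have greenMono := s_GreenMono maxPr
  have greenAsym := s_GreenAsym
  have greenL2 := s_GreenL2 divZero
  have greenPair := s_GreenPair divZero greenL2
  have greenNorm := s_GreenNorm greenPair greenAsym greenMono
  have keyPlane := s_KeyPlane keyDisc starInv pullPot conf chVar greenMono greenNorm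
  have starNull := s_StarNull
  have sqv := s_SQV starMapEx starNull greenNorm keyPlane
  have kapBasic := s_KapBasic segEst greenEx subLeGreen
  have kapStar := s_KapStar greenEx greenSub subLeGreen kapBasic
  have segBound := s_SegBound segEst greenEx subLeGreen
  have kapMod := s_KapMod kapBasic segBound
  have hardApprox := s_HardApprox kapBasic kapMod segBound greenSub subLeGreen barrier
  have sqk := s_SQK sqv hardApprox starMapEx greenEx starNull kapBasic
  have starMod := s_StarMod kapMod kapBasic starNull
  have gridLem := s_GridLem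
  have growth := s_Growth sqk starMod gridLem
  have stepIn := s_StepIn growth
  have stepOut := s_StepOut growth
  have stepCells := s_StepCells stepIn stepOut
  have chainCells := s_ChainCells stepCells kapBasic
  have capHom := s_CapHom kapBasic
  have capLip := s_CapLip growth kapStar segEst kapBasic
  have capDiff := s_CapDiff capLip
  have countCells := s_CountCells
  have chainThm := s_ChainThm chainCells capHom capLip countCells kapBasic
  have fekLink := s_FekLink kapBasic
  have chebVdm := s_ChebVdm
  have starCheb := s_StarCheb chebVdm starInv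
  have gridRed := s_GridRed
  have approxStep := s_ApproxStep gridRed capDiff chainThm fekLink starMapEx greenEx greenSub
    segBound kapStar starCheb
  exact s_MainThm approxStep

end Pool.MP_31392c_an
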