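import Pool.Agent.Lib.MP_31392c_an.Full.SpecB

set_option autoImplicit false

/-!
# MP_31392c_an: change of variables under an injective holomorphic map
-/

open MeasureTheory Set Filter Topology Metric

namespace Pool.MP_31392c_an

namespace ChVar

private lemma det_aux (c : ℂ) :
    (((ContinuousLinearMap.toSpanSingleton ℂ c : ℂ →L[ℂ] ℂ).restrictScalars ℝ :
      ℂ →L[ℝ] ℂ)).det = ‖c‖ ^ 2 := by
  have h1 : (((ContinuousLinearMap.toSpanSingleton ℂ c : ℂ →L[ℂ] ℂ).restrictScalars ℝ :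
      ℂ →L[ℝ] ℂ) : ℂ →ₗ[ℝ] ℂ) = Algebra.lmul ℝ ℂ c := by
    apply LinearMap.ext
    intro z
    simp [mul_comm]
  show LinearMap.det _ = _
  rw [h1, ← Algebra.norm_apply, Algebra.norm_complex_apply, Complex.normSq_eq_norm_sq]

private lemma deriv_aux (φ : ℂ → ℂ) (U : Set ℂ) (hd : ∀ z ∈ U, DifferentiableAt ℂ φ z) :
    ∀ z ∈ U, HasFDerivWithinAt φ
      (((ContinuousLinearMap.toSpanSingleton ℂ (deriv φ z) : ℂ →L[ℂ] ℂ).restrictScalars ℝ :
        ℂ →L[ℝ] ℂ)) U z := by
  intro z hz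
  have h1 := (hd z hz).hasDerivAt.hasFDerivAt
  exact (h1.restrictScalars ℝ).hasFDerivWithinAt

end ChVar

theorem s_ChVar : ChVar := by
  intro φ U f hU hd hi
  have h1 := ChVar.deriv_aux φ U hd
  have hdet : ∀ z, |((((ContinuousLinearMap.toSpanSingleton ℂ (deriv φ z) :
      ℂ →L[ℂ] ℂ).restrictScalars ℝ : ℂ →L[ℝ] ℂ))).det| = ‖deriv φ z‖ ^ 2 := by
    intro z
    rw [ChVar.det_aux, abs_of_nonneg (by positivity)]
  constructor
  · rw [integrableOn_image_iff_integrableOn_abs_det_fderiv_smul volume hU.measurableSet h1 hi f]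
    simp only [hdet, smul_eq_mul]
  · rw [integral_image_eq_integral_abs_det_fderiv_smul volume hU.measurableSet h1 hi f]
    simp only [hdet, smul_eq_mul]

end Pool.MP_31392c_an
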