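import Pool.Agent.Lib.MP_31392c_an.Full.SpecZ

/-!
# MP_31392c_an, full proof: a monic polynomial which is small on `T` bounds the transfinite diameter
-/

set_option autoImplicit false

open MeasureTheory Set Filter Topology

namespace Pool.MP_31392c_an

namespace ChebVdm

/-- the values of the basis polynomials -/
lemma eval_bound (q : Polynomial ℂ) (hM : 1 ≤ q.natDegree) (B R : ℝ) (hB : 0 < B) (hR : 1 ≤ R)
    (z : ℂ) (hz : ‖z‖ ≤ R) (hqz : ‖q.eval z‖ ≤ B ^ q.natDegree) (j : ℕ) :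
    ‖(q ^ (j / q.natDegree) * Polynomial.X ^ (j % q.natDegree)).eval z‖ ≤
      (R ^ q.natDegree * (max 1 B⁻¹) ^ q.natDegree) * B ^ j := by
  set M := q.natDegree with hMdef
  have hmod : j % M ≤ M := (Nat.mod_lt j (by omega)).le
  have hC : (1 : ℝ) ≤ max 1 B⁻¹ := le_max_left _ _
  have h1 : ‖q.eval z‖ ^ (j / M) ≤ (B ^ M) ^ (j / M) :=
    pow_le_pow_left₀ (norm_nonneg _) hqz _
  have h2 : ‖z‖ ^ (j % M) ≤ R ^ M :=
    (pow_le_pow_left₀ (norm_nonneg _) hz _).trans (pow_le_pow_right₀ hR hmod)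
  have h3 : (B ^ M) ^ (j / M) ≤ (max 1 B⁻¹) ^ M * B ^ j := by
    have e1 : B ^ j = (B ^ M) ^ (j / M) * B ^ (j % M) := by
      rw [← pow_mul, ← pow_add, Nat.div_add_mod]
    have e2 : (B ^ M) ^ (j / M) = B⁻¹ ^ (j % M) * B ^ j := by
      rw [e1, inv_pow]
      field_simp
    rw [e2]
    refine mul_le_mul_of_nonneg_right ?_ (by positivity)
    exact (pow_le_pow_left₀ (by positivity) (le_max_right _ _) _).trans
      (pow_le_pow_right₀ hC hmod)
  rw [Polynomial.eval_mul, Polynomial.eval_pow, Polynomial.eval_pow, Polynomial.eval_X, norm_mul,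
    norm_pow, norm_pow]
  calc ‖q.eval z‖ ^ (j / M) * ‖z‖ ^ (j % M) ≤ ((max 1 B⁻¹) ^ M * B ^ j) * R ^ M := by
        refine mul_le_mul (h1.trans h3) h2 (by positivity) (by positivity)
    _ = (R ^ M * (max 1 B⁻¹) ^ M) * B ^ j := by ring

/-- the Vandermonde determinant -/
lemma vdm_bound {L : ℕ} (z : Fin L → ℂ) (q : Polynomial ℂ) (hq : q.Monic)
    (hM : 1 ≤ q.natDegree) (B R : ℝ) (hB : 0 < B) (hR : 1 ≤ R) (hz : ∀ i, ‖z i‖ ≤ R)
    (hqz : ∀ i, ‖q.eval (z i)‖ ≤ B ^ q.natDegree) :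
    ∏ i : Fin L, ∏ j ∈ Finset.Ioi i, ‖z i - z j‖ ≤
      (L.factorial : ℝ) * ((R ^ q.natDegree * (max 1 B⁻¹) ^ q.natDegree) ^ L *
        B ^ (∑ i : Fin L, (i : ℕ))) := by
  set A : ℝ := R ^ q.natDegree * (max 1 B⁻¹) ^ q.natDegree with hA
  have h1 : ∏ i : Fin L, ∏ j ∈ Finset.Ioi i, ‖z i - z j‖ = ‖(Matrix.vandermonde z).det‖ := by
    rw [Matrix.det_vandermonde, norm_prod]
    refine Finset.prod_congr rfl fun i _ => ?_
    rw [norm_prod]
    exact Finset.prod_congr rfl fun j _ => norm_sub_rev _ _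
  have h2 := Matrix.det_eval_matrixOfPolynomials_eq_det_vandermonde z
    (fun j : Fin L => q ^ ((j : ℕ) / q.natDegree) * Polynomial.X ^ ((j : ℕ) % q.natDegree))
    (fun j => by
      rw [(hq.pow _).natDegree_mul (Polynomial.monic_X_pow _), hq.natDegree_pow,
        Polynomial.natDegree_X_pow, mul_comm, Nat.div_add_mod])
    (fun j => (hq.pow _).mul (Polynomial.monic_X_pow _))
  rw [h1, h2, Matrix.det_apply]
  refine (norm_sum_le _ _).trans ?_
  have h3 : ∀ σ : Equiv.Perm (Fin L), ‖(Equiv.Perm.sign σ) • ∏ i : Fin L,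
      (Matrix.of fun (i j : Fin L) => (q ^ ((j : ℕ) / q.natDegree) *
        Polynomial.X ^ ((j : ℕ) % q.natDegree)).eval (z i)) (σ i) i‖ ≤
      A ^ L * B ^ (∑ i : Fin L, (i : ℕ)) := by
    intro σ
    have e1 : ‖(Equiv.Perm.sign σ) • ∏ i : Fin L,
      (Matrix.of fun (i j : Fin L) => (q ^ ((j : ℕ) / q.natDegree) *
        Polynomial.X ^ ((j : ℕ) % q.natDegree)).eval (z i)) (σ i) i‖ =
        ‖∏ i : Fin L, (Matrix.of fun (i j : Fin L) => (q ^ ((j : ℕ) / q.natDegree) *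
        Polynomial.X ^ ((j : ℕ) % q.natDegree)).eval (z i)) (σ i) i‖ := by
      rcases Int.units_eq_one_or (Equiv.Perm.sign σ) with h | h
      · rw [h, one_smul]
      · rw [h]
        simp
    rw [e1, norm_prod]
    calc ∏ i : Fin L, ‖(Matrix.of fun (i j : Fin L) => (q ^ ((j : ℕ) / q.natDegree) *
        Polynomial.X ^ ((j : ℕ) % q.natDegree)).eval (z i)) (σ i) i‖
        ≤ ∏ i : Fin L, (A * B ^ (i : ℕ)) := by
          refine Finset.prod_le_prod (fun i _ => norm_nonneg _) fun i _ => ?_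
          exact eval_bound q hM B R hB hR (z (σ i)) (hz _) (hqz _) i
      _ = A ^ L * B ^ (∑ i : Fin L, (i : ℕ)) := by
          rw [Finset.prod_mul_distrib, Finset.prod_const, Finset.card_univ, Fintype.card_fin,
            Finset.prod_pow_eq_pow_sum]
  refine (Finset.sum_le_sum fun σ _ => h3 σ).trans (le_of_eq ?_)
  rw [Finset.sum_const, Finset.card_univ, Fintype.card_perm, Fintype.card_fin, nsmul_eq_mul]

/-- the sequence of bounds -/
lemma dn_bound (T : Set ℂ) (q : Polynomial ℂ) (hq : q.Monic) (hM : 1 ≤ q.natDegree)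
    (B R : ℝ) (hB : 0 < B) (hR : 1 ≤ R) (hT : ∀ z ∈ T, ‖z‖ ≤ R)
    (hqz : ∀ z ∈ T, ‖q.eval z‖ ≤ B ^ q.natDegree) (n : ℕ) :
    dn n T ≤ ((n : ℝ) + 2) ^ (2 / ((n : ℝ) + 1)) *
      (R ^ q.natDegree * (max 1 B⁻¹) ^ q.natDegree) ^ (2 / ((n : ℝ) + 1)) * B := by
  set A : ℝ := R ^ q.natDegree * (max 1 B⁻¹) ^ q.natDegree with hA
  have hA0 : 0 < A := by positivity
  have hfac : ((n + 2).factorial : ℝ) ≤ ((n : ℝ) + 2) ^ (n + 2) := by
    have := Nat.factorial_le_pow (n + 2)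
    calc ((n + 2).factorial : ℝ) ≤ (((n + 2) ^ (n + 2) : ℕ) : ℝ) := by exact_mod_cast this
      _ = ((n : ℝ) + 2) ^ (n + 2) := by push_cast; rfl
  have hsum : ((∑ i : Fin (n + 2), (i : ℕ) : ℕ) : ℝ) * 2 = ((n : ℝ) + 2) * ((n : ℝ) + 1) := by
    have h1 : (∑ i : Fin (n + 2), (i : ℕ)) * 2 = (n + 2) * (n + 2 - 1) := by
      rw [Fin.sum_univ_eq_sum_range (fun i => i) (n + 2)]
      exact Finset.sum_range_id_mul_two (n + 2)
    have h2 : (n + 2) * (n + 2 - 1) = (n + 2) * (n + 1) := rfl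
    rw [h2] at h1
    exact_mod_cast h1
  have h0 : (⨆ z : Fin (n + 2) → {w : ℂ // w ∈ T},
      ∏ i : Fin (n + 2), ∏ j ∈ Finset.Ioi i, ‖((z i : ℂ) - (z j : ℂ))‖) ≤
      ((n : ℝ) + 2) ^ (n + 2) * (A ^ (n + 2) * B ^ (∑ i : Fin (n + 2), (i : ℕ))) := by
    refine Real.iSup_le (fun z => ?_) (by positivity)
    refine (vdm_bound (fun i => (z i : ℂ)) q hq hM B R hB hR (fun i => hT _ (z i).2)
      (fun i => hqz _ (z i).2)).trans ?_
    exact mul_le_mul_of_nonneg_right hfac (by positivity)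
  have h0' : (0 : ℝ) ≤ (⨆ z : Fin (n + 2) → {w : ℂ // w ∈ T},
      ∏ i : Fin (n + 2), ∏ j ∈ Finset.Ioi i, ‖((z i : ℂ) - (z j : ℂ))‖) :=
    Real.iSup_nonneg fun z => Finset.prod_nonneg fun i _ => Finset.prod_nonneg fun j _ =>
      norm_nonneg _
  have hn1 : (0 : ℝ) < (n : ℝ) + 1 := by positivity
  have hn2 : (0 : ℝ) < (n : ℝ) + 2 := by positivity
  have hexp : (0 : ℝ) ≤ (2 : ℝ) / (((n : ℝ) + 2) * ((n : ℝ) + 1)) := by positivity
  unfold dn
  refine (Real.rpow_le_rpow h0' h0 hexp).trans (le_of_eq ?_)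
  have hcast : ((n + 2 : ℕ) : ℝ) = (n : ℝ) + 2 := by push_cast; rfl
  have key : ∀ x : ℝ, 0 < x → (x ^ (n + 2)) ^ ((2 : ℝ) / (((n : ℝ) + 2) * ((n : ℝ) + 1))) =
      x ^ (2 / ((n : ℝ) + 1)) := by
    intro x hx
    rw [← Real.rpow_natCast, ← Real.rpow_mul hx.le, hcast]
    congr 1
    field_simp
  rw [Real.mul_rpow (by positivity) (by positivity), Real.mul_rpow (by positivity) (by positivity),
    key _ hn2, key _ hA0, ← Real.rpow_natCast B, ← Real.rpow_mul hB.le]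
  have e : ((∑ i : Fin (n + 2), (i : ℕ) : ℕ) : ℝ) *
      ((2 : ℝ) / (((n : ℝ) + 2) * ((n : ℝ) + 1))) = 1 := by
    rw [← mul_div_assoc, hsum]
    exact div_self (by positivity)
  rw [e, Real.rpow_one]
  ring

end ChebVdm

open ChebVdm in
theorem s_ChebVdm : ChebVdm := by
  intro T q B hT hB hq hM hqz
  obtain ⟨R0, hR0⟩ := hT.exists_norm_le
  set R : ℝ := max 1 R0 with hRdef
  have hR : 1 ≤ R := le_max_left _ _
  have hTR : ∀ z ∈ T, ‖z‖ ≤ R := fun z hz => (hR0 z hz).trans (le_max_right _ _)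
  set A : ℝ := R ^ q.natDegree * (max 1 B⁻¹) ^ q.natDegree with hA
  have hA0 : 0 < A := by positivity
  have hle : ∀ n : ℕ, tcap T ≤ ((n : ℝ) + 2) ^ (2 / ((n : ℝ) + 1)) *
      A ^ (2 / ((n : ℝ) + 1)) * B := by
    intro n
    refine (ciInf_le ?_ n).trans (dn_bound T q hq hM B R hB hR hTR hqz n)
    refine ⟨0, ?_⟩
    rintro x ⟨m, rfl⟩
    exact Real.rpow_nonneg (Real.iSup_nonneg fun z => Finset.prod_nonneg fun i _ =>
      Finset.prod_nonneg fun j _ => norm_nonneg _) _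
  have hexp : Tendsto (fun n : ℕ => (2 : ℝ) / ((n : ℝ) + 1)) atTop (𝓝 0) := by
    have h1 : Tendsto (fun n : ℕ => (n : ℝ) + 1) atTop atTop :=
      tendsto_atTop_add_const_right _ _ tendsto_natCast_atTop_atTop
    exact Tendsto.div_atTop tendsto_const_nhds h1
  have t1 : Tendsto (fun n : ℕ => A ^ (2 / ((n : ℝ) + 1))) atTop (𝓝 1) := by
    have h1 : Tendsto (fun x : ℝ => A ^ x) (𝓝 0) (𝓝 (A ^ (0 : ℝ))) :=
      (Real.continuousAt_const_rpow hA0.ne').tendsto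
    rw [Real.rpow_zero] at h1
    exact h1.comp hexp
  have t2 : Tendsto (fun n : ℕ => ((n : ℝ) + 2) ^ (2 / ((n : ℝ) + 1))) atTop (𝓝 1) := by
    have h1 : Tendsto (fun n : ℕ => (n : ℝ) + 2) atTop atTop :=
      tendsto_atTop_add_const_right _ _ tendsto_natCast_atTop_atTop
    have h2 := (tendsto_rpow_div_mul_add 2 1 (-1) (by norm_num)).comp h1
    refine h2.congr fun n => ?_
    simp only [Function.comp]
    congr 2
    ring
  have t3 : Tendsto (fun n : ℕ => ((n : ℝ) + 2) ^ (2 / ((n : ℝ) + 1)) *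
      A ^ (2 / ((n : ℝ) + 1)) * B) atTop (𝓝 B) := by
    have := (t2.mul t1).mul_const B
    simpa using this
  exact ge_of_tendsto' t3 hle

end Pool.MP_31392c_an
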