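import Pool.Agent.Lib.MP_31392c_an.Full.SpecG

/-!
# MP_31392c_an full proof: the energy identity for the difference of two Green functions
-/

set_option autoImplicit false

open MeasureTheory Set Filter Topology Metric

namespace Pool.MP_31392c_an

namespace GreenNorm'

/-- smooth cutoff at scale `R` -/
noncomputable def cut (R : ℝ) (z : ℂ) : ℝ :=
  Real.smoothTransition (2 - (z.re ^ 2 + z.im ^ 2) / R ^ 2)

theorem nsq (z : ℂ) : z.re ^ 2 + z.im ^ 2 = ‖z‖ ^ 2 := by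
  rw [← Complex.normSq_eq_norm_sq, Complex.normSq_apply]; ring

theorem cut_contDiff (R : ℝ) : ContDiff ℝ 2 (cut R) := by
  unfold cut
  have h1 : ContDiff ℝ 2 (fun z : ℂ => z.re) := Complex.reCLM.contDiff
  have h2 : ContDiff ℝ 2 (fun z : ℂ => z.im) := Complex.imCLM.contDiff
  have h3 : ContDiff ℝ 2 Real.smoothTransition := Real.smoothTransition.contDiff (n := 2)
  exact h3.comp (contDiff_const.sub (((h1.pow 2).add (h2.pow 2)).div_const _))

theorem cut_one {R : ℝ} (hR : 0 < R) {z : ℂ} (hz : ‖z‖ ≤ R) : cut R z = 1 := by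
  unfold cut
  apply Real.smoothTransition.one_of_one_le
  rw [nsq]
  have h : ‖z‖ ^ 2 / R ^ 2 ≤ 1 := by
    rw [div_le_one (by positivity)]
    exact pow_le_pow_left₀ (norm_nonneg _) hz 2
  linarith

theorem cut_zero {R : ℝ} (hR : 0 < R) {z : ℂ} (hz : 2 * R ≤ ‖z‖) : cut R z = 0 := by
  unfold cut
  apply Real.smoothTransition.zero_of_nonpos
  rw [nsq]
  have h : 2 ≤ ‖z‖ ^ 2 / R ^ 2 := by
    rw [le_div_iff₀ (by positivity)]
    nlinarith [norm_nonneg z]
  linarith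

theorem cut_nonneg (R : ℝ) (z : ℂ) : 0 ≤ cut R z := Real.smoothTransition.nonneg _

theorem cut_le_one (R : ℝ) (z : ℂ) : cut R z ≤ 1 := Real.smoothTransition.le_one _

theorem cut_supp {R : ℝ} (hR : 0 < R) : HasCompactSupport (cut R) :=
  HasCompactSupport.intro (isCompact_closedBall (0 : ℂ) (2 * R)) (fun z hz => by
    apply cut_zero hR
    rw [mem_closedBall, dist_zero_right, not_le] at hz
    exact hz.le)

theorem S_diff (t : ℝ) : HasDerivAt Real.smoothTransition (deriv Real.smoothTransition t) t :=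
  ((Real.smoothTransition.contDiff (n := 1)).differentiable (by norm_num) t).hasDerivAt

theorem dS_neg {t : ℝ} (ht : t < 0) : deriv Real.smoothTransition t = 0 := by
  have h : Real.smoothTransition =ᶠ[𝓝 t] fun _ => (0 : ℝ) := by
    filter_upwards [Iio_mem_nhds ht] with s hs
    exact Real.smoothTransition.zero_of_nonpos (le_of_lt hs)
  rw [h.deriv_eq, deriv_const]

theorem dS_gt {t : ℝ} (ht : 1 < t) : deriv Real.smoothTransition t = 0 := by
  have h : Real.smoothTransition =ᶠ[𝓝 t] fun _ => (1 : ℝ) := by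
    filter_upwards [Ioi_mem_nhds ht] with s hs
    exact Real.smoothTransition.one_of_one_le (le_of_lt hs)
  rw [h.deriv_eq, deriv_const]

theorem dS_cont : Continuous (deriv Real.smoothTransition) :=
  (Real.smoothTransition.contDiff (n := 1)).continuous_deriv (by norm_num)

theorem dS_bdd : ∃ M : ℝ, 0 ≤ M ∧ ∀ t, |deriv Real.smoothTransition t| ≤ M := by
  obtain ⟨M, hM⟩ := (isCompact_Icc (a := (0 : ℝ)) (b := 1)).exists_bound_of_continuousOn
    dS_cont.continuousOn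
  refine ⟨max M 0, le_max_right _ _, fun t => ?_⟩
  by_cases h0 : t < 0
  · rw [dS_neg h0, abs_zero]; exact le_max_right _ _
  by_cases h1 : 1 < t
  · rw [dS_gt h1, abs_zero]; exact le_max_right _ _
  · exact (hM t ⟨not_lt.1 h0, not_lt.1 h1⟩).trans (le_max_left _ _)

theorem cut_fderiv (R : ℝ) (z : ℂ) :
    HasFDerivAt (cut R) ((deriv Real.smoothTransition (2 - (z.re ^ 2 + z.im ^ 2) / R ^ 2)) •
      (-((R ^ 2)⁻¹ • ((2 * z.re) • Complex.reCLM + (2 * z.im) • Complex.imCLM)))) z := by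
  have h1 : HasFDerivAt (fun z : ℂ => z.re) Complex.reCLM z := Complex.reCLM.hasFDerivAt
  have h2 : HasFDerivAt (fun z : ℂ => z.im) Complex.imCLM z := Complex.imCLM.hasFDerivAt
  have h3 : HasFDerivAt (fun z : ℂ => 2 - (z.re ^ 2 + z.im ^ 2) / R ^ 2)
      (-((R ^ 2)⁻¹ • ((2 * z.re) • Complex.reCLM + (2 * z.im) • Complex.imCLM))) z := by
    have h4 := (((h1.pow 2).add (h2.pow 2)).const_mul ((R ^ 2)⁻¹)).const_sub 2
    refine (h4.congr_fderiv ?_).congr_of_eventuallyEq ?_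
    · ext
      all_goals simp
    · filter_upwards with w
      simp only [Pi.add_apply]
      ring
  exact (S_diff _).comp_hasFDerivAt z h3

theorem dX_cut (R : ℝ) (z : ℂ) : dX (cut R) z =
    deriv Real.smoothTransition (2 - ‖z‖ ^ 2 / R ^ 2) * (-(2 * z.re / R ^ 2)) := by
  unfold dX
  rw [(cut_fderiv R z).fderiv, nsq]
  simp
  left; ring

theorem dY_cut (R : ℝ) (z : ℂ) : dY (cut R) z =
    deriv Real.smoothTransition (2 - ‖z‖ ^ 2 / R ^ 2) * (-(2 * z.im / R ^ 2)) := by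
  unfold dY
  rw [(cut_fderiv R z).fderiv, nsq]
  simp
  left; ring

theorem radial (R : ℝ) (hR : 0 < R) (z : ℂ) :
    dX (cut R) z * (z.re / ‖z‖ ^ 2) + dY (cut R) z * (z.im / ‖z‖ ^ 2) =
      deriv Real.smoothTransition (2 - ‖z‖ ^ 2 / R ^ 2) * (-(2 / R ^ 2)) := by
  rw [dX_cut, dY_cut]
  by_cases hz : z = 0
  · subst hz
    simp only [norm_zero]
    rw [dS_gt (by norm_num)]; simp
  · have h0 : ‖z‖ ^ 2 ≠ 0 := pow_ne_zero 2 (norm_ne_zero_iff.2 hz)
    have h1 := nsq z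
    have hR' : R ≠ 0 := hR.ne'
    field_simp
    linear_combination (-(deriv Real.smoothTransition ((2 * R ^ 2 - ‖z‖ ^ 2) / R ^ 2))) * h1

/-- the radial profile -/
theorem prof_int {R : ℝ} (hR : 0 < R) :
    ∫ y in Ioi (0 : ℝ), y * (deriv Real.smoothTransition (2 - y ^ 2 / R ^ 2) * (-(2 / R ^ 2)))
      = -1 := by
  have hc : ContDiff ℝ 1 (fun y : ℝ => Real.smoothTransition (2 - y ^ 2 / R ^ 2)) :=
    (Real.smoothTransition.contDiff (n := 1)).comp
      (contDiff_const.sub ((contDiff_id.pow 2).div_const _))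
  have hs : HasCompactSupport (fun y : ℝ => Real.smoothTransition (2 - y ^ 2 / R ^ 2)) := by
    apply HasCompactSupport.intro (isCompact_closedBall (0 : ℝ) (2 * R))
    intro y hy
    rw [mem_closedBall, dist_zero_right, not_le, Real.norm_eq_abs] at hy
    apply Real.smoothTransition.zero_of_nonpos
    have h : 2 ≤ y ^ 2 / R ^ 2 := by
      rw [le_div_iff₀ (by positivity), ← sq_abs y]
      nlinarith [abs_nonneg y]
    linarith
  have h := hs.integral_Ioi_deriv_eq hc 0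
  have hd : ∀ y : ℝ, deriv (fun y : ℝ => Real.smoothTransition (2 - y ^ 2 / R ^ 2)) y =
      y * (deriv Real.smoothTransition (2 - y ^ 2 / R ^ 2) * (-(2 / R ^ 2))) := by
    intro y
    have h1 : HasDerivAt (fun y : ℝ => 2 - y ^ 2 / R ^ 2) (-(2 * y / R ^ 2)) y := by
      have := ((hasDerivAt_pow 2 y).div_const (R ^ 2)).const_sub 2
      simpa using this
    have h2 := (S_diff (2 - y ^ 2 / R ^ 2)).comp y h1
    have h3 : deriv (fun y : ℝ => Real.smoothTransition (2 - y ^ 2 / R ^ 2)) y =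
      deriv Real.smoothTransition (2 - y ^ 2 / R ^ 2) * (-(2 * y / R ^ 2)) := h2.deriv
    rw [h3]; ring
  simp only [hd] at h
  rw [h]
  have : Real.smoothTransition (2 - 0 ^ 2 / R ^ 2) = 1 := by
    apply Real.smoothTransition.one_of_one_le
    norm_num
  rw [this]

theorem G_int {R : ℝ} (hR : 0 < R) :
    ∫ z : ℂ, (dX (cut R) z * (z.re / ‖z‖ ^ 2) + dY (cut R) z * (z.im / ‖z‖ ^ 2))
      = -(2 * Real.pi) := by
  have h1 : (fun z : ℂ => dX (cut R) z * (z.re / ‖z‖ ^ 2) + dY (cut R) z * (z.im / ‖z‖ ^ 2)) =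
      fun z : ℂ => (fun y : ℝ => deriv Real.smoothTransition (2 - y ^ 2 / R ^ 2) *
        (-(2 / R ^ 2))) ‖z‖ := by
    funext z
    exact radial R hR z
  rw [h1, integral_fun_norm_addHaar volume
    (fun y : ℝ => deriv Real.smoothTransition (2 - y ^ 2 / R ^ 2) * (-(2 / R ^ 2)))]
  have h2 : volume.real (ball (0 : ℂ) 1) = Real.pi := by
    rw [Measure.real, Complex.volume_ball]
    simp
  rw [h2, Complex.finrank_real_complex]
  have h3 := prof_int hR
  simp only [Nat.add_one_sub_one, pow_one, smul_eq_mul] at h3 ⊢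
  rw [h3, nsmul_eq_mul]
  norm_num

/-- the cutoff derivatives vanish outside of the annulus -/
theorem dcut_out {R : ℝ} (hR : 0 < R) {z : ℂ} (hz : ‖z‖ < R ∨ 2 * R < ‖z‖) :
    dX (cut R) z = 0 ∧ dY (cut R) z = 0 := by
  rw [dX_cut, dY_cut]
  have h0 : deriv Real.smoothTransition (2 - ‖z‖ ^ 2 / R ^ 2) = 0 := by
    rcases hz with hz | hz
    · apply dS_gt
      have h : ‖z‖ ^ 2 / R ^ 2 < 1 := by
        rw [div_lt_one (by positivity)]
        exact pow_lt_pow_left₀ hz (norm_nonneg _) two_ne_zero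
      linarith
    · apply dS_neg
      have h : 2 < ‖z‖ ^ 2 / R ^ 2 := by
        rw [lt_div_iff₀ (by positivity)]
        nlinarith [norm_nonneg z]
      linarith
  rw [h0]; simp

theorem dcut_bd {R M : ℝ} (hR : 0 < R) (hM0 : 0 ≤ M)
    (hM : ∀ t, |deriv Real.smoothTransition t| ≤ M) {z : ℂ} (hz : ‖z‖ ≤ 2 * R) :
    |dX (cut R) z| ≤ 4 * M / R ∧ |dY (cut R) z| ≤ 4 * M / R := by
  rw [dX_cut, dY_cut, abs_mul, abs_mul]
  have key : ∀ x : ℝ, |x| ≤ ‖z‖ → |-(2 * x / R ^ 2)| ≤ 4 / R := by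
    intro x hx
    rw [abs_neg, abs_div, abs_mul, abs_two, abs_of_pos (show 0 < R ^ 2 by positivity),
      div_le_div_iff₀ (by positivity) hR]
    nlinarith [abs_nonneg x]
  have e : 4 * M / R = M * (4 / R) := by ring
  rw [e]
  exact ⟨mul_le_mul (hM _) (key _ (Complex.abs_re_le_norm z)) (abs_nonneg _) hM0,
    mul_le_mul (hM _) (key _ (Complex.abs_im_le_norm z)) (abs_nonneg _) hM0⟩

/-- pointwise estimate on the annulus -/
theorem ptw {D C R L κ κ2 p q a1 b1 a2 b2 x y u1 u2 : ℝ} (hR : 1 ≤ R) (hC : 0 ≤ C) (hD : 0 ≤ D)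
    (hp : |p| ≤ D) (hq : |q| ≤ D) (hx : |x| ≤ 1 / R) (hy : |y| ≤ 1 / R)
    (ha1 : |a1 - x| ≤ C / R ^ 2) (hb1 : |b1 - y| ≤ C / R ^ 2)
    (ha2 : |a2 - x| ≤ C / R ^ 2) (hb2 : |b2 - y| ≤ C / R ^ 2)
    (hX : |u1 - u2 - κ| ≤ 2 * C / R) (hu2 : |u2| ≤ L + |κ2| + C) (hL : 0 ≤ L) :
    |(u1 - u2) * (p * a1 + q * b1) - u2 * ((p * a1 + q * b1) - (p * a2 + q * b2))
      - κ * (p * x + q * y)| ≤
      D / R ^ 2 * (4 * C * (1 + C) + 2 * |κ| * C + 4 * C * (L + |κ2| + C)) := by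
  have hR0 : 0 < R := by linarith
  have e : (u1 - u2) * (p * a1 + q * b1) - u2 * ((p * a1 + q * b1) - (p * a2 + q * b2))
      - κ * (p * x + q * y) = (u1 - u2 - κ) * (p * a1 + q * b1)
      + κ * (p * (a1 - x) + q * (b1 - y)) - u2 * (p * (a1 - a2) + q * (b1 - b2)) := by ring
  rw [e]
  have hCR : C / R ^ 2 ≤ C / R := by
    apply div_le_div_of_nonneg_left hC hR0
    nlinarith
  have hA1 : |a1| ≤ (1 + C) / R := by
    have : |a1| ≤ |a1 - x| + |x| := by
      have := abs_add_le (a1 - x) x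
      simpa using this
    calc |a1| ≤ C / R + 1 / R := by linarith
      _ = (1 + C) / R := by ring
  have hB1 : |b1| ≤ (1 + C) / R := by
    have : |b1| ≤ |b1 - y| + |y| := by
      have := abs_add_le (b1 - y) y
      simpa using this
    calc |b1| ≤ C / R + 1 / R := by linarith
      _ = (1 + C) / R := by ring
  have lin : ∀ s t B : ℝ, |s| ≤ B → |t| ≤ B → |p * s + q * t| ≤ 2 * D * B := by
    intro s t B hs ht
    have h1 : |p * s| ≤ D * B := by
      rw [abs_mul]; exact mul_le_mul hp hs (abs_nonneg _) hD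
    have h2 : |q * t| ≤ D * B := by
      rw [abs_mul]; exact mul_le_mul hq ht (abs_nonneg _) hD
    calc |p * s + q * t| ≤ |p * s| + |q * t| := abs_add_le _ _
      _ ≤ 2 * D * B := by linarith
  have h1 := lin a1 b1 _ hA1 hB1
  have h2 := lin (a1 - x) (b1 - y) _ ha1 hb1
  have h3 : |p * (a1 - a2) + q * (b1 - b2)| ≤ 2 * D * (2 * C / R ^ 2) := by
    apply lin
    · calc |a1 - a2| = |(a1 - x) - (a2 - x)| := by ring_nf
        _ ≤ |a1 - x| + |a2 - x| := abs_sub _ _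
        _ ≤ 2 * C / R ^ 2 := by rw [mul_div_assoc]; linarith
    · calc |b1 - b2| = |(b1 - y) - (b2 - y)| := by ring_nf
        _ ≤ |b1 - y| + |b2 - y| := abs_sub _ _
        _ ≤ 2 * C / R ^ 2 := by rw [mul_div_assoc]; linarith
  have k1 : |(u1 - u2 - κ) * (p * a1 + q * b1)| ≤ 2 * C / R * (2 * D * ((1 + C) / R)) := by
    rw [abs_mul]; exact mul_le_mul hX h1 (abs_nonneg _) (by positivity)
  have k2 : |κ * (p * (a1 - x) + q * (b1 - y))| ≤ |κ| * (2 * D * (C / R ^ 2)) := by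
    rw [abs_mul]; exact mul_le_mul_of_nonneg_left h2 (abs_nonneg _)
  have k3 : |u2 * (p * (a1 - a2) + q * (b1 - b2))| ≤
      (L + |κ2| + C) * (2 * D * (2 * C / R ^ 2)) := by
    rw [abs_mul]; exact mul_le_mul hu2 h3 (abs_nonneg _) (by positivity)
  calc |(u1 - u2 - κ) * (p * a1 + q * b1)
      + κ * (p * (a1 - x) + q * (b1 - y)) - u2 * (p * (a1 - a2) + q * (b1 - b2))|
      ≤ |(u1 - u2 - κ) * (p * a1 + q * b1)
      + κ * (p * (a1 - x) + q * (b1 - y))| + |u2 * (p * (a1 - a2) + q * (b1 - b2))| := abs_sub _ _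
    _ ≤ |(u1 - u2 - κ) * (p * a1 + q * b1)| + |κ * (p * (a1 - x) + q * (b1 - y))|
      + |u2 * (p * (a1 - a2) + q * (b1 - b2))| := by
        have := abs_add_le ((u1 - u2 - κ) * (p * a1 + q * b1)) (κ * (p * (a1 - x) + q * (b1 - y)))
        linarith
    _ ≤ 2 * C / R * (2 * D * ((1 + C) / R)) + |κ| * (2 * D * (C / R ^ 2)) +
      (L + |κ2| + C) * (2 * D * (2 * C / R ^ 2)) := by linarith
    _ = D / R ^ 2 * (4 * C * (1 + C) + 2 * |κ| * C + 4 * C * (L + |κ2| + C)) := by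
        field_simp
        ring

/-- pointwise estimate of the boundary integrand -/
theorem bdry_ptw {V : ℂ → ℝ} {F₁ F₂ : Set ℂ} {u₁ u₂ : ℂ → ℝ} {κ₁ κ₂ : ℝ}
    (hA : GreenAsym) (h₁ : IsGreen V F₁ u₁ κ₁) (h₂ : IsGreen V F₂ u₂ κ₂) :
    ∃ A B R₀ : ℝ, 1 ≤ R₀ ∧ 0 ≤ A ∧ 0 ≤ B ∧ ∀ R, R₀ ≤ R →
      (∀ z : ℂ, (‖z‖ < R ∨ 2 * R < ‖z‖) →
      (u₁ z - u₂ z) * gp (cut R) u₁ z - u₂ z * (gp (cut R) u₁ z - gp (cut R) u₂ z)
        - (κ₂ - κ₁) * (dX (cut R) z * (z.re / ‖z‖ ^ 2) + dY (cut R) z * (z.im / ‖z‖ ^ 2)) = 0) ∧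
      (∀ z : ℂ, |(u₁ z - u₂ z) * gp (cut R) u₁ z - u₂ z * (gp (cut R) u₁ z - gp (cut R) u₂ z)
        - (κ₂ - κ₁) * (dX (cut R) z * (z.re / ‖z‖ ^ 2) + dY (cut R) z * (z.im / ‖z‖ ^ 2))|
        ≤ (A + B * Real.log (2 * R)) / R ^ 3) := by
  obtain ⟨C₁, R₁, hR₁, hC₁, H₁⟩ := hA V F₁ u₁ κ₁ h₁
  obtain ⟨C₂, R₂, hR₂, hC₂, H₂⟩ := hA V F₂ u₂ κ₂ h₂
  obtain ⟨M, hM0, hM⟩ := dS_bdd
  set C := max C₁ C₂ with hCdef
  have hC : 0 ≤ C := le_trans hC₁ (le_max_left _ _)
  refine ⟨4 * M * (4 * C * (1 + C) + 2 * |κ₂ - κ₁| * C + 4 * C * (|κ₂| + C)),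
    4 * M * (4 * C), max R₁ R₂, le_trans hR₁ (le_max_left _ _), by positivity, by positivity, ?_⟩
  intro R hR
  have hR1 : 1 ≤ R := le_trans hR₁ (le_trans (le_max_left _ _) hR)
  have hR0 : 0 < R := by linarith
  have hout : ∀ z : ℂ, (‖z‖ < R ∨ 2 * R < ‖z‖) →
      (u₁ z - u₂ z) * gp (cut R) u₁ z - u₂ z * (gp (cut R) u₁ z - gp (cut R) u₂ z)
        - (κ₂ - κ₁) * (dX (cut R) z * (z.re / ‖z‖ ^ 2) + dY (cut R) z * (z.im / ‖z‖ ^ 2)) = 0 := by
    intro z hz
    obtain ⟨e1, e2⟩ := dcut_out hR0 hz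
    unfold gp
    rw [e1, e2]
    ring
  refine ⟨hout, ?_⟩
  have hlog : 0 ≤ Real.log (2 * R) := Real.log_nonneg (by linarith)
  intro z
  by_cases hz : ‖z‖ < R ∨ 2 * R < ‖z‖
  · rw [hout z hz, abs_zero]
    have : 0 ≤ 4 * M * (4 * C * (1 + C) + 2 * |κ₂ - κ₁| * C + 4 * C * (|κ₂| + C))
      + 4 * M * (4 * C) * Real.log (2 * R) := by positivity
    positivity
  · push Not at hz
    obtain ⟨hz1, hz2⟩ := hz
    have hzR₁ : R₁ ≤ ‖z‖ := le_trans (le_trans (le_max_left _ _) hR) hz1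
    have hzR₂ : R₂ ≤ ‖z‖ := le_trans (le_trans (le_max_right _ _) hR) hz1
    obtain ⟨-, v1, x1, y1⟩ := H₁ z hzR₁
    obtain ⟨-, v2, x2, y2⟩ := H₂ z hzR₂
    obtain ⟨hp, hq⟩ := dcut_bd hR0 hM0 hM hz2
    have hzpos : 0 < ‖z‖ := lt_of_lt_of_le hR0 hz1
    have kC : ∀ c, c ≤ C → 0 ≤ c → c / ‖z‖ ≤ C / R := by
      intro c hc hc0
      exact div_le_div₀ hC hc hR0 hz1
    have kC2 : ∀ c, c ≤ C → 0 ≤ c → c / ‖z‖ ^ 2 ≤ C / R ^ 2 := by
      intro c hc hc0
      exact div_le_div₀ hC hc (by positivity) (pow_le_pow_left₀ hR0.le hz1 2)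
    have v1' := v1.trans (kC C₁ (le_max_left _ _) hC₁)
    have v2' := v2.trans (kC C₂ (le_max_right _ _) hC₂)
    have x1' := x1.trans (kC2 C₁ (le_max_left _ _) hC₁)
    have x2' := x2.trans (kC2 C₂ (le_max_right _ _) hC₂)
    have y1' := y1.trans (kC2 C₁ (le_max_left _ _) hC₁)
    have y2' := y2.trans (kC2 C₂ (le_max_right _ _) hC₂)
    have hlogz : Real.log ‖z‖ ≤ Real.log (2 * R) := Real.log_le_log hzpos hz2
    have hlogz0 : 0 ≤ Real.log ‖z‖ := Real.log_nonneg (le_trans hR1 hz1)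
    have hX : |u₁ z - u₂ z - (κ₂ - κ₁)| ≤ 2 * C / R := by
      calc |u₁ z - u₂ z - (κ₂ - κ₁)| = |(u₁ z - (Real.log ‖z‖ - κ₁)) - (u₂ z - (Real.log ‖z‖ - κ₂))| := by
            ring_nf
        _ ≤ |u₁ z - (Real.log ‖z‖ - κ₁)| + |u₂ z - (Real.log ‖z‖ - κ₂)| := abs_sub _ _
        _ ≤ C / R + C / R := by linarith
        _ = 2 * C / R := by ring
    have hCR : C / R ≤ C := div_le_self hC hR1
    have hu2 : |u₂ z| ≤ Real.log (2 * R) + |κ₂| + C := by
      calc |u₂ z| = |(u₂ z - (Real.log ‖z‖ - κ₂)) + (Real.log ‖z‖ - κ₂)| := by ring_nf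
        _ ≤ |u₂ z - (Real.log ‖z‖ - κ₂)| + |Real.log ‖z‖ - κ₂| := abs_add_le _ _
        _ ≤ C / R + (|Real.log ‖z‖| + |κ₂|) := by
            have := abs_sub (Real.log ‖z‖) κ₂
            linarith
        _ ≤ Real.log (2 * R) + |κ₂| + C := by
            rw [abs_of_nonneg hlogz0]; linarith
    have kx : ∀ x : ℝ, |x| ≤ ‖z‖ → |x / ‖z‖ ^ 2| ≤ 1 / R := by
      intro x hx
      rw [abs_div, abs_of_pos (show 0 < ‖z‖ ^ 2 by positivity), div_le_div_iff₀ (by positivity) hR0]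
      nlinarith [abs_nonneg x]
    have hmain := ptw hR1 hC (show 0 ≤ 4 * M / R by positivity) hp hq
      (kx _ (Complex.abs_re_le_norm z)) (kx _ (Complex.abs_im_le_norm z)) x1' y1' x2' y2' hX hu2 hlog
    unfold gp
    refine hmain.trans (le_of_eq ?_)
    field_simp
    ring

theorem lin3 {a b c : ℂ → ℝ} (ha : Integrable a) (hb : Integrable b) (hc : Integrable c) :
    Integrable (fun z => (a z - 2 * b z) + c z) ∧
    ∫ z, ((a z - 2 * b z) + c z) = (∫ z, a z) - 2 * (∫ z, b z) + ∫ z, c z := by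
  have hb2 : Integrable (fun z => 2 * b z) := hb.const_mul 2
  have hab : Integrable (fun z => a z - 2 * b z) := ha.sub hb2
  refine ⟨hab.add hc, ?_⟩
  rw [integral_add hab hc, integral_sub ha hb2, integral_const_mul]

/-- the boundary terms converge -/
theorem bdry_lim {V : ℂ → ℝ} {F₁ F₂ : Set ℂ} {u₁ u₂ : ℂ → ℝ} {κ₁ κ₂ : ℝ}
    (hA : GreenAsym) (h₁ : IsGreen V F₁ u₁ κ₁) (h₂ : IsGreen V F₂ u₂ κ₂)
    (hi1 : ∀ R : ℝ, 0 < R → Integrable (fun z => u₁ z * gp (cut R) u₁ z))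
    (hi2 : ∀ R : ℝ, 0 < R → Integrable (fun z => u₂ z * gp (cut R) u₁ z))
    (hi3 : ∀ R : ℝ, 0 < R → Integrable (fun z => u₂ z * gp (cut R) u₂ z)) :
    Tendsto (fun n : ℕ => -(∫ z, u₁ z * gp (cut n) u₁ z) + 2 * (∫ z, u₂ z * gp (cut n) u₁ z)
      - ∫ z, u₂ z * gp (cut n) u₂ z) atTop (𝓝 (2 * Real.pi * (κ₂ - κ₁))) := by
  obtain ⟨A, B, R₀, hR₀, hA0, hB0, H⟩ := bdry_ptw hA h₁ h₂
  have hGi : ∀ R : ℝ, 0 < R → Integrable (fun z : ℂ =>
      (dX (cut R) z * (z.re / ‖z‖ ^ 2) + dY (cut R) z * (z.im / ‖z‖ ^ 2))) := by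
    intro R hR
    have : (fun z : ℂ => (dX (cut R) z * (z.re / ‖z‖ ^ 2) + dY (cut R) z * (z.im / ‖z‖ ^ 2))) =
        fun z => deriv Real.smoothTransition (2 - ‖z‖ ^ 2 / R ^ 2) * (-(2 / R ^ 2)) := by
      funext z; exact radial R hR z
    rw [this]
    apply Continuous.integrable_of_hasCompactSupport
    · exact (dS_cont.comp (by fun_prop)).mul continuous_const
    · apply HasCompactSupport.intro (isCompact_closedBall (0 : ℂ) (2 * R))
      intro z hz
      rw [mem_closedBall, dist_zero_right, not_le] at hz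
      have h : 2 < ‖z‖ ^ 2 / R ^ 2 := by
        rw [lt_div_iff₀ (by positivity)]
        nlinarith [norm_nonneg z]
      rw [dS_neg (by linarith), zero_mul]
  have key : ∀ R : ℝ, R₀ ≤ R → |(-(∫ z, u₁ z * gp (cut R) u₁ z) + 2 * (∫ z, u₂ z * gp (cut R) u₁ z)
      - ∫ z, u₂ z * gp (cut R) u₂ z) - 2 * Real.pi * (κ₂ - κ₁)| ≤
      4 * Real.pi * ((A + B * Real.log (2 * R)) / R) := by
    intro R hR
    have hR0 : 0 < R := by linarith
    obtain ⟨Hout, Hbd⟩ := H R hR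
    have e : (-(∫ z, u₁ z * gp (cut R) u₁ z) + 2 * (∫ z, u₂ z * gp (cut R) u₁ z)
      - ∫ z, u₂ z * gp (cut R) u₂ z) - 2 * Real.pi * (κ₂ - κ₁) =
      -(∫ z, ((u₁ z - u₂ z) * gp (cut R) u₁ z - u₂ z * (gp (cut R) u₁ z - gp (cut R) u₂ z)
        - (κ₂ - κ₁) * (dX (cut R) z * (z.re / ‖z‖ ^ 2) + dY (cut R) z * (z.im / ‖z‖ ^ 2)))) := by
      have e1 : (fun z => ((u₁ z - u₂ z) * gp (cut R) u₁ z
          - u₂ z * (gp (cut R) u₁ z - gp (cut R) u₂ z)
          - (κ₂ - κ₁) * (dX (cut R) z * (z.re / ‖z‖ ^ 2) + dY (cut R) z * (z.im / ‖z‖ ^ 2)))) =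
          fun z => (((u₁ z * gp (cut R) u₁ z - 2 * (u₂ z * gp (cut R) u₁ z)) +
            u₂ z * gp (cut R) u₂ z) - (κ₂ - κ₁) * (dX (cut R) z * (z.re / ‖z‖ ^ 2)
              + dY (cut R) z * (z.im / ‖z‖ ^ 2))) := by
        funext z; ring
      obtain ⟨hl1, hl2⟩ := lin3 (hi1 R hR0) (hi2 R hR0) (hi3 R hR0)
      have hG' : Integrable (fun z : ℂ => (κ₂ - κ₁) *
          (dX (cut R) z * (z.re / ‖z‖ ^ 2) + dY (cut R) z * (z.im / ‖z‖ ^ 2))) :=
        (hGi R hR0).const_mul _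
      rw [e1, integral_sub hl1 hG', hl2, integral_const_mul, G_int hR0]
      ring
    rw [e, abs_neg, ← Real.norm_eq_abs]
    rw [← setIntegral_eq_integral_of_forall_compl_eq_zero (s := closedBall (0 : ℂ) (2 * R))
      (fun z hz => by
        apply Hout z
        right
        rw [mem_closedBall, dist_zero_right, not_le] at hz
        exact hz)]
    have hvol : volume.real (closedBall (0 : ℂ) (2 * R)) = Real.pi * (2 * R) ^ 2 := by
      rw [Measure.real, Complex.volume_closedBall, ENNReal.toReal_mul, ENNReal.toReal_pow,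
        ENNReal.toReal_ofReal (show 0 ≤ 2 * R by linarith)]
      simp [mul_comm]
    have hfin : volume (closedBall (0 : ℂ) (2 * R)) < ⊤ := measure_closedBall_lt_top
    refine (norm_setIntegral_le_of_norm_le_const hfin (C := (A + B * Real.log (2 * R)) / R ^ 3)
      (fun z _ => by rw [Real.norm_eq_abs]; exact Hbd z)).trans (le_of_eq ?_)
    rw [hvol]
    field_simp
    ring
  have hlim : Tendsto (fun n : ℕ => 4 * Real.pi * ((A + B * Real.log (2 * (n : ℝ))) / (n : ℝ)))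
      atTop (𝓝 0) := by
    have h1 : Tendsto (fun n : ℕ => (2 * (n : ℝ))) atTop atTop :=
      Tendsto.const_mul_atTop (by norm_num) tendsto_natCast_atTop_atTop
    have h2 := (Real.tendsto_pow_log_div_mul_add_atTop (1 / 2) 0 1 (by norm_num)).comp h1
    have h3 := tendsto_const_div_atTop_nhds_zero_nat A
    have h4 := (h3.add (h2.const_mul B)).const_mul (4 * Real.pi)
    simp only [mul_zero, add_zero] at h4
    refine h4.congr (fun n => ?_)
    simp only [Function.comp, pow_one]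
    by_cases hn : (n : ℝ) = 0
    · rw [hn]; simp
    · field_simp
  rw [tendsto_iff_norm_sub_tendsto_zero]
  refine squeeze_zero' (Eventually.of_forall fun _ => norm_nonneg _) ?_ hlim
  filter_upwards [tendsto_natCast_atTop_atTop.eventually (eventually_ge_atTop R₀)] with n hn
  rw [Real.norm_eq_abs]
  exact key n hn

end GreenNorm'

theorem s_GreenNorm : GreenPair → GreenAsym → GreenMono → GreenNorm := by
  intro hP hA _ V F₁ F₂ u₁ u₂ κ₁ κ₂ hV hF₁ hF₂ hN₂ hsub h₁ h₂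
  have hVc : Continuous V := hV.smooth.continuous
  have hN₁ : volume F₁ = 0 := measure_mono_null hsub hN₂
  have P11 := fun (R : ℝ) (hR : 0 < R) => hP V F₁ F₁ u₁ u₁ κ₁ κ₁ (GreenNorm'.cut R) hVc hV.nonneg
    hF₁ hF₁ hN₁ subset_rfl h₁ h₁ (GreenNorm'.cut_contDiff R) (GreenNorm'.cut_supp hR)
  have P12 := fun (R : ℝ) (hR : 0 < R) => hP V F₁ F₂ u₁ u₂ κ₁ κ₂ (GreenNorm'.cut R) hVc hV.nonneg
    hF₁ hF₂ hN₂ hsub h₁ h₂ (GreenNorm'.cut_contDiff R) (GreenNorm'.cut_supp hR)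
  have P22 := fun (R : ℝ) (hR : 0 < R) => hP V F₂ F₂ u₂ u₂ κ₂ κ₂ (GreenNorm'.cut R) hVc hV.nonneg
    hF₂ hF₂ hN₂ subset_rfl h₂ h₂ (GreenNorm'.cut_contDiff R) (GreenNorm'.cut_supp hR)
  have hlim := GreenNorm'.bdry_lim hA h₁ h₂ (fun R hR => (P11 R hR).2.1)
    (fun R hR => (P12 R hR).2.1) (fun R hR => (P22 R hR).2.1)
  set x : ℂ → ℝ := fun w => u₁ w - u₂ w with hx
  set f : ℂ → ℝ := fun z => gp x x z + V z * (u₁ z - u₂ z) ^ 2 with hf
  have hf0 : ∀ z, 0 ≤ f z := by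
    intro z
    have h1 : 0 ≤ gp x x z := by
      unfold gp; nlinarith [mul_self_nonneg (dX x z), mul_self_nonneg (dY x z)]
    have h2 : 0 ≤ V z * (u₁ z - u₂ z) ^ 2 := mul_nonneg (hV.nonneg z) (sq_nonneg _)
    simp only [hf]; linarith
  -- expansion off `F₂`
  have hexp : ∀ R : ℝ, (fun z => GreenNorm'.cut R z * f z) =ᵐ[volume] fun z =>
      (GreenNorm'.cut R z * (gp u₁ u₁ z + V z * u₁ z * u₁ z)
      - 2 * (GreenNorm'.cut R z * (gp u₁ u₂ z + V z * u₁ z * u₂ z)))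
      + GreenNorm'.cut R z * (gp u₂ u₂ z + V z * u₂ z * u₂ z) := by
    intro R
    have hae : ∀ᵐ z : ℂ, z ∉ F₂ := by
      rw [ae_iff]; simpa using hN₂
    filter_upwards [hae] with z hz
    have d1 : DifferentiableAt ℝ u₁ z :=
      ((h₁.harm z (fun h => hz (hsub h))).1).differentiableAt (by norm_num)
    have d2 : DifferentiableAt ℝ u₂ z := ((h₂.harm z hz).1).differentiableAt (by norm_num)
    have e1 : dX x z = dX u₁ z - dX u₂ z := by
      unfold dX; rw [hx, fderiv_fun_sub d1 d2]; rfl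
    have e2 : dY x z = dY u₁ z - dY u₂ z := by
      unfold dY; rw [hx, fderiv_fun_sub d1 d2]; rfl
    simp only [hf, gp, e1, e2]
    ring
  have hint : ∀ R : ℝ, 0 < R → Integrable (fun z => GreenNorm'.cut R z * f z) := by
    intro R hR
    exact (GreenNorm'.lin3 (P11 R hR).1 (P12 R hR).1 (P22 R hR).1).1.congr (hexp R).symm
  have hval : ∀ R : ℝ, 0 < R → ∫ z, GreenNorm'.cut R z * f z =
      -(∫ z, u₁ z * gp (GreenNorm'.cut R) u₁ z) + 2 * (∫ z, u₂ z * gp (GreenNorm'.cut R) u₁ z)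
      - ∫ z, u₂ z * gp (GreenNorm'.cut R) u₂ z := by
    intro R hR
    rw [integral_congr_ae (hexp R),
      (GreenNorm'.lin3 (P11 R hR).1 (P12 R hR).1 (P22 R hR).1).2,
      (P11 R hR).2.2, (P12 R hR).2.2, (P22 R hR).2.2]
    ring
  have hlim' : Tendsto (fun n : ℕ => ∫ z, GreenNorm'.cut n z * f z) atTop
      (𝓝 (2 * Real.pi * (κ₂ - κ₁))) := by
    refine hlim.congr' ?_
    filter_upwards [eventually_gt_atTop 0] with n hn
    rw [hval n (by exact_mod_cast hn)]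
  -- integrability
  have hcover : AECover volume (atTop : Filter ℕ) (fun n : ℕ => ball (0 : ℂ) (n : ℝ)) :=
    aecover_ball tendsto_natCast_atTop_atTop
  have hfint : Integrable f := by
    refine hcover.integrable_of_integral_bounded_of_nonneg_ae (2 * Real.pi * (κ₂ - κ₁) + 1)
      (fun n => ?_) (Eventually.of_forall hf0) ?_
    · rcases Nat.eq_zero_or_pos n with hn | hn
      · subst hn
        simp
      · have hn' : (0 : ℝ) < n := by exact_mod_cast hn
        refine ((hint n hn').integrableOn (s := ball (0 : ℂ) n)).congr_fun (fun z hz => ?_)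
          measurableSet_ball
        rw [mem_ball, dist_zero_right] at hz
        simp only
        rw [GreenNorm'.cut_one hn' hz.le, one_mul]
    · filter_upwards [eventually_gt_atTop 0, hlim'.eventually (gt_mem_nhds
        (show 2 * Real.pi * (κ₂ - κ₁) < 2 * Real.pi * (κ₂ - κ₁) + 1 by linarith))] with n hn hn2
      have hn' : (0 : ℝ) < n := by exact_mod_cast hn
      refine le_trans ?_ hn2.le
      calc ∫ z in ball (0 : ℂ) n, f z = ∫ z in ball (0 : ℂ) n, GreenNorm'.cut n z * f z := by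
            apply setIntegral_congr_fun measurableSet_ball
            intro z hz
            rw [mem_ball, dist_zero_right] at hz
            simp only
            rw [GreenNorm'.cut_one hn' hz.le, one_mul]
        _ ≤ ∫ z, GreenNorm'.cut n z * f z := by
            apply setIntegral_le_integral (hint n hn')
            exact Eventually.of_forall fun z => mul_nonneg (GreenNorm'.cut_nonneg _ _) (hf0 z)
  have hfval : ∫ z, f z = 2 * Real.pi * (κ₂ - κ₁) := by
    refine tendsto_nhds_unique ?_ hlim'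
    refine tendsto_integral_of_dominated_convergence f (fun n => ?_) hfint (fun n => ?_) ?_
    · exact ((GreenNorm'.cut_contDiff n).continuous.aestronglyMeasurable).mul
        hfint.aestronglyMeasurable
    · filter_upwards with z
      rw [norm_mul, Real.norm_of_nonneg (GreenNorm'.cut_nonneg _ _), Real.norm_of_nonneg (hf0 z)]
      exact mul_le_of_le_one_left (hf0 z) (GreenNorm'.cut_le_one _ _)
    · filter_upwards with z
      apply tendsto_const_nhds.congr'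
      filter_upwards [tendsto_natCast_atTop_atTop.eventually (eventually_ge_atTop (‖z‖ + 1))]
        with n hn
      rw [GreenNorm'.cut_one (by linarith [norm_nonneg z]) (by linarith), one_mul]
  have hVx : Continuous (fun z => V z * (u₁ z - u₂ z) ^ 2) :=
    hVc.mul ((h₁.cont.sub h₂.cont).pow 2)
  have hI2 : Integrable (fun z => V z * (u₁ z - u₂ z) ^ 2) := by
    refine hfint.mono' hVx.aestronglyMeasurable (Eventually.of_forall fun z => ?_)
    rw [Real.norm_of_nonneg (mul_nonneg (hV.nonneg z) (sq_nonneg _))]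
    have h1 : 0 ≤ gp x x z := by
      unfold gp; nlinarith [mul_self_nonneg (dX x z), mul_self_nonneg (dY x z)]
    simp only [hf]; linarith
  refine ⟨?_, hI2, hfval⟩
  have : (fun z => gp x x z) = fun z => f z - V z * (u₁ z - u₂ z) ^ 2 := by
    funext z; simp only [hf]; ring
  show Integrable (fun z => gp x x z)
  rw [this]
  exact hfint.sub hI2

end Pool.MP_31392c_an
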