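import Pool.Agent.Lib.MP_31392c_an.Full.SpecK

/-!
# MP_31392c_an: the growth lemma
-/

set_option autoImplicit false

open MeasureTheory Set Filter Topology Metric

namespace Pool.MP_31392c_an

namespace Growth

/-- lengths of the arms after lengthening the arms `l` and `k` -/
noncomputable def vv {N : ℕ} (x : Fin N → ℝ) (k l : Fin N) (s t : ℝ) : Fin N → ℝ :=
  x + Pi.single l s + Pi.single k t

lemma vv_apply {N : ℕ} (x : Fin N → ℝ) (k l : Fin N) (s t : ℝ) (j : Fin N) :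
    vv x k l s t j = x j + (if j = l then s else 0) + (if j = k then t else 0) := by
  unfold vv
  rw [Pi.add_apply, Pi.add_apply, Pi.single_apply, Pi.single_apply]

lemma vv_add {N : ℕ} (x : Fin N → ℝ) (k l : Fin N) (s t s' t' : ℝ) :
    vv x k l s t + Pi.single l s' + Pi.single k t' = vv x k l (s + s') (t + t') := by
  funext j
  rw [Pi.add_apply, Pi.add_apply, Pi.single_apply, Pi.single_apply, vv_apply, vv_apply]
  split_ifs <;> ring

lemma vv_addk {N : ℕ} (x : Fin N → ℝ) (k l : Fin N) (s t t' : ℝ) :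
    vv x k l s t + Pi.single k t' = vv x k l s (t + t') := by
  funext j
  rw [Pi.add_apply, Pi.single_apply, vv_apply, vv_apply]
  split_ifs <;> ring

lemma vv_addl {N : ℕ} (x : Fin N → ℝ) (k l : Fin N) (s t s' : ℝ) :
    vv x k l s t + Pi.single l s' = vv x k l (s + s') t := by
  funext j
  rw [Pi.add_apply, Pi.single_apply, vv_apply, vv_apply]
  split_ifs <;> ring

lemma star_mono {N : ℕ} (c : ℂ) (θ x y : Fin N → ℝ) (h : ∀ j, x j ≤ y j) :
    starSet c θ x ⊆ starSet c θ y := by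
  rintro z ⟨j, r, h0, h1, h2⟩
  exact ⟨j, r, h0, h1.trans (h j), h2⟩

/-- the logarithm of the capacity -/
noncomputable def qq {N : ℕ} (c : ℂ) (θ x : Fin N → ℝ) (k l : Fin N) (K : Set ℂ) (s t : ℝ) : ℝ :=
  kap (starSet c θ (vv x k l s t) ∪ K)

variable {N : ℕ} {c : ℂ} {θ x : Fin N → ℝ} {k l : Fin N} {K : Set ℂ}

lemma modL (hM : StarMod) (hK : SegUnion K) (hkl : k ≠ l) (hx : ∀ j, 0 ≤ x j) (s s' t ℓ : ℝ)
    (hs : 0 ≤ s) (hss : s ≤ s') (ht : 0 ≤ t) (hℓ : 0 < ℓ) (hk : ℓ ≤ x k)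
    (hl : ℓ ≤ x l + s ∨ x l + s = 0) :
    qq c θ x k l K s t ≤ qq c θ x k l K s' t ∧
      qq c θ x k l K s' t ≤ qq c θ x k l K s t + 2 * Real.sqrt ((s' - s) / ℓ) := by
  refine hM N c θ (vv x k l s t) (vv x k l s' t) k K ℓ (s' - s) hℓ (by linarith) hK ?_ ?_ ?_ ?_
  · rw [vv_apply, if_neg hkl, if_pos rfl]
    linarith
  · intro j
    rw [vv_apply]
    have := hx j
    split_ifs <;> linarith
  · intro j
    rw [vv_apply, vv_apply]
    split_ifs <;> constructor <;> linarith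
  · intro j hj
    rw [vv_apply, vv_apply] at hj
    by_cases hjl : j = l
    · subst hjl
      rw [vv_apply, if_pos rfl, if_neg (Ne.symm hkl), add_zero]
      exact hl
    · rw [if_neg hjl, if_neg hjl] at hj
      exact absurd hj (lt_irrefl _)

lemma modR (hM : StarMod) (hK : SegUnion K) (hkl : k ≠ l) (hx : ∀ j, 0 ≤ x j) (s t t' ℓ : ℝ)
    (hs : 0 ≤ s) (htt : t ≤ t') (ht : 0 ≤ t) (hℓ : 0 < ℓ) (hk : ℓ ≤ x k) :
    qq c θ x k l K s t ≤ qq c θ x k l K s t' ∧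
      qq c θ x k l K s t' ≤ qq c θ x k l K s t + 2 * Real.sqrt ((t' - t) / ℓ) := by
  refine hM N c θ (vv x k l s t) (vv x k l s t') k K ℓ (t' - t) hℓ (by linarith) hK ?_ ?_ ?_ ?_
  · rw [vv_apply, if_neg hkl, if_pos rfl]
    linarith
  · intro j
    rw [vv_apply]
    have := hx j
    split_ifs <;> linarith
  · intro j
    rw [vv_apply, vv_apply]
    split_ifs <;> constructor <;> linarith
  · intro j hj
    rw [vv_apply, vv_apply] at hj
    by_cases hjk : j = k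
    · subst hjk
      rw [vv_apply, if_neg hkl, if_pos rfl, add_zero]
      left
      linarith
    · rw [if_neg hjk, if_neg hjk] at hj
      exact absurd hj (lt_irrefl _)

lemma grid (hS : SQK) (hM : StarMod) (hG : GridLem) (hθ : Dirs θ) (hkl : k ≠ l)
    (hx : ∀ j, 0 ≤ x j) (hxk : 0 < x k) (h s₁ : ℝ) (hh : 0 < h) (hK : SegUnion K)
    (hd : ∀ s, 0 ≤ s → s < s₁ → Disjoint K (starSet c θ (vv x k l s h))) (s₀ s' : ℝ)
    (h0 : 0 < s₀) (h1 : s₀ < s') (h2 : s' < s₁) :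
    ∃ ℓ D : ℝ, 0 < ℓ ∧ 0 < D ∧ ∀ n : ℕ, 0 < n → 2 * Real.sqrt (D / n / ℓ) ≤ 1 →
      (1 - 2 * Real.sqrt (D / n / ℓ)) *
        Real.exp (-(2 * Real.sqrt (D / n / ℓ)) * (qq c θ x k l K s' h - qq c θ x k l K s₀ 0)) *
        (Real.exp (qq c θ x k l K s' h) - Real.exp (qq c θ x k l K s' 0)) ≤
      Real.exp (qq c θ x k l K s₀ h) - Real.exp (qq c θ x k l K s₀ 0) := by
  have hℓ : 0 < min (x k) (x l + s₀) := lt_min hxk (by have := hx l; linarith)
  have hD : 0 < max (s' - s₀) h := lt_max_of_lt_right hh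
  refine ⟨min (x k) (x l + s₀), max (s' - s₀) h, hℓ, hD, fun n hn hn1 => ?_⟩
  obtain ⟨ℓ, hℓe⟩ : ∃ ℓ, ℓ = min (x k) (x l + s₀) := ⟨_, rfl⟩
  obtain ⟨D, hDe⟩ : ∃ D, D = max (s' - s₀) h := ⟨_, rfl⟩
  rw [← hℓe] at hℓ hn1 ⊢
  rw [← hDe] at hD hn1 ⊢
  have hℓk : ℓ ≤ x k := hℓe ▸ min_le_left _ _
  have hℓl : ℓ ≤ x l + s₀ := hℓe ▸ min_le_right _ _
  have hD1 : s' - s₀ ≤ D := hDe ▸ le_max_left _ _
  have hD2 : h ≤ D := hDe ▸ le_max_right _ _
  have hn0 : (0 : ℝ) < n := by exact_mod_cast hn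
  obtain ⟨δ, hδ⟩ : ∃ δ, δ = (s' - s₀) / n := ⟨_, rfl⟩
  obtain ⟨τ, hτ⟩ : ∃ τ, τ = h / n := ⟨_, rfl⟩
  have hδ0 : 0 < δ := by rw [hδ]; exact div_pos (by linarith) hn0
  have hτ0 : 0 < τ := by rw [hτ]; exact div_pos hh hn0
  have hδn : n * δ = s' - s₀ := by rw [hδ]; field_simp
  have hτn : n * τ = h := by rw [hτ]; field_simp
  have hδD : δ ≤ D / n := by rw [hδ]; exact div_le_div_of_nonneg_right hD1 hn0.le
  have hτD : τ ≤ D / n := by rw [hτ]; exact div_le_div_of_nonneg_right hD2 hn0.le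
  have hξ : 0 < 2 * Real.sqrt (D / n / ℓ) :=
    mul_pos two_pos (Real.sqrt_pos.mpr (div_pos (div_pos hD hn0) hℓ))
  have key := hG n (fun i j => qq c θ x k l K (s₀ + i * δ) (j * τ)) (2 * Real.sqrt (D / n / ℓ)) hξ hn1
    (by
      intro i j hi hj
      have hi0 : (0 : ℝ) ≤ i := Nat.cast_nonneg i
      have hj0 : (0 : ℝ) ≤ j := Nat.cast_nonneg j
      have hA := modL (c := c) (θ := θ) (K := K) hM hK hkl hx (s₀ + i * δ) (s₀ + (i + 1 : ℕ) * δ) (j * τ) ℓ
        (by positivity) (by push_cast; nlinarith) (by positivity) hℓ hℓk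
        (Or.inl (by nlinarith))
      refine ⟨hA.1, hA.2.trans ?_⟩
      have : Real.sqrt ((s₀ + (i + 1 : ℕ) * δ - (s₀ + i * δ)) / ℓ) ≤ Real.sqrt (D / n / ℓ) := by
        apply Real.sqrt_le_sqrt
        apply div_le_div_of_nonneg_right _ hℓ.le
        push_cast
        linarith
      linarith)
    (by
      intro i j hi hj
      have hi0 : (0 : ℝ) ≤ i := Nat.cast_nonneg i
      have hj0 : (0 : ℝ) ≤ j := Nat.cast_nonneg j
      have hA := modR (c := c) (θ := θ) (K := K) hM hK hkl hx (s₀ + i * δ) (j * τ) ((j + 1 : ℕ) * τ) ℓ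
        (by positivity) (by push_cast; nlinarith) (by positivity) hℓ hℓk
      refine ⟨hA.1, hA.2.trans ?_⟩
      have : Real.sqrt (((j + 1 : ℕ) * τ - j * τ) / ℓ) ≤ Real.sqrt (D / n / ℓ) := by
        apply Real.sqrt_le_sqrt
        apply div_le_div_of_nonneg_right _ hℓ.le
        push_cast
        linarith
      linarith)
    (by
      intro i j hi hj
      have hi0 : (0 : ℝ) ≤ i := Nat.cast_nonneg i
      have hj0 : (0 : ℝ) ≤ j := Nat.cast_nonneg j
      have hin : ((i : ℝ) + 1) ≤ n := by exact_mod_cast hi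
      have hjn : ((j : ℝ) + 1) ≤ n := by exact_mod_cast hj
      have h3 : s₀ + i * δ + δ ≤ s' := by nlinarith
      have h4 : j * τ + τ ≤ h := by nlinarith
      have hB : ∀ j', 0 ≤ vv x k l (s₀ + i * δ) (j * τ) j' := by
        intro j'
        rw [vv_apply]
        have := hx j'
        have h5 : 0 ≤ s₀ + i * δ := by positivity
        have h6 : 0 ≤ j * τ := by positivity
        split_ifs <;> linarith
      have hA := hS N c θ (vv x k l (s₀ + i * δ) (j * τ)) k l δ τ K hθ hkl hB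
        (by
          rw [vv_apply, if_neg hkl, if_pos rfl]
          have h6 : 0 ≤ j * τ := by positivity
          linarith)
        (by
          rw [vv_apply, if_pos rfl, if_neg (Ne.symm hkl)]
          have h5 : 0 ≤ i * δ := by positivity
          have := hx l
          linarith)
        hδ0 hτ0 hK
        (by
          rw [vv_add]
          refine Disjoint.mono_right (star_mono c θ _ _ ?_) (hd s' (by linarith) h2)
          intro j'
          rw [vv_apply, vv_apply]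
          split_ifs <;> linarith)
      rw [vv_add, vv_addk, vv_addl] at hA
      have e1 : s₀ + (i + 1 : ℕ) * δ = s₀ + i * δ + δ := by push_cast; ring
      have e2 : ((j + 1 : ℕ) : ℝ) * τ = j * τ + τ := by push_cast; ring
      beta_reduce
      rw [e1, e2]
      exact hA)
  have e3 : s₀ + (n : ℝ) * δ = s' := by rw [hδn]; ring
  have e4 : s₀ + ((0 : ℕ) : ℝ) * δ = s₀ := by simp
  have e5 : ((0 : ℕ) : ℝ) * τ = 0 := by simp
  beta_reduce at key
  rw [e3, e4, e5, hτn] at key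
  exact key

lemma step (hS : SQK) (hM : StarMod) (hG : GridLem) (hθ : Dirs θ) (hkl : k ≠ l)
    (hx : ∀ j, 0 ≤ x j) (hxk : 0 < x k) (h s₁ : ℝ) (hh : 0 < h) (hK : SegUnion K)
    (hd : ∀ s, 0 ≤ s → s < s₁ → Disjoint K (starSet c θ (vv x k l s h))) (s₀ s' : ℝ)
    (h0 : 0 < s₀) (h1 : s₀ < s') (h2 : s' < s₁) :
    Real.exp (qq c θ x k l K s' h) - Real.exp (qq c θ x k l K s' 0) ≤
      Real.exp (qq c θ x k l K s₀ h) - Real.exp (qq c θ x k l K s₀ 0) := by
  obtain ⟨ℓ, D, hℓ, hD, hn⟩ := grid hS hM hG hθ hkl hx hxk h s₁ hh hK hd s₀ s' h0 h1 h2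
  have hlim : Tendsto (fun n : ℕ => 2 * Real.sqrt (D / n / ℓ)) atTop (𝓝 0) := by
    have h3 : Tendsto (fun n : ℕ => D / (n : ℝ)) atTop (𝓝 0) :=
      tendsto_const_div_atTop_nhds_zero_nat D
    have h4 : Tendsto (fun n : ℕ => D / (n : ℝ) / ℓ) atTop (𝓝 0) := by
      simpa using h3.div_const ℓ
    have h5 : Tendsto (fun n : ℕ => Real.sqrt (D / (n : ℝ) / ℓ)) atTop (𝓝 0) := by
      have := (Real.continuous_sqrt.tendsto 0).comp h4
      rw [Real.sqrt_zero] at this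
      exact this
    simpa using h5.const_mul 2
  have hlim2 : Tendsto (fun n : ℕ => (1 - 2 * Real.sqrt (D / n / ℓ)) *
        Real.exp (-(2 * Real.sqrt (D / n / ℓ)) * (qq c θ x k l K s' h - qq c θ x k l K s₀ 0)) *
        (Real.exp (qq c θ x k l K s' h) - Real.exp (qq c θ x k l K s' 0))) atTop
      (𝓝 ((1 - 0) * Real.exp (-0 * (qq c θ x k l K s' h - qq c θ x k l K s₀ 0)) *
        (Real.exp (qq c θ x k l K s' h) - Real.exp (qq c θ x k l K s' 0)))) := by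
    refine Tendsto.mul_const _ (Tendsto.mul (hlim.const_sub 1) ?_)
    exact (Real.continuous_exp.tendsto _).comp (hlim.neg.mul_const _)
  have hlim3 : (1 - 0) * Real.exp (-0 * (qq c θ x k l K s' h - qq c θ x k l K s₀ 0)) *
        (Real.exp (qq c θ x k l K s' h) - Real.exp (qq c θ x k l K s' 0)) =
      Real.exp (qq c θ x k l K s' h) - Real.exp (qq c θ x k l K s' 0) := by
    simp
  rw [hlim3] at hlim2
  refine le_of_tendsto hlim2 ?_
  have h6 : ∀ᶠ n : ℕ in atTop, 2 * Real.sqrt (D / n / ℓ) ≤ 1 :=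
    (hlim.eventually (ge_mem_nhds (show (0 : ℝ) < 1 by norm_num)))
  filter_upwards [h6, eventually_gt_atTop 0] with n h7 h8
  exact hn n h8 h7

lemma tendR (hM : StarMod) (hK : SegUnion K) (hkl : k ≠ l) (hx : ∀ j, 0 ≤ x j) (hxk : 0 < x k)
    (s₁ t : ℝ) (hs : 0 < s₁) (ht : 0 ≤ t) :
    Tendsto (fun s => qq c θ x k l K s t) (𝓝[<] s₁) (𝓝 (qq c θ x k l K s₁ t)) := by
  have hℓ : 0 < min (x k) (s₁ / 2) := lt_min hxk (by linarith)
  obtain ⟨ℓ, hℓe⟩ : ∃ ℓ, ℓ = min (x k) (s₁ / 2) := ⟨_, rfl⟩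
  rw [← hℓe] at hℓ
  have hℓk : ℓ ≤ x k := hℓe ▸ min_le_left _ _
  have hℓl : ℓ ≤ s₁ / 2 := hℓe ▸ min_le_right _ _
  have h1 : Tendsto (fun s => qq c θ x k l K s₁ t - 2 * Real.sqrt ((s₁ - s) / ℓ)) (𝓝[<] s₁)
      (𝓝 (qq c θ x k l K s₁ t)) := by
    have h2 : Continuous (fun s => qq c θ x k l K s₁ t - 2 * Real.sqrt ((s₁ - s) / ℓ)) := by
      fun_prop
    have h3 := h2.tendsto s₁
    simp only [sub_self, zero_div, Real.sqrt_zero, mul_zero, sub_zero] at h3
    exact h3.mono_left nhdsWithin_le_nhds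
  have h4 : ∀ᶠ s in 𝓝[<] s₁, qq c θ x k l K s t ≤ qq c θ x k l K s₁ t ∧
      qq c θ x k l K s₁ t ≤ qq c θ x k l K s t + 2 * Real.sqrt ((s₁ - s) / ℓ) := by
    have h5 : Ioo (s₁ / 2) s₁ ∈ 𝓝[<] s₁ := Ioo_mem_nhdsLT (by linarith)
    filter_upwards [h5] with s hs5
    have := hx l
    exact modL hM hK hkl hx s s₁ t ℓ (by linarith [hs5.1]) hs5.2.le ht hℓ hℓk
      (Or.inl (by linarith [hs5.1]))
  refine tendsto_of_tendsto_of_tendsto_of_le_of_le' h1 tendsto_const_nhds ?_ ?_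
  · filter_upwards [h4] with s hs6
    linarith [hs6.2]
  · filter_upwards [h4] with s hs6
    exact hs6.1

lemma tendL (hM : StarMod) (hK : SegUnion K) (hkl : k ≠ l) (hx : ∀ j, 0 ≤ x j) (hxk : 0 < x k)
    (t : ℝ) (ht : 0 ≤ t) :
    Tendsto (fun s => qq c θ x k l K s t) (𝓝[>] 0) (𝓝 (qq c θ x k l K 0 t)) := by
  obtain ⟨ℓ, hℓ, hℓk, hℓl⟩ : ∃ ℓ, 0 < ℓ ∧ ℓ ≤ x k ∧ (ℓ ≤ x l + 0 ∨ x l + 0 = 0) := by
    rcases (hx l).eq_or_lt with h | h
    · exact ⟨x k, hxk, le_rfl, Or.inr (by rw [add_zero]; exact h.symm)⟩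
    · exact ⟨min (x k) (x l), lt_min hxk h, min_le_left _ _,
        Or.inl (by rw [add_zero]; exact min_le_right _ _)⟩
  have h1 : Tendsto (fun s => qq c θ x k l K 0 t + 2 * Real.sqrt ((s - 0) / ℓ)) (𝓝[>] 0)
      (𝓝 (qq c θ x k l K 0 t)) := by
    have h2 : Continuous (fun s => qq c θ x k l K 0 t + 2 * Real.sqrt ((s - 0) / ℓ)) := by
      fun_prop
    have h3 := h2.tendsto 0
    simp only [sub_self, zero_div, Real.sqrt_zero, mul_zero, add_zero] at h3
    exact h3.mono_left nhdsWithin_le_nhds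
  have h4 : ∀ᶠ s in 𝓝[>] (0 : ℝ), qq c θ x k l K 0 t ≤ qq c θ x k l K s t ∧
      qq c θ x k l K s t ≤ qq c θ x k l K 0 t + 2 * Real.sqrt ((s - 0) / ℓ) := by
    filter_upwards [self_mem_nhdsWithin] with s hs5
    exact modL hM hK hkl hx 0 s t ℓ le_rfl (le_of_lt hs5) ht hℓ hℓk hℓl
  refine tendsto_of_tendsto_of_tendsto_of_le_of_le' tendsto_const_nhds h1 ?_ ?_
  · filter_upwards [h4] with s hs6
    exact hs6.1
  · filter_upwards [h4] with s hs6
    exact hs6.2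

end Growth

open Growth in
theorem s_Growth : SQK → StarMod → GridLem → Growth := by
  intro hS hM hG N c θ x k l h s₁ K hθ hkl hx hxk hh hs₁ hK hd
  have hd' : ∀ s, 0 ≤ s → s < s₁ → Disjoint K (starSet c θ (vv x k l s h)) := hd
  have hstep := step hS hM hG hθ hkl hx hxk h s₁ hh hK hd'
  have hR : ∀ t, 0 ≤ t → Tendsto (fun s => Real.exp (qq c θ x k l K s t)) (𝓝[<] s₁)
      (𝓝 (Real.exp (qq c θ x k l K s₁ t))) := fun t ht =>
    (Real.continuous_exp.tendsto _).comp (tendR hM hK hkl hx hxk s₁ t hs₁ ht)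
  have hL : ∀ t, 0 ≤ t → Tendsto (fun s => Real.exp (qq c θ x k l K s t)) (𝓝[>] 0)
      (𝓝 (Real.exp (qq c θ x k l K 0 t))) := fun t ht =>
    (Real.continuous_exp.tendsto _).comp (tendL hM hK hkl hx hxk t ht)
  have h1 : ∀ s₀, 0 < s₀ → s₀ < s₁ →
      Real.exp (qq c θ x k l K s₁ h) - Real.exp (qq c θ x k l K s₁ 0) ≤
        Real.exp (qq c θ x k l K s₀ h) - Real.exp (qq c θ x k l K s₀ 0) := by
    intro s₀ h0 h01
    refine le_of_tendsto ((hR h hh.le).sub (hR 0 le_rfl)) ?_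
    filter_upwards [Ioo_mem_nhdsLT h01] with s' hs'
    exact hstep s₀ s' h0 hs'.1 hs'.2
  have h2 : Real.exp (qq c θ x k l K s₁ h) - Real.exp (qq c θ x k l K s₁ 0) ≤
      Real.exp (qq c θ x k l K 0 h) - Real.exp (qq c θ x k l K 0 0) := by
    refine ge_of_tendsto ((hL h hh.le).sub (hL 0 le_rfl)) ?_
    filter_upwards [Ioo_mem_nhdsGT hs₁] with s₀ hs₀
    exact h1 s₀ hs₀.1 hs₀.2
  have e1 : vv x k l s₁ 0 = x + Pi.single l s₁ := by
    unfold vv
    rw [Pi.single_zero, add_zero]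
  have e2 : vv x k l 0 h = x + Pi.single k h := by
    unfold vv
    rw [Pi.single_zero, add_zero]
  have e3 : vv x k l 0 0 = x := by
    unfold vv
    rw [Pi.single_zero, Pi.single_zero, add_zero, add_zero]
  unfold qq at h2
  rw [e1, e2, e3] at h2
  unfold cp
  exact h2

end Pool.MP_31392c_an
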