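import Pool.Agent.Lib.MP_31392c_an.Full.SpecC

/-!
# MP_31392c_an: MBdry, first part (one arc)
-/

set_option autoImplicit false

open MeasureTheory Set Filter Topology Metric

namespace Pool.MP_31392c_an

namespace MBdryAux

/-- the point `e^{it}` -/
noncomputable def eu (t : ℝ) : ℂ := Complex.exp ((t : ℂ) * Complex.I)

/-- the point `r e^{it}` -/
noncomputable def pt (r t : ℝ) : ℂ := (r : ℂ) * Complex.exp ((t : ℂ) * Complex.I)

theorem norm_eu (t : ℝ) : ‖eu t‖ = 1 := Complex.norm_exp_ofReal_mul_I t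

theorem eu_ne (t : ℝ) : eu t ≠ 0 := Complex.exp_ne_zero _

theorem norm_pt {r t : ℝ} (hr : 0 ≤ r) : ‖pt r t‖ = r := by
  unfold pt
  rw [norm_mul, Complex.norm_exp_ofReal_mul_I, mul_one, Complex.norm_real, Real.norm_eq_abs,
    abs_of_nonneg hr]

theorem pt_one (t : ℝ) : pt 1 t = eu t := by
  unfold pt eu
  rw [Complex.ofReal_one, one_mul]

theorem eu_periodic : Function.Periodic eu (2 * Real.pi) := by
  intro t
  unfold eu
  rw [Complex.ofReal_add, add_mul, Complex.exp_add]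
  have : Complex.exp (((2 * Real.pi : ℝ) : ℂ) * Complex.I) = 1 := by
    push_cast
    exact Complex.exp_two_pi_mul_I
  rw [this, mul_one]

theorem pt_periodic (r : ℝ) : Function.Periodic (pt r) (2 * Real.pi) := by
  intro t
  have := eu_periodic t
  unfold eu at this
  unfold pt
  rw [this]

theorem continuous_pt : Continuous (fun x : ℝ × ℝ => pt x.1 x.2) := by
  unfold pt
  fun_prop

theorem continuous_eu : Continuous eu := by
  unfold eu
  fun_prop

theorem hasDerivAt_pt_r (r t : ℝ) : HasDerivAt (fun s => pt s t) (eu t) r := by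
  unfold pt eu
  have h := (Complex.ofRealCLM.hasDerivAt (x := r)).mul_const (Complex.exp ((t : ℂ) * Complex.I))
  simpa using h

theorem hasDerivAt_pt_t (r t : ℝ) : HasDerivAt (fun s => pt r s) ((r : ℂ) * (Complex.I * eu t)) t := by
  unfold pt eu
  have h0 : HasDerivAt (fun s : ℝ => (s : ℂ) * Complex.I) Complex.I t := by
    simpa using (Complex.ofRealCLM.hasDerivAt (x := t)).mul_const Complex.I
  have h := (h0.cexp).const_mul (r : ℂ)
  refine h.congr_deriv ?_
  ring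

/-- polar coordinates near a point -/
theorem polar_near {r t : ℝ} (hr : 0 < r) {α β r₀ : ℝ} (h1 : r₀ < r) (h2 : r < 1)
    (ht : t ∈ Ioo α β) :
    ∀ᶠ w in 𝓝 (pt r t), ∃ r' t' : ℝ, w = pt r' t' ∧ r₀ < r' ∧ r' ≤ 1 ∧ t' ∈ Ioo α β := by
  have hne : pt r t ≠ 0 := by
    intro h
    have := norm_pt (t := t) hr.le
    rw [h, norm_zero] at this
    exact hr.ne this
  have hc1 : ContinuousAt (fun w : ℂ => ‖w‖) (pt r t) := continuous_norm.continuousAt
  have hc2 : ContinuousAt (fun w : ℂ => t + Complex.arg (w / pt r t)) (pt r t) := by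
    apply ContinuousAt.add continuousAt_const
    apply ContinuousAt.comp (g := Complex.arg)
    · rw [div_self hne]
      exact Complex.continuousAt_arg (by simp)
    · exact (continuous_id.div_const _).continuousAt
  have e1 : ∀ᶠ w in 𝓝 (pt r t), ‖w‖ ∈ Ioo r₀ 1 := by
    apply hc1.eventually_mem
    apply Ioo_mem_nhds
    · simp only [norm_pt hr.le]; exact h1
    · simp only [norm_pt hr.le]; exact h2
  have e2 : ∀ᶠ w in 𝓝 (pt r t), t + Complex.arg (w / pt r t) ∈ Ioo α β := by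
    apply hc2.eventually_mem
    apply Ioo_mem_nhds
    · simp only [div_self hne, Complex.arg_one, add_zero]; exact ht.1
    · simp only [div_self hne, Complex.arg_one, add_zero]; exact ht.2
  filter_upwards [e1, e2] with w hw1 hw2
  refine ⟨‖w‖, t + Complex.arg (w / pt r t), ?_, hw1.1, hw1.2.le, hw2⟩
  have h3 : w = pt r t * (w / pt r t) := by field_simp
  have h4 := Complex.norm_mul_exp_arg_mul_I (w / pt r t)
  have h5 : ‖w / pt r t‖ = ‖w‖ / r := by rw [norm_div, norm_pt hr.le]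
  rw [h5] at h4
  conv_lhs => rw [h3, ← h4]
  unfold pt
  rw [Complex.ofReal_add, add_mul, Complex.exp_add]
  have hr' : (r : ℂ) ≠ 0 := by exact_mod_cast hr.ne'
  push_cast
  field_simp

theorem strip (hB : BdryReg) {V a : ℂ → ℝ} {r₀ α β p q : ℝ} (hV : ContDiff ℝ 1 V) (h0 : 0 < r₀)
    (h1 : r₀ < 1) (hs : ∀ w, r₀ ≤ ‖w‖ → V w = 0) (hc : ContinuousOn a (closedBall 0 1))
    (hh : VHarm V a (ball 0 1)) (hαβ : α < β) (hβ : β ≤ α + 2 * Real.pi)
    (hz : ∀ t ∈ Ioo α β, a (eu t) = 0) (hpos : ∀ z ∈ closedBall (0 : ℂ) 1, 0 ≤ a z)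
    (hp : α < p) (hq : q < β) :
    ∃ (C r₂ : ℝ) (g : ℝ → ℝ), 0 ≤ C ∧ 0 < r₂ ∧ r₂ < 1 ∧
      (∀ r t, r₂ ≤ r → r < 1 → t ∈ Icc p q →
        a (pt r t) ≤ C * (1 - r) ∧ ‖fderiv ℝ a (pt r t)‖ ≤ C) ∧
      (∀ t ∈ Icc p q, g t ≤ 0 ∧ a (eu t) = 0 ∧
        Tendsto (fun r => dR a r t) (𝓝[<] 1) (𝓝 (g t))) := by
  obtain ⟨A, hA1, hA2⟩ := hB V a r₀ α β hV h0 h1 hs hc hh hαβ hβ hz
  have hA1' : ∀ r t : ℝ, r₀ < r → r * r₀ < 1 → t ∈ Ioo α β → ContDiffAt ℝ 1 A (pt r t) := hA1
  have hA2' : ∀ r t : ℝ, r₀ < r → r ≤ 1 → t ∈ Ioo α β → A (pt r t) = a (pt r t) := hA2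
  set r₂ := (1 + r₀) / 2 with hr₂
  have hr20 : r₀ < r₂ := by rw [hr₂]; linarith
  have hr21 : r₂ < 1 := by rw [hr₂]; linarith
  have hr2p : 0 < r₂ := by linarith
  have hI : ∀ t ∈ Icc p q, t ∈ Ioo α β := fun t ht => ⟨by linarith [ht.1], by linarith [ht.2]⟩
  have hrr : ∀ r : ℝ, r₂ ≤ r → r ≤ 1 → r * r₀ < 1 := by
    intro r hr hr'
    nlinarith
  -- bound of the derivative of `A`
  have hcomp : IsCompact ((fun x : ℝ × ℝ => pt x.1 x.2) '' (Icc r₂ 1 ×ˢ Icc p q)) :=
    (isCompact_Icc.prod isCompact_Icc).image continuous_pt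
  have hfc : ContinuousOn (fderiv ℝ A) ((fun x : ℝ × ℝ => pt x.1 x.2) '' (Icc r₂ 1 ×ˢ Icc p q)) := by
    rintro z ⟨⟨r, t⟩, ⟨hr, ht⟩, rfl⟩
    have h2 := hA1' r t (by linarith [hr.1]) (hrr r hr.1 hr.2) (hI t ht)
    exact ((h2.fderiv_right (m := 0) (by norm_num)).continuousAt).continuousWithinAt
  obtain ⟨C₀, hC₀⟩ := hcomp.exists_bound_of_continuousOn hfc
  set C := max C₀ 0 with hC
  have hCC : ∀ r t, r₂ ≤ r → r ≤ 1 → t ∈ Icc p q → ‖fderiv ℝ A (pt r t)‖ ≤ C := by
    intro r t hr hr' ht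
    exact (hC₀ _ ⟨(r, t), ⟨⟨hr, hr'⟩, ht⟩, rfl⟩).trans (le_max_left _ _)
  have hC0 : 0 ≤ C := le_max_right _ _
  have hder : ∀ r t, r₂ ≤ r → r ≤ 1 → t ∈ Icc p q →
      HasDerivAt (fun s => A (pt s t)) (fderiv ℝ A (pt r t) (eu t)) r := by
    intro r t hr hr' ht
    have h2 := (hA1' r t (by linarith) (hrr r hr hr') (hI t ht)).differentiableAt (by norm_num)
    exact h2.hasFDerivAt.comp_hasDerivAt r (hasDerivAt_pt_r r t)
  have hfd : ∀ r t, r₂ ≤ r → r < 1 → t ∈ Icc p q → fderiv ℝ a (pt r t) = fderiv ℝ A (pt r t) := by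
    intro r t hr hr' ht
    apply Filter.EventuallyEq.fderiv_eq
    filter_upwards [polar_near (r := r) (t := t) (by linarith) (by linarith : r₀ < r) hr' (hI t ht)]
      with w hw
    obtain ⟨r', t', rfl, h3, h4, h5⟩ := hw
    exact (hA2' r' t' h3 h4 h5).symm
  refine ⟨C, r₂, fun t => fderiv ℝ A (pt 1 t) (eu t), hC0, hr2p, hr21, ?_, ?_⟩
  · intro r t hr hr' ht
    refine ⟨?_, by rw [hfd r t hr hr' ht]; exact hCC r t hr hr'.le ht⟩
    have h3 := norm_image_sub_le_of_norm_deriv_le_segment' (f := fun s => A (pt s t))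
      (f' := fun s => fderiv ℝ A (pt s t) (eu t)) (a := r) (b := 1) (C := C)
      (fun s hs => (hder s t (hr.trans hs.1) hs.2 ht).hasDerivWithinAt)
      (fun s hs => by
        refine (ContinuousLinearMap.le_opNorm _ _).trans ?_
        rw [norm_eu, mul_one]
        exact hCC s t (hr.trans hs.1) hs.2.le ht) 1 ⟨hr'.le, le_rfl⟩
    have h4 : A (pt 1 t) = 0 := by
      rw [hA2' 1 t h1 le_rfl (hI t ht), pt_one]
      exact hz t (hI t ht)
    simp only [h4] at h3
    rw [hA2' r t (by linarith) hr'.le (hI t ht), zero_sub, norm_neg] at h3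
    exact (le_abs_self _).trans h3
  · intro t ht
    refine ⟨?_, hz t (hI t ht), ?_⟩
    · have h3 := hder 1 t hr21.le le_rfl ht
      rw [hasDerivAt_iff_tendsto_slope] at h3
      have h4 : Tendsto (slope (fun s => A (pt s t)) 1) (𝓝[<] 1)
          (𝓝 (fderiv ℝ A (pt 1 t) (eu t))) := by
        apply h3.mono_left
        apply nhdsWithin_mono
        intro x hx
        exact ne_of_lt hx
      apply le_of_tendsto h4
      have h5 : Ioo r₂ 1 ∈ 𝓝[<] (1 : ℝ) := Ioo_mem_nhdsLT hr21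
      filter_upwards [h5] with s hs
      rw [slope_def_field]
      have h6 : A (pt 1 t) = 0 := by
        rw [hA2' 1 t h1 le_rfl (hI t ht), pt_one]
        exact hz t (hI t ht)
      have h7 : 0 ≤ A (pt s t) := by
        rw [hA2' s t (by linarith [hs.1]) hs.2.le (hI t ht)]
        apply hpos
        rw [mem_closedBall_zero_iff, norm_pt (by linarith [hs.1])]
        exact hs.2.le
      rw [h6, sub_zero]
      exact div_nonpos_of_nonneg_of_nonpos h7 (by linarith [hs.2])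
    · have h3 : ContinuousAt (fderiv ℝ A) (pt 1 t) :=
        ((hA1' 1 t h1 (by linarith) (hI t ht)).fderiv_right (m := 0) (by norm_num)).continuousAt
      have h4 : Tendsto (fun r => fderiv ℝ A (pt r t) (eu t)) (𝓝 1)
          (𝓝 (fderiv ℝ A (pt 1 t) (eu t))) := by
        have h5 : ContinuousAt (fun r => pt r t) 1 := (hasDerivAt_pt_r 1 t).continuousAt
        have h6 : ContinuousAt (fun r => fderiv ℝ A (pt r t)) 1 :=
          ContinuousAt.comp (g := fderiv ℝ A) h3 h5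
        exact (h6.clm_apply continuousAt_const).tendsto
      apply (h4.mono_left nhdsWithin_le_nhds).congr'
      have h5 : Ioo r₂ 1 ∈ 𝓝[<] (1 : ℝ) := Ioo_mem_nhdsLT hr21
      filter_upwards [h5] with s hs
      have h6 := hfd s t hs.1.le hs.2 ht
      rw [← h6]
      rfl

end MBdryAux

end Pool.MP_31392c_an
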