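import Pool.Agent.Lib.MP_31392c_an.Full.MBdryA

/-!
# MP_31392c_an: MBdry, second part (limits on one arc)
-/

set_option autoImplicit false

open MeasureTheory Set Filter Topology Metric

namespace Pool.MP_31392c_an

namespace MBdryAux

theorem contFd {V a : ℂ → ℝ} (hh : VHarm V a (ball 0 1)) :
    ContinuousOn (fderiv ℝ a) (ball (0 : ℂ) 1) := by
  intro z hz
  exact (((hh z hz).1.fderiv_right (m := 1) (by norm_num)).continuousAt).continuousWithinAt

theorem pt_mem_ball {r t : ℝ} (hr : 0 ≤ r) (hr1 : r < 1) : pt r t ∈ ball (0 : ℂ) 1 := by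
  rw [mem_ball_zero_iff, norm_pt hr]
  exact hr1

theorem pt_mem_cball {r t : ℝ} (hr : 0 ≤ r) (hr1 : r ≤ 1) : pt r t ∈ closedBall (0 : ℂ) 1 := by
  rw [mem_closedBall_zero_iff, norm_pt hr]
  exact hr1

theorem continuous_comp_pt {b : ℂ → ℝ} (hc : ContinuousOn b (closedBall 0 1)) {r : ℝ} (hr : 0 ≤ r)
    (hr1 : r ≤ 1) : Continuous (fun t => b (pt r t)) := by
  have h1 : Continuous (fun t => pt r t) := continuous_pt.comp (by fun_prop : Continuous fun t : ℝ => (r, t))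
  exact hc.comp_continuous h1 (fun t => pt_mem_cball hr hr1)

theorem continuous_dR {V a : ℂ → ℝ} (hh : VHarm V a (ball 0 1)) {r : ℝ} (hr : 0 ≤ r)
    (hr1 : r < 1) : Continuous (fun t => dR a r t) := by
  have h1 : Continuous (fun t => pt r t) := continuous_pt.comp (by fun_prop : Continuous fun t : ℝ => (r, t))
  have h2 : Continuous (fun t => fderiv ℝ a (pt r t)) :=
    (contFd hh).comp_continuous h1 (fun t => pt_mem_ball hr hr1)
  exact h2.clm_apply continuous_eu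

theorem abs_dR_le {a : ℂ → ℝ} (r t : ℝ) : |dR a r t| ≤ ‖fderiv ℝ a (pt r t)‖ := by
  have h := ContinuousLinearMap.le_opNorm (fderiv ℝ a (pt r t)) (eu t)
  rw [norm_eu, mul_one] at h
  exact h

/-- the conclusion of GradSmall -/
def GS (b : ℂ → ℝ) : Prop :=
  ∀ ε > 0, ∃ δ > 0, ∀ z : ℂ, 1 - δ < ‖z‖ → ‖z‖ < 1 → ‖fderiv ℝ b z‖ * (1 - ‖z‖) ≤ ε

theorem GS.ev {b : ℂ → ℝ} (h : GS b) {ε : ℝ} (hε : 0 < ε) :
    ∀ᶠ r : ℝ in 𝓝[<] 1, ∀ t, ‖fderiv ℝ b (pt r t)‖ * (1 - r) ≤ ε := by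
  obtain ⟨δ, hδ, hd⟩ := h ε hε
  have h5 : Ioo (max 0 (1 - δ)) 1 ∈ 𝓝[<] (1 : ℝ) :=
    Ioo_mem_nhdsLT (max_lt one_pos (by linarith))
  filter_upwards [h5] with r hr t
  have hr0 : 0 < r := lt_of_le_of_lt (le_max_left _ _) hr.1
  have hr1 : 1 - δ < r := lt_of_le_of_lt (le_max_right _ _) hr.1
  have h6 := hd (pt r t) (by rw [norm_pt hr0.le]; exact hr1) (by rw [norm_pt hr0.le]; exact hr.2)
  rw [norm_pt hr0.le] at h6
  exact h6

/-- the conclusion of `strip` -/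
def Str (a : ℂ → ℝ) (p q C r₂ : ℝ) (g : ℝ → ℝ) : Prop :=
  0 ≤ C ∧ 0 < r₂ ∧ r₂ < 1 ∧
      (∀ r t, r₂ ≤ r → r < 1 → t ∈ Icc p q →
        a (pt r t) ≤ C * (1 - r) ∧ ‖fderiv ℝ a (pt r t)‖ ≤ C) ∧
      (∀ t ∈ Icc p q, g t ≤ 0 ∧ a (eu t) = 0 ∧
        Tendsto (fun r => dR a r t) (𝓝[<] 1) (𝓝 (g t)))

theorem bdd {b : ℂ → ℝ} (hc : ContinuousOn b (closedBall 0 1)) :
    ∃ m, 0 ≤ m ∧ ∀ z ∈ closedBall (0 : ℂ) 1, |b z| ≤ m := by
  obtain ⟨m, hm⟩ := (isCompact_closedBall (0 : ℂ) 1).exists_bound_of_continuousOn hc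
  exact ⟨max m 0, le_max_right _ _, fun z hz => (hm z hz).trans (le_max_left _ _)⟩

theorem lim1 {V a b : ℂ → ℝ} {p q C r₂ t₁ t₂ : ℝ} {g : ℝ → ℝ} (hs : Str a p q C r₂ g) (hb : GS b)
    (hca : ContinuousOn a (closedBall 0 1)) (hhb : VHarm V b (ball 0 1))
    (hpos : ∀ z ∈ closedBall (0 : ℂ) 1, 0 ≤ a z) (h1 : p ≤ t₁) (h12 : t₁ ≤ t₂) (h2 : t₂ ≤ q) :
    Tendsto (fun r => ∫ t in t₁..t₂, a (pt r t) * dR b r t) (𝓝[<] 1) (𝓝 0) := by
  obtain ⟨hC, hr₂, hr₂1, hs1, hs2⟩ := hs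
  have hev : ∀ ε > 0, ∀ᶠ r : ℝ in 𝓝[<] 1, ∀ t ∈ Icc p q, |a (pt r t) * dR b r t| ≤ C * ε := by
    intro ε hε
    have h5 : Ioo r₂ 1 ∈ 𝓝[<] (1 : ℝ) := Ioo_mem_nhdsLT hr₂1
    filter_upwards [h5, hb.ev hε] with r hr hgr t ht
    have h6 := hs1 r t hr.1.le hr.2 ht
    have h7 : 0 ≤ a (pt r t) := hpos _ (pt_mem_cball (by linarith [hr.1]) hr.2.le)
    rw [abs_mul, abs_of_nonneg h7]
    calc a (pt r t) * |dR b r t| ≤ (C * (1 - r)) * ‖fderiv ℝ b (pt r t)‖ :=
          mul_le_mul h6.1 (abs_dR_le r t) (abs_nonneg _)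
            (mul_nonneg hC (by linarith [hr.2]))
      _ = C * (‖fderiv ℝ b (pt r t)‖ * (1 - r)) := by ring
      _ ≤ C * ε := mul_le_mul_of_nonneg_left (hgr t) hC
  have hlim : Tendsto (fun r => ∫ t in t₁..t₂, a (pt r t) * dR b r t) (𝓝[<] 1)
      (𝓝 (∫ t in t₁..t₂, (0 : ℝ))) := by
    apply intervalIntegral.tendsto_integral_filter_of_dominated_convergence (fun _ => C * 1)
    · have h5 : Ioo (0 : ℝ) 1 ∈ 𝓝[<] (1 : ℝ) := Ioo_mem_nhdsLT one_pos
      filter_upwards [h5] with r hr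
      exact ((continuous_comp_pt hca hr.1.le hr.2.le).mul
        (continuous_dR hhb hr.1.le hr.2)).aestronglyMeasurable
    · filter_upwards [hev 1 one_pos] with r hr
      refine Filter.Eventually.of_forall ?_
      intro t ht
      rw [uIoc_of_le h12] at ht
      rw [Real.norm_eq_abs]
      exact hr t ⟨by linarith [ht.1], by linarith [ht.2]⟩
    · exact intervalIntegrable_const
    · refine Filter.Eventually.of_forall ?_
      intro t ht
      rw [uIoc_of_le h12] at ht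
      have ht' : t ∈ Icc p q := ⟨by linarith [ht.1], by linarith [ht.2]⟩
      rw [Metric.tendsto_nhds]
      intro ε hε
      have h6 : 0 < ε / (C + 1) := by positivity
      filter_upwards [hev _ h6] with r hr
      rw [Real.dist_eq, sub_zero]
      refine lt_of_le_of_lt (hr t ht') ?_
      rw [mul_div_assoc', div_lt_iff₀ (by linarith)]
      nlinarith
  simpa using hlim

theorem lim2 {V a b : ℂ → ℝ} {p q C r₂ t₁ t₂ : ℝ} {g : ℝ → ℝ} (hs : Str a p q C r₂ g)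
    (hcb : ContinuousOn b (closedBall 0 1)) (hha : VHarm V a (ball 0 1))
    (h1 : p ≤ t₁) (h12 : t₁ ≤ t₂) (h2 : t₂ ≤ q) :
    Tendsto (fun r => ∫ t in t₁..t₂, b (pt r t) * dR a r t) (𝓝[<] 1)
      (𝓝 (∫ t in t₁..t₂, b (eu t) * g t)) := by
  obtain ⟨hC, hr₂, hr₂1, hs1, hs2⟩ := hs
  obtain ⟨m, hm, hmb⟩ := bdd hcb
  apply intervalIntegral.tendsto_integral_filter_of_dominated_convergence (fun _ => m * C)
  · have h5 : Ioo (0 : ℝ) 1 ∈ 𝓝[<] (1 : ℝ) := Ioo_mem_nhdsLT one_pos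
    filter_upwards [h5] with r hr
    exact ((continuous_comp_pt hcb hr.1.le hr.2.le).mul
      (continuous_dR hha hr.1.le hr.2)).aestronglyMeasurable
  · have h5 : Ioo r₂ 1 ∈ 𝓝[<] (1 : ℝ) := Ioo_mem_nhdsLT hr₂1
    filter_upwards [h5] with r hr
    refine Filter.Eventually.of_forall ?_
    intro t ht
    rw [uIoc_of_le h12] at ht
    rw [Real.norm_eq_abs, abs_mul]
    have h6 := hs1 r t hr.1.le hr.2 ⟨by linarith [ht.1], by linarith [ht.2]⟩
    exact mul_le_mul (hmb _ (pt_mem_cball (by linarith [hr.1]) hr.2.le))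
      ((abs_dR_le r t).trans h6.2) (abs_nonneg _) hm
  · exact intervalIntegrable_const
  · refine Filter.Eventually.of_forall ?_
    intro t ht
    rw [uIoc_of_le h12] at ht
    have ht' : t ∈ Icc p q := ⟨by linarith [ht.1], by linarith [ht.2]⟩
    refine Tendsto.mul ?_ (hs2 t ht').2.2
    have h3 : ContinuousWithinAt b (closedBall 0 1) (eu t) := hcb _ (by
      rw [mem_closedBall_zero_iff, norm_eu])
    have h4 : Tendsto (fun r => pt r t) (𝓝[<] 1) (𝓝[closedBall 0 1] (eu t)) := by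
      rw [tendsto_nhdsWithin_iff]
      constructor
      · have h5 : ContinuousAt (fun r => pt r t) 1 := (hasDerivAt_pt_r 1 t).continuousAt
        have h6 := h5.tendsto
        rw [pt_one] at h6
        exact h6.mono_left nhdsWithin_le_nhds
      · have h5 : Ioo (0 : ℝ) 1 ∈ 𝓝[<] (1 : ℝ) := Ioo_mem_nhdsLT one_pos
        filter_upwards [h5] with r hr
        exact pt_mem_cball hr.1.le hr.2.le
    exact h3.tendsto.comp h4

theorem lin_decomp (L : ℂ →L[ℝ] ℝ) (v : ℂ) : L v = v.re * L 1 + v.im * L Complex.I := by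
  have h : v = v.re • (1 : ℂ) + v.im • Complex.I := by
    rw [Complex.real_smul, Complex.real_smul, mul_one]
    exact (Complex.re_add_im v).symm
  conv_lhs => rw [h]
  rw [map_add, map_smul, map_smul, smul_eq_mul, smul_eq_mul]

theorem eu_re (t : ℝ) : (eu t).re = Real.cos t := by
  unfold eu
  rw [Complex.exp_ofReal_mul_I_re]

theorem eu_im (t : ℝ) : (eu t).im = Real.sin t := by
  unfold eu
  rw [Complex.exp_ofReal_mul_I_im]

theorem dR_eq (a : ℂ → ℝ) (r t : ℝ) :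
    dR a r t = Real.cos t * dX a (pt r t) + Real.sin t * dY a (pt r t) := by
  have h := lin_decomp (fderiv ℝ a (pt r t)) (eu t)
  rw [eu_re, eu_im] at h
  exact h

/-- derivative along a circle -/
theorem circ_deriv {a b M : ℂ → ℝ} {r : ℝ} (t : ℝ) (hM : DifferentiableAt ℝ M (pt r t))
    (hX : dX M (pt r t) = -(a (pt r t) * dY b (pt r t) - b (pt r t) * dY a (pt r t)))
    (hY : dY M (pt r t) = a (pt r t) * dX b (pt r t) - b (pt r t) * dX a (pt r t)) :
    HasDerivAt (fun s => M (pt r s))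
      (r * (a (pt r t) * dR b r t) - r * (b (pt r t) * dR a r t)) t := by
  have h := hM.hasFDerivAt.comp_hasDerivAt t (hasDerivAt_pt_t r t)
  refine h.congr_deriv ?_
  rw [lin_decomp (fderiv ℝ M (pt r t))]
  have h1 : ((r : ℂ) * (Complex.I * eu t)).re = -(r * Real.sin t) := by
    simp [eu_re, eu_im]
  have h2 : ((r : ℂ) * (Complex.I * eu t)).im = r * Real.cos t := by
    simp [eu_re, eu_im]
  rw [h1, h2, dR_eq, dR_eq]
  unfold dX dY at *
  rw [hX, hY]
  ring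

/-- the boundary values of the stream function on the arc of `a` -/
theorem diff_arc {V a b M₀ M₁ : ℂ → ℝ} {p q C r₂ : ℝ} {g : ℝ → ℝ} (hs : Str a p q C r₂ g)
    (hb : GS b) (hca : ContinuousOn a (closedBall 0 1)) (hcb : ContinuousOn b (closedBall 0 1))
    (hha : VHarm V a (ball 0 1)) (hhb : VHarm V b (ball 0 1))
    (hpos : ∀ z ∈ closedBall (0 : ℂ) 1, 0 ≤ a z) (hM₁ : Continuous M₁)
    (hMM : ∀ z ∈ ball (0 : ℂ) 1, M₀ z = M₁ z)
    (hder : ∀ r t, 0 < r → r < 1 → HasDerivAt (fun s => M₀ (pt r s))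
      (r * (a (pt r t) * dR b r t) - r * (b (pt r t) * dR a r t)) t)
    {t₁ t₂ : ℝ} (h1 : p ≤ t₁) (h12 : t₁ ≤ t₂) (h2 : t₂ ≤ q) :
    M₁ (eu t₂) - M₁ (eu t₁) = -∫ t in t₁..t₂, b (eu t) * g t := by
  have e1 : ∀ t, Tendsto (fun r => M₁ (pt r t)) (𝓝[<] 1) (𝓝 (M₁ (eu t))) := by
    intro t
    have h5 : ContinuousAt (fun r => pt r t) 1 := (hasDerivAt_pt_r 1 t).continuousAt
    have h6 : Tendsto (fun r => pt r t) (𝓝 1) (𝓝 (eu t)) := by
      have := h5.tendsto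
      rwa [pt_one] at this
    exact ((hM₁.tendsto _).comp h6).mono_left nhdsWithin_le_nhds
  have e2 := (e1 t₂).sub (e1 t₁)
  have e3 : Tendsto (fun r : ℝ => r * (∫ t in t₁..t₂, a (pt r t) * dR b r t)
      - r * ∫ t in t₁..t₂, b (pt r t) * dR a r t) (𝓝[<] 1)
      (𝓝 (1 * 0 - 1 * ∫ t in t₁..t₂, b (eu t) * g t)) := by
    have hid : Tendsto (fun r : ℝ => r) (𝓝[<] 1) (𝓝 1) := tendsto_id.mono_left nhdsWithin_le_nhds
    exact (hid.mul (lim1 hs hb hca hhb hpos h1 h12 h2)).sub (hid.mul (lim2 hs hcb hha h1 h12 h2))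
  have e4 : (fun r => M₁ (pt r t₂) - M₁ (pt r t₁)) =ᶠ[𝓝[<] 1]
      (fun r : ℝ => r * (∫ t in t₁..t₂, a (pt r t) * dR b r t)
      - r * ∫ t in t₁..t₂, b (pt r t) * dR a r t) := by
    have h5 : Ioo (0 : ℝ) 1 ∈ 𝓝[<] (1 : ℝ) := Ioo_mem_nhdsLT one_pos
    filter_upwards [h5] with r hr
    have c1 : Continuous (fun t => a (pt r t) * dR b r t) :=
      (continuous_comp_pt hca hr.1.le hr.2.le).mul (continuous_dR hhb hr.1.le hr.2)
    have c2 : Continuous (fun t => b (pt r t) * dR a r t) :=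
      (continuous_comp_pt hcb hr.1.le hr.2.le).mul (continuous_dR hha hr.1.le hr.2)
    have c1' : Continuous (fun t => r * (a (pt r t) * dR b r t)) := continuous_const.mul c1
    have c2' : Continuous (fun t => r * (b (pt r t) * dR a r t)) := continuous_const.mul c2
    have h6 := intervalIntegral.integral_eq_sub_of_hasDerivAt (a := t₁) (b := t₂)
      (f := fun s => M₀ (pt r s)) (fun t _ => hder r t hr.1 hr.2)
      ((c1'.sub c2').intervalIntegrable _ _)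
    rw [intervalIntegral.integral_sub (c1'.intervalIntegrable _ _)
      (c2'.intervalIntegrable _ _), intervalIntegral.integral_const_mul,
      intervalIntegral.integral_const_mul] at h6
    rw [h6, hMM _ (pt_mem_ball hr.1.le hr.2), hMM _ (pt_mem_ball hr.1.le hr.2)]
  have e5 := tendsto_nhds_unique (e2.congr' e4) e3
  rw [e5]
  ring

end MBdryAux

end Pool.MP_31392c_an
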