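import Pool.Agent.Lib.MP_31392c_an.Full.SpecS

/-!
# MP_31392c_an full proof: existence of the star map
-/

set_option autoImplicit false

open MeasureTheory Set Filter Topology Metric

namespace Pool.MP_31392c_an

namespace StarMapExAux

variable {N : ℕ}

theorem pv_lt {θ : Fin N → ℝ} (hθ : Dirs θ) (j : Fin N) : pv θ j < θ j := by
  unfold pv
  split_ifs with h
  · have := hθ.2 j ⟨N - 1, Nat.sub_lt (Nat.lt_of_le_of_lt (Nat.zero_le _) j.isLt) Nat.one_pos⟩
    linarith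
  · apply hθ.1
    rw [Fin.lt_def]
    change j.val - 1 < j.val
    omega

theorem gam_pos {θ : Fin N → ℝ} (hθ : Dirs θ) (j : Fin N) : 0 < gam θ j :=
  div_pos (sub_pos.2 (pv_lt hθ j)) Real.pi_pos

theorem gam_sum (θ : Fin N → ℝ) (hN : 0 < N) : ∑ i, gam θ i = 2 := by
  obtain ⟨n, rfl⟩ : ∃ n, N = n + 1 := ⟨N - 1, by omega⟩
  have h1 : ∑ i, pv θ i = ∑ i, θ i - 2 * Real.pi := by
    rw [Fin.sum_univ_succ (fun i => pv θ i), Fin.sum_univ_castSucc (fun i => θ i)]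
    have h0 : pv θ 0 = θ (Fin.last n) - 2 * Real.pi := by
      unfold pv
      rw [if_pos (show ((0 : Fin (n + 1)) : ℕ) = 0 from rfl)]
      rfl
    have hs : ∀ i : Fin n, pv θ i.succ = θ i.castSucc := by
      intro i
      unfold pv
      rw [if_neg (by simp)]
      congr 1
    rw [h0, Finset.sum_congr rfl (fun i _ => hs i)]
    ring
  unfold gam
  rw [← Finset.sum_div, Finset.sum_sub_distrib, h1]
  have := Real.pi_pos.ne'
  field_simp
  ring

theorem lt_nx {τ : Fin N → ℝ} (hτ : Dirs τ) (j : Fin N) : τ j < nx τ j := by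
  unfold nx
  split_ifs with h
  · apply hτ.1
    rw [Fin.lt_def]
    change j.val < j.val + 1
    omega
  · exact hτ.2 _ j

theorem nx_le_add {τ : Fin N → ℝ} (hτ : Dirs τ) (i j : Fin N) :
    nx τ j ≤ τ i + 2 * Real.pi := by
  unfold nx
  split_ifs with h
  · exact (hτ.2 i _).le
  · have : τ ⟨0, Nat.lt_of_le_of_lt (Nat.zero_le _) j.isLt⟩ ≤ τ i := by
      apply hτ.1.monotone
      rw [Fin.le_def]
      exact Nat.zero_le _
    linarith

theorem nx_le {τ : Fin N → ℝ} (hτ : Dirs τ) {i j : Fin N} (hij : i < j) : nx τ i ≤ τ j := by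
  have hij' : i.val < j.val := hij
  unfold nx
  split_ifs with h
  · apply hτ.1.monotone
    rw [Fin.le_def]
    exact hij'
  · exfalso
    have := j.isLt
    omega

/-- every angle is in one of the arcs -/
theorem cover {τ : Fin N → ℝ} (hN : 0 < N) (s : ℝ) :
    ∃ j : Fin N, ∃ t ∈ Icc (τ j) (nx τ j), ∃ n : ℤ, s = -t + 2 * Real.pi * n := by
  classical
  let z : Fin N := ⟨0, hN⟩
  obtain ⟨t, ht, n, hn⟩ : ∃ t ∈ Ico (τ z) (τ z + 2 * Real.pi), ∃ n : ℤ,
      s = -t + 2 * Real.pi * n := by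
    refine ⟨toIcoMod Real.two_pi_pos (τ z) (-s), toIcoMod_mem_Ico _ _ _,
      -toIcoDiv Real.two_pi_pos (τ z) (-s), ?_⟩
    have h1 := self_sub_toIcoDiv_zsmul Real.two_pi_pos (τ z) (-s)
    rw [← h1, zsmul_eq_mul]
    push_cast
    ring
  let J : Finset (Fin N) := Finset.univ.filter (fun i => τ i ≤ t)
  have hJ : J.Nonempty := ⟨z, Finset.mem_filter.2 ⟨Finset.mem_univ _, ht.1⟩⟩
  obtain ⟨j, hj1, hj2⟩ : ∃ j ∈ J, ∀ i ∈ J, i ≤ j := ⟨J.max' hJ, J.max'_mem hJ, J.le_max'⟩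
  refine ⟨j, t, ⟨(Finset.mem_filter.1 hj1).2, ?_⟩, n, hn⟩
  unfold nx
  split_ifs with h
  · by_contra hcon
    push Not at hcon
    have h2 := hj2 ⟨j.val + 1, h⟩ (Finset.mem_filter.2 ⟨Finset.mem_univ _, hcon.le⟩)
    rw [Fin.le_def] at h2
    change j.val + 1 ≤ j.val at h2
    omega
  · exact ht.2.le

theorem cm_left {γ : Fin N → ℝ} (τ : Fin N → ℝ) (hγ : ∀ i, 0 < γ i) (j : Fin N) :
    cm γ τ (τ j) = 0 := by
  unfold cm
  apply Finset.prod_eq_zero (Finset.mem_univ j)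
  rw [sub_self, zero_div, Real.sin_zero, mul_zero, abs_zero, Real.zero_rpow (hγ j).ne']

theorem cm_right {γ : Fin N → ℝ} (τ : Fin N → ℝ) (hγ : ∀ i, 0 < γ i) (j : Fin N) :
    cm γ τ (nx τ j) = 0 := by
  unfold nx
  split_ifs with h
  · exact cm_left τ hγ _
  · unfold cm
    apply Finset.prod_eq_zero
      (Finset.mem_univ (⟨0, Nat.lt_of_le_of_lt (Nat.zero_le _) j.isLt⟩ : Fin N))
    rw [show (τ ⟨0, Nat.lt_of_le_of_lt (Nat.zero_le _) j.isLt⟩ + 2 * Real.pi
      - τ ⟨0, Nat.lt_of_le_of_lt (Nat.zero_le _) j.isLt⟩) / 2 = Real.pi by ring,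
      Real.sin_pi, mul_zero, abs_zero, Real.zero_rpow (hγ _).ne']

theorem cm_cont {γ : Fin N → ℝ} (τ : Fin N → ℝ) (hγ : ∀ i, 0 < γ i) : Continuous (cm γ τ) := by
  unfold cm
  apply continuous_finsetProd
  intro i _
  exact Continuous.rpow_const (by fun_prop) (fun _ => Or.inr (hγ i).le)

theorem cm_nonneg (γ τ : Fin N → ℝ) (t : ℝ) : 0 ≤ cm γ τ t :=
  Finset.prod_nonneg fun _ _ => Real.rpow_nonneg (abs_nonneg _) _

/-- near the ends of an arc the modulus is small -/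
theorem arc {γ τ : Fin N → ℝ} (hγ : ∀ i, 0 < γ i) (hτ : Dirs τ) (C : ℝ) (j : Fin N) (ρ : ℝ)
    (hρ : 0 < ρ) :
    ∃ a b : ℝ, τ j < a ∧ a < b ∧ b < nx τ j ∧
      ∀ t ∈ Icc (τ j) (nx τ j), (t ≤ a ∨ b ≤ t) → C * cm γ τ t ≤ ρ := by
  have hc : Continuous fun t => C * cm γ τ t := continuous_const.mul (cm_cont τ hγ)
  have hd : 0 < nx τ j - τ j := sub_pos.2 (lt_nx hτ j)
  have key : ∀ t₀, cm γ τ t₀ = 0 → ∃ δ > 0, ∀ t, |t - t₀| < δ → C * cm γ τ t ≤ ρ := by
    intro t₀ h0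
    have h1 : ∀ᶠ t in 𝓝 t₀, C * cm γ τ t < ρ := by
      apply hc.continuousAt.eventually_lt continuousAt_const
      rw [h0, mul_zero]
      exact hρ
    obtain ⟨δ, hδ, h2⟩ := Metric.eventually_nhds_iff.1 h1
    exact ⟨δ, hδ, fun t ht => (h2 (by rwa [Real.dist_eq])).le⟩
  obtain ⟨δ₁, hδ₁, h1⟩ := key _ (cm_left τ hγ j)
  obtain ⟨δ₂, hδ₂, h2⟩ := key _ (cm_right τ hγ j)
  obtain ⟨δ, hδ, hδa, hδb, hδc⟩ : ∃ δ > 0, δ < δ₁ ∧ δ < δ₂ ∧ 3 * δ ≤ nx τ j - τ j := by
    refine ⟨min (min δ₁ δ₂) (nx τ j - τ j) / 3, by positivity, ?_, ?_, ?_⟩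
    · have h3 : min (min δ₁ δ₂) (nx τ j - τ j) ≤ δ₁ :=
        (min_le_left _ _).trans (min_le_left _ _)
      linarith
    · have h3 : min (min δ₁ δ₂) (nx τ j - τ j) ≤ δ₂ :=
        (min_le_left _ _).trans (min_le_right _ _)
      linarith
    · have h3 : min (min δ₁ δ₂) (nx τ j - τ j) ≤ nx τ j - τ j := min_le_right _ _
      linarith
  refine ⟨τ j + δ, nx τ j - δ, by linarith, by linarith, by linarith, ?_⟩
  rintro t ⟨ht1, ht2⟩ (ht | ht)
  · apply h1
    rw [abs_lt]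
    constructor <;> linarith
  · apply h2
    rw [abs_lt]
    constructor <;> linarith

/-- positive arms -/
theorem pos_arms (h1 : StarParam) (h2 : SCircle) (h3 : SInj) (h4 : SImage) (h5 : StarConn)
    (hN : 2 ≤ N) (θ x : Fin N → ℝ) (k l : Fin N) (hθ : Dirs θ) (hkl : k ≠ l)
    (hx : ∀ j, 0 < x j) :
    ∃ (φ : ℂ → ℂ) (C : ℝ), StarMap (starSet 0 θ x) φ C ∧
    ∀ ρk ρl : ℝ, 0 < ρk → ρk < x k → 0 < ρl → ρl < x l →
      ∃ α₁ β₁ α₂ β₂ : ℝ, α₁ < β₁ ∧ β₁ < α₂ ∧ α₂ < β₂ ∧ β₂ < α₁ + 2 * Real.pi ∧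
        (∀ t ∈ Icc β₁ (α₁ + 2 * Real.pi), φ (Complex.exp ((t : ℂ) * Complex.I)) ∈
          starSet 0 θ (Function.update x l ρl)) ∧
        (∀ t ∈ Icc β₂ (α₂ + 2 * Real.pi), φ (Complex.exp ((t : ℂ) * Complex.I)) ∈
          starSet 0 θ (Function.update x k ρk)) := by
  have hN0 : 0 < N := by omega
  have hγ := gam_pos hθ
  have hγ2 := gam_sum θ hN0
  obtain ⟨τ, C, hτ, hC, hS, hcm⟩ := h1 N θ x (2 * (θ ⟨N - 1, by omega⟩ - Real.pi)) hN hθ hx
  have hcirc := h2 N hN θ τ C hθ hτ hS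
  obtain ⟨hdiff, hinj, hcont, hpole⟩ := h3 N (gam θ) τ C hC hγ hγ2
  set φ : ℂ → ℂ := scf (gam θ) τ C with hφ
  -- values on the circle
  have hval : ∀ s : ℝ, ∃ j : Fin N, ∃ t ∈ Icc (τ j) (nx τ j), ∃ n : ℤ,
      s = -t + 2 * Real.pi * n ∧ φ (Complex.exp ((s : ℂ) * Complex.I)) =
        ((C * cm (gam θ) τ t : ℝ) : ℂ) * Complex.exp ((θ j : ℂ) * Complex.I) := by
    intro s
    obtain ⟨j, t, ht, n, hn⟩ := cover (τ := τ) hN0 s
    refine ⟨j, t, ht, n, hn, ?_⟩
    rw [← hcirc j t ht]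
    congr 1
    rw [Complex.exp_eq_exp_iff_exists_int]
    refine ⟨n, ?_⟩
    rw [hn]
    push_cast
    ring
  have hnn : ∀ t, 0 ≤ C * cm (gam θ) τ t := fun t => mul_nonneg hC.le (cm_nonneg _ _ _)
  have hbdry : ∀ ζ : ℂ, ‖ζ‖ = 1 → φ ζ ∈ starSet 0 θ x := by
    intro ζ hζ
    have h6 : Complex.exp ((Complex.arg ζ : ℂ) * Complex.I) = ζ := by
      have := Complex.norm_mul_exp_arg_mul_I ζ
      rwa [hζ, Complex.ofReal_one, one_mul] at this
    obtain ⟨j, t, ht, n, hn, hv⟩ := hval (Complex.arg ζ)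
    rw [h6] at hv
    exact ⟨j, _, hnn t, (hcm j).1 t ht, by rw [hv, zero_add]⟩
  have honto : φ '' {ζ | ‖ζ‖ = 1} = starSet 0 θ x := by
    apply Subset.antisymm
    · rintro _ ⟨ζ, hζ, rfl⟩
      exact hbdry ζ hζ
    · rintro z ⟨j, r, hr0, hrx, hz⟩
      obtain ⟨t₁, ht₁, hmax⟩ := (hcm j).2
      have hcts : ContinuousOn (fun t => C * cm (gam θ) τ t) (Icc (τ j) t₁) :=
        (continuous_const.mul (cm_cont τ hγ)).continuousOn
      have hivt := intermediate_value_Icc ht₁.1.le hcts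
      have hr : r ∈ Icc (C * cm (gam θ) τ (τ j)) (C * cm (gam θ) τ t₁) := by
        rw [cm_left τ hγ, mul_zero, hmax]
        exact ⟨hr0, hrx⟩
      obtain ⟨t, ht, htr⟩ := hivt hr
      have htI : t ∈ Icc (τ j) (nx τ j) := ⟨ht.1, ht.2.trans ht₁.2.le⟩
      refine ⟨Complex.exp (-((t : ℂ) * Complex.I)), ?_, ?_⟩
      · change ‖Complex.exp (-((t : ℂ) * Complex.I))‖ = 1
        have h7 : -((t : ℂ) * Complex.I) = ((-t : ℝ) : ℂ) * Complex.I := by
          push_cast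
          ring
        rw [h7, Complex.norm_exp_ofReal_mul_I]
      · dsimp only at htr
        rw [hcirc j t htI, htr, hz, zero_add]
  have himage := h4 (starSet 0 θ x) φ (C : ℂ) (by exact_mod_cast hC.ne')
    (h5.1 N θ x hN0 fun j => (hx j).le) hdiff hinj hcont hpole honto
  refine ⟨φ, C, ⟨hC, hdiff, hpole, hcont, hinj, himage, hbdry⟩, ?_⟩
  -- arcs
  have harcs : ∀ (i : Fin N) (ρ a b : ℝ), 0 < ρ → τ i < a → a < b → b < nx τ i →
      (∀ t ∈ Icc (τ i) (nx τ i), (t ≤ a ∨ b ≤ t) → C * cm (gam θ) τ t ≤ ρ) → ∀ m : ℤ,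
      ∀ s ∈ Icc (2 * Real.pi * m - a) (2 * Real.pi * m - b + 2 * Real.pi),
        φ (Complex.exp ((s : ℂ) * Complex.I)) ∈ starSet 0 θ (Function.update x i ρ) := by
    intro i ρ a b _ _ _ _ hab m s hs
    obtain ⟨j, t, ht, n, hn, hv⟩ := hval s
    by_cases hji : j = i
    · subst hji
      have hout : t ≤ a ∨ b ≤ t := by
        by_contra hcon
        push Not at hcon
        have hpi := Real.pi_pos
        rcases le_or_gt n m with h8 | h8
        · have h9 : (n : ℝ) ≤ m := by exact_mod_cast h8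
          have h10 : 2 * Real.pi * n ≤ 2 * Real.pi * m :=
            mul_le_mul_of_nonneg_left h9 (by positivity)
          linarith [hs.1]
        · have h9 : (m : ℝ) + 1 ≤ n := by exact_mod_cast h8
          have h10 : 2 * Real.pi * (m + 1) ≤ 2 * Real.pi * n :=
            mul_le_mul_of_nonneg_left h9 (by positivity)
          linarith [hs.2]
      refine ⟨j, _, hnn t, ?_, by rw [hv, zero_add]⟩
      rw [Function.update_self]
      exact hab t ht hout
    · refine ⟨j, _, hnn t, ?_, by rw [hv, zero_add]⟩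
      rw [Function.update_of_ne hji]
      exact (hcm j).1 t ht
  intro ρk ρl hρk _ hρl _
  obtain ⟨al, bl, hl1, hl2, hl3, hl4⟩ := arc hγ hτ C l ρl hρl
  obtain ⟨ak, bk, hk1, hk2, hk3, hk4⟩ := arc hγ hτ C k ρk hρk
  have hA := harcs l ρl al bl hρl hl1 hl2 hl3 hl4 0
  have hpi := Real.pi_pos
  rcases lt_or_gt_of_ne hkl with hlt | hlt
  · have hB := harcs k ρk ak bk hρk hk1 hk2 hk3 hk4 0
    have h6 := nx_le hτ hlt
    have h7 := nx_le_add hτ k l
    refine ⟨-bl, -al, -bk, -ak, by linarith, by linarith, by linarith, by linarith, ?_, ?_⟩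
    · intro t ht
      apply hA
      simp only [Int.cast_zero, mul_zero, zero_sub]
      exact ht
    · intro t ht
      apply hB
      simp only [Int.cast_zero, mul_zero, zero_sub]
      exact ht
  · have hB := harcs k ρk ak bk hρk hk1 hk2 hk3 hk4 1
    have h6 := nx_le hτ hlt
    have h7 := nx_le_add hτ l k
    refine ⟨-bl, -al, 2 * Real.pi - bk, 2 * Real.pi - ak, by linarith, by linarith,
      by linarith, by linarith, ?_, ?_⟩
    · intro t ht
      apply hA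
      simp only [Int.cast_zero, mul_zero, zero_sub]
      exact ht
    · intro t ht
      apply hB
      simp only [Int.cast_one, mul_one]
      exact ht

end StarMapExAux

open StarMapExAux

theorem s_StarMapEx : StarParam → SCircle → SInj → SImage → StarConn → StarMapEx := by
  intro h1 h2 h3 h4 h5 N θ x k l hθ hkl hx hxk hxl
  classical
  let J : Finset (Fin N) := Finset.univ.filter (fun j => 0 < x j)
  have hJ : ∀ j, j ∈ J ↔ 0 < x j := fun j => by simp [J]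
  let e : Fin J.card ↪o Fin N := J.orderEmbOfFin rfl
  have he : ∀ i, 0 < x (e i) := fun i => (hJ _).1 (J.orderEmbOfFin_mem rfl i)
  have hsurj : ∀ j, 0 < x j → ∃ i, e i = j := by
    intro j hj
    have h6 : j ∈ (J : Set (Fin N)) := Finset.mem_coe.2 ((hJ j).2 hj)
    rw [← Finset.range_orderEmbOfFin J rfl] at h6
    exact h6
  obtain ⟨k', hk'⟩ := hsurj k hxk
  obtain ⟨l', hl'⟩ := hsurj l hxl
  have hkl' : k' ≠ l' := by
    rintro rfl
    exact hkl (hk'.symm.trans hl')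
  have hcard : 2 ≤ J.card := by
    have h6 := k'.isLt
    have h7 := l'.isLt
    have h8 : k'.val ≠ l'.val := fun h => hkl' (Fin.ext h)
    omega
  have hθ' : Dirs (θ ∘ e) :=
    ⟨hθ.1.comp e.strictMono, fun i j => hθ.2 (e i) (e j)⟩
  obtain ⟨φ, C, hmap, harc⟩ := pos_arms h1 h2 h3 h4 h5 hcard (θ ∘ e) (x ∘ e) k' l' hθ' hkl' he
  have hset : starSet 0 (θ ∘ e) (x ∘ e) = starSet 0 θ x := by
    apply Subset.antisymm
    · rintro z ⟨j, r, hr0, hr1, hz⟩
      exact ⟨e j, r, hr0, hr1, hz⟩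
    · rintro z ⟨j, r, hr0, hr1, hz⟩
      rcases (hx j).eq_or_lt with h6 | h6
      · have h7 : r = 0 := le_antisymm (by rw [h6]; exact hr1) hr0
        refine ⟨k', 0, le_rfl, (he k').le, ?_⟩
        rw [hz, h7]
        simp
      · obtain ⟨i, hi⟩ := hsurj j h6
        refine ⟨i, r, hr0, ?_, ?_⟩
        · simp only [Function.comp_apply, hi]
          exact hr1
        · simp only [Function.comp_apply, hi]
          exact hz
  have hupd : ∀ (i' : Fin J.card) (i : Fin N) (ρ : ℝ), e i' = i →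
      starSet 0 (θ ∘ e) (Function.update (x ∘ e) i' ρ) ⊆
        starSet 0 θ (Function.update x i ρ) := by
    rintro i' i ρ hi z ⟨j, r, hr0, hr1, hz⟩
    refine ⟨e j, r, hr0, ?_, hz⟩
    by_cases hj : j = i'
    · subst hj
      rw [Function.update_self] at hr1
      rw [← hi, Function.update_self]
      exact hr1
    · rw [Function.update_of_ne hj] at hr1
      have h6 : e j ≠ i := fun h => hj (e.injective (h.trans hi.symm))
      rw [Function.update_of_ne h6]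
      exact hr1
  rw [hset] at hmap
  refine ⟨φ, C, hmap, ?_⟩
  intro ρk ρl hρk hρk' hρl hρl'
  obtain ⟨α₁, β₁, α₂, β₂, g1, g2, g3, g4, gA, gB⟩ := harc ρk ρl hρk
    (by simpa only [Function.comp_apply, hk'] using hρk') hρl
    (by simpa only [Function.comp_apply, hl'] using hρl')
  exact ⟨α₁, β₁, α₂, β₂, g1, g2, g3, g4, fun t ht => hupd l' l ρl hl' (gA t ht),
    fun t ht => hupd k' k ρk hk' (gB t ht)⟩

end Pool.MP_31392c_an
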