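import Pool.Agent.Lib.MP_31392c_an.Full.SpecC

/-!
# StreamPDE: the equations for `Q = ab` and the stream function
-/

set_option autoImplicit false

open MeasureTheory Set Filter Topology

namespace Pool.MP_31392c_an

namespace StreamPDE

/-- directional derivative -/
private noncomputable def D (v : ℂ) (f : ℂ → ℝ) (z : ℂ) : ℝ := fderiv ℝ f z v

private lemma D_congr {v : ℂ} {f g : ℂ → ℝ} {z : ℂ} (h : f =ᶠ[𝓝 z] g) : D v f z = D v g z := by
  unfold D
  rw [h.fderiv_eq]

private lemma D_mul {v : ℂ} {f g : ℂ → ℝ} {z : ℂ} (hf : DifferentiableAt ℝ f z)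
    (hg : DifferentiableAt ℝ g z) :
    D v (fun w => f w * g w) z = f z * D v g z + g z * D v f z := by
  unfold D
  rw [fderiv_fun_mul hf hg]
  simp

private lemma D_sub {v : ℂ} {f g : ℂ → ℝ} {z : ℂ} (hf : DifferentiableAt ℝ f z)
    (hg : DifferentiableAt ℝ g z) :
    D v (fun w => f w - g w) z = D v f z - D v g z := by
  unfold D
  rw [fderiv_fun_sub hf hg]
  simp

private lemma D_add {v : ℂ} {f g : ℂ → ℝ} {z : ℂ} (hf : DifferentiableAt ℝ f z)
    (hg : DifferentiableAt ℝ g z) :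
    D v (fun w => f w + g w) z = D v f z + D v g z := by
  unfold D
  rw [fderiv_fun_add hf hg]
  simp

private lemma D_neg {v : ℂ} {f : ℂ → ℝ} {z : ℂ} :
    D v (fun w => -f w) z = -D v f z := by
  unfold D
  rw [fderiv_fun_neg]
  simp

private lemma diff_D {v : ℂ} {f : ℂ → ℝ} {z : ℂ} (hf : ContDiffAt ℝ 2 f z) :
    DifferentiableAt ℝ (D v f) z := by
  have h1 : ContDiffAt ℝ 1 (fderiv ℝ f) z := hf.fderiv_right (by norm_num)
  have h2 : DifferentiableAt ℝ (fderiv ℝ f) z := h1.differentiableAt (by norm_num)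
  exact h2.clm_apply (differentiableAt_const v)

private lemma D_D {u v : ℂ} {f : ℂ → ℝ} {z : ℂ} (hf : ContDiffAt ℝ 2 f z) :
    D u (D v f) z = fderiv ℝ (fderiv ℝ f) z u v := by
  have h1 : ContDiffAt ℝ 1 (fderiv ℝ f) z := hf.fderiv_right (by norm_num)
  have h2 : HasFDerivAt (fderiv ℝ f) (fderiv ℝ (fderiv ℝ f) z) z :=
    (h1.differentiableAt (by norm_num)).hasFDerivAt
  have h3 := h2.clm_apply (hasFDerivAt_const v z)
  unfold D
  rw [h3.fderiv]
  simp

private lemma D_symm {u v : ℂ} {f : ℂ → ℝ} {z : ℂ} (hf : ContDiffAt ℝ 2 f z) :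
    D u (D v f) z = D v (D u f) z := by
  rw [D_D hf, D_D hf]
  exact (hf.isSymmSndFDerivAt (by simp)).eq u v

private lemma ev_diff {f : ℂ → ℝ} {z : ℂ} (hf : ContDiffAt ℝ 2 f z) :
    ∀ᶠ w in 𝓝 z, DifferentiableAt ℝ f w := by
  filter_upwards [hf.eventually (by simp)] with w hw
  exact hw.differentiableAt (by norm_num)

private lemma D_D_mul {v : ℂ} {a b : ℂ → ℝ} {z : ℂ} (ha : ContDiffAt ℝ 2 a z)
    (hb : ContDiffAt ℝ 2 b z) :
    D v (D v (fun w => a w * b w)) z =
      a z * D v (D v b) z + b z * D v (D v a) z + 2 * (D v a z * D v b z) := by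
  have ha1 := ha.differentiableAt (by norm_num : (2 : WithTop ℕ∞) ≠ 0)
  have hb1 := hb.differentiableAt (by norm_num : (2 : WithTop ℕ∞) ≠ 0)
  have h1 : D v (fun w => a w * b w) =ᶠ[𝓝 z] fun w => a w * D v b w + b w * D v a w := by
    filter_upwards [ev_diff ha, ev_diff hb] with w hwa hwb
    exact D_mul hwa hwb
  rw [D_congr h1, D_add (ha1.fun_mul (diff_D hb)) (hb1.fun_mul (diff_D ha)), D_mul ha1 (diff_D hb),
    D_mul hb1 (diff_D ha)]
  ring

end StreamPDE

open StreamPDE in
theorem s_StreamPDE : StreamPDE := by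
  intro a b M z Vz ha hb hla hlb hM
  have ha1 := ha.differentiableAt (by norm_num : (2 : WithTop ℕ∞) ≠ 0)
  have hb1 := hb.differentiableAt (by norm_num : (2 : WithTop ℕ∞) ≠ 0)
  have hMX : D 1 M =ᶠ[𝓝 z]
      fun w => -(a w * D Complex.I b w - b w * D Complex.I a w) := by
    filter_upwards [hM] with w hw
    exact hw.1
  have hMY : D Complex.I M =ᶠ[𝓝 z] fun w => a w * D 1 b w - b w * D 1 a w := by
    filter_upwards [hM] with w hw
    exact hw.2
  have e1 : D 1 (D 1 M) z = -((a z * D 1 (D Complex.I b) z + D Complex.I b z * D 1 a z) -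
      (b z * D 1 (D Complex.I a) z + D Complex.I a z * D 1 b z)) := by
    rw [D_congr hMX, D_neg, D_sub (ha1.fun_mul (diff_D hb)) (hb1.fun_mul (diff_D ha)),
      D_mul ha1 (diff_D hb), D_mul hb1 (diff_D ha)]
  have e2 : D Complex.I (D Complex.I M) z =
      (a z * D Complex.I (D 1 b) z + D 1 b z * D Complex.I a z) -
      (b z * D Complex.I (D 1 a) z + D 1 a z * D Complex.I b z) := by
    rw [D_congr hMY, D_sub (ha1.fun_mul (diff_D hb)) (hb1.fun_mul (diff_D ha)),
      D_mul ha1 (diff_D hb), D_mul hb1 (diff_D ha)]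
  have e3 := hMX.self_of_nhds
  have e4 := hMY.self_of_nhds
  have e5 : D 1 (fun w => a w * b w) z = a z * D 1 b z + b z * D 1 a z := D_mul ha1 hb1
  have e6 : D Complex.I (fun w => a w * b w) z = a z * D Complex.I b z + b z * D Complex.I a z :=
    D_mul ha1 hb1
  have e7 := D_D_mul (v := 1) ha hb
  have e8 := D_D_mul (v := Complex.I) ha hb
  have s1 := D_symm (u := 1) (v := Complex.I) ha
  have s2 := D_symm (u := 1) (v := Complex.I) hb
  change D 1 (D 1 a) z + D Complex.I (D Complex.I a) z = _ at hla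
  change D 1 (D 1 b) z + D Complex.I (D Complex.I b) z = _ at hlb
  constructor
  · change (a z * b z) * (D 1 (D 1 M) z + D Complex.I (D Complex.I M) z) =
      D 1 (fun w => a w * b w) z * D 1 M z + D Complex.I (fun w => a w * b w) z * D Complex.I M z
    rw [e1, e2, e3, e4, e5, e6, s1, s2]
    ring
  · change 2 * (a z * b z) * (D 1 (D 1 (fun w => a w * b w)) z +
        D Complex.I (D Complex.I (fun w => a w * b w)) z) =
      4 * Vz * (a z * b z) ^ 2 +
      (D 1 (fun w => a w * b w) z * D 1 (fun w => a w * b w) z +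
        D Complex.I (fun w => a w * b w) z * D Complex.I (fun w => a w * b w) z) -
      (D 1 M z * D 1 M z + D Complex.I M z * D Complex.I M z)
    rw [e7, e8, e3, e4, e5, e6]
    linear_combination (2 * (a z * b z) * b z) * hla + (2 * (a z * b z) * a z) * hlb

end Pool.MP_31392c_an
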